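import Pool.Agent.R217.KM.Con4

/-! # Basic facts about `H_0^1` -/

set_option autoImplicit false
set_option linter.unusedSectionVars false
set_option linter.unusedVariables false

open MeasureTheory Filter Topology
open scoped ContDiff ENNReal NNReal RealInnerProductSpace

namespace Run7.h104

open Pool.Agent.R217.BN (E cexp sobS H01)
open Pool.Agent.R217.HS
open Pool.Agent.R217.KM

variable {n : ℕ}

/-- test functions with support in `Ω` -/
def TIn (Ω : Set (E n)) (φ : E n → ℝ) : Prop :=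
  ContDiff ℝ ∞ φ ∧ HasCompactSupport φ ∧ tsupport φ ⊆ Ω

lemma TIn.tst {Ω : Set (E n)} {φ : E n → ℝ} (h : TIn Ω φ) : Tst φ := ⟨h.1, h.2.1⟩

lemma TIn.mono {Ω Ω' : Set (E n)} (hs : Ω ⊆ Ω') {φ : E n → ℝ} (h : TIn Ω φ) : TIn Ω' φ :=
  ⟨h.1, h.2.1, h.2.2.trans hs⟩

lemma TIn.h01 {Ω : Set (E n)} {φ : E n → ℝ} (h : TIn Ω φ) : H01 Ω φ (gradient φ) :=
  ⟨h.tst.memLp 2, h.tst.memLp_grad 2, fun _ => φ, fun _ => h, by simp, by simp⟩

lemma TIn.zero_out {Ω : Set (E n)} {φ : E n → ℝ} (h : TIn Ω φ) {x : E n} (hx : x ∉ Ω) :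
    φ x = 0 := by
  by_contra hc
  exact hx (h.2.2 (subset_tsupport _ hc))

lemma h01_mono {Ω Ω' : Set (E n)} (hs : Ω ⊆ Ω') {u : E n → ℝ} {G : E n → E n}
    (h : H01 Ω u G) : H01 Ω' u G := by
  obtain ⟨h1, h2, φ, h3, h4, h5⟩ := h
  exact ⟨h1, h2, φ, fun k => ⟨(h3 k).1, (h3 k).2.1, (h3 k).2.2.trans hs⟩, h4, h5⟩

lemma h01_congr {Ω : Set (E n)} {u v : E n → ℝ} {G H : E n → E n} (h : H01 Ω u G)
    (hu : u =ᵐ[volume] v) (hG : G =ᵐ[volume] H) : H01 Ω v H := by
  obtain ⟨h1, h2, φ, h3, h4, h5⟩ := h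
  refine ⟨(memLp_congr_ae hu).1 h1, (memLp_congr_ae hG).1 h2, φ, h3, ?_, ?_⟩
  · refine h4.congr fun k => eLpNorm_congr_ae ?_
    filter_upwards [hu] with x hx
    rw [hx]
  · refine h5.congr fun k => eLpNorm_congr_ae ?_
    filter_upwards [hG] with x hx
    rw [hx]

lemma TIn.add {Ω : Set (E n)} {φ ψ : E n → ℝ} (h : TIn Ω φ) (h' : TIn Ω ψ) :
    TIn Ω (fun x => φ x + ψ x) :=
  ⟨h.1.add h'.1, h.2.1.add h'.2.1, (tsupport_add φ ψ).trans (Set.union_subset h.2.2 h'.2.2)⟩

lemma TIn.of_zero {Ω : Set (E n)} {φ ψ : E n → ℝ} (h : TIn Ω φ) (hψ : ContDiff ℝ ∞ ψ)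
    (h0 : ∀ x, φ x = 0 → ψ x = 0) : TIn Ω ψ := by
  have hsub : Function.support ψ ⊆ Function.support φ := by
    intro x hx hc
    exact hx (h0 x hc)
  have h1 : tsupport ψ ⊆ tsupport φ := closure_mono hsub
  exact ⟨hψ, h.2.1.mono' (hsub.trans (subset_tsupport _)), h1.trans h.2.2⟩

lemma TIn.smul {Ω : Set (E n)} (c : ℝ) {φ : E n → ℝ} (h : TIn Ω φ) :
    TIn Ω (fun x => c * φ x) :=
  h.of_zero (contDiff_const.mul h.1) fun x hx => by rw [hx, mul_zero]

lemma h01_add {Ω : Set (E n)} {u v : E n → ℝ} {G H : E n → E n} (h : H01 Ω u G)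
    (h' : H01 Ω v H) : H01 Ω (fun x => u x + v x) (fun x => G x + H x) := by
  obtain ⟨hu, hG, φ, hφ, h1, h2⟩ := h
  obtain ⟨hv, hH, ψ, hψ, h3, h4⟩ := h'
  have tφ : ∀ k, TIn Ω (φ k) := hφ
  have tψ : ∀ k, TIn Ω (ψ k) := hψ
  refine ⟨hu.add hv, hG.add hH, fun k x => φ k x + ψ k x, fun k => (tφ k).add (tψ k), ?_, ?_⟩
  · exact LTo.add (μ := volume) h1 h3 (fun k => (tφ k).tst.memLp 2) hu
      (fun k => (tψ k).tst.memLp 2) hv
  · have := LTo.add (μ := volume) h2 h4 (fun k => (tφ k).tst.memLp_grad 2) hG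
      (fun k => (tψ k).tst.memLp_grad 2) hH
    refine this.congr fun k => ?_
    congr 1
    funext x
    rw [gradient_add ((tφ k).tst.diff x) ((tψ k).tst.diff x)]

lemma h01_smul {Ω : Set (E n)} {u : E n → ℝ} {G : E n → E n} (c : ℝ) (h : H01 Ω u G) :
    H01 Ω (fun x => c * u x) (fun x => c • G x) := by
  obtain ⟨hu, hG, φ, hφ, h1, h2⟩ := h
  have tφ : ∀ k, TIn Ω (φ k) := hφ
  refine ⟨hu.const_mul c, hG.const_smul c, fun k x => c * φ k x, fun k => (tφ k).smul c, ?_, ?_⟩
  · exact LTo.smul (μ := volume) c h1 (fun k => (tφ k).tst.memLp 2) hu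
  · have := LTo.smul (μ := volume) c h2 (fun k => (tφ k).tst.memLp_grad 2) hG
    refine this.congr fun k => ?_
    congr 1
    funext x
    rw [gradient_smul c ((tφ k).tst.diff x)]

lemma h01_sub {Ω : Set (E n)} {u v : E n → ℝ} {G H : E n → E n} (h : H01 Ω u G)
    (h' : H01 Ω v H) : H01 Ω (fun x => u x - v x) (fun x => G x - H x) := by
  have h1 := h01_add h (h01_smul (-1) h')
  refine h01_congr h1 (Eventually.of_forall fun x => ?_) (Eventually.of_forall fun x => ?_)
  · show u x + -1 * v x = u x - v x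
    ring
  · show G x + (-1 : ℝ) • H x = G x - H x
    rw [neg_one_smul, sub_eq_add_neg]

/-- closedness -/
lemma h01_closed {Ω : Set (E n)} {u : ℕ → E n → ℝ} {G : ℕ → E n → E n}
    (h : ∀ k, H01 Ω (u k) (G k)) {u0 : E n → ℝ} {G0 : E n → E n} (hu : MemLp u0 2 volume)
    (hG : MemLp G0 2 volume) (h1 : LTo volume u u0) (h2 : LTo volume G G0) : H01 Ω u0 G0 := by
  have key : ∀ k : ℕ, ∃ ψ : E n → ℝ, TIn Ω ψ ∧
      eLpNorm (fun x => ψ x - u k x) 2 volume ≤ ENNReal.ofReal (1 / ((k:ℝ) + 1)) ∧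
      eLpNorm (fun x => gradient ψ x - G k x) 2 volume ≤ ENNReal.ofReal (1 / ((k:ℝ) + 1)) := by
    intro k
    obtain ⟨hu', hG', φ, hφ, h3, h4⟩ := h k
    have hp : 0 < ENNReal.ofReal (1 / ((k:ℝ) + 1)) := by
      rw [ENNReal.ofReal_pos]; positivity
    obtain ⟨j, hj1, hj2⟩ := ((h3.eventually (gt_mem_nhds hp)).and
      (h4.eventually (gt_mem_nhds hp))).exists
    exact ⟨φ j, hφ j, hj1.le, hj2.le⟩
  choose ψ hψ h3 h4 using key
  have ht : Tendsto (fun k : ℕ => ENNReal.ofReal (1 / ((k:ℝ) + 1))) atTop (𝓝 0) := by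
    have := ENNReal.continuous_ofReal.tendsto _ |>.comp
      (tendsto_one_div_add_atTop_nhds_zero_nat (𝕜 := ℝ))
    rw [ENNReal.ofReal_zero] at this
    exact this
  refine ⟨hu, hG, ψ, hψ, ?_, ?_⟩
  · have ht2 := ht.add (show Tendsto (fun k => eLpNorm (fun x => u k x - u0 x) 2 volume) atTop
      (𝓝 0) from h1)
    rw [zero_add] at ht2
    refine tendsto_of_tendsto_of_tendsto_of_le_of_le tendsto_const_nhds ht2 (fun _ => zero_le) ?_
    intro k
    have e : (fun x => ψ k x - u0 x) = fun x => (ψ k x - u k x) + (u k x - u0 x) := by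
      funext x; ring
    dsimp only
    rw [e]
    refine (eLpNorm_add_le (((hψ k).tst.memLp 2).1.sub (h k).1.1) ((h k).1.1.sub hu.1)
      (by norm_num)).trans ?_
    exact add_le_add (h3 k) le_rfl
  · have ht2 := ht.add (show Tendsto (fun k => eLpNorm (fun x => G k x - G0 x) 2 volume) atTop
      (𝓝 0) from h2)
    rw [zero_add] at ht2
    refine tendsto_of_tendsto_of_tendsto_of_le_of_le tendsto_const_nhds ht2 (fun _ => zero_le) ?_
    intro k
    have e : (fun x => gradient (ψ k) x - G0 x) =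
        fun x => (gradient (ψ k) x - G k x) + (G k x - G0 x) := by
      funext x; abel
    dsimp only
    rw [e]
    refine (eLpNorm_add_le (((hψ k).tst.memLp_grad 2).1.sub (h k).2.1.1)
      ((h k).2.1.1.sub hG.1) (by norm_num)).trans ?_
    exact add_le_add (h4 k) le_rfl

/-- an approximating sequence which also converges almost everywhere -/
lemma h01_seq {Ω : Set (E n)} {u : E n → ℝ} {G : E n → E n} (h : H01 Ω u G) :
    ∃ φ : ℕ → E n → ℝ, (∀ k, TIn Ω (φ k)) ∧ LTo volume φ u ∧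
      LTo volume (fun k => gradient (φ k)) G ∧
      (∀ᵐ x ∂(volume : Measure (E n)), Tendsto (fun k => φ k x) atTop (𝓝 (u x))) ∧
      ∀ᵐ x ∂(volume : Measure (E n)), Tendsto (fun k => gradient (φ k) x) atTop (𝓝 (G x)) := by
  obtain ⟨hu, hG, φ, hφ, h1, h2⟩ := h
  have tφ : ∀ k, TIn Ω (φ k) := hφ
  have hL1 : LTo volume φ u := h1
  have hL2 : LTo volume (fun k => gradient (φ k)) G := h2
  obtain ⟨ns, hns, hae⟩ := hL1.ae (fun k => (tφ k).tst.memLp 2) hu
  have hL2' : LTo volume (fun k => gradient (φ (ns k))) G := hL2.comp hns.tendsto_atTop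
  obtain ⟨ms, hms, hae2⟩ := hL2'.ae (fun k => (tφ _).tst.memLp_grad 2) hG
  refine ⟨fun k => φ (ns (ms k)), fun k => tφ _,
    (hL1.comp hns.tendsto_atTop).comp hms.tendsto_atTop, hL2'.comp hms.tendsto_atTop, ?_, hae2⟩
  filter_upwards [hae] with x hx
  exact hx.comp hms.tendsto_atTop

lemma gradient_comp {Θ : ℝ → ℝ} (hΘ : Differentiable ℝ Θ) {φ : E n → ℝ} {x : E n}
    (h : DifferentiableAt ℝ φ x) :
    gradient (fun x => Θ (φ x)) x = deriv Θ (φ x) • gradient φ x := by
  unfold gradient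
  have h1 : HasFDerivAt (fun x => Θ (φ x)) (deriv Θ (φ x) • fderiv ℝ φ x) x :=
    (hΘ (φ x)).hasDerivAt.comp_hasFDerivAt x h.hasFDerivAt
  rw [h1.fderiv, map_smul]

/-- Dominated convergence in `L²` -/
lemma lTo_of_dominated {F : Type*} [NormedAddCommGroup F] [InnerProductSpace ℝ F]
    {f : ℕ → E n → F} {g : E n → F} {b : E n → ℝ}
    (hf : ∀ k, AEStronglyMeasurable (f k) volume) (hb : MemLp b 2 volume)
    (hfb : ∀ k, ∀ᵐ x ∂(volume : Measure (E n)), ‖f k x‖ ≤ b x)
    (hlim : ∀ᵐ x ∂(volume : Measure (E n)), Tendsto (fun k => f k x) atTop (𝓝 (g x)))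
    (hg : MemLp g 2 volume) : LTo volume f g := by
  have hfm : ∀ k, MemLp (f k) 2 volume := fun k => hb.mono' (hf k) (hfb k)
  apply lTo_of_sq hfm hg
  have hbi : Integrable (fun x => (‖b x‖ + ‖g x‖) ^ 2) volume := by
    have h1 : MemLp (fun x => ‖b x‖ + ‖g x‖) 2 volume := hb.norm.add hg.norm
    exact h1.integrable_sq
  have h0 : Tendsto (fun k => ∫ x, ‖f k x - g x‖ ^ 2) atTop
      (𝓝 (∫ x : E n, (fun _ => (0:ℝ)) x)) := by
    apply tendsto_integral_of_dominated_convergence (fun x => (‖b x‖ + ‖g x‖) ^ 2) _ hbi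
    · intro k
      filter_upwards [hfb k] with x hx
      rw [Real.norm_eq_abs, abs_of_nonneg (by positivity)]
      have h2 : ‖f k x - g x‖ ≤ ‖b x‖ + ‖g x‖ := by
        refine (norm_sub_le _ _).trans ?_
        gcongr
        exact hx.trans (le_abs_self _)
      exact pow_le_pow_left₀ (norm_nonneg _) h2 2
    · filter_upwards [hlim] with x hx
      have h3 : Tendsto (fun k => ‖f k x - g x‖) atTop (𝓝 0) :=
        tendsto_iff_norm_sub_tendsto_zero.1 hx
      simpa using h3.pow 2
    · intro k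
      exact ((hf k).sub hg.1).norm.pow 2
  simpa using h0

/-- chain rule -/
lemma h01_comp {Ω : Set (E n)} {u : E n → ℝ} {G : E n → E n} (h : H01 Ω u G) {Θ : ℝ → ℝ}
    (hΘ : ContDiff ℝ ∞ Θ) (h0 : Θ 0 = 0) {C : ℝ} (hC : ∀ t, |deriv Θ t| ≤ C) :
    H01 Ω (fun x => Θ (u x)) (fun x => deriv Θ (u x) • G x) := by
  have hC0 : 0 ≤ C := (abs_nonneg _).trans (hC 0)
  have hd : Differentiable ℝ Θ := hΘ.differentiable (by simp)
  have hdc : Continuous (deriv Θ) := hΘ.continuous_deriv (by simp)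
  have hlip : ∀ s t, |Θ s - Θ t| ≤ C * |s - t| := by
    intro s t
    have := Convex.norm_image_sub_le_of_norm_deriv_le (f := Θ) (s := Set.univ)
      (fun x _ => hd x) (fun x _ => hC x) convex_univ (Set.mem_univ t) (Set.mem_univ s)
    simpa using this
  obtain ⟨φ, tφ, h1, h2, h3, h4⟩ := h01_seq h
  obtain ⟨hu, hG, -⟩ := h
  have mu : MemLp (fun x => Θ (u x)) 2 volume := by
    refine (hu.const_mul C).mono (hΘ.continuous.comp_aestronglyMeasurable hu.1)
      (Eventually.of_forall fun x => ?_)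
    have := hlip (u x) 0
    rw [h0, sub_zero, sub_zero] at this
    rw [Real.norm_eq_abs, Real.norm_eq_abs, abs_mul, abs_of_nonneg hC0]
    exact this
  have mG : MemLp (fun x => deriv Θ (u x) • G x) 2 volume := by
    refine (hG.norm.const_mul C).mono
      ((hdc.comp_aestronglyMeasurable hu.1).smul hG.1) (Eventually.of_forall fun x => ?_)
    rw [norm_smul, Real.norm_eq_abs, Real.norm_eq_abs, abs_mul, abs_of_nonneg hC0, abs_norm]
    exact mul_le_mul_of_nonneg_right (hC _) (norm_nonneg _)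
  have tt : ∀ k, TIn Ω (fun x => Θ (φ k x)) := fun k =>
    (tφ k).of_zero (hΘ.comp (tφ k).1) fun x hx => by rw [hx, h0]
  have eg : ∀ k, gradient (fun x => Θ (φ k x)) = fun x => deriv Θ (φ k x) • gradient (φ k) x := by
    intro k
    funext x
    exact gradient_comp hd ((tφ k).tst.diff x)
  refine h01_closed (fun k => (tt k).h01) mu mG ?_ ?_
  · -- convergence of the functions
    have h5 := h1.sub_sq (fun k => (tφ k).tst.memLp 2) hu
    apply lTo_of_sq (fun k => (tt k).tst.memLp 2) mu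
    have h6 := h5.const_mul (C ^ 2)
    rw [mul_zero] at h6
    refine tendsto_of_tendsto_of_tendsto_of_le_of_le tendsto_const_nhds h6
      (fun k => integral_nonneg fun x => by positivity) ?_
    intro k
    dsimp only
    rw [← integral_const_mul]
    apply integral_mono
    · exact integrable_sq (((tt k).tst.memLp 2).sub mu)
    · exact (integrable_sq (((tφ k).tst.memLp 2).sub hu)).const_mul _
    · intro x
      dsimp only
      rw [← mul_pow]
      apply pow_le_pow_left₀ (norm_nonneg _)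
      simpa using hlip (φ k x) (u x)
  · have hA : LTo volume (fun k x => deriv Θ (φ k x) • (gradient (φ k) x - G x))
        (fun _ => (0 : E n)) := by
      have h5 := h2.sub_sq (fun k => (tφ k).tst.memLp_grad 2) hG
      have mm : ∀ k, MemLp (fun x => deriv Θ (φ k x) • (gradient (φ k) x - G x)) 2 volume := by
        intro k
        have hm := ((tφ k).tst.memLp_grad 2).sub hG
        refine (hm.norm.const_mul C).mono
          ((hdc.comp_aestronglyMeasurable ((tφ k).tst.memLp 2).1).smul hm.1)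
          (Eventually.of_forall fun x => ?_)
        rw [norm_smul, Real.norm_eq_abs, Real.norm_eq_abs, abs_mul, abs_of_nonneg hC0, abs_norm]
        exact mul_le_mul_of_nonneg_right (hC _) (norm_nonneg _)
      apply lTo_of_sq mm (MemLp.zero (μ := volume))
      have h6 := h5.const_mul (C ^ 2)
      rw [mul_zero] at h6
      refine tendsto_of_tendsto_of_tendsto_of_le_of_le tendsto_const_nhds h6
        (fun k => integral_nonneg fun x => by positivity) ?_
      intro k
      dsimp only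
      rw [← integral_const_mul]
      apply integral_mono
      · exact integrable_sq ((mm k).sub (MemLp.zero (μ := volume)))
      · exact (integrable_sq (((tφ k).tst.memLp_grad 2).sub hG)).const_mul _
      · intro x
        dsimp only
        rw [← mul_pow]
        apply pow_le_pow_left₀ (norm_nonneg _)
        rw [Pi.zero_apply, sub_zero, norm_smul]
        exact mul_le_mul_of_nonneg_right (hC _) (norm_nonneg _)
    have hB : LTo volume (fun k x => deriv Θ (φ k x) • G x) (fun x => deriv Θ (u x) • G x) := by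
      refine lTo_of_dominated (b := fun x => C * ‖G x‖) (fun k => ?_) (hG.norm.const_mul C)
        (fun k => Eventually.of_forall fun x => ?_) ?_ mG
      · exact (hdc.comp_aestronglyMeasurable ((tφ k).tst.memLp 2).1).smul hG.1
      · rw [norm_smul]
        exact mul_le_mul_of_nonneg_right (hC _) (norm_nonneg _)
      · filter_upwards [h3] with x hx
        exact ((hdc.tendsto _).comp hx).smul_const _
    have mB : ∀ k, MemLp (fun x => deriv Θ (φ k x) • G x) 2 volume := by
      intro k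
      refine (hG.norm.const_mul C).mono
        ((hdc.comp_aestronglyMeasurable ((tφ k).tst.memLp 2).1).smul hG.1)
        (Eventually.of_forall fun x => ?_)
      rw [norm_smul, Real.norm_eq_abs, Real.norm_eq_abs, abs_mul, abs_of_nonneg hC0, abs_norm]
      exact mul_le_mul_of_nonneg_right (hC _) (norm_nonneg _)
    have mA : ∀ k, MemLp (fun x => deriv Θ (φ k x) • (gradient (φ k) x - G x)) 2 volume := by
      intro k
      have hm := ((tφ k).tst.memLp_grad 2).sub hG
      refine (hm.norm.const_mul C).mono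
        ((hdc.comp_aestronglyMeasurable ((tφ k).tst.memLp 2).1).smul hm.1)
        (Eventually.of_forall fun x => ?_)
      rw [norm_smul, Real.norm_eq_abs, Real.norm_eq_abs, abs_mul, abs_of_nonneg hC0, abs_norm]
      exact mul_le_mul_of_nonneg_right (hC _) (norm_nonneg _)
    have hAB := LTo.add hA hB mA (MemLp.zero (μ := volume)) mB mG
    have e : ∀ k, gradient (fun x => Θ (φ k x)) =
        fun x => deriv Θ (φ k x) • (gradient (φ k) x - G x) + deriv Θ (φ k x) • G x := by
      intro k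
      rw [eg k]
      funext x
      rw [← smul_add, sub_add_cancel]
    simp only [zero_add] at hAB
    refine Tendsto.congr (fun k => ?_) hAB
    dsimp only
    rw [e k]

end Run7.h104
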