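import Pool.Agent.Run7.h104.Sol3

/-! # Product test functions in boxes -/

set_option autoImplicit false
set_option linter.unusedSectionVars false
set_option linter.unusedVariables false

open MeasureTheory Filter Topology
open scoped ContDiff ENNReal NNReal RealInnerProductSpace

namespace Run7.h104

open Pool.Agent.R217.BN (E cexp sobS H01)
open Pool.Agent.R217.HS
open Pool.Agent.R217.KM

/-- smooth functions of one variable with compact support -/
def T1 (f : ℝ → ℝ) : Prop := ContDiff ℝ ∞ f ∧ HasCompactSupport f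

lemma T1.int_pow {f : ℝ → ℝ} (h : T1 f) {n : ℕ} (hn : n ≠ 0) : Integrable (fun t => f t ^ n) := by
  apply (h.1.continuous.pow n).integrable_of_hasCompactSupport
  refine h.2.mono fun t ht => ?_
  rw [Function.mem_support] at ht ⊢
  intro hc
  exact ht (by rw [Pi.pow_apply, hc, zero_pow hn])

lemma T1.int_deriv {f : ℝ → ℝ} (h : T1 f) : Integrable (fun t => deriv f t ^ 2) := by
  apply ((h.1.continuous_deriv (by simp)).pow 2).integrable_of_hasCompactSupport
  refine (h.2.deriv).mono fun t ht => ?_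
  rw [Function.mem_support] at ht ⊢
  intro hc
  exact ht (by rw [Pi.pow_apply, hc]; norm_num)

/-- product function -/
noncomputable def pv (f0 f1 f2 : ℝ → ℝ) (x : E 3) : ℝ := f0 (x 0) * f1 (x 1) * f2 (x 2)

lemma pv_TIn {D : Set (E 3)} {f0 f1 f2 : ℝ → ℝ} (h0 : T1 f0) (h1 : T1 f1) (h2 : T1 f2)
    (hD : ∀ x : E 3, x 0 ∈ tsupport f0 → x 1 ∈ tsupport f1 → x 2 ∈ tsupport f2 → x ∈ D) :
    TIn D (pv f0 f1 f2) := by
  have c0 : ContDiff ℝ ∞ fun x : E 3 => x 0 := (pj 0).contDiff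
  have c1 : ContDiff ℝ ∞ fun x : E 3 => x 1 := (pj 1).contDiff
  have c2 : ContDiff ℝ ∞ fun x : E 3 => x 2 := (pj 2).contDiff
  obtain ⟨K, hK⟩ : ∃ K : Set (E 3), K = {x | x 0 ∈ tsupport f0 ∧ x 1 ∈ tsupport f1 ∧
    x 2 ∈ tsupport f2} := ⟨_, rfl⟩
  have hKc : IsClosed K := by
    rw [hK]
    have k0 : IsClosed {x : E 3 | x 0 ∈ tsupport f0} :=
      (isClosed_tsupport f0).preimage c0.continuous
    have k1 : IsClosed {x : E 3 | x 1 ∈ tsupport f1} :=
      (isClosed_tsupport f1).preimage c1.continuous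
    have k2 : IsClosed {x : E 3 | x 2 ∈ tsupport f2} :=
      (isClosed_tsupport f2).preimage c2.continuous
    exact k0.inter (k1.inter k2)
  have hKcpt : IsCompact K := by
    have hc : IsCompact (Set.pi Set.univ ![tsupport f0, tsupport f1, tsupport f2]) := by
      apply isCompact_univ_pi
      intro i
      fin_cases i
      · exact h0.2
      · exact h1.2
      · exact h2.2
    have hc2 := (EuclideanSpace.equiv (Fin 3) ℝ).toHomeomorph.isCompact_preimage.2 hc
    refine hc2.of_isClosed_subset hKc ?_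
    intro x hx
    rw [hK] at hx
    obtain ⟨a0, a1, a2⟩ := hx
    rw [Set.mem_preimage, Set.mem_univ_pi]
    intro i
    fin_cases i
    · exact a0
    · exact a1
    · exact a2
  have hsupp : Function.support (pv f0 f1 f2) ⊆ K := by
    intro x hx
    rw [Function.mem_support] at hx
    unfold pv at hx
    rw [hK]
    refine ⟨subset_tsupport _ ?_, subset_tsupport _ ?_, subset_tsupport _ ?_⟩
    · rw [Function.mem_support]; rintro hc; apply hx; rw [hc]; ring
    · rw [Function.mem_support]; rintro hc; apply hx; rw [hc]; ring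
    · rw [Function.mem_support]; rintro hc; apply hx; rw [hc]; ring
  refine ⟨((h0.1.comp c0).mul (h1.1.comp c1)).mul (h2.1.comp c2),
    HasCompactSupport.of_support_subset_isCompact hKcpt hsupp, ?_⟩
  refine (closure_minimal hsupp hKc).trans ?_
  intro x hx
  rw [hK] at hx
  exact hD x hx.1 hx.2.1 hx.2.2

lemma pv_six {f0 f1 f2 : ℝ → ℝ} : ∫ x, pv f0 f1 f2 x ^ 6 =
    (∫ t, f0 t ^ 6) * (∫ t, f1 t ^ 6) * ∫ t, f2 t ^ 6 := by
  rw [← int3 (fun t => f0 t ^ 6) (fun t => f1 t ^ 6) (fun t => f2 t ^ 6)]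
  congr 1
  funext x
  unfold pv
  ring

lemma pv_Ea {f0 f1 f2 : ℝ → ℝ} (h0 : T1 f0) (h1 : T1 f1) (h2 : T1 f2) (lam : ℝ) :
    Ea lam (pv f0 f1 f2) (gradient (pv f0 f1 f2)) =
      (∫ t, deriv f0 t ^ 2) * (∫ t, f1 t ^ 2) * (∫ t, f2 t ^ 2) +
      (∫ t, f0 t ^ 2) * (∫ t, deriv f1 t ^ 2) * (∫ t, f2 t ^ 2) +
      (∫ t, f0 t ^ 2) * (∫ t, f1 t ^ 2) * (∫ t, deriv f2 t ^ 2) -
      lam * ((∫ t, f0 t ^ 2) * (∫ t, f1 t ^ 2) * ∫ t, f2 t ^ 2) := by
  have hg : ∀ x : E 3, ‖gradient (pv f0 f1 f2) x‖ ^ 2 =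
      ((fun t => deriv f0 t ^ 2) (x 0) * (fun t => f1 t ^ 2) (x 1) * (fun t => f2 t ^ 2) (x 2) +
      (fun t => f0 t ^ 2) (x 0) * (fun t => deriv f1 t ^ 2) (x 1) * (fun t => f2 t ^ 2) (x 2)) +
      (fun t => f0 t ^ 2) (x 0) * (fun t => f1 t ^ 2) (x 1) *
        (fun t => deriv f2 t ^ 2) (x 2) := by
    intro x
    have d0 : HasFDerivAt (fun y : E 3 => f0 (y 0)) (deriv f0 (x 0) • pj 0) x :=
      ((h0.1.differentiable (by simp)) _).hasDerivAt.comp_hasFDerivAt x (pj_fderiv 0 x)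
    have d1 : HasFDerivAt (fun y : E 3 => f1 (y 1)) (deriv f1 (x 1) • pj 1) x :=
      ((h1.1.differentiable (by simp)) _).hasDerivAt.comp_hasFDerivAt x (pj_fderiv 1 x)
    have d2 : HasFDerivAt (fun y : E 3 => f2 (y 2)) (deriv f2 (x 2) • pj 2) x :=
      ((h2.1.differentiable (by simp)) _).hasDerivAt.comp_hasFDerivAt x (pj_fderiv 2 x)
    have hd := (d0.mul d1).mul d2
    rw [← real_inner_self_eq_norm_sq, inner_grads, Fin.sum_univ_three]
    have hfd : fderiv ℝ (pv f0 f1 f2) x = _ := hd.fderiv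
    rw [hfd]
    simp
    ring
  have hq : ∀ x : E 3, pv f0 f1 f2 x ^ 2 =
      (fun t => f0 t ^ 2) (x 0) * (fun t => f1 t ^ 2) (x 1) * (fun t => f2 t ^ 2) (x 2) := by
    intro x
    unfold pv
    ring
  unfold Ea
  rw [integral_congr_ae (Eventually.of_forall hg), integral_congr_ae (Eventually.of_forall hq),
    integral_add, integral_add]
  · rw [int3 (fun t => deriv f0 t ^ 2) (fun t => f1 t ^ 2) (fun t => f2 t ^ 2),
      int3 (fun t => f0 t ^ 2) (fun t => deriv f1 t ^ 2) (fun t => f2 t ^ 2),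
      int3 (fun t => f0 t ^ 2) (fun t => f1 t ^ 2) (fun t => deriv f2 t ^ 2),
      int3 (fun t => f0 t ^ 2) (fun t => f1 t ^ 2) (fun t => f2 t ^ 2)]
  · exact integrable3 h0.int_deriv (h1.int_pow two_ne_zero) (h2.int_pow two_ne_zero)
  · exact integrable3 (h0.int_pow two_ne_zero) h1.int_deriv (h2.int_pow two_ne_zero)
  · exact (integrable3 h0.int_deriv (h1.int_pow two_ne_zero) (h2.int_pow two_ne_zero)).add
      (integrable3 (h0.int_pow two_ne_zero) h1.int_deriv (h2.int_pow two_ne_zero))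
  · exact integrable3 (h0.int_pow two_ne_zero) (h1.int_pow two_ne_zero) h2.int_deriv

/-! ## scaling -/

/-- scaled profile -/
noncomputable def sc (f : ℝ → ℝ) (q c t : ℝ) : ℝ := f ((t - q) / c)

lemma sc_T1 {f : ℝ → ℝ} (hf : T1 f) (q : ℝ) {c : ℝ} (hc : 0 < c) : T1 (sc f q c) := by
  refine ⟨?_, ?_⟩
  · unfold sc
    exact hf.1.comp (by fun_prop)
  · have h1 : sc f q c = f ∘ ((Homeomorph.subRight q).trans
        (Homeomorph.mulRight₀ c⁻¹ (inv_ne_zero hc.ne'))) := by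
      funext t; simp [sc, div_eq_mul_inv]
    rw [h1]
    exact hf.2.comp_homeomorph _

lemma sc_deriv {f : ℝ → ℝ} (hf : T1 f) (q : ℝ) {c : ℝ} (hc : 0 < c) (t : ℝ) :
    deriv (sc f q c) t = deriv f ((t - q) / c) / c := by
  have h1 : HasDerivAt (fun t : ℝ => (t - q) / c) (1 / c) t :=
    ((hasDerivAt_id t).sub_const q).div_const c
  have h2 : HasDerivAt f (deriv f ((t - q) / c)) ((t - q) / c) :=
    ((hf.1.differentiable (by simp)) _).hasDerivAt
  have h3 := HasDerivAt.comp t h2 h1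
  rw [mul_one_div] at h3
  exact h3.deriv

lemma sc_int_pow (f : ℝ → ℝ) (q : ℝ) {c : ℝ} (hc : 0 < c) (n : ℕ) :
    ∫ t, sc f q c t ^ n = c * ∫ t, f t ^ n := scale1 (fun t => f t ^ n) q hc

lemma sc_int_deriv {f : ℝ → ℝ} (hf : T1 f) (q : ℝ) {c : ℝ} (hc : 0 < c) :
    ∫ t, deriv (sc f q c) t ^ 2 = (∫ t, deriv f t ^ 2) / c := by
  have h : ∀ t, deriv (sc f q c) t ^ 2 = (fun s => deriv f s ^ 2 / c ^ 2) ((t - q) / c) := by
    intro t
    rw [sc_deriv hf q hc, div_pow]
  simp_rw [h]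
  rw [scale1 (fun s => deriv f s ^ 2 / c ^ 2) q hc, integral_div]
  field_simp

lemma sc_tsupport {f : ℝ → ℝ} {q c t : ℝ} (hc : 0 < c) (ht : t ∈ tsupport (sc f q c)) :
    (t - q) / c ∈ tsupport f := by
  have h1 : tsupport (sc f q c) ⊆ (fun t => (t - q) / c) ⁻¹' tsupport f := by
    apply closure_minimal
    · intro y hy
      exact subset_tsupport f hy
    · exact (isClosed_tsupport f).preimage (by fun_prop)
  exact h1 ht

end Run7.h104
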