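import Pool.Agent.Run7.h104.Box1

/-! # A nearly optimal profile and the box criterion -/

set_option autoImplicit false
set_option linter.unusedSectionVars false
set_option linter.unusedVariables false

open MeasureTheory Filter Topology
open scoped ContDiff ENNReal NNReal RealInnerProductSpace

namespace Run7.h104

open Pool.Agent.R217.BN (E cexp sobS H01)
open Pool.Agent.R217.HS
open Pool.Agent.R217.KM

/-- cut-off equal to one on `[0, π]` -/
noncomputable def chi : ContDiffBump (Real.pi / 2) := ⟨Real.pi / 2, Real.pi, by positivity,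
  by linarith [Real.pi_pos]⟩

lemma chi_one {t : ℝ} (h0 : 0 ≤ t) (h1 : t ≤ Real.pi) : chi t = 1 := by
  apply chi.one_of_mem_closedBall
  rw [Metric.mem_closedBall, Real.dist_eq, abs_le]
  constructor
  · show -(Real.pi / 2) ≤ _
    linarith
  · show _ ≤ Real.pi / 2
    linarith

/-- nearly optimal profile on `(0, π)` -/
noncomputable def pf (s t : ℝ) : ℝ := chi t * (s * PP (Real.sin t / s - 1))

lemma pf_smooth (s : ℝ) : ContDiff ℝ ∞ (pf s) := by
  have h1 : ContDiff ℝ ∞ (chi : ℝ → ℝ) := chi.contDiff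
  exact h1.mul (contDiff_const.mul (PP_smooth.comp
    ((Real.contDiff_sin.div_const s).sub contDiff_const)))

lemma pf_supp {s t : ℝ} (hs : 0 < s) (h : pf s t ≠ 0) :
    0 ≤ t ∧ t ≤ Real.pi ∧ s ≤ Real.sin t := by
  have hπ := Real.pi_pos
  unfold pf at h
  have h1 : chi t ≠ 0 := left_ne_zero_of_mul h
  have h2 : PP (Real.sin t / s - 1) ≠ 0 := right_ne_zero_of_mul (right_ne_zero_of_mul h)
  have h3 := PP_pos_iff h2
  have h4 : s < Real.sin t := by
    have : 1 < Real.sin t / s := by linarith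
    rwa [lt_div_iff₀ hs, one_mul] at this
  have h5 : |t - Real.pi / 2| < Real.pi := by
    by_contra hc
    apply h1
    apply chi.zero_of_le_dist
    rw [Real.dist_eq]
    exact not_lt.1 hc
  rw [abs_lt] at h5
  refine ⟨?_, ?_, h4.le⟩
  · by_contra hc
    rw [not_le] at hc
    have := Real.sin_neg_of_neg_of_neg_pi_lt hc (by linarith)
    linarith
  · by_contra hc
    rw [not_le] at hc
    have h6 : Real.sin (Real.pi - t) < 0 :=
      Real.sin_neg_of_neg_of_neg_pi_lt (by linarith) (by linarith)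
    rw [Real.sin_pi_sub] at h6
    linarith

lemma pf_tsupport {s : ℝ} (hs : 0 < s) : tsupport (pf s) ⊆ Set.Ioo 0 Real.pi := by
  have hc : IsClosed {t : ℝ | 0 ≤ t ∧ t ≤ Real.pi ∧ s ≤ Real.sin t} := by
    have k0 : IsClosed {t : ℝ | 0 ≤ t} := isClosed_le continuous_const continuous_id
    have k1 : IsClosed {t : ℝ | t ≤ Real.pi} := isClosed_le continuous_id continuous_const
    have k2 : IsClosed {t : ℝ | s ≤ Real.sin t} := isClosed_le continuous_const Real.continuous_sin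
    exact k0.inter (k1.inter k2)
  have h1 : tsupport (pf s) ⊆ {t : ℝ | 0 ≤ t ∧ t ≤ Real.pi ∧ s ≤ Real.sin t} :=
    closure_minimal (fun t ht => pf_supp hs ht) hc
  intro t ht
  obtain ⟨a, b, c⟩ := h1 ht
  refine ⟨lt_of_le_of_ne a ?_, lt_of_le_of_ne b ?_⟩
  · rintro rfl
    rw [Real.sin_zero] at c; linarith
  · rintro rfl
    rw [Real.sin_pi] at c; linarith

lemma pf_T1 {s : ℝ} (hs : 0 < s) : T1 (pf s) := by
  refine ⟨pf_smooth s, ?_⟩
  apply HasCompactSupport.intro' (isCompact_Icc (a := 0) (b := Real.pi)) isClosed_Icc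
  intro t ht
  by_contra hc
  obtain ⟨a, b, -⟩ := pf_supp hs hc
  exact ht ⟨a, b⟩

lemma PP_le {t : ℝ} (ht : 0 ≤ t) : PP t ≤ t := by
  have h1 := PP_lip t 0
  rw [PP_of_nonpos le_rfl, sub_zero, sub_zero, abs_of_nonneg ht] at h1
  exact (le_abs_self _).trans h1

lemma pf_le {s t : ℝ} (hs : 0 < s) (h0 : 0 ≤ t) (h1 : t ≤ Real.pi) :
    0 ≤ pf s t ∧ pf s t ≤ Real.sin t ∧ Real.sin t - 2 * s ≤ pf s t := by
  have hsin : 0 ≤ Real.sin t := Real.sin_nonneg_of_nonneg_of_le_pi h0 h1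
  unfold pf
  rw [chi_one h0 h1, one_mul]
  refine ⟨mul_nonneg hs.le (PP_nonneg _), ?_, ?_⟩
  · by_cases h : Real.sin t / s - 1 ≤ 0
    · rw [PP_of_nonpos h, mul_zero]; exact hsin
    · have h2 := PP_le (not_le.1 h).le
      have h3 : s * PP (Real.sin t / s - 1) ≤ s * (Real.sin t / s - 1) :=
        mul_le_mul_of_nonneg_left h2 hs.le
      have h4 : s * (Real.sin t / s - 1) = Real.sin t - s := by field_simp
      linarith
  · have h2 := PP_ge (Real.sin t / s - 1)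
    have h3 : s * (Real.sin t / s - 1 - 1) ≤ s * PP (Real.sin t / s - 1) :=
      mul_le_mul_of_nonneg_left h2 hs.le
    have h4 : s * (Real.sin t / s - 1 - 1) = Real.sin t - 2 * s := by field_simp; ring
    linarith

lemma pf_deriv_sq {s t : ℝ} (hs : 0 < s) (h0 : 0 < t) (h1 : t < Real.pi) :
    deriv (pf s) t ^ 2 ≤ Real.cos t ^ 2 := by
  have hev : pf s =ᶠ[𝓝 t] fun t => s * PP (Real.sin t / s - 1) := by
    filter_upwards [isOpen_Ioo.mem_nhds (⟨h0, h1⟩ : t ∈ Set.Ioo 0 Real.pi)] with y hy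
    unfold pf
    rw [chi_one hy.1.le hy.2.le, one_mul]
  have hd : HasDerivAt (fun t => s * PP (Real.sin t / s - 1))
      (s * (Real.smoothTransition (Real.sin t / s - 1) * (Real.cos t / s))) t := by
    have h2 : HasDerivAt (fun t => Real.sin t / s - 1) (Real.cos t / s) t :=
      ((Real.hasDerivAt_sin t).div_const s).sub_const 1
    exact (HasDerivAt.comp t (PP_hasDerivAt _) h2).const_mul s
  rw [hev.deriv_eq, hd.deriv]
  have e : s * (Real.smoothTransition (Real.sin t / s - 1) * (Real.cos t / s)) =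
      Real.smoothTransition (Real.sin t / s - 1) * Real.cos t := by field_simp
  rw [e, mul_pow]
  have h2 := Real.smoothTransition.nonneg (Real.sin t / s - 1)
  have h3 := Real.smoothTransition.le_one (Real.sin t / s - 1)
  have h4 : Real.smoothTransition (Real.sin t / s - 1) ^ 2 ≤ 1 := by nlinarith
  nlinarith [sq_nonneg (Real.cos t)]

lemma pf_int_eq (g : ℝ → ℝ) (hg : Function.support g ⊆ Set.Ioc 0 Real.pi) :
    ∫ t, g t = ∫ t in (0:ℝ)..Real.pi, g t :=
  (intervalIntegral.integral_eq_integral_of_support_subset hg).symm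

lemma pf_supp_pow {s : ℝ} (hs : 0 < s) {n : ℕ} (hn : n ≠ 0) :
    Function.support (fun t => pf s t ^ n) ⊆ Set.Ioc 0 Real.pi := by
  intro t ht
  rw [Function.mem_support] at ht
  have h1 : pf s t ≠ 0 := fun hc => ht (by rw [hc, zero_pow hn])
  exact Set.Ioo_subset_Ioc_self (pf_tsupport hs (subset_tsupport _ h1))

lemma pf_I1 {s : ℝ} (hs : 0 < s) : ∫ t, deriv (pf s) t ^ 2 ≤ Real.pi / 2 := by
  have hsupp : Function.support (fun t => deriv (pf s) t ^ 2) ⊆ Set.Ioc 0 Real.pi := by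
    intro t ht
    rw [Function.mem_support] at ht
    have h1 : deriv (pf s) t ≠ 0 := fun hc => ht (by rw [hc]; norm_num)
    exact Set.Ioo_subset_Ioc_self (pf_tsupport hs (support_deriv_subset h1))
  rw [pf_int_eq _ hsupp]
  have h1 : ∫ t in (0:ℝ)..Real.pi, deriv (pf s) t ^ 2 ≤ ∫ t in (0:ℝ)..Real.pi, Real.cos t ^ 2 := by
    apply intervalIntegral.integral_mono_on_of_le_Ioo Real.pi_pos.le
    · exact ((pf_T1 hs).int_deriv).intervalIntegrable
    · exact (by fun_prop : Continuous fun t => Real.cos t ^ 2).intervalIntegrable _ _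
    · intro t ht
      exact pf_deriv_sq hs ht.1 ht.2
  rw [integral_cos_sq] at h1
  simpa using h1

lemma pf_I2 {s : ℝ} (hs : 0 < s) : Real.pi / 2 - 8 * s ≤ ∫ t, pf s t ^ 2 ∧
    ∫ t, pf s t ^ 2 ≤ Real.pi / 2 := by
  have hπ := Real.pi_pos
  rw [pf_int_eq _ (pf_supp_pow hs two_ne_zero)]
  have hi : IntervalIntegrable (fun t => pf s t ^ 2) volume 0 Real.pi :=
    ((pf_T1 hs).int_pow two_ne_zero).intervalIntegrable
  constructor
  · have h1 : ∫ t in (0:ℝ)..Real.pi, (Real.sin t ^ 2 - 4 * s * Real.sin t) ≤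
        ∫ t in (0:ℝ)..Real.pi, pf s t ^ 2 := by
      apply intervalIntegral.integral_mono_on hπ.le
      · exact (by fun_prop : Continuous fun t => Real.sin t ^ 2 -
          4 * s * Real.sin t).intervalIntegrable _ _
      · exact hi
      · intro t ht
        obtain ⟨a, b, c⟩ := pf_le hs ht.1 ht.2
        have hsin : 0 ≤ Real.sin t := Real.sin_nonneg_of_nonneg_of_le_pi ht.1 ht.2
        by_cases h : 2 * s ≤ Real.sin t
        · have : (Real.sin t - 2 * s) ^ 2 ≤ pf s t ^ 2 := pow_le_pow_left₀ (by linarith) c 2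
          nlinarith
        · rw [not_le] at h
          have : 0 ≤ pf s t ^ 2 := by positivity
          nlinarith
    rw [intervalIntegral.integral_sub, integral_sin_sq, intervalIntegral.integral_const_mul,
      integral_sin] at h1
    · simp at h1
      linarith
    · exact (by fun_prop : Continuous fun t => Real.sin t ^ 2).intervalIntegrable _ _
    · exact (by fun_prop : Continuous fun t => 4 * s * Real.sin t).intervalIntegrable _ _
  · have h1 : ∫ t in (0:ℝ)..Real.pi, pf s t ^ 2 ≤ ∫ t in (0:ℝ)..Real.pi, Real.sin t ^ 2 := by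
      apply intervalIntegral.integral_mono_on hπ.le hi
      · exact (by fun_prop : Continuous fun t => Real.sin t ^ 2).intervalIntegrable _ _
      · intro t ht
        obtain ⟨a, b, c⟩ := pf_le hs ht.1 ht.2
        exact pow_le_pow_left₀ a b 2
    rw [integral_sin_sq] at h1
    simpa using h1

lemma pf_I6 {s : ℝ} (hs : 0 < s) (hs1 : s ≤ 1 / 16) : 1 / 64 ≤ ∫ t, pf s t ^ 6 := by
  have hπ := Real.pi_pos
  have hπ3 := Real.pi_gt_three
  have h1 : ∫ t in Set.Icc (Real.pi / 4) (3 * Real.pi / 4), (1 / 64 : ℝ) ≤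
      ∫ t in Set.Icc (Real.pi / 4) (3 * Real.pi / 4), pf s t ^ 6 := by
    apply setIntegral_mono_on
    · exact integrableOn_const (by simp)
    · exact ((pf_T1 hs).int_pow (by norm_num)).integrableOn
    · exact measurableSet_Icc
    · intro t ht
      obtain ⟨a, b, c⟩ := pf_le hs (show 0 ≤ t by linarith [ht.1]) (show t ≤ Real.pi by
        linarith [ht.2])
      have hsin : 5 / 8 ≤ Real.sin t := by
        have h2 : Real.sin t = Real.cos (t - Real.pi / 2) := by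
          rw [Real.cos_sub_pi_div_two]
        rw [h2]
        have h3 : |t - Real.pi / 2| ≤ Real.pi / 4 := by
          rw [abs_le]; constructor <;> linarith [ht.1, ht.2]
        have h4 : Real.cos (Real.pi / 4) ≤ Real.cos (t - Real.pi / 2) := by
          rw [← Real.cos_abs (t - Real.pi / 2)]
          exact Real.cos_le_cos_of_nonneg_of_le_pi (abs_nonneg _) (by linarith) h3
        refine le_trans ?_ h4
        rw [Real.cos_pi_div_four]
        have h5 : (1.25:ℝ) ≤ √2 := by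
          rw [Real.le_sqrt (by norm_num) (by norm_num)]; norm_num
        linarith
      have h6 : 1 / 2 ≤ pf s t := by linarith
      calc (1 / 64 : ℝ) = (1 / 2) ^ 6 := by norm_num
        _ ≤ pf s t ^ 6 := pow_le_pow_left₀ (by norm_num) h6 6
  have h2 : ∫ t in Set.Icc (Real.pi / 4) (3 * Real.pi / 4), pf s t ^ 6 ≤ ∫ t, pf s t ^ 6 := by
    apply setIntegral_le_integral ((pf_T1 hs).int_pow (by norm_num))
    exact Eventually.of_forall fun t => by positivity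
  have h3 : ∫ t in Set.Icc (Real.pi / 4) (3 * Real.pi / 4), (1 / 64 : ℝ) =
      (Real.pi / 2) * (1 / 64) := by
    rw [setIntegral_const, smul_eq_mul, Measure.real, Real.volume_Icc,
      ENNReal.toReal_ofReal (by linarith)]
    ring
  rw [h3] at h1
  linarith

/-- the threshold constant -/
noncomputable def TT : ℝ := SS ^ 3 / 2 ^ 27

lemma TT_pos : 0 < TT := by
  have := SS_pos
  unfold TT; positivity

/-- **box criterion** -/
theorem box_test {D : Set (E 3)} {q0 q1 q2 a0 a1 a2 : ℝ} (h0 : 0 < a0) (h1 : 0 < a1)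
    (h2 : 0 < a2) (hD : ∀ x : E 3, x 0 ∈ Set.Ioo q0 (q0 + a0) → x 1 ∈ Set.Ioo q1 (q1 + a1) →
      x 2 ∈ Set.Ioo q2 (q2 + a2) → x ∈ D) {η lam : ℝ} (hη : 0 < η) (hη1 : η ≤ 1)
    (hX : ((1 + η) * Real.pi ^ 2 * (1 / a0 ^ 2 + 1 / a1 ^ 2 + 1 / a2 ^ 2) - lam) ^ 3 *
      (a0 * a1 * a2) ^ 2 < TT) :
    ∃ (v : E 3 → ℝ) (V : E 3 → E 3), H01 D v V ∧
      (Ea lam v V) ^ 3 < SS ^ 3 * ∫ x, v x ^ 6 := by
  have hπ := Real.pi_pos
  have hπ3 := Real.pi_gt_three
  have hπ4 := Real.pi_le_four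
  have hS := SS_pos
  obtain ⟨s, hs⟩ : ∃ s : ℝ, s = η / 16 := ⟨_, rfl⟩
  have hs0 : 0 < s := by rw [hs]; positivity
  have hs1 : s ≤ 1 / 16 := by rw [hs]; linarith
  have hT := pf_T1 hs0
  obtain ⟨I1, hI1⟩ : ∃ I1, I1 = ∫ t, deriv (pf s) t ^ 2 := ⟨_, rfl⟩
  obtain ⟨I2, hI2⟩ : ∃ I2, I2 = ∫ t, pf s t ^ 2 := ⟨_, rfl⟩
  obtain ⟨I6, hI6⟩ : ∃ I6, I6 = ∫ t, pf s t ^ 6 := ⟨_, rfl⟩
  have b1 : I1 ≤ Real.pi / 2 := by rw [hI1]; exact pf_I1 hs0
  have b2 : Real.pi / 2 - 8 * s ≤ I2 := by rw [hI2]; exact (pf_I2 hs0).1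
  have b2' : I2 ≤ Real.pi / 2 := by rw [hI2]; exact (pf_I2 hs0).2
  have b6 : 1 / 64 ≤ I6 := by rw [hI6]; exact pf_I6 hs0 hs1
  have hI20 : 0 < I2 := by linarith
  have hI2' : I2 ≤ 2 := by linarith
  have hr : I1 ≤ (1 + η) * I2 := by
    have : (1 + η) * (Real.pi / 2 - 8 * s) ≤ (1 + η) * I2 :=
      mul_le_mul_of_nonneg_left b2 (by linarith)
    have e : (1 + η) * (Real.pi / 2 - 8 * s) = Real.pi / 2 + η * (Real.pi / 2 - (1 + η) / 2) := by
      rw [hs]; ring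
    have e2 : 0 ≤ η * (Real.pi / 2 - (1 + η) / 2) := mul_nonneg hη.le (by linarith)
    linarith
  have c0 : 0 < a0 / Real.pi := by positivity
  have c1 : 0 < a1 / Real.pi := by positivity
  have c2 : 0 < a2 / Real.pi := by positivity
  have hcont : ∀ {q a t : ℝ}, 0 < a → t ∈ tsupport (sc (pf s) q (a / Real.pi)) →
      t ∈ Set.Ioo q (q + a) := by
    intro q a t ha ht
    have h3 := pf_tsupport hs0 (sc_tsupport (by positivity) ht)
    have h4 : (t - q) / (a / Real.pi) = (t - q) * Real.pi / a := by field_simp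
    rw [h4] at h3
    obtain ⟨g1, g2⟩ := h3
    rw [div_lt_iff₀ ha] at g2
    have g1' : 0 < (t - q) * Real.pi := by
      by_contra hc
      have := div_nonpos_of_nonpos_of_nonneg (not_lt.1 hc) ha.le
      linarith
    constructor
    · have : 0 < t - q := (mul_pos_iff_of_pos_right hπ).1 g1'
      linarith
    · have : (t - q) * Real.pi < a * Real.pi := by linarith
      have := lt_of_mul_lt_mul_right this hπ.le
      linarith
  have tv := pv_TIn (D := D) (sc_T1 hT q0 c0) (sc_T1 hT q1 c1) (sc_T1 hT q2 c2)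
    (fun x e0 e1 e2 => hD x (hcont h0 e0) (hcont h1 e1) (hcont h2 e2))
  refine ⟨_, _, tv.h01, ?_⟩
  rw [pv_Ea (sc_T1 hT q0 c0) (sc_T1 hT q1 c1) (sc_T1 hT q2 c2), pv_six,
    sc_int_pow _ _ c0, sc_int_pow _ _ c1, sc_int_pow _ _ c2, sc_int_pow _ _ c0,
    sc_int_pow _ _ c1, sc_int_pow _ _ c2, sc_int_deriv hT _ c0, sc_int_deriv hT _ c1,
    sc_int_deriv hT _ c2, ← hI1, ← hI2, ← hI6]
  obtain ⟨X, hXd⟩ : ∃ X, X = (1 + η) * Real.pi ^ 2 * (1 / a0 ^ 2 + 1 / a1 ^ 2 + 1 / a2 ^ 2) -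
    lam := ⟨_, rfl⟩
  rw [← hXd] at hX
  obtain ⟨Pv, hPv⟩ : ∃ Pv, Pv = a0 * a1 * a2 := ⟨_, rfl⟩
  have hPv0 : 0 < Pv := by rw [hPv]; positivity
  rw [← hPv] at hX
  have key : I1 / (a0 / Real.pi) * (a1 / Real.pi * I2) * (a2 / Real.pi * I2) +
      a0 / Real.pi * I2 * (I1 / (a1 / Real.pi)) * (a2 / Real.pi * I2) +
      a0 / Real.pi * I2 * (a1 / Real.pi * I2) * (I1 / (a2 / Real.pi)) -
      lam * (a0 / Real.pi * I2 * (a1 / Real.pi * I2) * (a2 / Real.pi * I2)) ≤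
      (Pv / Real.pi ^ 3) * I2 ^ 3 * X := by
    have e : I1 / (a0 / Real.pi) * (a1 / Real.pi * I2) * (a2 / Real.pi * I2) +
      a0 / Real.pi * I2 * (I1 / (a1 / Real.pi)) * (a2 / Real.pi * I2) +
      a0 / Real.pi * I2 * (a1 / Real.pi * I2) * (I1 / (a2 / Real.pi)) -
      lam * (a0 / Real.pi * I2 * (a1 / Real.pi * I2) * (a2 / Real.pi * I2)) =
      (Pv / Real.pi ^ 3) * I2 ^ 2 * (Real.pi ^ 2 * (1 / a0 ^ 2 + 1 / a1 ^ 2 + 1 / a2 ^ 2) * I1 -
        lam * I2) := by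
      rw [hPv]; field_simp
    rw [e, hXd]
    have e2 : Pv / Real.pi ^ 3 * I2 ^ 3 * ((1 + η) * Real.pi ^ 2 *
        (1 / a0 ^ 2 + 1 / a1 ^ 2 + 1 / a2 ^ 2) - lam) =
        (Pv / Real.pi ^ 3) * I2 ^ 2 * (Real.pi ^ 2 * (1 / a0 ^ 2 + 1 / a1 ^ 2 + 1 / a2 ^ 2) *
          ((1 + η) * I2) - lam * I2) := by ring
    rw [e2]
    apply mul_le_mul_of_nonneg_left _ (by positivity)
    have : Real.pi ^ 2 * (1 / a0 ^ 2 + 1 / a1 ^ 2 + 1 / a2 ^ 2) * I1 ≤
      Real.pi ^ 2 * (1 / a0 ^ 2 + 1 / a1 ^ 2 + 1 / a2 ^ 2) * ((1 + η) * I2) :=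
      mul_le_mul_of_nonneg_left hr (by positivity)
    linarith
  have k3 := (Odd.strictMono_pow (R := ℝ) (n := 3) (by decide)).monotone key
  have h6 : a0 / Real.pi * I6 * (a1 / Real.pi * I6) * (a2 / Real.pi * I6) =
      (Pv / Real.pi ^ 3) * I6 ^ 3 := by
    rw [hPv]; field_simp
  rw [h6]
  refine lt_of_le_of_lt k3 ?_
  show ((Pv / Real.pi ^ 3) * I2 ^ 3 * X) ^ 3 < SS ^ 3 * (Pv / Real.pi ^ 3 * I6 ^ 3)
  have hI6' : (1 / 64 : ℝ) ^ 3 ≤ I6 ^ 3 := pow_le_pow_left₀ (by norm_num) b6 3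
  have hπ9 : (1:ℝ) ≤ Real.pi ^ 6 := one_le_pow₀ (by linarith)
  have hlt : X ^ 3 * Pv ^ 2 * I2 ^ 9 < SS ^ 3 * I6 ^ 3 * Real.pi ^ 6 := by
    have g1 : SS ^ 3 * (1 / 64) ^ 3 ≤ SS ^ 3 * I6 ^ 3 * Real.pi ^ 6 := by
      calc SS ^ 3 * (1 / 64) ^ 3 ≤ SS ^ 3 * I6 ^ 3 := mul_le_mul_of_nonneg_left hI6' (by positivity)
        _ = SS ^ 3 * I6 ^ 3 * 1 := (mul_one _).symm
        _ ≤ _ := mul_le_mul_of_nonneg_left hπ9 (by positivity)
    have g2 : X ^ 3 * Pv ^ 2 * I2 ^ 9 < SS ^ 3 * (1 / 64) ^ 3 := by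
      by_cases hneg : X ^ 3 * Pv ^ 2 ≤ 0
      · have : X ^ 3 * Pv ^ 2 * I2 ^ 9 ≤ 0 := mul_nonpos_of_nonpos_of_nonneg hneg (by positivity)
        have : 0 < SS ^ 3 * (1 / 64) ^ 3 := by positivity
        linarith
      · rw [not_le] at hneg
        have g3 : I2 ^ 9 ≤ 2 ^ 9 := pow_le_pow_left₀ hI20.le hI2' 9
        calc X ^ 3 * Pv ^ 2 * I2 ^ 9 ≤ X ^ 3 * Pv ^ 2 * 2 ^ 9 :=
              mul_le_mul_of_nonneg_left g3 hneg.le
          _ < TT * 2 ^ 9 := mul_lt_mul_of_pos_right hX (by norm_num)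
          _ = SS ^ 3 * (1 / 64) ^ 3 := by unfold TT; ring
    linarith
  have hc : 0 < Pv / Real.pi ^ 9 := by positivity
  calc ((Pv / Real.pi ^ 3) * I2 ^ 3 * X) ^ 3 = (Pv / Real.pi ^ 9) * (X ^ 3 * Pv ^ 2 * I2 ^ 9) := by
        field_simp
    _ < (Pv / Real.pi ^ 9) * (SS ^ 3 * I6 ^ 3 * Real.pi ^ 6) := mul_lt_mul_of_pos_left hlt hc
    _ = SS ^ 3 * (Pv / Real.pi ^ 3 * I6 ^ 3) := by field_simp

end Run7.h104
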