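import Pool.Agent.Run7.h104.Box2

/-! # Boxes in wedges -/

set_option autoImplicit false
set_option linter.unusedSectionVars false
set_option linter.unusedVariables false

open MeasureTheory Filter Topology
open scoped ContDiff ENNReal NNReal RealInnerProductSpace

namespace Run7.h104

open Pool.Agent.R217.BN (E cexp sobS H01)
open Pool.Agent.R217.HS
open Pool.Agent.R217.KM

/-- `Ω` contains the cylinder of radius `q` between the heights `z1` and `z2` -/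
def Cyl (Ω : Set (E 3)) (q z1 z2 : ℝ) : Prop :=
  ∀ x : E 3, x 0 ^ 2 + x 1 ^ 2 < q ^ 2 → z1 < x 2 → x 2 < z2 → x ∈ Ω

lemma pi_sq_le : Real.pi ^ 2 ≤ 10 := by
  have h1 := Real.pi_lt_d2
  have h2 := Real.pi_pos
  nlinarith

lemma wd_mem {k : ℕ} (hk : 1 ≤ k) {x : E 3} {r : ℝ} (hr : 0 < r) (hx0 : r < x 0) (hx1 : 0 < x 1)
    (hx2 : x 1 ≤ r * (Real.pi / k)) (hk3 : 3 ≤ k ∨ k ≤ 2) : x ∈ Wd (Real.pi / k) := by
  have hπ := Real.pi_pos
  have hk0 : (0:ℝ) < k := by exact_mod_cast hk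
  refine ⟨hx1, ?_⟩
  rcases hk3 with h3 | h3
  · have hk3 : (3:ℝ) ≤ k := by exact_mod_cast h3
    have hα0 : 0 < Real.pi / k := by positivity
    have hα1 : Real.pi / k < Real.pi / 2 := by
      apply div_lt_div_of_pos_left hπ (by norm_num) (by linarith)
    have hcos : 0 < Real.cos (Real.pi / k) := Real.cos_pos_of_mem_Ioo ⟨by linarith, hα1⟩
    have htan := Real.lt_tan hα0 hα1
    rw [Real.tan_eq_sin_div_cos, lt_div_iff₀ hcos] at htan
    have hsin : 0 < Real.sin (Real.pi / k) :=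
      Real.sin_pos_of_pos_of_lt_pi hα0 (by linarith)
    have a1 : x 1 * Real.cos (Real.pi / k) ≤ r * (Real.pi / k) * Real.cos (Real.pi / k) :=
      mul_le_mul_of_nonneg_right hx2 hcos.le
    have a2 : r * (Real.pi / k * Real.cos (Real.pi / k)) < r * Real.sin (Real.pi / k) :=
      mul_lt_mul_of_pos_left htan hr
    have a3 : r * Real.sin (Real.pi / k) ≤ x 0 * Real.sin (Real.pi / k) :=
      mul_le_mul_of_nonneg_right hx0.le hsin.le
    have a4 : r * (Real.pi / k) * Real.cos (Real.pi / k) =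
      r * (Real.pi / k * Real.cos (Real.pi / k)) := by ring
    linarith
  · have : k = 1 ∨ k = 2 := by omega
    rcases this with rfl | rfl
    · have e : Real.pi / ((1:ℕ) : ℝ) = Real.pi := by simp
      rw [e, Real.sin_pi, Real.cos_pi]
      linarith
    · have e : Real.pi / ((2:ℕ) : ℝ) = Real.pi / 2 := by norm_num
      rw [e, Real.sin_pi_div_two, Real.cos_pi_div_two]
      linarith

section
variable {Ω : Set (E 3)} {k : ℕ} {q z1 z2 lam : ℝ}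

lemma case_low (hk : 1 ≤ k) (hq : 0 < q) (hz : z1 < z2) (hC : Cyl Ω q z1 z2) {θ : ℝ} (hθ : 0 < θ)
    (hθ1 : θ ≤ 1) (hT : 2 * 10 ^ 7 * θ ^ 2 < TT) (hK : k / q ≤ θ * (Real.pi / (z2 - z1)))
    (hl : (k / q) ^ 2 + (Real.pi / (z2 - z1)) ^ 2 - lam ≤
      θ ^ 2 * ((Real.pi / (z2 - z1)) ^ 2 + (k / q) ^ 2)) :
    ∃ (v : E 3 → ℝ) (V : E 3 → E 3), H01 (Ω ∩ Wd (Real.pi / k)) v V ∧
      (Ea lam v V) ^ 3 < SS ^ 3 * ∫ x, v x ^ 6 := by
  have hπ := Real.pi_pos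
  have hπ3 := Real.pi_gt_three
  have hk0 : (1:ℝ) ≤ k := by exact_mod_cast hk
  have hz' : 0 < z2 - z1 := by linarith
  obtain ⟨Z, hZ⟩ : ∃ Z, Z = Real.pi / (z2 - z1) := ⟨_, rfl⟩
  obtain ⟨K, hKd⟩ : ∃ K, K = k / q := ⟨_, rfl⟩
  have hZ0 : 0 < Z := by rw [hZ]; positivity
  have hK0 : 0 < K := by rw [hKd]; positivity
  rw [← hZ, ← hKd] at hl hK
  have hzZ : z2 - z1 = Real.pi / Z := by rw [hZ]; field_simp
  obtain ⟨w, hw⟩ : ∃ w, w = 1 / (4 * θ * Z) := ⟨_, rfl⟩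
  have hw0 : 0 < w := by rw [hw]; positivity
  have hwq : w ≤ q / (4 * k) := by
    rw [hw]
    rw [div_le_div_iff₀ (by positivity) (by positivity)]
    have : K * q = k := by rw [hKd]; field_simp
    nlinarith
  have hwq4 : w ≤ q / 4 := by
    refine hwq.trans ?_
    apply div_le_div_of_nonneg_left hq.le (by norm_num) (by linarith)
  refine box_test (D := Ω ∩ Wd (Real.pi / k)) (q0 := q / 2) (q1 := 0) (q2 := z1) (a0 := w) (a1 := w) (a2 := z2 - z1)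
    hw0 hw0 hz' (fun x h0 h1 h2 => ⟨?_, ?_⟩) (η := θ ^ 2) (by positivity) (by nlinarith) ?_
  · apply hC
    · have b0 : x 0 < 3 / 4 * q := by linarith [h0.2]
      have b0' : 0 < x 0 := by linarith [h0.1]
      have b1 : x 1 < q / 4 := by linarith [h1.2]
      have b1' := h1.1
      have c0 : x 0 ^ 2 < (3 / 4 * q) ^ 2 := pow_lt_pow_left₀ b0 b0'.le (by norm_num)
      have c1 : x 1 ^ 2 < (q / 4) ^ 2 := pow_lt_pow_left₀ b1 b1'.le (by norm_num)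
      nlinarith [sq_nonneg q]
    · exact h2.1
    · linarith [h2.2]
  · apply wd_mem hk (r := q / 2) (by positivity) h0.1 h1.1 _ (by omega)
    have b1 : x 1 < q / (4 * k) := by linarith [h1.2]
    refine b1.le.trans ?_
    rw [mul_div_assoc', div_le_div_iff₀ (by positivity) (by positivity)]
    nlinarith [mul_pos hq (show (0:ℝ) < k by linarith)]
  · have e1 : 1 / w ^ 2 = 16 * θ ^ 2 * Z ^ 2 := by
      rw [hw]; field_simp; norm_num
    have e2 : Real.pi ^ 2 * (1 / (z2 - z1) ^ 2) = Z ^ 2 := by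
      rw [hZ]; field_simp
    obtain ⟨X, hX⟩ : ∃ X, X = (1 + θ ^ 2) * Real.pi ^ 2 *
      (1 / w ^ 2 + 1 / w ^ 2 + 1 / (z2 - z1) ^ 2) - lam := ⟨_, rfl⟩
    rw [← hX]
    have hXle : X ≤ 642 * θ ^ 2 * Z ^ 2 := by
      have e3 : X = (1 + θ ^ 2) * (Real.pi ^ 2 * (32 * θ ^ 2 * Z ^ 2) + Z ^ 2) - lam := by
        rw [hX, ← e2, e1, ← e2]; ring
      have h1 : Real.pi ^ 2 * (32 * θ ^ 2 * Z ^ 2) ≤ 10 * (32 * θ ^ 2 * Z ^ 2) :=
        mul_le_mul_of_nonneg_right pi_sq_le (by positivity)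
      have h2 : θ ^ 2 ≤ 1 := by nlinarith
      have h3 : (1 + θ ^ 2) * (Real.pi ^ 2 * (32 * θ ^ 2 * Z ^ 2) + Z ^ 2) ≤
          (1 + θ ^ 2) * (10 * (32 * θ ^ 2 * Z ^ 2) + Z ^ 2) := by
        apply mul_le_mul_of_nonneg_left _ (by positivity)
        linarith
      have h4 : θ ^ 2 * (320 * θ ^ 2 * Z ^ 2) ≤ 1 * (320 * θ ^ 2 * Z ^ 2) :=
        mul_le_mul_of_nonneg_right h2 (by positivity)
      have h5 : θ ^ 2 * K ^ 2 ≤ 1 * K ^ 2 := mul_le_mul_of_nonneg_right h2 (by positivity)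
      rw [e3]
      nlinarith
    have hP : (w * w * (z2 - z1)) ^ 2 = Real.pi ^ 2 / (256 * θ ^ 4 * Z ^ 6) := by
      rw [hw, hzZ]; field_simp; norm_num
    have hX3 : X ^ 3 ≤ (642 * θ ^ 2 * Z ^ 2) ^ 3 :=
      (Odd.strictMono_pow (R := ℝ) (n := 3) (by decide)).monotone hXle
    calc X ^ 3 * (w * w * (z2 - z1)) ^ 2 ≤ (642 * θ ^ 2 * Z ^ 2) ^ 3 *
          (w * w * (z2 - z1)) ^ 2 := mul_le_mul_of_nonneg_right hX3 (by positivity)
      _ = (642 ^ 3 / 256) * θ ^ 2 * Real.pi ^ 2 := by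
          rw [hP]; field_simp
      _ ≤ (642 ^ 3 / 256) * θ ^ 2 * 10 := mul_le_mul_of_nonneg_left pi_sq_le (by positivity)
      _ ≤ 2 * 10 ^ 7 * θ ^ 2 := by nlinarith [sq_nonneg θ]
      _ < TT := hT

lemma inv_one_sub_sq {ν : ℝ} (h0 : 0 < ν) (h1 : ν ≤ 1 / 2) :
    1 / (1 - ν) ^ 2 ≤ 1 + 6 * ν ∧ 1 / (1 - ν) ^ 2 ≤ 4 := by
  have h2 : 0 < (1 - ν) ^ 2 := by
    have : 0 < 1 - ν := by linarith
    positivity
  constructor
  · rw [div_le_iff₀ h2]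
    nlinarith [mul_nonneg h0.le (show (0:ℝ) ≤ 1 / 2 - ν by linarith),
      mul_nonneg (mul_nonneg h0.le h0.le) (show (0:ℝ) ≤ 1 / 2 - ν by linarith)]
  · rw [div_le_iff₀ h2]
    nlinarith

lemma side_mem (hk3 : 3 ≤ k) (hq : 0 < q) (hC : Cyl Ω q z1 z2) {ν a : ℝ} (hν : 0 < ν)
    (hν1 : ν ≤ 1 / 2) (ha : a ≤ ν * q / 2) (hkν : 20 ≤ ν * k ^ 2) {x : E 3}
    (h0 : x 0 ∈ Set.Ioo ((1 - ν) * q) ((1 - ν) * q + a))
    (h1 : x 1 ∈ Set.Ioo 0 (0 + Real.pi * ((1 - ν) * q) / k)) (h2 : z1 < x 2) (h3 : x 2 < z2) :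
    x ∈ Ω ∩ Wd (Real.pi / k) := by
  have hπ := Real.pi_pos
  have hk0 : (0:ℝ) < k := by positivity
  have hr : 0 < (1 - ν) * q := mul_pos (by linarith) hq
  refine ⟨?_, ?_⟩
  · apply hC _ _ h2 h3
    have b0 : x 0 < (1 - ν / 2) * q := by
      have := h0.2
      linarith
    have b0' : 0 < x 0 := by linarith [h0.1]
    have c0 : x 0 ^ 2 < ((1 - ν / 2) * q) ^ 2 := pow_lt_pow_left₀ b0 b0'.le (by norm_num)
    have b1 : x 1 < Real.pi * q / k := by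
      refine lt_of_lt_of_le h1.2 ?_
      rw [zero_add]
      apply div_le_div_of_nonneg_right _ hk0.le
      apply mul_le_mul_of_nonneg_left _ hπ.le
      nlinarith
    have c1 : x 1 ^ 2 < (Real.pi * q / k) ^ 2 := pow_lt_pow_left₀ b1 h1.1.le (by norm_num)
    have c2 : (Real.pi * q / k) ^ 2 ≤ ν / 2 * q ^ 2 := by
      rw [div_pow, div_le_iff₀ (by positivity), mul_pow]
      calc Real.pi ^ 2 * q ^ 2 ≤ 10 * q ^ 2 := mul_le_mul_of_nonneg_right pi_sq_le (by positivity)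
        _ ≤ (ν * k ^ 2) / 2 * q ^ 2 := mul_le_mul_of_nonneg_right (by linarith) (by positivity)
        _ = ν / 2 * q ^ 2 * k ^ 2 := by ring
    have c3 : ((1 - ν / 2) * q) ^ 2 ≤ (1 - ν / 2) * q ^ 2 := by
      have : (1 - ν / 2) ^ 2 ≤ 1 - ν / 2 := by nlinarith
      calc ((1 - ν / 2) * q) ^ 2 = (1 - ν / 2) ^ 2 * q ^ 2 := by ring
        _ ≤ _ := mul_le_mul_of_nonneg_right this (by positivity)
    nlinarith
  · apply wd_mem (by omega) hr h0.1 h1.1 _ (Or.inl hk3)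
    have := h1.2
    rw [zero_add] at this
    refine this.le.trans (le_of_eq ?_)
    field_simp

lemma three_le_of {ν : ℝ} (hν : 0 < ν) (hν1 : ν ≤ 1 / 2) (hkν : 20 ≤ ν * (k:ℝ) ^ 2) : 3 ≤ k := by
  by_contra hc
  have h2 : (k:ℝ) ≤ 2 := by exact_mod_cast (by omega : k ≤ 2)
  have h0 : (0:ℝ) ≤ k := by positivity
  have h4 : (k:ℝ) ^ 2 ≤ 4 := by nlinarith
  nlinarith

lemma case_mid (hq : 0 < q) (hz : z1 < z2) (hC : Cyl Ω q z1 z2) {θ A B ν η κ : ℝ}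
    (hθ : 0 < θ) (hA : 1 ≤ A) (hB : 1 ≤ B) (hν : 0 < ν) (hν1 : ν ≤ 1 / 2) (hη : 0 < η)
    (hη1 : η ≤ 1) (hκ : 0 < κ) (hT : 2 * 10 ^ 6 < TT * A ^ 4 * θ ^ 2)
    (h1 : η * (4 * B ^ 2 + 1) ≤ 1 / A ^ 2) (h2 : 6 * ν * B ^ 2 ≤ 1 / A ^ 2)
    (h3 : κ * (1 + B ^ 2) ≤ 1 / A ^ 2)
    (hK1 : θ * (Real.pi / (z2 - z1)) ≤ k / q) (hK2 : k / q ≤ B * (Real.pi / (z2 - z1)))
    (h4 : 2 * A ≤ ν * (q * (Real.pi / (z2 - z1)))) (h5 : 20 ≤ ν * (k:ℝ) ^ 2)
    (hl : (k / q) ^ 2 + (Real.pi / (z2 - z1)) ^ 2 - lam ≤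
      κ * ((Real.pi / (z2 - z1)) ^ 2 + (k / q) ^ 2)) :
    ∃ (v : E 3 → ℝ) (V : E 3 → E 3), H01 (Ω ∩ Wd (Real.pi / k)) v V ∧
      (Ea lam v V) ^ 3 < SS ^ 3 * ∫ x, v x ^ 6 := by
  have hπ := Real.pi_pos
  have hk3 := three_le_of hν hν1 h5
  have hk0 : (0:ℝ) < k := by positivity
  have hz' : 0 < z2 - z1 := by linarith
  obtain ⟨Z, hZ⟩ : ∃ Z, Z = Real.pi / (z2 - z1) := ⟨_, rfl⟩
  obtain ⟨K, hKd⟩ : ∃ K, K = k / q := ⟨_, rfl⟩
  have hZ0 : 0 < Z := by rw [hZ]; positivity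
  have hK0 : 0 < K := by rw [hKd]; positivity
  rw [← hZ, ← hKd] at hl hK1 hK2
  rw [← hZ] at h4
  have hzZ : z2 - z1 = Real.pi / Z := by rw [hZ]; field_simp
  have hr : 0 < (1 - ν) * q := mul_pos (by linarith) hq
  have ha : A / Z ≤ ν * q / 2 := by
    rw [div_le_iff₀ hZ0]
    nlinarith
  have hA0 : 0 < A := by linarith
  refine box_test (q0 := (1 - ν) * q) (q1 := 0) (q2 := z1) (a0 := A / Z)
    (a1 := Real.pi * ((1 - ν) * q) / k) (a2 := z2 - z1)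
    (by positivity) (by positivity) hz'
    (fun x g0 g1 g2 => side_mem hk3 hq hC hν hν1 ha h5 g0 g1 g2.1 (by linarith [g2.2]))
    hη hη1 ?_
  obtain ⟨X, hX⟩ : ∃ X, X = (1 + η) * Real.pi ^ 2 *
      (1 / (A / Z) ^ 2 + 1 / (Real.pi * ((1 - ν) * q) / k) ^ 2 + 1 / (z2 - z1) ^ 2) - lam :=
    ⟨_, rfl⟩
  rw [← hX]
  obtain ⟨i1, i2⟩ := inv_one_sub_sq hν hν1
  have hν0 : (1 - ν) ≠ 0 := by linarith
  have e3 : X = (1 + η) * (Real.pi ^ 2 * (Z ^ 2 / A ^ 2) + K ^ 2 * (1 / (1 - ν) ^ 2) + Z ^ 2) -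
      lam := by
    rw [hX, hzZ, hKd]
    field_simp
  have hZA : 0 < Z ^ 2 / A ^ 2 := by positivity
  have hKB : K ^ 2 ≤ B ^ 2 * Z ^ 2 := by
    rw [← mul_pow]; exact pow_le_pow_left₀ hK0.le hK2 2
  have hXle : X ≤ 23 * (Z ^ 2 / A ^ 2) := by
    have g1 : (1 + η) * (Real.pi ^ 2 * (Z ^ 2 / A ^ 2)) ≤ 2 * (10 * (Z ^ 2 / A ^ 2)) := by
      apply mul_le_mul (by linarith) _ (by positivity) (by norm_num)
      exact mul_le_mul_of_nonneg_right pi_sq_le hZA.le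
    have g2 : K ^ 2 * (1 / (1 - ν) ^ 2) ≤ K ^ 2 * (1 + 6 * ν) :=
      mul_le_mul_of_nonneg_left i1 (by positivity)
    have g3 : η * (K ^ 2 * (1 / (1 - ν) ^ 2)) ≤ η * (K ^ 2 * 4) :=
      mul_le_mul_of_nonneg_left (mul_le_mul_of_nonneg_left i2 (by positivity)) hη.le
    have j1 : 6 * ν * K ^ 2 ≤ Z ^ 2 / A ^ 2 := by
      calc 6 * ν * K ^ 2 ≤ 6 * ν * (B ^ 2 * Z ^ 2) := mul_le_mul_of_nonneg_left hKB (by positivity)
        _ = (6 * ν * B ^ 2) * Z ^ 2 := by ring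
        _ ≤ (1 / A ^ 2) * Z ^ 2 := mul_le_mul_of_nonneg_right h2 (by positivity)
        _ = _ := by ring
    have j2 : η * (K ^ 2 * 4) + η * Z ^ 2 ≤ Z ^ 2 / A ^ 2 := by
      calc η * (K ^ 2 * 4) + η * Z ^ 2 ≤ η * ((B ^ 2 * Z ^ 2) * 4) + η * Z ^ 2 := by
            have := mul_le_mul_of_nonneg_left hKB hη.le
            linarith
        _ = (η * (4 * B ^ 2 + 1)) * Z ^ 2 := by ring
        _ ≤ (1 / A ^ 2) * Z ^ 2 := mul_le_mul_of_nonneg_right h1 (by positivity)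
        _ = _ := by ring
    have j3 : κ * (Z ^ 2 + K ^ 2) ≤ Z ^ 2 / A ^ 2 := by
      calc κ * (Z ^ 2 + K ^ 2) ≤ κ * (Z ^ 2 + B ^ 2 * Z ^ 2) :=
            mul_le_mul_of_nonneg_left (by linarith) hκ.le
        _ = (κ * (1 + B ^ 2)) * Z ^ 2 := by ring
        _ ≤ (1 / A ^ 2) * Z ^ 2 := mul_le_mul_of_nonneg_right h3 (by positivity)
        _ = _ := by ring
    rw [e3]
    have e4 : (1 + η) * (Real.pi ^ 2 * (Z ^ 2 / A ^ 2) + K ^ 2 * (1 / (1 - ν) ^ 2) + Z ^ 2) =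
      (1 + η) * (Real.pi ^ 2 * (Z ^ 2 / A ^ 2)) + K ^ 2 * (1 / (1 - ν) ^ 2) +
        η * (K ^ 2 * (1 / (1 - ν) ^ 2)) + Z ^ 2 + η * Z ^ 2 := by ring
    rw [e4]
    linarith
  have hP : (A / Z) * (Real.pi * ((1 - ν) * q) / k) * (z2 - z1) ≤ 10 * A / (θ * Z ^ 3) := by
    have e5 : (A / Z) * (Real.pi * ((1 - ν) * q) / k) * (z2 - z1) =
        (Real.pi ^ 2 * (1 - ν)) * (A / (Z ^ 2 * K)) := by
      rw [hzZ, hKd]; field_simp
    rw [e5]
    have g1 : Real.pi ^ 2 * (1 - ν) ≤ 10 := by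
      have : Real.pi ^ 2 * (1 - ν) ≤ Real.pi ^ 2 * 1 :=
        mul_le_mul_of_nonneg_left (by linarith) (by positivity)
      linarith [pi_sq_le]
    have g2 : A / (Z ^ 2 * K) ≤ A / (Z ^ 2 * (θ * Z)) := by
      apply div_le_div_of_nonneg_left hA0.le (by positivity)
      exact mul_le_mul_of_nonneg_left hK1 (by positivity)
    calc (Real.pi ^ 2 * (1 - ν)) * (A / (Z ^ 2 * K)) ≤ 10 * (A / (Z ^ 2 * (θ * Z))) := by
          apply mul_le_mul g1 g2 (by positivity) (by norm_num)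
      _ = 10 * A / (θ * Z ^ 3) := by field_simp
  have hP0 : 0 ≤ (A / Z) * (Real.pi * ((1 - ν) * q) / k) * (z2 - z1) := by positivity
  have hP2 := pow_le_pow_left₀ hP0 hP 2
  have hX3 : X ^ 3 ≤ (23 * (Z ^ 2 / A ^ 2)) ^ 3 :=
    (Odd.strictMono_pow (R := ℝ) (n := 3) (by decide)).monotone hXle
  calc X ^ 3 * ((A / Z) * (Real.pi * ((1 - ν) * q) / k) * (z2 - z1)) ^ 2
      ≤ (23 * (Z ^ 2 / A ^ 2)) ^ 3 * ((A / Z) * (Real.pi * ((1 - ν) * q) / k) * (z2 - z1)) ^ 2 :=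
        mul_le_mul_of_nonneg_right hX3 (by positivity)
    _ ≤ (23 * (Z ^ 2 / A ^ 2)) ^ 3 * (10 * A / (θ * Z ^ 3)) ^ 2 :=
        mul_le_mul_of_nonneg_left hP2 (by positivity)
    _ = 1216700 / (A ^ 4 * θ ^ 2) := by field_simp; norm_num
    _ < TT := by
        rw [div_lt_iff₀ (by positivity)]
        nlinarith

lemma case_high (hq : 0 < q) (hz : z1 < z2) (hC : Cyl Ω q z1 z2) {B ν η κ : ℝ}
    (hB : 1 ≤ B) (hν : 0 < ν) (hν1 : ν ≤ 1 / 2) (hη : 0 < η)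
    (hη1 : η ≤ 1) (hκ : 0 < κ) (hκ1 : κ ≤ 1) (hT : 10 ^ 6 < TT * B ^ 2)
    (h1 : 4 * η ≤ 1 / B ^ 2) (h2 : 6 * ν ≤ 1 / B ^ 2) (h3 : κ ≤ 1 / B ^ 2)
    (hK1 : B * (Real.pi / (z2 - z1)) ≤ k / q)
    (h4 : 2 * B ≤ ν * k) (h5 : 20 ≤ ν * (k:ℝ) ^ 2)
    (hl : (k / q) ^ 2 + (Real.pi / (z2 - z1)) ^ 2 - lam ≤
      κ * ((Real.pi / (z2 - z1)) ^ 2 + (k / q) ^ 2)) :
    ∃ (v : E 3 → ℝ) (V : E 3 → E 3), H01 (Ω ∩ Wd (Real.pi / k)) v V ∧
      (Ea lam v V) ^ 3 < SS ^ 3 * ∫ x, v x ^ 6 := by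
  have hπ := Real.pi_pos
  have hπ3 := Real.pi_gt_three
  have hk3 := three_le_of hν hν1 h5
  have hk0 : (0:ℝ) < k := by positivity
  have hz' : 0 < z2 - z1 := by linarith
  obtain ⟨Z, hZ⟩ : ∃ Z, Z = Real.pi / (z2 - z1) := ⟨_, rfl⟩
  obtain ⟨K, hKd⟩ : ∃ K, K = k / q := ⟨_, rfl⟩
  have hZ0 : 0 < Z := by rw [hZ]; positivity
  have hK0 : 0 < K := by rw [hKd]; positivity
  rw [← hZ, ← hKd] at hl hK1
  have hzZ : z2 - z1 = Real.pi / Z := by rw [hZ]; field_simp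
  have hr : 0 < (1 - ν) * q := mul_pos (by linarith) hq
  have hB0 : 0 < B := by linarith
  have hKq : K * q = k := by rw [hKd]; field_simp
  have ha : B / K ≤ ν * q / 2 := by
    rw [div_le_iff₀ hK0]
    nlinarith
  have hbz : B / K ≤ z2 - z1 := by
    rw [hzZ, div_le_div_iff₀ hK0 hZ0]
    nlinarith
  refine box_test (q0 := (1 - ν) * q) (q1 := 0) (q2 := z1) (a0 := B / K)
    (a1 := Real.pi * ((1 - ν) * q) / k) (a2 := B / K)
    (by positivity) (by positivity) (by positivity)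
    (fun x g0 g1 g2 => side_mem hk3 hq hC hν hν1 ha h5 g0 g1 g2.1 (by linarith [g2.2]))
    hη hη1 ?_
  obtain ⟨X, hX⟩ : ∃ X, X = (1 + η) * Real.pi ^ 2 *
      (1 / (B / K) ^ 2 + 1 / (Real.pi * ((1 - ν) * q) / k) ^ 2 + 1 / (B / K) ^ 2) - lam :=
    ⟨_, rfl⟩
  rw [← hX]
  obtain ⟨i1, i2⟩ := inv_one_sub_sq hν hν1
  have hν0 : (1 - ν) ≠ 0 := by linarith
  have e3 : X = (1 + η) * (Real.pi ^ 2 * (2 * (K ^ 2 / B ^ 2)) + K ^ 2 * (1 / (1 - ν) ^ 2)) -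
      lam := by
    have hqK : q = k / K := by rw [hKd]; field_simp
    rw [hX, hqK]
    field_simp
    ring
  have hKB : 0 < K ^ 2 / B ^ 2 := by positivity
  have hXle : X ≤ 43 * (K ^ 2 / B ^ 2) := by
    have g1 : (1 + η) * (Real.pi ^ 2 * (2 * (K ^ 2 / B ^ 2))) ≤
        2 * (10 * (2 * (K ^ 2 / B ^ 2))) := by
      apply mul_le_mul (by linarith) _ (by positivity) (by norm_num)
      exact mul_le_mul_of_nonneg_right pi_sq_le (by positivity)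
    have g2 : K ^ 2 * (1 / (1 - ν) ^ 2) ≤ K ^ 2 * (1 + 6 * ν) :=
      mul_le_mul_of_nonneg_left i1 (by positivity)
    have g3 : η * (K ^ 2 * (1 / (1 - ν) ^ 2)) ≤ η * (K ^ 2 * 4) :=
      mul_le_mul_of_nonneg_left (mul_le_mul_of_nonneg_left i2 (by positivity)) hη.le
    have j1 : 6 * ν * K ^ 2 ≤ K ^ 2 / B ^ 2 := by
      calc 6 * ν * K ^ 2 ≤ (1 / B ^ 2) * K ^ 2 := mul_le_mul_of_nonneg_right h2 (by positivity)
        _ = _ := by ring
    have j2 : η * (K ^ 2 * 4) ≤ K ^ 2 / B ^ 2 := by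
      calc η * (K ^ 2 * 4) = 4 * η * K ^ 2 := by ring
        _ ≤ (1 / B ^ 2) * K ^ 2 := mul_le_mul_of_nonneg_right h1 (by positivity)
        _ = _ := by ring
    have j3 : κ * K ^ 2 ≤ K ^ 2 / B ^ 2 := by
      calc κ * K ^ 2 ≤ (1 / B ^ 2) * K ^ 2 := mul_le_mul_of_nonneg_right h3 (by positivity)
        _ = _ := by ring
    have j4 : κ * Z ^ 2 ≤ 1 * Z ^ 2 := mul_le_mul_of_nonneg_right hκ1 (by positivity)
    rw [e3]
    have e4 : (1 + η) * (Real.pi ^ 2 * (2 * (K ^ 2 / B ^ 2)) + K ^ 2 * (1 / (1 - ν) ^ 2)) =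
      (1 + η) * (Real.pi ^ 2 * (2 * (K ^ 2 / B ^ 2))) + K ^ 2 * (1 / (1 - ν) ^ 2) +
        η * (K ^ 2 * (1 / (1 - ν) ^ 2)) := by ring
    rw [e4]
    linarith
  have hP : (B / K) * (Real.pi * ((1 - ν) * q) / k) * (B / K) ≤ Real.pi * (B ^ 2 / K ^ 3) := by
    have e5 : (B / K) * (Real.pi * ((1 - ν) * q) / k) * (B / K) =
        (Real.pi * (1 - ν)) * (B ^ 2 / K ^ 3) := by
      have hqK : q = k / K := by rw [hKd]; field_simp
      rw [hqK]; field_simp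
    rw [e5]
    apply mul_le_mul_of_nonneg_right _ (by positivity)
    nlinarith
  have hP0 : 0 ≤ (B / K) * (Real.pi * ((1 - ν) * q) / k) * (B / K) := by positivity
  have hP2 := pow_le_pow_left₀ hP0 hP 2
  have hX3 : X ^ 3 ≤ (43 * (K ^ 2 / B ^ 2)) ^ 3 :=
    (Odd.strictMono_pow (R := ℝ) (n := 3) (by decide)).monotone hXle
  calc X ^ 3 * ((B / K) * (Real.pi * ((1 - ν) * q) / k) * (B / K)) ^ 2
      ≤ (43 * (K ^ 2 / B ^ 2)) ^ 3 * ((B / K) * (Real.pi * ((1 - ν) * q) / k) * (B / K)) ^ 2 :=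
        mul_le_mul_of_nonneg_right hX3 (by positivity)
    _ ≤ (43 * (K ^ 2 / B ^ 2)) ^ 3 * (Real.pi * (B ^ 2 / K ^ 3)) ^ 2 :=
        mul_le_mul_of_nonneg_left hP2 (by positivity)
    _ = (79507 / B ^ 2) * Real.pi ^ 2 := by field_simp; norm_num
    _ ≤ (79507 / B ^ 2) * 10 := mul_le_mul_of_nonneg_left pi_sq_le (by positivity)
    _ = 795070 / B ^ 2 := by ring
    _ < TT := by
        rw [div_lt_iff₀ (by positivity)]
        linarith

end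

/-- **test functions in wedges of cylinders**, with absolute constants -/
theorem wedge_box : ∃ N κ : ℝ, 1 ≤ N ∧ 0 < κ ∧ κ ≤ 1 ∧ ∀ (Ω : Set (E 3)) (k : ℕ) (q z1 z2 lam : ℝ),
    1 ≤ k → 0 < q → z1 < z2 → Cyl Ω q z1 z2 →
    (N ≤ k ∨ N ≤ q * (Real.pi / (z2 - z1))) →
    (k / q) ^ 2 + (Real.pi / (z2 - z1)) ^ 2 - lam ≤
      κ * ((Real.pi / (z2 - z1)) ^ 2 + (k / q) ^ 2) →
    ∃ (v : E 3 → ℝ) (V : E 3 → E 3), H01 (Ω ∩ Wd (Real.pi / k)) v V ∧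
      (Ea lam v V) ^ 3 < SS ^ 3 * ∫ x, v x ^ 6 := by
  have hT := TT_pos
  obtain ⟨B, hB1, hB⟩ : ∃ B : ℝ, 1 ≤ B ∧ 10 ^ 6 < TT * B ^ 2 := by
    refine ⟨1 + 10 ^ 6 / TT, by
      have : 0 < 10 ^ 6 / TT := by positivity
      linarith, ?_⟩
    obtain ⟨c, hc⟩ : ∃ c, c = 10 ^ 6 / TT := ⟨_, rfl⟩
    have hc0 : 0 < c := by rw [hc]; positivity
    have h1 : TT * c = 10 ^ 6 := by rw [hc]; field_simp
    rw [← hc]
    nlinarith [mul_pos hT hc0, mul_pos hT (mul_pos hc0 hc0)]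
  obtain ⟨θ, hθ0, hθ1, hθ⟩ : ∃ θ : ℝ, 0 < θ ∧ θ ≤ 1 ∧ 2 * 10 ^ 7 * θ ^ 2 < TT := by
    refine ⟨min 1 (TT / (4 * 10 ^ 7)), by positivity, min_le_left _ _, ?_⟩
    obtain ⟨c, hc⟩ : ∃ c, c = min 1 (TT / (4 * 10 ^ 7)) := ⟨_, rfl⟩
    have hc0 : 0 < c := by rw [hc]; positivity
    have hc1 : c ≤ 1 := by rw [hc]; exact min_le_left _ _
    have hc2 : c ≤ TT / (4 * 10 ^ 7) := by rw [hc]; exact min_le_right _ _
    rw [← hc]
    have hc3 : c ^ 2 ≤ c := by nlinarith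
    have hc4 : 4 * 10 ^ 7 * c ≤ TT := by
      rw [le_div_iff₀ (by norm_num)] at hc2; linarith
    nlinarith
  obtain ⟨A, hA1, hA⟩ : ∃ A : ℝ, 1 ≤ A ∧ 2 * 10 ^ 6 < TT * A ^ 4 * θ ^ 2 := by
    obtain ⟨c, hc⟩ : ∃ c, c = 2 * 10 ^ 6 / (TT * θ ^ 2) := ⟨_, rfl⟩
    have hc0 : 0 < c := by rw [hc]; positivity
    have h1 : TT * θ ^ 2 * c = 2 * 10 ^ 6 := by rw [hc]; field_simp
    refine ⟨1 + c, by linarith, ?_⟩
    have h2 : c < (1 + c) ^ 4 := by nlinarith [sq_nonneg c, sq_nonneg (c + 1), mul_pos hc0 hc0]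
    calc (2 * 10 ^ 6 : ℝ) = TT * θ ^ 2 * c := h1.symm
      _ < TT * θ ^ 2 * (1 + c) ^ 4 := mul_lt_mul_of_pos_left h2 (by positivity)
      _ = _ := by ring
  have hA0 : 0 < A := by linarith
  have hB0 : 0 < B := by linarith
  have hAB : 1 ≤ A ^ 2 * B ^ 2 := by
    have h1 : 1 ≤ A ^ 2 := by nlinarith
    have h2 : 1 ≤ B ^ 2 := by nlinarith
    nlinarith
  obtain ⟨ν, hν⟩ : ∃ ν : ℝ, ν = 1 / (6 * (A ^ 2 * B ^ 2)) := ⟨_, rfl⟩
  have hν0 : 0 < ν := by rw [hν]; positivity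
  have hν1 : ν ≤ 1 / 2 := by
    rw [hν, div_le_div_iff₀ (by positivity) (by norm_num)]
    nlinarith
  have hνA : 6 * ν * B ^ 2 ≤ 1 / A ^ 2 := by
    apply le_of_eq
    rw [hν]; field_simp
  have hνB : 6 * ν ≤ 1 / B ^ 2 := by
    rw [hν, le_div_iff₀ (by positivity)]
    have : 6 * (1 / (6 * (A ^ 2 * B ^ 2))) * B ^ 2 = 1 / A ^ 2 := by field_simp
    rw [this, div_le_one (by positivity)]
    nlinarith
  obtain ⟨η, hη⟩ : ∃ η : ℝ, η = 1 / (5 * (A ^ 2 * B ^ 2)) := ⟨_, rfl⟩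
  have hη0 : 0 < η := by rw [hη]; positivity
  have hη1 : η ≤ 1 := by
    rw [hη, div_le_one (by positivity)]
    nlinarith
  have hηA : η * (4 * B ^ 2 + 1) ≤ 1 / A ^ 2 := by
    have : η * (4 * B ^ 2 + 1) ≤ η * (5 * B ^ 2) := by
      apply mul_le_mul_of_nonneg_left _ hη0.le
      nlinarith
    refine this.trans (le_of_eq ?_)
    rw [hη]; field_simp
  have hηB : 4 * η ≤ 1 / B ^ 2 := by
    rw [hη, le_div_iff₀ (by positivity)]
    have : 4 * (1 / (5 * (A ^ 2 * B ^ 2))) * B ^ 2 = (4 / 5) / A ^ 2 := by field_simp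
    rw [this, div_le_one (by positivity)]
    nlinarith
  obtain ⟨κ, hκ⟩ : ∃ κ : ℝ, κ = min (θ ^ 2) (1 / (2 * (A ^ 2 * B ^ 2))) := ⟨_, rfl⟩
  have hκ0 : 0 < κ := by rw [hκ]; positivity
  have hκθ : κ ≤ θ ^ 2 := by rw [hκ]; exact min_le_left _ _
  have hκ2 : κ ≤ 1 / (2 * (A ^ 2 * B ^ 2)) := by rw [hκ]; exact min_le_right _ _
  have hκ1 : κ ≤ 1 := hκθ.trans (by nlinarith)
  have hκA : κ * (1 + B ^ 2) ≤ 1 / A ^ 2 := by
    have h1 : κ * (1 + B ^ 2) ≤ κ * (2 * B ^ 2) := by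
      apply mul_le_mul_of_nonneg_left _ hκ0.le
      nlinarith
    have h2 : κ * (2 * B ^ 2) ≤ 1 / (2 * (A ^ 2 * B ^ 2)) * (2 * B ^ 2) :=
      mul_le_mul_of_nonneg_right hκ2 (by positivity)
    refine (h1.trans h2).trans (le_of_eq ?_)
    field_simp
  have hκB : κ ≤ 1 / B ^ 2 := by
    refine hκ2.trans ?_
    apply div_le_div_of_nonneg_left (by norm_num) (by positivity)
    nlinarith [mul_nonneg (show (0:ℝ) ≤ A ^ 2 - 1 by nlinarith) (sq_nonneg B)]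
  obtain ⟨N, hN⟩ : ∃ N : ℝ, N = (2 * A * B + 20 / θ + 2 * B) / ν := ⟨_, rfl⟩
  have hNν : ν * N = 2 * A * B + 20 / θ + 2 * B := by rw [hN]; field_simp
  have h20 : 20 ≤ 20 / θ := by
    rw [le_div_iff₀ hθ0]; nlinarith
  have hAB' : 0 < A * B := by positivity
  have hN20 : 20 ≤ ν * N := by rw [hNν]; nlinarith
  have hN1 : 1 ≤ N := by
    by_contra hc
    rw [not_le] at hc
    have : ν * N ≤ ν * 1 := mul_le_mul_of_nonneg_left hc.le hν0.le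
    linarith
  have hN0 : 0 < N := by linarith
  refine ⟨N, κ, hN1, hκ0, hκ1, ?_⟩
  intro Ω k q z1 z2 lam hk hq hz hC hNk hl
  have hπ := Real.pi_pos
  have hz' : 0 < z2 - z1 := by linarith
  have hk1 : (1:ℝ) ≤ k := by exact_mod_cast hk
  obtain ⟨Z, hZ⟩ : ∃ Z, Z = Real.pi / (z2 - z1) := ⟨_, rfl⟩
  have hZ0 : 0 < Z := by rw [hZ]; positivity
  have hkk : (k:ℝ) ≤ (k:ℝ) ^ 2 := le_self_pow₀ hk1 two_ne_zero
  have hKq : k / q * q = (k:ℝ) := by field_simp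
  rcases le_total (k / q) (θ * (Real.pi / (z2 - z1))) with hlow | hlow
  · apply case_low hk hq hz hC hθ0 hθ1 hθ hlow
    refine hl.trans ?_
    exact mul_le_mul_of_nonneg_right hκθ (by positivity)
  · rcases le_total (k / q) (B * (Real.pi / (z2 - z1))) with hmid | hmid
    · -- middle case
      rw [← hZ] at hlow hmid hNk
      have m1 : θ * (q * Z) ≤ k := by
        have := mul_le_mul_of_nonneg_right hlow hq.le
        rw [hKq] at this; linarith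
      have m2 : (k:ℝ) ≤ B * (q * Z) := by
        have := mul_le_mul_of_nonneg_right hmid hq.le
        rw [hKq] at this; linarith
      have hqZ : 2 * A ≤ ν * (q * Z) := by
        rcases hNk with h | h
        · have h1 : N ≤ B * (q * Z) := h.trans m2
          have h2 : ν * N ≤ ν * (B * (q * Z)) := mul_le_mul_of_nonneg_left h1 hν0.le
          rw [hNν] at h2
          have h3 : B * (2 * A) ≤ B * (ν * (q * Z)) := by
            have : 0 < 20 / θ := by positivity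
            nlinarith
          exact le_of_mul_le_mul_left h3 hB0
        · have h2 : ν * N ≤ ν * (q * Z) := mul_le_mul_of_nonneg_left h hν0.le
          rw [hNν] at h2
          have h4 : 0 < 20 / θ := by positivity
          have h5 : 2 * A ≤ 2 * A * B := by nlinarith
          linarith
      have hkν : 20 ≤ ν * (k:ℝ) ^ 2 := by
        have h1 : 20 ≤ ν * (k:ℝ) := by
          rcases hNk with h | h
          · have : ν * N ≤ ν * k := mul_le_mul_of_nonneg_left h hν0.le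
            linarith
          · have h2 : θ * N ≤ k := (mul_le_mul_of_nonneg_left h hθ0.le).trans m1
            have h3 : ν * (θ * N) ≤ ν * k := mul_le_mul_of_nonneg_left h2 hν0.le
            have h4 : ν * (θ * N) = θ * (ν * N) := by ring
            rw [h4, hNν] at h3
            have h5 : θ * (20 / θ) = 20 := by field_simp
            have h6 : θ * (2 * A * B + 20 / θ + 2 * B) = θ * (2 * A * B) + θ * (20 / θ) +
              θ * (2 * B) := by ring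
            rw [h6, h5] at h3
            have : 0 < θ * (2 * A * B) := by positivity
            have : 0 < θ * (2 * B) := by positivity
            linarith
        have h2 : ν * (k:ℝ) ≤ ν * (k:ℝ) ^ 2 := mul_le_mul_of_nonneg_left hkk hν0.le
        linarith
      rw [hZ] at hqZ hlow hmid
      exact case_mid hq hz hC hθ0 hA1 hB1 hν0 hν1 hη0 hη1 hκ0 hA hηA hνA hκA hlow hmid hqZ
        hkν hl
    · rw [← hZ] at hmid hNk
      have m1 : B * (q * Z) ≤ k := by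
        have := mul_le_mul_of_nonneg_right hmid hq.le
        rw [hKq] at this; linarith
      have hNk' : N ≤ k := by
        rcases hNk with h | h
        · exact h
        · have : B * N ≤ k := (mul_le_mul_of_nonneg_left h hB0.le).trans m1
          nlinarith
      have h1 : ν * N ≤ ν * k := mul_le_mul_of_nonneg_left hNk' hν0.le
      have h2B : 2 * B ≤ ν * k := by
        rw [hNν] at h1
        have : 0 < 20 / θ := by positivity
        nlinarith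
      have hkν : 20 ≤ ν * (k:ℝ) ^ 2 := by
        have h2 : ν * (k:ℝ) ≤ ν * (k:ℝ) ^ 2 := mul_le_mul_of_nonneg_left hkk hν0.le
        linarith
      rw [hZ] at hmid
      exact case_high hq hz hC hB1 hν0 hν1 hη0 hη1 hκ0 hκ1 hB hηB hνB hκB hmid h2B hkν hl

end Run7.h104
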