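import Pool.Agent.Run7.h104.Sol3

/-! # Strictly star-shaped domains: elementary geometry -/

set_option autoImplicit false
set_option linter.unusedSectionVars false
set_option linter.unusedVariables false

open MeasureTheory Filter Topology
open scoped ContDiff ENNReal NNReal RealInnerProductSpace

namespace Run7.h104

open Pool.Agent.R217.BN (E cexp sobS H01)
open Pool.Agent.R217.HS
open Pool.Agent.R217.KM

/-- defining function -/
noncomputable def Fd (c : E 3) (ρ : E 3 → ℝ) (x : E 3) : ℝ :=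
  ‖x - c‖ - ρ (‖x - c‖⁻¹ • (x - c))

/-- the domain -/
def Dom (c : E 3) (ρ : E 3 → ℝ) : Set (E 3) := {x | ‖x - c‖ < ρ (‖x - c‖⁻¹ • (x - c))}

lemma mem_Dom {c : E 3} {ρ : E 3 → ℝ} {x : E 3} : x ∈ Dom c ρ ↔ Fd c ρ x < 0 := by
  unfold Dom Fd
  rw [Set.mem_ofPred_eq, sub_neg]

lemma rho_bounds {ρ : E 3 → ℝ} (hρ : ContDiff ℝ ∞ ρ) (hpos : ∀ x, 0 < ρ x) :
    ∃ m M : ℝ, 0 < m ∧ ∀ x : E 3, ‖x‖ ≤ 1 → m ≤ ρ x ∧ ρ x ≤ M := by
  have hc : IsCompact (Metric.closedBall (0 : E 3) 1) := isCompact_closedBall 0 1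
  have hne : (Metric.closedBall (0 : E 3) 1).Nonempty := ⟨0, by simp⟩
  obtain ⟨a, ha, ha'⟩ := hc.exists_isMinOn hne hρ.continuous.continuousOn
  obtain ⟨b, hb, hb'⟩ := hc.exists_isMaxOn hne hρ.continuous.continuousOn
  refine ⟨ρ a, ρ b, hpos a, fun x hx => ⟨ha' ?_, hb' ?_⟩⟩ <;> simpa using hx

lemma dir_norm (x : E 3) : ‖‖x‖⁻¹ • x‖ ≤ 1 := by
  rw [norm_smul, norm_inv, norm_norm]
  by_cases h : ‖x‖ = 0
  · rw [h]; simp
  · rw [inv_mul_cancel₀ h]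

lemma Fd_smooth {c : E 3} {ρ : E 3 → ℝ} (hρ : ContDiff ℝ ∞ ρ) {x : E 3} (hx : x ≠ c) :
    ContDiffAt ℝ 2 (Fd c ρ) x := by
  have h0 : x - c ≠ 0 := sub_ne_zero.2 hx
  have h1 : ContDiffAt ℝ 2 (fun y : E 3 => y - c) x := contDiffAt_id.sub contDiffAt_const
  have h2 : ContDiffAt ℝ 2 (fun y : E 3 => ‖y - c‖) x := h1.norm ℝ h0
  have h3 : ContDiffAt ℝ 2 (fun y : E 3 => ‖y - c‖⁻¹ • (y - c)) x :=
    (h2.inv (norm_ne_zero_iff.2 h0)).smul h1
  have h4 : ContDiffAt ℝ 2 ρ (‖x - c‖⁻¹ • (x - c)) := (hρ.of_le two_le_inf).contDiffAt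
  exact h2.sub (h4.comp x h3)

lemma ball_Dom {c : E 3} {ρ : E 3 → ℝ} (hρ : ContDiff ℝ ∞ ρ) (hpos : ∀ x, 0 < ρ x) :
    ∃ m : ℝ, 0 < m ∧ Metric.ball c m ⊆ Dom c ρ := by
  obtain ⟨m, M, hm, hM⟩ := rho_bounds hρ hpos
  refine ⟨m, hm, fun x hx => ?_⟩
  rw [Metric.mem_ball, dist_eq_norm] at hx
  exact lt_of_lt_of_le hx (hM _ (dir_norm _)).1

lemma Dom_bdd {c : E 3} {ρ : E 3 → ℝ} (hρ : ContDiff ℝ ∞ ρ) (hpos : ∀ x, 0 < ρ x) :
    Bornology.IsBounded (Dom c ρ) := by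
  obtain ⟨m, M, hm, hM⟩ := rho_bounds hρ hpos
  refine (Metric.isBounded_ball (x := c) (r := M)).subset fun x hx => ?_
  rw [Metric.mem_ball, dist_eq_norm]
  exact lt_of_lt_of_le hx (hM _ (dir_norm _)).2

lemma Dom_open {c : E 3} {ρ : E 3 → ℝ} (hρ : ContDiff ℝ ∞ ρ) (hpos : ∀ x, 0 < ρ x) :
    IsOpen (Dom c ρ) := by
  rw [isOpen_iff_mem_nhds]
  intro x hx
  by_cases hxc : x = c
  · obtain ⟨m, hm, hM⟩ := ball_Dom (c := c) hρ hpos
    rw [hxc]
    exact mem_of_superset (Metric.ball_mem_nhds c hm) hM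
  · have h1 := (Fd_smooth (c := c) hρ hxc).continuousAt
    rw [mem_Dom] at hx
    filter_upwards [h1.eventually_lt continuousAt_const hx] with y hy
    exact mem_Dom.2 hy

lemma Dom_closure {c : E 3} {ρ : E 3 → ℝ} (hρ : ContDiff ℝ ∞ ρ) {p : E 3}
    (hp : p ∈ closure (Dom c ρ)) (hpc : p ≠ c) : Fd c ρ p ≤ 0 := by
  by_contra hc
  rw [not_le] at hc
  have h1 := (Fd_smooth (c := c) hρ hpc).continuousAt
  have h2 := h1.eventually_const_lt hc
  rw [mem_closure_iff_frequently] at hp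
  obtain ⟨y, hy1, hy2⟩ := (hp.and_eventually h2).exists
  rw [mem_Dom] at hy1
  linarith

lemma Dom_frontier {c : E 3} {ρ : E 3 → ℝ} (hρ : ContDiff ℝ ∞ ρ) (hpos : ∀ x, 0 < ρ x) {p : E 3}
    (hp : p ∈ frontier (Dom c ρ)) : p ≠ c ∧ Fd c ρ p = 0 := by
  have hO := Dom_open (c := c) hρ hpos
  rw [hO.frontier_eq] at hp
  obtain ⟨m, hm, hM⟩ := ball_Dom (c := c) hρ hpos
  have hpc : p ≠ c := by
    rintro rfl
    exact hp.2 (hM (Metric.mem_ball_self hm))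
  refine ⟨hpc, le_antisymm (Dom_closure hρ hp.1 hpc) ?_⟩
  by_contra hc
  rw [not_le] at hc
  exact hp.2 (mem_Dom.2 hc)

/-- value of the defining function on the ray -/
lemma Fd_ray {c : E 3} {ρ : E 3 → ℝ} {p : E 3} {t : ℝ} (ht : 0 < t) :
    Fd c ρ (c + t • (p - c)) = Fd c ρ p + (t - 1) * ‖p - c‖ := by
  unfold Fd
  rw [add_sub_cancel_left, norm_smul, Real.norm_eq_abs, abs_of_pos ht, smul_smul]
  have h : (t * ‖p - c‖)⁻¹ * t = ‖p - c‖⁻¹ := by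
    rw [mul_inv]; field_simp
  rw [h]; ring

lemma Fd_rad {c : E 3} {ρ : E 3 → ℝ} (hρ : ContDiff ℝ ∞ ρ) {p : E 3} (hp : p ≠ c) :
    fderiv ℝ (Fd c ρ) p (p - c) = ‖p - c‖ := by
  have hF := ((Fd_smooth (c := c) hρ hp).differentiableAt (by norm_num)).hasFDerivAt
  have h1 : HasDerivAt (fun t : ℝ => c + t • (p - c)) (p - c) 1 := by
    have := ((hasDerivAt_id (1:ℝ)).smul_const (p - c)).const_add c
    simpa using this
  have e1 : c + (1:ℝ) • (p - c) = p := by simp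
  have h2 : HasDerivAt (fun t : ℝ => Fd c ρ (c + t • (p - c)))
      (fderiv ℝ (Fd c ρ) p (p - c)) 1 := by
    have hF' : HasFDerivAt (Fd c ρ) (fderiv ℝ (Fd c ρ) p) (c + (1:ℝ) • (p - c)) := by
      rw [e1]; exact hF
    exact hF'.comp_hasDerivAt 1 h1
  have h3 : HasDerivAt (fun t : ℝ => Fd c ρ p + (t - 1) * ‖p - c‖) ‖p - c‖ 1 := by
    have := (((hasDerivAt_id (1:ℝ)).sub_const 1).mul_const ‖p - c‖).const_add (Fd c ρ p)
    simpa using this
  have h4 : (fun t : ℝ => Fd c ρ (c + t • (p - c))) =ᶠ[𝓝 1]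
      fun t : ℝ => Fd c ρ p + (t - 1) * ‖p - c‖ := by
    filter_upwards [lt_mem_nhds (one_pos : (0:ℝ) < 1)] with t ht
    exact Fd_ray ht
  exact (h2.congr_of_eventuallyEq h4.symm).unique h3

/-- quadratic lower bound -/
lemma Fd_quad {c : E 3} {ρ : E 3 → ℝ} (hρ : ContDiff ℝ ∞ ρ) {p : E 3} (hp : p ≠ c) :
    ∃ K η : ℝ, 0 < K ∧ 0 < η ∧ ∀ x, ‖x - p‖ < η →
      |Fd c ρ x - Fd c ρ p - fderiv ℝ (Fd c ρ) p (x - p)| ≤ K * ‖x - p‖ ^ 2 := by
  have h2 := Fd_smooth (c := c) hρ hp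
  have h1 : ContDiffAt ℝ 1 (fderiv ℝ (Fd c ρ)) p :=
    h2.fderiv_right (m := 1) (by norm_num)
  obtain ⟨K, t, ht, hK⟩ := h1.exists_lipschitzOnWith
  have h3 : ∀ᶠ x in 𝓝 p, DifferentiableAt ℝ (Fd c ρ) x := by
    filter_upwards [isOpen_ne.mem_nhds hp] with x hx
    exact (Fd_smooth (c := c) hρ hx).differentiableAt (by norm_num)
  obtain ⟨η, hη, hb⟩ := Metric.mem_nhds_iff.1 (Filter.inter_mem ht h3)
  refine ⟨K + 1, η, by positivity, hη, fun x hx => ?_⟩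
  obtain ⟨r, hr⟩ : ∃ r, r = ‖x - p‖ := ⟨_, rfl⟩
  have hsub : Metric.closedBall p r ⊆ Metric.ball p η := by
    apply Metric.closedBall_subset_ball
    rw [hr]; exact hx
  have key := Convex.norm_image_sub_le_of_norm_fderiv_le' (𝕜 := ℝ) (f := Fd c ρ)
    (φ := fderiv ℝ (Fd c ρ) p) (s := Metric.closedBall p r) (C := K * r) (x := p) (y := x)
    (fun z hz => (hb (hsub hz)).2)
    (fun z hz => by
      have hz1 := (hb (hsub hz)).1
      have hp1 : p ∈ t := (hb (Metric.mem_ball_self hη)).1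
      have := hK.dist_le_mul z hz1 p hp1
      rw [dist_eq_norm] at this
      refine this.trans ?_
      apply mul_le_mul_of_nonneg_left (Metric.mem_closedBall.1 hz) K.2)
    (convex_closedBall p r) (Metric.mem_closedBall_self (by rw [hr]; positivity))
    (by rw [Metric.mem_closedBall, dist_eq_norm, hr])
  rw [Real.norm_eq_abs, ← hr] at key
  refine key.trans ?_
  rw [← hr]
  have : 0 ≤ r ^ 2 := by positivity
  nlinarith

theorem Dom_ext {c : E 3} {ρ : E 3 → ℝ} (hρ : ContDiff ℝ ∞ ρ) (hpos : ∀ x, 0 < ρ x) :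
    ∀ p ∈ frontier (Dom c ρ), ∃ (y : E 3) (r : ℝ), 0 < r ∧ ‖p - y‖ = r ∧
      ∀ x ∈ Dom c ρ, r ≤ ‖x - y‖ := by
  intro p hp
  obtain ⟨hpc, hF0⟩ := Dom_frontier hρ hpos hp
  obtain ⟨K, η, hK, hη, hq⟩ := Fd_quad (c := c) hρ hpc
  have hrad := Fd_rad (c := c) hρ hpc
  obtain ⟨g, hg⟩ : ∃ g, g = gradient (Fd c ρ) p := ⟨_, rfl⟩
  have hgi : ∀ v, ⟪g, v⟫ = fderiv ℝ (Fd c ρ) p v := fun v => by rw [hg, inner_grad']
  have hg0 : 0 < ‖g‖ := by
    rw [norm_pos_iff]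
    rintro rfl
    have := hgi (p - c)
    rw [inner_zero_left, hrad] at this
    exact hpc (sub_eq_zero.1 (norm_eq_zero.1 this.symm))
  obtain ⟨s, hs⟩ : ∃ s, s = min (1 / (2 * K)) (η / (2 * ‖g‖)) := ⟨_, rfl⟩
  have hs0 : 0 < s := by rw [hs]; apply lt_min <;> positivity
  have hs1 : 2 * s * K ≤ 1 := by
    have : s ≤ 1 / (2 * K) := by rw [hs]; exact min_le_left _ _
    rw [le_div_iff₀ (by positivity)] at this
    linarith
  have hs2 : 2 * (s * ‖g‖) ≤ η := by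
    have : s ≤ η / (2 * ‖g‖) := by rw [hs]; exact min_le_right _ _
    rw [le_div_iff₀ (by positivity)] at this
    linarith
  refine ⟨p + s • g, s * ‖g‖, by positivity, ?_, fun x hx => ?_⟩
  · rw [sub_add_cancel_left, norm_neg, norm_smul, Real.norm_eq_abs, abs_of_pos hs0]
  · rw [mem_Dom] at hx
    by_cases hxη : ‖x - p‖ < η
    · have h1 := (abs_le.1 (hq x hxη)).1
      rw [hF0, ← hgi] at h1
      have h2 : ⟪g, x - p⟫ ≤ K * ‖x - p‖ ^ 2 := by linarith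
      have e : x - (p + s • g) = (x - p) - s • g := by abel
      have h3 : ‖x - (p + s • g)‖ ^ 2 = ‖x - p‖ ^ 2 - 2 * s * ⟪g, x - p⟫ + (s * ‖g‖) ^ 2 := by
        rw [e, norm_sub_sq_real, inner_smul_right, norm_smul, Real.norm_eq_abs, abs_of_pos hs0,
          real_inner_comm]
        ring
      have h4 : (s * ‖g‖) ^ 2 ≤ ‖x - (p + s • g)‖ ^ 2 := by
        rw [h3]
        have h5 : 0 ≤ ‖x - p‖ ^ 2 := by positivity
        have h6 : 2 * s * ⟪g, x - p⟫ ≤ 2 * s * (K * ‖x - p‖ ^ 2) :=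
          mul_le_mul_of_nonneg_left h2 (by positivity)
        have h7 : 2 * s * (K * ‖x - p‖ ^ 2) ≤ ‖x - p‖ ^ 2 := by
          calc 2 * s * (K * ‖x - p‖ ^ 2) = (2 * s * K) * ‖x - p‖ ^ 2 := by ring
            _ ≤ 1 * ‖x - p‖ ^ 2 := mul_le_mul_of_nonneg_right hs1 h5
            _ = _ := one_mul _
        linarith
      exact le_of_sq_le_sq h4 (norm_nonneg _)
    · rw [not_lt] at hxη
      have h1 : ‖x - p‖ ≤ ‖x - (p + s • g)‖ + ‖s • g‖ := by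
        have e : x - p = (x - (p + s • g)) + s • g := by abel
        rw [e]; exact norm_add_le _ _
      rw [norm_smul, Real.norm_eq_abs, abs_of_pos hs0] at h1
      linarith

theorem Dom_cone {c : E 3} {ρ : E 3 → ℝ} (hρ : ContDiff ℝ ∞ ρ) (hpos : ∀ x, 0 < ρ x) {p : E 3}
    (hp : p ∈ closure (Dom c ρ)) : ∃ c0 s0 : ℝ, 0 < c0 ∧ 0 < s0 ∧ ∀ s, 0 < s → s < s0 →
      Metric.ball (p + s • (c - p)) (c0 * s) ⊆ Dom c ρ := by
  by_cases hpc : p = c
  · obtain ⟨m, hm, hM⟩ := ball_Dom (c := c) hρ hpos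
    refine ⟨m, 1, hm, one_pos, fun s hs hs1 => ?_⟩
    rw [hpc, sub_self, smul_zero, add_zero]
    refine (Metric.ball_subset_ball ?_).trans hM
    nlinarith
  · have hF := Dom_closure hρ hp hpc
    have h1 : ContDiffAt ℝ 1 (Fd c ρ) p := (Fd_smooth (c := c) hρ hpc).of_le (by norm_num)
    obtain ⟨L, t, ht, hL⟩ := h1.exists_lipschitzOnWith
    obtain ⟨η, hη, hb⟩ := Metric.mem_nhds_iff.1 ht
    have hd : 0 < ‖p - c‖ := norm_pos_iff.2 (sub_ne_zero.2 hpc)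
    have hL0 : (0:ℝ) ≤ L := L.2
    obtain ⟨c0, hc0⟩ : ∃ c0 : ℝ, c0 = ‖p - c‖ / (L + 1) := ⟨_, rfl⟩
    have hc00 : 0 < c0 := by rw [hc0]; positivity
    have hc01 : L * c0 < ‖p - c‖ := by
      have : (L + 1) * c0 = ‖p - c‖ := by rw [hc0]; field_simp
      nlinarith
    obtain ⟨s0, hs0⟩ : ∃ s0 : ℝ, s0 = min 1 (η / (‖p - c‖ + c0)) := ⟨_, rfl⟩
    have hs00 : 0 < s0 := by rw [hs0]; apply lt_min <;> positivity
    refine ⟨c0, s0, hc00, hs00, fun s hs hss => ?_⟩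
    have hs1 : s < 1 := lt_of_lt_of_le hss (by rw [hs0]; exact min_le_left _ _)
    have hs2 : s * (‖p - c‖ + c0) < η := by
      have : s < η / (‖p - c‖ + c0) := lt_of_lt_of_le hss (by rw [hs0]; exact min_le_right _ _)
      rwa [lt_div_iff₀ (by positivity)] at this
    obtain ⟨q, hq⟩ : ∃ q, q = p + s • (c - p) := ⟨_, rfl⟩
    have hqp : ‖q - p‖ = s * ‖p - c‖ := by
      rw [hq, add_sub_cancel_left, norm_smul, Real.norm_eq_abs, abs_of_pos hs, norm_sub_rev]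
    have hqF : Fd c ρ q ≤ -(s * ‖p - c‖) := by
      have e : q = c + (1 - s) • (p - c) := by
        rw [hq, sub_smul, one_smul, smul_sub, smul_sub]; abel
      rw [e, Fd_ray (by linarith)]
      linarith
    rw [← hq]
    intro x hx
    rw [Metric.mem_ball, dist_eq_norm] at hx
    have hxp : ‖x - p‖ < η := by
      have : ‖x - p‖ ≤ ‖x - q‖ + ‖q - p‖ := norm_sub_le_norm_sub_add_norm_sub x q p
      rw [hqp] at this
      nlinarith
    have hqη : ‖q - p‖ < η := by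
      rw [hqp]; nlinarith
    have hxt : x ∈ t := hb (by rw [Metric.mem_ball, dist_eq_norm]; exact hxp)
    have hqt : q ∈ t := hb (by rw [Metric.mem_ball, dist_eq_norm]; exact hqη)
    have h2 := hL.dist_le_mul x hxt q hqt
    rw [Real.dist_eq, dist_eq_norm] at h2
    have h3 := (abs_le.1 h2).2
    have h4 : L * ‖x - q‖ ≤ L * (c0 * s) := mul_le_mul_of_nonneg_left hx.le hL0
    have h5 : L * c0 * s < ‖p - c‖ * s := mul_lt_mul_of_pos_right hc01 hs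
    rw [mem_Dom]
    have h6 : (L : ℝ) * (c0 * s) = L * c0 * s := by ring
    linarith

end Run7.h104
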