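import Pool.Agent.Run7.h104.Dom1

/-! # Solids of revolution -/

set_option autoImplicit false
set_option linter.unusedSectionVars false
set_option linter.unusedVariables false

open MeasureTheory Filter Topology
open scoped ContDiff ENNReal NNReal RealInnerProductSpace

namespace Run7.h104

open Pool.Agent.R217.BN (E cexp sobS H01)
open Pool.Agent.R217.HS
open Pool.Agent.R217.KM

lemma zc_norm_sq (x : E 3) : ‖zc x‖ ^ 2 = x 0 ^ 2 + x 1 ^ 2 := by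
  rw [Complex.sq_norm, Complex.normSq_apply]
  unfold zc
  ring

lemma zc_polar (q : E 3) : ∃ φ : ℝ, q = rot φ (!₂[‖zc q‖, 0, q 2] : E 3) := by
  refine ⟨Complex.arg (zc q), ?_⟩
  have h0 := Complex.norm_mul_cos_arg (zc q)
  have h1 := Complex.norm_mul_sin_arg (zc q)
  have e0 : (zc q).re = q 0 := rfl
  have e1 : (zc q).im = q 1 := rfl
  rw [e0] at h0
  rw [e1] at h1
  apply ext3
  · rw [rot0]
    simp
    linarith
  · rw [rot1]
    simp
    linarith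
  · rw [rot2]
    simp

theorem axis_z {c : E 3} {ρ : E 3 → ℝ} (hρ : ContDiff ℝ ∞ ρ) (hpos : ∀ x, 0 < ρ x)
    (hinv : ∀ x y : E 3, x 2 = y 2 → ‖x‖ = ‖y‖ → x ∈ Dom c ρ → y ∈ Dom c ρ) :
    ∃ κ Λ : ℝ, 0 < κ ∧ ∀ lam : ℝ, Λ ≤ lam → ∃ T : Finset ℝ, κ * √lam ≤ T.card ∧
      ∀ t ∈ T, Set.Infinite {w | w ∈ Sol (Dom c ρ) lam ∧ ∫ x, w x ^ 6 = t} := by
  have hO := Dom_open (c := c) hρ hpos
  have hb := Dom_bdd (c := c) hρ hpos
  have hrot : ∀ θ x, x ∈ Dom c ρ → rot θ x ∈ Dom c ρ := by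
    intro θ x hx
    refine hinv x _ ?_ ?_ hx
    · simp
    · rw [LinearIsometryEquiv.norm_map]
  have hror : ∀ θ x, x ∈ Dom c ρ → ror θ x ∈ Dom c ρ := by
    intro θ x hx
    refine hinv x _ ?_ ?_ hx
    · simp
    · rw [LinearIsometryEquiv.norm_map]
  obtain ⟨m, hm, hmb⟩ := ball_Dom (c := c) hρ hpos
  have hcD : c ∈ Dom c ρ := hmb (Metric.mem_ball_self hm)
  have hcK : IsCompact (closure (Dom c ρ)) := hb.isCompact_closure
  have hcf : Continuous fun x : E 3 => x 0 ^ 2 + x 1 ^ 2 := by fun_prop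
  obtain ⟨p, hp, hmax⟩ := hcK.exists_isMaxOn ⟨c, subset_closure hcD⟩ hcf.continuousOn
  have hmax' : ∀ x ∈ Dom c ρ, x 0 ^ 2 + x 1 ^ 2 ≤ p 0 ^ 2 + p 1 ^ 2 :=
    fun x hx => hmax (subset_closure hx)
  obtain ⟨R, hR⟩ : ∃ R, R = ‖zc p‖ := ⟨_, rfl⟩
  have hR2 : R ^ 2 = p 0 ^ 2 + p 1 ^ 2 := by rw [hR, zc_norm_sq]
  have hR0 : 0 < R := by
    rw [hR]
    refine lt_of_le_of_ne (norm_nonneg _) fun h => ?_
    have h0 : p 0 ^ 2 + p 1 ^ 2 = 0 := by rw [← zc_norm_sq, ← h]; norm_num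
    have h1 := hmax' c hcD
    have h2 := hmax' (c + (m / 2) • eb 0) (hmb (by
      rw [Metric.mem_ball, dist_eq_norm, add_sub_cancel_left, norm_smul]
      simp
      rw [abs_of_pos hm]; linarith))
    rw [h0] at h1 h2
    have h3 : (c + (m / 2) • eb 0 : E 3) 0 = c 0 + m / 2 := by
      simp
    rw [h3] at h2
    have h4 : c 0 = 0 := by nlinarith [sq_nonneg (c 0), sq_nonneg (c 1)]
    rw [h4] at h2
    nlinarith [sq_nonneg ((c + (m / 2) • eb 0 : E 3) 1), sq_pos_of_pos hm]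
  obtain ⟨c0, s0, hc0, hs0, hball⟩ := Dom_cone hρ hpos hp
  refine core hO hb (Dom_ext hρ hpos) hrot hror hR0 (fun x hx => by rw [hR2]; exact hmax' x hx)
    hc0 hs0 (C := ‖zc (c - p)‖) (norm_nonneg _) fun s hs hss => ?_
  obtain ⟨q, hq⟩ : ∃ q, q = p + s • (c - p) := ⟨_, rfl⟩
  have hb1 := hball s hs hss
  rw [← hq] at hb1
  obtain ⟨φ, hφ⟩ := zc_polar q
  refine ⟨‖zc q‖, q 2, ?_, fun x hx => ?_⟩
  · have e : zc p = zc q - s • zc (c - p) := by
      rw [hq]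
      unfold zc
      apply Complex.ext <;> simp
    have h1 : ‖zc p‖ ≤ ‖zc q‖ + ‖s • zc (c - p)‖ := by
      rw [e]; exact norm_sub_le _ _
    rw [norm_smul, Real.norm_eq_abs, abs_of_pos hs, ← hR] at h1
    linarith
  · have h1 : rot φ x ∈ Dom c ρ := by
      apply hb1
      rw [Metric.mem_ball, dist_eq_norm]
      conv_lhs => rw [hφ]
      rw [← map_sub, LinearIsometryEquiv.norm_map]
      have h2 : ‖x - (!₂[‖zc q‖, 0, q 2] : E 3)‖ ^ 2 < (c0 * s) ^ 2 := by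
        rw [norm3]
        simpa using hx
      exact lt_of_pow_lt_pow_left₀ 2 (by positivity) h2
    have h3 := hrot (-φ) _ h1
    rwa [rot_rot, neg_add_cancel, rot_zero] at h3

theorem revolution {c : E 3} {ρ : E 3 → ℝ} (hρ : ContDiff ℝ ∞ ρ) (hpos : ∀ x, 0 < ρ x)
    {b e : E 3} (he : ‖e‖ = 1)
    (hinv : ∀ x y : E 3, ⟪x - b, e⟫ = ⟪y - b, e⟫ → ‖x - b‖ = ‖y - b‖ → x ∈ Dom c ρ →
      y ∈ Dom c ρ) :
    ∃ κ Λ : ℝ, 0 < κ ∧ ∀ lam : ℝ, Λ ≤ lam → ∃ T : Finset ℝ, κ * √lam ≤ T.card ∧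
      ∀ t ∈ T, Set.Infinite {w | w ∈ Sol (Dom c ρ) lam ∧ ∫ x, w x ^ 6 = t} := by
  obtain ⟨A, hA⟩ : ∃ A : E 3 ≃ₗᵢ[ℝ] E 3, A (eb 2) = e := by
    refine ⟨Submodule.reflection (Submodule.span ℝ {eb 2 - e})ᗮ, Submodule.reflection_sub ?_⟩
    rw [he]; simp
  obtain ⟨c', hc'⟩ : ∃ c', c' = A.symm (c - b) := ⟨_, rfl⟩
  have hsub : ∀ y, A y + b - c = A (y - c') := by
    intro y
    rw [hc', map_sub, LinearIsometryEquiv.apply_symm_apply]; abel
  have hpre : (fun y => A y + b) ⁻¹' (Dom c ρ) = Dom c' (fun y => ρ (A y)) := by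
    ext y
    show ‖A y + b - c‖ < ρ (‖A y + b - c‖⁻¹ • (A y + b - c)) ↔
      ‖y - c'‖ < ρ (A (‖y - c'‖⁻¹ • (y - c')))
    rw [hsub, LinearIsometryEquiv.norm_map, map_smul]
  have hx2 : ∀ x : E 3, ⟪A x + b - b, e⟫ = x 2 := by
    intro x
    rw [add_sub_cancel_right, ← hA, LinearIsometryEquiv.inner_map_map, inner_eb]
  have hinv' : ∀ x y : E 3, x 2 = y 2 → ‖x‖ = ‖y‖ → x ∈ Dom c' (fun y => ρ (A y)) →
      y ∈ Dom c' (fun y => ρ (A y)) := by
    intro x y h1 h2 h3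
    rw [← hpre] at h3 ⊢
    refine hinv (A x + b) (A y + b) ?_ ?_ h3
    · rw [hx2, hx2, h1]
    · rw [add_sub_cancel_right, add_sub_cancel_right, LinearIsometryEquiv.norm_map,
        LinearIsometryEquiv.norm_map, h2]
  obtain ⟨κ, Λ, hκ, hmain⟩ := axis_z (c := c') (ρ := fun y => ρ (A y)) (hρ.comp A.contDiff)
    (fun x => hpos _) hinv'
  refine ⟨κ, Λ, hκ, fun lam hlam => ?_⟩
  obtain ⟨T, hT, hTt⟩ := hmain lam hlam
  refine ⟨T, hT, fun t ht => ?_⟩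
  have hcancel : ∀ x, A (A.symm x + -A.symm b) + b = x := by
    intro x
    rw [map_add, map_neg, LinearIsometryEquiv.apply_symm_apply,
      LinearIsometryEquiv.apply_symm_apply]; abel
  have hcancel' : ∀ x, A.symm (A x + b) + -A.symm b = x := by
    intro x
    rw [map_add, LinearIsometryEquiv.symm_apply_apply]; abel
  refine Set.infinite_of_injOn_mapsTo (f := fun (w : E 3 → ℝ) (x : E 3) =>
    w (A.symm x + -A.symm b)) ?_ ?_ (hTt t ht)
  · intro w1 _ w2 _ h12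
    funext x
    have := congrFun h12 (A x + b)
    simpa only [hcancel'] using this
  · rintro w ⟨hw1, hw2⟩
    refine ⟨?_, ?_⟩
    · have h1 := Sol.iso A.symm (-A.symm b) hw1
      have h2 : (fun x => A.symm x + -A.symm b) ⁻¹' Dom c' (fun y => ρ (A y)) = Dom c ρ := by
        rw [← hpre]
        ext x
        show A (A.symm x + -A.symm b) + b ∈ Dom c ρ ↔ x ∈ Dom c ρ
        rw [hcancel]
      rwa [h2] at h1
    · rw [← hw2]
      exact int_aff A.symm (-A.symm b) (fun x => w x ^ 6)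

end Run7.h104
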