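import Pool.Agent.Run7.h104.Base

/-! # The Sobolev inequality in dimension three, extension of weak equations -/

set_option autoImplicit false
set_option linter.unusedSectionVars false
set_option linter.unusedVariables false

open MeasureTheory Filter Topology
open scoped ContDiff ENNReal NNReal RealInnerProductSpace

namespace Run7.h104

open Pool.Agent.R217.BN (E cexp sobS H01)
open Pool.Agent.R217.HS
open Pool.Agent.R217.KM

lemma cexp3 : cexp 3 = 6 := by unfold cexp; norm_num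

/-- the Sobolev constant -/
noncomputable def SS : ℝ := sobS 3

lemma SS_pos : 0 < SS := Pool.Agent.R217.BN.sobS_pos (le_refl 3)

lemma abs_six (t : ℝ) : |t| ^ cexp 3 = t ^ 6 := by
  rw [cexp3]
  have : |t| ^ (6:ℝ) = |t| ^ (6:ℕ) := by
    rw [← Real.rpow_natCast]; norm_num
  rw [this]
  exact Even.pow_abs (by decide) t

lemma isH1_six {u : E 3 → ℝ} {G : E 3 → E 3} (h : IsH1 u G) :
    Integrable (fun x => u x ^ 6) ∧ SS ^ 3 * ∫ x, u x ^ 6 ≤ (∫ x, ‖G x‖ ^ 2) ^ 3 := by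
  have h1 := h.sobolev' (le_refl 3)
  simp only [abs_six] at h1
  refine ⟨h1.1, ?_⟩
  have h2 := h1.2
  rw [cexp3] at h2
  have hA : 0 ≤ ∫ x, ‖G x‖ ^ 2 := integral_nonneg fun x => by positivity
  have e : ((∫ x, ‖G x‖ ^ 2) / sobS 3) ^ ((6:ℝ) / 2) = (∫ x, ‖G x‖ ^ 2) ^ 3 / SS ^ 3 := by
    rw [show (6:ℝ) / 2 = ((3:ℕ):ℝ) by norm_num, Real.rpow_natCast, div_pow]; rfl
  rw [e, le_div_iff₀ (pow_pos SS_pos 3)] at h2
  linarith

lemma six_h01 {Ω : Set (E 3)} {u : E 3 → ℝ} {G : E 3 → E 3} (h : H01 Ω u G) :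
    Integrable (fun x => u x ^ 6) ∧ SS ^ 3 * ∫ x, u x ^ 6 ≤ (∫ x, ‖G x‖ ^ 2) ^ 3 :=
  isH1_six (h01_isH1 h)

lemma young56 {η : ℝ} (hη : 0 < η) (a b : ℝ) : |a ^ 5 * b| ≤ η * a ^ 6 + (η ^ 5)⁻¹ * b ^ 6 := by
  rw [abs_mul, abs_pow]
  have e1 : a ^ 6 = |a| ^ 6 := (Even.pow_abs (by decide) a).symm
  have e2 : b ^ 6 = |b| ^ 6 := (Even.pow_abs (by decide) b).symm
  rw [e1, e2]
  have ha := abs_nonneg a
  have hb := abs_nonneg b
  set p := |a|
  set q := |b|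
  rcases le_total q (η * p) with h | h
  · have h1 : p ^ 5 * q ≤ p ^ 5 * (η * p) := by gcongr
    have h2 : 0 ≤ (η ^ 5)⁻¹ * q ^ 6 := by positivity
    nlinarith
  · have h1 : (η * p) ^ 5 ≤ q ^ 5 := pow_le_pow_left₀ (by positivity) h 5
    have h2 : p ^ 5 * q ≤ (η ^ 5)⁻¹ * q ^ 6 := by
      rw [inv_mul_eq_div, le_div_iff₀ (by positivity)]
      calc p ^ 5 * q * η ^ 5 = (η * p) ^ 5 * q := by ring
        _ ≤ q ^ 5 * q := by gcongr
        _ = q ^ 6 := by ring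
    have h3 : 0 ≤ η * p ^ 6 := by positivity
    linarith

lemma int56 {α : Type*} [MeasurableSpace α] {μ : Measure α} {u w : α → ℝ}
    (hu : Integrable (fun x => u x ^ 6) μ) (hw : Integrable (fun x => w x ^ 6) μ)
    (mu : AEStronglyMeasurable u μ) (mw : AEStronglyMeasurable w μ) :
    Integrable (fun x => u x ^ 5 * w x) μ ∧ ∀ η : ℝ, 0 < η →
      |∫ x, u x ^ 5 * w x ∂μ| ≤ η * (∫ x, u x ^ 6 ∂μ) + (η ^ 5)⁻¹ * ∫ x, w x ^ 6 ∂μ := by
  have hi : ∀ η : ℝ, Integrable (fun x => η * u x ^ 6 + (η ^ 5)⁻¹ * w x ^ 6) μ := fun η =>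
    (hu.const_mul _).add (hw.const_mul _)
  refine ⟨(hi 1).mono' ((mu.pow 5).mul mw) (Eventually.of_forall fun x => ?_), fun η hη => ?_⟩
  · rw [Real.norm_eq_abs]; exact young56 one_pos _ _
  · rw [← integral_const_mul, ← integral_const_mul, ← integral_add (hu.const_mul _)
      (hw.const_mul _)]
    have := norm_integral_le_of_norm_le (hi η) (f := fun x => u x ^ 5 * w x)
      (Eventually.of_forall fun x => by rw [Real.norm_eq_abs]; exact young56 hη _ _)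
    rwa [Real.norm_eq_abs] at this

/-- weak solution of `-Δu = u^5 + λ u` in `Ω` -/
def WSol (Ω : Set (E 3)) (lam : ℝ) (u : E 3 → ℝ) (G : E 3 → E 3) : Prop :=
  ∀ φ : E 3 → ℝ, TIn Ω φ → ∫ x, ⟪G x, gradient φ x⟫ = ∫ x, (u x ^ 5 + lam * u x) * φ x

lemma int_mul2 {α : Type*} [MeasurableSpace α] {μ : Measure α} {u w : α → ℝ}
    (hu : MemLp u 2 μ) (hw : MemLp w 2 μ) : Integrable (fun x => u x * w x) μ := by
  have := integrable_inner' hu hw
  refine this.congr (Eventually.of_forall fun x => ?_)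
  simp [mul_comm]

lemma tendsto_five {u : E 3 → ℝ} (hu6 : Integrable (fun x => u x ^ 6))
    (mu : AEStronglyMeasurable u volume) {φ : ℕ → E 3 → ℝ} {ψ : E 3 → ℝ}
    (hφ6 : ∀ k, Integrable (fun x => φ k x ^ 6))
    (mφ : ∀ k, AEStronglyMeasurable (φ k) volume) (hψ6 : Integrable (fun x => ψ x ^ 6))
    (mψ : AEStronglyMeasurable ψ volume)
    (hd : ∀ k, Integrable (fun x => (φ k x - ψ x) ^ 6))
    (h : Tendsto (fun k => ∫ x, (φ k x - ψ x) ^ 6) atTop (𝓝 0)) :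
    Tendsto (fun k => ∫ x, u x ^ 5 * φ k x) atTop (𝓝 (∫ x, u x ^ 5 * ψ x)) := by
  rw [Metric.tendsto_atTop]
  intro ε hε
  obtain ⟨A, hA⟩ : ∃ A, A = ∫ x, u x ^ 6 := ⟨_, rfl⟩
  have hA0 : 0 ≤ A := by rw [hA]; exact integral_nonneg fun x => by positivity
  obtain ⟨η, hη⟩ : ∃ η, η = ε / (2 * (A + 1)) := ⟨_, rfl⟩
  have hη0 : 0 < η := by rw [hη]; positivity
  have hlim : ∀ᶠ k in atTop, (η ^ 5)⁻¹ * ∫ x, (φ k x - ψ x) ^ 6 < ε / 2 := by
    have := h.const_mul ((η ^ 5)⁻¹)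
    rw [mul_zero] at this
    exact this.eventually (gt_mem_nhds (by positivity))
  obtain ⟨K, hK⟩ := eventually_atTop.1 hlim
  refine ⟨K, fun k hk => ?_⟩
  rw [Real.dist_eq, ← integral_sub (int56 hu6 (hφ6 k) mu (mφ k)).1 (int56 hu6 hψ6 mu mψ).1]
  have h1 := (int56 hu6 (hd k) mu ((mφ k).sub mψ)).2 η hη0
  have e : ∀ x, u x ^ 5 * φ k x - u x ^ 5 * ψ x = u x ^ 5 * (φ k x - ψ x) := fun x => by ring
  simp_rw [e]
  refine h1.trans_lt ?_
  rw [← hA]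
  have h2 : η * A < ε / 2 := by
    rw [hη, div_mul_eq_mul_div, div_lt_div_iff₀ (by positivity) (by norm_num)]
    nlinarith
  have := hK k hk
  linarith

/-- extension of the weak equation to all of `H_0^1` -/
lemma WSol.ext {Ω : Set (E 3)} {lam : ℝ} {u : E 3 → ℝ} {G : E 3 → E 3} (hw : WSol Ω lam u G)
    (hG : MemLp G 2 volume) (hu : MemLp u 2 volume) (hu6 : Integrable (fun x => u x ^ 6))
    {ψ : E 3 → ℝ} {Ψ : E 3 → E 3} (h : H01 Ω ψ Ψ) :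
    Integrable (fun x => (u x ^ 5 + lam * u x) * ψ x) ∧
      ∫ x, ⟪G x, Ψ x⟫ = ∫ x, (u x ^ 5 + lam * u x) * ψ x := by
  obtain ⟨φ, tφ, h1, h2, -, -⟩ := h01_seq h
  have hψ6 := (six_h01 h).1
  have hdiff : ∀ k, H01 Ω (fun x => φ k x - ψ x) (fun x => gradient (φ k) x - Ψ x) :=
    fun k => h01_sub (tφ k).h01 h
  have hd6 : Tendsto (fun k => ∫ x, (φ k x - ψ x) ^ 6) atTop (𝓝 0) := by
    have h3 := h2.sub_sq (fun k => (tφ k).tst.memLp_grad 2) h.2.1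
    have h4 := ((h3.pow 3).const_mul (SS ^ 3)⁻¹)
    rw [zero_pow (by norm_num), mul_zero] at h4
    refine tendsto_of_tendsto_of_tendsto_of_le_of_le tendsto_const_nhds h4
      (fun k => integral_nonneg fun x => by positivity) fun k => ?_
    have h5 := (six_h01 (hdiff k)).2
    dsimp only
    rw [inv_mul_eq_div, le_div_iff₀ (pow_pos SS_pos 3)]
    linarith
  have i1 : ∀ w : E 3 → ℝ, Integrable (fun x => w x ^ 6) → MemLp w 2 volume →
      Integrable (fun x => (u x ^ 5 + lam * u x) * w x) ∧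
      ∫ x, (u x ^ 5 + lam * u x) * w x = (∫ x, u x ^ 5 * w x) + lam * ∫ x, u x * w x := by
    intro w hw6 hw2
    have a1 := (int56 hu6 hw6 hu.1 hw2.1).1
    have a2 := (int_mul2 hu hw2).const_mul lam
    have e : (fun x => (u x ^ 5 + lam * u x) * w x) =
        fun x => u x ^ 5 * w x + lam * (u x * w x) := by
      funext x; ring
    rw [e]
    refine ⟨a1.add a2, ?_⟩
    rw [integral_add a1 a2, integral_const_mul]
  refine ⟨(i1 ψ hψ6 h.1).1, ?_⟩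
  have l1 : Tendsto (fun k => ∫ x, ⟪G x, gradient (φ k) x⟫) atTop (𝓝 (∫ x, ⟪G x, Ψ x⟫)) :=
    LTo.inner (f := fun _ => G) (by unfold LTo; simp) h2 (fun _ => hG) hG
      (fun k => (tφ k).tst.memLp_grad 2) h.2.1
  have l2 : Tendsto (fun k => ∫ x, (u x ^ 5 + lam * u x) * φ k x) atTop
      (𝓝 (∫ x, (u x ^ 5 + lam * u x) * ψ x)) := by
    have a1 := tendsto_five hu6 hu.1 (fun k => (six_h01 (tφ k).h01).1)
      (fun k => ((tφ k).tst.memLp 2).1) hψ6 h.1.1 (fun k => (six_h01 (hdiff k)).1) hd6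
    have a2 : Tendsto (fun k => ∫ x, ⟪u x, φ k x⟫) atTop (𝓝 (∫ x, ⟪u x, ψ x⟫)) :=
      LTo.inner (f := fun _ => u) (by unfold LTo; simp) h1 (fun _ => hu) hu
        (fun k => (tφ k).tst.memLp 2) h.1
    have e : ∀ w : E 3 → ℝ, ∫ x, ⟪u x, w x⟫ = ∫ x, u x * w x := by
      intro w; congr 1; funext x; simp [mul_comm]
    simp only [e] at a2
    have a3 := a1.add (a2.const_mul lam)
    rw [(i1 ψ hψ6 h.1).2]
    refine a3.congr fun k => ?_
    exact ((i1 (φ k) (six_h01 (tφ k).h01).1 ((tφ k).tst.memLp 2)).2).symm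
  have l3 : Tendsto (fun k => ∫ x, ⟪G x, gradient (φ k) x⟫) atTop
      (𝓝 (∫ x, (u x ^ 5 + lam * u x) * ψ x)) := l2.congr fun k => (hw (φ k) (tφ k)).symm
  exact tendsto_nhds_unique l1 l3

/-- extension of a weak equation with a square integrable right-hand side -/
lemma weak_ext2 {Ω : Set (E 3)} {f : E 3 → ℝ} {G : E 3 → E 3} (hG : MemLp G 2 volume)
    (hf : MemLp f 2 volume)
    (hw : ∀ φ : E 3 → ℝ, TIn Ω φ → ∫ x, ⟪G x, gradient φ x⟫ = ∫ x, f x * φ x)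
    {ψ : E 3 → ℝ} {Ψ : E 3 → E 3} (h : H01 Ω ψ Ψ) :
    ∫ x, ⟪G x, Ψ x⟫ = ∫ x, f x * ψ x := by
  obtain ⟨φ, tφ, h1, h2, -, -⟩ := h01_seq h
  have l1 : Tendsto (fun k => ∫ x, ⟪G x, gradient (φ k) x⟫) atTop (𝓝 (∫ x, ⟪G x, Ψ x⟫)) :=
    LTo.inner (f := fun _ => G) (by unfold LTo; simp) h2 (fun _ => hG) hG
      (fun k => (tφ k).tst.memLp_grad 2) h.2.1
  have l2 : Tendsto (fun k => ∫ x, ⟪f x, φ k x⟫) atTop (𝓝 (∫ x, ⟪f x, ψ x⟫)) :=
    LTo.inner (f := fun _ => f) (by unfold LTo; simp) h1 (fun _ => hf) hf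
      (fun k => (tφ k).tst.memLp 2) h.1
  have e : ∀ w : E 3 → ℝ, ∫ x, ⟪f x, w x⟫ = ∫ x, f x * w x := by
    intro w; congr 1; funext x; simp [mul_comm]
  simp only [e] at l2
  exact tendsto_nhds_unique l1 (l2.congr fun k => (hw (φ k) (tφ k)).symm)

/-- Hölder's inequality in polynomial form -/
lemma hol3 {α : Type*} [MeasurableSpace α] {μ : Measure α} {p q : α → ℝ}
    (hp0 : ∀ᵐ x ∂μ, 0 ≤ p x) (hq0 : ∀ᵐ x ∂μ, 0 ≤ q x)
    (hp : Integrable (fun x => p x ^ 3) μ) (hq : Integrable (fun x => q x ^ 3) μ)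
    (mp : AEStronglyMeasurable p μ) (mq : AEStronglyMeasurable q μ) :
    Integrable (fun x => p x ^ 2 * q x) μ ∧
      (∀ t : ℝ, 0 < t → ∫ x, p x ^ 2 * q x ∂μ ≤
        2 / 3 * t * (∫ x, p x ^ 3 ∂μ) + 1 / 3 * (t ^ 2)⁻¹ * ∫ x, q x ^ 3 ∂μ) ∧
      (∫ x, p x ^ 2 * q x ∂μ) ^ 3 ≤ (∫ x, p x ^ 3 ∂μ) ^ 2 * ∫ x, q x ^ 3 ∂μ := by
  have elem : ∀ t : ℝ, 0 < t → ∀ a b : ℝ, 0 ≤ a → 0 ≤ b →
      a ^ 2 * b ≤ 2 / 3 * t * a ^ 3 + 1 / 3 * (t ^ 2)⁻¹ * b ^ 3 := by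
    intro t ht a b ha hb
    obtain ⟨r, hr⟩ : ∃ r, r = b / t := ⟨_, rfl⟩
    have hb' : b = r * t := by rw [hr]; field_simp
    have hr0 : 0 ≤ r := by rw [hr]; positivity
    rw [hb']
    have e : 1 / 3 * (t ^ 2)⁻¹ * (r * t) ^ 3 = 1 / 3 * t * r ^ 3 := by
      field_simp
    rw [e]
    have h1 : 0 ≤ (a - r) ^ 2 * (2 * a + r) := by positivity
    nlinarith [mul_nonneg ht.le h1]
  have hi : ∀ t : ℝ, Integrable (fun x => 2 / 3 * t * p x ^ 3 + 1 / 3 * (t ^ 2)⁻¹ * q x ^ 3) μ :=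
    fun t => (hp.const_mul _).add (hq.const_mul _)
  have hI : Integrable (fun x => p x ^ 2 * q x) μ := by
    refine (hi 1).mono' ((mp.pow 2).mul mq) ?_
    filter_upwards [hp0, hq0] with x h1 h2
    rw [Real.norm_eq_abs, abs_of_nonneg (by positivity)]
    exact elem 1 one_pos _ _ h1 h2
  have hT : ∀ t : ℝ, 0 < t → ∫ x, p x ^ 2 * q x ∂μ ≤
        2 / 3 * t * (∫ x, p x ^ 3 ∂μ) + 1 / 3 * (t ^ 2)⁻¹ * ∫ x, q x ^ 3 ∂μ := by
    intro t ht
    rw [← integral_const_mul, ← integral_const_mul, ← integral_add (hp.const_mul _)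
      (hq.const_mul _)]
    apply integral_mono_ae hI (hi t)
    filter_upwards [hp0, hq0] with x h1 h2
    exact elem t ht _ _ h1 h2
  refine ⟨hI, hT, ?_⟩
  obtain ⟨P, hP⟩ : ∃ P, P = ∫ x, p x ^ 3 ∂μ := ⟨_, rfl⟩
  obtain ⟨Q, hQ⟩ : ∃ Q, Q = ∫ x, q x ^ 3 ∂μ := ⟨_, rfl⟩
  obtain ⟨I, hII⟩ : ∃ I, I = ∫ x, p x ^ 2 * q x ∂μ := ⟨_, rfl⟩
  rw [← hP, ← hQ, ← hII] at hT ⊢
  have hP0 : 0 ≤ P := by
    rw [hP]; apply integral_nonneg_of_ae
    filter_upwards [hp0] with x h1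
    positivity
  have hQ0 : 0 ≤ Q := by
    rw [hQ]; apply integral_nonneg_of_ae
    filter_upwards [hq0] with x h1
    positivity
  have hI0 : 0 ≤ I := by
    rw [hII]; apply integral_nonneg_of_ae
    filter_upwards [hp0, hq0] with x h1 h2
    positivity
  rcases eq_or_lt_of_le hI0 with h | h
  · rw [← h, zero_pow (by norm_num)]; positivity
  -- `I` is positive: choose `t`
  have hPpos : 0 < P := by
    rcases eq_or_lt_of_le hP0 with h' | h'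
    · exfalso
      have h1 : ∀ t : ℝ, 0 < t → I * t ^ 2 ≤ 1 / 3 * Q := by
        intro t ht
        have := hT t ht
        rw [← h', mul_zero, zero_add] at this
        calc I * t ^ 2 ≤ (1 / 3 * (t ^ 2)⁻¹ * Q) * t ^ 2 := by gcongr
          _ = 1 / 3 * Q := by field_simp
      have h2 := h1 (Real.sqrt ((Q + 1) / I)) (by positivity)
      rw [Real.sq_sqrt (by positivity), mul_div_cancel₀ _ h.ne'] at h2
      linarith
    · exact h'
  have h1 := hT (I / P) (by positivity)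
  have h2 : 2 / 3 * (I / P) * P = 2 / 3 * I := by field_simp
  rw [h2] at h1
  have h3 : I ≤ ((I / P) ^ 2)⁻¹ * Q := by linarith
  have h4 : ((I / P) ^ 2)⁻¹ * Q = P ^ 2 * Q / I ^ 2 := by
    rw [div_pow, inv_div]; ring
  rw [h4, le_div_iff₀ (by positivity)] at h3
  calc I ^ 3 = I * I ^ 2 := by ring
    _ ≤ _ := h3

end Run7.h104
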