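import Pool.Agent.Run7.h104.Uni1

/-! # Scaling and the threshold of the slab -/

set_option autoImplicit false
set_option linter.unusedSectionVars false
set_option linter.unusedVariables false

open MeasureTheory Filter Topology
open scoped ContDiff ENNReal NNReal RealInnerProductSpace

namespace Run7.h104

open Pool.Agent.R217.BN (E cexp sobS H01)
open Pool.Agent.R217.HS
open Pool.Agent.R217.KM

lemma grad_scale {φ : E 3 → ℝ} (hφ : ContDiff ℝ ∞ φ) (a : E 3) {h : ℝ} (hh : 0 < h) (x : E 3) :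
    gradient (fun y => φ (h⁻¹ • (y - a))) x = h⁻¹ • gradient φ (h⁻¹ • (x - a)) := by
  have h1 : HasFDerivAt (fun y : E 3 => h⁻¹ • (y - a)) (h⁻¹ • ContinuousLinearMap.id ℝ (E 3)) x :=
    ((hasFDerivAt_id x).sub_const a).const_smul h⁻¹
  have h2 : HasFDerivAt φ (fderiv ℝ φ (h⁻¹ • (x - a))) (h⁻¹ • (x - a)) :=
    (hφ.differentiable (by simp) _).hasFDerivAt
  have h3 := (h2.comp x h1).fderiv
  have h4 : fderiv ℝ (fun y => φ (h⁻¹ • (y - a))) x =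
      h⁻¹ • fderiv ℝ φ (h⁻¹ • (x - a)) := by
    have : (fun y => φ (h⁻¹ • (y - a))) = φ ∘ fun y : E 3 => h⁻¹ • (y - a) := rfl
    rw [this, h3]
    ext v
    simp
  unfold gradient
  rw [h4, map_smulₛₗ]
  simp

lemma int_resc (g : E 3 → ℝ) (a : E 3) {h : ℝ} (hh : 0 < h) :
    ∫ x, g (h⁻¹ • (x - a)) = h ^ 3 * ∫ x, g x := by
  have h1 := int_scale3 (fun x => g (x + -(h⁻¹ • a))) 0 (inv_pos.2 hh)
  have h2 : ∀ x : E 3, g (0 + h⁻¹ • x + -(h⁻¹ • a)) = g (h⁻¹ • (x - a)) := by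
    intro x; rw [zero_add, smul_sub, sub_eq_add_neg]
  simp_rw [h2] at h1
  rw [h1, integral_add_right_eq_self (fun x => g x) (-(h⁻¹ • a))]
  congr 1
  field_simp

lemma resc_tsupport {φ : E 3 → ℝ} {a : E 3} {h : ℝ} {x : E 3}
    (hx : x ∈ tsupport (fun y => φ (h⁻¹ • (y - a)))) : h⁻¹ • (x - a) ∈ tsupport φ := by
  have hcl : tsupport (fun y => φ (h⁻¹ • (y - a))) ⊆
      (fun y => h⁻¹ • (y - a)) ⁻¹' tsupport φ := by
    apply closure_minimal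
    · intro y hy
      exact subset_tsupport φ hy
    · exact (isClosed_tsupport φ).preimage (by fun_prop)
  exact hcl hx

lemma resc_compact {φ : E 3 → ℝ} (hφ : HasCompactSupport φ) (a : E 3) {h : ℝ} (hh : 0 < h) :
    HasCompactSupport (fun y => φ (h⁻¹ • (y - a))) := by
  have h1 : IsCompact ((fun z : E 3 => a + h • z) '' tsupport φ) :=
    hφ.isCompact.image (by fun_prop)
  refine HasCompactSupport.intro h1 fun x hx => ?_
  by_contra hc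
  apply hx
  refine ⟨h⁻¹ • (x - a), subset_tsupport _ hc, ?_⟩
  show a + h • (h⁻¹ • (x - a)) = x
  rw [smul_smul, mul_inv_cancel₀ hh.ne', one_smul]; abel

lemma resc_TIn {D D' : Set (E 3)} {φ : E 3 → ℝ} (hφ : TIn D φ) (a : E 3) {h : ℝ} (hh : 0 < h)
    (hD : ∀ x, h⁻¹ • (x - a) ∈ tsupport φ → x ∈ D') : TIn D' (fun y => φ (h⁻¹ • (y - a))) :=
  ⟨hφ.1.comp (by fun_prop), resc_compact hφ.2.1 a hh, fun x hx => hD x (resc_tsupport hx)⟩

lemma resc_Ea {φ : E 3 → ℝ} (hφ : ContDiff ℝ ∞ φ) (a : E 3) {h : ℝ} (hh : 0 < h) (lam : ℝ) :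
    Ea lam (fun y => φ (h⁻¹ • (y - a))) (gradient (fun y => φ (h⁻¹ • (y - a)))) =
      h * Ea (lam * h ^ 2) φ (gradient φ) := by
  unfold Ea
  have e1 : ∀ x, ‖gradient (fun y => φ (h⁻¹ • (y - a))) x‖ ^ 2 =
      (fun z => (h⁻¹) ^ 2 * ‖gradient φ z‖ ^ 2) (h⁻¹ • (x - a)) := by
    intro x
    rw [grad_scale hφ a hh, norm_smul, mul_pow, Real.norm_eq_abs, sq_abs]
  simp_rw [e1]
  rw [int_resc (fun z => (h⁻¹) ^ 2 * ‖gradient φ z‖ ^ 2) a hh, integral_const_mul,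
    int_resc (fun z => φ z ^ 2) a hh]
  field_simp

lemma resc_six {φ : E 3 → ℝ} (a : E 3) {h : ℝ} (hh : 0 < h) :
    ∫ x, (fun y => φ (h⁻¹ • (y - a))) x ^ 6 = h ^ 3 * ∫ x, φ x ^ 6 :=
  int_resc (fun z => φ z ^ 6) a hh

lemma Ea_anti {φ : E 3 → ℝ} {V : E 3 → E 3} {s t : ℝ} (h : s ≤ t) : Ea t φ V ≤ Ea s φ V := by
  unfold Ea
  have : 0 ≤ ∫ x, φ x ^ 2 := integral_nonneg fun x => by positivity
  nlinarith

lemma cube_mono {a b : ℝ} (h : a ≤ b) : a ^ 3 ≤ b ^ 3 :=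
  (Odd.strictMono_pow (R := ℝ) (n := 3) (by decide)).monotone h

/-- the value `θ` is above the threshold of the slab `|x 2| < 1` -/
def Pth (θ : ℝ) : Prop := ∃ φ, TIn {x : E 3 | |x 2| < 1} φ ∧
  (Ea θ φ (gradient φ)) ^ 3 < SS ^ 3 * ∫ x, φ x ^ 6

lemma Pth_pos {θ : ℝ} (h : Pth θ) : 0 < θ := by
  obtain ⟨φ, hφ, hlt⟩ := h
  by_contra hc
  rw [not_lt] at hc
  have h1 := (six_h01 hφ.h01).2
  have h2 : (∫ x, ‖gradient φ x‖ ^ 2) ≤ Ea θ φ (gradient φ) := by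
    have := Ea_anti (φ := φ) (V := gradient φ) hc
    refine le_trans (le_of_eq ?_) this
    unfold Ea; ring
  have := cube_mono h2
  linarith

/-- any admissible constant is at most the Sobolev constant -/
lemma le_SS {s : ℝ} (hs : ∀ ψ : E 3 → ℝ, ContDiff ℝ ∞ ψ → HasCompactSupport ψ →
    s ^ 3 * ∫ x, ψ x ^ 6 ≤ (∫ x, ‖gradient ψ x‖ ^ 2) ^ 3) : s ≤ SS := by
  apply le_csInf
  · obtain ⟨f, hf⟩ : ∃ f : ContDiffBump (0 : E 3), True := ⟨⟨1, 2, by norm_num, by norm_num⟩, trivial⟩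
    refine ⟨_, f, f.contDiff, f.hasCompactSupport, ?_, rfl⟩
    intro hc
    have h1 : f 0 = 1 := f.one_of_mem_closedBall (by simp [f.rIn_pos.le])
    have h2 := congrFun hc 0
    rw [h1] at h2
    norm_num at h2
  · rintro r ⟨u, hu1, hu2, hu3, rfl⟩
    simp only [abs_six]
    have hT : TIn Set.univ u := ⟨hu1, hu2, Set.subset_univ _⟩
    have h6 : 0 < ∫ x, u x ^ 6 := by
      have hi := (six_h01 hT.h01).1
      rw [integral_pos_iff_support_of_nonneg (fun x => by positivity) hi]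
      have ho : IsOpen (Function.support fun x => u x ^ 6) :=
        (hu1.continuous.pow 6).isOpen_support
      apply ho.measure_pos volume
      obtain ⟨x, hx⟩ := Function.ne_iff.1 hu3
      exact ⟨x, by
        rw [Function.mem_support]
        exact pow_ne_zero 6 hx⟩
    have hA : 0 ≤ ∫ x, ‖gradient u x‖ ^ 2 := integral_nonneg fun x => by positivity
    rw [cexp3]
    obtain ⟨B, hB⟩ : ∃ B, B = (∫ x, u x ^ 6) ^ ((2:ℝ) / 6) := ⟨_, rfl⟩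
    have hB0 : 0 < B := by rw [hB]; positivity
    have hB3 : B ^ 3 = ∫ x, u x ^ 6 := by
      rw [hB, ← Real.rpow_natCast, ← Real.rpow_mul h6.le]
      norm_num
    rw [← hB, le_div_iff₀ hB0]
    have h1 := hs u hu1 hu2
    rw [← hB3, ← mul_pow] at h1
    exact (Odd.strictMono_pow (R := ℝ) (n := 3) (by decide)).le_iff_le.1 h1

/-- the hypothesis on `lam0`: the Brezis and Nirenberg condition -/
def Good (Ω : Set (E 3)) (lam0 : ℝ) : Prop :=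
  ∃ (s : ℝ) (φ : E 3 → ℝ), (∀ ψ : E 3 → ℝ, ContDiff ℝ ∞ ψ → HasCompactSupport ψ →
    s ^ 3 * ∫ x, ψ x ^ 6 ≤ (∫ x, ‖gradient ψ x‖ ^ 2) ^ 3) ∧
    ContDiff ℝ ∞ φ ∧ HasCompactSupport φ ∧ tsupport φ ⊆ Ω ∧
    ((∫ x, ‖gradient φ x‖ ^ 2) - lam0 * ∫ x, φ x ^ 2) ^ 3 < s ^ 3 * ∫ x, φ x ^ 6

lemma Good.pth {Ω : Set (E 3)} {lam0 h : ℝ} (hg : Good Ω lam0) (hh : 0 < h)
    (hΩ : ∀ x ∈ Ω, |x 2| < h) : Pth (lam0 * h ^ 2) := by
  obtain ⟨s, φ, hs, h1, h2, h3, h4⟩ := hg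
  have hsS := le_SS hs
  have hT : TIn Ω φ := ⟨h1, h2, h3⟩
  have hi : 0 < h⁻¹ := inv_pos.2 hh
  refine ⟨fun y => φ ((h⁻¹)⁻¹ • (y - 0)), resc_TIn hT 0 hi (fun x hx => ?_), ?_⟩
  · have h5 := hΩ _ (h3 hx)
    rw [sub_zero, inv_inv] at h5
    show |x 2| < 1
    have h6 : (h • x) 2 = h * x 2 := rfl
    rw [h6, abs_mul, abs_of_pos hh] at h5
    by_contra hc
    rw [not_lt] at hc
    nlinarith
  · rw [resc_Ea h1 0 hi, resc_six 0 hi]
    have e : lam0 * h ^ 2 * h⁻¹ ^ 2 = lam0 := by field_simp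
    rw [e, mul_pow]
    have h6 : 0 ≤ ∫ x, φ x ^ 6 := integral_nonneg fun x => by positivity
    have h7 : s ^ 3 * ∫ x, φ x ^ 6 ≤ SS ^ 3 * ∫ x, φ x ^ 6 :=
      mul_le_mul_of_nonneg_right (cube_mono hsS) h6
    have h8 : (Ea lam0 φ (gradient φ)) ^ 3 < SS ^ 3 * ∫ x, φ x ^ 6 := lt_of_lt_of_le h4 h7
    calc h⁻¹ ^ 3 * (Ea lam0 φ (gradient φ)) ^ 3 < h⁻¹ ^ 3 * (SS ^ 3 * ∫ x, φ x ^ 6) :=
          mul_lt_mul_of_pos_left h8 (by positivity)
      _ = _ := by ring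

end Run7.h104
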