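import Pool.Agent.Run7.h104.Fla1

/-! # Flat solids: all parameters above the Brezis and Nirenberg threshold -/

set_option autoImplicit false
set_option linter.unusedSectionVars false
set_option linter.unusedVariables false

open MeasureTheory Filter Topology
open scoped ContDiff ENNReal NNReal RealInnerProductSpace

namespace Run7.h104

open Pool.Agent.R217.BN (E cexp sobS H01)
open Pool.Agent.R217.HS
open Pool.Agent.R217.KM

lemma rot_of_sec {Ω : Set (E 3)}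
    (hN : ∀ x ∈ Ω, ∀ y : E 3, y 2 = x 2 → rr y ≤ rr x → y ∈ Ω) :
    (∀ θ x, x ∈ Ω → rot θ x ∈ Ω) ∧ (∀ θ x, x ∈ Ω → ror θ x ∈ Ω) := by
  constructor
  · intro θ x hx
    refine hN x hx _ (by simp) (le_of_eq ?_)
    have h1 := Real.sin_sq_add_cos_sq θ
    unfold rr; simp
    linear_combination (x 0 ^ 2 + x 1 ^ 2) * h1
  · intro θ x hx
    refine hN x hx _ (by simp) (le_of_eq ?_)
    have h1 := Real.sin_sq_add_cos_sq θ
    unfold rr; simp
    linear_combination (x 0 ^ 2 + x 1 ^ 2) * h1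

lemma slab_gap {K : Set (E 3)} (hK : IsCompact K) (h : ∀ x ∈ K, |x 2| < 1) :
    ∃ η : ℝ, 0 < η ∧ η < 1 ∧ ∀ x ∈ K, |x 2| ≤ 1 - η := by
  rcases K.eq_empty_or_nonempty with h0 | h0
  · exact ⟨1 / 2, by norm_num, by norm_num, fun x hx => by rw [h0] at hx; exact hx.elim⟩
  · obtain ⟨y, hy, hmax⟩ := hK.exists_isMaxOn h0 (f := fun x : E 3 => |x 2|) (by fun_prop)
    refine ⟨(1 - |y 2|) / 2, by linarith [h y hy], by linarith [abs_nonneg (y 2)],
      fun x hx => ?_⟩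
    have h1 : |x 2| ≤ |y 2| := hmax hx
    linarith [h y hy]

/-- test functions placed far from the axis -/
lemma far_test {θ : ℝ} {φ : E 3 → ℝ} (hφ : TIn {x : E 3 | |x 2| < 1} φ)
    (hlt : (Ea θ φ (gradient φ)) ^ 3 < SS ^ 3 * ∫ x, φ x ^ 6) (n : ℕ) :
    ∃ δ0 : ℝ, 0 < δ0 ∧ ∀ δ, 0 < δ → δ ≤ δ0 → ∀ (Ω : Set (E 3)) (h : ℝ), 0 < h →
      (∀ x : E 3, |x 2| < (1 - δ) * h → ‖x‖ < h / δ → x ∈ Ω) → ∀ lam, θ ≤ lam * h ^ 2 →
      ∀ k : ℕ, 1 ≤ k → k ≤ n + 1 → ∃ (v : E 3 → ℝ) (V : E 3 → E 3),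
        H01 (Ω ∩ Wd (Real.pi / k)) v V ∧ (Ea lam v V) ^ 3 < SS ^ 3 * ∫ x, v x ^ 6 := by
  obtain ⟨η, hη0, hη1, hη⟩ := slab_gap hφ.2.1 (fun x hx => hφ.2.2 hx)
  obtain ⟨L, hL0, hL⟩ : ∃ L, 0 < L ∧ ∀ x ∈ tsupport φ, ‖x‖ ≤ L := by
    obtain ⟨R, hR⟩ := hφ.2.1.isBounded.exists_norm_le
    exact ⟨max R 1, by positivity, fun x hx => (hR x hx).trans (le_max_left _ _)⟩
  obtain ⟨M, hM⟩ : ∃ M : ℝ, M = (2 * L + 1) * (n + 4) := ⟨_, rfl⟩
  have hM0 : 0 < M := by rw [hM]; positivity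
  refine ⟨min (η / 2) (1 / (2 * M)), by positivity, ?_⟩
  intro δ hδ0 hδ Ω h hh hcyl lam hlam k hk1 hkn
  have hδη : δ ≤ η / 2 := hδ.trans (min_le_left _ _)
  have hδM : δ ≤ 1 / (2 * M) := hδ.trans (min_le_right _ _)
  have hπ := Real.pi_gt_three
  obtain ⟨r, hr⟩ : ∃ r : ℝ, r = h * (2 * L + 1) * (n + 1) := ⟨_, rfl⟩
  have hr0 : 0 < r := by rw [hr]; positivity
  obtain ⟨a, ha⟩ : ∃ a : E 3, a = !₂[r + h * (L + 1), h * (L + 1), 0] := ⟨_, rfl⟩
  have ha0 : a 0 = r + h * (L + 1) := by rw [ha]; simp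
  have ha1 : a 1 = h * (L + 1) := by rw [ha]; simp
  have ha2 : a 2 = 0 := by rw [ha]; simp
  have hkn' : (k:ℝ) ≤ n + 1 := by exact_mod_cast hkn
  have hk0 : (0:ℝ) < k := by exact_mod_cast hk1
  have hT : TIn (Ω ∩ Wd (Real.pi / k)) (fun y => φ (h⁻¹ • (y - a))) := by
    refine resc_TIn hφ a hh fun x hx => ?_
    obtain ⟨z, hz⟩ : ∃ z, z = h⁻¹ • (x - a) := ⟨_, rfl⟩
    rw [← hz] at hx
    have hxz : ∀ i, x i = a i + h * z i := by
      intro i
      have : z i = h⁻¹ * (x i - a i) := by rw [hz]; rfl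
      rw [this]; field_simp; ring
    have hz2 := hη z hx
    have hzL := hL z hx
    have hzi : ∀ i, |z i| ≤ L := fun i => by
      have := PiLp.norm_apply_le z i
      rw [Real.norm_eq_abs] at this
      exact this.trans hzL
    have b0 := abs_le.1 (hzi 0)
    have b1 := abs_le.1 (hzi 1)
    have x0l : r + h ≤ x 0 := by rw [hxz, ha0]; nlinarith [b0.1]
    have x0u : x 0 ≤ r + h * (2 * L + 1) := by rw [hxz, ha0]; nlinarith [b0.2]
    have x1l : h ≤ x 1 := by rw [hxz, ha1]; nlinarith [b1.1]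
    have x1u : x 1 ≤ h * (2 * L + 1) := by rw [hxz, ha1]; nlinarith [b1.2]
    have x2 : |x 2| ≤ h * (1 - η) := by
      rw [hxz, ha2, zero_add, abs_mul, abs_of_pos hh]
      exact mul_le_mul_of_nonneg_left hz2 hh.le
    refine ⟨hcyl x ?_ ?_, ?_⟩
    · refine lt_of_le_of_lt x2 ?_
      nlinarith
    · have hn : ‖x‖ ≤ h * M := by
        apply le_of_sq_le_sq _ (by positivity)
        rw [norm3]
        have c0 : x 0 ^ 2 ≤ (h * ((2 * L + 1) * (n + 2))) ^ 2 := by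
          apply pow_le_pow_left₀ (by linarith)
          refine x0u.trans (le_of_eq ?_)
          rw [hr]; ring
        have c1 : x 1 ^ 2 ≤ (h * (2 * L + 1)) ^ 2 := pow_le_pow_left₀ (by linarith) x1u 2
        have c2 : x 2 ^ 2 ≤ (h * (2 * L + 1)) ^ 2 := by
          rw [← sq_abs]
          apply pow_le_pow_left₀ (abs_nonneg _)
          nlinarith
        have c3 : (h * M) ^ 2 = (h * (2 * L + 1)) ^ 2 * (n + 4) ^ 2 := by rw [hM]; ring
        have c4 : (h * ((2 * L + 1) * (n + 2))) ^ 2 = (h * (2 * L + 1)) ^ 2 * (n + 2) ^ 2 := by ring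
        rw [c4] at c0
        rw [c3]
        have c5 : 0 ≤ (h * (2 * L + 1)) ^ 2 := by positivity
        have c6 : ((n:ℝ) + 2) ^ 2 + 2 ≤ (n + 4) ^ 2 := by
          nlinarith [Nat.cast_nonneg (α := ℝ) n]
        nlinarith [mul_le_mul_of_nonneg_left c6 c5]
      refine lt_of_le_of_lt hn ?_
      rw [lt_div_iff₀ hδ0]
      have : δ * M ≤ 1 / 2 := by
        have := mul_le_mul_of_nonneg_right hδM hM0.le
        refine this.trans (le_of_eq ?_)
        field_simp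
      nlinarith
    · apply wd_mem hk1 hr0 (by linarith) (by linarith) _ (by omega)
      refine x1u.trans ?_
      rw [hr, mul_div_assoc', le_div_iff₀ hk0]
      have : h * (2 * L + 1) * k ≤ h * (2 * L + 1) * (n + 1) :=
        mul_le_mul_of_nonneg_left hkn' (by positivity)
      have h3 : h * (2 * L + 1) * (n + 1) * 1 ≤ h * (2 * L + 1) * (n + 1) * Real.pi :=
        mul_le_mul_of_nonneg_left (by linarith) (by positivity)
      linarith
  refine ⟨_, _, hT.h01, ?_⟩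
  rw [resc_Ea hφ.1 a hh, resc_six a hh, mul_pow]
  have h1 := cube_mono (Ea_anti (φ := φ) (V := gradient φ) hlam)
  have h2 : (Ea (lam * h ^ 2) φ (gradient φ)) ^ 3 < SS ^ 3 * ∫ x, φ x ^ 6 :=
    lt_of_le_of_lt h1 hlt
  calc h ^ 3 * (Ea (lam * h ^ 2) φ (gradient φ)) ^ 3 < h ^ 3 * (SS ^ 3 * ∫ x, φ x ^ 6) :=
        mul_lt_mul_of_pos_left h2 (by positivity)
    _ = _ := by ring

theorem flat_core {ε : ℝ} (hε : 0 < ε) (n : ℕ) : ∃ δ : ℝ, 0 < δ ∧ δ < 1 ∧
    ∀ (Ω : Set (E 3)) (h : ℝ), IsOpen Ω → Bornology.IsBounded Ω →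
    (∀ p ∈ frontier Ω, ∃ (y : E 3) (r : ℝ), 0 < r ∧ ‖p - y‖ = r ∧ ∀ x ∈ Ω, r ≤ ‖x - y‖) →
    (∀ x ∈ Ω, ∀ y : E 3, y 2 = x 2 → rr y ≤ rr x → y ∈ Ω) → 0 < h →
    (∀ x ∈ Ω, |x 2| < h) → (∀ x : E 3, |x 2| < (1 - δ) * h → ‖x‖ < h / δ → x ∈ Ω) →
    ∀ lam0, Good Ω lam0 → ∀ lam, lam0 + ε / h ^ 2 ≤ lam →
    ∃ T : Finset ℝ, n ≤ T.card ∧
      ∀ t ∈ T, Set.Infinite {w | w ∈ Sol Ω lam ∧ ∫ x, w x ^ 6 = t} := by
  by_cases hex : ∃ θ, Pth θ
  swap
  · refine ⟨1 / 2, by norm_num, by norm_num, ?_⟩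
    intro Ω h _ _ _ _ hh hup _ lam0 hg
    exact absurd ⟨_, hg.pth hh hup⟩ hex
  obtain ⟨θ', hθ', hθlt⟩ := exists_lt_of_csInf_lt (s := {θ | Pth θ}) hex
    (lt_add_of_pos_right (sInf {θ | Pth θ}) hε)
  have hθpos : 0 < θ' := Pth_pos hθ'
  have hσ : ∀ θ, Pth θ → sInf {θ | Pth θ} ≤ θ := fun θ h =>
    csInf_le ⟨0, fun a ha => (Pth_pos ha).le⟩ h
  obtain ⟨φ, hφ, hlt⟩ := hθ'
  obtain ⟨δ0, hδ0, hfar⟩ := far_test hφ hlt n
  obtain ⟨N, κ, hN1, hκ0, hκ1, hbox⟩ := wedge_box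
  obtain ⟨N1, hN1d⟩ : ∃ N1 : ℝ, N1 = N + 2 * (n + 1) / κ := ⟨_, rfl⟩
  have hN10 : 1 ≤ N1 := by
    rw [hN1d]
    have : 0 ≤ 2 * ((n:ℝ) + 1) / κ := by positivity
    linarith
  have hN11 : N ≤ N1 := by
    rw [hN1d]
    have : 0 ≤ 2 * ((n:ℝ) + 1) / κ := by positivity
    linarith
  have hN12 : 2 * ((n:ℝ) + 1) ≤ κ * N1 := by
    have e : κ * N1 = κ * N + 2 * (n + 1) := by rw [hN1d]; field_simp
    have : 0 < κ * N := by positivity
    linarith
  obtain ⟨δ, hδd⟩ : ∃ δ, δ = min δ0 (min (1 / 2) (1 / (14 * N1 ^ 2))) := ⟨_, rfl⟩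
  have hδpos : 0 < δ := by rw [hδd]; positivity
  have hδ1 : δ ≤ δ0 := by rw [hδd]; exact min_le_left _ _
  have hδ2 : δ ≤ 1 / 2 := by
    rw [hδd]; exact (min_le_right _ _).trans (min_le_left _ _)
  have hδ3 : δ ≤ 1 / (14 * N1 ^ 2) := by
    rw [hδd]; exact (min_le_right _ _).trans (min_le_right _ _)
  refine ⟨δ, hδpos, by linarith, ?_⟩
  intro Ω h hO hbd hext hNs hh hup hcyl lam0 hg lam hlam
  have hπ := Real.pi_pos
  have hπ3 := Real.pi_gt_three
  -- the parameter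
  have hlh : θ' ≤ lam * h ^ 2 := by
    have h1 := hσ _ (hg.pth hh hup)
    have h2 : (lam0 + ε / h ^ 2) * h ^ 2 ≤ lam * h ^ 2 :=
      mul_le_mul_of_nonneg_right hlam (by positivity)
    rw [add_mul, div_mul_cancel₀ _ (by positivity : h ^ 2 ≠ 0)] at h2
    linarith
  have hlam0 : 0 < lam := by
    by_contra hc
    rw [not_lt] at hc
    have : lam * h ^ 2 ≤ 0 := mul_nonpos_of_nonpos_of_nonneg hc (by positivity)
    linarith
  -- bounds
  obtain ⟨hrot, hror⟩ := rot_of_sec hNs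
  obtain ⟨R, hR0, hRb⟩ : ∃ R, 0 < R ∧ ∀ x ∈ Ω, ‖x‖ ≤ R := by
    obtain ⟨R, hR⟩ := hbd.exists_norm_le
    exact ⟨max R 1, by positivity, fun x hx => (hR x hx).trans (le_max_left _ _)⟩
  have hRr : ∀ x ∈ Ω, rr x ≤ R ^ 2 := by
    intro x hx
    have h1 := norm3 x
    have h2 : ‖x‖ ^ 2 ≤ R ^ 2 := pow_le_pow_left₀ (norm_nonneg _) (hRb x hx) 2
    unfold rr
    nlinarith [sq_nonneg (x 2)]
  have hRz : ∀ x ∈ Ω, |x 2| ≤ h := fun x hx => (hup x hx).le
  -- the inscribed cylinder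
  have hδ' : 0 < 1 - δ := by linarith
  have hC : Cyl Ω (h / (2 * δ)) (-((1 - δ) * h)) ((1 - δ) * h) := by
    intro x hx0 hx1 hx2
    have h2 : |x 2| < (1 - δ) * h := abs_lt.2 ⟨hx1, hx2⟩
    refine hcyl x h2 ?_
    apply lt_of_pow_lt_pow_left₀ 2 (by positivity)
    rw [norm3]
    have h3 : x 2 ^ 2 ≤ h ^ 2 := by
      rw [← sq_abs]
      apply pow_le_pow_left₀ (abs_nonneg _)
      nlinarith
    have h4 : (h / δ) ^ 2 = 4 * (h / (2 * δ)) ^ 2 := by field_simp; norm_num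
    have h5 : h ≤ h / (2 * δ) := by
      rw [le_div_iff₀ (by positivity)]
      nlinarith
    have h6 : h ^ 2 ≤ (h / (2 * δ)) ^ 2 := pow_le_pow_left₀ hh.le h5 2
    rw [h4]
    nlinarith [sq_nonneg (h / (2 * δ))]
  have hzpos : -((1 - δ) * h) < (1 - δ) * h := by
    have : 0 < (1 - δ) * h := by positivity
    linarith
  have hqpos : 0 < h / (2 * δ) := by positivity
  have hne : ∃ q z1 z2 : ℝ, 0 < q ∧ z1 < z2 ∧ Cyl Ω q z1 z2 := ⟨_, _, _, hqpos, hzpos, hC⟩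
  have hPo : ∀ m : ℕ, lam < mk Ω m → ∀ k : ℕ, 1 ≤ k → m ≤ k →
      ∃ κ, lam < κ ∧ PoI (Ω ∩ Wd (Real.pi / k)) κ := fun m hm k hk hmk =>
    ⟨mk Ω m, hm, cyl_poincare hO hNs hk (fun q z1 z2 a b c => by
      refine (mk_le a b c).trans ?_
      have h3 : ((m : ℝ) / q) ^ 2 ≤ ((k:ℝ) / q) ^ 2 := by
        apply pow_le_pow_left₀ (by positivity)
        apply div_le_div_of_nonneg_right _ a.le
        exact_mod_cast hmk
      linarith)⟩
  rcases lt_or_ge lam (mk Ω 1) with hcase | hcase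
  · obtain ⟨T, hTc, hT⟩ := levels hO hbd hext hrot hror hlam0 1 n (le_refl 1)
      (fun k h1 h2 => hPo 1 hcase k h1 h1)
      (fun k h1 h2 => hfar δ hδpos hδ1 Ω h hh hcyl lam hlh k h1 (by omega))
    exact ⟨T, by omega, hT⟩
  · obtain ⟨k0, hk0, hm0, hm1⟩ := select hR0 hRr hne hcase
    obtain ⟨T, hTc, hT⟩ := levels hO hbd hext hrot hror hlam0 (k0 + 1) n (by omega)
      (fun k h1 h2 => hPo (k0 + 1) hm1 k (by omega) h1)
      (fun k h1 h2 => by
        have hk0' : (1:ℝ) ≤ k0 := by exact_mod_cast hk0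
        obtain ⟨a, ha⟩ : ∃ a, a = Real.pi / (2 * h) := ⟨_, rfl⟩
        have ha0 : 0 < a := by rw [ha]; positivity
        obtain ⟨τ, hτ⟩ : ∃ τ, τ = min (κ / 2) (1 / (2 * N1 ^ 2)) := ⟨_, rfl⟩
        have hτ0 : 0 < τ := by rw [hτ]; positivity
        have hτ1 : τ ≤ κ / 2 := by rw [hτ]; exact min_le_left _ _
        have hτ2 : τ ≤ 1 / (2 * N1 ^ 2) := by rw [hτ]; exact min_le_right _ _
        obtain ⟨q, z1, z2, hq, hz, hCq, hv⟩ := mk_near (k := k0) hne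
          (show 0 < τ * a ^ 2 by positivity)
        have hh2 := cyl_height hh hRz hq hz hCq
        have hz' : 0 < z2 - z1 := by linarith
        obtain ⟨Z, hZ⟩ : ∃ Z, Z = Real.pi / (z2 - z1) := ⟨_, rfl⟩
        have hZ0 : 0 < Z := by rw [hZ]; positivity
        have haZ : a ≤ Z := by
          rw [ha, hZ]
          exact div_le_div_of_nonneg_left hπ.le hz' hh2
        have haZ2 : a ^ 2 ≤ Z ^ 2 := pow_le_pow_left₀ ha0.le haZ 2
        rw [← hZ] at hv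
        -- comparison with the flat cylinder
        have hmc := mk_le (k := k0) hqpos hzpos hC
        have e1 : ((k0:ℝ) / (h / (2 * δ))) ^ 2 ≤ δ * k0 ^ 2 * a ^ 2 := by
          have e2 : ((k0:ℝ) / (h / (2 * δ))) ^ 2 = (16 * δ ^ 2 / Real.pi ^ 2) * k0 ^ 2 * a ^ 2 := by
            rw [ha]; field_simp; norm_num
          rw [e2]
          have e3 : 16 * δ ^ 2 / Real.pi ^ 2 ≤ δ := by
            rw [div_le_iff₀ (by positivity)]
            have hπ9 : 9 ≤ Real.pi ^ 2 := by nlinarith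
            nlinarith [mul_nonneg hδpos.le (show 0 ≤ 1 / 2 - δ by linarith),
              mul_nonneg hδpos.le (show 0 ≤ Real.pi ^ 2 - 9 by linarith)]
          exact mul_le_mul_of_nonneg_right (mul_le_mul_of_nonneg_right e3 (by positivity))
            (by positivity)
        have e4 : (Real.pi / ((1 - δ) * h - -((1 - δ) * h))) ^ 2 ≤ (1 + 6 * δ) * a ^ 2 := by
          have e5 : (Real.pi / ((1 - δ) * h - -((1 - δ) * h))) ^ 2 =
              (1 / (1 - δ) ^ 2) * a ^ 2 := by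
            rw [ha]; field_simp; ring
          rw [e5]
          exact mul_le_mul_of_nonneg_right (inv_one_sub_sq hδpos hδ2).1 (by positivity)
        have hq2 : ((k0:ℝ) / q) ^ 2 < (7 * δ + τ) * (k0 ^ 2 * a ^ 2) := by
          have g1 : a ^ 2 ≤ k0 ^ 2 * a ^ 2 := by
            have : (1:ℝ) ≤ k0 ^ 2 := one_le_pow₀ hk0'
            nlinarith [sq_nonneg a]
          nlinarith [mul_le_mul_of_nonneg_left g1 (show 0 ≤ 6 * δ + τ by positivity)]
        have hqa : N1 ≤ q * a := by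
          have g1 : 7 * δ + τ ≤ 1 / N1 ^ 2 := by
            have g2 : 7 * δ ≤ 7 * (1 / (14 * N1 ^ 2)) := by linarith
            have g3 : 7 * (1 / (14 * N1 ^ 2)) + 1 / (2 * N1 ^ 2) = 1 / N1 ^ 2 := by
              field_simp; norm_num
            linarith
          have g4 : ((k0:ℝ) / q) ^ 2 < 1 / N1 ^ 2 * (k0 ^ 2 * a ^ 2) :=
            lt_of_lt_of_le hq2 (mul_le_mul_of_nonneg_right g1 (by positivity))
          rw [div_pow, one_div_mul_eq_div, div_lt_div_iff₀ (by positivity) (by positivity)] at g4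
          have g5 : (k0:ℝ) ^ 2 * N1 ^ 2 < k0 ^ 2 * (q * a) ^ 2 := by
            calc (k0:ℝ) ^ 2 * N1 ^ 2 < k0 ^ 2 * a ^ 2 * q ^ 2 := g4
              _ = _ := by ring
          have g6 := lt_of_mul_lt_mul_left g5 (by positivity)
          exact (lt_of_pow_lt_pow_left₀ 2 (by positivity) g6).le
        have hqZ : N1 ≤ q * Z := hqa.trans (mul_le_mul_of_nonneg_left haZ hq.le)
        refine hbox Ω k q z1 z2 lam (by omega) hq hz hCq (Or.inr (by rw [← hZ]; linarith)) ?_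
        rw [← hZ]
        obtain ⟨K, hK⟩ : ∃ K : ℝ, K = k / q := ⟨_, rfl⟩
        have hkpos : (0:ℝ) < k := by exact_mod_cast (by omega : 0 < k)
        have hK0 : 0 < K := by rw [hK]; positivity
        have hd : K ^ 2 - ((k0:ℝ) / q) ^ 2 ≤ κ / 2 * (K ^ 2 + Z ^ 2) := by
          have g1 : K ^ 2 - ((k0:ℝ) / q) ^ 2 = (k - k0) * (k + k0) / q ^ 2 := by
            rw [hK]; field_simp; ring
          have g2 : (k:ℝ) - k0 ≤ n + 1 := by
            have : (k:ℝ) ≤ ((k0 + 1 + n : ℕ) : ℝ) := by exact_mod_cast h2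
            push_cast at this
            linarith
          have g2' : (k0:ℝ) ≤ k := by exact_mod_cast (by omega : k0 ≤ k)
          have g3 : ((k:ℝ) - k0) * (k + k0) ≤ (n + 1) * (2 * k) :=
            mul_le_mul g2 (by linarith) (by positivity) (by positivity)
          have g4 : ((k:ℝ) - k0) * (k + k0) / q ^ 2 ≤ (n + 1) * (2 * k) / q ^ 2 :=
            div_le_div_of_nonneg_right g3 (by positivity)
          have g5 : ((n:ℝ) + 1) * (2 * k) / q ^ 2 = 2 * (n + 1) * (K * (1 / q)) := by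
            rw [hK]; field_simp
          have g6 : 1 / q ≤ Z / N1 := by
            rw [div_le_div_iff₀ hq (by linarith)]
            linarith
          have g7 : 2 * ((n:ℝ) + 1) * (K * (1 / q)) ≤ κ * N1 * (K * (Z / N1)) :=
            mul_le_mul hN12 (mul_le_mul_of_nonneg_left g6 hK0.le) (by positivity) (by positivity)
          have g8 : κ * N1 * (K * (Z / N1)) = κ * (K * Z) := by
            have : N1 ≠ 0 := by linarith
            field_simp
          have g9 : κ * (K * Z) ≤ κ / 2 * (K ^ 2 + Z ^ 2) := by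
            nlinarith [mul_nonneg hκ0.le (sq_nonneg (K - Z))]
          rw [g1]
          linarith
        have hτZ : τ * a ^ 2 ≤ κ / 2 * Z ^ 2 := mul_le_mul hτ1 haZ2 (by positivity) (by positivity)
        have hKk : ((k:ℝ) / q) ^ 2 = K ^ 2 := by rw [hK]
        have hκK : 0 ≤ κ / 2 * K ^ 2 := by positivity
        rw [hKk]
        linarith)
    exact ⟨T, by omega, hT⟩

end Run7.h104
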