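import Pool.Agent.Run7.h104.Uni1
import Pool.Agent.Run7.h104.Dom2

/-! # Transport to a general axis -/

set_option autoImplicit false
set_option linter.unusedSectionVars false
set_option linter.unusedVariables false

open MeasureTheory Filter Topology
open scoped ContDiff ENNReal NNReal RealInnerProductSpace

namespace Run7.h104

open Pool.Agent.R217.BN (E cexp sobS H01)
open Pool.Agent.R217.HS
open Pool.Agent.R217.KM

lemma transport {Ω : Set (E 3)} (A : E 3 ≃ₗᵢ[ℝ] E 3) (b : E 3) {lam t : ℝ}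
    (h : Set.Infinite {w | w ∈ Sol ((fun y => A y + b) ⁻¹' Ω) lam ∧ ∫ x, w x ^ 6 = t}) :
    Set.Infinite {w | w ∈ Sol Ω lam ∧ ∫ x, w x ^ 6 = t} := by
  have hcancel : ∀ x, A (A.symm x + -A.symm b) + b = x := by
    intro x
    rw [map_add, map_neg, LinearIsometryEquiv.apply_symm_apply,
      LinearIsometryEquiv.apply_symm_apply]; abel
  have hcancel' : ∀ x, A.symm (A x + b) + -A.symm b = x := by
    intro x
    rw [map_add, LinearIsometryEquiv.symm_apply_apply]; abel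
  refine Set.infinite_of_injOn_mapsTo (f := fun (w : E 3 → ℝ) (x : E 3) =>
    w (A.symm x + -A.symm b)) ?_ ?_ h
  · intro w1 _ w2 _ h12
    funext x
    have := congrFun h12 (A x + b)
    simpa only [hcancel'] using this
  · rintro w ⟨hw1, hw2⟩
    refine ⟨?_, ?_⟩
    · have h1 := Sol.iso A.symm (-A.symm b) hw1
      have h2 : (fun x => A.symm x + -A.symm b) ⁻¹' ((fun y => A y + b) ⁻¹' Ω) = Ω := by
        ext x
        show A (A.symm x + -A.symm b) + b ∈ Ω ↔ x ∈ Ω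
        rw [hcancel]
      rwa [h2] at h1
    · rw [← hw2]
      exact int_aff A.symm (-A.symm b) (fun x => w x ^ 6)

/-- an isometry adapted to the axis -/
lemma axis_iso {e : E 3} (he : ‖e‖ = 1) : ∃ A : E 3 ≃ₗᵢ[ℝ] E 3, A (eb 2) = e := by
  refine ⟨Submodule.reflection (Submodule.span ℝ {eb 2 - e})ᗮ, Submodule.reflection_sub ?_⟩
  rw [he]; simp

lemma dom_pre (A : E 3 ≃ₗᵢ[ℝ] E 3) (b c : E 3) (ρ : E 3 → ℝ) :
    (fun y => A y + b) ⁻¹' (Dom c ρ) = Dom (A.symm (c - b)) (fun y => ρ (A y)) := by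
  have hsub : ∀ y, A y + b - c = A (y - A.symm (c - b)) := by
    intro y
    rw [map_sub, LinearIsometryEquiv.apply_symm_apply]; abel
  ext y
  show ‖A y + b - c‖ < ρ (‖A y + b - c‖⁻¹ • (A y + b - c)) ↔
    ‖y - A.symm (c - b)‖ < ρ (A (‖y - A.symm (c - b)‖⁻¹ • (y - A.symm (c - b))))
  rw [hsub, LinearIsometryEquiv.norm_map, map_smul]

lemma axis_coord {A : E 3 ≃ₗᵢ[ℝ] E 3} {e : E 3} (hA : A (eb 2) = e) (b x : E 3) :
    ⟪A x + b - b, e⟫ = x 2 := by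
  rw [add_sub_cancel_right, ← hA, LinearIsometryEquiv.inner_map_map, inner_eb]

/-- the condition on the sections in coordinates -/
lemma sec_coord {A : E 3 ≃ₗᵢ[ℝ] E 3} {e : E 3} (hA : A (eb 2) = e) {b : E 3} {Ω : Set (E 3)}
    (hinv : ∀ x y : E 3, ⟪x - b, e⟫ = ⟪y - b, e⟫ → ‖y - b‖ ≤ ‖x - b‖ → x ∈ Ω → y ∈ Ω) :
    ∀ x ∈ (fun y => A y + b) ⁻¹' Ω, ∀ y : E 3, y 2 = x 2 → rr y ≤ rr x →
      y ∈ (fun y => A y + b) ⁻¹' Ω := by
  intro x hx y h1 h2
  refine hinv (A x + b) (A y + b) ?_ ?_ hx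
  · rw [axis_coord hA, axis_coord hA, h1]
  · rw [add_sub_cancel_right, add_sub_cancel_right, LinearIsometryEquiv.norm_map,
      LinearIsometryEquiv.norm_map]
    apply le_of_sq_le_sq _ (norm_nonneg _)
    rw [norm3, norm3, h1]
    unfold rr at h2
    linarith

theorem universal : ∃ C κ : ℝ, 0 < C ∧ 0 < κ ∧ ∀ (c : E 3) (ρ : E 3 → ℝ),
    ContDiff ℝ ∞ ρ → (∀ x, 0 < ρ x) → ∀ b e : E 3, ‖e‖ = 1 →
    (∀ x y : E 3, ⟪x - b, e⟫ = ⟪y - b, e⟫ → ‖y - b‖ ≤ ‖x - b‖ → x ∈ Dom c ρ → y ∈ Dom c ρ) →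
    ∀ (p : E 3) (r : ℝ), 0 < r → Metric.ball p r ⊆ Dom c ρ → ∀ lam : ℝ, C / r ^ 2 ≤ lam →
    ∃ T : Finset ℝ, κ * (r * √lam) ≤ T.card ∧
      ∀ t ∈ T, Set.Infinite {w | w ∈ Sol (Dom c ρ) lam ∧ ∫ x, w x ^ 6 = t} := by
  obtain ⟨C, κ, hC, hκ, h⟩ := uni_core
  refine ⟨C, κ, hC, hκ, ?_⟩
  intro c ρ hρ hpos b e he hinv p r hr hpr lam hlam
  obtain ⟨A, hA⟩ := axis_iso he
  have hN := sec_coord hA hinv
  have hρ' : ContDiff ℝ ∞ (fun y => ρ (A y)) := hρ.comp A.contDiff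
  have hpos' : ∀ y, 0 < ρ (A y) := fun y => hpos _
  have hball : Metric.ball (A.symm (p - b)) r ⊆ (fun y => A y + b) ⁻¹' Dom c ρ := by
    intro y hy
    apply hpr
    rw [Metric.mem_ball, dist_eq_norm] at hy ⊢
    have e1 : A y + b - p = A (y - A.symm (p - b)) := by
      rw [map_sub, LinearIsometryEquiv.apply_symm_apply]; abel
    rw [e1, LinearIsometryEquiv.norm_map]
    exact hy
  have hpre := dom_pre A b c ρ
  rw [hpre] at hN hball
  obtain ⟨T, hT1, hT2⟩ := h _ (Dom_open hρ' hpos') (Dom_bdd hρ' hpos') (Dom_ext hρ' hpos') hN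
    _ r hr hball lam hlam
  refine ⟨T, hT1, fun t ht => ?_⟩
  apply transport A b
  rw [hpre]
  exact hT2 t ht

end Run7.h104
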