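import Pool.Agent.Run7.h104.Fla2
import Pool.Agent.Run7.h104.Uni2

/-! # Flat solids, general axis -/

set_option autoImplicit false
set_option linter.unusedSectionVars false
set_option linter.unusedVariables false

open MeasureTheory Filter Topology
open scoped ContDiff ENNReal NNReal RealInnerProductSpace

namespace Run7.h104

open Pool.Agent.R217.BN (E cexp sobS H01)
open Pool.Agent.R217.HS
open Pool.Agent.R217.KM

lemma grad_iso {φ : E 3 → ℝ} (hφ : ContDiff ℝ ∞ φ) (A : E 3 ≃ₗᵢ[ℝ] E 3) (b x : E 3) :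
    ‖gradient (fun y => φ (A y + b)) x‖ = ‖gradient φ (A x + b)‖ := by
  have h1 : HasFDerivAt (fun y : E 3 => A y + b) (A : E 3 →L[ℝ] E 3) x :=
    (A.toContinuousLinearEquiv.hasFDerivAt).add_const b
  have h2 : HasFDerivAt φ (fderiv ℝ φ (A x + b)) (A x + b) :=
    (hφ.differentiable (by simp) _).hasFDerivAt
  have h3 : fderiv ℝ (fun y => φ (A y + b)) x = (fderiv ℝ φ (A x + b)).comp (A : E 3 →L[ℝ] E 3) :=
    (h2.comp x h1).fderiv
  unfold gradient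
  rw [LinearIsometryEquiv.norm_map, LinearIsometryEquiv.norm_map, h3]
  exact ContinuousLinearMap.opNorm_comp_linearIsometryEquiv _ A

lemma Good.iso {Ω : Set (E 3)} {lam0 : ℝ} (A : E 3 ≃ₗᵢ[ℝ] E 3) (b : E 3) (hg : Good Ω lam0) :
    Good ((fun y => A y + b) ⁻¹' Ω) lam0 := by
  obtain ⟨s, φ, hs, h1, h2, h3, h4⟩ := hg
  have hcont : Continuous fun y : E 3 => A y + b := by fun_prop
  refine ⟨s, fun y => φ (A y + b), hs, h1.comp (A.contDiff.add contDiff_const), ?_, ?_, ?_⟩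
  · have h5 : IsCompact ((fun z : E 3 => A.symm (z - b)) '' tsupport φ) :=
      IsCompact.image h2 (by fun_prop)
    refine HasCompactSupport.intro h5 fun x hx => ?_
    by_contra hc
    apply hx
    refine ⟨A x + b, subset_tsupport _ hc, ?_⟩
    show A.symm (A x + b - b) = x
    rw [add_sub_cancel_right, LinearIsometryEquiv.symm_apply_apply]
  · have hcl : tsupport (fun y => φ (A y + b)) ⊆ (fun y => A y + b) ⁻¹' tsupport φ := by
      apply closure_minimal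
      · intro y hy
        exact subset_tsupport φ hy
      · exact (isClosed_tsupport φ).preimage hcont
    exact fun x hx => h3 (hcl hx)
  · have e1 : ∀ x, ‖gradient (fun y => φ (A y + b)) x‖ ^ 2 =
        (fun z => ‖gradient φ z‖ ^ 2) (A x + b) := fun x => by rw [grad_iso h1 A b x]
    simp_rw [e1]
    rw [int_aff A b (fun z => ‖gradient φ z‖ ^ 2), int_aff A b (fun z => φ z ^ 2),
      int_aff A b (fun z => φ z ^ 6)]
    exact h4

theorem flat {ε : ℝ} (hε : 0 < ε) (n : ℕ) : ∃ δ : ℝ, 0 < δ ∧ δ < 1 ∧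
    ∀ (c : E 3) (ρ : E 3 → ℝ), ContDiff ℝ ∞ ρ → (∀ x, 0 < ρ x) →
    ∀ (b e : E 3) (h : ℝ), ‖e‖ = 1 → 0 < h →
    (∀ x y : E 3, ⟪x - b, e⟫ = ⟪y - b, e⟫ → ‖y - b‖ ≤ ‖x - b‖ → x ∈ Dom c ρ → y ∈ Dom c ρ) →
    (∀ x ∈ Dom c ρ, |⟪x - b, e⟫| < h) →
    (∀ x : E 3, |⟪x - b, e⟫| < (1 - δ) * h → ‖x - b‖ < h / δ → x ∈ Dom c ρ) →
    ∀ lam0, Good (Dom c ρ) lam0 → ∀ lam, lam0 + ε / h ^ 2 ≤ lam →
    ∃ T : Finset ℝ, n ≤ T.card ∧
      ∀ t ∈ T, Set.Infinite {w | w ∈ Sol (Dom c ρ) lam ∧ ∫ x, w x ^ 6 = t} := by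
  obtain ⟨δ, hδ0, hδ1, H⟩ := flat_core hε n
  refine ⟨δ, hδ0, hδ1, ?_⟩
  intro c ρ hρ hpos b e h he hh hinv hup hlow lam0 hg lam hlam
  obtain ⟨A, hA⟩ := axis_iso he
  have hN := sec_coord hA hinv
  have hρ' : ContDiff ℝ ∞ (fun y => ρ (A y)) := hρ.comp A.contDiff
  have hpos' : ∀ y, 0 < ρ (A y) := fun y => hpos _
  have hup' : ∀ x ∈ (fun y => A y + b) ⁻¹' Dom c ρ, |x 2| < h := by
    intro x hx
    have := hup _ hx
    rwa [axis_coord hA] at this
  have hlow' : ∀ x : E 3, |x 2| < (1 - δ) * h → ‖x‖ < h / δ →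
      x ∈ (fun y => A y + b) ⁻¹' Dom c ρ := by
    intro x h1 h2
    apply hlow
    · rwa [axis_coord hA]
    · rwa [add_sub_cancel_right, LinearIsometryEquiv.norm_map]
  have hg' := hg.iso A b
  have hpre := dom_pre A b c ρ
  rw [hpre] at hN hup' hlow' hg'
  obtain ⟨T, hT1, hT2⟩ := H _ h (Dom_open hρ' hpos') (Dom_bdd hρ' hpos') (Dom_ext hρ' hpos') hN
    hh hup' hlow' lam0 hg' lam hlam
  refine ⟨T, hT1, fun t ht => ?_⟩
  apply transport A b
  rw [hpre]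
  exact hT2 t ht

end Run7.h104
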