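import Pool.Agent.Run7.h104.Ext

/-! # Rotations, reflections and wedges -/

set_option autoImplicit false
set_option linter.unusedSectionVars false
set_option linter.unusedVariables false

open MeasureTheory Filter Topology
open scoped ContDiff ENNReal NNReal RealInnerProductSpace

namespace Run7.h104

open Pool.Agent.R217.BN (E cexp sobS H01)
open Pool.Agent.R217.HS
open Pool.Agent.R217.KM

lemma ext3 {x y : E 3} (h0 : x 0 = y 0) (h1 : x 1 = y 1) (h2 : x 2 = y 2) : x = y := by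
  ext i
  fin_cases i
  · exact h0
  · exact h1
  · exact h2

lemma norm3 (x : E 3) : ‖x‖ ^ 2 = x 0 ^ 2 + x 1 ^ 2 + x 2 ^ 2 := by
  rw [EuclideanSpace.norm_sq_eq, Fin.sum_univ_three]
  simp [sq_abs]

/-- linear map with matrix `(c, -s; s, c)` in the first two coordinates, `e` on the second -/
noncomputable def rlin (c s e : ℝ) : E 3 →ₗ[ℝ] E 3 where
  toFun x := !₂[c * x 0 - e * s * x 1, s * x 0 + e * c * x 1, x 2]
  map_add' x y := by
    apply ext3 <;> simp <;> ring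
  map_smul' t x := by
    apply ext3 <;> simp <;> ring

lemma rlin_norm {c s e : ℝ} (h : c ^ 2 + s ^ 2 = 1) (he : e ^ 2 = 1) (x : E 3) :
    ‖rlin c s e x‖ = ‖x‖ := by
  have h1 : ‖rlin c s e x‖ ^ 2 = ‖x‖ ^ 2 := by
    rw [norm3, norm3]
    simp only [rlin, LinearMap.coe_mk, AddHom.coe_mk]
    simp
    have h2 : (c * x 0 - e * s * x 1) ^ 2 + (s * x 0 + e * c * x 1) ^ 2 =
        (c ^ 2 + s ^ 2) * x 0 ^ 2 + e ^ 2 * (c ^ 2 + s ^ 2) * x 1 ^ 2 := by ring
    rw [h2, h, he]; ring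
  have := congrArg Real.sqrt h1
  rwa [Real.sqrt_sq (norm_nonneg _), Real.sqrt_sq (norm_nonneg _)] at this

/-- rotation by `θ` about the third axis -/
noncomputable def rot (θ : ℝ) : E 3 ≃ₗᵢ[ℝ] E 3 :=
  LinearIsometry.toLinearIsometryEquiv
    ⟨rlin (Real.cos θ) (Real.sin θ) 1, rlin_norm (by rw [Real.cos_sq_add_sin_sq]) (by norm_num)⟩ rfl

/-- rotation by `θ` after the reflection `x 1 ↦ - x 1` -/
noncomputable def ror (θ : ℝ) : E 3 ≃ₗᵢ[ℝ] E 3 :=
  LinearIsometry.toLinearIsometryEquiv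
    ⟨rlin (Real.cos θ) (Real.sin θ) (-1), rlin_norm (by rw [Real.cos_sq_add_sin_sq])
      (by norm_num)⟩ rfl

lemma rot_apply (θ : ℝ) (x : E 3) : rot θ x = !₂[Real.cos θ * x 0 - 1 * Real.sin θ * x 1,
    Real.sin θ * x 0 + 1 * Real.cos θ * x 1, x 2] := rfl

lemma ror_apply (θ : ℝ) (x : E 3) : ror θ x = !₂[Real.cos θ * x 0 - (-1) * Real.sin θ * x 1,
    Real.sin θ * x 0 + (-1) * Real.cos θ * x 1, x 2] := rfl

@[simp] lemma rot0 (θ : ℝ) (x : E 3) : rot θ x 0 = Real.cos θ * x 0 - Real.sin θ * x 1 := by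
  rw [rot_apply]; simp

@[simp] lemma rot1 (θ : ℝ) (x : E 3) : rot θ x 1 = Real.sin θ * x 0 + Real.cos θ * x 1 := by
  rw [rot_apply]; simp

@[simp] lemma rot2 (θ : ℝ) (x : E 3) : rot θ x 2 = x 2 := by
  rw [rot_apply]; simp

@[simp] lemma ror0 (θ : ℝ) (x : E 3) : ror θ x 0 = Real.cos θ * x 0 + Real.sin θ * x 1 := by
  rw [ror_apply]; simp

@[simp] lemma ror1 (θ : ℝ) (x : E 3) : ror θ x 1 = Real.sin θ * x 0 - Real.cos θ * x 1 := by
  rw [ror_apply]; simp; ring

@[simp] lemma ror2 (θ : ℝ) (x : E 3) : ror θ x 2 = x 2 := by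
  rw [ror_apply]; simp

lemma rot_rot (a b : ℝ) (x : E 3) : rot a (rot b x) = rot (a + b) x := by
  apply ext3 <;> simp [Real.cos_add, Real.sin_add] <;> ring

lemma rot_ror (a b : ℝ) (x : E 3) : rot a (ror b x) = ror (a + b) x := by
  apply ext3 <;> simp [Real.cos_add, Real.sin_add] <;> ring

lemma ror_rot (a b : ℝ) (x : E 3) : ror a (rot b x) = ror (a - b) x := by
  apply ext3 <;> simp [Real.cos_sub, Real.sin_sub] <;> ring

lemma ror_ror (a b : ℝ) (x : E 3) : ror a (ror b x) = rot (a - b) x := by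
  apply ext3 <;> simp [Real.cos_sub, Real.sin_sub] <;> ring

lemma rot_zero (x : E 3) : rot 0 x = x := by
  apply ext3 <;> simp

lemma rot_two_pi (θ : ℝ) (x : E 3) : rot (θ + 2 * Real.pi) x = rot θ x := by
  apply ext3 <;> simp

lemma rot_symm (θ : ℝ) : (rot θ).symm = rot (-θ) := by
  apply LinearIsometryEquiv.ext
  intro x
  rw [LinearIsometryEquiv.symm_apply_eq, rot_rot, add_neg_cancel, rot_zero]

lemma ror_symm (θ : ℝ) : (ror θ).symm = ror θ := by
  apply LinearIsometryEquiv.ext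
  intro x
  rw [LinearIsometryEquiv.symm_apply_eq, ror_ror, sub_self, rot_zero]

/-- the wedge of opening `α` -/
def Wd (α : ℝ) : Set (E 3) := {x | 0 < x 1 ∧ 0 < x 0 * Real.sin α - x 1 * Real.cos α}

lemma Wd_open (α : ℝ) : IsOpen (Wd α) := by
  have h1 : IsOpen {x : E 3 | 0 < x 1} := isOpen_lt continuous_const (by fun_prop)
  have h2 : IsOpen {x : E 3 | 0 < x 0 * Real.sin α - x 1 * Real.cos α} :=
    isOpen_lt continuous_const (by fun_prop)
  exact h1.inter h2

lemma Wd_polar {α : ℝ} (h0 : 0 < α) (h1 : α ≤ Real.pi) {x : E 3} (hx : x ∈ Wd α) :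
    ∃ r θ : ℝ, 0 < r ∧ 0 < θ ∧ θ < α ∧ x 0 = r * Real.cos θ ∧ x 1 = r * Real.sin θ := by
  obtain ⟨hx1, hx2⟩ := hx
  obtain ⟨z, hz⟩ : ∃ z : ℂ, z = ⟨x 0, x 1⟩ := ⟨_, rfl⟩
  have hz0 : z ≠ 0 := by
    intro hc
    have := congrArg Complex.im hc
    rw [hz] at this
    simp at this
    linarith
  have hr : 0 < ‖z‖ := norm_pos_iff.2 hz0
  have e0 : x 0 = ‖z‖ * Real.cos z.arg := by
    rw [Complex.norm_mul_cos_arg, hz]
  have e1 : x 1 = ‖z‖ * Real.sin z.arg := by
    rw [Complex.norm_mul_sin_arg, hz]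
  have hs : 0 < Real.sin z.arg := by
    rw [e1] at hx1
    exact pos_of_mul_pos_right hx1 hr.le
  have ha := Complex.neg_pi_lt_arg z
  have hb := Complex.arg_le_pi z
  have hθ0 : 0 < z.arg := by
    by_contra hc
    have := Real.sin_nonpos_of_nonpos_of_neg_pi_le (not_lt.1 hc) ha.le
    linarith
  refine ⟨‖z‖, z.arg, hr, hθ0, ?_, e0, e1⟩
  have h2 : 0 < Real.sin (α - z.arg) := by
    rw [Real.sin_sub]
    have : x 0 * Real.sin α - x 1 * Real.cos α =
        ‖z‖ * (Real.sin α * Real.cos z.arg - Real.cos α * Real.sin z.arg) := by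
      rw [e0, e1]; ring
    rw [this] at hx2
    exact pos_of_mul_pos_right hx2 hr.le
  by_contra hc
  have := Real.sin_nonpos_of_nonpos_of_neg_pi_le (x := α - z.arg) (by linarith) (by linarith)
  linarith

lemma polar_unique {r r' θ θ' : ℝ} (hr : 0 < r) (hr' : 0 < r')
    (h0 : r * Real.cos θ = r' * Real.cos θ') (h1 : r * Real.sin θ = r' * Real.sin θ') :
    ∃ m : ℤ, θ = θ' + m * (2 * Real.pi) := by
  have e1 : r ^ 2 = r' ^ 2 := by
    have h2 : (r * Real.cos θ) ^ 2 + (r * Real.sin θ) ^ 2 = r ^ 2 := by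
      have := Real.cos_sq_add_sin_sq θ
      linear_combination r ^ 2 * this
    have h3 : (r' * Real.cos θ') ^ 2 + (r' * Real.sin θ') ^ 2 = r' ^ 2 := by
      have := Real.cos_sq_add_sin_sq θ'
      linear_combination r' ^ 2 * this
    rw [← h2, ← h3, h0, h1]
  have e2 : r = r' := by
    have := abs_eq_abs.2 (sq_eq_sq_iff_eq_or_eq_neg.1 e1)
    rwa [abs_of_pos hr, abs_of_pos hr'] at this
  rw [e2] at h0 h1
  have c : Real.cos θ = Real.cos θ' := mul_left_cancel₀ hr'.ne' h0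
  have s : Real.sin θ = Real.sin θ' := mul_left_cancel₀ hr'.ne' h1
  have h4 : Complex.exp (θ * Complex.I) = Complex.exp (θ' * Complex.I) := by
    rw [Complex.exp_mul_I, Complex.exp_mul_I, ← Complex.ofReal_cos, ← Complex.ofReal_cos,
      ← Complex.ofReal_sin, ← Complex.ofReal_sin, c, s]
  rw [Complex.exp_eq_exp_iff_exists_int] at h4
  obtain ⟨m, hm⟩ := h4
  refine ⟨m, ?_⟩
  have h5 : (θ : ℂ) * Complex.I = ((θ' : ℂ) + m * (2 * Real.pi)) * Complex.I := by
    rw [hm]; ring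
  have h6 := mul_right_cancel₀ Complex.I_ne_zero h5
  exact_mod_cast h6

/-- rotated wedges are disjoint -/
lemma Wd_rot {k : ℕ} (hk : 1 ≤ k) {x : E 3} (hx : x ∈ Wd (Real.pi / k)) {j : ℤ}
    (hj : rot (2 * (Real.pi / k) * j) x ∈ Wd (Real.pi / k)) : ∃ m : ℤ, j = m * k := by
  have hk0 : (0:ℝ) < k := by exact_mod_cast hk
  have hπ := Real.pi_pos
  have ha : 0 < Real.pi / k := by positivity
  have hb : Real.pi / k ≤ Real.pi := div_le_self hπ.le (by exact_mod_cast hk)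
  obtain ⟨r, θ, hr, h1, h2, e0, e1⟩ := Wd_polar ha hb hx
  obtain ⟨r', θ', hr', h1', h2', e0', e1'⟩ := Wd_polar ha hb hj
  rw [rot0, e0, e1] at e0'
  rw [rot1, e0, e1] at e1'
  have f0 : r * Real.cos (2 * (Real.pi / k) * j + θ) = r' * Real.cos θ' := by
    rw [← e0', Real.cos_add]; ring
  have f1 : r * Real.sin (2 * (Real.pi / k) * j + θ) = r' * Real.sin θ' := by
    rw [← e1', Real.sin_add]; ring
  obtain ⟨m, hm⟩ := polar_unique hr hr' f0 f1
  refine ⟨m, ?_⟩
  have h3 : (2 * (j - m * k) : ℝ) * (Real.pi / k) = θ' - θ := by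
    have : (m:ℝ) * (2 * Real.pi) = 2 * (m * k) * (Real.pi / k) := by field_simp
    rw [this] at hm
    linarith
  have h4 : (-1 : ℝ) < 2 * (j - m * k) := by
    by_contra hc
    have := mul_le_mul_of_nonneg_right (not_lt.1 hc) ha.le
    linarith
  have h5 : (2 * (j - m * k) : ℝ) < 1 := by
    by_contra hc
    have := mul_le_mul_of_nonneg_right (not_lt.1 hc) ha.le
    linarith
  have h6 : (-1 : ℤ) < 2 * (j - m * k) := by exact_mod_cast h4
  have h7 : (2 * (j - m * k) : ℤ) < 1 := by exact_mod_cast h5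
  omega

lemma Wd_ror {k : ℕ} (hk : 1 ≤ k) {x : E 3} (hx : x ∈ Wd (Real.pi / k)) {j : ℤ}
    (hj : ror (2 * (Real.pi / k) * j) x ∈ Wd (Real.pi / k)) : False := by
  have hk0 : (0:ℝ) < k := by exact_mod_cast hk
  have hπ := Real.pi_pos
  have ha : 0 < Real.pi / k := by positivity
  have hb : Real.pi / k ≤ Real.pi := div_le_self hπ.le (by exact_mod_cast hk)
  obtain ⟨r, θ, hr, h1, h2, e0, e1⟩ := Wd_polar ha hb hx
  obtain ⟨r', θ', hr', h1', h2', e0', e1'⟩ := Wd_polar ha hb hj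
  rw [ror0, e0, e1] at e0'
  rw [ror1, e0, e1] at e1'
  have f0 : r * Real.cos (2 * (Real.pi / k) * j - θ) = r' * Real.cos θ' := by
    rw [← e0', Real.cos_sub]; ring
  have f1 : r * Real.sin (2 * (Real.pi / k) * j - θ) = r' * Real.sin θ' := by
    rw [← e1', Real.sin_sub]; ring
  obtain ⟨m, hm⟩ := polar_unique hr hr' f0 f1
  have h3 : (2 * (j - m * k) : ℝ) * (Real.pi / k) = θ' + θ := by
    have : (m:ℝ) * (2 * Real.pi) = 2 * (m * k) * (Real.pi / k) := by field_simp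
    rw [this] at hm
    linarith
  have h4 : (0 : ℝ) < 2 * (j - m * k) := by
    by_contra hc
    have := mul_le_mul_of_nonneg_right (not_lt.1 hc) ha.le
    linarith
  have h5 : (2 * (j - m * k) : ℝ) < 2 := by
    by_contra hc
    have := mul_le_mul_of_nonneg_right (not_lt.1 hc) ha.le
    linarith
  have h6 : (0 : ℤ) < 2 * (j - m * k) := by exact_mod_cast h4
  have h7 : (2 * (j - m * k) : ℤ) < 2 := by exact_mod_cast h5
  omega

end Run7.h104
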