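import Pool.Agent.Run7.h104.Geo1

/-! # Cutting along hyperplanes, composition with isometries -/

set_option autoImplicit false
set_option linter.unusedSectionVars false
set_option linter.unusedVariables false

open MeasureTheory Filter Topology
open scoped ContDiff ENNReal NNReal RealInnerProductSpace

namespace Run7.h104

open Pool.Agent.R217.BN (E cexp sobS H01)
open Pool.Agent.R217.HS
open Pool.Agent.R217.KM

lemma inner_grad' (w : E 3 → ℝ) (x v : E 3) : ⟪gradient w x, v⟫ = fderiv ℝ w x v := by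
  unfold gradient
  rw [InnerProductSpace.toDual_symm_apply]

lemma gradient_iso (A : E 3 ≃ₗᵢ[ℝ] E 3) {φ : E 3 → ℝ} {x : E 3}
    (h : DifferentiableAt ℝ φ (A x)) :
    gradient (fun x => φ (A x)) x = A.symm (gradient φ (A x)) := by
  apply ext_inner_right ℝ
  intro v
  rw [inner_grad']
  have h1 : HasFDerivAt (fun x => φ (A x))
      ((fderiv ℝ φ (A x)).comp (A.toContinuousLinearEquiv : E 3 →L[ℝ] E 3)) x :=
    h.hasFDerivAt.comp x (A.toContinuousLinearEquiv : E 3 →L[ℝ] E 3).hasFDerivAt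
  rw [h1.fderiv]
  have h2 : ⟪A.symm (gradient φ (A x)), v⟫ = ⟪gradient φ (A x), A v⟫ := by
    rw [← LinearIsometryEquiv.inner_map_map A (A.symm (gradient φ (A x))) v]
    simp
  rw [h2, inner_grad']
  rfl

lemma TIn.iso (A : E 3 ≃ₗᵢ[ℝ] E 3) {D : Set (E 3)} {φ : E 3 → ℝ} (h : TIn D φ) :
    TIn (A ⁻¹' D) (fun x => φ (A x)) := by
  refine ⟨h.1.comp A.contDiff, h.2.1.comp_homeomorph A.toHomeomorph, ?_⟩
  have : tsupport (fun x => φ (A x)) ⊆ A ⁻¹' tsupport φ := by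
    apply closure_minimal
    · intro y hy
      exact subset_tsupport φ hy
    · exact (isClosed_tsupport φ).preimage A.continuous
  exact this.trans (Set.preimage_mono h.2.2)

lemma h01_iso (A : E 3 ≃ₗᵢ[ℝ] E 3) {D : Set (E 3)} {u : E 3 → ℝ} {G : E 3 → E 3}
    (h : H01 D u G) : H01 (A ⁻¹' D) (fun x => u (A x)) (fun x => A.symm (G (A x))) := by
  obtain ⟨hu, hG, φ, hφ, h1, h2⟩ := h
  have tφ : ∀ k, TIn D (φ k) := hφ
  have mp := A.measurePreserving
  have mG : MemLp (fun x => A.symm (G (A x))) 2 volume := by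
    have h3 : MemLp (fun x => G (A x)) 2 volume := hG.comp_measurePreserving mp
    refine h3.of_le (A.symm.continuous.comp_aestronglyMeasurable h3.1)
      (Eventually.of_forall fun x => ?_)
    rw [LinearIsometryEquiv.norm_map]
  refine ⟨hu.comp_measurePreserving mp, mG, fun k x => φ k (A x), fun k => (tφ k).iso A, ?_, ?_⟩
  · refine h1.congr fun k => ?_
    have := eLpNorm_comp_measurePreserving (p := 2) (((tφ k).tst.memLp 2).1.sub hu.1) mp
    exact this.symm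
  · refine h2.congr fun k => ?_
    have := eLpNorm_comp_measurePreserving (p := 2) (((tφ k).tst.memLp_grad 2).1.sub hG.1) mp
    refine this.symm.trans ?_
    apply eLpNorm_congr_norm_ae
    refine Eventually.of_forall fun x => ?_
    show ‖gradient (φ k) (A x) - G (A x)‖ =
      ‖gradient (fun x => φ k (A x)) x - A.symm (G (A x))‖
    rw [gradient_iso A ((tφ k).tst.diff (A x)), ← map_sub, LinearIsometryEquiv.norm_map]

lemma int_iso (A : E 3 ≃ₗᵢ[ℝ] E 3) (f : E 3 → ℝ) : ∫ x, f (A x) = ∫ x, f x :=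
  A.measurePreserving.integral_comp A.toHomeomorph.measurableEmbedding f

/-- derivative bound for the smooth step -/
lemma st_deriv_bdd : ∃ C, 0 ≤ C ∧ ∀ t, |deriv Real.smoothTransition t| ≤ C := by
  have hc : Continuous (deriv Real.smoothTransition) :=
    (Real.smoothTransition.contDiff (n := 1)).continuous_deriv le_rfl
  obtain ⟨C, hC⟩ := (isCompact_Icc (a := (0:ℝ)) (b := 1)).exists_bound_of_continuousOn
    hc.continuousOn
  have hC0 : 0 ≤ C := (norm_nonneg _).trans (hC 0 (by simp))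
  refine ⟨C, hC0, fun t => ?_⟩
  by_cases ht : t ∈ Set.Icc (0:ℝ) 1
  · exact hC t ht
  · have : deriv Real.smoothTransition t = 0 := by
      rw [Set.mem_Icc, not_and_or, not_le, not_le] at ht
      rcases ht with ht | ht
      · have h1 : Real.smoothTransition =ᶠ[𝓝 t] fun _ => (0:ℝ) := by
          filter_upwards [gt_mem_nhds ht] with s hs
          exact Real.smoothTransition.zero_of_nonpos hs.le
        rw [h1.deriv_eq]; simp
      · have h1 : Real.smoothTransition =ᶠ[𝓝 t] fun _ => (1:ℝ) := by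
          filter_upwards [lt_mem_nhds ht] with s hs
          exact Real.smoothTransition.one_of_one_le hs.le
        rw [h1.deriv_eq]; simp
    rw [this, abs_zero]; exact hC0

/-- smooth step at scale `1/K` -/
noncomputable def Th (K t : ℝ) : ℝ := Real.smoothTransition (K * t - 1)

lemma Th_smooth (K : ℝ) : ContDiff ℝ ∞ (Th K) := by
  unfold Th
  exact Real.smoothTransition.contDiff.comp (by fun_prop)

lemma Th_deriv (K t : ℝ) : deriv (Th K) t = K * deriv Real.smoothTransition (K * t - 1) := by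
  have h1 : HasDerivAt (fun t : ℝ => K * t - 1) K t := by
    simpa using ((hasDerivAt_id t).const_mul K).sub_const 1
  have hd : HasDerivAt Real.smoothTransition (deriv Real.smoothTransition (K * t - 1))
      (K * t - 1) :=
    ((Real.smoothTransition.contDiff (n := 1)).differentiable (by norm_num) _).hasDerivAt
  have h2 := HasDerivAt.comp t hd h1
  have h3 : deriv (Th K) t = _ := h2.deriv
  rw [h3, mul_comm]

lemma Th_nonneg (K t : ℝ) : 0 ≤ Th K t := Real.smoothTransition.nonneg _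
lemma Th_le_one (K t : ℝ) : Th K t ≤ 1 := Real.smoothTransition.le_one _

lemma Th_zero {K t : ℝ} (h : K * t ≤ 1) : Th K t = 0 :=
  Real.smoothTransition.zero_of_nonpos (by linarith)

lemma Th_one {K t : ℝ} (h : 2 ≤ K * t) : Th K t = 1 :=
  Real.smoothTransition.one_of_one_le (by linarith)

lemma Th_deriv_zero {K t : ℝ} (h : K * t < 1 ∨ 2 < K * t) : deriv (Th K) t = 0 := by
  rw [Th_deriv]
  have : deriv Real.smoothTransition (K * t - 1) = 0 := by
    rcases h with h | h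
    · have h1 : Real.smoothTransition =ᶠ[𝓝 (K * t - 1)] fun _ => (0:ℝ) := by
        filter_upwards [gt_mem_nhds (show K * t - 1 < 0 by linarith)] with s hs
        exact Real.smoothTransition.zero_of_nonpos hs.le
      rw [h1.deriv_eq]; simp
    · have h1 : Real.smoothTransition =ᶠ[𝓝 (K * t - 1)] fun _ => (1:ℝ) := by
        filter_upwards [lt_mem_nhds (show 1 < K * t - 1 by linarith)] with s hs
        exact Real.smoothTransition.one_of_one_le hs.le
      rw [h1.deriv_eq]; simp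
  rw [this, mul_zero]

lemma Th_deriv_mul {C : ℝ} (hC0 : 0 ≤ C) (hC : ∀ t, |deriv Real.smoothTransition t| ≤ C) {K : ℝ}
    (hK : 0 < K) (t : ℝ) : |t| * |deriv (Th K) t| ≤ 2 * C := by
  by_cases h : K * t < 1 ∨ 2 < K * t
  · rw [Th_deriv_zero h, abs_zero, mul_zero]; positivity
  · rw [not_or, not_lt, not_lt] at h
    rw [Th_deriv, abs_mul, abs_of_pos hK]
    have ht : 0 < t := by
      by_contra hc
      have := mul_nonpos_of_nonneg_of_nonpos hK.le (not_lt.1 hc)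
      linarith
    rw [abs_of_pos ht]
    calc t * (K * |deriv Real.smoothTransition (K * t - 1)|) =
        (K * t) * |deriv Real.smoothTransition (K * t - 1)| := by ring
      _ ≤ 2 * C := mul_le_mul h.2 (hC _) (abs_nonneg _) (by norm_num)

lemma gradient_aff {Θ : ℝ → ℝ} (hΘ : Differentiable ℝ Θ) (n : E 3) (c : ℝ) (x : E 3) :
    gradient (fun x => Θ (⟪n, x⟫ + c)) x = deriv Θ (⟪n, x⟫ + c) • n := by
  have hd : DifferentiableAt ℝ (fun x : E 3 => ⟪n, x⟫ + c) x :=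
    ((innerSL ℝ n).hasFDerivAt.add_const c).differentiableAt
  rw [gradient_comp hΘ hd]
  congr 1
  apply ext_inner_right ℝ
  intro v
  rw [inner_grad']
  have h1 : HasFDerivAt (fun x : E 3 => ⟪n, x⟫ + c) (innerSL ℝ n) x :=
    (innerSL ℝ n).hasFDerivAt.add_const c
  rw [h1.fderiv]
  rfl

lemma lip_zero {ψ : E 3 → ℝ} (hψ : Tst ψ) : ∃ L, 0 ≤ L ∧ ∀ x y, |ψ x - ψ y| ≤ L * ‖x - y‖ := by
  have hc : Continuous (fderiv ℝ ψ) := hψ.1.continuous_fderiv (by simp)
  obtain ⟨L, hL⟩ := (hψ.2.fderiv (𝕜 := ℝ)).exists_bound_of_continuous hc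
  refine ⟨L, (norm_nonneg _).trans (hL 0), fun x y => ?_⟩
  have := Convex.norm_image_sub_le_of_norm_fderiv_le (f := ψ) (𝕜 := ℝ) (s := Set.univ) (C := L)
    (fun x _ => hψ.diff x) (fun x _ => hL x) convex_univ (Set.mem_univ y) (Set.mem_univ x)
  simpa using this

/-- restriction of a test function vanishing on two hyperplanes -/
lemma half_cut {V : Set (E 3)} {ψ : E 3 → ℝ} (hψ : TIn V ψ) {n1 n2 : E 3} {c1 c2 : ℝ}
    (h1 : ‖n1‖ = 1) (h2 : ‖n2‖ = 1) (z1 : ∀ x, ⟪n1, x⟫ + c1 = 0 → ψ x = 0)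
    (z2 : ∀ x, ⟪n2, x⟫ + c2 = 0 → ψ x = 0) :
    H01 (V ∩ {x | 0 < ⟪n1, x⟫ + c1 ∧ 0 < ⟪n2, x⟫ + c2})
      (Set.indicator {x | 0 < ⟪n1, x⟫ + c1 ∧ 0 < ⟪n2, x⟫ + c2} ψ)
      (Set.indicator {x | 0 < ⟪n1, x⟫ + c1 ∧ 0 < ⟪n2, x⟫ + c2} (gradient ψ)) := by
  obtain ⟨S, hS⟩ : ∃ S : Set (E 3), S = {x | 0 < ⟪n1, x⟫ + c1 ∧ 0 < ⟪n2, x⟫ + c2} := ⟨_, rfl⟩
  rw [← hS]
  have hSm : MeasurableSet S := by
    rw [hS]
    have a1 : IsOpen {x : E 3 | 0 < ⟪n1, x⟫ + c1} := isOpen_lt continuous_const (by fun_prop)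
    have a2 : IsOpen {x : E 3 | 0 < ⟪n2, x⟫ + c2} := isOpen_lt continuous_const (by fun_prop)
    exact (a1.inter a2).measurableSet
  obtain ⟨C, hC0, hC⟩ := st_deriv_bdd
  obtain ⟨L, hL0, hL⟩ := lip_zero hψ.tst
  have hlin : ∀ (n : E 3) (c : ℝ), ‖n‖ = 1 → (∀ x, ⟪n, x⟫ + c = 0 → ψ x = 0) →
      ∀ x, |ψ x| ≤ L * |⟪n, x⟫ + c| := by
    intro n c hn hz x
    have a1 : ψ (x - (⟪n, x⟫ + c) • n) = 0 := by
      apply hz
      rw [inner_sub_right, real_inner_smul_right, real_inner_self_eq_norm_sq, hn]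
      ring
    have a2 := hL x (x - (⟪n, x⟫ + c) • n)
    rw [a1, sub_zero, sub_sub_cancel, norm_smul, hn, mul_one] at a2
    exact a2
  let ψk : ℕ → E 3 → ℝ := fun k x => Th ((k:ℝ) + 1) (⟪n1, x⟫ + c1) *
    Th ((k:ℝ) + 1) (⟪n2, x⟫ + c2) * ψ x
  have hTs : ∀ (K : ℝ) (n : E 3) (c : ℝ), ContDiff ℝ ∞ (fun x : E 3 => Th K (⟪n, x⟫ + c)) :=
    fun K n c => (Th_smooth K).comp (((innerSL ℝ n).contDiff).add contDiff_const)
  have hTd : ∀ K, Differentiable ℝ (Th K) := fun K => (Th_smooth K).differentiable (by simp)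
  have hψks : ∀ k, ContDiff ℝ ∞ (ψk k) := fun k => ((hTs _ _ _).mul (hTs _ _ _)).mul hψ.1
  have htin : ∀ k, TIn (V ∩ S) (ψk k) := by
    intro k
    have hK : (0:ℝ) < (k:ℝ) + 1 := by positivity
    have hsub : tsupport (ψk k) ⊆ tsupport ψ ∩ ({x | 1 / ((k:ℝ) + 1) ≤ ⟪n1, x⟫ + c1} ∩
        {x | 1 / ((k:ℝ) + 1) ≤ ⟪n2, x⟫ + c2}) := by
      have b1 : IsClosed {x : E 3 | 1 / ((k:ℝ) + 1) ≤ ⟪n1, x⟫ + c1} :=
        isClosed_le continuous_const (by fun_prop)
      have b2 : IsClosed {x : E 3 | 1 / ((k:ℝ) + 1) ≤ ⟪n2, x⟫ + c2} :=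
        isClosed_le continuous_const (by fun_prop)
      apply closure_minimal _ ((isClosed_tsupport ψ).inter (b1.inter b2))
      intro x hx
      have hx' : ψk k x ≠ 0 := hx
      refine ⟨subset_tsupport ψ (right_ne_zero_of_mul hx'), ?_, ?_⟩
      · by_contra hc
        apply hx'
        have : Th ((k:ℝ) + 1) (⟪n1, x⟫ + c1) = 0 := by
          apply Th_zero
          have h3 : ⟪n1, x⟫ + c1 < 1 / ((k:ℝ) + 1) := not_le.1 hc
          rw [lt_div_iff₀ hK] at h3
          linarith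
        dsimp only [ψk]; rw [this]; ring
      · by_contra hc
        apply hx'
        have : Th ((k:ℝ) + 1) (⟪n2, x⟫ + c2) = 0 := by
          apply Th_zero
          have h3 : ⟪n2, x⟫ + c2 < 1 / ((k:ℝ) + 1) := not_le.1 hc
          rw [lt_div_iff₀ hK] at h3
          linarith
        dsimp only [ψk]; rw [this]; ring
    refine ⟨hψks k, ?_, ?_⟩
    · exact HasCompactSupport.mul_left (f := fun x => Th ((k:ℝ) + 1) (⟪n1, x⟫ + c1) *
        Th ((k:ℝ) + 1) (⟪n2, x⟫ + c2)) hψ.2.1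
    · intro x hx
      obtain ⟨a1, a2, a3⟩ := hsub hx
      have : (0:ℝ) < 1 / ((k:ℝ) + 1) := by positivity
      refine ⟨hψ.2.2 a1, ?_⟩
      rw [hS]
      exact ⟨lt_of_lt_of_le this a2, lt_of_lt_of_le this a3⟩
  have hgr : ∀ k x, gradient (ψk k) x =
      (Th ((k:ℝ) + 1) (⟪n1, x⟫ + c1) * Th ((k:ℝ) + 1) (⟪n2, x⟫ + c2)) • gradient ψ x +
      ψ x • ((Th ((k:ℝ) + 1) (⟪n1, x⟫ + c1) * deriv (Th ((k:ℝ) + 1)) (⟪n2, x⟫ + c2)) • n2 +
        (Th ((k:ℝ) + 1) (⟪n2, x⟫ + c2) * deriv (Th ((k:ℝ) + 1)) (⟪n1, x⟫ + c1)) • n1) := by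
    intro k x
    have d1 : DifferentiableAt ℝ (fun x : E 3 => Th ((k:ℝ) + 1) (⟪n1, x⟫ + c1)) x :=
      ((hTs _ _ _).differentiable (by simp)) x
    have d2 : DifferentiableAt ℝ (fun x : E 3 => Th ((k:ℝ) + 1) (⟪n2, x⟫ + c2)) x :=
      ((hTs _ _ _).differentiable (by simp)) x
    have d12 : DifferentiableAt ℝ (fun x : E 3 => Th ((k:ℝ) + 1) (⟪n1, x⟫ + c1) *
      Th ((k:ℝ) + 1) (⟪n2, x⟫ + c2)) x := d1.mul d2
    dsimp only [ψk]
    rw [gradient_mul d12 (hψ.tst.diff x), gradient_mul d1 d2, gradient_aff (hTd _),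
      gradient_aff (hTd _), smul_smul, smul_smul]
  -- the bound
  let b : E 3 → ℝ := fun x => ‖gradient ψ x‖ + (tsupport ψ).indicator (fun _ => L * (4 * C)) x
  have hb : MemLp b 2 volume := by
    refine (hψ.tst.memLp_grad 2).norm.add ?_
    exact memLp_indicator_const 2 (isClosed_tsupport ψ).measurableSet _
      (Or.inr hψ.2.1.isCompact.measure_lt_top.ne)
  have hbd : ∀ k x, ‖gradient (ψk k) x‖ ≤ b x := by
    intro k x
    have hK : (0:ℝ) < (k:ℝ) + 1 := by positivity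
    rw [hgr]
    have t1 := Th_nonneg ((k:ℝ) + 1) (⟪n1, x⟫ + c1)
    have t1' := Th_le_one ((k:ℝ) + 1) (⟪n1, x⟫ + c1)
    have t2 := Th_nonneg ((k:ℝ) + 1) (⟪n2, x⟫ + c2)
    have t2' := Th_le_one ((k:ℝ) + 1) (⟪n2, x⟫ + c2)
    have s1 := Th_deriv_mul hC0 hC hK (⟪n1, x⟫ + c1)
    have s2 := Th_deriv_mul hC0 hC hK (⟪n2, x⟫ + c2)
    have p1 := hlin n1 c1 h1 z1 x
    have p2 := hlin n2 c2 h2 z2 x
    have e1 : ‖(Th ((k:ℝ) + 1) (⟪n1, x⟫ + c1) * Th ((k:ℝ) + 1) (⟪n2, x⟫ + c2)) • gradient ψ x‖ ≤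
        ‖gradient ψ x‖ := by
      rw [norm_smul, Real.norm_eq_abs, abs_of_nonneg (mul_nonneg t1 t2)]
      exact mul_le_of_le_one_left (norm_nonneg _) (mul_le_one₀ t1' t2 t2')
    have q1 : |ψ x| * |deriv (Th ((k:ℝ) + 1)) (⟪n1, x⟫ + c1)| ≤ L * (2 * C) := by
      calc |ψ x| * |deriv (Th ((k:ℝ) + 1)) (⟪n1, x⟫ + c1)| ≤
          (L * |⟪n1, x⟫ + c1|) * |deriv (Th ((k:ℝ) + 1)) (⟪n1, x⟫ + c1)| := by gcongr
        _ = L * (|⟪n1, x⟫ + c1| * |deriv (Th ((k:ℝ) + 1)) (⟪n1, x⟫ + c1)|) := by ring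
        _ ≤ _ := by gcongr
    have q2 : |ψ x| * |deriv (Th ((k:ℝ) + 1)) (⟪n2, x⟫ + c2)| ≤ L * (2 * C) := by
      calc |ψ x| * |deriv (Th ((k:ℝ) + 1)) (⟪n2, x⟫ + c2)| ≤
          (L * |⟪n2, x⟫ + c2|) * |deriv (Th ((k:ℝ) + 1)) (⟪n2, x⟫ + c2)| := by gcongr
        _ = L * (|⟪n2, x⟫ + c2| * |deriv (Th ((k:ℝ) + 1)) (⟪n2, x⟫ + c2)|) := by ring
        _ ≤ _ := by gcongr
    have e2 : ‖ψ x • ((Th ((k:ℝ) + 1) (⟪n1, x⟫ + c1) *
        deriv (Th ((k:ℝ) + 1)) (⟪n2, x⟫ + c2)) • n2 +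
        (Th ((k:ℝ) + 1) (⟪n2, x⟫ + c2) * deriv (Th ((k:ℝ) + 1)) (⟪n1, x⟫ + c1)) • n1)‖ ≤
        (tsupport ψ).indicator (fun _ => L * (4 * C)) x := by
      by_cases hx : x ∈ tsupport ψ
      · rw [Set.indicator_of_mem hx, norm_smul]
        have e3 : ‖(Th ((k:ℝ) + 1) (⟪n1, x⟫ + c1) *
            deriv (Th ((k:ℝ) + 1)) (⟪n2, x⟫ + c2)) • n2 +
            (Th ((k:ℝ) + 1) (⟪n2, x⟫ + c2) * deriv (Th ((k:ℝ) + 1)) (⟪n1, x⟫ + c1)) • n1‖ ≤
            |deriv (Th ((k:ℝ) + 1)) (⟪n2, x⟫ + c2)| +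
              |deriv (Th ((k:ℝ) + 1)) (⟪n1, x⟫ + c1)| := by
          refine (norm_add_le _ _).trans ?_
          rw [norm_smul, norm_smul, h1, h2, mul_one, mul_one, Real.norm_eq_abs, Real.norm_eq_abs,
            abs_mul, abs_mul, abs_of_nonneg t1, abs_of_nonneg t2]
          exact add_le_add (mul_le_of_le_one_left (abs_nonneg _) t1')
            (mul_le_of_le_one_left (abs_nonneg _) t2')
        rw [Real.norm_eq_abs]
        calc |ψ x| * _ ≤ |ψ x| * (|deriv (Th ((k:ℝ) + 1)) (⟪n2, x⟫ + c2)| +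
              |deriv (Th ((k:ℝ) + 1)) (⟪n1, x⟫ + c1)|) := by gcongr
          _ ≤ L * (4 * C) := by rw [mul_add]; linarith
      · rw [image_eq_zero_of_notMem_tsupport hx, zero_smul, norm_zero,
          Set.indicator_of_notMem hx]
    exact (norm_add_le _ _).trans (add_le_add e1 e2)
  have hkt : Tendsto (fun k : ℕ => (k:ℝ) + 1) atTop atTop :=
    tendsto_atTop_add_const_right _ _ tendsto_natCast_atTop_atTop
  have hev : ∀ t : ℝ, 0 < t → ∀ᶠ k : ℕ in atTop, 2 < ((k:ℝ) + 1) * t := by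
    intro t ht
    filter_upwards [hkt.eventually (eventually_gt_atTop (2 / t))] with k hk
    rwa [div_lt_iff₀ ht] at hk
  have hzero : ∀ t : ℝ, t ≤ 0 → ∀ k : ℕ, ((k:ℝ) + 1) * t < 1 := by
    intro t ht k
    have : ((k:ℝ) + 1) * t ≤ 0 := mul_nonpos_of_nonneg_of_nonpos (by positivity) ht
    linarith
  -- pointwise limits
  have hlim1 : ∀ x, Tendsto (fun k => ψk k x) atTop (𝓝 (S.indicator ψ x)) := by
    intro x
    by_cases hx : x ∈ S
    · rw [Set.indicator_of_mem hx]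
      rw [hS] at hx
      refine tendsto_const_nhds.congr' ?_
      filter_upwards [hev _ hx.1, hev _ hx.2] with k a1 a2
      dsimp only [ψk]
      rw [Th_one a1.le, Th_one a2.le]; ring
    · rw [Set.indicator_of_notMem hx]
      rw [hS, Set.mem_setOf_eq, not_and_or, not_lt, not_lt] at hx
      refine tendsto_const_nhds.congr fun k => ?_
      dsimp only [ψk]
      rcases hx with hx | hx
      · rw [Th_zero (hzero _ hx k).le]; ring
      · rw [Th_zero (hzero _ hx k).le]; ring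
  have hlim2 : ∀ x, Tendsto (fun k => gradient (ψk k) x) atTop
      (𝓝 (S.indicator (gradient ψ) x)) := by
    intro x
    by_cases hx : x ∈ S
    · rw [Set.indicator_of_mem hx]
      rw [hS] at hx
      refine tendsto_const_nhds.congr' ?_
      filter_upwards [hev _ hx.1, hev _ hx.2] with k a1 a2
      rw [hgr, Th_one a1.le, Th_one a2.le, Th_deriv_zero (Or.inr a1), Th_deriv_zero (Or.inr a2)]
      simp
    · rw [Set.indicator_of_notMem hx]
      rw [hS, Set.mem_setOf_eq, not_and_or, not_lt, not_lt] at hx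
      refine tendsto_const_nhds.congr fun k => ?_
      rw [hgr]
      rcases hx with hx | hx
      · rw [Th_zero (hzero _ hx k).le, Th_deriv_zero (Or.inl (hzero _ hx k))]
        simp
      · rw [Th_zero (hzero _ hx k).le, Th_deriv_zero (Or.inl (hzero _ hx k))]
        simp
  have m1 : MemLp (S.indicator ψ) 2 volume := (hψ.tst.memLp 2).indicator hSm
  have m2 : MemLp (S.indicator (gradient ψ)) 2 volume := (hψ.tst.memLp_grad 2).indicator hSm
  refine h01_closed (fun k => (htin k).h01) m1 m2 ?_ ?_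
  · refine lTo_of_dominated (b := fun x => ‖ψ x‖) (fun k => ((htin k).tst.memLp 2).1)
      (hψ.tst.memLp 2).norm (fun k => Eventually.of_forall fun x => ?_)
      (Eventually.of_forall hlim1) m1
    dsimp only [ψk]
    rw [norm_mul, Real.norm_eq_abs, abs_of_nonneg (mul_nonneg (Th_nonneg _ _) (Th_nonneg _ _))]
    exact mul_le_of_le_one_left (norm_nonneg _)
      (mul_le_one₀ (Th_le_one _ _) (Th_nonneg _ _) (Th_le_one _ _))
  · exact lTo_of_dominated (b := b) (fun k => ((htin k).tst.memLp_grad 2).1) hb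
      (fun k => Eventually.of_forall (hbd k)) (Eventually.of_forall hlim2) m2

end Run7.h104
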