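import Pool.Agent.Run7.h104.Var2

/-! # The Euler-Lagrange equation -/

set_option autoImplicit false
set_option linter.unusedSectionVars false
set_option linter.unusedVariables false

open MeasureTheory Filter Topology
open scoped ContDiff ENNReal NNReal RealInnerProductSpace

namespace Run7.h104

open Pool.Agent.R217.BN (E cexp sobS H01)
open Pool.Agent.R217.HS
open Pool.Agent.R217.KM

lemma first_order {c : ℝ} {q : ℝ → ℝ} (hq : Continuous q)
    (h : ∀ t, 0 ≤ c * t + t ^ 2 * q t) : c = 0 := by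
  apply le_antisymm
  · have h1 : Tendsto (fun t : ℝ => t * q (-t)) (𝓝[>] 0) (𝓝 0) := by
      have h2 : Continuous fun t : ℝ => t * q (-t) := by fun_prop
      have h3 := (h2.tendsto 0).mono_left (nhdsWithin_le_nhds (s := Set.Ioi 0))
      simpa using h3
    refine ge_of_tendsto h1 ?_
    filter_upwards [self_mem_nhdsWithin] with t ht
    have ht' : 0 < t := ht
    have := h (-t)
    have h4 : 0 ≤ t * (t * q (-t) - c) := by nlinarith
    have := nonneg_of_mul_nonneg_right h4 ht'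
    linarith
  · have h1 : Tendsto (fun t : ℝ => c + t * q t) (𝓝[>] 0) (𝓝 c) := by
      have h2 : Continuous fun t : ℝ => c + t * q t := by fun_prop
      have h3 := (h2.tendsto 0).mono_left (nhdsWithin_le_nhds (s := Set.Ioi 0))
      simpa using h3
    refine ge_of_tendsto h1 ?_
    filter_upwards [self_mem_nhdsWithin] with t ht
    have ht' : 0 < t := ht
    have := h t
    have h4 : 0 ≤ t * (c + t * q t) := by nlinarith
    exact nonneg_of_mul_nonneg_right h4 ht'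

lemma mix_le (a b : ℝ) {j : ℕ} (hj : j ≤ 6) : |a ^ (6 - j) * b ^ j| ≤ a ^ 6 + b ^ 6 := by
  rw [abs_mul, abs_pow, abs_pow]
  have e1 : a ^ 6 = |a| ^ 6 := (Even.pow_abs (by decide) a).symm
  have e2 : b ^ 6 = |b| ^ 6 := (Even.pow_abs (by decide) b).symm
  rw [e1, e2]
  have ha := abs_nonneg a
  have hb := abs_nonneg b
  rcases le_total |a| |b| with h | h
  · calc |a| ^ (6 - j) * |b| ^ j ≤ |b| ^ (6 - j) * |b| ^ j := by gcongr
      _ = |b| ^ 6 := by rw [← pow_add]; congr 1; omega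
      _ ≤ _ := by have := pow_nonneg ha 6; linarith
  · calc |a| ^ (6 - j) * |b| ^ j ≤ |a| ^ (6 - j) * |a| ^ j := by gcongr
      _ = |a| ^ 6 := by rw [← pow_add]; congr 1; omega
      _ ≤ _ := by have := pow_nonneg hb 6; linarith

lemma int_mix {u φ : E 3 → ℝ} (hu : Integrable (fun x => u x ^ 6))
    (hφ : Integrable (fun x => φ x ^ 6)) (mu : AEStronglyMeasurable u volume)
    (mφ : AEStronglyMeasurable φ volume) {j : ℕ} (hj : j ≤ 6) :
    Integrable (fun x => u x ^ (6 - j) * φ x ^ j) := by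
  refine (hu.add hφ).mono' ((mu.pow _).mul (mφ.pow _)) (Eventually.of_forall fun x => ?_)
  exact mix_le _ _ hj

theorem varV {D : Set (E 3)} (hD : MeasurableSet D) (hb : Bornology.IsBounded D) {lam κ : ℝ}
    (hl : 0 ≤ lam) (hκ : lam < κ) (hP : PoI D κ) {w : E 3 → ℝ} {W : E 3 → E 3}
    (hw : H01 D w W) (hlow : (Ea lam w W) ^ 3 < SS ^ 3 * ∫ x, w x ^ 6) :
    ∃ (s : ℝ) (u : E 3 → ℝ) (G : E 3 → E 3), 0 < s ∧ H01 D u G ∧
      (∀ (v : E 3 → ℝ) (V : E 3 → E 3), H01 D v V → s * ∫ x, v x ^ 6 ≤ (Ea lam v V) ^ 3) ∧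
      WSol D lam u G ∧ 0 < ∫ x, u x ^ 6 ∧ (∫ x, u x ^ 6) ^ 2 = s ∧
      Ea lam u G = ∫ x, u x ^ 6 := by
  obtain ⟨s, u, G, hs0, hu, hlb, hu1, hE⟩ := minim hD hb hl hκ hP hw hlow
  obtain ⟨A, hA⟩ : ∃ A, A = Ea lam u G := ⟨_, rfl⟩
  have hA0 : 0 ≤ A := by rw [hA]; exact Ea_nonneg hl hκ hP hu
  rw [← hA] at hE
  have hAp : 0 < A := by
    rcases eq_or_lt_of_le hA0 with h | h
    · rw [← h] at hE; norm_num at hE; linarith
    · exact h
  have hu6 := (six_h01 hu).1
  -- the first variation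
  have EL : ∀ φ : E 3 → ℝ, TIn D φ →
      (∫ x, ⟪G x, gradient φ x⟫) - lam * (∫ x, u x * φ x) = A * ∫ x, u x ^ 5 * φ x := by
    intro φ hφ
    obtain ⟨B, hB⟩ : ∃ B, B = (∫ x, ⟪G x, gradient φ x⟫) - lam * ∫ x, u x * φ x := ⟨_, rfl⟩
    obtain ⟨C, hC⟩ : ∃ C, C = Ea lam φ (gradient φ) := ⟨_, rfl⟩
    have hφ6 := (six_h01 hφ.h01).1
    have mix := fun j (hj : j ≤ 6) => int_mix hu6 hφ6 hu.1.1 (hφ.tst.memLp 2).1 hj
    obtain ⟨J1, hJ1⟩ : ∃ J, J = ∫ x, u x ^ 5 * φ x := ⟨_, rfl⟩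
    obtain ⟨J2, hJ2⟩ : ∃ J, J = ∫ x, u x ^ 4 * φ x ^ 2 := ⟨_, rfl⟩
    obtain ⟨J3, hJ3⟩ : ∃ J, J = ∫ x, u x ^ 3 * φ x ^ 3 := ⟨_, rfl⟩
    obtain ⟨J4, hJ4⟩ : ∃ J, J = ∫ x, u x ^ 2 * φ x ^ 4 := ⟨_, rfl⟩
    obtain ⟨J5, hJ5⟩ : ∃ J, J = ∫ x, u x * φ x ^ 5 := ⟨_, rfl⟩
    obtain ⟨J6, hJ6⟩ : ∃ J, J = ∫ x, φ x ^ 6 := ⟨_, rfl⟩
    have m1 : Integrable (fun x => u x ^ 5 * φ x) := by simpa using mix 1 (by norm_num)
    have m2 : Integrable (fun x => u x ^ 4 * φ x ^ 2) := by simpa using mix 2 (by norm_num)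
    have m3 : Integrable (fun x => u x ^ 3 * φ x ^ 3) := by simpa using mix 3 (by norm_num)
    have m4 : Integrable (fun x => u x ^ 2 * φ x ^ 4) := by simpa using mix 4 (by norm_num)
    have m5 : Integrable (fun x => u x * φ x ^ 5) := by simpa using mix 5 (by norm_num)
    have key : ∀ t : ℝ, 0 ≤ (6 * A ^ 2 * B - 6 * s * J1) * t + t ^ 2 *
        (3 * A ^ 2 * C + 3 * A * (2 * B + t * C) ^ 2 + t * (2 * B + t * C) ^ 3 -
          s * (15 * J2 + t * (20 * J3) + t ^ 2 * (15 * J4) + t ^ 3 * (6 * J5) + t ^ 4 * J6)) := by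
      intro t
      have h := h01_add hu (h01_smul t hφ.h01)
      have h1 := hlb _ _ h
      have e1 : Ea lam (fun x => u x + t * φ x) (fun x => G x + t • gradient φ x) =
          A + 2 * t * B + t ^ 2 * C := by
        rw [hA, hB, hC]
        unfold Ea
        have j1 := integrable_sq hu.2.1
        have j2 := integrable_inner' hu.2.1 (hφ.tst.memLp_grad 2)
        have j3 := integrable_sq (hφ.tst.memLp_grad 2)
        have k1 := hu.1.integrable_sq
        have k2 := int_mul2 hu.1 (hφ.tst.memLp 2)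
        have k3 := (hφ.tst.memLp 2).integrable_sq
        have a1 : ∀ x, ‖G x + t • gradient φ x‖ ^ 2 = ‖G x‖ ^ 2 +
            2 * t * ⟪G x, gradient φ x⟫ + t ^ 2 * ‖gradient φ x‖ ^ 2 := by
          intro x
          rw [norm_add_sq_real, real_inner_smul_right, norm_smul, mul_pow, Real.norm_eq_abs,
            sq_abs]
          ring
        have a2 : ∀ x, (u x + t * φ x) ^ 2 = u x ^ 2 + 2 * t * (u x * φ x) + t ^ 2 * φ x ^ 2 :=
          fun x => by ring
        simp_rw [a1, a2]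
        have j12 : Integrable (fun x => ‖G x‖ ^ 2 + 2 * t * ⟪G x, gradient φ x⟫) :=
          j1.add (j2.const_mul _)
        have k12 : Integrable (fun x => u x ^ 2 + 2 * t * (u x * φ x)) := k1.add (k2.const_mul _)
        rw [integral_add j12 (j3.const_mul _), integral_add j1 (j2.const_mul _),
          integral_add k12 (k3.const_mul _), integral_add k1 (k2.const_mul _),
          integral_const_mul, integral_const_mul, integral_const_mul, integral_const_mul]
        ring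
      have e2 : ∫ x, (u x + t * φ x) ^ 6 = 1 + t * (6 * J1) + t ^ 2 * (15 * J2) +
          t ^ 3 * (20 * J3) + t ^ 4 * (15 * J4) + t ^ 5 * (6 * J5) + t ^ 6 * J6 := by
        have a1 : ∀ x, (u x + t * φ x) ^ 6 = u x ^ 6 + (6 * t) * (u x ^ 5 * φ x) +
            (15 * t ^ 2) * (u x ^ 4 * φ x ^ 2) + (20 * t ^ 3) * (u x ^ 3 * φ x ^ 3) +
            (15 * t ^ 4) * (u x ^ 2 * φ x ^ 4) + (6 * t ^ 5) * (u x * φ x ^ 5) +
            t ^ 6 * φ x ^ 6 := fun x => by ring
        simp_rw [a1]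
        have n1 : Integrable (fun x => u x ^ 6 + (6 * t) * (u x ^ 5 * φ x)) :=
          hu6.add (m1.const_mul _)
        have n2 : Integrable (fun x => u x ^ 6 + (6 * t) * (u x ^ 5 * φ x) +
            (15 * t ^ 2) * (u x ^ 4 * φ x ^ 2)) := n1.add (m2.const_mul _)
        have n3 : Integrable (fun x => u x ^ 6 + (6 * t) * (u x ^ 5 * φ x) +
            (15 * t ^ 2) * (u x ^ 4 * φ x ^ 2) + (20 * t ^ 3) * (u x ^ 3 * φ x ^ 3)) :=
          n2.add (m3.const_mul _)
        have n4 : Integrable (fun x => u x ^ 6 + (6 * t) * (u x ^ 5 * φ x) +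
            (15 * t ^ 2) * (u x ^ 4 * φ x ^ 2) + (20 * t ^ 3) * (u x ^ 3 * φ x ^ 3) +
            (15 * t ^ 4) * (u x ^ 2 * φ x ^ 4)) := n3.add (m4.const_mul _)
        have n5 : Integrable (fun x => u x ^ 6 + (6 * t) * (u x ^ 5 * φ x) +
            (15 * t ^ 2) * (u x ^ 4 * φ x ^ 2) + (20 * t ^ 3) * (u x ^ 3 * φ x ^ 3) +
            (15 * t ^ 4) * (u x ^ 2 * φ x ^ 4) + (6 * t ^ 5) * (u x * φ x ^ 5)) :=
          n4.add (m5.const_mul _)
        rw [integral_add n5 (hφ6.const_mul _), integral_add n4 (m5.const_mul _),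
          integral_add n3 (m4.const_mul _), integral_add n2 (m3.const_mul _),
          integral_add n1 (m2.const_mul _), integral_add hu6 (m1.const_mul _),
          integral_const_mul, integral_const_mul, integral_const_mul, integral_const_mul,
          integral_const_mul, integral_const_mul, hu1, ← hJ1, ← hJ2, ← hJ3, ← hJ4, ← hJ5, ← hJ6]
        ring
      rw [e1, e2] at h1
      have e3 : (A + 2 * t * B + t ^ 2 * C) ^ 3 = A ^ 3 + 6 * A ^ 2 * B * t +
          t ^ 2 * (3 * A ^ 2 * C + 3 * A * (2 * B + t * C) ^ 2 + t * (2 * B + t * C) ^ 3) := by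
        ring
      rw [e3, hE] at h1
      nlinarith
    have h0 := first_order (by fun_prop) key
    rw [← hB, ← hJ1]
    have h2 : A ^ 2 * B = A ^ 2 * (A * J1) := by
      rw [← hE] at h0
      linarith
    exact mul_left_cancel₀ (by positivity) h2
  obtain ⟨τ, hτ0, hτ4⟩ : ∃ τ : ℝ, 0 < τ ∧ τ ^ 4 = A := by
    refine ⟨Real.sqrt (Real.sqrt A), by positivity, ?_⟩
    rw [show (4:ℕ) = 2 * 2 by norm_num, pow_mul, Real.sq_sqrt (by positivity),
      Real.sq_sqrt hA0]
  refine ⟨s, fun x => τ * u x, fun x => τ • G x, hs0, h01_smul τ hu, hlb, ?_, ?_, ?_, ?_⟩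
  · intro φ hφ
    have h1 := EL φ hφ
    have m1 : Integrable (fun x => u x ^ 5 * φ x) := by
      have := int_mix hu6 (six_h01 hφ.h01).1 hu.1.1 (hφ.tst.memLp 2).1 (j := 1) (by norm_num)
      simpa using this
    have m2 := int_mul2 hu.1 (hφ.tst.memLp 2)
    have e1 : ∫ x, ⟪τ • G x, gradient φ x⟫ = τ * ∫ x, ⟪G x, gradient φ x⟫ := by
      rw [← integral_const_mul]; congr 1; funext x; rw [real_inner_smul_left]
    have e2 : ∫ x, ((τ * u x) ^ 5 + lam * (τ * u x)) * φ x =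
        τ ^ 5 * (∫ x, u x ^ 5 * φ x) + lam * τ * ∫ x, u x * φ x := by
      rw [← integral_const_mul, ← integral_const_mul,
        ← integral_add (m1.const_mul _) (m2.const_mul _)]
      congr 1; funext x; ring
    rw [e1, e2]
    rw [← hτ4] at h1
    have h3 : ∫ x, ⟪G x, gradient φ x⟫ = τ ^ 4 * (∫ x, u x ^ 5 * φ x) +
      lam * ∫ x, u x * φ x := by linarith
    rw [h3]; ring
  · rw [six_smul, hu1]; positivity
  · rw [six_smul, hu1, ← hE, ← hτ4]; ring
  · rw [six_smul, Ea_smul, hu1, ← hA, ← hτ4]; ring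

end Run7.h104
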