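import Pool.Agent.Run7.h104.Geo2
import Pool.Agent.Run7.h104.Var3

/-! # Odd extension -/

set_option autoImplicit false
set_option linter.unusedSectionVars false
set_option linter.unusedVariables false

open MeasureTheory Filter Topology
open scoped ContDiff ENNReal NNReal RealInnerProductSpace

namespace Run7.h104

open Pool.Agent.R217.BN (E cexp sobS H01)
open Pool.Agent.R217.HS
open Pool.Agent.R217.KM

lemma TIn.zero {Ω : Set (E 3)} : TIn Ω (fun _ => (0:ℝ)) := by
  refine ⟨contDiff_const, HasCompactSupport.zero, ?_⟩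
  have : tsupport (fun _ : E 3 => (0:ℝ)) = ∅ := by
    rw [tsupport_eq_empty_iff]; rfl
  rw [this]; exact Set.empty_subset _

lemma h01_zero_fn {Ω : Set (E 3)} : H01 Ω (fun _ => (0:ℝ)) (fun _ => (0 : E 3)) := by
  have h := (TIn.zero (Ω := Ω)).h01
  refine h01_congr h (Eventually.of_forall fun _ => rfl) (Eventually.of_forall fun x => ?_)
  show gradient (fun _ => (0:ℝ)) x = 0
  unfold gradient; simp

lemma h01_sum {Ω : Set (E 3)} {ι : Type*} (s : Finset ι) {u : ι → E 3 → ℝ}
    {G : ι → E 3 → E 3} (h : ∀ i ∈ s, H01 Ω (u i) (G i)) :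
    H01 Ω (fun x => ∑ i ∈ s, u i x) (fun x => ∑ i ∈ s, G i x) := by
  classical
  induction s using Finset.induction_on with
  | empty => simpa using h01_zero_fn
  | insert a s ha ih =>
    simp only [Finset.sum_insert ha]
    exact h01_add (h a (Finset.mem_insert_self _ _))
      (ih fun i hi => h i (Finset.mem_insert_of_mem hi))

lemma TIn.sum {Ω : Set (E 3)} {ι : Type*} (s : Finset ι) {φ : ι → E 3 → ℝ}
    (h : ∀ i ∈ s, TIn Ω (φ i)) : TIn Ω (fun x => ∑ i ∈ s, φ i x) := by
  classical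
  induction s using Finset.induction_on with
  | empty => simpa using TIn.zero
  | insert a s ha ih =>
    simp only [Finset.sum_insert ha]
    exact (h a (Finset.mem_insert_self _ _)).add
      (ih fun i hi => h i (Finset.mem_insert_of_mem hi))

lemma TIn.sub' {Ω : Set (E 3)} {φ ψ : E 3 → ℝ} (h : TIn Ω φ) (h' : TIn Ω ψ) :
    TIn Ω (fun x => φ x - ψ x) := by
  have := h.add (h'.smul (-1))
  have e : (fun x => φ x - ψ x) = fun x => φ x + -1 * ψ x := by
    funext x; ring
  rw [e]; exact this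

lemma pow_single {ι : Type*} (s : Finset ι) (f : ι → ℝ)
    (h : ∀ i ∈ s, ∀ j ∈ s, f i ≠ 0 → f j ≠ 0 → i = j) {n : ℕ} (hn : n ≠ 0) :
    (∑ i ∈ s, f i) ^ n = ∑ i ∈ s, f i ^ n := by
  by_cases hc : ∃ i ∈ s, f i ≠ 0
  · obtain ⟨i, hi, hfi⟩ := hc
    have h1 : ∀ j ∈ s, j ≠ i → f j = 0 := by
      intro j hj hji
      by_contra hfj
      exact hji (h j hj i hi hfj hfi)
    rw [Finset.sum_eq_single_of_mem i hi h1,
      Finset.sum_eq_single_of_mem i hi fun j hj hji => by rw [h1 j hj hji, zero_pow hn]]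
  · push Not at hc
    rw [Finset.sum_eq_zero hc, zero_pow hn]
    exact (Finset.sum_eq_zero fun i hi => by rw [hc i hi, zero_pow hn]).symm

lemma sum_periodic {f : ℤ → ℝ} {k : ℕ} (hk : 1 ≤ k) (hf : ∀ j, f (j + k) = f j) :
    ∑ j ∈ Finset.range k, f (-(j:ℤ)) = ∑ j ∈ Finset.range k, f (j:ℤ) := by
  have h1 := Finset.sum_range_reflect (fun i => f ((i:ℤ) + 1)) k
  have h2 : ∑ j ∈ Finset.range k, f (((k - 1 - j : ℕ) : ℤ) + 1) =
      ∑ j ∈ Finset.range k, f (-(j:ℤ)) := by
    apply Finset.sum_congr rfl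
    intro j hj
    rw [Finset.mem_range] at hj
    rw [← hf (-(j:ℤ))]
    congr 1
    omega
  have h3 := Finset.sum_range_succ (fun i : ℕ => f (i:ℤ)) k
  have h4 := Finset.sum_range_succ' (fun i : ℕ => f (i:ℤ)) k
  have h5 : f ((k:ℕ):ℤ) = f 0 := by
    have := hf 0
    rwa [zero_add] at this
  rw [← h2]
  rw [h1]
  push_cast at h4 h3
  have h6 : f ((0:ℕ):ℤ) = f 0 := by norm_num
  linarith

lemma int_sum_sub {k : ℕ} {f g : ℕ → E 3 → ℝ} (hf : ∀ j, Integrable (f j))
    (hg : ∀ j, Integrable (g j)) : ∫ x, ∑ j ∈ Finset.range k, (f j x - g j x) =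
      ∑ j ∈ Finset.range k, ((∫ x, f j x) - ∫ x, g j x) := by
  have h1 : ∀ j ∈ Finset.range k, Integrable (fun x => f j x - g j x) :=
    fun j _ => (hf j).sub (hg j)
  rw [integral_finsetSum _ h1]
  exact Finset.sum_congr rfl fun j _ => integral_sub (hf j) (hg j)

lemma int_sum_add {k : ℕ} {f g : ℕ → E 3 → ℝ} (hf : ∀ j, Integrable (f j))
    (hg : ∀ j, Integrable (g j)) : ∫ x, ∑ j ∈ Finset.range k, (f j x + g j x) =
      ∑ j ∈ Finset.range k, ((∫ x, f j x) + ∫ x, g j x) := by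
  have h1 : ∀ j ∈ Finset.range k, Integrable (fun x => f j x + g j x) :=
    fun j _ => (hf j).add (hg j)
  rw [integral_finsetSum _ h1]
  exact Finset.sum_congr rfl fun j _ => integral_add (hf j) (hg j)

/-- gradient of a test function composed with an isometry, tested against `G` -/
lemma int_iso_grad (A : E 3 ≃ₗᵢ[ℝ] E 3) (G : E 3 → E 3) {φ : E 3 → ℝ} (hφ : Tst φ) :
    ∫ x, ⟪A.symm (G (A x)), gradient φ x⟫ =
      ∫ x, ⟪G x, gradient (fun y => φ (A.symm y)) x⟫ := by
  have h1 := int_iso A (fun x => ⟪G x, gradient (fun y => φ (A.symm y)) x⟫)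
  rw [← h1]
  congr 1
  funext x
  rw [gradient_iso A.symm (hφ.diff _)]
  simp only [LinearIsometryEquiv.symm_symm, LinearIsometryEquiv.symm_apply_apply]
  rw [← LinearIsometryEquiv.inner_map_map A (A.symm (G (A x))) (gradient φ x)]
  simp

/-- normal vectors of the wedge -/
noncomputable def nv1 : E 3 := EuclideanSpace.single 1 1
noncomputable def nv2 (α : ℝ) : E 3 := !₂[Real.sin α, -Real.cos α, 0]

lemma nv1_norm : ‖nv1‖ = 1 := by unfold nv1; simp

lemma nv2_norm (α : ℝ) : ‖nv2 α‖ = 1 := by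
  have h : ‖nv2 α‖ ^ 2 = 1 := by
    rw [norm3]; unfold nv2; simp
  have h0 := norm_nonneg (nv2 α)
  nlinarith

lemma inner3 (x y : E 3) : ⟪x, y⟫ = x 0 * y 0 + x 1 * y 1 + x 2 * y 2 := by
  rw [PiLp.inner_apply, Fin.sum_univ_three]
  simp [mul_comm]

lemma nv1_inner (x : E 3) : ⟪nv1, x⟫ + 0 = x 1 := by
  rw [inner3]; unfold nv1; simp

lemma nv2_inner (α : ℝ) (x : E 3) : ⟪nv2 α, x⟫ + 0 = x 0 * Real.sin α - x 1 * Real.cos α := by
  rw [inner3]; unfold nv2; simp; ring

lemma Wd_eq (α : ℝ) : Wd α = {x | 0 < ⟪nv1, x⟫ + 0 ∧ 0 < ⟪nv2 α, x⟫ + 0} := by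
  ext x
  rw [Set.mem_setOf_eq, nv1_inner, nv2_inner]
  rfl

theorem odd_ext {Ω : Set (E 3)} (hO : IsOpen Ω) (hrot : ∀ θ x, x ∈ Ω → rot θ x ∈ Ω)
    (hror : ∀ θ x, x ∈ Ω → ror θ x ∈ Ω) {k : ℕ} (hk : 1 ≤ k) {lam : ℝ} {u0 : E 3 → ℝ}
    {G0 : E 3 → E 3} (h0 : H01 (Ω ∩ Wd (Real.pi / k)) u0 G0)
    (hw0 : WSol (Ω ∩ Wd (Real.pi / k)) lam u0 G0) :
    ∃ (v : E 3 → ℝ) (V : E 3 → E 3), H01 Ω v V ∧ WSol Ω lam v V ∧
      ∫ x, v x ^ 6 = 2 * k * ∫ x, u0 x ^ 6 ∧ ∀ x, v (ror 0 x) = -v x := by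
  have hk0 : (0:ℝ) < k := by exact_mod_cast hk
  obtain ⟨α, hα⟩ : ∃ α, α = Real.pi / k := ⟨_, rfl⟩
  rw [← hα] at h0 hw0
  have hαk : α * k = Real.pi := by rw [hα]; field_simp
  obtain ⟨D, hD⟩ : ∃ D, D = Ω ∩ Wd α := ⟨_, rfl⟩
  rw [← hD] at h0 hw0
  have hDm : MeasurableSet D := by rw [hD]; exact (hO.inter (Wd_open α)).measurableSet
  obtain ⟨u, hu⟩ : ∃ u, u = D.indicator u0 := ⟨_, rfl⟩
  obtain ⟨G, hG⟩ : ∃ G, G = D.indicator G0 := ⟨_, rfl⟩
  obtain ⟨z1, z2⟩ := h01_zero hDm h0
  have euu : u0 =ᵐ[volume] u := by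
    filter_upwards [z1] with x hx
    rw [hu]
    by_cases hxD : x ∈ D
    · rw [Set.indicator_of_mem hxD]
    · rw [Set.indicator_of_notMem hxD, hx hxD]
  have eGG : G0 =ᵐ[volume] G := by
    filter_upwards [z2] with x hx
    rw [hG]
    by_cases hxD : x ∈ D
    · rw [Set.indicator_of_mem hxD]
    · rw [Set.indicator_of_notMem hxD, hx hxD]
  have h : H01 D u G := h01_congr h0 euu eGG
  have hw : WSol D lam u G := by
    intro φ hφ
    have a1 : ∫ x, ⟪G x, gradient φ x⟫ = ∫ x, ⟪G0 x, gradient φ x⟫ := by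
      apply integral_congr_ae
      filter_upwards [eGG] with x hx
      rw [hx]
    have a2 : ∫ x, (u x ^ 5 + lam * u x) * φ x = ∫ x, (u0 x ^ 5 + lam * u0 x) * φ x := by
      apply integral_congr_ae
      filter_upwards [euu] with x hx
      rw [hx]
    rw [a1, a2]; exact hw0 φ hφ
  have hu6 := (six_h01 h).1
  have hint : ∫ x, u0 x ^ 6 = ∫ x, u x ^ 6 := by
    apply integral_congr_ae
    filter_upwards [euu] with x hx
    rw [hx]
  rw [hint]
  have hud : ∀ x, u x ≠ 0 → x ∈ Wd α := by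
    intro x hx
    by_contra hc
    apply hx
    rw [hu]
    apply Set.indicator_of_notMem
    rw [hD]
    exact fun h => hc h.2
  have hGd : ∀ x, x ∉ Wd α → G x = 0 := by
    intro x hx
    rw [hG]
    apply Set.indicator_of_notMem
    rw [hD]
    exact fun h => hx h.2
  -- the isometries
  let P : ℤ → E 3 ≃ₗᵢ[ℝ] E 3 := fun j => rot (-(2 * α * j))
  let N : ℤ → E 3 ≃ₗᵢ[ℝ] E 3 := fun j => ror (2 * α * j)
  have hPs : ∀ j, (P j).symm = rot (2 * α * j) := by
    intro j; rw [rot_symm, neg_neg]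
  have hNs : ∀ j, (N j).symm = N j := fun j => ror_symm _
  have hPD : ∀ j, (P j) ⁻¹' D ⊆ Ω := by
    intro j x hx
    rw [Set.mem_preimage, hD] at hx
    have h1 := hrot (2 * α * j) _ hx.1
    rw [← hPs j, LinearIsometryEquiv.symm_apply_apply] at h1
    exact h1
  have hND : ∀ j, (N j) ⁻¹' D ⊆ Ω := by
    intro j x hx
    rw [Set.mem_preimage, hD] at hx
    have h1 := hror (2 * α * j) _ hx.1
    rw [ror_ror, sub_self, rot_zero] at h1
    exact h1
  have hP := fun j => h01_mono (hPD j) (h01_iso (P j) h)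
  have hN := fun j => h01_mono (hND j) (h01_iso (N j) h)
  -- disjointness
  have dPP : ∀ (i j : ℤ) x, u (P i x) ≠ 0 → u (P j x) ≠ 0 → ∃ m : ℤ, i - j = m * k := by
    intro i j x hi hj
    have h1 := hud _ hi
    have h2 := hud _ hj
    have e : P j x = rot (2 * (Real.pi / k) * ((i - j : ℤ) : ℝ)) (P i x) := by
      show rot _ x = rot _ (rot _ x)
      rw [rot_rot, ← hα]
      push_cast
      congr 1
      ring_nf
    rw [e] at h2
    rw [hα] at h1 h2
    exact Wd_rot hk h1 h2
  have dPN : ∀ (i j : ℤ) x, u (P i x) ≠ 0 → u (N j x) ≠ 0 → False := by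
    intro i j x hi hj
    have h1 := hud _ hi
    have h2 := hud _ hj
    have e : N j x = ror (2 * (Real.pi / k) * ((j - i : ℤ) : ℝ)) (P i x) := by
      show ror _ x = ror _ (rot _ x)
      rw [ror_rot, ← hα]
      push_cast
      congr 1
      ring_nf
    rw [e] at h2
    rw [hα] at h1 h2
    exact Wd_ror hk h1 h2
  have dNN : ∀ (i j : ℤ) x, u (N i x) ≠ 0 → u (N j x) ≠ 0 → ∃ m : ℤ, j - i = m * k := by
    intro i j x hi hj
    have h1 := hud _ hi
    have h2 := hud _ hj
    have e : N j x = rot (2 * (Real.pi / k) * ((j - i : ℤ) : ℝ)) (N i x) := by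
      show ror _ x = rot _ (ror _ x)
      rw [rot_ror, ← hα]
      push_cast
      congr 1
      ring_nf
    rw [e] at h2
    rw [hα] at h1 h2
    exact Wd_rot hk h1 h2
  let c : ℕ → E 3 → ℝ := fun j x => u (P j x) - u (N j x)
  have csingle : ∀ x, ∀ i ∈ Finset.range k, ∀ j ∈ Finset.range k, c i x ≠ 0 → c j x ≠ 0 →
      i = j := by
    intro x i hi j hj hci hcj
    rw [Finset.mem_range] at hi hj
    have a1 : u (P i x) ≠ 0 ∨ u (N i x) ≠ 0 := by
      by_contra hc
      push Not at hc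
      exact hci (by dsimp only [c]; rw [hc.1, hc.2, sub_zero])
    have a2 : u (P j x) ≠ 0 ∨ u (N j x) ≠ 0 := by
      by_contra hc
      push Not at hc
      exact hcj (by dsimp only [c]; rw [hc.1, hc.2, sub_zero])
    have fin : (∃ m : ℤ, (i:ℤ) - j = m * k) → i = j := by
      rintro ⟨m, hm⟩
      have b1 : -(k:ℤ) < m * k := by omega
      have b2 : m * (k:ℤ) < k := by omega
      have hkz : (0:ℤ) < k := by exact_mod_cast hk
      have b3 : -1 < m := by
        by_contra hc
        have : m ≤ -1 := by omega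
        nlinarith
      have b4 : m < 1 := by
        by_contra hc
        have : 1 ≤ m := by omega
        nlinarith
      have : m = 0 := by omega
      rw [this] at hm
      omega
    rcases a1 with a1 | a1 <;> rcases a2 with a2 | a2
    · exact fin (dPP i j x a1 a2)
    · exact (dPN i j x a1 a2).elim
    · exact (dPN j i x a2 a1).elim
    · obtain ⟨m, hm⟩ := dNN i j x a1 a2
      exact fin ⟨-m, by rw [neg_mul, ← hm]; ring⟩
  have cprod : ∀ (j : ℕ) x, u (P j x) * u (N j x) = 0 := by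
    intro j x
    by_contra hc
    exact dPN j j x (left_ne_zero_of_mul hc) (right_ne_zero_of_mul hc)
  have c5 : ∀ (j : ℕ) x, c j x ^ 5 = u (P j x) ^ 5 - u (N j x) ^ 5 := by
    intro j x
    rcases mul_eq_zero.1 (cprod j x) with h1 | h1
    · dsimp only [c]; rw [h1]; ring
    · dsimp only [c]; rw [h1]; ring
  have c6 : ∀ (j : ℕ) x, c j x ^ 6 = u (P j x) ^ 6 + u (N j x) ^ 6 := by
    intro j x
    rcases mul_eq_zero.1 (cprod j x) with h1 | h1
    · dsimp only [c]; rw [h1]; ring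
    · dsimp only [c]; rw [h1]; ring
  have int6P : ∀ j : ℤ, Integrable (fun x => u (P j x) ^ 6) := fun j => (six_h01 (hP j)).1
  have int6N : ∀ j : ℤ, Integrable (fun x => u (N j x) ^ 6) := fun j => (six_h01 (hN j)).1
  refine ⟨fun x => ∑ j ∈ Finset.range k, c j x,
    fun x => ∑ j ∈ Finset.range k, ((P j).symm (G (P j x)) - (N j).symm (G (N j x))),
    h01_sum _ fun j _ => h01_sub (hP j) (hN j), ?_, ?_, ?_⟩
  · -- the weak equation
    intro φ hφ
    have hφ6 := (six_h01 hφ.h01).1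
    let ψ : E 3 → ℝ := fun y => ∑ j ∈ Finset.range k, (φ (rot (2 * α * (j:ℤ)) y) -
      φ (ror (2 * α * (j:ℤ)) y))
    have tP : ∀ j : ℕ, TIn Ω (fun y => φ (rot (2 * α * (j:ℤ)) y)) := by
      intro j
      refine (hφ.iso (rot (2 * α * (j:ℤ)))).mono ?_
      intro x hx
      have h1 := hrot (-(2 * α * (j:ℤ))) _ hx
      rw [rot_rot, neg_add_cancel, rot_zero] at h1
      exact h1
    have tN : ∀ j : ℕ, TIn Ω (fun y => φ (ror (2 * α * (j:ℤ)) y)) := by
      intro j
      refine (hφ.iso (ror (2 * α * (j:ℤ)))).mono ?_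
      intro x hx
      have h1 := hror (2 * α * (j:ℤ)) _ hx
      rw [ror_ror, sub_self, rot_zero] at h1
      exact h1
    have tψ : TIn Ω ψ := TIn.sum _ fun j _ => (tP j).sub' (tN j)
    -- `ψ` vanishes on the two planes
    have hz1 : ∀ x, ⟪nv1, x⟫ + 0 = 0 → ψ x = 0 := by
      intro x hx
      rw [nv1_inner] at hx
      apply Finset.sum_eq_zero
      intro j _
      have : rot (2 * α * (j:ℤ)) x = ror (2 * α * (j:ℤ)) x := by
        apply ext3 <;> simp [hx]
      rw [this, sub_self]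
    have hz2 : ∀ x, ⟪nv2 α, x⟫ + 0 = 0 → ψ x = 0 := by
      intro x hx
      rw [nv2_inner] at hx
      have hc := Real.cos_sq_add_sin_sq α
      obtain ⟨r, hr⟩ : ∃ r, r = x 0 * Real.cos α + x 1 * Real.sin α := ⟨_, rfl⟩
      have f0 : x 0 = r * Real.cos α := by
        rw [hr]
        linear_combination (-(x 0)) * hc + Real.sin α * hx
      have f1 : x 1 = r * Real.sin α := by
        rw [hr]
        linear_combination (-(x 1)) * hc - Real.cos α * hx
      have e1 : ∀ j : ℕ, ror (2 * α * (j:ℤ)) x = rot (2 * α * ((((j + 1 : ℕ) : ℤ) : ℝ) - 2)) x := by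
        intro j
        have e2 : (2 * α * ((((j + 1 : ℕ) : ℤ) : ℝ) - 2) : ℝ) = 2 * α * (j:ℤ) - 2 * α := by
          push_cast; ring
        rw [e2]
        apply ext3
        · rw [ror0, rot0, f0, f1]
          have a1 : Real.cos (2 * α * (j:ℤ) - α) = Real.cos ((2 * α * (j:ℤ) - 2 * α) + α) := by
            congr 1; ring
          rw [Real.cos_sub, Real.cos_add] at a1
          linear_combination r * a1
        · rw [ror1, rot1, f0, f1]
          have a1 : Real.sin (2 * α * (j:ℤ) - α) = Real.sin ((2 * α * (j:ℤ) - 2 * α) + α) := by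
            congr 1; ring
          rw [Real.sin_sub, Real.sin_add] at a1
          linear_combination r * a1
        · simp
      have e3 : ψ x = ∑ j ∈ Finset.range k, (φ (rot (2 * α * ((((j + 1 : ℕ) : ℤ) : ℝ) - 1)) x) -
          φ (rot (2 * α * ((((j + 1 : ℕ) : ℤ) : ℝ) - 2)) x)) := by
        apply Finset.sum_congr rfl
        intro j _
        rw [e1 j]
        congr 3
        push_cast
        ring_nf
      have e4 : ∀ j : ℕ, (2 * α * ((((j + 1 : ℕ) : ℤ) : ℝ) - 2)) = 2 * α * (((j : ℤ) : ℝ) - 1) := by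
        intro j; push_cast; ring
      simp only [e4] at e3
      rw [e3, Finset.sum_range_sub (fun j : ℕ => φ (rot (2 * α * (((j : ℤ) : ℝ) - 1)) x)) k]
      have e5 : (2 * α * ((((k : ℕ) : ℤ) : ℝ) - 1)) = 2 * α * ((((0 : ℕ) : ℤ) : ℝ) - 1) +
          2 * Real.pi := by
        rw [← hαk]; push_cast; ring
      rw [e5, rot_two_pi, sub_self]
    have hcut := half_cut tψ nv1_norm (nv2_norm α) hz1 hz2
    rw [← Wd_eq, ← hD] at hcut
    have hext := (hw.ext h.2.1 h.1 hu6 hcut).2
    -- integrability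
    have hF : ∀ φ' : E 3 → ℝ, TIn Ω φ' → Integrable (fun x => (u x ^ 5 + lam * u x) * φ' x) := by
      intro φ' hφ'
      have m1 := int_mix hu6 (six_h01 hφ'.h01).1 h.1.1 (hφ'.tst.memLp 2).1 (j := 1) (by norm_num)
      have m2 := (int_mul2 h.1 (hφ'.tst.memLp 2)).const_mul lam
      refine (m1.add m2).congr (Eventually.of_forall fun x => ?_)
      simp only [Pi.add_apply]
      norm_num
      ring
    have eP : ∀ j : ℕ, ∫ x, ⟪(P j).symm (G (P j x)), gradient φ x⟫ =
        ∫ x, ⟪G x, gradient (fun y => φ (rot (2 * α * (j:ℤ)) y)) x⟫ := by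
      intro j
      rw [int_iso_grad (P j) G hφ.tst, hPs]
    have eN : ∀ j : ℕ, ∫ x, ⟪(N j).symm (G (N j x)), gradient φ x⟫ =
        ∫ x, ⟪G x, gradient (fun y => φ (ror (2 * α * (j:ℤ)) y)) x⟫ := by
      intro j
      rw [int_iso_grad (N j) G hφ.tst, hNs]
    have gψ : ∀ x, gradient ψ x = ∑ j ∈ Finset.range k,
        (gradient (fun y => φ (rot (2 * α * (j:ℤ)) y)) x -
          gradient (fun y => φ (ror (2 * α * (j:ℤ)) y)) x) := by
      intro x
      unfold gradient
      have h1 : fderiv ℝ ψ x = ∑ j ∈ Finset.range k,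
          (fderiv ℝ (fun y => φ (rot (2 * α * (j:ℤ)) y)) x -
            fderiv ℝ (fun y => φ (ror (2 * α * (j:ℤ)) y)) x) := by
        have h2 : HasFDerivAt ψ (∑ j ∈ Finset.range k,
          (fderiv ℝ (fun y => φ (rot (2 * α * (j:ℤ)) y)) x -
            fderiv ℝ (fun y => φ (ror (2 * α * (j:ℤ)) y)) x)) x :=
          HasFDerivAt.fun_sum fun j _ =>
            ((tP j).tst.diff x).hasFDerivAt.sub ((tN j).tst.diff x).hasFDerivAt
        exact h2.fderiv
      rw [h1, map_sum]
      apply Finset.sum_congr rfl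
      intro j _
      rw [map_sub]
    have iP : ∀ j : ℕ, Integrable (fun x => ⟪(P j).symm (G (P j x)), gradient φ x⟫) := fun j =>
      integrable_inner' (hP j).2.1 (hφ.tst.memLp_grad 2)
    have iN : ∀ j : ℕ, Integrable (fun x => ⟪(N j).symm (G (N j x)), gradient φ x⟫) := fun j =>
      integrable_inner' (hN j).2.1 (hφ.tst.memLp_grad 2)
    have jP : ∀ j : ℕ, Integrable (fun x => ⟪G x, gradient (fun y => φ (rot (2 * α * (j:ℤ)) y)) x⟫) :=
      fun j => integrable_inner' h.2.1 ((tP j).tst.memLp_grad 2)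
    have jN : ∀ j : ℕ, Integrable (fun x => ⟪G x, gradient (fun y => φ (ror (2 * α * (j:ℤ)) y)) x⟫) :=
      fun j => integrable_inner' h.2.1 ((tN j).tst.memLp_grad 2)
    have E1 : ∫ x, ⟪∑ j ∈ Finset.range k, ((P j).symm (G (P j x)) - (N j).symm (G (N j x))),
        gradient φ x⟫ = ∫ x, ⟪G x, gradient ψ x⟫ := by
      have a1 : ∀ x, ⟪∑ j ∈ Finset.range k, ((P j).symm (G (P j x)) - (N j).symm (G (N j x))),
          gradient φ x⟫ = ∑ j ∈ Finset.range k, (⟪(P j).symm (G (P j x)), gradient φ x⟫ -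
            ⟪(N j).symm (G (N j x)), gradient φ x⟫) := by
        intro x
        rw [sum_inner]
        exact Finset.sum_congr rfl fun j _ => by rw [inner_sub_left]
      have a2 : ∀ x, ⟪G x, gradient ψ x⟫ = ∑ j ∈ Finset.range k,
          (⟪G x, gradient (fun y => φ (rot (2 * α * (j:ℤ)) y)) x⟫ -
            ⟪G x, gradient (fun y => φ (ror (2 * α * (j:ℤ)) y)) x⟫) := by
        intro x
        rw [gψ, inner_sum]
        exact Finset.sum_congr rfl fun j _ => by rw [inner_sub_right]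
      simp_rw [a1, a2]
      rw [int_sum_sub iP iN, int_sum_sub jP jN]
      apply Finset.sum_congr rfl
      intro j _
      rw [eP, eN]
    have E2 : ∫ x, ⟪G x, gradient ψ x⟫ = ∫ x, ⟪G x, (Wd α).indicator (gradient ψ) x⟫ := by
      congr 1; funext x
      by_cases hx : x ∈ Wd α
      · rw [Set.indicator_of_mem hx]
      · rw [hGd x hx, inner_zero_left, inner_zero_left]
    have E3 : ∫ x, (u x ^ 5 + lam * u x) * (Wd α).indicator ψ x =
        ∫ x, (u x ^ 5 + lam * u x) * ψ x := by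
      congr 1; funext x
      by_cases hx : x ∈ Wd α
      · rw [Set.indicator_of_mem hx]
      · have : u x = 0 := by
          by_contra hc
          exact hx (hud x hc)
        rw [this]; ring
    have fP : ∀ j : ℕ, ∫ x, (u x ^ 5 + lam * u x) * φ (rot (2 * α * (j:ℤ)) x) =
        ∫ x, (u (P j x) ^ 5 + lam * u (P j x)) * φ x := by
      intro j
      have := int_iso (P j) (fun y => (u y ^ 5 + lam * u y) * φ (rot (2 * α * (j:ℤ)) y))
      rw [← this]
      congr 1; funext x
      have e : rot (2 * α * (j:ℤ)) (P j x) = x := by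
        show rot _ (rot _ x) = x
        rw [rot_rot, add_neg_cancel, rot_zero]
      rw [e]
    have fN : ∀ j : ℕ, ∫ x, (u x ^ 5 + lam * u x) * φ (ror (2 * α * (j:ℤ)) x) =
        ∫ x, (u (N j x) ^ 5 + lam * u (N j x)) * φ x := by
      intro j
      have := int_iso (N j) (fun y => (u y ^ 5 + lam * u y) * φ (ror (2 * α * (j:ℤ)) y))
      rw [← this]
      congr 1; funext x
      have e : ror (2 * α * (j:ℤ)) (N j x) = x := by
        show ror _ (ror _ x) = x
        rw [ror_ror, sub_self, rot_zero]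
      rw [e]
    have gP : ∀ j : ℕ, Integrable (fun x => (u (P j x) ^ 5 + lam * u (P j x)) * φ x) := by
      intro j
      have m1 := int_mix (int6P j) hφ6 (hP j).1.1 (hφ.tst.memLp 2).1 (j := 1) (by norm_num)
      have m2 := (int_mul2 (hP j).1 (hφ.tst.memLp 2)).const_mul lam
      refine (m1.add m2).congr (Eventually.of_forall fun x => ?_)
      simp only [Pi.add_apply]
      norm_num
      ring
    have gN : ∀ j : ℕ, Integrable (fun x => (u (N j x) ^ 5 + lam * u (N j x)) * φ x) := by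
      intro j
      have m1 := int_mix (int6N j) hφ6 (hN j).1.1 (hφ.tst.memLp 2).1 (j := 1) (by norm_num)
      have m2 := (int_mul2 (hN j).1 (hφ.tst.memLp 2)).const_mul lam
      refine (m1.add m2).congr (Eventually.of_forall fun x => ?_)
      simp only [Pi.add_apply]
      norm_num
      ring
    have E4 : ∫ x, (u x ^ 5 + lam * u x) * ψ x =
        ∫ x, ((∑ j ∈ Finset.range k, c j x) ^ 5 + lam * ∑ j ∈ Finset.range k, c j x) * φ x := by
      have a1 : ∀ x, (u x ^ 5 + lam * u x) * ψ x = ∑ j ∈ Finset.range k,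
          ((u x ^ 5 + lam * u x) * φ (rot (2 * α * (j:ℤ)) x) -
            (u x ^ 5 + lam * u x) * φ (ror (2 * α * (j:ℤ)) x)) := by
        intro x
        dsimp only [ψ]
        rw [Finset.mul_sum]
        exact Finset.sum_congr rfl fun j _ => by rw [mul_sub]
      have a2 : ∀ x, ((∑ j ∈ Finset.range k, c j x) ^ 5 +
          lam * ∑ j ∈ Finset.range k, c j x) * φ x = ∑ j ∈ Finset.range k,
          ((u (P j x) ^ 5 + lam * u (P j x)) * φ x -
            (u (N j x) ^ 5 + lam * u (N j x)) * φ x) := by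
        intro x
        rw [pow_single _ _ (csingle x) (by norm_num), Finset.mul_sum, ← Finset.sum_add_distrib,
          Finset.sum_mul]
        apply Finset.sum_congr rfl
        intro j _
        rw [c5]
        dsimp only [c]
        ring
      simp_rw [a1, a2]
      rw [int_sum_sub (fun j => hF _ (tP j)) (fun j => hF _ (tN j)), int_sum_sub gP gN]
      apply Finset.sum_congr rfl
      intro j _
      rw [fP, fN]
    rw [E1, E2, hext, E3, E4]
  · -- the integral
    have a1 : ∀ x, (∑ j ∈ Finset.range k, c j x) ^ 6 = ∑ j ∈ Finset.range k,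
        (u (P j x) ^ 6 + u (N j x) ^ 6) := by
      intro x
      rw [pow_single _ _ (csingle x) (by norm_num)]
      exact Finset.sum_congr rfl fun j _ => c6 j x
    simp_rw [a1]
    rw [int_sum_add (fun j : ℕ => int6P j) (fun j : ℕ => int6N j)]
    have a2 : ∀ j ∈ Finset.range k, ((∫ x, u (P j x) ^ 6) + ∫ x, u (N j x) ^ 6) =
        2 * ∫ x, u x ^ 6 := by
      intro j _
      rw [int_iso (P j) (fun y => u y ^ 6), int_iso (N j) (fun y => u y ^ 6)]
      ring
    rw [Finset.sum_congr rfl a2, Finset.sum_const, Finset.card_range, nsmul_eq_mul]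
    ring
  · -- oddness
    intro x
    have e1 : ∀ j : ℕ, c j (ror 0 x) = u (ror (2 * α * (-(j:ℤ) : ℤ)) x) -
        u (rot (-(2 * α * (-(j:ℤ) : ℤ))) x) := by
      intro j
      dsimp only [c]
      have a1 : P j (ror 0 x) = ror (2 * α * (-(j:ℤ) : ℤ)) x := by
        show rot _ (ror _ x) = _
        rw [rot_ror]
        congr 1
        push_cast; ring_nf
      have a2 : N j (ror 0 x) = rot (-(2 * α * (-(j:ℤ) : ℤ))) x := by
        show ror _ (ror _ x) = _
        rw [ror_ror]
        congr 1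
        push_cast; ring_nf
      rw [a1, a2]
    have hper1 : ∀ j : ℤ, u (ror (2 * α * ((j + k : ℤ) : ℝ)) x) = u (ror (2 * α * (j:ℝ)) x) := by
      intro j
      have e2 : 2 * α * ((j + k : ℤ) : ℝ) = 2 * α * (j:ℝ) + 2 * Real.pi := by
        rw [← hαk]; push_cast; ring
      rw [e2]
      congr 1
      apply ext3 <;> simp
    have hper2 : ∀ j : ℤ, u (rot (-(2 * α * ((j + k : ℤ) : ℝ))) x) =
        u (rot (-(2 * α * (j:ℝ))) x) := by
      intro j
      have e2 : -(2 * α * (j:ℝ)) = -(2 * α * ((j + k : ℤ) : ℝ)) + 2 * Real.pi := by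
        rw [← hαk]; push_cast; ring
      rw [e2, rot_two_pi]
    have s1 := sum_periodic (f := fun j : ℤ => u (ror (2 * α * (j:ℝ)) x)) hk hper1
    have s2 := sum_periodic (f := fun j : ℤ => u (rot (-(2 * α * (j:ℝ))) x)) hk hper2
    simp only [e1]
    rw [Finset.sum_sub_distrib, s1, s2, ← Finset.sum_neg_distrib, ← Finset.sum_sub_distrib]
    apply Finset.sum_congr rfl
    intro j _
    dsimp only [c, P, N]
    ring

end Run7.h104
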