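import Pool.Agent.Run7.h104.Var1
import Pool.Agent.R217.HS.BL

/-! # Minimisers below the Sobolev constant -/

set_option autoImplicit false
set_option linter.unusedSectionVars false
set_option linter.unusedVariables false

open MeasureTheory Filter Topology
open scoped ContDiff ENNReal NNReal RealInnerProductSpace

namespace Run7.h104

open Pool.Agent.R217.BN (E cexp sobS H01)
open Pool.Agent.R217.HS
open Pool.Agent.R217.KM

/-- the quadratic form -/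
noncomputable def Ea (lam : ℝ) (u : E 3 → ℝ) (G : E 3 → E 3) : ℝ :=
  (∫ x, ‖G x‖ ^ 2) - lam * ∫ x, u x ^ 2

lemma Ea_smul (lam t : ℝ) (u : E 3 → ℝ) (G : E 3 → E 3) :
    Ea lam (fun x => t * u x) (fun x => t • G x) = t ^ 2 * Ea lam u G := by
  unfold Ea
  have e1 : ∫ x, ‖t • G x‖ ^ 2 = t ^ 2 * ∫ x, ‖G x‖ ^ 2 := by
    rw [← integral_const_mul]; congr 1; funext x
    rw [norm_smul, mul_pow, Real.norm_eq_abs, sq_abs]
  have e2 : ∫ x, (t * u x) ^ 2 = t ^ 2 * ∫ x, u x ^ 2 := by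
    rw [← integral_const_mul]; congr 1; funext x; ring
  rw [e1, e2]; ring

lemma six_smul (t : ℝ) (u : E 3 → ℝ) : ∫ x, (t * u x) ^ 6 = t ^ 6 * ∫ x, u x ^ 6 := by
  rw [← integral_const_mul]; congr 1; funext x; ring

lemma exists_cbrt {a : ℝ} (ha : 0 ≤ a) : ∃ b, 0 ≤ b ∧ b ^ 3 = a := by
  refine ⟨a ^ ((1:ℝ) / 3), by positivity, ?_⟩
  rw [← Real.rpow_natCast, ← Real.rpow_mul ha]
  norm_num

lemma exists_root6 {a : ℝ} (ha : 0 < a) : ∃ b, 0 < b ∧ b ^ 6 = a := by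
  refine ⟨a ^ ((1:ℝ) / 6), by positivity, ?_⟩
  rw [← Real.rpow_natCast, ← Real.rpow_mul ha.le]
  norm_num

/-- Poincaré's inequality with constant `κ` -/
def PoI (D : Set (E 3)) (κ : ℝ) : Prop :=
  ∀ (u : E 3 → ℝ) (G : E 3 → E 3), H01 D u G → κ * ∫ x, u x ^ 2 ≤ ∫ x, ‖G x‖ ^ 2

lemma Ea_ge {D : Set (E 3)} {lam κ : ℝ} (hl : 0 ≤ lam) (hκ : lam < κ) (hP : PoI D κ)
    {u : E 3 → ℝ} {G : E 3 → E 3} (h : H01 D u G) :
    (1 - lam / κ) * ∫ x, ‖G x‖ ^ 2 ≤ Ea lam u G := by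
  have hκ0 : 0 < κ := lt_of_le_of_lt hl hκ
  have h1 := hP u G h
  unfold Ea
  have h2 : lam * ∫ x, u x ^ 2 ≤ lam / κ * ∫ x, ‖G x‖ ^ 2 := by
    rw [div_mul_eq_mul_div, le_div_iff₀ hκ0]
    nlinarith
  linarith

lemma Ea_nonneg {D : Set (E 3)} {lam κ : ℝ} (hl : 0 ≤ lam) (hκ : lam < κ) (hP : PoI D κ)
    {u : E 3 → ℝ} {G : E 3 → E 3} (h : H01 D u G) : 0 ≤ Ea lam u G := by
  have hκ0 : 0 < κ := lt_of_le_of_lt hl hκ
  have h1 : lam / κ < 1 := (div_lt_one hκ0).2 hκ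
  refine le_trans ?_ (Ea_ge hl hκ hP h)
  exact mul_nonneg (by linarith) (integral_nonneg fun x => by positivity)

theorem minim {D : Set (E 3)} (hD : MeasurableSet D) (hb : Bornology.IsBounded D) {lam κ : ℝ}
    (hl : 0 ≤ lam) (hκ : lam < κ) (hP : PoI D κ) {w : E 3 → ℝ} {W : E 3 → E 3}
    (hw : H01 D w W) (hlow : (Ea lam w W) ^ 3 < SS ^ 3 * ∫ x, w x ^ 6) :
    ∃ (s : ℝ) (u : E 3 → ℝ) (G : E 3 → E 3), 0 < s ∧ H01 D u G ∧
      (∀ (v : E 3 → ℝ) (V : E 3 → E 3), H01 D v V → s * ∫ x, v x ^ 6 ≤ (Ea lam v V) ^ 3) ∧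
      ∫ x, u x ^ 6 = 1 ∧ (Ea lam u G) ^ 3 = s := by
  have hκ0 : 0 < κ := lt_of_le_of_lt hl hκ
  have hS := SS_pos
  obtain ⟨c0, hc0⟩ : ∃ c0, c0 = 1 - lam / κ := ⟨_, rfl⟩
  have hc0p : 0 < c0 := by
    have : lam / κ < 1 := (div_lt_one hκ0).2 hκ
    rw [hc0]; linarith
  have hge : ∀ (v : E 3 → ℝ) (V : E 3 → E 3), H01 D v V →
      c0 * ∫ x, ‖V x‖ ^ 2 ≤ Ea lam v V := fun v V h => by rw [hc0]; exact Ea_ge hl hκ hP h
  have hnn : ∀ (v : E 3 → ℝ) (V : E 3 → E 3), H01 D v V → 0 ≤ Ea lam v V :=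
    fun v V h => Ea_nonneg hl hκ hP h
  -- the infimum
  let Q : Set ℝ := {r | ∃ (v : E 3 → ℝ) (V : E 3 → E 3), H01 D v V ∧ ∫ x, v x ^ 6 = 1 ∧
    r = (Ea lam v V) ^ 3}
  have hscale : ∀ (v : E 3 → ℝ) (V : E 3 → E 3), H01 D v V → 0 < ∫ x, v x ^ 6 →
      (Ea lam v V) ^ 3 / ∫ x, v x ^ 6 ∈ Q := by
    intro v V h hp
    obtain ⟨t, ht, ht6⟩ := exists_root6 (inv_pos.2 hp)
    refine ⟨_, _, h01_smul t h, ?_, ?_⟩
    · rw [six_smul, ht6, inv_mul_cancel₀ hp.ne']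
    · rw [Ea_smul, mul_pow, ← pow_mul, show 2 * 3 = 6 by norm_num, ht6]
      rw [div_eq_inv_mul]
  have hbdd : ∀ r ∈ Q, c0 ^ 3 * SS ^ 3 ≤ r := by
    rintro r ⟨v, V, h, h1, rfl⟩
    have h2 := (six_h01 h).2
    rw [h1, mul_one] at h2
    have h3 := hge v V h
    have h4 : 0 ≤ ∫ x, ‖V x‖ ^ 2 := integral_nonneg fun x => by positivity
    calc c0 ^ 3 * SS ^ 3 ≤ c0 ^ 3 * (∫ x, ‖V x‖ ^ 2) ^ 3 := by gcongr
      _ = (c0 * ∫ x, ‖V x‖ ^ 2) ^ 3 := by ring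
      _ ≤ _ := by gcongr
  have hw6 : 0 < ∫ x, w x ^ 6 := by
    have h1 := pow_nonneg (hnn w W hw) 3
    have h2 : 0 < SS ^ 3 * ∫ x, w x ^ 6 := lt_of_le_of_lt h1 hlow
    exact pos_of_mul_pos_right h2 (by positivity)
  have hwQ := hscale w W hw hw6
  have hQne : Q.Nonempty := ⟨_, hwQ⟩
  have hQb : BddBelow Q := ⟨_, hbdd⟩
  obtain ⟨s, hs⟩ : ∃ s, s = sInf Q := ⟨_, rfl⟩
  have hs0 : 0 < s := by
    rw [hs]
    exact lt_of_lt_of_le (by positivity) (le_csInf hQne hbdd)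
  have hsS : s < SS ^ 3 := by
    have h1 : s ≤ (Ea lam w W) ^ 3 / ∫ x, w x ^ 6 := by rw [hs]; exact csInf_le hQb hwQ
    refine lt_of_le_of_lt h1 ?_
    rw [div_lt_iff₀ hw6]
    exact hlow
  have hlb : ∀ (v : E 3 → ℝ) (V : E 3 → E 3), H01 D v V →
      s * ∫ x, v x ^ 6 ≤ (Ea lam v V) ^ 3 := by
    intro v V h
    have h0 : 0 ≤ ∫ x, v x ^ 6 := integral_nonneg fun x => by positivity
    rcases eq_or_lt_of_le h0 with h1 | h1
    · rw [← h1, mul_zero]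
      exact pow_nonneg (hnn v V h) 3
    · have h2 : s ≤ (Ea lam v V) ^ 3 / ∫ x, v x ^ 6 := by
        rw [hs]; exact csInf_le hQb (hscale v V h h1)
      rwa [le_div_iff₀ h1] at h2
  -- minimising sequence
  have hmin : ∀ k : ℕ, ∃ (v : E 3 → ℝ) (V : E 3 → E 3), H01 D v V ∧ ∫ x, v x ^ 6 = 1 ∧
      (Ea lam v V) ^ 3 < s + 1 / ((k:ℝ) + 1) := by
    intro k
    have h1 : sInf Q < s + 1 / ((k:ℝ) + 1) := by
      rw [hs]
      have : (0:ℝ) < 1 / ((k:ℝ) + 1) := by positivity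
      linarith
    obtain ⟨r, ⟨v, V, h, h2, rfl⟩, hr⟩ := exists_lt_of_csInf_lt hQne h1
    exact ⟨v, V, h, h2, hr⟩
  choose v V hv h6 hE using hmin
  have hEs : ∀ k, s ≤ (Ea lam (v k) (V k)) ^ 3 := by
    intro k
    have := hlb _ _ (hv k)
    rwa [h6 k, mul_one] at this
  have hElim : Tendsto (fun k => (Ea lam (v k) (V k)) ^ 3) atTop (𝓝 s) := by
    have h1 : Tendsto (fun k : ℕ => s + 1 / ((k:ℝ) + 1)) atTop (𝓝 (s + 0)) :=
      tendsto_one_div_add_atTop_nhds_zero_nat.const_add s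
    rw [add_zero] at h1
    exact tendsto_of_tendsto_of_tendsto_of_le_of_le tendsto_const_nhds h1 hEs
      (fun k => (hE k).le)
  obtain ⟨i, hi0, hi3⟩ := exists_cbrt hs0.le
  have hElim' : Tendsto (fun k => Ea lam (v k) (V k)) atTop (𝓝 i) := by
    have h1 := hElim.rpow_const (p := (1:ℝ) / 3) (Or.inr (by norm_num))
    have e : ∀ t : ℝ, 0 ≤ t → (t ^ 3) ^ ((1:ℝ) / 3) = t := by
      intro t ht
      rw [← Real.rpow_natCast, ← Real.rpow_mul ht]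
      norm_num
    rw [← hi3, e i hi0] at h1
    exact h1.congr fun k => e _ (hnn _ _ (hv k))
  obtain ⟨B, hB⟩ := hElim'.bddAbove_range
  have hM : ∀ k, ∫ x, ‖V k x‖ ^ 2 ≤ B / c0 := by
    intro k
    rw [le_div_iff₀ hc0p, mul_comm]
    exact (hge _ _ (hv k)).trans (hB ⟨k, rfl⟩)
  obtain ⟨u, G, ns, hns, hu, hL2, hae, hweak⟩ := cpt hD hb hv hM
  have hnt := hns.tendsto_atTop
  obtain ⟨a, ha⟩ : ∃ a, a = ∫ x, u x ^ 6 := ⟨_, rfl⟩
  have ha0 : 0 ≤ a := by rw [ha]; exact integral_nonneg fun x => by positivity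
  -- Brezis-Lieb
  have hBL : Tendsto (fun k => ∫ x, (v (ns k) x - u x) ^ 6) atTop (𝓝 (1 - a)) := by
    have h1 := brezis_lieb (μ := (volume : Measure (E 3))) (q := cexp 3) (f := fun k => v (ns k))
      (g := u) (by rw [cexp3]; norm_num) (fun k => by simpa only [abs_six] using (six_h01 (hv (ns k))).1)
      (by simpa only [abs_six] using (six_h01 hu).1) (fun k => (hv (ns k)).1.1) hu.1.1
      (M := 1) (fun k => by simp only [abs_six]; exact (h6 (ns k)).le) hae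
    simp only [abs_six, h6] at h1
    rw [← ha] at h1
    have h2 := h1.const_sub 1
    simpa using h2
  obtain ⟨b, hb'⟩ : ∃ b, b = 1 - a := ⟨_, rfl⟩
  rw [← hb'] at hBL
  have hb0 : 0 ≤ b := ge_of_tendsto' hBL fun k => integral_nonneg fun x => by positivity
  -- energies
  have i2 : ∀ k, Integrable (fun x => v k x * u x) := fun k => int_mul2 (hv k).1 hu.1
  have hsqv : Tendsto (fun k => ∫ x, v (ns k) x ^ 2) atTop (𝓝 (∫ x, u x ^ 2)) := by
    have h1 : LTo volume (fun k => v (ns k)) u := by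
      apply lTo_of_sq (fun k => (hv _).1) hu.1
      simpa only [Real.norm_eq_abs, sq_abs] using hL2
    have h2 := h1.sq (fun k => (hv _).1) hu.1
    simpa only [Real.norm_eq_abs, sq_abs] using h2
  obtain ⟨A, hA⟩ : ∃ A, A = Ea lam u G := ⟨_, rfl⟩
  have hA0 : 0 ≤ A := by rw [hA]; exact hnn u G hu
  have hsub : ∀ k, H01 D (fun x => v (ns k) x - u x) (fun x => V (ns k) x - G x) := fun k =>
    h01_sub (hv _) hu
  have he : Tendsto (fun k => ∫ x, ‖V (ns k) x - G x‖ ^ 2) atTop (𝓝 (i - A)) := by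
    have e1 : ∀ k, ∫ x, ‖V (ns k) x - G x‖ ^ 2 = Ea lam (v (ns k)) (V (ns k)) +
        lam * (∫ x, v (ns k) x ^ 2) - 2 * (∫ x, ⟪V (ns k) x, G x⟫) + ∫ x, ‖G x‖ ^ 2 := by
      intro k
      have j1 := integrable_sq (hv (ns k)).2.1
      have j2 := integrable_inner' (hv (ns k)).2.1 hu.2.1
      have j3 := integrable_sq hu.2.1
      have e2 : ∀ x, ‖V (ns k) x - G x‖ ^ 2 =
          ‖V (ns k) x‖ ^ 2 - 2 * ⟪V (ns k) x, G x⟫ + ‖G x‖ ^ 2 := fun x => norm_sub_sq_real _ _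
      simp_rw [e2]
      have j12 : Integrable (fun x => ‖V (ns k) x‖ ^ 2 - 2 * ⟪V (ns k) x, G x⟫) :=
        j1.sub (j2.const_mul 2)
      rw [integral_add j12 j3, integral_sub j1 (j2.const_mul 2), integral_const_mul]
      unfold Ea
      ring
    have h1 := (((hElim'.comp hnt).add (hsqv.const_mul lam)).sub (hweak.const_mul 2)).add_const
      (∫ x, ‖G x‖ ^ 2)
    have e3 : i + lam * (∫ x, u x ^ 2) - 2 * (∫ x, ‖G x‖ ^ 2) + ∫ x, ‖G x‖ ^ 2 = i - A := by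
      rw [hA]; unfold Ea; ring
    rw [e3] at h1
    exact h1.congr fun k => (e1 k).symm
  have he0 : 0 ≤ i - A := ge_of_tendsto' he fun k => integral_nonneg fun x => by positivity
  have hSb : SS ^ 3 * b ≤ (i - A) ^ 3 :=
    le_of_tendsto_of_tendsto' (hBL.const_mul (SS ^ 3)) (he.pow 3) fun k => (six_h01 (hsub k)).2
  have hSa : s * a ≤ A ^ 3 := by rw [ha, hA]; exact hlb u G hu
  obtain ⟨α, hα0, hα3⟩ := exists_cbrt ha0
  obtain ⟨β, hβ0, hβ3⟩ := exists_cbrt hb0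
  have h1 : i * α ≤ A := by
    apply le_of_pow_le_pow_left₀ (n := 3) (by norm_num) hA0
    rw [mul_pow, hi3, hα3]; exact hSa
  have h2 : SS * β ≤ i - A := by
    apply le_of_pow_le_pow_left₀ (n := 3) (by norm_num) he0
    rw [mul_pow, hβ3]; exact hSb
  have h3 : 1 ≤ α + β := by
    apply le_of_pow_le_pow_left₀ (n := 3) (by norm_num) (by positivity)
    have : (α + β) ^ 3 = α ^ 3 + β ^ 3 + 3 * α * β * (α + β) := by ring
    rw [this, hα3, hβ3, hb']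
    have : 0 ≤ 3 * α * β * (α + β) := by positivity
    linarith
  have hiS : i < SS := by
    apply lt_of_pow_lt_pow_left₀ 3 hS.le
    rw [hi3]; exact hsS
  have hβ : β = 0 := by
    by_contra hne
    have hβp : 0 < β := lt_of_le_of_ne hβ0 (Ne.symm hne)
    nlinarith
  have hb1 : b = 0 := by rw [← hβ3, hβ]; norm_num
  have ha1 : a = 1 := by linarith
  refine ⟨s, u, G, hs0, hu, hlb, by rw [← ha, ha1], ?_⟩
  apply le_antisymm
  · rw [← hA, ← hi3]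
    gcongr
    linarith
  · have := hlb u G hu
    rwa [← ha, ha1, mul_one] at this

end Run7.h104
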