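import Pool.Agent.Run7.h104.Reg3
import Pool.Agent.Run7.h104.Var2
import Pool.Agent.Run7.h104.Geo1

/-! # The Poincaré inequality in wedges -/

set_option autoImplicit false
set_option linter.unusedSectionVars false
set_option linter.unusedVariables false

open MeasureTheory Filter Topology
open scoped ContDiff ENNReal NNReal RealInnerProductSpace Laplacian

namespace Run7.h104

open Pool.Agent.R217.BN (E cexp sobS H01)
open Pool.Agent.R217.HS
open Pool.Agent.R217.KM

/-- Barta's inequality -/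
theorem barta {D : Set (E 3)} (hD : IsOpen D) {h : E 3 → ℝ} (hh : ContDiff ℝ ∞ h)
    (hpos : ∀ x ∈ D, 0 < h x) {κ : ℝ} (hκ : ∀ x ∈ D, (Δ h) x ≤ -(κ * h x)) {φ : E 3 → ℝ}
    (hφ : TIn D φ) : κ * ∫ x, φ x ^ 2 ≤ ∫ x, ‖gradient φ x‖ ^ 2 := by
  let ψ : E 3 → ℝ := fun x => φ x ^ 2 * (h x)⁻¹
  have hz : ∀ x, φ x = 0 → ψ x = 0 := fun x hx => by dsimp only [ψ]; rw [hx]; ring
  have hnear : ∀ x, x ∉ tsupport φ → ψ =ᶠ[𝓝 x] fun _ => (0:ℝ) := by
    intro x hx
    filter_upwards [(isClosed_tsupport φ).isOpen_compl.mem_nhds hx] with y hy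
    exact hz y (image_eq_zero_of_notMem_tsupport hy)
  have hsm : ContDiff ℝ ∞ ψ := by
    rw [contDiff_iff_contDiffAt]
    intro x
    by_cases hx : x ∈ tsupport φ
    · exact (hφ.1.contDiffAt.pow 2).mul (hh.contDiffAt.inv (hpos x (hφ.2.2 hx)).ne')
    · exact (contDiffAt_const (c := (0:ℝ))).congr_of_eventuallyEq (hnear x hx)
  have tψ : TIn D ψ := hφ.of_zero hsm hz
  have hpt : ∀ x, ⟪gradient h x, gradient ψ x⟫ ≤ ‖gradient φ x‖ ^ 2 := by
    intro x
    by_cases hx : x ∈ tsupport φ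
    · have hp := hpos x (hφ.2.2 hx)
      have hdφ : HasFDerivAt φ (fderiv ℝ φ x) x := (hφ.tst.diff x).hasFDerivAt
      have hdh : HasFDerivAt h (fderiv ℝ h x) x := ((hh.differentiable (by simp)) x).hasFDerivAt
      have hg : gradient ψ x = (2 * φ x * (h x)⁻¹) • gradient φ x -
          (φ x ^ 2 * ((h x)⁻¹) ^ 2) • gradient h x := by
        have h1 : HasFDerivAt ψ ((φ x ^ 2) • ((-((h x) ^ 2)⁻¹) • fderiv ℝ h x) +
            (h x)⁻¹ • ((2 * φ x) • fderiv ℝ φ x)) x := by
          have a1 : HasFDerivAt (fun y => φ y ^ 2) ((2 * φ x) • fderiv ℝ φ x) x := by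
            have := hdφ.pow 2
            simpa using this
          have a2 : HasFDerivAt (fun y => (h y)⁻¹) ((-((h x) ^ 2)⁻¹) • fderiv ℝ h x) x :=
            (hasDerivAt_inv hp.ne').comp_hasFDerivAt x hdh
          exact a1.mul a2
        unfold gradient
        rw [h1.fderiv]
        simp only [map_add, map_smul]
        rw [smul_smul, smul_smul]
        rw [add_comm, sub_eq_add_neg, ← neg_smul]
        congr 2
        · ring
        · rw [inv_pow]; ring
      rw [hg, inner_sub_right, real_inner_smul_right, real_inner_smul_right,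
        real_inner_self_eq_norm_sq]
      have h2 : 0 ≤ ‖gradient φ x - (φ x * (h x)⁻¹) • gradient h x‖ ^ 2 := by positivity
      rw [norm_sub_sq_real, real_inner_smul_right, norm_smul, mul_pow, Real.norm_eq_abs,
        sq_abs, real_inner_comm] at h2
      nlinarith
    · have h1 : gradient ψ x = 0 := by
        unfold gradient
        rw [(hnear x hx).fderiv_eq]; simp
      rw [h1, inner_zero_right]
      positivity
  have hc : Continuous (gradient h) := grad_smooth_cont (hh.of_le two_le_inf)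
  have i1 : Integrable (fun x => ⟪gradient h x, gradient ψ x⟫) := by
    have hs : HasCompactSupport (gradient ψ) := by
      apply HasCompactSupport.intro' (K := tsupport ψ) tψ.2.1 (isClosed_tsupport ψ)
      intro x hx
      have h1 : ψ =ᶠ[𝓝 x] fun _ => (0:ℝ) := by
        filter_upwards [(isClosed_tsupport ψ).isOpen_compl.mem_nhds hx] with y hy
        exact image_eq_zero_of_notMem_tsupport hy
      unfold gradient
      rw [h1.fderiv_eq]; simp
    refine (hc.inner tψ.tst.cg).integrable_of_hasCompactSupport ?_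
    refine hs.mono fun x hx => ?_
    rw [Function.mem_support] at hx ⊢
    intro hc
    apply hx
    rw [hc, inner_zero_right]
  have h1 : ∫ x, ⟪gradient h x, gradient ψ x⟫ ≤ ∫ x, ‖gradient φ x‖ ^ 2 :=
    integral_mono i1 (integrable_sq (hφ.tst.memLp_grad 2)) hpt
  refine le_trans ?_ h1
  rw [ibp (hh.of_le two_le_inf) (hsm.of_le one_le_inf) tψ.2.1, ← integral_neg,
    ← integral_const_mul]
  apply integral_mono ((hφ.tst.memLp 2).integrable_sq.const_mul κ)
  · exact (((lap_cont2 (hh.of_le two_le_inf)).mul hsm.continuous).integrable_of_hasCompactSupport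
      tψ.2.1.mul_left).neg
  · intro x
    dsimp only [ψ]
    by_cases hx : x ∈ D
    · have h2 := hκ x hx
      have h3 := hpos x hx
      have h4 : 0 ≤ φ x ^ 2 * (h x)⁻¹ := by positivity
      have h5 : κ * φ x ^ 2 = κ * h x * (φ x ^ 2 * (h x)⁻¹) := by field_simp
      rw [h5]
      nlinarith
    · rw [hφ.zero_out hx]; simp

lemma poI_of_test {D : Set (E 3)} {κ : ℝ} (h : ∀ φ : E 3 → ℝ, TIn D φ →
    κ * ∫ x, φ x ^ 2 ≤ ∫ x, ‖gradient φ x‖ ^ 2) : PoI D κ := by
  intro u G hu
  obtain ⟨φ, tφ, h1, h2, -, -⟩ := h01_seq hu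
  have l1 := (h1.sq (fun k => (tφ k).tst.memLp 2) hu.1).const_mul κ
  have l2 := h2.sq (fun k => (tφ k).tst.memLp_grad 2) hu.2.1
  simp only [Real.norm_eq_abs, sq_abs] at l1
  exact le_of_tendsto_of_tendsto' l1 l2 fun k => h _ (tφ k)

/-- the complex coordinate -/
noncomputable def zc (x : E 3) : ℂ := ⟨x 0, x 1⟩

noncomputable def Ak (k : ℕ) (x : E 3) : ℝ := (zc x ^ k).re
noncomputable def Bk (k : ℕ) (x : E 3) : ℝ := (zc x ^ k).im

lemma Ak_succ (k : ℕ) (x : E 3) : Ak (k + 1) x = x 0 * Ak k x - x 1 * Bk k x := by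
  unfold Ak Bk
  rw [pow_succ, Complex.mul_re]
  simp [zc]; ring

lemma Bk_succ (k : ℕ) (x : E 3) : Bk (k + 1) x = x 0 * Bk k x + x 1 * Ak k x := by
  unfold Ak Bk
  rw [pow_succ, Complex.mul_im]
  simp [zc]; ring

noncomputable abbrev pj (i : Fin 3) : E 3 →L[ℝ] ℝ := EuclideanSpace.proj i

lemma pj_fderiv (i : Fin 3) (x : E 3) : HasFDerivAt (fun w : E 3 => w i) (pj i) x :=
  (EuclideanSpace.proj i : E 3 →L[ℝ] ℝ).hasFDerivAt

lemma AB_fderiv (k : ℕ) (x : E 3) :
    HasFDerivAt (Ak k) ((k * Ak (k - 1) x) • pj 0 - (k * Bk (k - 1) x) • pj 1) x ∧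
    HasFDerivAt (Bk k) ((k * Bk (k - 1) x) • pj 0 + (k * Ak (k - 1) x) • pj 1) x := by
  induction k with
  | zero =>
    constructor
    · have : Ak 0 = fun _ => (1:ℝ) := by funext y; simp [Ak]
      rw [this]; simpa using hasFDerivAt_const (1:ℝ) x
    · have : Bk 0 = fun _ => (0:ℝ) := by funext y; simp [Bk]
      rw [this]; simpa using hasFDerivAt_const (0:ℝ) x
  | succ k ih =>
    have hk : (k:ℝ) * Ak k x = k * (x 0 * Ak (k - 1) x - x 1 * Bk (k - 1) x) ∧
        (k:ℝ) * Bk k x = k * (x 0 * Bk (k - 1) x + x 1 * Ak (k - 1) x) := by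
      rcases Nat.eq_zero_or_pos k with h0 | h0
      · rw [h0]; simp
      · obtain ⟨m, rfl⟩ : ∃ m, k = m + 1 := ⟨k - 1, by omega⟩
        rw [Nat.add_sub_cancel, Ak_succ, Bk_succ]
        exact ⟨rfl, rfl⟩
    have eA : Ak (k + 1) = fun y => y 0 * Ak k y - y 1 * Bk k y := funext (Ak_succ k)
    have eB : Bk (k + 1) = fun y => y 0 * Bk k y + y 1 * Ak k y := funext (Bk_succ k)
    constructor
    · rw [eA]
      have h := ((pj_fderiv 0 x).mul ih.1).sub ((pj_fderiv 1 x).mul ih.2)
      refine h.congr_fderiv ?_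
      ext v
      simp only [Nat.add_sub_cancel]
      simp
      linear_combination (-(v 0)) * hk.1 + (v 1) * hk.2
    · rw [eB]
      have h := ((pj_fderiv 0 x).mul ih.2).add ((pj_fderiv 1 x).mul ih.1)
      refine h.congr_fderiv ?_
      ext v
      simp only [Nat.add_sub_cancel]
      simp
      linear_combination (-(v 0)) * hk.2 - (v 1) * hk.1

end Run7.h104
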