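import Pool.Agent.Run7.h104.Geo4

/-! # The Poincaré inequality in wedges: the supersolution -/

set_option autoImplicit false
set_option linter.unusedSectionVars false
set_option linter.unusedVariables false

open MeasureTheory Filter Topology
open scoped ContDiff ENNReal NNReal RealInnerProductSpace Laplacian

namespace Run7.h104

open Pool.Agent.R217.BN (E cexp sobS H01)
open Pool.Agent.R217.HS
open Pool.Agent.R217.KM

/-- Gaussian factor -/
noncomputable def ga (a : ℝ) (x : E 3) : ℝ := Real.exp (-a * (x 0 ^ 2 + x 1 ^ 2))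

lemma ga_pos (a : ℝ) (x : E 3) : 0 < ga a x := Real.exp_pos _

lemma ga_fderiv (a : ℝ) (x : E 3) :
    HasFDerivAt (ga a) (ga a x • ((-2 * a * x 0) • pj 0 + (-2 * a * x 1) • pj 1)) x := by
  have h := ((((pj_fderiv 0 x).pow 2).add ((pj_fderiv 1 x).pow 2)).const_mul (-a)).exp
  refine h.congr_fderiv ?_
  ext v
  simp [ga]
  ring

/-- the supersolution -/
noncomputable def hs (a : ℝ) (k : ℕ) (x : E 3) : ℝ := Bk k x * ga a x

lemma Bk_smooth (k : ℕ) : ContDiff ℝ ∞ (Bk k) := by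
  have h1 : ContDiff ℝ ∞ zc := by
    have e : zc = fun x : E 3 => ((x 0 : ℝ) : ℂ) + ((x 1 : ℝ) : ℂ) * Complex.I := by
      funext x
      apply Complex.ext <;> simp [zc]
    rw [e]
    have c0 : ContDiff ℝ ∞ fun x : E 3 => x 0 := (pj 0).contDiff
    have c1 : ContDiff ℝ ∞ fun x : E 3 => x 1 := (pj 1).contDiff
    exact (Complex.ofRealCLM.contDiff.comp c0).add
      ((Complex.ofRealCLM.contDiff.comp c1).mul contDiff_const)
  exact Complex.imCLM.contDiff.comp (h1.pow k)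

lemma hs_smooth (a : ℝ) (k : ℕ) : ContDiff ℝ ∞ (hs a k) := by
  unfold hs ga
  have c0 : ContDiff ℝ ∞ fun x : E 3 => x 0 := (pj 0).contDiff
  have c1 : ContDiff ℝ ∞ fun x : E 3 => x 1 := (pj 1).contDiff
  exact (Bk_smooth k).mul (contDiff_const.mul ((c0.pow 2).add (c1.pow 2))).exp

lemma hs_fderiv (a : ℝ) (k : ℕ) (x : E 3) :
    HasFDerivAt (hs a k) (((k * Bk (k - 1) x - 2 * a * x 0 * Bk k x) * ga a x) • pj 0 +
      ((k * Ak (k - 1) x - 2 * a * x 1 * Bk k x) * ga a x) • pj 1) x := by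
  have h := (AB_fderiv k x).2.mul (ga_fderiv a x)
  refine h.congr_fderiv ?_
  ext v
  simp
  ring

@[simp] lemma eb_apply (i j : Fin 3) : (eb i) j = if j = i then 1 else 0 := by
  show (EuclideanSpace.basisFun (Fin 3) ℝ i) j = if j = i then 1 else 0
  simp [EuclideanSpace.basisFun_apply, Pi.single_apply]

lemma hs_D0 (a : ℝ) (k : ℕ) (x : E 3) :
    fderiv ℝ (hs a k) x (eb 0) = (k * Bk (k - 1) x - 2 * a * x 0 * Bk k x) * ga a x := by
  rw [(hs_fderiv a k x).fderiv]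
  simp

lemma hs_D1 (a : ℝ) (k : ℕ) (x : E 3) :
    fderiv ℝ (hs a k) x (eb 1) = (k * Ak (k - 1) x - 2 * a * x 1 * Bk k x) * ga a x := by
  rw [(hs_fderiv a k x).fderiv]
  simp

lemma hs_D2 (a : ℝ) (k : ℕ) (x : E 3) : fderiv ℝ (hs a k) x (eb 2) = 0 := by
  rw [(hs_fderiv a k x).fderiv]
  simp

lemma hs_lap (a : ℝ) {k : ℕ} (hk : 1 ≤ k) (x : E 3) : (Δ (hs a k)) x =
    hs a k x * (4 * a ^ 2 * (x 0 ^ 2 + x 1 ^ 2) - 4 * a * (k + 1)) := by
  rw [lap_eq2 ((hs_smooth a k).of_le two_le_inf), Fin.sum_univ_three]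
  simp only [hs_D0, hs_D1, hs_D2]
  have hz : fderiv ℝ (fun z : E 3 => (0:ℝ)) x (eb 2) = 0 := by simp
  rw [hz]
  have h0 : HasFDerivAt (fun z : E 3 => (k * Bk (k - 1) z - 2 * a * z 0 * Bk k z) * ga a z) _ x :=
    (((AB_fderiv (k - 1) x).2.const_mul (k:ℝ)).sub
      (((pj_fderiv 0 x).const_mul (2 * a)).mul (AB_fderiv k x).2)).mul (ga_fderiv a x)
  have h1 : HasFDerivAt (fun z : E 3 => (k * Ak (k - 1) z - 2 * a * z 1 * Bk k z) * ga a z) _ x :=
    (((AB_fderiv (k - 1) x).1.const_mul (k:ℝ)).sub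
      (((pj_fderiv 1 x).const_mul (2 * a)).mul (AB_fderiv k x).2)).mul (ga_fderiv a x)
  rw [h0.fderiv, h1.fderiv]
  have hB : Bk k x = x 0 * Bk (k - 1) x + x 1 * Ak (k - 1) x := by
    obtain ⟨m, rfl⟩ : ∃ m, k = m + 1 := ⟨k - 1, by omega⟩
    rw [Nat.add_sub_cancel, Bk_succ]
  unfold hs
  simp
  linear_combination (4 * a * k * ga a x) * hB

lemma Bk_pos {k : ℕ} (hk : 1 ≤ k) {x : E 3} (hx : x ∈ Wd (Real.pi / k)) : 0 < Bk k x := by
  have hk0 : (0:ℝ) < k := by exact_mod_cast hk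
  have hπ := Real.pi_pos
  have ha : 0 < Real.pi / k := by positivity
  have hb : Real.pi / k ≤ Real.pi := div_le_self hπ.le (by exact_mod_cast hk)
  obtain ⟨r, θ, hr, h1, h2, e0, e1⟩ := Wd_polar ha hb hx
  have hz : zc x = (r : ℂ) * (Complex.cos θ + Complex.sin θ * Complex.I) := by
    apply Complex.ext
    · simp [zc, e0, Complex.cos_ofReal_re, Complex.sin_ofReal_im]
    · simp [zc, e1, Complex.cos_ofReal_im, Complex.sin_ofReal_re]
  have hB : Bk k x = r ^ k * Real.sin (k * θ) := by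
    unfold Bk
    rw [hz, mul_pow, Complex.cos_add_sin_mul_I_pow]
    have e2 : Complex.cos ((k:ℂ) * (θ:ℂ)) = ((Real.cos (k * θ) : ℝ) : ℂ) := by
      push_cast; rfl
    have e3 : Complex.sin ((k:ℂ) * (θ:ℂ)) = ((Real.sin (k * θ) : ℝ) : ℂ) := by
      push_cast; rfl
    rw [e2, e3, ← Complex.ofReal_pow, Complex.im_ofReal_mul]
    simp only [Complex.add_im, Complex.ofReal_im, Complex.im_ofReal_mul, Complex.I_im]
    ring
  rw [hB]
  apply mul_pos (by positivity)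
  apply Real.sin_pos_of_pos_of_lt_pi (by positivity)
  rw [lt_div_iff₀ hk0] at h2
  linarith

/-- **Poincaré inequality in a wedge** -/
theorem wedge_poincare {Ω : Set (E 3)} (hO : IsOpen Ω) {R : ℝ} (hR : 0 < R)
    (hΩ : ∀ x ∈ Ω, x 0 ^ 2 + x 1 ^ 2 ≤ R ^ 2) {k : ℕ} (hk : 1 ≤ k) :
    PoI (Ω ∩ Wd (Real.pi / k)) (((k:ℝ) + 1) ^ 2 / R ^ 2) := by
  apply poI_of_test
  intro φ hφ
  obtain ⟨a, ha⟩ : ∃ a : ℝ, a = ((k:ℝ) + 1) / (2 * R ^ 2) := ⟨_, rfl⟩
  refine barta (hO.inter (Wd_open _)) (hs_smooth a k) (fun x hx => ?_) (fun x hx => ?_) hφ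
  · exact mul_pos (Bk_pos hk hx.2) (ga_pos a x)
  · rw [hs_lap a hk]
    have h1 : 0 < hs a k x := mul_pos (Bk_pos hk hx.2) (ga_pos a x)
    have h2 := hΩ x hx.1
    have h3 : 4 * a ^ 2 * (x 0 ^ 2 + x 1 ^ 2) - 4 * a * (k + 1) ≤
        -(((k:ℝ) + 1) ^ 2 / R ^ 2) := by
      have e : -(((k:ℝ) + 1) ^ 2 / R ^ 2) = 4 * a ^ 2 * R ^ 2 - 4 * a * (k + 1) := by
        rw [ha]; field_simp; ring
      rw [e]
      have : 0 ≤ 4 * a ^ 2 := by positivity
      nlinarith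
    nlinarith

end Run7.h104
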