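import Pool.Agent.Run7.h104.Tes2

/-! # Choice of the parameters of the test function -/

set_option autoImplicit false
set_option linter.unusedSectionVars false
set_option linter.unusedVariables false

open MeasureTheory Filter Topology
open scoped ContDiff ENNReal NNReal RealInnerProductSpace

namespace Run7.h104

open Pool.Agent.R217.BN (E cexp sobS H01)
open Pool.Agent.R217.HS
open Pool.Agent.R217.KM

theorem param {Ω : Set (E 3)} (hO : IsOpen Ω) {R : ℝ} (hR : 0 < R)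
    (hsup : ∀ x ∈ Ω, x 0 ^ 2 + x 1 ^ 2 ≤ R ^ 2) {c0 s0 C : ℝ} (hc0 : 0 < c0) (hs0 : 0 < s0)
    (hC : 0 ≤ C)
    (hcone : ∀ s, 0 < s → s < s0 → ∃ q0 q2, R - C * s ≤ q0 ∧
      ∀ x : E 3, (x 0 - q0) ^ 2 + x 1 ^ 2 + (x 2 - q2) ^ 2 < (c0 * s) ^ 2 → x ∈ Ω) :
    ∃ δ : ℝ, 0 < δ ∧ ∃ k1 : ℕ, 3 ≤ k1 ∧ ∀ k : ℕ, k1 ≤ k → ∀ lam : ℝ,
      (k / ((1 + δ) * R)) ^ 2 ≤ lam →
      ∃ (v : E 3 → ℝ) (V : E 3 → E 3), H01 (Ω ∩ Wd (Real.pi / k)) v V ∧
        (Ea lam v V) ^ 3 < SS ^ 3 * ∫ x, v x ^ 6 := by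
  have hπ := Real.pi_pos
  have hπ2 := Real.pi_lt_d2
  have hB1 := B1_nonneg
  have hB2 := B2_pos
  have hB6 := B6_pos
  have hK6 := K6_pos
  have hS := SS_pos
  obtain ⟨P, hP⟩ : ∃ P : ℝ, P = (2 * B1 * B2 + B2) * (Real.pi * R / 2) := ⟨_, rfl⟩
  have hP0 : 0 < P := by rw [hP]; positivity
  obtain ⟨Q, hQ⟩ : ∃ Q : ℝ, Q = P ^ 3 / (SS ^ 3 * (B6 ^ 2 * K6 * (R / 2))) := ⟨_, rfl⟩
  have hQ0 : 0 < Q := by rw [hQ]; positivity
  obtain ⟨A, hA⟩ : ∃ A : ℝ, A = 1 + Q := ⟨_, rfl⟩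
  have hA0 : 0 < A := by rw [hA]; positivity
  have hAQ : P ^ 3 < SS ^ 3 * (A ^ 2 * B6 ^ 2 * K6 * (R / 2)) := by
    have h1 : P ^ 3 = Q * (SS ^ 3 * (B6 ^ 2 * K6 * (R / 2))) := by
      rw [hQ]; field_simp
    have h2 : Q < A ^ 2 := by rw [hA]; nlinarith
    have h3 : 0 < SS ^ 3 * (B6 ^ 2 * K6 * (R / 2)) := by positivity
    calc P ^ 3 = Q * (SS ^ 3 * (B6 ^ 2 * K6 * (R / 2))) := h1
      _ < A ^ 2 * (SS ^ 3 * (B6 ^ 2 * K6 * (R / 2))) := mul_lt_mul_of_pos_right h2 h3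
      _ = _ := by ring
  -- choice of `δ`
  obtain ⟨δ, hδ1, hδ0⟩ : ∃ δ : ℝ,
      A ^ 2 * B2 * (1 / R ^ 2 - 1 / ((1 + δ) * R) ^ 2) < 1 ∧ 0 < δ := by
    have hc : ContinuousAt (fun δ : ℝ => A ^ 2 * B2 * (1 / R ^ 2 - 1 / ((1 + δ) * R) ^ 2)) 0 := by
      apply ContinuousAt.mul continuousAt_const
      apply ContinuousAt.sub continuousAt_const
      apply ContinuousAt.div continuousAt_const (by fun_prop)
      simp [hR.ne']
    have h1 : A ^ 2 * B2 * (1 / R ^ 2 - 1 / ((1 + 0) * R) ^ 2) < 1 := by simp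
    have h2 : ∀ᶠ δ in 𝓝 (0:ℝ), A ^ 2 * B2 * (1 / R ^ 2 - 1 / ((1 + δ) * R) ^ 2) < 1 :=
      hc.eventually_lt continuousAt_const h1
    obtain ⟨δ, h3, h4⟩ := ((h2.filter_mono nhdsWithin_le_nhds).and
      (self_mem_nhdsWithin : Set.Ioi (0:ℝ) ∈ 𝓝[>] 0)).exists
    exact ⟨δ, h3, h4⟩
  obtain ⟨M, hM⟩ : ∃ M : ℝ, M = C * ((2 * A + 5 * R) / c0) + 2 * A := ⟨_, rfl⟩
  have hM0 : 0 < M := by
    rw [hM]
    have : 0 ≤ C * ((2 * A + 5 * R) / c0) := by positivity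
    linarith
  have T1 : Tendsto (fun k : ℕ => M / (k : ℝ)) atTop (𝓝 0) :=
    tendsto_const_div_atTop_nhds_zero_nat M
  have e2 : ∀ᶠ k : ℕ in atTop, M / (k : ℝ) < R / 2 :=
    T1.eventually_lt_const (by positivity)
  have e1 : ∀ᶠ k : ℕ in atTop, ((2 * A + 5 * R) / c0) / (k : ℝ) < s0 :=
    (tendsto_const_div_atTop_nhds_zero_nat ((2 * A + 5 * R) / c0)).eventually_lt_const hs0
  have e3 : ∀ᶠ k : ℕ in atTop,
      A ^ 2 * B2 * (1 / (R - M / (k : ℝ)) ^ 2 - 1 / ((1 + δ) * R) ^ 2) < 1 := by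
    have hc : ContinuousAt (fun t : ℝ => A ^ 2 * B2 * (1 / (R - t) ^ 2 -
        1 / ((1 + δ) * R) ^ 2)) 0 := by
      apply ContinuousAt.mul continuousAt_const
      apply ContinuousAt.sub _ continuousAt_const
      apply ContinuousAt.div continuousAt_const (by fun_prop)
      simp [hR.ne']
    have h1 : A ^ 2 * B2 * (1 / (R - 0) ^ 2 - 1 / ((1 + δ) * R) ^ 2) < 1 := by
      rw [sub_zero]; exact hδ1
    have h2 : ∀ᶠ t in 𝓝 (0:ℝ), A ^ 2 * B2 * (1 / (R - t) ^ 2 - 1 / ((1 + δ) * R) ^ 2) < 1 :=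
      hc.eventually_lt continuousAt_const h1
    exact T1.eventually h2
  obtain ⟨k1, hk1⟩ := eventually_atTop.1 ((e1.and e2).and e3)
  refine ⟨δ, hδ0, max k1 3, le_max_right _ _, fun k hk lam hlam => ?_⟩
  obtain ⟨⟨f1, f2⟩, f3⟩ := hk1 k ((le_max_left _ _).trans hk)
  have hk3 : (3:ℝ) ≤ k := by exact_mod_cast (le_max_right _ _).trans hk
  have hk0 : (0:ℝ) < k := by linarith
  obtain ⟨s, hs⟩ : ∃ s : ℝ, s = ((2 * A + 5 * R) / c0) / (k : ℝ) := ⟨_, rfl⟩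
  have hspos : 0 < s := by rw [hs]; positivity
  rw [← hs] at f1
  have hcs : c0 * s = (2 * A + 5 * R) / k := by rw [hs]; field_simp
  obtain ⟨q0, q2, hq0, hball⟩ := hcone s hspos f1
  have hq0R : q0 ≤ R := by
    have h1 : (!₂[q0, 0, q2] : E 3) ∈ Ω := by
      apply hball
      have : 0 < (c0 * s) ^ 2 := by positivity
      simpa using this
    have h2 := hsup _ h1
    have h3 : q0 ^ 2 ≤ R ^ 2 := by simpa using h2
    exact le_of_sq_le_sq h3 hR.le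
  obtain ⟨a, ha⟩ : ∃ a : ℝ, a = A / k := ⟨_, rfl⟩
  have ha0 : 0 < a := by rw [ha]; positivity
  have hlow : R - M / k ≤ q0 - 2 * a := by
    have : M / k = C * s + 2 * a := by
      rw [hM, hs, ha]; field_simp
    linarith
  have hRM : R / 2 ≤ R - M / k := by linarith
  have hRM0 : 0 < R - M / k := by linarith
  obtain ⟨om, hom⟩ : ∃ om : ℝ, om = (q0 - 2 * a) / k := ⟨_, rfl⟩
  have hq2a : 0 < q0 - 2 * a := by linarith
  have hom0 : 0 < om := by rw [hom]; positivity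
  have homR : om ≤ R / k := by
    rw [hom]
    apply div_le_div_of_nonneg_right _ hk0.le
    linarith
  have homR2 : (R / 2) / k ≤ om := by
    rw [hom]
    apply div_le_div_of_nonneg_right _ hk0.le
    linarith
  have hα0 : 0 < Real.pi / k := by positivity
  have hα1 : Real.pi / k < Real.pi / 2 := by
    apply div_lt_div_of_pos_left hπ (by norm_num) (by linarith)
  obtain ⟨v, V, hvV, hE, h6⟩ := test_fn hO (q0 := q0) (q2 := q2) ha0 hom0 hα0 hα1
    (fun x h0 h1 h2 => by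
      apply hball
      have g0 : (x 0 - q0) ^ 2 ≤ a ^ 2 := sq_le_sq' (abs_le.1 h0).1 (abs_le.1 h0).2
      have g2 : (x 2 - q2) ^ 2 ≤ a ^ 2 := sq_le_sq' (abs_le.1 h2).1 (abs_le.1 h2).2
      have g1 : |x 1| ≤ 5 * (R / k) := by
        have j1 := (abs_le.1 h1).1
        have j2 := (abs_le.1 h1).2
        have j3 : Real.pi * om ≤ 3.15 * om := mul_le_mul_of_nonneg_right hπ2.le hom0.le
        have j4 : 0 < Real.pi * om := by positivity
        rw [abs_le]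
        constructor
        · linarith only [j1, j3, j4, homR, hom0]
        · linarith only [j2, j3, j4, homR, hom0]
      have g1' : (x 1) ^ 2 ≤ (5 * (R / k)) ^ 2 := sq_le_sq' (abs_le.1 g1).1 (abs_le.1 g1).2
      have g3 : (c0 * s) ^ 2 = (2 * a + 5 * (R / k)) ^ 2 := by
        rw [hcs, ha]; ring
      have g4 : 0 < a * (R / k) := by positivity
      have g5 : 0 < a ^ 2 := by positivity
      rw [g3]
      have g6 : 0 < (R / k) ^ 2 := by positivity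
      linarith only [g0, g1', g2, g4, g5, g6, show (2 * a + 5 * (R / k)) ^ 2 =
        4 * a ^ 2 + 20 * (a * (R / k)) + 25 * (R / k) ^ 2 by ring,
        show (5 * (R / k)) ^ 2 = 25 * (R / k) ^ 2 by ring])
    (by rw [hom]; apply le_of_eq; field_simp)
  refine ⟨v, V, hvV, ?_⟩
  -- the estimate
  have x1 : 1 / om ^ 2 ≤ (k:ℝ) ^ 2 * (1 / (R - M / k) ^ 2) := by
    have : (R - M / k) / k ≤ om := by
      rw [hom]
      exact div_le_div_of_nonneg_right hlow hk0.le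
    calc 1 / om ^ 2 ≤ 1 / ((R - M / k) / k) ^ 2 := by
          apply one_div_le_one_div_of_le (by positivity)
          exact pow_le_pow_left₀ (by positivity) this 2
      _ = _ := by field_simp
  have x2 : (k:ℝ) ^ 2 * (1 / ((1 + δ) * R) ^ 2) ≤ lam := by
    refine le_trans (le_of_eq ?_) hlam
    field_simp
  have x3 : (1 / om ^ 2 - lam) * (a * B2) ^ 2 ≤ B2 := by
    calc (1 / om ^ 2 - lam) * (a * B2) ^ 2
        ≤ ((k:ℝ) ^ 2 * (1 / (R - M / k) ^ 2) - (k:ℝ) ^ 2 * (1 / ((1 + δ) * R) ^ 2)) *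
          (a * B2) ^ 2 := by
          apply mul_le_mul_of_nonneg_right _ (by positivity)
          linarith
      _ = (A ^ 2 * B2 * (1 / (R - M / (k : ℝ)) ^ 2 - 1 / ((1 + δ) * R) ^ 2)) * B2 := by
          rw [ha]; field_simp
      _ ≤ 1 * B2 := mul_le_mul_of_nonneg_right f3.le hB2.le
      _ = B2 := one_mul _
  have x4 : Ea lam v V ≤ P / k := by
    rw [hE lam]
    calc (2 * B1 * B2 + (1 / om ^ 2 - lam) * (a * B2) ^ 2) * (Real.pi * om / 2)
        ≤ (2 * B1 * B2 + B2) * (Real.pi * om / 2) := by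
          apply mul_le_mul_of_nonneg_right _ (by positivity)
          linarith
      _ ≤ (2 * B1 * B2 + B2) * (Real.pi * (R / k) / 2) := by
          apply mul_le_mul_of_nonneg_left _ (by positivity)
          have := mul_le_mul_of_nonneg_left homR hπ.le
          linarith
      _ = P / k := by rw [hP]; field_simp
  have x5 : (Ea lam v V) ^ 3 ≤ (P / k) ^ 3 := (Odd.strictMono_pow (by decide)).monotone x4
  have x6 : (A / k * B6) ^ 2 * ((R / 2) / k * K6) ≤ ∫ x, v x ^ 6 := by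
    rw [h6, ← ha]
    apply mul_le_mul_of_nonneg_left _ (by positivity)
    exact mul_le_mul_of_nonneg_right homR2 hK6.le
  calc (Ea lam v V) ^ 3 ≤ (P / k) ^ 3 := x5
    _ = P ^ 3 / k ^ 3 := by ring
    _ < (SS ^ 3 * (A ^ 2 * B6 ^ 2 * K6 * (R / 2))) / k ^ 3 :=
        div_lt_div_of_pos_right hAQ (by positivity)
    _ = SS ^ 3 * ((A / k * B6) ^ 2 * ((R / 2) / k * K6)) := by field_simp
    _ ≤ SS ^ 3 * ∫ x, v x ^ 6 := mul_le_mul_of_nonneg_left x6 (by positivity)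

end Run7.h104
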