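import Pool.Agent.Run7.h104.Box3

/-! # Poincaré's inequality on open subsets of the line -/

set_option autoImplicit false
set_option linter.unusedSectionVars false
set_option linter.unusedVariables false

open MeasureTheory Filter Topology
open scoped ContDiff ENNReal NNReal RealInnerProductSpace

namespace Run7.h104

open Pool.Agent.R217.BN (E cexp sobS H01)
open Pool.Agent.R217.HS
open Pool.Agent.R217.KM

lemma wirt {U : Set ℝ} (hU : IsOpen U) {c : ℝ} (hc : 0 < c)
    (hI : ∀ a b, a < b → Set.Ioo a b ⊆ U → c ≤ (Real.pi / (b - a)) ^ 2) {g : ℝ → ℝ}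
    (hg : ContDiff ℝ 1 g) (hs : HasCompactSupport g) (hsub : tsupport g ⊆ U) :
    c * ∫ t, g t ^ 2 ≤ ∫ t, deriv g t ^ 2 := by
  have hπ := Real.pi_pos
  obtain ⟨s, hsd⟩ : ∃ s, s = √c := ⟨_, rfl⟩
  have hs0 : 0 < s := by rw [hsd]; exact Real.sqrt_pos.2 hc
  have hsc : s ^ 2 = c := by rw [hsd]; exact Real.sq_sqrt hc.le
  have hlen : ∀ a b, a < b → Set.Ioo a b ⊆ U → b - a ≤ Real.pi / s := by
    intro a b hab h
    have h1 := hI a b hab h
    have h2 : 0 < b - a := by linarith
    rw [← hsc] at h1
    have h3 := le_of_sq_le_sq h1 (by positivity)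
    rw [le_div_iff₀ hs0]
    rw [le_div_iff₀ h2] at h3
    linarith
  let α : ℝ → ℝ := fun t => sInf (connectedComponentIn U t)
  -- properties of the left end point
  have hCU : ∀ t, connectedComponentIn U t ⊆ U := fun t => connectedComponentIn_subset U t
  have hCo : ∀ t, IsOpen (connectedComponentIn U t) := fun t => hU.connectedComponentIn
  have hCoc : ∀ t, (connectedComponentIn U t).OrdConnected := fun t =>
    isPreconnected_connectedComponentIn.ordConnected
  have hseg : ∀ t u v, u ∈ connectedComponentIn U t → v ∈ connectedComponentIn U t → u < v →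
      v - u ≤ Real.pi / s := by
    intro t u v hu hv huv
    apply hlen u v huv
    exact (Set.Ioo_subset_Icc_self.trans ((hCoc t).out hu hv)).trans (hCU t)
  have hbd : ∀ t ∈ U, BddBelow (connectedComponentIn U t) := by
    intro t ht
    refine ⟨t - Real.pi / s, fun u hu => ?_⟩
    have htC := mem_connectedComponentIn ht
    rcases lt_or_ge u t with h | h
    · have := hseg t u t hu htC h
      linarith
    · have : 0 < Real.pi / s := by positivity
      linarith
  have hα : ∀ t ∈ U, 0 < t - α t ∧ t - α t < Real.pi / s := by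
    intro t ht
    have htC := mem_connectedComponentIn ht
    obtain ⟨ε, hε, hb⟩ := Metric.isOpen_iff.1 (hCo t) t htC
    have hm : t - ε / 2 ∈ connectedComponentIn U t := by
      apply hb
      rw [Metric.mem_ball, Real.dist_eq, abs_lt]
      constructor <;> linarith
    have hp : t + ε / 2 ∈ connectedComponentIn U t := by
      apply hb
      rw [Metric.mem_ball, Real.dist_eq, abs_lt]
      constructor <;> linarith
    constructor
    · have : α t ≤ t - ε / 2 := csInf_le (hbd t ht) hm
      linarith
    · have : t + ε / 2 - Real.pi / s ≤ α t := by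
        apply le_csInf ⟨t, htC⟩
        intro u hu
        rcases lt_or_ge u (t + ε / 2) with h | h
        · have := hseg t u (t + ε / 2) hu hp h
          linarith
        · have : 0 < Real.pi / s := by positivity
          linarith
      linarith
  have hloc : ∀ t ∈ U, ∀ᶠ y in 𝓝 t, α y = α t := by
    intro t ht
    filter_upwards [(hCo t).mem_nhds (mem_connectedComponentIn ht)] with y hy
    show sInf (connectedComponentIn U y) = sInf (connectedComponentIn U t)
    rw [connectedComponentIn_eq hy]
  have hsin : ∀ t ∈ U, 0 < Real.sin (s * (t - α t)) := by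
    intro t ht
    obtain ⟨h1, h2⟩ := hα t ht
    apply Real.sin_pos_of_pos_of_lt_pi (by positivity)
    rw [lt_div_iff₀ hs0] at h2
    linarith
  let h : ℝ → ℝ := fun t => s * Real.cos (s * (t - α t)) / Real.sin (s * (t - α t))
  let F : ℝ → ℝ := fun t => g t ^ 2 * h t
  let F' : ℝ → ℝ := fun t => 2 * g t * deriv g t * h t - g t ^ 2 * (s ^ 2 + h t ^ 2)
  have hgz : ∀ t, t ∉ tsupport g → ∀ᶠ y in 𝓝 t, g y = 0 := by
    intro t ht
    filter_upwards [(isClosed_tsupport g).isOpen_compl.mem_nhds ht] with y hy
    exact image_eq_zero_of_notMem_tsupport hy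
  have hdg : ∀ t, HasDerivAt g (deriv g t) t := fun t =>
    ((hg.differentiable (by norm_num)) t).hasDerivAt
  have hFd : ∀ t, HasDerivAt F (F' t) t := by
    intro t
    by_cases ht : t ∈ tsupport g
    · have htU := hsub ht
      have hsn := (hsin t htU).ne'
      obtain ⟨a, ha⟩ : ∃ a, a = α t := ⟨_, rfl⟩
      have hev : F =ᶠ[𝓝 t] fun y => g y ^ 2 * (s * Real.cos (s * (y - a)) /
          Real.sin (s * (y - a))) := by
        filter_upwards [hloc t htU] with y hy
        show g y ^ 2 * (s * Real.cos (s * (y - α y)) / Real.sin (s * (y - α y))) = _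
        rw [hy, ha]
      have hlin : HasDerivAt (fun y : ℝ => s * (y - a)) s t := by
        have := ((hasDerivAt_id t).sub_const a).const_mul s
        simpa using this
      have hc1 := hlin.cos
      have hs1 := hlin.sin
      rw [← ha] at hsn
      have hq : HasDerivAt (fun y => s * Real.cos (s * (y - a)) / Real.sin (s * (y - a)))
          ((s * (-Real.sin (s * (t - a)) * s) * Real.sin (s * (t - a)) -
            s * Real.cos (s * (t - a)) * (Real.cos (s * (t - a)) * s)) /
              Real.sin (s * (t - a)) ^ 2) t := (hc1.const_mul s).div hs1 hsn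
      have hg2 : HasDerivAt (fun y => g y ^ 2) (2 * g t * deriv g t) t := by
        have := (hdg t).fun_pow 2
        simpa using this
      have hfull : HasDerivAt (fun y => g y ^ 2 * (s * Real.cos (s * (y - a)) /
          Real.sin (s * (y - a))))
          (2 * g t * deriv g t * (s * Real.cos (s * (t - a)) / Real.sin (s * (t - a))) +
            g t ^ 2 * ((s * (-Real.sin (s * (t - a)) * s) * Real.sin (s * (t - a)) -
            s * Real.cos (s * (t - a)) * (Real.cos (s * (t - a)) * s)) /
              Real.sin (s * (t - a)) ^ 2)) t := hg2.mul hq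
      refine (hfull.congr_of_eventuallyEq hev).congr_deriv ?_
      show _ = 2 * g t * deriv g t * (s * Real.cos (s * (t - α t)) / Real.sin (s * (t - α t))) -
        g t ^ 2 * (s ^ 2 + (s * Real.cos (s * (t - α t)) / Real.sin (s * (t - α t))) ^ 2)
      rw [← ha]
      field_simp
      ring
    · have hz := hgz t ht
      have hev : F =ᶠ[𝓝 t] fun _ => (0:ℝ) := by
        filter_upwards [hz] with y hy
        show g y ^ 2 * h y = 0
        rw [hy]; ring
      have h1 : F' t = 0 := by
        show 2 * g t * deriv g t * h t - g t ^ 2 * (s ^ 2 + h t ^ 2) = 0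
        rw [hz.self_of_nhds]; ring
      rw [h1]
      exact (hasDerivAt_const t (0:ℝ)).congr_of_eventuallyEq hev
  have hhc : ∀ t ∈ U, ContinuousAt h t := by
    intro t htU
    have hsn := (hsin t htU).ne'
    obtain ⟨a, ha⟩ : ∃ a, a = α t := ⟨_, rfl⟩
    have hev : h =ᶠ[𝓝 t] fun y => (s * Real.cos (s * (y - a)) / Real.sin (s * (y - a))) := by
      filter_upwards [hloc t htU] with y hy
      show (s * Real.cos (s * (y - α y)) / Real.sin (s * (y - α y))) = _
      rw [hy, ha]
    rw [← ha] at hsn
    refine ContinuousAt.congr ?_ hev.symm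
    exact ContinuousAt.div (by fun_prop) (by fun_prop) hsn
  have hF'c : Continuous F' := by
    rw [continuous_iff_continuousAt]
    intro t
    by_cases ht : t ∈ tsupport g
    · have h1 := hhc t (hsub ht)
      have h2 : ContinuousAt g t := hg.continuous.continuousAt
      have h3 : ContinuousAt (deriv g) t := (hg.continuous_deriv (by norm_num)).continuousAt
      exact (((continuousAt_const.mul h2).mul h3).mul h1).sub
        ((h2.pow 2).mul (continuousAt_const.add (h1.pow 2)))
    · refine ContinuousAt.congr (continuousAt_const (y := (0:ℝ))) ?_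
      filter_upwards [hgz t ht] with y hy
      show 0 = 2 * g y * deriv g y * h y - g y ^ 2 * (s ^ 2 + h y ^ 2)
      rw [hy]; ring
  have hFc : Continuous F := continuous_iff_continuousAt.2 fun t => (hFd t).continuousAt
  have hFs : HasCompactSupport F := by
    refine hs.mono fun t ht => ?_
    rw [Function.mem_support] at ht ⊢
    intro hc
    apply ht
    show g t ^ 2 * h t = 0
    rw [hc]; ring
  have hF's : HasCompactSupport F' := by
    refine hs.mono fun t ht => ?_
    rw [Function.mem_support] at ht ⊢
    intro hc
    apply ht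
    show 2 * g t * deriv g t * h t - g t ^ 2 * (s ^ 2 + h t ^ 2) = 0
    rw [hc]; ring
  have hFi := hFc.integrable_of_hasCompactSupport hFs (μ := volume)
  have hF'i := hF'c.integrable_of_hasCompactSupport hF's (μ := volume)
  have h0 : ∫ t, F' t = 0 := integral_eq_zero_of_hasDerivAt_of_integrable hFd hF'i hFi
  have hgi : Integrable (fun t => g t ^ 2) := by
    apply (hg.continuous.pow 2).integrable_of_hasCompactSupport
    refine hs.mono fun t ht => ?_
    rw [Function.mem_support] at ht ⊢
    intro hc
    exact ht (by rw [Pi.pow_apply, hc]; norm_num)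
  have hdi : Integrable (fun t => deriv g t ^ 2) := by
    apply ((hg.continuous_deriv (by norm_num)).pow 2).integrable_of_hasCompactSupport
    refine hs.deriv.mono fun t ht => ?_
    rw [Function.mem_support] at ht ⊢
    intro hc
    exact ht (by rw [Pi.pow_apply, hc]; norm_num)
  have hle : ∫ t, (F' t + c * g t ^ 2) ≤ ∫ t, deriv g t ^ 2 := by
    apply integral_mono (hF'i.add (hgi.const_mul c)) hdi
    intro t
    show 2 * g t * deriv g t * h t - g t ^ 2 * (s ^ 2 + h t ^ 2) + c * g t ^ 2 ≤ deriv g t ^ 2
    rw [hsc]
    nlinarith [sq_nonneg (deriv g t - g t * h t)]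
  rw [integral_add hF'i (hgi.const_mul c), h0, zero_add, integral_const_mul] at hle
  exact hle

end Run7.h104
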