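import Pool.Agent.Run7.h104.Poi1

/-! # Fubini and Poincaré's inequality in wedges of solids with circular sections -/

set_option autoImplicit false
set_option linter.unusedSectionVars false
set_option linter.unusedVariables false

open MeasureTheory Filter Topology
open scoped ContDiff ENNReal NNReal RealInnerProductSpace

namespace Run7.h104

open Pool.Agent.R217.BN (E cexp sobS H01)
open Pool.Agent.R217.HS
open Pool.Agent.R217.KM

/-- the measurable equivalence splitting off the last coordinate -/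
noncomputable def spl : E 3 ≃ᵐ ℝ × (Fin 2 → ℝ) :=
  (MeasurableEquiv.toLp 2 (Fin 3 → ℝ)).symm.trans
    (MeasurableEquiv.piFinSuccAbove (fun _ : Fin 3 => ℝ) 2)

lemma spl_mp : MeasurePreserving spl volume volume :=
  (volume_preserving_piFinSuccAbove (fun _ : Fin 3 => ℝ) 2).comp
    (PiLp.volume_preserving_ofLp (Fin 3))

/-- base point of a vertical line -/
noncomputable def bp (y : Fin 2 → ℝ) : E 3 := !₂[y 0, y 1, 0]

lemma spl_symm (t : ℝ) (y : Fin 2 → ℝ) : spl.symm (t, y) = bp y + t • eb 2 := by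
  apply ext3
  · have : (spl.symm (t, y)) 0 = y 0 := rfl
    rw [this]; simp [bp]
  · have : (spl.symm (t, y)) 1 = y 1 := rfl
    rw [this]; simp [bp]
  · have : (spl.symm (t, y)) 2 = t := rfl
    rw [this]; simp [bp]

lemma vert_mono {F G : E 3 → ℝ} (hF : Integrable F) (hG : Integrable G)
    (h : ∀ y : Fin 2 → ℝ, ∫ t : ℝ, F (bp y + t • eb 2) ≤ ∫ t : ℝ, G (bp y + t • eb 2)) :
    ∫ x, F x ≤ ∫ x, G x := by
  have key : ∀ {H : E 3 → ℝ}, Integrable H → Integrable (fun p => H (spl.symm p)) := by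
    intro H hH
    have h1 : MeasurePreserving spl.symm volume volume := spl_mp.symm spl
    exact h1.integrable_comp_of_integrable hH
  have fub : ∀ {H : E 3 → ℝ}, Integrable H →
      ∫ x, H x = ∫ y : Fin 2 → ℝ, ∫ t : ℝ, H (bp y + t • eb 2) := by
    intro H hH
    have h1 : MeasurePreserving spl.symm volume volume := spl_mp.symm spl
    rw [← h1.integral_comp' H]
    have h2 := key hH
    rw [Measure.volume_eq_prod] at h2 ⊢
    rw [integral_prod_symm _ h2]
    simp only [spl_symm]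
  rw [fub hF, fub hG]
  have i1 := key hF
  have i2 := key hG
  rw [Measure.volume_eq_prod] at i1 i2
  have j1 := i1.integral_prod_right
  have j2 := i2.integral_prod_right
  simp only [spl_symm] at j1 j2
  exact integral_mono j1 j2 h

/-- restriction of a test function to a vertical line -/
lemma line_props {D : Set (E 3)} {φ : E 3 → ℝ} (hφ : TIn D φ) (p : E 3) :
    ContDiff ℝ 1 (fun t : ℝ => φ (p + t • eb 2)) ∧
    HasCompactSupport (fun t : ℝ => φ (p + t • eb 2)) ∧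
    tsupport (fun t : ℝ => φ (p + t • eb 2)) ⊆ {t | p + t • eb 2 ∈ D} ∧
    ∀ t, deriv (fun t : ℝ => φ (p + t • eb 2)) t = fderiv ℝ φ (p + t • eb 2) (eb 2) := by
  have hl : ContDiff ℝ ∞ (fun t : ℝ => p + t • eb 2) := by fun_prop
  have hsub : tsupport (fun t : ℝ => φ (p + t • eb 2)) ⊆ {t | p + t • eb 2 ∈ tsupport φ} := by
    apply closure_minimal
    · intro t ht
      exact subset_tsupport φ ht
    · exact (isClosed_tsupport φ).preimage hl.continuous
  refine ⟨(hφ.1.comp hl).of_le one_le_inf, ?_, fun t ht => hφ.2.2 (hsub ht), fun t => ?_⟩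
  · obtain ⟨R, hR⟩ := hφ.2.1.isCompact.isBounded.exists_norm_le
    have hb : Bornology.IsBounded {t : ℝ | p + t • eb 2 ∈ tsupport φ} := by
      rw [isBounded_iff_forall_norm_le]
      refine ⟨R + ‖p‖, fun t ht => ?_⟩
      have h1 := hR _ ht
      have h2 : ‖t • eb 2‖ ≤ ‖p + t • eb 2‖ + ‖p‖ := by
        have : t • eb 2 = (p + t • eb 2) - p := by abel
        rw [this]
        refine (norm_sub_le _ _).trans ?_
        simp
      rw [norm_smul] at h2
      have h3 : ‖(eb 2 : E 3)‖ = 1 := by simp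
      rw [h3, mul_one] at h2
      linarith
    exact Metric.isCompact_of_isClosed_isBounded (isClosed_tsupport _) (hb.subset hsub)
  · have h1 : HasDerivAt (fun t : ℝ => p + t • eb 2) (eb 2) t := by
      have := ((hasDerivAt_id t).smul_const (eb 2)).const_add p
      simpa using this
    exact ((hφ.tst.diff _).hasFDerivAt.comp_hasDerivAt t h1).deriv

/-- multiplication of a continuous function supported in `D` by a function continuous on `D` -/
lemma mul_cont {D : Set (E 3)} (hD : IsOpen D) {f w : E 3 → ℝ} (hf : Continuous f)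
    {K : Set (E 3)} (hK : IsClosed K) (hKD : K ⊆ D) (hfK : ∀ x, x ∉ K → f x = 0)
    (hw : ContinuousOn w D) : Continuous (fun x => f x * w x) := by
  rw [continuous_iff_continuousAt]
  intro x
  by_cases hx : x ∈ K
  · exact hf.continuousAt.mul (hw.continuousAt (hD.mem_nhds (hKD hx)))
  · refine ContinuousAt.congr (continuousAt_const (y := (0:ℝ))) ?_
    filter_upwards [hK.isOpen_compl.mem_nhds hx] with y hy
    rw [hfK y hy, zero_mul]

/-- squared distance to the axis -/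
def rr (x : E 3) : ℝ := x 0 ^ 2 + x 1 ^ 2

lemma rr_cont : Continuous rr := by unfold rr; fun_prop

lemma rr_pos {α : ℝ} {x : E 3} (hx : x ∈ Wd α) : 0 < rr x := by
  have := hx.1
  unfold rr; positivity

/-- the vertical inequality -/
lemma vert_ineq {Ω : Set (E 3)} (hO : IsOpen Ω)
    (hN : ∀ x ∈ Ω, ∀ y : E 3, y 2 = x 2 → rr y ≤ rr x → y ∈ Ω) {k : ℕ} {m : ℝ}
    (hm : ∀ q z1 z2, 0 < q → z1 < z2 → Cyl Ω q z1 z2 →
      m ≤ (k / q) ^ 2 + (Real.pi / (z2 - z1)) ^ 2) {α : ℝ} {φ : E 3 → ℝ}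
    (hφ : TIn (Ω ∩ Wd α) φ) :
    Integrable (fun x => φ x ^ 2 * (rr x)⁻¹) ∧
    ∫ x, (m * φ x ^ 2 - k ^ 2 * (φ x ^ 2 * (rr x)⁻¹)) ≤ ∫ x, (fderiv ℝ φ x (eb 2)) ^ 2 := by
  have hD : IsOpen (Ω ∩ Wd α) := hO.inter (Wd_open α)
  have hw : ContinuousOn (fun x => (rr x)⁻¹) (Ω ∩ Wd α) :=
    rr_cont.continuousOn.inv₀ fun x hx => (rr_pos hx.2).ne'
  have hc1 : Continuous (fun x => φ x ^ 2 * (rr x)⁻¹) :=
    mul_cont hD (hφ.1.continuous.pow 2) (isClosed_tsupport φ) hφ.2.2
      (fun x hx => by rw [image_eq_zero_of_notMem_tsupport hx]; norm_num) hw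
  have hi1 : Integrable (fun x => φ x ^ 2 * (rr x)⁻¹) := by
    apply hc1.integrable_of_hasCompactSupport
    refine hφ.2.1.mono fun x hx => ?_
    rw [Function.mem_support] at hx ⊢
    intro hc
    exact hx (by rw [hc]; ring)
  have hi2 : Integrable (fun x => φ x ^ 2) := (hφ.tst.memLp 2).integrable_sq
  have hi3 : Integrable (fun x => (fderiv ℝ φ x (eb 2)) ^ 2) := by
    apply ((((hφ.1.continuous_fderiv (by simp)).clm_apply
      continuous_const).pow 2)).integrable_of_hasCompactSupport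
    refine (hφ.2.1.fderiv_apply (𝕜 := ℝ) (eb 2)).mono fun x hx => ?_
    rw [Function.mem_support] at hx ⊢
    intro hc
    exact hx (by rw [Pi.pow_apply, hc]; norm_num)
  refine ⟨hi1, ?_⟩
  apply vert_mono ((hi2.const_mul m).sub (hi1.const_mul _)) hi3
  intro y
  obtain ⟨g1, g2, g3, g4⟩ := line_props hφ (bp y)
  obtain ⟨p, hp⟩ : ∃ p, p = bp y := ⟨_, rfl⟩
  rw [← hp] at g1 g2 g3 g4 ⊢
  have hrr : ∀ t : ℝ, rr (p + t • eb 2) = p 0 ^ 2 + p 1 ^ 2 := by
    intro t; unfold rr; simp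
  have hp2 : ∀ t : ℝ, (p + t • eb 2) 2 = t := by
    intro t; rw [hp]; simp [bp]
  have e1 : ∀ t : ℝ, m * φ (p + t • eb 2) ^ 2 - k ^ 2 * (φ (p + t • eb 2) ^ 2 *
      (rr (p + t • eb 2))⁻¹) = (m - k ^ 2 * (p 0 ^ 2 + p 1 ^ 2)⁻¹) * φ (p + t • eb 2) ^ 2 := by
    intro t; rw [hrr]; ring
  show ∫ t : ℝ, (m * φ (p + t • eb 2) ^ 2 - k ^ 2 * (φ (p + t • eb 2) ^ 2 *
      (rr (p + t • eb 2))⁻¹)) ≤ _
  simp only [e1, ← g4]
  rw [integral_const_mul]
  obtain ⟨c, hc⟩ : ∃ c, c = m - k ^ 2 * (p 0 ^ 2 + p 1 ^ 2)⁻¹ := ⟨_, rfl⟩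
  rw [← hc]
  rcases le_or_gt c 0 with hc0 | hc0
  · have h1 : 0 ≤ ∫ t : ℝ, φ (p + t • eb 2) ^ 2 := integral_nonneg fun t => by positivity
    have h2 : 0 ≤ ∫ t : ℝ, deriv (fun t : ℝ => φ (p + t • eb 2)) t ^ 2 :=
      integral_nonneg fun t => by positivity
    nlinarith
  · apply wirt (U := {t | p + t • eb 2 ∈ Ω ∩ Wd α}) _ hc0 _ g1 g2 g3
    · exact hD.preimage (by fun_prop)
    · intro a b hab hsub
      obtain ⟨t0, ht0⟩ : (Set.Ioo a b).Nonempty := Set.nonempty_Ioo.2 hab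
      have hpos : 0 < p 0 ^ 2 + p 1 ^ 2 := by
        have := rr_pos (hsub ht0).2
        rwa [hrr] at this
      have hq0 : 0 < √(p 0 ^ 2 + p 1 ^ 2) := Real.sqrt_pos.2 hpos
      have hqs : √(p 0 ^ 2 + p 1 ^ 2) ^ 2 = p 0 ^ 2 + p 1 ^ 2 := Real.sq_sqrt hpos.le
      have h1 := hm (√(p 0 ^ 2 + p 1 ^ 2)) a b hq0 hab (fun x hx0 hx1 hx2 => by
        have h2 : p + (x 2) • eb 2 ∈ Ω := (hsub (⟨hx1, hx2⟩ : x 2 ∈ Set.Ioo a b)).1
        refine hN _ h2 x ?_ ?_
        · rw [hp2]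
        · rw [hrr]
          rw [hqs] at hx0
          exact hx0.le)
      rw [div_pow, hqs] at h1
      rw [hc]
      rw [div_eq_mul_inv] at h1
      linarith

/-- the angular derivative -/
noncomputable def dth (φ : E 3 → ℝ) (x : E 3) : ℝ :=
  x 0 * fderiv ℝ φ x (eb 1) - x 1 * fderiv ℝ φ x (eb 0)

lemma dth_int {ψ : E 3 → ℝ} (hψ : ContDiff ℝ 1 ψ) (hs : HasCompactSupport ψ) :
    ∫ x, dth ψ x = 0 := by
  have c0 : ContDiff ℝ 1 fun x : E 3 => x 0 := (pj 0).contDiff
  have c1 : ContDiff ℝ 1 fun x : E 3 => x 1 := (pj 1).contDiff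
  have h0 := Pool.Agent.Helper486.TP.int_parts (fun x : E 3 => x 0) ψ c0 hψ hs (eb 1)
  have h1 := Pool.Agent.Helper486.TP.int_parts (fun x : E 3 => x 1) ψ c1 hψ hs (eb 0)
  have e0 : ∀ x : E 3, fderiv ℝ (fun x : E 3 => x 0) x (eb 1) = 0 := by
    intro x; rw [(pj_fderiv 0 x).fderiv]; simp
  have e1 : ∀ x : E 3, fderiv ℝ (fun x : E 3 => x 1) x (eb 0) = 0 := by
    intro x; rw [(pj_fderiv 1 x).fderiv]; simp
  simp only [e0, zero_mul, integral_zero, neg_zero] at h0
  simp only [e1, zero_mul, integral_zero, neg_zero] at h1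
  have hd : ∀ v : E 3, Continuous fun x => fderiv ℝ ψ x v := fun v =>
    (hψ.continuous_fderiv (by norm_num)).clm_apply continuous_const
  have i0 : Integrable (fun x : E 3 => x 0 * fderiv ℝ ψ x (eb 1)) :=
    (c0.continuous.mul (hd _)).integrable_of_hasCompactSupport
      (hs.fderiv_apply (𝕜 := ℝ) (eb 1)).mul_left
  have i1 : Integrable (fun x : E 3 => x 1 * fderiv ℝ ψ x (eb 0)) :=
    (c1.continuous.mul (hd _)).integrable_of_hasCompactSupport
      (hs.fderiv_apply (𝕜 := ℝ) (eb 0)).mul_left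
  unfold dth
  rw [integral_sub i0 i1, h0, h1, sub_zero]

/-- the rotation field -/
noncomputable def Jv (x : E 3) : E 3 := x 0 • eb 1 - x 1 • eb 0

lemma dth_line {f : E 3 → ℝ} {x : E 3} (hf : DifferentiableAt ℝ f x) :
    HasDerivAt (fun s : ℝ => f (x + s • Jv x)) (dth f x) 0 := by
  have h1 : HasDerivAt (fun s : ℝ => x + s • Jv x) (Jv x) 0 := by
    have := ((hasDerivAt_id (0:ℝ)).smul_const (Jv x)).const_add x
    simpa using this
  have h2 : HasFDerivAt f (fderiv ℝ f x) (x + (0:ℝ) • Jv x) := by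
    rw [zero_smul, add_zero]; exact hf.hasFDerivAt
  have h3 := h2.comp_hasDerivAt 0 h1
  have h4 : fderiv ℝ f x (Jv x) = dth f x := by
    unfold Jv dth
    rw [map_sub, map_smul, map_smul, smul_eq_mul, smul_eq_mul]
  rw [h4] at h3
  exact h3

lemma AB_rec {k : ℕ} (hk : 1 ≤ k) (x : E 3) :
    Ak k x = x 0 * Ak (k - 1) x - x 1 * Bk (k - 1) x ∧
    Bk k x = x 0 * Bk (k - 1) x + x 1 * Ak (k - 1) x := by
  obtain ⟨j, rfl⟩ : ∃ j, k = j + 1 := ⟨k - 1, by omega⟩
  rw [Nat.add_sub_cancel]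
  exact ⟨Ak_succ j x, Bk_succ j x⟩

lemma dth_A {k : ℕ} (hk : 1 ≤ k) (x : E 3) : dth (Ak k) x = -(k * Bk k x) := by
  unfold dth
  rw [(AB_fderiv k x).1.fderiv, (AB_rec hk x).2]
  simp
  ring

lemma dth_B {k : ℕ} (hk : 1 ≤ k) (x : E 3) : dth (Bk k) x = k * Ak k x := by
  unfold dth
  rw [(AB_fderiv k x).2.fderiv, (AB_rec hk x).1]
  simp
  ring

lemma dth_rr (x : E 3) : dth rr x = 0 := by
  have dr : HasFDerivAt rr ((2 * x 0) • pj 0 + (2 * x 1) • pj 1) x := by
    have h1 := ((pj_fderiv 0 x).mul (pj_fderiv 0 x)).add ((pj_fderiv 1 x).mul (pj_fderiv 1 x))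
    have e : rr = (fun w : E 3 => w 0 * w 0) + fun w : E 3 => w 1 * w 1 := by
      funext w; unfold rr; simp [sq]
    rw [e]
    refine HasFDerivAt.congr_fderiv (f' := x 0 • pj 0 + x 0 • pj 0 + (x 1 • pj 1 + x 1 • pj 1))
      h1 ?_
    ext v
    simp
    ring
  unfold dth
  rw [dr.fderiv]
  simp
  ring

/-- the angular inequality -/
lemma ang_ineq {D : Set (E 3)} (hD : IsOpen D) {k : ℕ} (hk : 1 ≤ k) (hDW : D ⊆ Wd (Real.pi / k))
    {φ : E 3 → ℝ} (hφ : TIn D φ) (hi : Integrable (fun x => φ x ^ 2 * (rr x)⁻¹)) :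
    Integrable (fun x => dth φ x ^ 2 * (rr x)⁻¹) ∧
    k ^ 2 * ∫ x, φ x ^ 2 * (rr x)⁻¹ ≤ ∫ x, dth φ x ^ 2 * (rr x)⁻¹ := by
  have hrr : ∀ x ∈ D, 0 < rr x := fun x hx => rr_pos (hDW hx)
  have hBp : ∀ x ∈ D, 0 < Bk k x := fun x hx => Bk_pos hk (hDW hx)
  have hk0 : (0:ℝ) < k := by exact_mod_cast hk
  have sA : ContDiff ℝ ∞ (Ak k) := by
    have h1 : Ak k = fun x => ((⟨x 0, x 1⟩ : ℂ) ^ k).re := rfl
    have hz : ContDiff ℝ ∞ (fun x : E 3 => zc x) := by
      have : (fun x : E 3 => zc x) = fun x : E 3 => ((x 0 : ℝ) : ℂ) + ((x 1 : ℝ) : ℂ) * Complex.I := by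
        funext x; apply Complex.ext <;> simp [zc]
      rw [this]
      have k0 : ContDiff ℝ ∞ (fun x : E 3 => ((x 0 : ℝ) : ℂ)) :=
        Complex.ofRealCLM.contDiff.comp (pj 0).contDiff
      have k1 : ContDiff ℝ ∞ (fun x : E 3 => ((x 1 : ℝ) : ℂ)) :=
        Complex.ofRealCLM.contDiff.comp (pj 1).contDiff
      exact k0.add (k1.mul contDiff_const)
    exact Complex.reCLM.contDiff.comp (hz.pow k)
  have sB := Bk_smooth k
  have sr : ContDiff ℝ ∞ rr := by
    have c0 : ContDiff ℝ ∞ fun x : E 3 => x 0 := (pj 0).contDiff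
    have c1 : ContDiff ℝ ∞ fun x : E 3 => x 1 := (pj 1).contDiff
    exact (c0.pow 2).add (c1.pow 2)
  let W : E 3 → ℝ := fun x => k * Ak k x * (Bk k x * rr x)⁻¹
  let ψ : E 3 → ℝ := fun x => φ x ^ 2 * W x
  have hz : ∀ x, φ x = 0 → ψ x = 0 := fun x hx => by dsimp only [ψ]; rw [hx]; ring
  have hnear : ∀ x, x ∉ tsupport φ → ∀ᶠ y in 𝓝 x, φ y = 0 := by
    intro x hx
    filter_upwards [(isClosed_tsupport φ).isOpen_compl.mem_nhds hx] with y hy
    exact image_eq_zero_of_notMem_tsupport hy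
  have hsm : ContDiff ℝ ∞ ψ := by
    rw [contDiff_iff_contDiffAt]
    intro x
    by_cases hx : x ∈ tsupport φ
    · have hx' := hφ.2.2 hx
      have hne : Bk k x * rr x ≠ 0 := (mul_pos (hBp x hx') (hrr x hx')).ne'
      exact (hφ.1.contDiffAt.pow 2).mul ((contDiffAt_const.mul sA.contDiffAt).mul
        ((sB.contDiffAt.mul sr.contDiffAt).inv hne))
    · refine (contDiffAt_const (c := (0:ℝ))).congr_of_eventuallyEq ?_
      filter_upwards [hnear x hx] with y hy
      exact hz y hy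
  have tψ : TIn D ψ := hφ.of_zero hsm hz
  have h0 := dth_int (tψ.1.of_le one_le_inf) tψ.2.1
  have hcd : Continuous (fun x => dth φ x) := by
    unfold dth
    have hd : ∀ v : E 3, Continuous fun x => fderiv ℝ φ x v := fun v =>
      (hφ.1.continuous_fderiv (by simp)).clm_apply continuous_const
    exact ((pj 0).continuous.mul (hd _)).sub ((pj 1).continuous.mul (hd _))
  have hfd0 : ∀ x, x ∉ tsupport φ → fderiv ℝ φ x = 0 := by
    intro x hx
    have : φ =ᶠ[𝓝 x] fun _ => (0:ℝ) := hnear x hx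
    rw [this.fderiv_eq]; simp
  have hcd2 : Continuous (fun x => dth φ x ^ 2 * (rr x)⁻¹) := by
    apply mul_cont hD (hcd.pow 2) (isClosed_tsupport φ) hφ.2.2
    · intro x hx
      show dth φ x ^ 2 = 0
      unfold dth; rw [hfd0 x hx]; simp
    · exact rr_cont.continuousOn.inv₀ fun x hx => (hrr x hx).ne'
  have hi2 : Integrable (fun x => dth φ x ^ 2 * (rr x)⁻¹) := by
    apply hcd2.integrable_of_hasCompactSupport
    apply HasCompactSupport.intro' hφ.2.1 (isClosed_tsupport φ)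
    intro x hx
    unfold dth; rw [hfd0 x hx]; simp
  have hi3 : Integrable (fun x => dth ψ x) := by
    have hd : ∀ v : E 3, Continuous fun x => fderiv ℝ ψ x v := fun v =>
      (tψ.1.continuous_fderiv (by simp)).clm_apply continuous_const
    unfold dth
    exact (((pj 0).continuous.mul (hd _)).integrable_of_hasCompactSupport
      (tψ.2.1.fderiv_apply (𝕜 := ℝ) (eb 1)).mul_left).sub
      (((pj 1).continuous.mul (hd _)).integrable_of_hasCompactSupport
      (tψ.2.1.fderiv_apply (𝕜 := ℝ) (eb 0)).mul_left)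
  refine ⟨hi2, ?_⟩
  have hpt : ∀ x, dth ψ x + k ^ 2 * (φ x ^ 2 * (rr x)⁻¹) ≤ dth φ x ^ 2 * (rr x)⁻¹ := by
    intro x
    by_cases hx : x ∈ tsupport φ
    · have hx' := hφ.2.2 hx
      have hB := hBp x hx'
      have hr := hrr x hx'
      have e : dth ψ x = 2 * φ x * dth φ x * (k * Ak k x / (Bk k x * rr x)) -
          φ x ^ 2 * (k ^ 2 * (Ak k x ^ 2 + Bk k x ^ 2) / (Bk k x ^ 2 * rr x)) := by
        have l1 := dth_line (hφ.tst.diff x)
        have l2 := dth_line (AB_fderiv k x).1.differentiableAt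
        have l3 := dth_line (AB_fderiv k x).2.differentiableAt
        have l4 := dth_line (x := x) ((sr.differentiable (by simp)) x)
        have l5 := dth_line (x := x) ((hsm.differentiable (by simp)) x)
        rw [dth_A hk] at l2
        rw [dth_B hk] at l3
        rw [dth_rr] at l4
        have z0 : x + (0:ℝ) • Jv x = x := by simp
        have l6 : HasDerivAt (fun s : ℝ => φ (x + s • Jv x) ^ 2 * (k * Ak k (x + s • Jv x) /
            (Bk k (x + s • Jv x) * rr (x + s • Jv x))))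
            (2 * φ x * dth φ x * (k * Ak k x / (Bk k x * rr x)) +
              φ x ^ 2 * ((k * (-(k * Bk k x)) * (Bk k x * rr x) -
                k * Ak k x * (k * Ak k x * rr x + Bk k x * 0)) / (Bk k x * rr x) ^ 2)) 0 := by
          have m1 : HasDerivAt (fun s : ℝ => φ (x + s • Jv x) ^ 2) (2 * φ x * dth φ x) 0 := by
            have := l1.fun_pow 2
            rw [z0] at this
            simpa using this
          have m2 : HasDerivAt (fun s : ℝ => Bk k (x + s • Jv x) * rr (x + s • Jv x))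
              (k * Ak k x * rr x + Bk k x * 0) 0 := by
            have := l3.fun_mul l4
            rw [z0] at this
            exact this
          have m3 : HasDerivAt (fun s : ℝ => k * Ak k (x + s • Jv x)) (k * (-(k * Bk k x))) 0 :=
            l2.const_mul (k:ℝ)
          have hne : Bk k (x + (0:ℝ) • Jv x) * rr (x + (0:ℝ) • Jv x) ≠ 0 := by
            rw [z0]; exact (mul_pos hB hr).ne'
          have m4 := m3.fun_div m2 hne
          have m5 := m1.fun_mul m4
          rw [z0] at m5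
          exact m5
        have hcoe : (fun s : ℝ => φ (x + s • Jv x) ^ 2 * (k * Ak k (x + s • Jv x) /
            (Bk k (x + s • Jv x) * rr (x + s • Jv x)))) = fun s : ℝ => ψ (x + s • Jv x) := by
          funext s
          rw [div_eq_mul_inv]
        rw [hcoe] at l6
        rw [l5.unique l6]
        have hb0 : Bk k x ≠ 0 := hB.ne'
        have hr0 : rr x ≠ 0 := hr.ne'
        field_simp
        ring
      rw [e]
      have h2 : 0 ≤ (dth φ x - φ x * (k * Ak k x / Bk k x)) ^ 2 * (rr x)⁻¹ := by positivity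
      have h3 : (dth φ x - φ x * (k * Ak k x / Bk k x)) ^ 2 * (rr x)⁻¹ =
          dth φ x ^ 2 * (rr x)⁻¹ - (2 * φ x * dth φ x * (k * Ak k x / (Bk k x * rr x)) -
          φ x ^ 2 * (k ^ 2 * (Ak k x ^ 2 + Bk k x ^ 2) / (Bk k x ^ 2 * rr x)) +
          k ^ 2 * (φ x ^ 2 * (rr x)⁻¹)) := by
        field_simp
        ring
      linarith
    · have hφ0 : φ x = 0 := image_eq_zero_of_notMem_tsupport hx
      have h1 : dth ψ x = 0 := by
        have : ψ =ᶠ[𝓝 x] fun _ => (0:ℝ) := by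
          filter_upwards [hnear x hx] with y hy
          exact hz y hy
        unfold dth; rw [this.fderiv_eq]; simp
      have h2 : dth φ x = 0 := by unfold dth; rw [hfd0 x hx]; simp
      rw [h1, h2, hφ0]; simp
  have hle := integral_mono (hi3.add (hi.const_mul _)) hi2 hpt
  have e2 : ∫ x, ((fun x => dth ψ x) + fun x => (k:ℝ) ^ 2 * (φ x ^ 2 * (rr x)⁻¹)) x =
      k ^ 2 * ∫ x, φ x ^ 2 * (rr x)⁻¹ := by
    have : ∫ x, ((fun x => dth ψ x) + fun x => (k:ℝ) ^ 2 * (φ x ^ 2 * (rr x)⁻¹)) x =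
        ∫ x, (dth ψ x + (k:ℝ) ^ 2 * (φ x ^ 2 * (rr x)⁻¹)) := rfl
    rw [this, integral_add hi3 (hi.const_mul _), h0, zero_add, integral_const_mul]
  rw [e2] at hle
  exact hle

end Run7.h104
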