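import Pool.Agent.Run7.h104.Poi2

/-! # Poincaré's inequality and many energy levels -/

set_option autoImplicit false
set_option linter.unusedSectionVars false
set_option linter.unusedVariables false

open MeasureTheory Filter Topology
open scoped ContDiff ENNReal NNReal RealInnerProductSpace

namespace Run7.h104

open Pool.Agent.R217.BN (E cexp sobS H01)
open Pool.Agent.R217.HS
open Pool.Agent.R217.KM

/-- **Poincaré inequality in wedges of solids with circular sections** -/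
theorem cyl_poincare {Ω : Set (E 3)} (hO : IsOpen Ω)
    (hN : ∀ x ∈ Ω, ∀ y : E 3, y 2 = x 2 → rr y ≤ rr x → y ∈ Ω) {k : ℕ} (hk : 1 ≤ k) {m : ℝ}
    (hm : ∀ q z1 z2, 0 < q → z1 < z2 → Cyl Ω q z1 z2 →
      m ≤ (k / q) ^ 2 + (Real.pi / (z2 - z1)) ^ 2) :
    PoI (Ω ∩ Wd (Real.pi / k)) m := by
  apply poI_of_test
  intro φ hφ
  have hD : IsOpen (Ω ∩ Wd (Real.pi / k)) := hO.inter (Wd_open _)
  obtain ⟨hi, hv⟩ := vert_ineq hO hN hm hφ
  obtain ⟨hi2, ha⟩ := ang_ineq hD hk Set.inter_subset_right hφ hi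
  have hi0 : Integrable (fun x => φ x ^ 2) := (hφ.tst.memLp 2).integrable_sq
  have hig : Integrable (fun x => ‖gradient φ x‖ ^ 2) := integrable_sq (hφ.tst.memLp_grad 2)
  have hi3 : Integrable (fun x => (fderiv ℝ φ x (eb 2)) ^ 2) := by
    apply ((((hφ.1.continuous_fderiv (by simp)).clm_apply
      continuous_const).pow 2)).integrable_of_hasCompactSupport
    refine (hφ.2.1.fderiv_apply (𝕜 := ℝ) (eb 2)).mono fun x hx => ?_
    rw [Function.mem_support] at hx ⊢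
    intro hc
    exact hx (by rw [Pi.pow_apply, hc]; norm_num)
  have hpt : ∀ x, (fderiv ℝ φ x (eb 2)) ^ 2 + dth φ x ^ 2 * (rr x)⁻¹ ≤ ‖gradient φ x‖ ^ 2 := by
    intro x
    rw [← real_inner_self_eq_norm_sq, inner_grads, Fin.sum_univ_three]
    obtain ⟨a, had⟩ : ∃ a, a = fderiv ℝ φ x (eb 0) := ⟨_, rfl⟩
    obtain ⟨b, hbd⟩ : ∃ b, b = fderiv ℝ φ x (eb 1) := ⟨_, rfl⟩
    obtain ⟨c, hcd⟩ : ∃ c, c = fderiv ℝ φ x (eb 2) := ⟨_, rfl⟩
    have h1 : dth φ x ^ 2 * (rr x)⁻¹ ≤ a * a + b * b := by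
      unfold dth
      rw [← had, ← hbd]
      rcases eq_or_lt_of_le (show 0 ≤ rr x by unfold rr; positivity) with h | h
      · rw [← h]; simp; nlinarith [mul_self_nonneg a, mul_self_nonneg b]
      · rw [← div_eq_mul_inv, div_le_iff₀ h]
        unfold rr
        nlinarith [sq_nonneg (x 0 * a + x 1 * b)]
    rw [← had, ← hbd, ← hcd]
    nlinarith
  have h1 := integral_mono (hi3.add hi2) hig hpt
  have h2 : ∫ x, ((fun x => (fderiv ℝ φ x (eb 2)) ^ 2) + fun x => dth φ x ^ 2 * (rr x)⁻¹) x =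
      (∫ x, (fderiv ℝ φ x (eb 2)) ^ 2) + ∫ x, dth φ x ^ 2 * (rr x)⁻¹ := integral_add hi3 hi2
  rw [h2] at h1
  rw [integral_sub (hi0.const_mul m) (hi.const_mul _), integral_const_mul,
    integral_const_mul] at hv
  linarith

/-- **many energy levels from a window of admissible wedges** -/
theorem levels {Ω : Set (E 3)} (hO : IsOpen Ω) (hb : Bornology.IsBounded Ω)
    (hext : ∀ p ∈ frontier Ω, ∃ (y : E 3) (r : ℝ), 0 < r ∧ ‖p - y‖ = r ∧ ∀ x ∈ Ω, r ≤ ‖x - y‖)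
    (hrot : ∀ θ x, x ∈ Ω → rot θ x ∈ Ω) (hror : ∀ θ x, x ∈ Ω → ror θ x ∈ Ω)
    {lam : ℝ} (hlam : 0 < lam) (m N : ℕ) (hm : 1 ≤ m)
    (hP : ∀ k : ℕ, m ≤ k → k ≤ m + N → ∃ κ, lam < κ ∧ PoI (Ω ∩ Wd (Real.pi / k)) κ)
    (hT : ∀ k : ℕ, m ≤ k → k ≤ m + N → ∃ (v : E 3 → ℝ) (V : E 3 → E 3),
      H01 (Ω ∩ Wd (Real.pi / k)) v V ∧ (Ea lam v V) ^ 3 < SS ^ 3 * ∫ x, v x ^ 6) :
    ∃ T : Finset ℝ, T.card = N + 1 ∧
      ∀ t ∈ T, Set.Infinite {w | w ∈ Sol Ω lam ∧ ∫ x, w x ^ 6 = t} := by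
  have hex : ∀ k : ℕ, ∃ I : ℝ, m ≤ k → k ≤ m + N →
      0 < I ∧ ∃ (u : E 3 → ℝ) (G : E 3 → E 3), H01 (Ω ∩ Wd (Real.pi / k)) u G ∧
        WSol (Ω ∩ Wd (Real.pi / k)) lam u G ∧ ∫ x, u x ^ 6 = I ∧ Ea lam u G = I ∧
        ∀ (v : E 3 → ℝ) (V : E 3 → E 3), H01 (Ω ∩ Wd (Real.pi / k)) v V →
          I ^ 2 * ∫ x, v x ^ 6 ≤ (Ea lam v V) ^ 3 := by
    intro k
    by_cases hk : m ≤ k ∧ k ≤ m + N
    swap
    · exact ⟨0, fun h1 h2 => absurd ⟨h1, h2⟩ hk⟩
    obtain ⟨h1, h2⟩ := hk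
    obtain ⟨κ, hκ, hPo⟩ := hP k h1 h2
    obtain ⟨v, V, hv, hlow⟩ := hT k h1 h2
    obtain ⟨s, u, G, g1, g2, g3, g4, g5, g6, g7⟩ := varV
      (hO.inter (Wd_open _)).measurableSet (hb.subset Set.inter_subset_left) hlam.le hκ
      hPo hv hlow
    refine ⟨∫ x, u x ^ 6, fun _ _ => ⟨g5, u, G, g2, g4, rfl, g7, ?_⟩⟩
    rw [g6]
    exact g3
  choose I hI using hex
  let t : ℕ → ℝ := fun k => 2 * k * I k
  have hmono : ∀ i j : ℕ, i < j → j ≤ N → t (m + i) < t (m + j) := by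
    intro i j hij hj
    obtain ⟨p1, u1, G1, q1, q2, q3, q4, q5⟩ := hI (m + i) (by omega) (by omega)
    obtain ⟨p2, u2, G2, r1, r2, r3, r4, r5⟩ := hI (m + j) (by omega) (by omega)
    have hsub : Ω ∩ Wd (Real.pi / ((m + j : ℕ) : ℝ)) ⊆ Ω ∩ Wd (Real.pi / ((m + i : ℕ) : ℝ)) :=
      Set.inter_subset_inter_right _ (Wd_anti (by omega) (by omega))
    have h1 := q5 u2 G2 (h01_mono hsub r1)
    rw [r3, r4] at h1
    have h2 : I (m + i) ^ 2 ≤ I (m + j) ^ 2 := by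
      have : I (m + i) ^ 2 * I (m + j) ≤ I (m + j) ^ 2 * I (m + j) := by
        rw [← pow_succ]; exact h1
      exact le_of_mul_le_mul_right this p2
    have h3 : I (m + i) ≤ I (m + j) := le_of_sq_le_sq h2 p2.le
    show 2 * ((m + i : ℕ) : ℝ) * I (m + i) < 2 * ((m + j : ℕ) : ℝ) * I (m + j)
    have h4 : ((m + i : ℕ) : ℝ) < ((m + j : ℕ) : ℝ) := by exact_mod_cast (by omega : m + i < m + j)
    have h5 : (0:ℝ) ≤ ((m + i : ℕ) : ℝ) := by positivity
    calc 2 * ((m + i : ℕ) : ℝ) * I (m + i) ≤ 2 * ((m + i : ℕ) : ℝ) * I (m + j) :=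
          mul_le_mul_of_nonneg_left h3 (by positivity)
      _ < _ := by
          apply mul_lt_mul_of_pos_right _ p2
          linarith
  have hinj : Set.InjOn (fun j => t (m + j)) (Finset.range (N + 1) : Set ℕ) := by
    intro i hi j hj hij
    rw [Finset.coe_range, Set.mem_Iio] at hi hj
    rcases lt_trichotomy i j with h | h | h
    · exact absurd hij (hmono i j h (by omega)).ne
    · exact h
    · exact absurd hij (hmono j i h (by omega)).ne'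
  refine ⟨(Finset.range (N + 1)).image (fun j => t (m + j)), ?_, fun e he => ?_⟩
  · rw [Finset.card_image_of_injOn hinj, Finset.card_range]
  · rw [Finset.mem_image] at he
    obtain ⟨j, hj, rfl⟩ := he
    rw [Finset.mem_range] at hj
    obtain ⟨p1, u1, G1, q1, q2, q3, q4, q5⟩ := hI (m + j) (by omega) (by omega)
    have := inf_sols hO hb hext hrot hror hlam.le (k := m + j) (by omega) q1 q2
      (by rw [q3]; exact p1)
    rw [q3] at this
    exact this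

end Run7.h104
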