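import Pool.Agent.Run7.h104.Ext

/-! # Higher integrability of weak solutions -/

set_option autoImplicit false
set_option linter.unusedSectionVars false
set_option linter.unusedVariables false

open MeasureTheory Filter Topology
open scoped ContDiff ENNReal NNReal RealInnerProductSpace

namespace Run7.h104

open Pool.Agent.R217.BN (E cexp sobS H01)
open Pool.Agent.R217.HS
open Pool.Agent.R217.KM

lemma integrable_of_fatou {α : Type*} [MeasurableSpace α] {μ : Measure α} {f : ℕ → α → ℝ}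
    {g : α → ℝ} {C : ℝ} (hf : ∀ k, Integrable (f k) μ) (h0 : ∀ k x, 0 ≤ f k x)
    (hC : ∀ k, ∫ x, f k x ∂μ ≤ C)
    (hlim : ∀ᵐ x ∂μ, Tendsto (fun k => f k x) atTop (𝓝 (g x))) :
    Integrable g μ ∧ ∫ x, g x ∂μ ≤ C := by
  have hgm : AEStronglyMeasurable g μ :=
    aestronglyMeasurable_of_tendsto_ae atTop (fun k => (hf k).1) hlim
  have hg0 : ∀ᵐ x ∂μ, 0 ≤ g x := by
    filter_upwards [hlim] with x hx
    exact ge_of_tendsto' hx fun k => h0 k x
  have hC0 : 0 ≤ C := (integral_nonneg (h0 0)).trans (hC 0)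
  have key : ∫⁻ x, ENNReal.ofReal (g x) ∂μ ≤ ENNReal.ofReal C := by
    have h1 : ∫⁻ x, ENNReal.ofReal (g x) ∂μ =
        ∫⁻ x, liminf (fun k => ENNReal.ofReal (f k x)) atTop ∂μ := by
      apply lintegral_congr_ae
      filter_upwards [hlim] with x hx
      exact ((ENNReal.continuous_ofReal.tendsto _).comp hx).liminf_eq.symm
    rw [h1]
    refine (lintegral_liminf_le' fun k => (hf k).1.aemeasurable.ennreal_ofReal).trans ?_
    refine liminf_le_of_le (by isBoundedDefault) fun b hb => ?_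
    obtain ⟨k, hk⟩ := hb.exists
    refine hk.trans ?_
    rw [← ofReal_integral_eq_lintegral_ofReal (hf k) (Eventually.of_forall (h0 k))]
    exact ENNReal.ofReal_le_ofReal (hC k)
  have hI : Integrable g μ := by
    refine ⟨hgm, ?_⟩
    rw [hasFiniteIntegral_iff_ofReal hg0]
    exact key.trans_lt ENNReal.ofReal_lt_top
  refine ⟨hI, ?_⟩
  rw [← ofReal_integral_eq_lintegral_ofReal hI hg0] at key
  exact (ENNReal.ofReal_le_ofReal_iff hC0).1 key

/-- truncations -/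
noncomputable def Fe (ε t : ℝ) : ℝ := t ^ 3 / (1 + ε * t ^ 2)
noncomputable def Ge (ε t : ℝ) : ℝ := t ^ 5 / (1 + ε * t ^ 2) ^ 2

lemma den_pos {ε : ℝ} (hε : 0 < ε) (t : ℝ) : 0 < 1 + ε * t ^ 2 := by positivity

lemma den_ge {ε : ℝ} (hε : 0 < ε) (t : ℝ) : 1 ≤ 1 + ε * t ^ 2 := by
  have : 0 ≤ ε * t ^ 2 := by positivity
  linarith

lemma Fe_smooth {ε : ℝ} (hε : 0 < ε) : ContDiff ℝ ∞ (Fe ε) := by
  unfold Fe
  exact ContDiff.div (by fun_prop) (by fun_prop) fun t => (den_pos hε t).ne'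

lemma Ge_smooth {ε : ℝ} (hε : 0 < ε) : ContDiff ℝ ∞ (Ge ε) := by
  unfold Ge
  exact ContDiff.div (by fun_prop) (by fun_prop) fun t => (pow_pos (den_pos hε t) 2).ne'

lemma Fe_deriv {ε : ℝ} (hε : 0 < ε) (t : ℝ) :
    deriv (Fe ε) t = (3 * t ^ 2 + ε * t ^ 4) / (1 + ε * t ^ 2) ^ 2 := by
  have hd : HasDerivAt (fun t : ℝ => 1 + ε * t ^ 2) (ε * (2 * t)) t := by
    simpa using ((hasDerivAt_pow 2 t).const_mul ε).const_add 1
  have h := (hasDerivAt_pow 3 t).div hd (den_pos hε t).ne'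
  have e : Fe ε = (fun t : ℝ => t ^ 3) / fun t : ℝ => 1 + ε * t ^ 2 := rfl
  rw [e, h.deriv]
  congr 1
  norm_num
  ring

lemma Ge_deriv {ε : ℝ} (hε : 0 < ε) (t : ℝ) :
    deriv (Ge ε) t = (5 * t ^ 4 + ε * t ^ 6) / (1 + ε * t ^ 2) ^ 3 := by
  have hd : HasDerivAt (fun t : ℝ => 1 + ε * t ^ 2) (ε * (2 * t)) t := by
    simpa using ((hasDerivAt_pow 2 t).const_mul ε).const_add 1
  have hd2 : HasDerivAt (fun t : ℝ => (1 + ε * t ^ 2) ^ 2)
      (2 * (1 + ε * t ^ 2) * (ε * (2 * t))) t := by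
    simpa using hd.fun_pow 2
  have h := (hasDerivAt_pow 5 t).div hd2 (pow_pos (den_pos hε t) 2).ne'
  have e : Ge ε = (fun t : ℝ => t ^ 5) / fun t : ℝ => (1 + ε * t ^ 2) ^ 2 := rfl
  rw [e, h.deriv]
  have := den_pos hε t
  rw [div_eq_div_iff (by positivity) (by positivity)]
  norm_num
  ring

lemma Fe_zero (ε : ℝ) : Fe ε 0 = 0 := by simp [Fe]
lemma Ge_zero (ε : ℝ) : Ge ε 0 = 0 := by simp [Ge]

lemma Fe_deriv_le {ε : ℝ} (hε : 0 < ε) (t : ℝ) : |deriv (Fe ε) t| ≤ 3 / ε := by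
  rw [Fe_deriv hε, abs_of_nonneg (by positivity), div_le_div_iff₀ (by positivity) hε]
  obtain ⟨s, hs⟩ : ∃ s, s = ε * t ^ 2 := ⟨_, rfl⟩
  have h0 : 0 ≤ s := by rw [hs]; positivity
  have e : (3 * t ^ 2 + ε * t ^ 4) * ε = 3 * s + s ^ 2 := by rw [hs]; ring
  rw [e, ← hs]
  nlinarith

lemma Ge_deriv_le {ε : ℝ} (hε : 0 < ε) (t : ℝ) : |deriv (Ge ε) t| ≤ 5 / ε ^ 2 := by
  rw [Ge_deriv hε, abs_of_nonneg (by positivity), div_le_div_iff₀ (by positivity) (by positivity)]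
  obtain ⟨s, hs⟩ : ∃ s, s = ε * t ^ 2 := ⟨_, rfl⟩
  have h0 : 0 ≤ s := by rw [hs]; positivity
  have e : (5 * t ^ 4 + ε * t ^ 6) * ε ^ 2 = 5 * s ^ 2 + s ^ 3 := by rw [hs]; ring
  rw [e, ← hs]
  have h2 : 0 ≤ s ^ 2 := by positivity
  have h3 : 0 ≤ s ^ 3 := by positivity
  nlinarith

lemma Ge_deriv_nonneg {ε : ℝ} (hε : 0 < ε) (t : ℝ) : 0 ≤ deriv (Ge ε) t := by
  rw [Ge_deriv hε]; positivity

lemma Fe_sq_le {ε : ℝ} (hε : 0 < ε) (t : ℝ) : (deriv (Fe ε) t) ^ 2 ≤ 9 / 5 * deriv (Ge ε) t := by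
  rw [Ge_deriv hε, Fe_deriv hε, div_pow, ← mul_div_assoc,
    div_le_div_iff₀ (by positivity) (by positivity)]
  obtain ⟨s, hs⟩ : ∃ s, s = ε * t ^ 2 := ⟨_, rfl⟩
  have h0 : 0 ≤ s := by rw [hs]; positivity
  have e1 : (3 * t ^ 2 + ε * t ^ 4) ^ 2 = t ^ 4 * (3 + s) ^ 2 := by rw [hs]; ring
  have e2 : 9 / 5 * (5 * t ^ 4 + ε * t ^ 6) = t ^ 4 * (9 / 5 * (5 + s)) := by rw [hs]; ring
  rw [e1, e2, ← hs]
  have h4 : (3 + s) ^ 2 ≤ 9 / 5 * (5 + s) * (1 + s) := by nlinarith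
  have h5 : 0 ≤ t ^ 4 * (1 + s) ^ 3 := by positivity
  calc t ^ 4 * (3 + s) ^ 2 * (1 + s) ^ 3 = (t ^ 4 * (1 + s) ^ 3) * (3 + s) ^ 2 := by ring
    _ ≤ (t ^ 4 * (1 + s) ^ 3) * (9 / 5 * (5 + s) * (1 + s)) := by gcongr
    _ = _ := by ring

lemma t_Ge {ε : ℝ} (hε : 0 < ε) (t : ℝ) : t * Ge ε t = Fe ε t ^ 2 := by
  unfold Ge Fe
  have := den_pos hε t
  field_simp

lemma Fe_le {ε : ℝ} (hε : 0 < ε) (t : ℝ) : Fe ε t ^ 2 ≤ t ^ 6 := by
  unfold Fe
  rw [div_pow, div_le_iff₀ (by have := den_pos hε t; positivity)]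
  have h1 : 1 ≤ (1 + ε * t ^ 2) ^ 2 := one_le_pow₀ (den_ge hε t)
  have h2 : 0 ≤ t ^ 6 := by positivity
  nlinarith

/-- **Brezis–Kato** -/
theorem bk {Ω : Set (E 3)} {lam : ℝ} (hlam : 0 ≤ lam) {u : E 3 → ℝ} {G : E 3 → E 3}
    (h : H01 Ω u G) (hw : WSol Ω lam u G) : Integrable (fun x => u x ^ 18) := by
  obtain ⟨hu6, -⟩ := six_h01 h
  have hu := h.1
  have hG := h.2.1
  have mu := hu.1
  obtain ⟨M, hM⟩ : ∃ M, M = ∫ x, u x ^ 6 := ⟨_, rfl⟩
  have hM0 : 0 ≤ M := by rw [hM]; exact integral_nonneg fun x => by positivity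
  have hS := SS_pos
  obtain ⟨η, hη⟩ : ∃ η, η = 5 * SS / 18 := ⟨_, rfl⟩
  have hη0 : 0 < η := by rw [hη]; positivity
  -- small tails
  let v : ℕ → E 3 → ℝ := fun K x => if (K:ℝ) < u x ^ 4 then u x ^ 2 else 0
  have mv : ∀ K, AEStronglyMeasurable (v K) volume := by
    intro K
    have hm : Measurable fun t : ℝ => if (K:ℝ) < t ^ 4 then t ^ 2 else 0 :=
      Measurable.ite (measurableSet_lt (by fun_prop) (by fun_prop)) (by fun_prop) (by fun_prop)
    exact (hm.comp_aemeasurable mu.aemeasurable).aestronglyMeasurable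
  have v0 : ∀ K x, 0 ≤ v K x := by
    intro K x
    dsimp only [v]
    split_ifs <;> positivity
  have vle : ∀ K x, v K x ^ 3 ≤ u x ^ 6 := by
    intro K x
    dsimp only [v]
    split_ifs
    · apply le_of_eq; ring
    · have : 0 ≤ u x ^ 6 := by positivity
      simpa using this
  have v3 : ∀ K, Integrable (fun x => v K x ^ 3) := by
    intro K
    refine hu6.mono' ((mv K).pow 3) (Eventually.of_forall fun x => ?_)
    rw [Real.norm_eq_abs, abs_of_nonneg (pow_nonneg (v0 K x) 3)]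
    exact vle K x
  have htail : Tendsto (fun K : ℕ => ∫ x, v K x ^ 3) atTop (𝓝 0) := by
    have : Tendsto (fun K : ℕ => ∫ x, v K x ^ 3) atTop (𝓝 (∫ x : E 3, (0:ℝ))) := by
      apply tendsto_integral_of_dominated_convergence (fun x => u x ^ 6)
        (fun K => (mv K).pow 3) hu6
      · intro K
        refine Eventually.of_forall fun x => ?_
        show ‖v K x ^ 3‖ ≤ u x ^ 6
        rw [Real.norm_eq_abs, abs_of_nonneg (pow_nonneg (v0 K x) 3)]
        exact vle K x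
      · refine Eventually.of_forall fun x => ?_
        show Tendsto (fun K => v K x ^ 3) atTop (𝓝 0)
        obtain ⟨K0, hK0⟩ := exists_nat_ge (u x ^ 4)
        refine tendsto_const_nhds.congr' ?_
        filter_upwards [eventually_ge_atTop K0] with K hK
        dsimp only [v]
        have : ¬ (K:ℝ) < u x ^ 4 := by
          have : (K0:ℝ) ≤ K := by exact_mod_cast hK
          linarith
        rw [if_neg this]
        norm_num
    simpa using this
  obtain ⟨K, hK⟩ : ∃ K : ℕ, ∫ x, v K x ^ 3 < Real.sqrt (η ^ 3) :=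
    (htail.eventually (gt_mem_nhds (by positivity))).exists
  have hδ : (∫ x, v K x ^ 3) ^ 2 ≤ η ^ 3 := by
    have h0 : 0 ≤ ∫ x, v K x ^ 3 := integral_nonneg fun x => pow_nonneg (v0 K x) 3
    calc (∫ x, v K x ^ 3) ^ 2 ≤ (Real.sqrt (η ^ 3)) ^ 2 := by gcongr
      _ = η ^ 3 := Real.sq_sqrt (by positivity)
  obtain ⟨C, hC⟩ : ∃ C, C = 18 / 5 * ((K + lam) * M) := ⟨_, rfl⟩
  have hC0 : 0 ≤ C := by rw [hC]; positivity
  have main : ∀ ε : ℝ, 0 < ε → Integrable (fun x => Fe ε (u x) ^ 6) ∧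
      ∫ x, Fe ε (u x) ^ 6 ≤ (C / SS) ^ 3 := by
    intro ε hε
    have hF := h01_comp h (Fe_smooth hε) (Fe_zero ε) (Fe_deriv_le hε)
    have hGe := h01_comp h (Ge_smooth hε) (Ge_zero ε) (Ge_deriv_le hε)
    obtain ⟨hF6, hF6'⟩ := six_h01 hF
    obtain ⟨hi, heq⟩ := hw.ext hG hu hu6 hGe
    refine ⟨hF6, ?_⟩
    obtain ⟨a, ha⟩ : ∃ a, a = ∫ x, ‖deriv (Fe ε) (u x) • G x‖ ^ 2 := ⟨_, rfl⟩
    have ha0 : 0 ≤ a := by rw [ha]; exact integral_nonneg fun x => by positivity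
    obtain ⟨J, hJ⟩ : ∃ J, J = ∫ x, Fe ε (u x) ^ 6 := ⟨_, rfl⟩
    rw [← ha, ← hJ] at hF6'
    rw [← hJ]
    -- energy
    have h1 : a ≤ 9 / 5 * ∫ x, (u x ^ 5 + lam * u x) * Ge ε (u x) := by
      rw [← heq, ha, ← integral_const_mul]
      have i1 : Integrable (fun x => ⟪G x, deriv (Ge ε) (u x) • G x⟫) :=
        integrable_inner' hG hGe.2.1
      apply integral_mono (integrable_sq hF.2.1) (i1.const_mul _)
      intro x
      dsimp only
      rw [norm_smul, mul_pow, real_inner_smul_right, real_inner_self_eq_norm_sq, ← mul_assoc]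
      rw [Real.norm_eq_abs, sq_abs]
      gcongr
      exact Fe_sq_le hε _
    have hq0 : ∀ x, 0 ≤ Fe ε (u x) ^ 2 := fun x => by positivity
    have mF : AEStronglyMeasurable (fun x => Fe ε (u x)) volume := hF.1.1
    have hol := hol3 (μ := (volume : Measure (E 3))) (p := v K) (q := fun x => Fe ε (u x) ^ 2)
      (Eventually.of_forall (v0 K)) (Eventually.of_forall hq0) (v3 K)
      (by simpa only [← pow_mul] using hF6) (mv K) (mF.pow 2)
    obtain ⟨X, hX⟩ : ∃ X, X = ∫ x, v K x ^ 2 * Fe ε (u x) ^ 2 := ⟨_, rfl⟩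
    have iF2 : Integrable (fun x => Fe ε (u x) ^ 2) := hF.1.integrable_sq
    have h2 : ∫ x, (u x ^ 5 + lam * u x) * Ge ε (u x) ≤ X + (K + lam) * M := by
      have e : ∀ x, (u x ^ 5 + lam * u x) * Ge ε (u x) = (u x ^ 4 + lam) * Fe ε (u x) ^ 2 := by
        intro x
        rw [← t_Ge hε]; ring
      have h3 : ∫ x, (u x ^ 5 + lam * u x) * Ge ε (u x) ≤
          ∫ x, (v K x ^ 2 * Fe ε (u x) ^ 2 + (K + lam) * Fe ε (u x) ^ 2) := by
        apply integral_mono hi (hol.1.add (iF2.const_mul _))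
        intro x
        simp only [Pi.add_apply]
        rw [e, ← add_mul]
        apply mul_le_mul_of_nonneg_right _ (hq0 x)
        dsimp only [v]
        split_ifs with hc
        · have : (0:ℝ) ≤ K := by positivity
          nlinarith
        · have : u x ^ 4 ≤ K := not_lt.1 hc
          nlinarith
      rw [integral_add hol.1 (iF2.const_mul _), integral_const_mul, ← hX] at h3
      refine h3.trans ?_
      have h4 : ∫ x, Fe ε (u x) ^ 2 ≤ M := by
        rw [hM]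
        exact integral_mono iF2 hu6 fun x => Fe_le hε _
      gcongr
    have hX3 : X ^ 3 ≤ η ^ 3 * J := by
      have := hol.2.2
      rw [← hX] at this
      have e : ∫ x, (Fe ε (u x) ^ 2) ^ 3 = J := by
        rw [hJ]; congr 1; funext x; ring
      rw [e] at this
      have hJ0 : 0 ≤ J := by rw [hJ]; exact integral_nonneg fun x => by positivity
      exact this.trans (mul_le_mul_of_nonneg_right hδ hJ0)
    have hX0 : 0 ≤ X := by rw [hX]; exact integral_nonneg fun x => by positivity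
    have hXa : X ≤ 5 / 18 * a := by
      have h5 : (SS * X) ^ 3 ≤ (η * a) ^ 3 := by
        calc (SS * X) ^ 3 = SS ^ 3 * X ^ 3 := by ring
          _ ≤ SS ^ 3 * (η ^ 3 * J) := by gcongr
          _ = η ^ 3 * (SS ^ 3 * J) := by ring
          _ ≤ η ^ 3 * a ^ 3 := by gcongr
          _ = (η * a) ^ 3 := by ring
      have h6 : SS * X ≤ η * a := le_of_pow_le_pow_left₀ (by norm_num) (by positivity) h5
      rw [hη] at h6
      have h7 : SS * X ≤ SS * (5 / 18 * a) := by linarith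
      exact le_of_mul_le_mul_left h7 hS
    have haC : a ≤ C := by rw [hC]; linarith
    have h8 : (SS ^ 3) * J ≤ C ^ 3 := hF6'.trans (by gcongr)
    rw [div_pow, le_div_iff₀ (by positivity)]
    linarith
  have hfin := integrable_of_fatou (μ := (volume : Measure (E 3)))
    (f := fun k x => Fe (1 / ((k:ℝ) + 1)) (u x) ^ 6) (g := fun x => u x ^ 18)
    (fun k => (main _ (by positivity)).1) (fun k x => by positivity)
    (fun k => (main _ (by positivity)).2) (Eventually.of_forall fun x => ?_)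
  · exact hfin.1
  · have h1 : Tendsto (fun k : ℕ => 1 + 1 / ((k:ℝ) + 1) * u x ^ 2) atTop (𝓝 (1 + 0 * u x ^ 2)) :=
      (tendsto_one_div_add_atTop_nhds_zero_nat.mul_const _).const_add _
    have h2 : Tendsto (fun k : ℕ => u x ^ 3 / (1 + 1 / ((k:ℝ) + 1) * u x ^ 2)) atTop
        (𝓝 (u x ^ 3 / (1 + 0 * u x ^ 2))) :=
      Filter.Tendsto.div tendsto_const_nhds h1 (by norm_num)
    have h3 := h2.pow 6
    have e : (u x ^ 3 / (1 + 0 * u x ^ 2)) ^ 6 = u x ^ 18 := by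
      rw [zero_mul, add_zero, div_one]; ring
    rw [e] at h3
    exact h3

end Run7.h104
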