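import Pool.Agent.Run7.h104.Reg1

/-! # Boundedness of weak solutions -/

set_option autoImplicit false
set_option linter.unusedSectionVars false
set_option linter.unusedVariables false

open MeasureTheory Filter Topology
open scoped ContDiff ENNReal NNReal RealInnerProductSpace

namespace Run7.h104

open Pool.Agent.R217.BN (E cexp sobS H01)
open Pool.Agent.R217.HS
open Pool.Agent.R217.KM

/-- a smooth convex function, zero on the left, of slope one on the right -/
noncomputable def PP (t : ℝ) : ℝ := ∫ s in (0:ℝ)..t, Real.smoothTransition s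

lemma st_cont : Continuous Real.smoothTransition :=
  (Real.smoothTransition.contDiff (n := 0)).continuous

lemma PP_hasDerivAt (t : ℝ) : HasDerivAt PP (Real.smoothTransition t) t :=
  intervalIntegral.integral_hasDerivAt_right (st_cont.intervalIntegrable _ _)
    (st_cont.stronglyMeasurableAtFilter _ _) st_cont.continuousAt

lemma PP_deriv : deriv PP = Real.smoothTransition := funext fun t => (PP_hasDerivAt t).deriv

lemma PP_smooth : ContDiff ℝ ∞ PP := by
  rw [contDiff_infty_iff_deriv]
  refine ⟨fun t => (PP_hasDerivAt t).differentiableAt, ?_⟩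
  rw [PP_deriv]
  exact Real.smoothTransition.contDiff

lemma PP_of_nonpos {t : ℝ} (ht : t ≤ 0) : PP t = 0 := by
  unfold PP
  rw [intervalIntegral.integral_symm, intervalIntegral.integral_congr (g := fun _ => 0)]
  · simp
  · intro s hs
    rw [Set.uIcc_of_le ht] at hs
    exact Real.smoothTransition.zero_of_nonpos hs.2

lemma PP_mono : Monotone PP := by
  apply monotone_of_deriv_nonneg (PP_smooth.differentiable (by simp))
  intro t
  rw [PP_deriv]
  exact Real.smoothTransition.nonneg t

lemma PP_nonneg (t : ℝ) : 0 ≤ PP t := by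
  rcases le_total t 0 with h | h
  · rw [PP_of_nonpos h]
  · have := PP_mono h
    rwa [PP_of_nonpos le_rfl] at this

lemma PP_pos_iff {t : ℝ} (h : PP t ≠ 0) : 0 < t := by
  by_contra hc
  exact h (PP_of_nonpos (not_lt.1 hc))

lemma PP_lip (s t : ℝ) : |PP s - PP t| ≤ |s - t| := by
  have := Convex.norm_image_sub_le_of_norm_deriv_le (f := PP) (s := Set.univ) (C := 1)
    (fun x _ => (PP_hasDerivAt x).differentiableAt) (fun x _ => by
      rw [PP_deriv, Real.norm_eq_abs, abs_of_nonneg (Real.smoothTransition.nonneg x)]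
      exact Real.smoothTransition.le_one x) convex_univ (Set.mem_univ t) (Set.mem_univ s)
  simpa using this

lemma PP_ge (t : ℝ) : t - 1 ≤ PP t := by
  rcases le_total t 1 with h | h
  · linarith [PP_nonneg t]
  · have h1 : PP t = PP 1 + ∫ s in (1:ℝ)..t, Real.smoothTransition s :=
      (intervalIntegral.integral_add_adjacent_intervals (st_cont.intervalIntegrable _ _)
        (st_cont.intervalIntegrable _ _)).symm
    have h2 : ∫ s in (1:ℝ)..t, Real.smoothTransition s = ∫ s in (1:ℝ)..t, (1:ℝ) := by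
      apply intervalIntegral.integral_congr
      intro s hs
      rw [Set.uIcc_of_le h] at hs
      exact Real.smoothTransition.one_of_one_le hs.1
    rw [h1, h2]
    simp [PP_nonneg 1]

/-- the iteration lemma -/
lemma stamp_iter {m : ℝ → ℝ} (h0 : ∀ h, 0 ≤ m h) (hm : ∀ k h, 1 ≤ k → k ≤ h → m h ≤ m k)
    {A : ℝ} (hA : 0 ≤ A) (H : ∀ k h, 1 ≤ k → k < h → (h - k) ^ 6 * m h ≤ A * m k ^ 2) :
    ∃ d, 1 ≤ d ∧ m d = 0 := by
  obtain ⟨D, hD0, hD⟩ : ∃ D : ℝ, 0 < D ∧ A * 2 ^ 12 * m 1 ≤ D ^ 6 := by
    refine ⟨1 + A * 2 ^ 12 * m 1, ?_, ?_⟩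
    · have := h0 1; positivity
    · have h1 : 0 ≤ A * 2 ^ 12 * m 1 := by have := h0 1; positivity
      have h2 : (1 + A * 2 ^ 12 * m 1) ≤ (1 + A * 2 ^ 12 * m 1) ^ 6 :=
        le_self_pow₀ (by linarith) (by norm_num)
      linarith
  have key : ∀ n : ℕ, m (1 + D * (1 - (1 / 2) ^ n)) ≤ m 1 * (1 / 64) ^ n := by
    intro n
    induction n with
    | zero => simp
    | succ n ih =>
      obtain ⟨q, hq⟩ : ∃ q : ℝ, q = (1 / 2 : ℝ) ^ n := ⟨_, rfl⟩
      have hq0 : 0 < q := by rw [hq]; positivity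
      have hq1 : q ≤ 1 := by rw [hq]; exact pow_le_one₀ (by norm_num) (by norm_num)
      have e64 : (1 / 64 : ℝ) ^ n = q ^ 6 := by
        rw [hq, ← pow_mul, mul_comm, pow_mul]; norm_num
      rw [pow_succ, pow_succ, ← hq, e64]
      rw [← hq, e64] at ih
      have h1 := H (1 + D * (1 - q)) (1 + D * (1 - q * (1 / 2))) (by nlinarith) (by nlinarith)
      have e : 1 + D * (1 - q * (1 / 2)) - (1 + D * (1 - q)) = D * q / 2 := by ring
      rw [e] at h1
      have h2 : A * m (1 + D * (1 - q)) ^ 2 ≤ A * (m 1 * q ^ 6) ^ 2 := by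
        have := h0 (1 + D * (1 - q))
        gcongr
      have h3 : A * (m 1 * q ^ 6) ^ 2 ≤ (D * q / 2) ^ 6 * (m 1 * (q ^ 6 * (1 / 64))) := by
        have e1 : A * (m 1 * q ^ 6) ^ 2 = (A * 2 ^ 12 * m 1) * (m 1 * q ^ 12 / 2 ^ 12) := by ring
        have e2 : (D * q / 2) ^ 6 * (m 1 * (q ^ 6 * (1 / 64))) = D ^ 6 * (m 1 * q ^ 12 / 2 ^ 12) := by
          ring
        rw [e1, e2]
        have := h0 1
        gcongr
      have h4 : 0 < (D * q / 2) ^ 6 := by positivity
      exact le_of_mul_le_mul_left ((h1.trans h2).trans h3) h4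
  refine ⟨1 + D, by linarith, le_antisymm ?_ (h0 _)⟩
  have h5 : Tendsto (fun n : ℕ => m 1 * (1 / 64 : ℝ) ^ n) atTop (𝓝 (m 1 * 0)) :=
    (tendsto_pow_atTop_nhds_zero_of_lt_one (by norm_num) (by norm_num)).const_mul _
  rw [mul_zero] at h5
  refine ge_of_tendsto' h5 fun n => ?_
  have h6 : (0:ℝ) < (1 / 2) ^ n := by positivity
  have h7 : (1 / 2 : ℝ) ^ n ≤ 1 := pow_le_one₀ (by norm_num) (by norm_num)
  refine (hm (1 + D * (1 - (1 / 2) ^ n)) (1 + D) (by nlinarith) (by nlinarith)).trans (key n)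

/-- upper bound for solutions with square integrable right-hand side -/
theorem stamp {Ω : Set (E 3)} {f u : E 3 → ℝ} {G : E 3 → E 3} (h : H01 Ω u G)
    (hf : MemLp f 2 volume)
    (hw : ∀ φ : E 3 → ℝ, TIn Ω φ → ∫ x, ⟪G x, gradient φ x⟫ = ∫ x, f x * φ x) :
    ∃ C, 0 < C ∧ ∀ᵐ x ∂(volume : Measure (E 3)), u x ≤ C := by
  have hu := h.1
  have hG := h.2.1
  have mu := hu.1
  have hS := SS_pos
  let ind : ℝ → E 3 → ℝ := fun k x => if k < u x then 1 else 0
  have mi : ∀ k, AEStronglyMeasurable (ind k) volume := by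
    intro k
    have hm : Measurable fun t : ℝ => if k < t then (1:ℝ) else 0 :=
      Measurable.ite (measurableSet_lt (by fun_prop) (by fun_prop)) (by fun_prop) (by fun_prop)
    exact (hm.comp_aemeasurable mu.aemeasurable).aestronglyMeasurable
  have i0 : ∀ k x, 0 ≤ ind k x := by
    intro k x; dsimp only [ind]; split_ifs <;> norm_num
  have ipow : ∀ k x, ind k x ^ 3 = ind k x := by
    intro k x; dsimp only [ind]; split_ifs <;> norm_num
  have ile : ∀ k, 1 ≤ k → ∀ x, ind k x ≤ u x ^ 2 := by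
    intro k hk x
    dsimp only [ind]
    split_ifs with hc
    · nlinarith
    · positivity
  have ii : ∀ k, 1 ≤ k → Integrable (ind k) volume := by
    intro k hk
    refine hu.integrable_sq.mono' (mi k) (Eventually.of_forall fun x => ?_)
    rw [Real.norm_eq_abs, abs_of_nonneg (i0 k x)]
    exact ile k hk x
  obtain ⟨B, hB⟩ : ∃ B, B = ∫ x, f x ^ 2 := ⟨_, rfl⟩
  have hB0 : 0 ≤ B := by rw [hB]; exact integral_nonneg fun x => by positivity
  obtain ⟨d, hd1, hd⟩ := stamp_iter (m := fun k => ∫ x, ind k x)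
    (fun k => integral_nonneg (i0 k)) (fun k h hk hkh => by
      apply integral_mono (ii h (hk.trans hkh)) (ii k hk)
      intro x
      dsimp only [ind]
      split_ifs with h1 h2
      · rfl
      · exact absurd (lt_of_le_of_lt hkh h1) h2
      · norm_num
      · rfl)
    (A := 64 * B ^ 3 / SS ^ 6) (by positivity) (fun k h hk hkh => by
      obtain ⟨ε, hε⟩ : ∃ ε, ε = (h - k) / 2 := ⟨_, rfl⟩
      have hε0 : 0 < ε := by rw [hε]; linarith
      have hhk : h - k = 2 * ε := by rw [hε]; ring
      let Θ : ℝ → ℝ := fun t => ε * PP ((t - k) / ε)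
      have hΘs : ContDiff ℝ ∞ Θ := contDiff_const.mul (PP_smooth.comp (by fun_prop))
      have hΘ0 : Θ 0 = 0 := by
        dsimp only [Θ]
        rw [PP_of_nonpos (div_nonpos_of_nonpos_of_nonneg (by linarith) hε0.le), mul_zero]
      have hΘd : ∀ t, deriv Θ t = Real.smoothTransition ((t - k) / ε) := by
        intro t
        have h1 : HasDerivAt (fun t : ℝ => (t - k) / ε) (1 / ε) t :=
          ((hasDerivAt_id t).sub_const k).div_const ε
        have h2 := (HasDerivAt.comp t (PP_hasDerivAt ((t - k) / ε)) h1).const_mul ε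
        have h3 : deriv Θ t = ε * (Real.smoothTransition ((t - k) / ε) * (1 / ε)) := h2.deriv
        rw [h3]
        field_simp
      have hd0 : ∀ t, 0 ≤ deriv Θ t := fun t => by
        rw [hΘd]; exact Real.smoothTransition.nonneg _
      have hd1 : ∀ t, deriv Θ t ≤ 1 := fun t => by
        rw [hΘd]; exact Real.smoothTransition.le_one _
      have hdb : ∀ t, |deriv Θ t| ≤ 1 := fun t => by
        rw [abs_of_nonneg (hd0 t)]; exact hd1 t
      have hΘn : ∀ t, 0 ≤ Θ t := fun t => mul_nonneg hε0.le (PP_nonneg _)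
      have hH := h01_comp ‹H01 Ω u G› hΘs hΘ0 hdb
      obtain ⟨hJ6, hJ6'⟩ := six_h01 hH
      have heq := weak_ext2 hG hf hw hH
      obtain ⟨a, ha⟩ : ∃ a, a = ∫ x, ‖deriv Θ (u x) • G x‖ ^ 2 := ⟨_, rfl⟩
      have ha0 : 0 ≤ a := by rw [ha]; exact integral_nonneg fun x => by positivity
      obtain ⟨J, hJ⟩ : ∃ J, J = ∫ x, Θ (u x) ^ 6 := ⟨_, rfl⟩
      have hJ0 : 0 ≤ J := by rw [hJ]; exact integral_nonneg fun x => by positivity
      rw [← ha, ← hJ] at hJ6'
      have h1 : a ≤ ∫ x, f x * Θ (u x) := by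
        rw [← heq, ha]
        apply integral_mono (integrable_sq hH.2.1) (integrable_inner' hG hH.2.1)
        intro x
        dsimp only
        rw [norm_smul, mul_pow, real_inner_smul_right, real_inner_self_eq_norm_sq,
          Real.norm_eq_abs, sq_abs]
        have := hd0 (u x)
        have := hd1 (u x)
        gcongr
        nlinarith
      obtain ⟨Y, hY⟩ : ∃ Y, Y = ∫ x, Θ (u x) ^ 2 := ⟨_, rfl⟩
      have hY0 : 0 ≤ Y := by rw [hY]; exact integral_nonneg fun x => by positivity
      -- Cauchy-Schwarz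
      have h2 : (∫ x, f x * Θ (u x)) ^ 2 ≤ B * Y := by
        have iF := hf.integrable_sq
        have iT := hH.1.integrable_sq
        have iFT := int_mul2 hf hH.1
        have quad : ∀ t : ℝ, 0 ≤ B * (t * t) + 2 * (∫ x, f x * Θ (u x)) * t + Y := by
          intro t
          have e : B * (t * t) + 2 * (∫ x, f x * Θ (u x)) * t + Y =
              ∫ x, (t * f x + Θ (u x)) ^ 2 := by
            have e1 : ∀ x, (t * f x + Θ (u x)) ^ 2 =
                t * t * f x ^ 2 + 2 * t * (f x * Θ (u x)) + Θ (u x) ^ 2 := fun x => by ring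
            simp_rw [e1]
            have i12 : Integrable (fun x => t * t * f x ^ 2 + 2 * t * (f x * Θ (u x))) volume :=
              (iF.const_mul _).add (iFT.const_mul _)
            rw [integral_add i12 iT, integral_add (iF.const_mul _) (iFT.const_mul _),
              integral_const_mul, integral_const_mul, ← hB, ← hY]
            ring
          rw [e]
          exact integral_nonneg fun x => by positivity
        have := discrim_le_zero quad
        unfold discrim at this
        nlinarith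
      have hI0 : 0 ≤ ∫ x, f x * Θ (u x) := ha0.trans h1
      have h3 : a ^ 2 ≤ B * Y := (pow_le_pow_left₀ ha0 h1 2).trans h2
      have hol := hol3 (μ := (volume : Measure (E 3))) (p := ind k) (q := fun x => Θ (u x) ^ 2)
        (Eventually.of_forall (i0 k)) (Eventually.of_forall fun x => by positivity)
        (by simpa only [ipow] using ii k hk) (by simpa only [← pow_mul] using hJ6)
        (mi k) (hH.1.1.pow 2)
      have h4 : Y ^ 3 ≤ (∫ x, ind k x) ^ 2 * J := by
        have h5 := hol.2.2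
        have e1 : ∫ x, ind k x ^ 2 * Θ (u x) ^ 2 = Y := by
          rw [hY]; congr 1; funext x
          dsimp only [ind]
          split_ifs with hc
          · ring
          · dsimp only [Θ]
            rw [PP_of_nonpos (div_nonpos_of_nonpos_of_nonneg (by linarith [not_lt.1 hc]) hε0.le)]
            ring
        have e2 : ∫ x, (Θ (u x) ^ 2) ^ 3 = J := by
          rw [hJ]; congr 1; funext x; ring
        simp only [ipow] at h5
        rw [e1, e2] at h5
        exact h5
      obtain ⟨m, hm⟩ : ∃ m, m = ∫ x, ind k x := ⟨_, rfl⟩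
      rw [← hm] at h4
      rw [← hm]
      have h6 : SS ^ 6 * J ≤ B ^ 3 * m ^ 2 := by
        rcases eq_or_lt_of_le hJ0 with h7 | h7
        · rw [← h7, mul_zero]; positivity
        · have h8 : (SS ^ 3 * J) ^ 2 ≤ B ^ 3 * (m ^ 2 * J) := by
            calc (SS ^ 3 * J) ^ 2 ≤ (a ^ 3) ^ 2 := by gcongr
              _ = (a ^ 2) ^ 3 := by ring
              _ ≤ (B * Y) ^ 3 := by gcongr
              _ = B ^ 3 * Y ^ 3 := by ring
              _ ≤ _ := by gcongr
          have h9 : J * (SS ^ 6 * J) ≤ J * (B ^ 3 * m ^ 2) := by nlinarith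
          exact le_of_mul_le_mul_left h9 h7
      have h10 : ε ^ 6 * ∫ x, ind h x ≤ J := by
        rw [hJ, ← integral_const_mul]
        apply integral_mono ((ii h (by linarith)).const_mul _) hJ6
        intro x
        dsimp only [ind]
        split_ifs with hc
        · rw [mul_one]
          apply pow_le_pow_left₀ hε0.le
          dsimp only [Θ]
          have := PP_ge ((u x - k) / ε)
          have h11 : ε * ((u x - k) / ε - 1) = u x - k - ε := by field_simp
          have h12 : ε * ((u x - k) / ε - 1) ≤ ε * PP ((u x - k) / ε) := by gcongr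
          linarith
        · rw [mul_zero]; positivity
      rw [hhk]
      have h13 : SS ^ 6 * (ε ^ 6 * ∫ x, ind h x) ≤ B ^ 3 * m ^ 2 :=
        (mul_le_mul_of_nonneg_left h10 (by positivity)).trans h6
      rw [div_mul_eq_mul_div, le_div_iff₀ (by positivity)]
      nlinarith)
  refine ⟨d, by linarith, ?_⟩
  have := (integral_eq_zero_iff_of_nonneg (i0 d) (ii d hd1)).1 hd
  filter_upwards [this] with x hx
  dsimp only [ind] at hx
  by_contra hc
  rw [if_pos (not_le.1 hc)] at hx
  simp at hx

lemma WSol.neg {Ω : Set (E 3)} {lam : ℝ} {u : E 3 → ℝ} {G : E 3 → E 3} (hw : WSol Ω lam u G) :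
    WSol Ω lam (fun x => -u x) (fun x => -G x) := by
  intro φ hφ
  have h := hw φ hφ
  have e1 : ∫ x, ⟪-G x, gradient φ x⟫ = -∫ x, ⟪G x, gradient φ x⟫ := by
    rw [← integral_neg]; congr 1; funext x; rw [inner_neg_left]
  have e2 : ∫ x, ((-u x) ^ 5 + lam * (-u x)) * φ x = -∫ x, (u x ^ 5 + lam * u x) * φ x := by
    rw [← integral_neg]; congr 1; funext x; ring
  rw [e1, e2, h]

lemma h01_neg {Ω : Set (E 3)} {u : E 3 → ℝ} {G : E 3 → E 3} (h : H01 Ω u G) :
    H01 Ω (fun x => -u x) (fun x => -G x) := by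
  have := h01_smul (-1) h
  refine h01_congr this (Eventually.of_forall fun x => ?_) (Eventually.of_forall fun x => ?_)
  · show -1 * u x = -u x
    ring
  · show (-1 : ℝ) • G x = -G x
    rw [neg_one_smul]

/-- weak solutions are bounded -/
theorem wsol_bdd {Ω : Set (E 3)} {lam : ℝ} (hlam : 0 ≤ lam) {u : E 3 → ℝ} {G : E 3 → E 3}
    (h : H01 Ω u G) (hw : WSol Ω lam u G) :
    ∃ C, 0 < C ∧ ∀ᵐ x ∂(volume : Measure (E 3)), |u x| ≤ C := by
  have main : ∀ (u : E 3 → ℝ) (G : E 3 → E 3), H01 Ω u G → WSol Ω lam u G →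
      ∃ C, 0 < C ∧ ∀ᵐ x ∂(volume : Measure (E 3)), u x ≤ C := by
    intro u G h hw
    have h18 := bk hlam h hw
    have h2 := h.1.integrable_sq
    have hf : MemLp (fun x => u x ^ 5 + lam * u x) 2 volume := by
      have mf : AEStronglyMeasurable (fun x => u x ^ 5 + lam * u x) volume :=
        (h.1.1.pow 5).add (h.1.1.const_mul lam)
      rw [memLp_two_iff_integrable_sq mf]
      refine ((h18.const_mul 2).add (h2.const_mul (2 + 2 * lam ^ 2))).mono' (mf.pow 2)
        (Eventually.of_forall fun x => ?_)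
      simp only [Pi.add_apply]
      show ‖(u x ^ 5 + lam * u x) ^ 2‖ ≤ _
      rw [Real.norm_eq_abs, abs_of_nonneg (by positivity)]
      have e1 : u x ^ 10 ≤ u x ^ 2 + u x ^ 18 := by
        obtain ⟨s, hs⟩ : ∃ s, s = u x ^ 2 := ⟨_, rfl⟩
        have hs0 : 0 ≤ s := by rw [hs]; positivity
        have e10 : u x ^ 10 = s * s ^ 4 := by rw [hs]; ring
        have e18 : u x ^ 18 = s * s ^ 8 := by rw [hs]; ring
        rw [e10, e18, ← hs]
        nlinarith [sq_nonneg (s ^ 4 - 1), sq_nonneg (s^4), mul_nonneg hs0 (sq_nonneg (s ^ 4 - 1)),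
          mul_nonneg hs0 (sq_nonneg (s^4)), pow_nonneg hs0 4]
      nlinarith [sq_nonneg (u x ^ 5 - lam * u x)]
    exact stamp h hf hw
  obtain ⟨C1, hC1, h1⟩ := main u G h hw
  obtain ⟨C2, hC2, h2⟩ := main _ _ (h01_neg h) hw.neg
  refine ⟨max C1 C2, lt_max_of_lt_left hC1, ?_⟩
  filter_upwards [h1, h2] with x a1 a2
  rw [abs_le]
  constructor
  · have := le_max_right C1 C2; linarith
  · exact a1.trans (le_max_left _ _)

end Run7.h104
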