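import Pool.Agent.Run7.h104.Reg2
import Pool.Agent.H123R3.Lap

/-! # Comparison with smooth supersolutions -/

set_option autoImplicit false
set_option linter.unusedSectionVars false
set_option linter.unusedVariables false

open MeasureTheory Filter Topology
open scoped ContDiff ENNReal NNReal RealInnerProductSpace Laplacian

namespace Run7.h104

open Pool.Agent.R217.BN (E cexp sobS H01)
open Pool.Agent.R217.HS
open Pool.Agent.R217.KM

/-- basis vectors -/
noncomputable abbrev eb (i : Fin 3) : E 3 := EuclideanSpace.basisFun (Fin 3) ℝ i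

lemma two_le_inf : (2 : WithTop ℕ∞) ≤ ((⊤ : ℕ∞) : WithTop ℕ∞) := Pool.Agent.Helper486.TP.two_le_infty

lemma one_le_inf : (1 : WithTop ℕ∞) ≤ ((⊤ : ℕ∞) : WithTop ℕ∞) := by exact_mod_cast le_top

lemma PP_pos {t : ℝ} (ht : 0 < t) : 0 < PP t :=
  intervalIntegral.intervalIntegral_pos_of_pos_on (st_cont.intervalIntegrable _ _)
    (fun x hx => Real.smoothTransition.pos_of_pos hx.1) ht

lemma inner_grad (w : E 3 → ℝ) (x v : E 3) : ⟪gradient w x, v⟫ = fderiv ℝ w x v := by
  unfold gradient
  rw [InnerProductSpace.toDual_symm_apply]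

lemma inner_grads (w ψ : E 3 → ℝ) (x : E 3) :
    ⟪gradient w x, gradient ψ x⟫ = ∑ i, fderiv ℝ w x (eb i) * fderiv ℝ ψ x (eb i) := by
  rw [← (EuclideanSpace.basisFun (Fin 3) ℝ).sum_inner_mul_inner]
  apply Finset.sum_congr rfl
  intro i _
  rw [inner_grad, real_inner_comm, inner_grad]

lemma lap_eq2 {φ : E 3 → ℝ} (hφ : ContDiff ℝ 2 φ) (y : E 3) :
    (Δ φ) y = ∑ i, fderiv ℝ (fun z => fderiv ℝ φ z (eb i)) y (eb i) := by
  rw [InnerProductSpace.laplacian_eq_iteratedFDeriv_orthonormalBasis φ
    (EuclideanSpace.basisFun (Fin 3) ℝ)]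
  apply Finset.sum_congr rfl
  intro i _
  rw [iteratedFDeriv_two_apply]
  have h1 : DifferentiableAt ℝ (fderiv ℝ φ) y :=
    ((hφ.fderiv_right (m := 1) (by norm_num)).differentiable (by norm_num)) y
  have h2 : fderiv ℝ (fun z => fderiv ℝ φ z (EuclideanSpace.basisFun (Fin 3) ℝ i)) y
      = (ContinuousLinearMap.apply ℝ ℝ (EuclideanSpace.basisFun (Fin 3) ℝ i)).comp
        (fderiv ℝ (fderiv ℝ φ) y) := by
    have := (ContinuousLinearMap.apply ℝ ℝ (EuclideanSpace.basisFun (Fin 3) ℝ i)).hasFDerivAt.comp y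
      h1.hasFDerivAt
    exact this.fderiv
  rw [h2]
  simp

lemma D1_smooth {φ : E 3 → ℝ} (hφ : ContDiff ℝ 2 φ) (v : E 3) :
    ContDiff ℝ 1 fun z => fderiv ℝ φ z v :=
  (hφ.fderiv_right (m := 1) (by norm_num)).clm_apply contDiff_const

lemma lap_cont2 {φ : E 3 → ℝ} (hφ : ContDiff ℝ 2 φ) : Continuous (Δ φ) := by
  rw [show Δ φ = fun y => ∑ i, fderiv ℝ (fun z => fderiv ℝ φ z (eb i)) y (eb i) from
    funext (lap_eq2 hφ)]
  exact continuous_finsetSum _ fun i _ =>
    ((D1_smooth hφ (eb i)).continuous_fderiv (by norm_num)).clm_apply continuous_const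

lemma ibp {w ψ : E 3 → ℝ} (hw : ContDiff ℝ 2 w) (hψ : ContDiff ℝ 1 ψ)
    (hs : HasCompactSupport ψ) :
    ∫ x, ⟪gradient w x, gradient ψ x⟫ = -∫ x, (Δ w) x * ψ x := by
  simp_rw [inner_grads, lap_eq2 hw, Finset.sum_mul]
  have c1 : ∀ i, Continuous fun x => fderiv ℝ w x (eb i) := fun i => (D1_smooth hw _).continuous
  have c2 : ∀ i, Continuous fun x => fderiv ℝ ψ x (eb i) := fun i =>
    (hψ.continuous_fderiv (by norm_num)).clm_apply continuous_const
  have c3 : ∀ i, Continuous fun x => fderiv ℝ (fun z => fderiv ℝ w z (eb i)) x (eb i) := fun i =>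
    ((D1_smooth hw (eb i)).continuous_fderiv (by norm_num)).clm_apply continuous_const
  rw [integral_finsetSum, integral_finsetSum, ← Finset.sum_neg_distrib]
  · apply Finset.sum_congr rfl
    intro i _
    exact Pool.Agent.Helper486.TP.int_parts (fun z => fderiv ℝ w z (eb i)) ψ (D1_smooth hw _)
      hψ hs (eb i)
  · intro i _
    exact ((c3 i).mul hψ.continuous).integrable_of_hasCompactSupport hs.mul_left
  · intro i _
    exact ((c1 i).mul (c2 i)).integrable_of_hasCompactSupport
      (hs.fderiv_apply (𝕜 := ℝ) (eb i)).mul_left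

lemma h01_ibp {Ω : Set (E 3)} {u : E 3 → ℝ} {G : E 3 → E 3} (h : H01 Ω u G) {φ : E 3 → ℝ}
    (hφ : Tst φ) : ∫ x, ⟪G x, gradient φ x⟫ = -∫ x, u x * (Δ φ) x := by
  obtain ⟨ψ, tψ, h1, h2, -, -⟩ := h01_seq h
  have hφ2 : ContDiff ℝ 2 φ := hφ.1.of_le two_le_inf
  have mΔ : MemLp (Δ φ) 2 volume :=
    (lap_cont2 hφ2).memLp_of_hasCompactSupport
      (Pool.Agent.Helper486.TP.lap_hasCompactSupport hφ.2)
  have l1 : Tendsto (fun k => ∫ x, ⟪gradient (ψ k) x, gradient φ x⟫) atTop
      (𝓝 (∫ x, ⟪G x, gradient φ x⟫)) :=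
    LTo.inner (f' := fun _ => gradient φ) h2 (by unfold LTo; simp)
      (fun k => (tψ k).tst.memLp_grad 2) h.2.1 (fun _ => hφ.memLp_grad 2) (hφ.memLp_grad 2)
  have l2 : Tendsto (fun k => ∫ x, ⟪ψ k x, (Δ φ) x⟫) atTop
      (𝓝 (∫ x, ⟪u x, (Δ φ) x⟫)) :=
    LTo.inner (f' := fun _ => Δ φ) h1 (by unfold LTo; simp)
      (fun k => (tψ k).tst.memLp 2) h.1 (fun _ => mΔ) mΔ
  have e : ∀ w : E 3 → ℝ, ∫ x, ⟪w x, (Δ φ) x⟫ = ∫ x, w x * (Δ φ) x := by
    intro w; congr 1; funext x; simp [mul_comm]
  simp only [e] at l2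
  have l3 : Tendsto (fun k => ∫ x, ⟪gradient (ψ k) x, gradient φ x⟫) atTop
      (𝓝 (-∫ x, u x * (Δ φ) x)) := by
    refine l2.neg.congr fun k => ?_
    have := ibp hφ2 ((tψ k).1.of_le one_le_inf) (tψ k).2.1
    have e3 : ∫ x, ψ k x * (Δ φ) x = ∫ x, (Δ φ) x * ψ k x := by
      congr 1; funext x; ring
    rw [e3, ← this]
    congr 1
    funext x
    rw [real_inner_comm]
  exact tendsto_nhds_unique l1 l3

lemma memLp_ind {F : Type*} [NormedAddCommGroup F] [SecondCountableTopology F] {Ω : Set (E 3)}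
    (hΩ : MeasurableSet Ω)
    (hb : Bornology.IsBounded Ω) {g : E 3 → F} (hg : Continuous g) :
    MemLp (Ω.indicator g) 2 volume := by
  rw [memLp_indicator_iff_restrict hΩ]
  have : IsFiniteMeasure (volume.restrict Ω) := isFiniteMeasure_restrict.2 hb.measure_lt_top.ne
  obtain ⟨C, hC⟩ := hb.isCompact_closure.exists_bound_of_continuousOn hg.continuousOn
  refine MemLp.of_bound hg.aestronglyMeasurable C ?_
  filter_upwards [ae_restrict_mem hΩ] with x hx
  exact hC x (subset_closure hx)

lemma grad_smooth_cont {w : E 3 → ℝ} (hw : ContDiff ℝ 2 w) : Continuous (gradient w) := by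
  unfold gradient
  exact (InnerProductSpace.toDual ℝ (E 3)).symm.continuous.comp (hw.continuous_fderiv (by norm_num))

lemma cut_TIn {Ω : Set (E 3)} (hΩ : IsOpen Ω) {w : E 3 → ℝ} (hw : ContDiff ℝ ∞ w)
    (hw0 : ∀ x ∈ Ω, 0 ≤ w x) {φ : E 3 → ℝ} (hφ : TIn Ω φ) :
    TIn Ω (Ω.indicator fun x => PP (φ x - w x)) ∧
      gradient (Ω.indicator fun x => PP (φ x - w x)) =
        Ω.indicator fun x => Real.smoothTransition (φ x - w x) • (gradient φ x - gradient w x) := by
  have hz : ∀ y, φ y = 0 → Ω.indicator (fun x => PP (φ x - w x)) y = 0 := by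
    intro y hy
    by_cases hyΩ : y ∈ Ω
    · rw [Set.indicator_of_mem hyΩ, hy, zero_sub]
      exact PP_of_nonpos (neg_nonpos.2 (hw0 y hyΩ))
    · rw [Set.indicator_of_notMem hyΩ]
  have hnear : ∀ x, x ∉ Ω → (Ω.indicator fun x => PP (φ x - w x)) =ᶠ[𝓝 x] fun _ => (0:ℝ) := by
    intro x hx
    have h1 : (tsupport φ)ᶜ ∈ 𝓝 x :=
      (isClosed_tsupport φ).isOpen_compl.mem_nhds fun hc => hx (hφ.2.2 hc)
    filter_upwards [h1] with y hy
    exact hz y (image_eq_zero_of_notMem_tsupport hy)
  have hin : ∀ x, x ∈ Ω → (Ω.indicator fun x => PP (φ x - w x)) =ᶠ[𝓝 x]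
      fun x => PP (φ x - w x) := by
    intro x hx
    filter_upwards [hΩ.mem_nhds hx] with y hy
    rw [Set.indicator_of_mem hy]
  have hsm : ContDiff ℝ ∞ (Ω.indicator fun x => PP (φ x - w x)) := by
    rw [contDiff_iff_contDiffAt]
    intro x
    by_cases hx : x ∈ Ω
    · exact ((PP_smooth.comp (hφ.1.sub hw)).contDiffAt).congr_of_eventuallyEq (hin x hx)
    · exact (contDiffAt_const (c := (0:ℝ))).congr_of_eventuallyEq (hnear x hx)
  refine ⟨hφ.of_zero hsm hz, ?_⟩
  funext x
  by_cases hx : x ∈ Ω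
  · rw [Set.indicator_of_mem hx]
    have h1 : gradient (Ω.indicator fun x => PP (φ x - w x)) x =
        gradient (fun x => PP (φ x - w x)) x := by
      unfold gradient; rw [(hin x hx).fderiv_eq]
    have hdφ := hφ.tst.diff x
    have hdw : DifferentiableAt ℝ w x := (hw.differentiable (by simp)) x
    have hd : DifferentiableAt ℝ (fun y => φ y - w y) x := hdφ.sub hdw
    rw [h1, gradient_comp (PP_smooth.differentiable (by simp)) hd, PP_deriv,
      gradient_sub hdφ hdw]
  · rw [Set.indicator_of_notMem hx]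
    unfold gradient
    rw [(hnear x hx).fderiv_eq]
    simp

/-- the positive part above a smooth barrier is an admissible test function -/
lemma h01_cut {Ω : Set (E 3)} (hΩ : IsOpen Ω) (hb : Bornology.IsBounded Ω) {u : E 3 → ℝ}
    {G : E 3 → E 3} (h : H01 Ω u G) {w : E 3 → ℝ} (hw : ContDiff ℝ ∞ w)
    (hw0 : ∀ x ∈ Ω, 0 ≤ w x) :
    H01 Ω (Ω.indicator fun x => PP (u x - w x))
      (Ω.indicator fun x => Real.smoothTransition (u x - w x) • (G x - gradient w x)) := by
  have hw2 : ContDiff ℝ 2 w := hw.of_le two_le_inf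
  have hW := memLp_ind hΩ.measurableSet hb (grad_smooth_cont hw2)
  obtain ⟨φ, tφ, h1, h2, h3, h4⟩ := h01_seq h
  obtain ⟨hu, hG, -⟩ := h
  have s0 : ∀ t, ‖Real.smoothTransition t‖ ≤ 1 := fun t => by
    rw [Real.norm_eq_abs, abs_of_nonneg (Real.smoothTransition.nonneg t)]
    exact Real.smoothTransition.le_one t
  -- the functions
  have bnd : ∀ v : E 3 → ℝ, ∀ x, ‖Ω.indicator (fun x => PP (v x - w x)) x‖ ≤ ‖v x‖ := by
    intro v x
    by_cases hx : x ∈ Ω
    · rw [Set.indicator_of_mem hx, Real.norm_eq_abs, abs_of_nonneg (PP_nonneg _)]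
      have a1 : PP (v x - w x) ≤ PP (v x) := PP_mono (by linarith [hw0 x hx])
      have a2 := PP_lip (v x) 0
      rw [PP_of_nonpos le_rfl, sub_zero, sub_zero, abs_of_nonneg (PP_nonneg _)] at a2
      exact a1.trans a2
    · rw [Set.indicator_of_notMem hx, norm_zero]; exact norm_nonneg _
  have meas1 : ∀ v : E 3 → ℝ, AEStronglyMeasurable v volume →
      AEStronglyMeasurable (Ω.indicator fun x => PP (v x - w x)) volume := fun v hv =>
    (PP_smooth.continuous.comp_aestronglyMeasurable
      (hv.sub hw.continuous.aestronglyMeasurable)).indicator hΩ.measurableSet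
  have mem1 : ∀ v : E 3 → ℝ, MemLp v 2 volume →
      MemLp (Ω.indicator fun x => PP (v x - w x)) 2 volume := fun v hv =>
    hv.mono (meas1 v hv.1) (Eventually.of_forall (bnd v))
  -- vector fields of the form `1_Ω s(v - w) • H`
  have mem2 : ∀ (v : E 3 → ℝ) (H : E 3 → E 3), MemLp v 2 volume → MemLp H 2 volume →
      MemLp (Ω.indicator fun x => Real.smoothTransition (v x - w x) • H x) 2 volume := by
    intro v H hv hH
    refine hH.mono (((st_cont.comp_aestronglyMeasurable
      (hv.1.sub hw.continuous.aestronglyMeasurable)).smul hH.1).indicator hΩ.measurableSet)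
      (Eventually.of_forall fun x => ?_)
    by_cases hx : x ∈ Ω
    · rw [Set.indicator_of_mem hx, norm_smul]
      exact mul_le_of_le_one_left (norm_nonneg _) (s0 _)
    · rw [Set.indicator_of_notMem hx, norm_zero]; exact norm_nonneg _
  have hGW : MemLp (fun x => G x - Ω.indicator (gradient w) x) 2 volume := hG.sub hW
  have eform : ∀ (v : E 3 → ℝ) (H : E 3 → E 3),
      (Ω.indicator fun x => Real.smoothTransition (v x - w x) • (H x - gradient w x)) =
      Ω.indicator fun x => Real.smoothTransition (v x - w x) •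
        (H x - Ω.indicator (gradient w) x) := by
    intro v H
    funext x
    by_cases hx : x ∈ Ω
    · rw [Set.indicator_of_mem hx, Set.indicator_of_mem hx, Set.indicator_of_mem hx]
    · rw [Set.indicator_of_notMem hx, Set.indicator_of_notMem hx]
  have mu0 := mem1 u hu
  have mG0 : MemLp (Ω.indicator fun x => Real.smoothTransition (u x - w x) •
      (G x - gradient w x)) 2 volume := by
    rw [eform u G]; exact mem2 u _ hu hGW
  have tt := fun k => cut_TIn hΩ hw hw0 (tφ k)
  refine h01_closed (fun k => (tt k).1.h01) mu0 mG0 ?_ ?_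
  · have h5 := h1.sub_sq (fun k => (tφ k).tst.memLp 2) hu
    apply lTo_of_sq (fun k => (tt k).1.tst.memLp 2) mu0
    refine tendsto_of_tendsto_of_tendsto_of_le_of_le tendsto_const_nhds h5
      (fun k => integral_nonneg fun x => by positivity) ?_
    intro k
    dsimp only
    apply integral_mono
    · exact integrable_sq (((tt k).1.tst.memLp 2).sub mu0)
    · exact integrable_sq (((tφ k).tst.memLp 2).sub hu)
    · intro x
      dsimp only
      apply pow_le_pow_left₀ (norm_nonneg _)
      by_cases hx : x ∈ Ω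
      · rw [Set.indicator_of_mem hx, Set.indicator_of_mem hx]
        have := PP_lip (φ k x - w x) (u x - w x)
        rw [Real.norm_eq_abs, Real.norm_eq_abs]
        rwa [sub_sub_sub_cancel_right] at this
      · rw [Set.indicator_of_notMem hx, Set.indicator_of_notMem hx, sub_zero, norm_zero]
        exact norm_nonneg _
  · have mA : ∀ k, MemLp (Ω.indicator fun x => Real.smoothTransition (φ k x - w x) •
        (gradient (φ k) x - G x)) 2 volume := fun k =>
      mem2 _ _ ((tφ k).tst.memLp 2) (((tφ k).tst.memLp_grad 2).sub hG)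
    have mB : ∀ k, MemLp (Ω.indicator fun x => Real.smoothTransition (φ k x - w x) •
        (G x - Ω.indicator (gradient w) x)) 2 volume := fun k =>
      mem2 _ _ ((tφ k).tst.memLp 2) hGW
    have hA : LTo volume (fun k => Ω.indicator fun x => Real.smoothTransition (φ k x - w x) •
        (gradient (φ k) x - G x)) (fun _ => (0 : E 3)) := by
      have h5 := h2.sub_sq (fun k => (tφ k).tst.memLp_grad 2) hG
      apply lTo_of_sq mA (MemLp.zero (μ := volume))
      refine tendsto_of_tendsto_of_tendsto_of_le_of_le tendsto_const_nhds h5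
        (fun k => integral_nonneg fun x => by positivity) ?_
      intro k
      dsimp only
      apply integral_mono
      · exact integrable_sq ((mA k).sub (MemLp.zero (μ := volume)))
      · exact integrable_sq (((tφ k).tst.memLp_grad 2).sub hG)
      · intro x
        dsimp only
        apply pow_le_pow_left₀ (norm_nonneg _)
        rw [Pi.zero_apply, sub_zero]
        by_cases hx : x ∈ Ω
        · rw [Set.indicator_of_mem hx, norm_smul]
          exact mul_le_of_le_one_left (norm_nonneg _) (s0 _)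
        · rw [Set.indicator_of_notMem hx, norm_zero]; exact norm_nonneg _
    have hB : LTo volume (fun k => Ω.indicator fun x => Real.smoothTransition (φ k x - w x) •
        (G x - Ω.indicator (gradient w) x))
        (Ω.indicator fun x => Real.smoothTransition (u x - w x) •
        (G x - Ω.indicator (gradient w) x)) := by
      refine lTo_of_dominated (b := fun x => ‖G x - Ω.indicator (gradient w) x‖)
        (fun k => (mB k).1) hGW.norm (fun k => Eventually.of_forall fun x => ?_) ?_
        (mem2 u _ hu hGW)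
      · by_cases hx : x ∈ Ω
        · rw [Set.indicator_of_mem hx, norm_smul]
          exact mul_le_of_le_one_left (norm_nonneg _) (s0 _)
        · rw [Set.indicator_of_notMem hx, norm_zero]; exact norm_nonneg _
      · filter_upwards [h3] with x hx
        by_cases hxΩ : x ∈ Ω
        · simp only [Set.indicator_of_mem hxΩ]
          exact ((st_cont.tendsto _).comp (hx.sub_const _)).smul_const _
        · simp only [Set.indicator_of_notMem hxΩ]
          exact tendsto_const_nhds
    have hAB := LTo.add hA hB mA (MemLp.zero (μ := volume)) mB (mem2 u _ hu hGW)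
    rw [eform u G]
    simp only [zero_add] at hAB
    refine Tendsto.congr (fun k => ?_) hAB
    dsimp only
    rw [(tt k).2]
    congr 1
    funext x
    congr 1
    by_cases hx : x ∈ Ω
    · simp only [Set.indicator_of_mem hx]
      rw [← smul_add, sub_add_sub_cancel]
    · simp only [Set.indicator_of_notMem hx]
      simp

/-- **comparison** -/
theorem compare {Ω : Set (E 3)} (hΩ : IsOpen Ω) (hb : Bornology.IsBounded Ω) {u f : E 3 → ℝ}
    {G : E 3 → E 3} (h : H01 Ω u G) (hf : MemLp f 2 volume)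
    (hwk : ∀ φ : E 3 → ℝ, TIn Ω φ → ∫ x, ⟪G x, gradient φ x⟫ = ∫ x, f x * φ x) {M : ℝ}
    (hM : ∀ᵐ x ∂(volume : Measure (E 3)), f x ≤ M) {w : E 3 → ℝ} (hw : ContDiff ℝ ∞ w)
    (hw0 : ∀ x ∈ Ω, 0 ≤ w x) (hL : ∀ x ∈ Ω, (Δ w) x ≤ -M) :
    ∀ᵐ x ∂(volume : Measure (E 3)), x ∈ Ω → u x ≤ w x := by
  have hw2 : ContDiff ℝ 2 w := hw.of_le two_le_inf
  have hW := memLp_ind hΩ.measurableSet hb (grad_smooth_cont hw2)
  have hC := h01_cut hΩ hb h hw hw0
  obtain ⟨ψ, hψ⟩ : ∃ ψ, ψ = Ω.indicator fun x => PP (u x - w x) := ⟨_, rfl⟩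
  obtain ⟨Ψ, hΨ⟩ : ∃ Ψ, Ψ = Ω.indicator fun x => Real.smoothTransition (u x - w x) •
    (G x - gradient w x) := ⟨_, rfl⟩
  rw [← hψ, ← hΨ] at hC
  have E1 := weak_ext2 h.2.1 hf hwk hC
  have hg : MemLp (Ω.indicator fun x => -(Δ w) x) 2 volume :=
    memLp_ind hΩ.measurableSet hb (lap_cont2 hw2).neg
  have E2 := weak_ext2 (Ω := Ω) (f := Ω.indicator fun x => -(Δ w) x) hW hg (fun φ hφ => by
    have e1 : ∫ x, ⟪Ω.indicator (gradient w) x, gradient φ x⟫ =
        ∫ x, ⟪gradient w x, gradient φ x⟫ := by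
      congr 1; funext x
      by_cases hx : x ∈ Ω
      · rw [Set.indicator_of_mem hx]
      · have : gradient φ x = 0 := by
          have h1 : (tsupport φ)ᶜ ∈ 𝓝 x :=
            (isClosed_tsupport φ).isOpen_compl.mem_nhds fun hc => hx (hφ.2.2 hc)
          have h2 : φ =ᶠ[𝓝 x] fun _ => (0:ℝ) := by
            filter_upwards [h1] with y hy
            exact image_eq_zero_of_notMem_tsupport hy
          unfold gradient
          rw [h2.fderiv_eq]; simp
        rw [this, inner_zero_right, inner_zero_right]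
    have e2 : ∫ x, Ω.indicator (fun x => -(Δ w) x) x * φ x = -∫ x, (Δ w) x * φ x := by
      rw [← integral_neg]; congr 1; funext x
      by_cases hx : x ∈ Ω
      · rw [Set.indicator_of_mem hx]; ring
      · rw [hφ.zero_out hx, mul_zero, mul_zero, neg_zero]
    rw [e1, e2, ibp hw2 (hφ.1.of_le one_le_inf) hφ.2.1]) hC
  have i1 := integrable_inner' h.2.1 hC.2.1
  have i2 := integrable_inner' hW hC.2.1
  have j1 := int_mul2 hf hC.1
  have j2 := int_mul2 hg hC.1
  have key : ∫ x, ‖Ψ x‖ ^ 2 ≤ 0 := by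
    calc ∫ x, ‖Ψ x‖ ^ 2 ≤ ∫ x, (⟪G x, Ψ x⟫ - ⟪Ω.indicator (gradient w) x, Ψ x⟫) := by
          apply integral_mono (integrable_sq hC.2.1) (i1.sub i2)
          intro x
          simp only [Pi.sub_apply]
          rw [← inner_sub_left, hΨ]
          by_cases hx : x ∈ Ω
          · rw [Set.indicator_of_mem hx, Set.indicator_of_mem hx, norm_smul, mul_pow,
              real_inner_smul_right, real_inner_self_eq_norm_sq, Real.norm_eq_abs, sq_abs]
            have h1 := Real.smoothTransition.nonneg (u x - w x)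
            have h2 := Real.smoothTransition.le_one (u x - w x)
            gcongr
            nlinarith
          · rw [Set.indicator_of_notMem hx, Set.indicator_of_notMem hx]
            simp
      _ = ∫ x, (f x * ψ x - Ω.indicator (fun x => -(Δ w) x) x * ψ x) := by
          rw [integral_sub i1 i2, integral_sub j1 j2, E1, E2]
      _ ≤ 0 := by
          apply integral_nonpos_of_ae
          filter_upwards [hM] with x hx1
          simp only [Pi.zero_apply]
          rw [← sub_mul, hψ]
          by_cases hx : x ∈ Ω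
          · rw [Set.indicator_of_mem hx, Set.indicator_of_mem hx]
            have := hL x hx
            exact mul_nonpos_of_nonpos_of_nonneg (by linarith) (PP_nonneg _)
          · rw [Set.indicator_of_notMem hx, Set.indicator_of_notMem hx]
            simp
  have h6 := six_h01 hC
  have h7 : ∫ x, ψ x ^ 6 = 0 := by
    have h8 : 0 ≤ ∫ x, ψ x ^ 6 := integral_nonneg fun x => by positivity
    have h9 : 0 ≤ ∫ x, ‖Ψ x‖ ^ 2 := integral_nonneg fun x => by positivity
    have h10 : ∫ x, ‖Ψ x‖ ^ 2 = 0 := le_antisymm key h9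
    have h11 := h6.2
    rw [h10, zero_pow (by norm_num)] at h11
    have := pow_pos SS_pos 3
    nlinarith
  have h8 := (integral_eq_zero_iff_of_nonneg (fun x => by positivity) h6.1).1 h7
  filter_upwards [h8] with x hx hxΩ
  by_contra hc
  have h9 : ψ x ≠ 0 := by
    rw [hψ, Set.indicator_of_mem hxΩ]
    exact (PP_pos (by linarith [not_le.1 hc])).ne'
  exact h9 (by simpa using hx)

end Run7.h104
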