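import Pool.Agent.Run7.h104.Reg3

/-! # Barriers at boundary points with an exterior ball -/

set_option autoImplicit false
set_option linter.unusedSectionVars false
set_option linter.unusedVariables false

open MeasureTheory Filter Topology
open scoped ContDiff ENNReal NNReal RealInnerProductSpace Laplacian

namespace Run7.h104

open Pool.Agent.R217.BN (E cexp sobS H01)
open Pool.Agent.R217.HS
open Pool.Agent.R217.KM

/-- Gaussian -/
noncomputable def gau (κ r : ℝ) (y x : E 3) : ℝ := Real.exp (-κ * (‖x - y‖ ^ 2 - r ^ 2))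

lemma gau_smooth (κ r : ℝ) (y : E 3) : ContDiff ℝ ∞ (gau κ r y) := by
  unfold gau
  exact (contDiff_const.mul (((contDiff_id.sub contDiff_const).norm_sq ℝ).sub contDiff_const)).exp

lemma inner_eb (v : E 3) (i : Fin 3) : ⟪v, eb i⟫ = v i := by
  rw [real_inner_comm]
  simp [EuclideanSpace.basisFun_apply, EuclideanSpace.inner_single_left]

lemma gau_fderiv (κ r : ℝ) (y x : E 3) :
    HasFDerivAt (gau κ r y) ((gau κ r y x * (-κ * 2)) • (innerSL ℝ (x - y))) x := by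
  have h1 : HasFDerivAt (fun z : E 3 => ‖z - y‖ ^ 2) (2 • innerSL ℝ (x - y)) x := by
    have := (hasStrictFDerivAt_norm_sq (x - y)).hasFDerivAt.comp x
      ((hasFDerivAt_id x).sub_const y)
    exact this
  have h2 := ((h1.sub_const (r ^ 2)).const_mul (-κ)).exp
  have e : (gau κ r y x * (-κ * 2)) • (innerSL ℝ (x - y)) =
      Real.exp (-κ * (‖x - y‖ ^ 2 - r ^ 2)) • -κ • 2 • innerSL ℝ (x - y) := by
    ext v
    simp [gau]
    ring
  rw [e]
  exact h2

lemma gau_D (κ r : ℝ) (y x : E 3) (i : Fin 3) :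
    fderiv ℝ (gau κ r y) x (eb i) = gau κ r y x * (-κ * 2) * (x i - y i) := by
  rw [(gau_fderiv κ r y x).fderiv]
  simp only [ContinuousLinearMap.smul_apply, innerSL_apply_apply, smul_eq_mul]
  rw [inner_eb]
  simp

lemma gau_lap (κ r : ℝ) (y x : E 3) :
    (Δ (gau κ r y)) x = gau κ r y x * (4 * κ ^ 2 * ‖x - y‖ ^ 2 - 6 * κ) := by
  rw [lap_eq2 ((gau_smooth κ r y).of_le two_le_inf)]
  have e : ∀ i : Fin 3, fderiv ℝ (fun z => fderiv ℝ (gau κ r y) z (eb i)) x (eb i) =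
      gau κ r y x * (4 * κ ^ 2 * (x i - y i) ^ 2 - 2 * κ) := by
    intro i
    rw [show (fun z => fderiv ℝ (gau κ r y) z (eb i)) =
      fun z => gau κ r y z * (-κ * 2) * (z i - y i) from funext fun z => gau_D κ r y z i]
    have hc : HasFDerivAt (fun w : E 3 => w i - y i) (EuclideanSpace.proj i : E 3 →L[ℝ] ℝ) x :=
      (EuclideanSpace.proj i : E 3 →L[ℝ] ℝ).hasFDerivAt.sub_const _
    have h := ((gau_fderiv κ r y x).mul_const (-κ * 2)).mul hc
    have h' : fderiv ℝ (fun z => gau κ r y z * (-κ * 2) * (z i - y i)) x = _ := h.fderiv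
    rw [h']
    simp only [ContinuousLinearMap.add_apply, ContinuousLinearMap.smul_apply, innerSL_apply_apply,
      smul_eq_mul]
    rw [inner_eb]
    simp
    ring
  simp_rw [e]
  have h3 : ‖x - y‖ ^ 2 = ∑ i : Fin 3, (x i - y i) ^ 2 := by
    rw [EuclideanSpace.norm_sq_eq]
    simp [sq_abs]
  rw [h3, Fin.sum_univ_three, Fin.sum_univ_three]
  ring

/-- the barrier -/
noncomputable def bar (K κ r : ℝ) (y x : E 3) : ℝ := K + -K * gau κ r y x

lemma bar_smooth (K κ r : ℝ) (y : E 3) : ContDiff ℝ ∞ (bar K κ r y) := by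
  unfold bar
  exact contDiff_const.add (contDiff_const.mul (gau_smooth κ r y))

lemma bar_lap (K κ r : ℝ) (y x : E 3) :
    (Δ (bar K κ r y)) x = -K * (gau κ r y x * (4 * κ ^ 2 * ‖x - y‖ ^ 2 - 6 * κ)) := by
  have h1 : (Δ (bar K κ r y)) x = (Δ fun _ : E 3 => K) x + (Δ fun x => -K * gau κ r y x) x :=
    Pool.Agent.Helper486.TP.lap_add contDiff_const (contDiff_const.mul (gau_smooth κ r y)) x
  rw [h1, Pool.Agent.Helper486.TP.lap_const_mul _ (gau_smooth κ r y), gau_lap]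
  simp

/-- decay at boundary points with an exterior ball -/
theorem bdry {Ω : Set (E 3)} (hΩ : IsOpen Ω) (hb : Bornology.IsBounded Ω) {u f : E 3 → ℝ}
    {G : E 3 → E 3} (h : H01 Ω u G) (hf : MemLp f 2 volume)
    (hwk : ∀ φ : E 3 → ℝ, TIn Ω φ → ∫ x, ⟪G x, gradient φ x⟫ = ∫ x, f x * φ x) {M : ℝ}
    (hM0 : 0 ≤ M) (hM : ∀ᵐ x ∂(volume : Measure (E 3)), |f x| ≤ M) {p y : E 3} {r : ℝ}
    (hr : 0 < r) (hp : ‖p - y‖ = r) (hext : ∀ x ∈ Ω, r ≤ ‖x - y‖) :
    ∃ b : E 3 → ℝ, Continuous b ∧ b p = 0 ∧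
      ∀ᵐ x ∂(volume : Measure (E 3)), x ∈ Ω → |u x| ≤ b x := by
  obtain ⟨D, hD⟩ : ∃ D : ℝ, ∀ x ∈ Ω, ‖x - y‖ ≤ D := by
    obtain ⟨D, hD⟩ := hb.exists_norm_le
    exact ⟨D + ‖y‖, fun x hx => (norm_sub_le _ _).trans (by linarith [hD x hx])⟩
  obtain ⟨κ, hκ⟩ : ∃ κ, κ = 2 / r ^ 2 := ⟨_, rfl⟩
  have hκ0 : 0 < κ := by rw [hκ]; positivity
  have hκr : κ * r ^ 2 = 2 := by rw [hκ]; field_simp
  obtain ⟨K, hK⟩ : ∃ K, K = M * Real.exp (κ * D ^ 2) / (2 * κ) := ⟨_, rfl⟩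
  have hK0 : 0 ≤ K := by rw [hK]; positivity
  have hge : ∀ x ∈ Ω, gau κ r y x ≤ 1 := by
    intro x hx
    unfold gau
    rw [Real.exp_le_one_iff]
    have := pow_le_pow_left₀ hr.le (hext x hx) 2
    nlinarith
  have hb0 : ∀ x ∈ Ω, 0 ≤ bar K κ r y x := by
    intro x hx
    have := hge x hx
    unfold bar
    nlinarith
  have hL : ∀ x ∈ Ω, (Δ (bar K κ r y)) x ≤ -M := by
    intro x hx
    rw [bar_lap]
    have h1 := pow_le_pow_left₀ hr.le (hext x hx) 2
    have h2 := pow_le_pow_left₀ (norm_nonneg _) (hD x hx) 2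
    have h3 : Real.exp (-(κ * D ^ 2)) ≤ gau κ r y x := by
      unfold gau
      apply Real.exp_le_exp.2
      have : 0 ≤ κ * r ^ 2 := by positivity
      nlinarith
    have h4 : 2 * κ ≤ 4 * κ ^ 2 * ‖x - y‖ ^ 2 - 6 * κ := by
      have : 4 * κ ^ 2 * r ^ 2 = 8 * κ := by
        calc 4 * κ ^ 2 * r ^ 2 = 4 * κ * (κ * r ^ 2) := by ring
          _ = 8 * κ := by rw [hκr]; ring
      nlinarith [mul_le_mul_of_nonneg_left h1 (by positivity : 0 ≤ 4 * κ ^ 2)]
    have h5 : M = K * (Real.exp (-(κ * D ^ 2)) * (2 * κ)) := by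
      rw [hK, Real.exp_neg]
      field_simp
    have h6 : K * (Real.exp (-(κ * D ^ 2)) * (2 * κ)) ≤
        K * (gau κ r y x * (4 * κ ^ 2 * ‖x - y‖ ^ 2 - 6 * κ)) := by
      have : 0 ≤ gau κ r y x := (Real.exp_pos _).le
      gcongr
    linarith
  have hwk' : ∀ φ : E 3 → ℝ, TIn Ω φ →
      ∫ x, ⟪-G x, gradient φ x⟫ = ∫ x, -f x * φ x := by
    intro φ hφ
    have e1 : ∫ x, ⟪-G x, gradient φ x⟫ = -∫ x, ⟪G x, gradient φ x⟫ := by
      rw [← integral_neg]; congr 1; funext x; rw [inner_neg_left]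
    have e2 : ∫ x, -f x * φ x = -∫ x, f x * φ x := by
      rw [← integral_neg]; congr 1; funext x; ring
    rw [e1, e2, hwk φ hφ]
  have c1 := compare hΩ hb h hf hwk (hM.mono fun x hx => (le_abs_self _).trans hx)
    (bar_smooth K κ r y) hb0 hL
  have c2 := compare hΩ hb (h01_neg h) hf.neg hwk'
    (hM.mono fun x hx => (neg_le_abs _).trans hx) (bar_smooth K κ r y) hb0 hL
  refine ⟨bar K κ r y, (bar_smooth K κ r y).continuous, ?_, ?_⟩
  · unfold bar gau
    rw [hp]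
    simp
  · filter_upwards [c1, c2] with x h1 h2 hx
    rw [abs_le]
    exact ⟨by linarith [h2 hx], h1 hx⟩

end Run7.h104
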