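import Pool.Agent.Run7.h104.Reg3

/-! # Interior representation -/

set_option autoImplicit false
set_option linter.unusedSectionVars false
set_option linter.unusedVariables false

open MeasureTheory Filter Topology
open scoped ContDiff ENNReal NNReal RealInnerProductSpace Laplacian

namespace Run7.h104

open Pool.Agent.R217.BN (E cexp sobS H01)
open Pool.Agent.R217.HS
open Pool.Agent.R217.KM
open Pool.Agent.H123R3 (G0 Gt NC FP NP Lay LL Far Gt_smooth Gt_far G0_integrable Gt_add_G0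
  NC_contDiff NC_hasFDerivAt near_contDiff green2 u0 u0_cont Lay.FP_contDiff)
open Pool.Agent.Helper486.TP (newton newton_toReal newton_laplacian lap_comp_sub)

/-- bounded measurable functions with bounded support -/
structure BM (U : E 3 → ℝ) : Prop where
  meas : Measurable U
  bdd : ∃ M, ∀ w, |U w| ≤ M
  supp : ∃ ρ, ∀ w, ρ < ‖w‖ → U w = 0

lemma BM.lay {U : E 3 → ℝ} (h : BM U) : ∃ R M, Lay R M U := by
  obtain ⟨M, hM⟩ := h.bdd
  obtain ⟨ρ, hρ⟩ := h.supp
  obtain ⟨R, hR⟩ := (isCompact_closedBall (0 : E 3) ρ).exists_bound_of_continuousOn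
    u0_cont.continuousOn
  refine ⟨R, M, h.meas, hM, fun w hw => hρ w ?_⟩
  by_contra hc
  apply hw
  have := hR w (by simpa using not_lt.1 hc)
  exact this

lemma BM.int {U : E 3 → ℝ} (h : BM U) : Integrable U := by
  obtain ⟨M, hM⟩ := h.bdd
  obtain ⟨ρ, hρ⟩ := h.supp
  have h1 : IntegrableOn U (Metric.closedBall (0 : E 3) ρ) := by
    have : IsFiniteMeasure (volume.restrict (Metric.closedBall (0 : E 3) ρ)) :=
      isFiniteMeasure_restrict.2 (isCompact_closedBall _ _).measure_lt_top.ne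
    exact Integrable.of_bound h.meas.aestronglyMeasurable M (Eventually.of_forall hM)
  rw [← integrableOn_iff_integrable_of_support_subset (s := Metric.closedBall (0 : E 3) ρ)]
  · exact h1
  · intro w hw
    by_contra hc
    apply hw
    apply hρ
    simpa using hc

lemma gt_even (x : E 3) : Gt (-x) = Gt x := by
  unfold Pool.Agent.H123R3.Gt
  rw [norm_neg, ContDiffBump.neg]

lemma g0_even (x : E 3) : G0 (-x) = G0 x := by
  unfold Pool.Agent.H123R3.G0
  rw [norm_neg, ContDiffBump.neg]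

/-- the smooth error kernel -/
noncomputable def kap3 (x : E 3) : ℝ := (Δ Gt) x

lemma kap3_eq : kap3 = fun x => ∑ i, fderiv ℝ (fun z => fderiv ℝ Gt z (eb i)) x (eb i) :=
  funext fun x => lap_eq2 (Gt_smooth.of_le two_le_inf) x

lemma kap3_cont : Continuous kap3 := lap_cont2 (Gt_smooth.of_le two_le_inf)

lemma far_apply {m : ℕ} {F : Type} [NormedAddCommGroup F] [NormedSpace ℝ F]
    {k : E 3 → (E 3 →L[ℝ] F)} (h : Far m k) (v : E 3) : Far m (fun x => k x v) where
  smooth := h.smooth.clm_apply contDiff_const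
  zero := fun x hx => by rw [h.zero x hx]; rfl
  hom := fun x t h1 h2 => by
    have := congrArg (fun T : E 3 →L[ℝ] F => T v) (h.hom x t h1 h2)
    simpa using this

lemma kap3_far : Far 3 kap3 := by
  have h : ∀ i : Fin 3, Far 3 (fun x => fderiv ℝ (fun z => fderiv ℝ Gt z (eb i)) x (eb i)) :=
    fun i => far_apply (far_apply Gt_far.fderiv (eb i)).fderiv (eb i)
  rw [kap3_eq]
  refine ⟨ContDiff.sum fun i _ => (h i).smooth, fun x hx => Finset.sum_eq_zero fun i _ =>
    (h i).zero x hx, fun x t h1 h2 => ?_⟩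
  rw [Finset.smul_sum]
  exact Finset.sum_congr rfl fun i _ => (h i).hom x t h1 h2

/-- the potential of a test function is a test function -/
lemma NC_smooth {θ : E 3 → ℝ} (h : Tst θ) : ContDiff ℝ ∞ (NC θ) := by
  rw [contDiff_infty]
  intro n
  exact (NC_contDiff n (h.1.of_le (by exact_mod_cast le_top)) h.2).of_le
    (by exact_mod_cast Nat.le_succ n)

lemma NC_zero {θ : E 3 → ℝ} {X : E 3} (h : ∀ w, ‖X - w‖ < 1 → θ w = 0) : NC θ X = 0 := by
  unfold Pool.Agent.H123R3.NC
  rw [show (fun w => G0 (X - w) • θ w) = fun _ => (0:ℝ) from ?_, integral_zero]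
  funext w
  by_cases hw : 1 ≤ ‖X - w‖
  · rw [Pool.Agent.H123R3.G0_zero _ hw, zero_smul]
  · rw [h w (not_le.1 hw), smul_zero]

lemma NC_TIn {θ : E 3 → ℝ} {ρ : ℝ} (h : TIn (Metric.ball 0 ρ) θ) :
    TIn (Metric.ball 0 (ρ + 2)) (NC θ) := by
  have hz : ∀ X, ρ + 1 ≤ ‖X‖ → NC θ X = 0 := by
    intro X hX
    apply NC_zero
    intro w hw
    apply h.zero_out
    intro hc
    rw [mem_ball_zero_iff] at hc
    have : ‖X‖ ≤ ‖X - w‖ + ‖w‖ := by
      have := norm_add_le (X - w) w
      rwa [sub_add_cancel] at this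
    linarith
  refine ⟨NC_smooth h.tst, ?_, ?_⟩
  · refine HasCompactSupport.intro (isCompact_closedBall (0 : E 3) (ρ + 1)) fun X hX => ?_
    apply hz
    rw [Metric.mem_closedBall, dist_zero_right, not_le] at hX
    exact hX.le
  · have : tsupport (NC θ) ⊆ Metric.closedBall 0 (ρ + 1) := by
      apply closure_minimal _ Metric.isClosed_closedBall
      intro X hX
      rw [Metric.mem_closedBall, dist_zero_right]
      by_contra hc
      exact hX (hz X (not_le.1 hc).le)
    exact this.trans (Metric.closedBall_subset_ball (by linarith))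

lemma G0_int_mul {F : Type} [NormedAddCommGroup F] [NormedSpace ℝ F] {φ : E 3 → F}
    (hφ : Continuous φ) (hs : HasCompactSupport φ) (X : E 3) :
    Integrable (fun w => G0 (X - w) • φ w) := by
  obtain ⟨S, hS⟩ := hs.exists_bound_of_continuous hφ
  exact (G0_integrable.comp_sub_left X).smul_bdd S hφ.aestronglyMeasurable
    (Eventually.of_forall hS)

lemma NC_D {θ : E 3 → ℝ} (h : ContDiff ℝ 1 θ) (hs : HasCompactSupport θ) (z v : E 3) :
    fderiv ℝ (NC θ) z v = NC (fun w => fderiv ℝ θ w v) z := by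
  rw [(NC_hasFDerivAt h hs z).fderiv]
  unfold Pool.Agent.H123R3.NC
  rw [ContinuousLinearMap.integral_apply]
  · rfl
  · exact G0_int_mul (h.continuous_fderiv (by norm_num)) (hs.fderiv (𝕜 := ℝ)) z

lemma NC_lap {θ : E 3 → ℝ} (h : Tst θ) (X : E 3) : (Δ (NC θ)) X = NC (Δ θ) X := by
  have h2 : ContDiff ℝ 2 θ := h.1.of_le two_le_inf
  rw [lap_eq2 ((NC_smooth h).of_le two_le_inf)]
  have e1 : ∀ i : Fin 3, (fun z => fderiv ℝ (NC θ) z (eb i)) = NC (fun w => fderiv ℝ θ w (eb i)) :=
    fun i => funext fun z => NC_D (h.1.of_le one_le_inf) h.2 z (eb i)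
  have e2 : ∀ i : Fin 3, fderiv ℝ (NC (fun w => fderiv ℝ θ w (eb i))) X (eb i) =
      NC (fun w => fderiv ℝ (fun z => fderiv ℝ θ z (eb i)) w (eb i)) X := fun i =>
    NC_D (D1_smooth h2 (eb i)) (h.2.fderiv_apply (𝕜 := ℝ) (eb i)) X (eb i)
  simp only [e1, e2]
  unfold Pool.Agent.H123R3.NC
  rw [← integral_finsetSum]
  · congr 1
    funext w
    rw [lap_eq2 h2, Finset.smul_sum]
  · intro i _
    refine G0_int_mul ((((D1_smooth h2 (eb i)).continuous_fderiv (by norm_num))).clm_apply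
      continuous_const) ?_ X
    exact (h.2.fderiv_apply (𝕜 := ℝ) (eb i)).fderiv_apply (𝕜 := ℝ) (eb i)

/-- the fundamental solution, cut off -/
lemma NC_lap_eq {c : ℝ} (hc : ∀ φ : E 3 → ℝ, ContDiff ℝ ∞ φ → HasCompactSupport φ → ∀ a : E 3,
      ∫ y, (newton a y).toReal * (Δ φ) y = -c * φ a) {θ : E 3 → ℝ} (h : Tst θ) (X : E 3) :
    (Δ (NC θ)) X = -c * θ X - ∫ w, kap3 (w - X) * θ w := by
  rw [NC_lap h]
  have hΔc : Continuous (Δ θ) := lap_cont2 (h.1.of_le two_le_inf)
  have hΔs : HasCompactSupport (Δ θ) := Pool.Agent.Helper486.TP.lap_hasCompactSupport h.2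
  have i0 : Integrable (fun w => G0 (X - w) * (Δ θ) w) := G0_int_mul hΔc hΔs X
  have i1 : Integrable (fun w => Gt (X - w) * (Δ θ) w) :=
    ((Gt_smooth.continuous.comp (by fun_prop)).mul hΔc).integrable_of_hasCompactSupport
      hΔs.mul_left
  have e3 : ∫ w, ‖X - w‖⁻¹ * (Δ θ) w = -c * θ X := by
    rw [← hc θ h.1 h.2 X]
    apply integral_congr_ae
    have hne : ∀ᵐ w : E 3, w ≠ X := by rw [ae_iff]; simp
    filter_upwards [hne] with w hw
    rw [newton_toReal (n := 3) le_rfl X w hw]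
    norm_num
    rw [Real.rpow_neg_one, norm_sub_rev]
    simp
  have e4 : ∫ w, ‖X - w‖⁻¹ * (Δ θ) w = (∫ w, Gt (X - w) * (Δ θ) w) + ∫ w, G0 (X - w) * (Δ θ) w := by
    rw [← integral_add i1 i0]
    congr 1
    funext w
    rw [← Gt_add_G0 (X - w)]
    ring
  have e5 : ∫ w, Gt (X - w) * (Δ θ) w = ∫ w, kap3 (w - X) * θ w := by
    have e6 : ∀ w : E 3, Gt (X - w) = Gt (w - X) := by
      intro w; rw [← gt_even, neg_sub]
    have hs : ContDiff ℝ ∞ (fun w => Gt (w - X)) := Gt_smooth.comp (contDiff_id.sub contDiff_const)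
    have := green2 hs h.1 h.2
    rw [lap_comp_sub] at this
    simp only [e6]
    exact this
  have e7 : NC (Δ θ) X = ∫ w, G0 (X - w) * (Δ θ) w := rfl
  rw [e7]
  linarith

end Run7.h104
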