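import Pool.Agent.Run7.h104.Reg5

/-! # Interior regularity -/

set_option autoImplicit false
set_option linter.unusedSectionVars false
set_option linter.unusedVariables false

open MeasureTheory Filter Topology
open scoped ContDiff ENNReal NNReal RealInnerProductSpace Laplacian

namespace Run7.h104

open Pool.Agent.R217.BN (E cexp sobS H01)
open Pool.Agent.R217.HS
open Pool.Agent.R217.KM
open Pool.Agent.H123R3 (G0 Gt NC FP NP Lay LL Far Gt_smooth Gt_far G0_integrable Gt_add_G0
  NC_contDiff NC_hasFDerivAt near_contDiff green2 u0 u0_cont Lay.FP_contDiff)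
open Pool.Agent.Helper486.TP (newton newton_toReal newton_laplacian lap_comp_sub)

/-- the near potential -/
noncomputable def N0 (F : E 3 → ℝ) (w : E 3) : ℝ := ∫ X, F X * G0 (w - X)

/-- the representation -/
noncomputable def repf (c : ℝ) (U F : E 3 → ℝ) (x : E 3) : ℝ := c⁻¹ * (N0 F x - FP U kap3 x)

lemma FPk_smooth {U : E 3 → ℝ} (hU : BM U) (n : ℕ) : ContDiff ℝ n (FP U kap3) := by
  obtain ⟨R, M, h⟩ := hU.lay
  exact h.FP_contDiff n (by norm_num) kap3_far

lemma N0_cont {F : E 3 → ℝ} (hF : BM F) : Continuous (N0 F) := by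
  obtain ⟨R, M, hg⟩ := hF.lay
  have e : N0 F = fun X => NP F X - FP F Gt X := by
    funext X
    unfold N0 Pool.Agent.H123R3.NP Pool.Agent.H123R3.FP
    have hB := Gt_far.bound le_rfl
    obtain ⟨B, hB0, hB⟩ := hB
    have hi1 := (hg.integrable hB0 hB Gt_smooth.continuous.stronglyMeasurable X).1
    have hi2 := (hg.NP_int X).1
    rw [← integral_sub hi2 hi1]
    congr 1
    funext w
    rw [← Gt_add_G0 (X - w), smul_eq_mul]
    ring
  rw [e]
  have h1 : Continuous (NP F) := by
    have hL : LipschitzWith (Real.toNNReal (M * Pool.Agent.H123R3.CR R)) (NP F) := by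
      apply LipschitzWith.of_dist_le_mul
      intro X Y
      rw [Real.dist_eq, dist_eq_norm, Real.coe_toNNReal _
        (mul_nonneg hg.M_nonneg (Pool.Agent.H123R3.CR_nonneg R))]
      exact hg.NP_lip X Y
    exact hL.continuous
  have h2 : Continuous (FP F Gt) := by
    have := hg.FP_contDiff 0 le_rfl Gt_far
    exact this.continuous
  exact h1.sub h2

lemma repf_cont {c : ℝ} {U F : E 3 → ℝ} (hU : BM U) (hF : BM F) : Continuous (repf c U F) := by
  unfold repf
  exact continuous_const.mul ((N0_cont hF).sub (FPk_smooth hU 0).continuous)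

lemma repf_smooth {c : ℝ} {U F : E 3 → ℝ} (hU : BM U) {n : ℕ} (hF : ContDiff ℝ n F) :
    ContDiff ℝ (n + 1) (repf c U F) := by
  unfold repf
  have h1 : ContDiff ℝ (n + 1) (N0 F) := near_contDiff hF
  have h2 := FPk_smooth hU (n + 1)
  push_cast at h2
  exact contDiff_const.mul (h1.sub h2)

lemma kap3_bdd : ∃ B, ∀ a, ‖kap3 a‖ ≤ B := by
  obtain ⟨B, hB0, hB⟩ := kap3_far.bound (by norm_num)
  refine ⟨6 * B, fun a => ?_⟩
  by_cases h1 : ‖a‖ < 1 / 2
  · rw [kap3_far.zero a h1, norm_zero]; positivity
  · have h1' : 1 / 2 ≤ ‖a‖ := not_lt.1 h1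
    have h2 : ‖a‖⁻¹ ≤ 2 := by
      rw [inv_le_comm₀ (by linarith) (by norm_num)]; linarith
    have h3 : 0 ≤ ‖a‖⁻¹ := by positivity
    refine (hB a).trans ?_
    unfold Pool.Agent.H123R3.kk
    nlinarith [mul_nonneg hB0 (by nlinarith : 0 ≤ 6 - (‖a‖⁻¹ + ‖a‖⁻¹ ^ 2))]

theorem rep_unit {c : ℝ} (hc0 : 0 < c)
    (hc : ∀ φ : E 3 → ℝ, ContDiff ℝ ∞ φ → HasCompactSupport φ → ∀ a : E 3,
      ∫ y, (newton a y).toReal * (Δ φ) y = -c * φ a) {U F : E 3 → ℝ} (hU : BM U) (hF : BM F)
    (hw : ∀ φ : E 3 → ℝ, TIn (Metric.ball 0 3) φ →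
      ∫ x, U x * (Δ φ) x = -∫ x, F x * φ x) :
    ∀ᵐ x : E 3, x ∈ Metric.ball (0 : E 3) 1 → U x = repf c U F x := by
  obtain ⟨B, hB⟩ := kap3_bdd
  have key : ∀ᵐ x : E 3, x ∈ Metric.ball (0 : E 3) 1 →
      c * U x + FP U kap3 x - N0 F x = 0 := by
    apply IsOpen.ae_eq_zero_of_integral_contDiff_smul_eq_zero Metric.isOpen_ball
    · apply LocallyIntegrable.locallyIntegrableOn
      exact (((hU.int.const_mul c).locallyIntegrable).add
        (FPk_smooth hU 0).continuous.locallyIntegrable).sub (N0_cont hF).locallyIntegrable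
    · intro θ hθ hs hsub
      have tθ : TIn (Metric.ball 0 1) θ := ⟨hθ, hs, hsub⟩
      have iθ : Integrable θ := hθ.continuous.integrable_of_hasCompactSupport hs
      obtain ⟨Sθ, hSθ⟩ := hs.exists_bound_of_continuous hθ.continuous
      have hφ : TIn (Metric.ball 0 3) (NC θ) := by
        have := NC_TIn tθ
        norm_num at this
        exact this
      have EE := hw _ hφ
      have mk : Measurable kap3 := kap3_cont.measurable
      -- first Fubini
      have P1 : Integrable (fun p : E 3 × E 3 => kap3 (p.2 - p.1) * (U p.1 * θ p.2))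
          (volume.prod volume) :=
        (hU.int.mul_prod iθ).bdd_mul (c := B)
          (mk.comp (measurable_snd.sub measurable_fst)).aestronglyMeasurable
          (Eventually.of_forall fun p => hB _)
      have F1 : ∫ X, U X * ∫ w, kap3 (w - X) * θ w = ∫ w, θ w * FP U kap3 w := by
        have e1 : ∀ X, U X * ∫ w, kap3 (w - X) * θ w =
            ∫ w, kap3 (w - X) * (U X * θ w) := by
          intro X
          rw [← integral_const_mul]
          congr 1; funext w; ring
        simp_rw [e1]
        rw [integral_integral_swap P1]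
        congr 1
        funext w
        unfold Pool.Agent.H123R3.FP
        rw [← integral_const_mul]
        congr 1; funext X
        rw [smul_eq_mul]; ring
      -- second Fubini
      obtain ⟨MF, hMF⟩ := hF.bdd
      have P2 : Integrable (fun p : E 3 × E 3 => F p.1 * (θ p.2 * G0 (p.1 - p.2)))
          (volume.prod volume) := by
        have h1 := Integrable.convolution_integrand (ContinuousLinearMap.mul ℝ ℝ) iθ G0_integrable
        exact Integrable.bdd_mul (c := MF) h1 (hF.meas.comp measurable_fst).aestronglyMeasurable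
          (Eventually.of_forall fun p => hMF _)
      have F2 : ∫ X, F X * NC θ X = ∫ w, θ w * N0 F w := by
        have e1 : ∀ X, F X * NC θ X = ∫ w, F X * (θ w * G0 (X - w)) := by
          intro X
          unfold Pool.Agent.H123R3.NC
          rw [← integral_const_mul]
          congr 1; funext w
          rw [smul_eq_mul]; ring
        simp_rw [e1]
        rw [integral_integral_swap P2]
        congr 1
        funext w
        unfold N0
        rw [← integral_const_mul]
        congr 1; funext X
        rw [← g0_even (w - X), neg_sub]; ring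
      obtain ⟨MU, hMU⟩ := hU.bdd
      have i1 : Integrable (fun X => U X * θ X) :=
        iθ.bdd_mul (c := MU) hU.meas.aestronglyMeasurable (Eventually.of_forall fun x => hMU x)
      have i2 : Integrable (fun X => U X * ∫ w, kap3 (w - X) * θ w) := by
        have := P1.integral_prod_left
        refine this.congr (Eventually.of_forall fun X => ?_)
        dsimp only
        rw [← integral_const_mul]
        congr 1; funext w; ring
      have E1 : ∫ x, U x * (Δ (NC θ)) x = -c * (∫ x, U x * θ x) - ∫ w, θ w * FP U kap3 w := by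
        rw [← F1, ← integral_const_mul, ← integral_sub (i1.const_mul _) i2]
        congr 1; funext X
        rw [NC_lap_eq hc tθ.tst X]
        ring
      rw [E1, F2] at EE
      have j1 : Integrable (fun x => θ x * (c * U x)) := by
        refine (i1.const_mul c).congr (Eventually.of_forall fun x => ?_)
        dsimp only; ring
      have j2 : Integrable (fun x => θ x * FP U kap3 x) :=
        (hθ.continuous.mul (FPk_smooth hU 0).continuous).integrable_of_hasCompactSupport
          hs.mul_right
      have j3 : Integrable (fun x => θ x * N0 F x) :=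
        (hθ.continuous.mul (N0_cont hF)).integrable_of_hasCompactSupport hs.mul_right
      have e : ∀ x, θ x • (c * U x + FP U kap3 x - N0 F x) =
          θ x * (c * U x) + θ x * FP U kap3 x - θ x * N0 F x := by
        intro x; rw [smul_eq_mul]; ring
      simp_rw [e]
      have j12 : Integrable (fun x => θ x * (c * U x) + θ x * FP U kap3 x) := j1.add j2
      rw [integral_sub j12 j3, integral_add j1 j2]
      have e2 : ∫ x, θ x * (c * U x) = c * ∫ x, U x * θ x := by
        rw [← integral_const_mul]; congr 1; funext x; ring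
      rw [e2]
      linarith
  filter_upwards [key] with x hx hxb
  unfold repf
  have := hx hxb
  field_simp
  linarith

end Run7.h104
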