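import Pool.Agent.Run7.h104.Reg6
import Pool.Agent.Run7.h104.Reg4

/-! # Regularity of weak solutions -/

set_option autoImplicit false
set_option linter.unusedSectionVars false
set_option linter.unusedVariables false

open MeasureTheory Filter Topology
open scoped ContDiff ENNReal NNReal RealInnerProductSpace Laplacian

namespace Run7.h104

open Pool.Agent.R217.BN (E cexp sobS H01)
open Pool.Agent.R217.HS
open Pool.Agent.R217.KM
open Pool.Agent.H123R3 (G0 Gt NC FP NP Lay LL Far Gt_smooth Gt_far G0_integrable Gt_add_G0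
  NC_contDiff NC_hasFDerivAt near_contDiff green2 u0 u0_cont Lay.FP_contDiff lap_scale)
open Pool.Agent.Helper486.TP (newton newton_toReal newton_laplacian lap_comp_sub)

lemma ae_scale {P : E 3 → Prop} (h : ∀ᵐ x : E 3, P x) (x0 : E 3) {s : ℝ} (hs : 0 < s) :
    ∀ᵐ y : E 3, P (s⁻¹ • (y - x0)) := by
  rw [ae_iff] at h ⊢
  have e : {y : E 3 | ¬P (s⁻¹ • (y - x0))} =
      (fun y => y + (-x0)) ⁻¹' ((fun z : E 3 => s⁻¹ • z) ⁻¹' {x | ¬P x}) := by
    ext y; simp [sub_eq_add_neg]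
  rw [e, measure_preimage_add_right, Measure.addHaar_preimage_smul _ (by positivity), h, mul_zero]

lemma int_scale3 (g : E 3 → ℝ) (x0 : E 3) {s : ℝ} (hs : 0 < s) :
    ∫ x, g (x0 + s • x) = (s ^ 3)⁻¹ * ∫ x, g x := by
  have h1 := Measure.integral_comp_smul (volume : Measure (E 3)) (fun x => g (x0 + x)) s
  rw [h1]
  have h2 : ∫ x, g (x0 + x) = ∫ x, g x := integral_add_left_eq_self g x0
  rw [h2]
  simp only [finrank_euclideanSpace, Fintype.card_fin, smul_eq_mul]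
  rw [abs_of_pos (by positivity)]

lemma scale_TIn {φ : E 3 → ℝ} {ρ : ℝ} (hφ : TIn (Metric.ball 0 ρ) φ) (x0 : E 3) {s : ℝ}
    (hs : 0 < s) : TIn (Metric.ball x0 (s * ρ)) (fun y => φ (s⁻¹ • (y - x0))) := by
  have hcl : tsupport (fun y => φ (s⁻¹ • (y - x0))) ⊆
      (fun y => s⁻¹ • (y - x0)) ⁻¹' tsupport φ := by
    apply closure_minimal
    · intro y hy
      exact subset_tsupport φ hy
    · exact (isClosed_tsupport φ).preimage (by fun_prop)
  have hsub : tsupport (fun y => φ (s⁻¹ • (y - x0))) ⊆ Metric.ball x0 (s * ρ) := by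
    intro y hy
    have h1 := hφ.2.2 (hcl hy)
    rw [mem_ball_zero_iff, norm_smul, Real.norm_of_nonneg (by positivity)] at h1
    rw [mem_ball_iff_norm]
    rwa [inv_mul_lt_iff₀ hs] at h1
  refine ⟨hφ.1.comp (by fun_prop), ?_, hsub⟩
  apply HasCompactSupport.intro' (K := Metric.closedBall x0 (s * ρ)) (isCompact_closedBall _ _)
    Metric.isClosed_closedBall
  intro y hy
  exact image_eq_zero_of_notMem_tsupport (f := fun y => φ (s⁻¹ • (y - x0))) (x := y)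
    fun hc => hy (Metric.ball_subset_closedBall (hsub hc))

theorem rep_scaled {c : ℝ} (hc0 : 0 < c)
    (hc : ∀ φ : E 3 → ℝ, ContDiff ℝ ∞ φ → HasCompactSupport φ → ∀ a : E 3,
      ∫ y, (newton a y).toReal * (Δ φ) y = -c * φ a) {U F : E 3 → ℝ} (hU : BM U) (hF : BM F)
    {x0 : E 3} {s : ℝ} (hs : 0 < s)
    (hw : ∀ φ : E 3 → ℝ, TIn (Metric.ball x0 (s * 3)) φ →
      ∫ x, U x * (Δ φ) x = -∫ x, F x * φ x) :
    ∃ v : E 3 → ℝ, Continuous v ∧ (∀ n : ℕ, ContDiff ℝ n F → ContDiff ℝ (n + 1) v) ∧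
      ∀ᵐ x : E 3, x ∈ Metric.ball x0 s → U x = v x := by
  obtain ⟨U', hU'⟩ : ∃ U', U' = fun x => U (x0 + s • x) := ⟨_, rfl⟩
  obtain ⟨F', hF'⟩ : ∃ F', F' = fun x => s ^ 2 * F (x0 + s • x) := ⟨_, rfl⟩
  have hsup : ∀ (ρ : ℝ) (x : E 3), (ρ + ‖x0‖) / s < ‖x‖ → ρ < ‖x0 + s • x‖ := by
    intro ρ x hx
    rw [div_lt_iff₀ hs] at hx
    have h1 : ‖s • x‖ ≤ ‖x0 + s • x‖ + ‖x0‖ := by
      have := norm_sub_le (x0 + s • x) x0
      rwa [add_sub_cancel_left] at this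
    rw [norm_smul, Real.norm_of_nonneg hs.le] at h1
    nlinarith
  have bU : BM U' := by
    obtain ⟨M, hM⟩ := hU.bdd
    obtain ⟨ρ, hρ⟩ := hU.supp
    rw [hU']
    exact ⟨hU.meas.comp (by fun_prop), ⟨M, fun w => hM _⟩,
      ⟨(ρ + ‖x0‖) / s, fun x hx => hρ _ (hsup ρ x hx)⟩⟩
  have bF : BM F' := by
    obtain ⟨M, hM⟩ := hF.bdd
    obtain ⟨ρ, hρ⟩ := hF.supp
    rw [hF']
    refine ⟨(hF.meas.comp (by fun_prop)).const_mul _, ⟨s ^ 2 * M, fun w => ?_⟩,
      ⟨(ρ + ‖x0‖) / s, fun x hx => ?_⟩⟩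
    · rw [abs_mul, abs_of_nonneg (by positivity : 0 ≤ s ^ 2)]
      exact mul_le_mul_of_nonneg_left (hM _) (by positivity)
    · rw [hρ _ (hsup ρ x hx), mul_zero]
  have hw' : ∀ φ : E 3 → ℝ, TIn (Metric.ball 0 3) φ →
      ∫ x, U' x * (Δ φ) x = -∫ x, F' x * φ x := by
    intro φ hφ
    have h1 := hw _ (scale_TIn hφ x0 hs)
    have hs' : s⁻¹ ≠ 0 := by positivity
    have e1 : ∀ x, (Δ fun y => φ (s⁻¹ • (y - x0))) x = (s⁻¹) ^ 2 * (Δ φ) (s⁻¹ • (x - x0)) := by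
      intro x
      have h2 := lap_comp_sub (fun z => φ (s⁻¹ • z)) x0
      have h3 : (Δ fun y => φ (s⁻¹ • (y - x0))) x = (Δ fun z => φ (s⁻¹ • z)) (x - x0) :=
        congrFun h2 x
      rw [h3]
      exact lap_scale hφ.1 s⁻¹ (x - x0)
    have h4 := int_scale3 (fun x => U x * (Δ fun y => φ (s⁻¹ • (y - x0))) x) x0 hs
    have h5 := int_scale3 (fun x => F x * φ (s⁻¹ • (x - x0))) x0 hs
    simp only [e1, add_sub_cancel_left, smul_smul, inv_mul_cancel₀ hs.ne', one_smul] at h4 h5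
    simp only [e1] at h1
    rw [h1] at h4
    have e2 : ∫ x, U (x0 + s • x) * ((s⁻¹) ^ 2 * (Δ φ) x) =
        (s⁻¹) ^ 2 * ∫ x, U' x * (Δ φ) x := by
      rw [← integral_const_mul, hU']; congr 1; funext x; ring
    have e3 : ∫ x, F' x * φ x = s ^ 2 * ∫ x, F (x0 + s • x) * φ x := by
      rw [← integral_const_mul, hF']; congr 1; funext x; ring
    rw [e2] at h4
    rw [e3, h5]
    have : ∫ x, U' x * (Δ φ) x = s ^ 2 * ((s⁻¹) ^ 2 * ∫ x, U' x * (Δ φ) x) := by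
      rw [← mul_assoc, ← mul_pow, mul_inv_cancel₀ hs.ne', one_pow, one_mul]
    rw [this, h4]
    ring
  have key := rep_unit hc0 hc bU bF hw'
  have hcont := repf_cont (c := c) bU bF
  refine ⟨fun y => repf c U' F' (s⁻¹ • (y - x0)), hcont.comp (by fun_prop), fun n hn => ?_, ?_⟩
  · have h1 : ContDiff ℝ n F' := by
      rw [hF']
      exact contDiff_const.mul (hn.comp (by fun_prop))
    exact (repf_smooth (c := c) bU h1).comp (by fun_prop)
  · filter_upwards [ae_scale key x0 hs] with y hy hyb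
    rw [mem_ball_iff_norm] at hyb
    have h1 : s⁻¹ • (y - x0) ∈ Metric.ball (0 : E 3) 1 := by
      rw [mem_ball_zero_iff, norm_smul, Real.norm_of_nonneg (by positivity),
        inv_mul_lt_iff₀ hs, mul_one]
      exact hyb
    rw [← hy h1, hU']
    simp only [smul_smul, mul_inv_cancel₀ hs.ne', one_smul]
    congr 1
    abel

end Run7.h104
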