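import Pool.Agent.Run7.h104.Reg7

/-! # Regularity of weak solutions: conclusion -/

set_option autoImplicit false
set_option linter.unusedSectionVars false
set_option linter.unusedVariables false

open MeasureTheory Filter Topology
open scoped ContDiff ENNReal NNReal RealInnerProductSpace Laplacian

namespace Run7.h104

open Pool.Agent.R217.BN (E cexp sobS H01)
open Pool.Agent.R217.HS
open Pool.Agent.R217.KM
open Pool.Agent.Helper486.TP (newton newton_toReal newton_laplacian lap_comp_sub)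

lemma exists_BM {Ω : Set (E 3)} (hb : Bornology.IsBounded Ω) {u : E 3 → ℝ}
    (hu : AEStronglyMeasurable u volume) {C : ℝ} (hC : ∀ᵐ x : E 3, |u x| ≤ C)
    (hz : ∀ᵐ x : E 3, x ∉ Ω → u x = 0) : ∃ U, BM U ∧ U =ᵐ[volume] u := by
  obtain ⟨ρ, hρ⟩ := hb.exists_norm_le
  have mk : Measurable (hu.mk u) := hu.stronglyMeasurable_mk.measurable
  refine ⟨fun x => if ‖x‖ ≤ ρ then max (-C) (min C (hu.mk u x)) else 0, ⟨?_, ⟨|C|, fun w => ?_⟩,
    ⟨ρ, fun w hw => if_neg (not_le.2 hw)⟩⟩, ?_⟩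
  · exact Measurable.ite (measurableSet_le measurable_norm measurable_const)
      (measurable_const.max (measurable_const.min mk)) measurable_const
  · split_ifs
    · rw [abs_le]
      constructor
      · exact (neg_le_neg (le_abs_self C)).trans (le_max_left _ _)
      · apply max_le (neg_le_abs C)
        exact (min_le_left _ _).trans (le_abs_self C)
    · rw [abs_zero]; positivity
  · filter_upwards [hC, hz, hu.ae_eq_mk] with x h1 h2 h3
    rw [← h3]
    split_ifs with h4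
    · rw [abs_le] at h1
      rw [min_eq_right h1.2, max_eq_right h1.1]
    · exact (h2 fun hc => h4 (hρ x hc)).symm

lemma glue {Ω : Set (E 3)} (hΩ : IsOpen Ω) {U : E 3 → ℝ}
    (h : ∀ x0 ∈ Ω, ∃ s > 0, ∃ v : E 3 → ℝ, Continuous v ∧
      ∀ᵐ x : E 3, x ∈ Metric.ball x0 s → U x = v x) :
    ∃ w : E 3 → ℝ, ContinuousOn w Ω ∧ (∀ x, x ∉ Ω → w x = 0) ∧ ∀ᵐ x : E 3, x ∈ Ω → U x = w x := by
  classical
  choose s hs v hv hae using h
  obtain ⟨w, hw⟩ : ∃ w : E 3 → ℝ, w = fun x => if hx : x ∈ Ω then v x hx x else 0 := ⟨_, rfl⟩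
  have key : ∀ (x0 : E 3) (h0 : x0 ∈ Ω) (y : E 3), y ∈ Ω → y ∈ Metric.ball x0 (s x0 h0) →
      w y = v x0 h0 y := by
    intro x0 h0 y hy hyb
    have e : w y = v y hy y := by rw [hw]; exact dif_pos hy
    rw [e]
    have hO : IsOpen (Metric.ball x0 (s x0 h0) ∩ Metric.ball y (s y hy)) :=
      Metric.isOpen_ball.inter Metric.isOpen_ball
    have hE : v y hy =ᵐ[volume.restrict (Metric.ball x0 (s x0 h0) ∩ Metric.ball y (s y hy))]
        v x0 h0 := by
      rw [Filter.EventuallyEq, ae_restrict_iff' hO.measurableSet]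
      filter_upwards [hae x0 h0, hae y hy] with x h1 h2 hx
      rw [← h1 hx.1, ← h2 hx.2]
    exact Measure.eqOn_open_of_ae_eq hE hO (hv y hy).continuousOn (hv x0 h0).continuousOn
      ⟨hyb, Metric.mem_ball_self (hs y hy)⟩
  refine ⟨w, ?_, fun x hx => by rw [hw]; exact dif_neg hx, ?_⟩
  · intro x0 h0
    apply ContinuousAt.continuousWithinAt
    refine (hv x0 h0).continuousAt.congr ?_
    filter_upwards [hΩ.mem_nhds h0, Metric.ball_mem_nhds x0 (hs x0 h0)] with y h1 h2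
    exact (key x0 h0 y h1 h2).symm
  · rw [ae_iff]
    apply measure_null_of_locally_null
    intro x0 h0
    simp only [Classical.not_imp, Set.mem_setOf_eq] at h0
    refine ⟨{a | ¬(a ∈ Ω → U a = w a)} ∩ Metric.ball x0 (s x0 h0.1), ?_, ?_⟩
    · exact inter_mem self_mem_nhdsWithin
        (mem_nhdsWithin_of_mem_nhds (Metric.ball_mem_nhds x0 (hs x0 h0.1)))
    · refine measure_mono_null ?_ (ae_iff.1 (hae x0 h0.1))
      rintro y ⟨h1, h2⟩
      simp only [Classical.not_imp, Set.mem_setOf_eq] at h1 ⊢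
      refine ⟨h2, fun hc => h1.2 ?_⟩
      rw [hc, key x0 h0.1 y h1.1 h2]

lemma BM_of_cont {U : E 3 → ℝ} (hc : Continuous U) (hs : HasCompactSupport U) : BM U := by
  obtain ⟨C, hC⟩ := hs.exists_bound_of_continuous hc
  obtain ⟨ρ, hρ⟩ := hs.isCompact.isBounded.exists_norm_le
  refine ⟨hc.measurable, ⟨C, hC⟩, ⟨ρ, fun w hw => ?_⟩⟩
  apply image_eq_zero_of_notMem_tsupport
  intro h
  exact absurd (hρ w h) (not_le.2 hw)

lemma cut_smooth {Ω : Set (E 3)} (hΩ : IsOpen Ω) {n : ℕ} {w : E 3 → ℝ}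
    (hw : ContDiffOn ℝ n w Ω) {x0 : E 3} (ζ : ContDiffBump x0)
    (hζ : Metric.closedBall x0 ζ.rOut ⊆ Ω) : ContDiff ℝ n (fun x => ζ x * w x) := by
  rw [contDiff_iff_contDiffAt]
  intro x
  by_cases hx : x ∈ Ω
  · exact (ζ.contDiff (n := (n : ℕ∞))).contDiffAt.mul (hw.contDiffAt (hΩ.mem_nhds hx))
  · have h1 : (tsupport ζ)ᶜ ∈ 𝓝 x := by
      apply (isClosed_tsupport _).isOpen_compl.mem_nhds
      intro hc
      rw [ζ.tsupport_eq] at hc
      exact hx (hζ hc)
    refine (contDiffAt_const (c := (0:ℝ))).congr_of_eventuallyEq ?_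
    filter_upwards [h1] with y hy
    rw [image_eq_zero_of_notMem_tsupport hy, zero_mul]

lemma bump_weak {Ω : Set (E 3)} {w f : E 3 → ℝ}
    (hweak : ∀ φ : E 3 → ℝ, TIn Ω φ → ∫ x, w x * (Δ φ) x = -∫ x, f x * φ x) {x0 : E 3}
    (ζ : ContDiffBump x0) (hζ : Metric.closedBall x0 ζ.rOut ⊆ Ω) {φ : E 3 → ℝ}
    (hφ : TIn (Metric.ball x0 ζ.rIn) φ) :
    ∫ x, (ζ x * w x) * (Δ φ) x = -∫ x, (ζ x * f x) * φ x := by
  have hφ' : TIn Ω φ := hφ.mono ((Metric.ball_subset_ball ζ.rIn_lt_rOut.le).trans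
    (Metric.ball_subset_closedBall.trans hζ))
  have e1 : ∫ x, (ζ x * w x) * (Δ φ) x = ∫ x, w x * (Δ φ) x := by
    congr 1; funext x
    by_cases hx : x ∈ tsupport φ
    · rw [ζ.one_of_mem_closedBall (Metric.ball_subset_closedBall (hφ.2.2 hx)), one_mul]
    · rw [Pool.Agent.Helper486.TP.lap_supp hφ.1 hφ.2.1 x hx, mul_zero, mul_zero]
  have e2 : ∫ x, (ζ x * f x) * φ x = ∫ x, f x * φ x := by
    congr 1; funext x
    by_cases hx : x ∈ tsupport φ
    · rw [ζ.one_of_mem_closedBall (Metric.ball_subset_closedBall (hφ.2.2 hx)), one_mul]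
    · rw [image_eq_zero_of_notMem_tsupport hx, mul_zero, mul_zero]
  rw [e1, e2]
  exact hweak φ hφ'

lemma exists_bump {Ω : Set (E 3)} (hΩ : IsOpen Ω) {x0 : E 3} (hx : x0 ∈ Ω) :
    ∃ s > 0, ∃ ζ : ContDiffBump x0, ζ.rIn = s * 3 ∧ Metric.closedBall x0 ζ.rOut ⊆ Ω := by
  obtain ⟨ε, hε, hsub⟩ := Metric.nhds_basis_closedBall.mem_iff.1 (hΩ.mem_nhds hx)
  refine ⟨ε / 4, by positivity, ⟨ε / 4 * 3, ε, by positivity, by linarith⟩, rfl, hsub⟩

theorem step {Ω : Set (E 3)} (hΩ : IsOpen Ω) {lam : ℝ} {w : E 3 → ℝ}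
    (hweak : ∀ φ : E 3 → ℝ, TIn Ω φ →
      ∫ x, w x * (Δ φ) x = -∫ x, (w x ^ 5 + lam * w x) * φ x) {n : ℕ}
    (hw : ContDiffOn ℝ n w Ω) : ContDiffOn ℝ (n + 1) w Ω := by
  obtain ⟨c, hc0, hc⟩ := newton_laplacian (n := 3) le_rfl
  intro x0 hx0
  apply ContDiffAt.contDiffWithinAt
  obtain ⟨s, hs, ζ, hr, hζ⟩ := exists_bump hΩ hx0
  have hf : ContDiffOn ℝ n (fun x => w x ^ 5 + lam * w x) Ω := (hw.pow 5).add (contDiffOn_const.mul hw)
  have c1 := cut_smooth hΩ hw ζ hζ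
  have c2 := cut_smooth hΩ hf ζ hζ
  have b1 : BM (fun x => ζ x * w x) := BM_of_cont c1.continuous ζ.hasCompactSupport.mul_right
  have b2 : BM (fun x => ζ x * (w x ^ 5 + lam * w x)) :=
    BM_of_cont c2.continuous ζ.hasCompactSupport.mul_right
  obtain ⟨v, hv, hv1, hv2⟩ := rep_scaled hc0 hc b1 b2 hs (x0 := x0) (fun φ hφ => by
    rw [← hr] at hφ
    exact bump_weak hweak ζ hζ hφ)
  have hO : IsOpen (Metric.ball x0 s) := Metric.isOpen_ball
  have hE : (fun x => ζ x * w x) =ᵐ[volume.restrict (Metric.ball x0 s)] v := by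
    rw [Filter.EventuallyEq, ae_restrict_iff' hO.measurableSet]
    exact hv2
  have heq := Measure.eqOn_open_of_ae_eq hE hO c1.continuous.continuousOn hv.continuousOn
  refine ((hv1 n c2).contDiffAt (x := x0)).congr_of_eventuallyEq ?_
  filter_upwards [Metric.ball_mem_nhds x0 hs] with y hy
  rw [← heq hy]
  have : ζ y = 1 := by
    apply ζ.one_of_mem_closedBall
    rw [hr]
    exact Metric.closedBall_subset_closedBall (by linarith) (Metric.ball_subset_closedBall hy)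
  show w y = ζ y * w y
  rw [this, one_mul]

theorem pde {Ω : Set (E 3)} (hΩ : IsOpen Ω) {lam : ℝ} {w : E 3 → ℝ}
    (hweak : ∀ φ : E 3 → ℝ, TIn Ω φ →
      ∫ x, w x * (Δ φ) x = -∫ x, (w x ^ 5 + lam * w x) * φ x)
    (hw : ContDiffOn ℝ 2 w Ω) {x0 : E 3} (hx0 : x0 ∈ Ω) :
    (Δ w) x0 + w x0 ^ 5 + lam * w x0 = 0 := by
  obtain ⟨s, hs, ζ, hr, hζ⟩ := exists_bump hΩ hx0
  have hw' : ContDiffOn ℝ ((2:ℕ) : WithTop ℕ∞) w Ω := by exact_mod_cast hw
  have hf : ContDiffOn ℝ ((2:ℕ) : WithTop ℕ∞) (fun x => w x ^ 5 + lam * w x) Ω :=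
    (hw'.pow 5).add (contDiffOn_const.mul hw')
  have c1 : ContDiff ℝ 2 (fun x => ζ x * w x) := by exact_mod_cast cut_smooth hΩ hw' ζ hζ
  have c2 : ContDiff ℝ 2 (fun x => ζ x * (w x ^ 5 + lam * w x)) := by
    exact_mod_cast cut_smooth hΩ hf ζ hζ
  obtain ⟨U, hU⟩ : ∃ U, U = fun x => ζ x * w x := ⟨_, rfl⟩
  obtain ⟨F, hF⟩ : ∃ F, F = fun x => ζ x * (w x ^ 5 + lam * w x) := ⟨_, rfl⟩
  rw [← hU] at c1
  rw [← hF] at c2
  have sU : HasCompactSupport U := by rw [hU]; exact ζ.hasCompactSupport.mul_right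
  have hO : IsOpen (Metric.ball x0 ζ.rIn) := Metric.isOpen_ball
  have hcont : Continuous fun x => (Δ U) x + F x := (lap_cont2 c1).add c2.continuous
  have key : ∀ᵐ x : E 3, x ∈ Metric.ball x0 ζ.rIn → (Δ U) x + F x = 0 := by
    apply IsOpen.ae_eq_zero_of_integral_contDiff_smul_eq_zero hO
    · exact hcont.locallyIntegrable.locallyIntegrableOn _
    · intro φ hφ hs' hsub
      have tφ : TIn (Metric.ball x0 ζ.rIn) φ := ⟨hφ, hs', hsub⟩
      have h1 := bump_weak hweak ζ hζ tφ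
      have h2 : ∫ x, U x * (Δ φ) x = -∫ x, F x * φ x := by rw [hU, hF]; exact h1
      have h3 := ibp (hφ.of_le two_le_inf) (c1.of_le (by norm_num)) sU
      have h4 := ibp c1 (hφ.of_le one_le_inf) hs'
      have h5 : ∫ x, ⟪gradient φ x, gradient U x⟫ = ∫ x, ⟪gradient U x, gradient φ x⟫ := by
        congr 1; funext x; rw [real_inner_comm]
      rw [h3, h4] at h5
      have i1 : Integrable fun x => (Δ U) x * φ x :=
        ((lap_cont2 c1).mul hφ.continuous).integrable_of_hasCompactSupport hs'.mul_left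
      have i2 : Integrable fun x => F x * φ x :=
        (c2.continuous.mul hφ.continuous).integrable_of_hasCompactSupport hs'.mul_left
      have e : ∀ x, φ x • ((Δ U) x + F x) = (Δ U) x * φ x + F x * φ x := by
        intro x; rw [smul_eq_mul]; ring
      simp_rw [e]
      rw [integral_add i1 i2]
      have e2 : ∫ x, (Δ φ) x * U x = ∫ x, U x * (Δ φ) x := by
        congr 1; funext x; ring
      rw [e2] at h5
      linarith
  have hE : (fun x => (Δ U) x + F x) =ᵐ[volume.restrict (Metric.ball x0 ζ.rIn)] fun _ => (0:ℝ) := by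
    rw [Filter.EventuallyEq, ae_restrict_iff' hO.measurableSet]
    exact key
  have h0 := Measure.eqOn_open_of_ae_eq hE hO hcont.continuousOn continuousOn_const
    (Metric.mem_ball_self (by rw [hr]; positivity))
  have e1 : ζ x0 = 1 := by
    apply ζ.one_of_mem_closedBall
    exact Metric.mem_closedBall_self ζ.rIn_pos.le
  have e2 : (Δ U) x0 = (Δ w) x0 := by
    have : U =ᶠ[𝓝 x0] w := by
      filter_upwards [Metric.ball_mem_nhds x0 ζ.rIn_pos] with y hy
      rw [hU]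
      dsimp only
      rw [ζ.one_of_mem_closedBall (Metric.ball_subset_closedBall hy), one_mul]
    exact (InnerProductSpace.laplacian_congr_nhds this).eq_of_nhds
  dsimp only at h0
  rw [e2, hF] at h0
  dsimp only at h0
  rw [e1] at h0
  linarith

/-- **Regularity** -/
theorem reg_main {Ω : Set (E 3)} (hΩ : IsOpen Ω) (hb : Bornology.IsBounded Ω)
    (hext : ∀ p ∈ frontier Ω, ∃ (y : E 3) (r : ℝ), 0 < r ∧ ‖p - y‖ = r ∧ ∀ x ∈ Ω, r ≤ ‖x - y‖)
    {lam : ℝ} (hlam : 0 ≤ lam) {u : E 3 → ℝ} {G : E 3 → E 3} (h : H01 Ω u G)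
    (hw : WSol Ω lam u G) : ∃ w : E 3 → ℝ, w =ᵐ[volume] u ∧
      ContDiffOn ℝ 2 w Ω ∧ ContinuousOn w (closure Ω) ∧ (∀ x, x ∉ Ω → w x = 0) ∧
      ∀ x ∈ Ω, (∑ i : Fin 3, iteratedFDeriv ℝ 2 w x
        ![EuclideanSpace.single i (1 : ℝ), EuclideanSpace.single i (1 : ℝ)])
          + w x ^ 5 + lam * w x = 0 := by
  obtain ⟨C, hC0, hC⟩ := wsol_bdd hlam h hw
  obtain ⟨hz, -⟩ := h01_zero hΩ.measurableSet h
  obtain ⟨U, bU, hUu⟩ := exists_BM hb h.1.1 hC hz
  obtain ⟨c, hc0, hc⟩ := newton_laplacian (n := 3) le_rfl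
  -- the weak equation for `u`
  have hwu : ∀ φ : E 3 → ℝ, TIn Ω φ →
      ∫ x, u x * (Δ φ) x = -∫ x, (u x ^ 5 + lam * u x) * φ x := by
    intro φ hφ
    have h1 := hw φ hφ
    rw [h01_ibp h hφ.tst] at h1
    linarith
  have transfer : ∀ v : E 3 → ℝ, v =ᵐ[volume] u → ∀ φ : E 3 → ℝ, TIn Ω φ →
      ∫ x, v x * (Δ φ) x = -∫ x, (v x ^ 5 + lam * v x) * φ x := by
    intro v hv φ hφ
    have e1 : ∫ x, v x * (Δ φ) x = ∫ x, u x * (Δ φ) x := by
      apply integral_congr_ae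
      filter_upwards [hv] with x hx
      rw [hx]
    have e2 : ∫ x, (v x ^ 5 + lam * v x) * φ x = ∫ x, (u x ^ 5 + lam * u x) * φ x := by
      apply integral_congr_ae
      filter_upwards [hv] with x hx
      rw [hx]
    rw [e1, e2]
    exact hwu φ hφ
  have bF : BM (fun x => U x ^ 5 + lam * U x) := by
    obtain ⟨M, hM⟩ := bU.bdd
    obtain ⟨ρ, hρ⟩ := bU.supp
    refine ⟨(bU.meas.pow_const 5).add (bU.meas.const_mul lam), ⟨M ^ 5 + |lam| * M, fun x => ?_⟩,
      ⟨ρ, fun x hx => ?_⟩⟩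
    · refine (abs_add_le _ _).trans ?_
      rw [abs_pow, abs_mul]
      have := hM x
      have := abs_nonneg (U x)
      gcongr
    · rw [hρ x hx]; ring
  -- continuous representative
  obtain ⟨w, hw1, hw2, hw3⟩ := glue hΩ (U := U) (fun x0 hx0 => by
    obtain ⟨s, hs, ζ, hr, hζ⟩ := exists_bump hΩ hx0
    obtain ⟨v, hv, -, hv2⟩ := rep_scaled hc0 hc bU bF hs (x0 := x0) (fun φ hφ => by
      rw [← hr] at hφ
      exact transfer U hUu φ (hφ.mono ((Metric.ball_subset_ball ζ.rIn_lt_rOut.le).trans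
        (Metric.ball_subset_closedBall.trans hζ))))
    exact ⟨s, hs, v, hv, hv2⟩)
  have hwu' : w =ᵐ[volume] u := by
    filter_upwards [hw3, hUu, hz] with x h1 h2 h3
    by_cases hx : x ∈ Ω
    · rw [← h1 hx, h2]
    · rw [hw2 x hx, h3 hx]
  have hweak := transfer w hwu'
  have s0 : ContDiffOn ℝ ((0:ℕ) : WithTop ℕ∞) w Ω := by
    rw [Nat.cast_zero, contDiffOn_zero]; exact hw1
  have s1 := step hΩ hweak s0
  have s1' : ContDiffOn ℝ ((1:ℕ) : WithTop ℕ∞) w Ω := by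
    refine s1.of_le ?_
    norm_num
  have s2 := step hΩ hweak s1'
  have s2' : ContDiffOn ℝ 2 w Ω := by
    refine s2.of_le ?_
    norm_num
  -- boundary behaviour
  have hf : MemLp (fun x => U x ^ 5 + lam * U x) 2 volume := by
    obtain ⟨M, hM⟩ := bF.bdd
    rw [memLp_two_iff_integrable_sq bF.meas.aestronglyMeasurable]
    have h1 : Integrable (fun x => (U x ^ 5 + lam * U x) * (U x ^ 5 + lam * U x)) :=
      bF.int.bdd_mul (c := M) bF.meas.aestronglyMeasurable (Eventually.of_forall hM)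
    refine h1.congr (Eventually.of_forall fun x => ?_)
    dsimp only; ring
  obtain ⟨M, hM⟩ := bF.bdd
  have hM0 : 0 ≤ M := (abs_nonneg _).trans (hM 0)
  have hwk2 : ∀ φ : E 3 → ℝ, TIn Ω φ →
      ∫ x, ⟪G x, gradient φ x⟫ = ∫ x, (U x ^ 5 + lam * U x) * φ x := by
    intro φ hφ
    rw [hw φ hφ]
    apply integral_congr_ae
    filter_upwards [hUu] with x hx
    rw [hx]
  have hbd : ∀ p ∈ frontier Ω, ∃ b : E 3 → ℝ, Continuous b ∧ b p = 0 ∧ ∀ x ∈ Ω, |w x| ≤ b x := by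
    intro p hp
    obtain ⟨y, r, hr, h1, h2⟩ := hext p hp
    obtain ⟨b, hbc, hb0, hb1⟩ := bdry hΩ hb h hf hwk2 hM0 (Eventually.of_forall hM) hr h1 h2
    refine ⟨b, hbc, hb0, ?_⟩
    -- a.e. inequality between continuous functions on an open set
    have hE : (fun x => max (|w x| - b x) 0) =ᵐ[volume.restrict Ω] fun _ => (0:ℝ) := by
      rw [Filter.EventuallyEq, ae_restrict_iff' hΩ.measurableSet]
      filter_upwards [hb1, hwu'] with x h3 h4 hx
      rw [h4]
      exact max_eq_right (by linarith [h3 hx])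
    have heq := Measure.eqOn_open_of_ae_eq hE hΩ
      ((hw1.abs.sub hbc.continuousOn).sup continuousOn_const) continuousOn_const
    intro x hx
    have h5 := heq hx
    dsimp only at h5
    have h6 := le_max_left (|w x| - b x) 0
    rw [h5] at h6
    linarith
  refine ⟨w, hwu', s2', ?_, hw2, ?_⟩
  · intro p hp
    by_cases hpΩ : p ∈ Ω
    · exact (hw1.continuousAt (hΩ.mem_nhds hpΩ)).continuousWithinAt
    · have hpf : p ∈ frontier Ω := by
        rw [frontier, hΩ.interior_eq]; exact ⟨hp, hpΩ⟩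
      obtain ⟨b, hbc, hb0, hb1⟩ := hbd p hpf
      have h7 : ContinuousAt w p := by
        rw [ContinuousAt, hw2 p hpΩ]
        have h8 : Tendsto (fun x => |b x|) (𝓝 p) (𝓝 0) := by
          have := hbc.abs.tendsto p
          rwa [hb0, abs_zero] at this
        refine squeeze_zero_norm (fun x => ?_) h8
        by_cases hx : x ∈ Ω
        · exact (hb1 x hx).trans (le_abs_self _)
        · rw [hw2 x hx, norm_zero]; positivity
      exact h7.continuousWithinAt
  · intro x hx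
    have h9 := pde hΩ hweak s2' hx
    rw [Pool.Agent.Helper486.TP.lap_eq] at h9
    simpa [EuclideanSpace.basisFun_apply] using h9

end Run7.h104
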