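import Pool.Agent.Run7.h104.Par1
import Pool.Agent.Run7.h104.Reg8
import Pool.Agent.Run7.h104.Var3

/-! # The set of solutions and its invariance under isometries -/

set_option autoImplicit false
set_option linter.unusedSectionVars false
set_option linter.unusedVariables false

open MeasureTheory Filter Topology
open scoped ContDiff ENNReal NNReal RealInnerProductSpace Laplacian

namespace Run7.h104

open Pool.Agent.R217.BN (E cexp sobS H01)
open Pool.Agent.R217.HS
open Pool.Agent.R217.KM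

/-- the set of solutions -/
def Sol (Ω : Set (E 3)) (lam : ℝ) : Set (E 3 → ℝ) :=
  {u | ContDiffOn ℝ 2 u Ω ∧ ContinuousOn u (closure Ω) ∧ (∀ x, x ∉ Ω → u x = 0) ∧
    ∀ x ∈ Ω, (∑ i : Fin 3, iteratedFDeriv ℝ 2 u x
      ![EuclideanSpace.single i (1 : ℝ), EuclideanSpace.single i (1 : ℝ)])
        + u x ^ 5 + lam * u x = 0}

lemma hess_iso (A : E 3 ≃ₗᵢ[ℝ] E 3) (a : E 3) (w : E 3 → ℝ) (x : E 3) (m : Fin 2 → E 3) :
    iteratedFDeriv ℝ 2 (fun x => w (A x + a)) x m =
      iteratedFDeriv ℝ 2 w (A x + a) (fun j => A (m j)) := by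
  have h1 : (fun x => w (A x + a)) = (fun y => w (y + a)) ∘ A := rfl
  have h2 := A.toContinuousLinearEquiv.iteratedFDerivWithin_comp_right (fun y => w (y + a))
    uniqueDiffOn_univ (Set.mem_univ (A x)) 2
  rw [Set.preimage_univ] at h2
  simp only [iteratedFDerivWithin_univ] at h2
  have h3 : iteratedFDeriv ℝ 2 (fun x => w (A x + a)) x =
      (iteratedFDeriv ℝ 2 (fun y => w (y + a)) (A x)).compContinuousLinearMap
        fun _ => (A.toContinuousLinearEquiv : E 3 →L[ℝ] E 3) := h2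
  rw [h3, iteratedFDeriv_comp_add_right]
  rfl

lemma sum_hess (w : E 3 → ℝ) (x : E 3) : ∑ i : Fin 3, iteratedFDeriv ℝ 2 w x
      ![EuclideanSpace.single i (1 : ℝ), EuclideanSpace.single i (1 : ℝ)] = (Δ w) x := by
  have := InnerProductSpace.laplacian_eq_iteratedFDeriv_orthonormalBasis w
    (EuclideanSpace.basisFun (Fin 3) ℝ)
  rw [this]
  simp only [EuclideanSpace.basisFun_apply]

lemma sum_hess_iso (A : E 3 ≃ₗᵢ[ℝ] E 3) (a : E 3) (w : E 3 → ℝ) (x : E 3) :
    ∑ i : Fin 3, iteratedFDeriv ℝ 2 (fun x => w (A x + a)) x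
      ![EuclideanSpace.single i (1 : ℝ), EuclideanSpace.single i (1 : ℝ)] =
    ∑ i : Fin 3, iteratedFDeriv ℝ 2 w (A x + a)
      ![EuclideanSpace.single i (1 : ℝ), EuclideanSpace.single i (1 : ℝ)] := by
  rw [sum_hess w]
  have h1 := InnerProductSpace.laplacian_eq_iteratedFDeriv_orthonormalBasis w
    ((EuclideanSpace.basisFun (Fin 3) ℝ).map A)
  rw [h1]
  refine Finset.sum_congr rfl fun i _ => ?_
  rw [hess_iso]
  congr 1
  funext j
  fin_cases j <;> simp

lemma Sol.iso (A : E 3 ≃ₗᵢ[ℝ] E 3) (a : E 3) {Ω : Set (E 3)} {lam : ℝ} {w : E 3 → ℝ}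
    (h : w ∈ Sol Ω lam) : (fun x => w (A x + a)) ∈ Sol ((fun x => A x + a) ⁻¹' Ω) lam := by
  obtain ⟨h1, h2, h3, h4⟩ := h
  have hc : ContDiff ℝ 2 (fun x => A x + a) := A.contDiff.add contDiff_const
  refine ⟨h1.comp hc.contDiffOn fun x hx => hx, ?_, fun x hx => h3 _ hx, fun x hx => ?_⟩
  · refine h2.comp hc.continuous.continuousOn ?_
    intro x hx
    exact map_mem_closure (f := fun x => A x + a) hc.continuous hx fun y hy => hy
  · rw [sum_hess_iso]
    exact h4 _ hx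

lemma int_aff (A : E 3 ≃ₗᵢ[ℝ] E 3) (a : E 3) (f : E 3 → ℝ) :
    ∫ x, f (A x + a) = ∫ x, f x := by
  rw [int_iso A (fun x => f (x + a)), integral_add_right_eq_self]

end Run7.h104
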