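import Pool.Agent.Run7.h104.Sol1

/-! # A weak solution in a wedge gives infinitely many solutions -/

set_option autoImplicit false
set_option linter.unusedSectionVars false
set_option linter.unusedVariables false

open MeasureTheory Filter Topology
open scoped ContDiff ENNReal NNReal RealInnerProductSpace

namespace Run7.h104

open Pool.Agent.R217.BN (E cexp sobS H01)
open Pool.Agent.R217.HS
open Pool.Agent.R217.KM

lemma rot_preimage {Ω : Set (E 3)} (hrot : ∀ θ x, x ∈ Ω → rot θ x ∈ Ω) (θ : ℝ) :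
    (fun x => rot θ x + 0) ⁻¹' Ω = Ω := by
  ext x
  simp only [Set.mem_preimage, add_zero]
  constructor
  · intro h
    have h1 := hrot (-θ) _ h
    rw [rot_rot, neg_add_cancel, rot_zero] at h1
    exact h1
  · exact hrot θ x

lemma rot_cont (x : E 3) : Continuous fun θ => rot θ x := by
  have h : (fun θ => rot θ x) = fun θ => (WithLp.toLp 2 ![Real.cos θ * x 0 -
      1 * Real.sin θ * x 1, (rot θ x) 1, (rot θ x) 2] : E 3) := by
    funext θ
    apply ext3 <;> simp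
  rw [h]
  apply (PiLp.continuous_toLp 2 _).comp
  apply continuous_pi
  intro i
  fin_cases i
  · simp; fun_prop
  · simp; fun_prop
  · simp; fun_prop

theorem inf_sols {Ω : Set (E 3)} (hO : IsOpen Ω) (hb : Bornology.IsBounded Ω)
    (hext : ∀ p ∈ frontier Ω, ∃ (y : E 3) (r : ℝ), 0 < r ∧ ‖p - y‖ = r ∧ ∀ x ∈ Ω, r ≤ ‖x - y‖)
    (hrot : ∀ θ x, x ∈ Ω → rot θ x ∈ Ω) (hror : ∀ θ x, x ∈ Ω → ror θ x ∈ Ω)
    {lam : ℝ} (hlam : 0 ≤ lam) {k : ℕ} (hk : 1 ≤ k) {u : E 3 → ℝ} {G : E 3 → E 3}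
    (hu : H01 (Ω ∩ Wd (Real.pi / k)) u G) (hw : WSol (Ω ∩ Wd (Real.pi / k)) lam u G)
    (hpos : 0 < ∫ x, u x ^ 6) :
    Set.Infinite {w | w ∈ Sol Ω lam ∧ ∫ x, w x ^ 6 = 2 * k * ∫ x, u x ^ 6} := by
  have hk0 : (0:ℝ) < k := by exact_mod_cast hk
  obtain ⟨v, V, hV, hvw, hv6, hvo⟩ := odd_ext hO hrot hror hk hu hw
  obtain ⟨w, hwv, hsol⟩ := reg_main hO hb hext hlam hV hvw
  have hS : w ∈ Sol Ω lam := hsol
  obtain ⟨s1, s2, s3, s4⟩ := hsol
  have hcw : ContinuousOn w Ω := s1.continuousOn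
  have hw6 : ∫ x, w x ^ 6 = 2 * k * ∫ x, u x ^ 6 := by
    rw [← hv6]
    apply integral_congr_ae
    filter_upwards [hwv] with x hx
    rw [hx]
  -- oddness
  have hodd : ∀ x ∈ Ω, w (ror 0 x) = -w x := by
    have e1 : (fun x => w (ror 0 x)) =ᵐ[volume] fun x => v (ror 0 x) :=
      (ror 0).measurePreserving.quasiMeasurePreserving.ae_eq_comp hwv
    have e2 : (fun x => w (ror 0 x)) =ᵐ[volume] fun x => -w x := by
      filter_upwards [e1, hwv] with x h1 h2
      rw [h1, hvo, h2]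
    have e3 : (fun x => w (ror 0 x)) =ᵐ[volume.restrict Ω] fun x => -w x :=
      ae_restrict_of_ae e2
    refine Measure.eqOn_open_of_ae_eq e3 hO ?_ hcw.neg
    exact hcw.comp (ror 0).continuous.continuousOn fun x hx => hror 0 x hx
  have hzero : ∀ x ∈ Ω, x 1 = 0 → w x = 0 := by
    intro x hx h1
    have h2 : ror 0 x = x := by
      apply ext3 <;> simp [h1]
    have h3 := hodd x hx
    rw [h2] at h3
    linarith
  -- a point where it does not vanish
  obtain ⟨x0, hx0⟩ : ∃ x0, w x0 ≠ 0 := by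
    by_contra hc
    push Not at hc
    have : ∫ x, w x ^ 6 = 0 := by
      simp [hc]
    rw [hw6] at this
    have : 0 < 2 * (k:ℝ) * ∫ x, u x ^ 6 := by positivity
    linarith
  have hx0Ω : x0 ∈ Ω := by
    by_contra hc
    exact hx0 (s3 _ hc)
  -- an angle which moves it to the plane of symmetry
  obtain ⟨θ0, hθ0⟩ : ∃ θ0, (rot θ0 x0) 1 = 0 := by
    have hc : Continuous fun θ => (rot θ x0) 1 := by
      simp only [rot1]; fun_prop
    have g0 : (rot 0 x0) 1 = x0 1 := by rw [rot_zero]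
    have gπ : (rot Real.pi x0) 1 = -x0 1 := by simp
    rcases le_total 0 (x0 1) with h | h
    · have := intermediate_value_Icc' Real.pi_pos.le (hc.continuousOn (s := Set.Icc 0 Real.pi))
      obtain ⟨θ, -, h2⟩ := this ⟨by show (rot Real.pi x0) 1 ≤ 0; rw [gπ]; linarith,
        by show 0 ≤ (rot 0 x0) 1; rw [g0]; exact h⟩
      exact ⟨θ, h2⟩
    · have := intermediate_value_Icc Real.pi_pos.le (hc.continuousOn (s := Set.Icc 0 Real.pi))
      obtain ⟨θ, -, h2⟩ := this ⟨by show (rot 0 x0) 1 ≤ 0; rw [g0]; exact h,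
        by show 0 ≤ (rot Real.pi x0) 1; rw [gπ]; linarith⟩
      exact ⟨θ, h2⟩
  have hcont : Continuous fun θ => w (rot θ x0) :=
    hcw.comp_continuous (rot_cont x0) fun θ => hrot θ x0 hx0Ω
  have hval : Set.uIcc (w (rot 0 x0)) (w (rot θ0 x0)) ⊆
      (fun θ => w (rot θ x0)) '' Set.uIcc 0 θ0 :=
    intermediate_value_uIcc hcont.continuousOn
  rw [rot_zero, hzero _ (hrot θ0 x0 hx0Ω) hθ0] at hval
  have hinf : (Set.uIcc (w x0) 0).Infinite := by
    rcases lt_or_gt_of_ne hx0 with h | h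
    · rw [Set.uIcc_of_le h.le]; exact Set.Icc_infinite h
    · rw [Set.uIcc_of_ge h.le]; exact Set.Icc_infinite h
  apply Set.Infinite.of_image (fun f : E 3 → ℝ => f x0)
  refine hinf.mono fun t ht => ?_
  obtain ⟨θ, -, hθ⟩ := hval ht
  refine ⟨fun x => w (rot θ x + 0), ⟨?_, ?_⟩, ?_⟩
  · have := Sol.iso (rot θ) 0 hS
    rwa [rot_preimage hrot] at this
  · show ∫ x, w (rot θ x + 0) ^ 6 = _
    rw [← hw6]
    exact int_aff (rot θ) 0 (fun x => w x ^ 6)
  · show w (rot θ x0 + 0) = t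
    rw [add_zero]; exact hθ

end Run7.h104
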