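import Pool.Agent.Run7.h104.Sol2

/-! # Many energy levels -/

set_option autoImplicit false
set_option linter.unusedSectionVars false
set_option linter.unusedVariables false

open MeasureTheory Filter Topology
open scoped ContDiff ENNReal NNReal RealInnerProductSpace

namespace Run7.h104

open Pool.Agent.R217.BN (E cexp sobS H01)
open Pool.Agent.R217.HS
open Pool.Agent.R217.KM

lemma Wd_anti {k k' : ℕ} (hk : 1 ≤ k) (hkk : k ≤ k') :
    Wd (Real.pi / k') ⊆ Wd (Real.pi / k) := by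
  intro x hx
  have hk0 : (0:ℝ) < k := by exact_mod_cast hk
  have hk1 : (1:ℝ) ≤ k := by exact_mod_cast hk
  have hkk0 : (k:ℝ) ≤ k' := by exact_mod_cast hkk
  have hk'0 : (0:ℝ) < k' := by linarith
  have hπ := Real.pi_pos
  have a1 : Real.pi / k' ≤ Real.pi / k := div_le_div_of_nonneg_left hπ.le hk0 hkk0
  have a2 : Real.pi / k ≤ Real.pi := div_le_self hπ.le hk1
  obtain ⟨r, θ, hr, h0, h1, e0, e1⟩ := Wd_polar (by positivity) (a1.trans a2) hx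
  refine ⟨hx.1, ?_⟩
  rw [e0, e1]
  have h2 : r * Real.cos θ * Real.sin (Real.pi / k) - r * Real.sin θ * Real.cos (Real.pi / k) =
      r * Real.sin (Real.pi / k - θ) := by
    rw [Real.sin_sub]; ring
  rw [h2]
  apply mul_pos hr
  apply Real.sin_pos_of_pos_of_lt_pi <;> linarith

theorem core {Ω : Set (E 3)} (hO : IsOpen Ω) (hb : Bornology.IsBounded Ω)
    (hext : ∀ p ∈ frontier Ω, ∃ (y : E 3) (r : ℝ), 0 < r ∧ ‖p - y‖ = r ∧ ∀ x ∈ Ω, r ≤ ‖x - y‖)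
    (hrot : ∀ θ x, x ∈ Ω → rot θ x ∈ Ω) (hror : ∀ θ x, x ∈ Ω → ror θ x ∈ Ω)
    {R : ℝ} (hR : 0 < R) (hsup : ∀ x ∈ Ω, x 0 ^ 2 + x 1 ^ 2 ≤ R ^ 2)
    {c0 s0 C : ℝ} (hc0 : 0 < c0) (hs0 : 0 < s0) (hC : 0 ≤ C)
    (hcone : ∀ s, 0 < s → s < s0 → ∃ q0 q2, R - C * s ≤ q0 ∧
      ∀ x : E 3, (x 0 - q0) ^ 2 + x 1 ^ 2 + (x 2 - q2) ^ 2 < (c0 * s) ^ 2 → x ∈ Ω) :
    ∃ κ Λ : ℝ, 0 < κ ∧ ∀ lam : ℝ, Λ ≤ lam → ∃ T : Finset ℝ, κ * √lam ≤ T.card ∧
      ∀ t ∈ T, Set.Infinite {w | w ∈ Sol Ω lam ∧ ∫ x, w x ^ 6 = t} := by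
  obtain ⟨δ, hδ, k1, hk1, hpar⟩ := param hO hR hsup hc0 hs0 hC hcone
  refine ⟨δ * R, ((k1 + 1) / R) ^ 2, by positivity, fun lam hlam => ?_⟩
  have hk1' : (3:ℝ) ≤ k1 := by exact_mod_cast hk1
  have hlam0 : 0 < lam := lt_of_lt_of_le (by positivity) hlam
  have hsq : (k1 + 1) / R ≤ √lam := by
    rw [Real.le_sqrt (by positivity) hlam0.le]; exact hlam
  have hRl : (k1:ℝ) + 1 ≤ R * √lam := by
    rw [div_le_iff₀ hR] at hsq; linarith
  have hsl : √lam ^ 2 = lam := Real.sq_sqrt hlam0.le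
  have hs0 : 0 < √lam := Real.sqrt_pos.2 hlam0
  -- the admissible range of `k`
  have hex : ∀ k : ℕ, ∃ I : ℝ, k1 ≤ k → (k:ℝ) ≤ (1 + δ) * R * √lam → R * √lam < k + 1 →
      0 < I ∧ ∃ (u : E 3 → ℝ) (G : E 3 → E 3), H01 (Ω ∩ Wd (Real.pi / k)) u G ∧
        WSol (Ω ∩ Wd (Real.pi / k)) lam u G ∧ ∫ x, u x ^ 6 = I ∧ Ea lam u G = I ∧
        ∀ (v : E 3 → ℝ) (V : E 3 → E 3), H01 (Ω ∩ Wd (Real.pi / k)) v V →
          I ^ 2 * ∫ x, v x ^ 6 ≤ (Ea lam v V) ^ 3 := by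
    intro k
    by_cases hk : k1 ≤ k ∧ (k:ℝ) ≤ (1 + δ) * R * √lam ∧ R * √lam < k + 1
    swap
    · exact ⟨0, fun h1 h2 h3 => absurd ⟨h1, h2, h3⟩ hk⟩
    obtain ⟨h1, h2, h3⟩ := hk
    have hk0 : 1 ≤ k := by omega
    have h4 : (k / ((1 + δ) * R)) ^ 2 ≤ lam := by
      rw [← hsl]
      apply pow_le_pow_left₀ (by positivity)
      rw [div_le_iff₀ (by positivity)]
      linarith
    have h5 : lam < ((k:ℝ) + 1) ^ 2 / R ^ 2 := by
      rw [lt_div_iff₀ (by positivity), ← hsl]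
      have : (R * √lam) ^ 2 < ((k:ℝ) + 1) ^ 2 := pow_lt_pow_left₀ h3 (by positivity) (by norm_num)
      nlinarith
    obtain ⟨v, V, hv, hlow⟩ := hpar k h1 lam h4
    obtain ⟨s, u, G, g1, g2, g3, g4, g5, g6, g7⟩ := varV
      (hO.inter (Wd_open _)).measurableSet (hb.subset Set.inter_subset_left) hlam0.le h5
      (wedge_poincare hO hR hsup hk0) hv hlow
    refine ⟨∫ x, u x ^ 6, fun _ _ _ => ⟨g5, u, G, g2, g4, rfl, g7, ?_⟩⟩
    rw [g6]
    exact g3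
  choose I hI using hex
  -- the energies
  let t : ℕ → ℝ := fun k => 2 * k * I k
  obtain ⟨m, hm⟩ : ∃ m : ℕ, m = ⌊R * √lam⌋₊ := ⟨_, rfl⟩
  have hm1 : (m:ℝ) ≤ R * √lam := by rw [hm]; exact Nat.floor_le (by positivity)
  have hm2 : R * √lam < m + 1 := by rw [hm]; exact Nat.lt_floor_add_one _
  have hmk : k1 ≤ m := by
    have : (k1:ℝ) < m + 1 := by linarith
    have : k1 < m + 1 := by exact_mod_cast this
    omega
  obtain ⟨N, hN⟩ : ∃ N : ℕ, N = ⌊δ * R * √lam⌋₊ := ⟨_, rfl⟩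
  have hN1 : (N:ℝ) ≤ δ * R * √lam := by rw [hN]; exact Nat.floor_le (by positivity)
  have hN2 : δ * R * √lam < N + 1 := by rw [hN]; exact Nat.lt_floor_add_one _
  have hok : ∀ j : ℕ, j ≤ N → k1 ≤ m + j ∧ ((m + j : ℕ) : ℝ) ≤ (1 + δ) * R * √lam ∧
      R * √lam < ((m + j : ℕ) : ℝ) + 1 := by
    intro j hj
    have hj' : (j:ℝ) ≤ N := by exact_mod_cast hj
    have hj0 : (0:ℝ) ≤ j := by positivity
    refine ⟨by omega, ?_, ?_⟩
    · push_cast; nlinarith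
    · push_cast; linarith
  have hmono : ∀ i j : ℕ, i < j → j ≤ N → t (m + i) < t (m + j) := by
    intro i j hij hj
    obtain ⟨a1, a2, a3⟩ := hok i (by omega)
    obtain ⟨b1, b2, b3⟩ := hok j hj
    obtain ⟨p1, u1, G1, q1, q2, q3, q4, q5⟩ := hI (m + i) a1 a2 a3
    obtain ⟨p2, u2, G2, r1, r2, r3, r4, r5⟩ := hI (m + j) b1 b2 b3
    have hsub : Ω ∩ Wd (Real.pi / ((m + j : ℕ) : ℝ)) ⊆ Ω ∩ Wd (Real.pi / ((m + i : ℕ) : ℝ)) :=
      Set.inter_subset_inter_right _ (Wd_anti (by omega) (by omega))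
    have h1 := q5 u2 G2 (h01_mono hsub r1)
    rw [r3, r4] at h1
    have h2 : I (m + i) ^ 2 ≤ I (m + j) ^ 2 := by
      have : I (m + i) ^ 2 * I (m + j) ≤ I (m + j) ^ 2 * I (m + j) := by
        rw [← pow_succ]; exact h1
      exact le_of_mul_le_mul_right this p2
    have h3 : I (m + i) ≤ I (m + j) := le_of_sq_le_sq h2 p2.le
    show 2 * ((m + i : ℕ) : ℝ) * I (m + i) < 2 * ((m + j : ℕ) : ℝ) * I (m + j)
    have h4 : ((m + i : ℕ) : ℝ) < ((m + j : ℕ) : ℝ) := by exact_mod_cast (by omega : m + i < m + j)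
    have h5 : (0:ℝ) ≤ ((m + i : ℕ) : ℝ) := by positivity
    calc 2 * ((m + i : ℕ) : ℝ) * I (m + i) ≤ 2 * ((m + i : ℕ) : ℝ) * I (m + j) :=
          mul_le_mul_of_nonneg_left h3 (by positivity)
      _ < _ := by
          apply mul_lt_mul_of_pos_right _ p2
          linarith
  have hinj : Set.InjOn (fun j => t (m + j)) (Finset.range (N + 1) : Set ℕ) := by
    intro i hi j hj hij
    rw [Finset.coe_range, Set.mem_Iio] at hi hj
    rcases lt_trichotomy i j with h | h | h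
    · exact absurd hij (hmono i j h (by omega)).ne
    · exact h
    · exact absurd hij (hmono j i h (by omega)).ne'
  refine ⟨(Finset.range (N + 1)).image (fun j => t (m + j)), ?_, fun e he => ?_⟩
  · rw [Finset.card_image_of_injOn hinj, Finset.card_range]
    push_cast
    exact hN2.le
  · rw [Finset.mem_image] at he
    obtain ⟨j, hj, rfl⟩ := he
    rw [Finset.mem_range] at hj
    obtain ⟨a1, a2, a3⟩ := hok j (by omega)
    obtain ⟨p1, u1, G1, q1, q2, q3, q4, q5⟩ := hI (m + j) a1 a2 a3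
    have := inf_sols hO hb hext hrot hror hlam0.le (k := m + j) (by omega) q1 q2
      (by rw [q3]; exact p1)
    rw [q3] at this
    exact this

end Run7.h104
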