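import Pool.Agent.Run7.h104.Reg3
import Pool.Agent.Run7.h104.Geo2
import Pool.Agent.Run7.h104.Geo3

/-! # Test functions -/

set_option autoImplicit false
set_option linter.unusedSectionVars false
set_option linter.unusedVariables false

open MeasureTheory Filter Topology
open scoped ContDiff ENNReal NNReal RealInnerProductSpace

namespace Run7.h104

open Pool.Agent.R217.BN (E cexp sobS H01)
open Pool.Agent.R217.HS
open Pool.Agent.R217.KM

lemma int3 (f0 f1 f2 : ℝ → ℝ) : ∫ x : E 3, f0 (x 0) * f1 (x 1) * f2 (x 2) =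
    (∫ t, f0 t) * (∫ t, f1 t) * ∫ t, f2 t := by
  have h1 := (PiLp.volume_preserving_ofLp (Fin 3)).integral_comp
    (MeasurableEquiv.toLp 2 (Fin 3 → ℝ)).symm.measurableEmbedding
    (fun y : Fin 3 → ℝ => ∏ i, (![f0, f1, f2] i) (y i))
  have h2 := integral_fintype_prod_volume_eq_prod (fun i : Fin 3 => (![f0, f1, f2] i : ℝ → ℝ))
  rw [h2] at h1
  simp only [Fin.prod_univ_three] at h1
  exact h1

lemma integrable3 {f0 f1 f2 : ℝ → ℝ} (h0 : Integrable f0) (h1 : Integrable f1)
    (h2 : Integrable f2) : Integrable (fun x : E 3 => f0 (x 0) * f1 (x 1) * f2 (x 2)) := by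
  have h3 : Integrable (fun y : Fin 3 → ℝ => ∏ i, (![f0, f1, f2] i) (y i)) := by
    apply Integrable.fintype_prod
    intro i
    fin_cases i
    · exact h0
    · exact h1
    · exact h2
  have h4 := ((PiLp.volume_preserving_ofLp (Fin 3)).integrable_comp_emb
    (MeasurableEquiv.toLp 2 (Fin 3 → ℝ)).symm.measurableEmbedding).2 h3
  refine h4.congr (Eventually.of_forall fun x => ?_)
  simp [Fin.prod_univ_three]

/-- the profile -/
noncomputable def bb : ContDiffBump (0:ℝ) := ⟨1 / 2, 1, by norm_num, by norm_num⟩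

lemma bb_smooth : ContDiff ℝ ∞ (bb : ℝ → ℝ) := bb.contDiff

lemma bb_supp {t : ℝ} (ht : 1 ≤ |t|) : bb t = 0 := by
  apply bb.zero_of_le_dist
  rw [Real.dist_eq, sub_zero]
  exact ht

/-- scaled profile -/
noncomputable def bs (q a t : ℝ) : ℝ := bb ((t - q) / a)

lemma bs_smooth (q a : ℝ) : ContDiff ℝ ∞ (bs q a) := by
  unfold bs
  exact bb_smooth.comp (by fun_prop)

lemma bs_zero {q a t : ℝ} (ha : 0 < a) (h : a ≤ |t - q|) : bs q a t = 0 := by
  apply bb_supp
  rw [abs_div, abs_of_pos ha, le_div_iff₀ ha, one_mul]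
  exact h

lemma bs_deriv (q : ℝ) {a : ℝ} (ha : 0 < a) (t : ℝ) :
    HasDerivAt (bs q a) (deriv bb ((t - q) / a) / a) t := by
  have h1 : HasDerivAt (fun t : ℝ => (t - q) / a) (1 / a) t :=
    ((hasDerivAt_id t).sub_const q).div_const a
  have h2 : HasDerivAt bb (deriv bb ((t - q) / a)) ((t - q) / a) :=
    ((bb_smooth.differentiable (by simp)) _).hasDerivAt
  have h3 := HasDerivAt.comp t h2 h1
  rw [mul_one_div] at h3
  exact h3

noncomputable def B1 : ℝ := ∫ t, deriv bb t ^ 2
noncomputable def B2 : ℝ := ∫ t, bb t ^ 2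
noncomputable def B6 : ℝ := ∫ t, bb t ^ 6

lemma scale1 (g : ℝ → ℝ) (q : ℝ) {a : ℝ} (ha : 0 < a) :
    ∫ t, g ((t - q) / a) = a * ∫ t, g t := by
  have h1 := integral_sub_right_eq_self (fun t => g (t / a)) (μ := volume) q
  rw [h1, Measure.integral_comp_div, abs_of_pos ha, smul_eq_mul]

lemma bb_cs : HasCompactSupport (bb : ℝ → ℝ) := bb.hasCompactSupport

lemma bbd_cont : Continuous (deriv bb) := bb_smooth.continuous_deriv (by simp)

lemma bbd_cs : HasCompactSupport (deriv (bb : ℝ → ℝ)) := bb_cs.deriv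

lemma i_bs2 (q : ℝ) {a : ℝ} (ha : 0 < a) : ∫ t, bs q a t ^ 2 = a * B2 :=
  scale1 (fun t => bb t ^ 2) q ha

lemma i_bs6 (q : ℝ) {a : ℝ} (ha : 0 < a) : ∫ t, bs q a t ^ 6 = a * B6 :=
  scale1 (fun t => bb t ^ 6) q ha

lemma i_bsd (q : ℝ) {a : ℝ} (ha : 0 < a) : ∫ t, deriv (bs q a) t ^ 2 = B1 / a := by
  have h : ∀ t, deriv (bs q a) t ^ 2 = (fun s => deriv bb s ^ 2 / a ^ 2) ((t - q) / a) := by
    intro t
    rw [(bs_deriv q ha t).deriv, div_pow]
  simp_rw [h]
  rw [scale1 (fun s => deriv bb s ^ 2 / a ^ 2) q ha, integral_div]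
  unfold B1
  field_simp

lemma bs_cs (q : ℝ) {a : ℝ} (ha : 0 < a) : HasCompactSupport (bs q a) := by
  apply HasCompactSupport.intro (isCompact_closedBall q a)
  intro t ht
  apply bs_zero ha
  rw [Metric.mem_closedBall, Real.dist_eq, not_le] at ht
  exact ht.le

lemma int_bs (q : ℝ) {a : ℝ} (ha : 0 < a) {n : ℕ} (hn : n ≠ 0) :
    Integrable (fun t => bs q a t ^ n) := by
  apply ((bs_smooth q a).continuous.pow n).integrable_of_hasCompactSupport
  refine (bs_cs q ha).mono fun t ht => ?_
  rw [Function.mem_support] at ht ⊢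
  intro hc
  exact ht (by rw [Pi.pow_apply, hc, zero_pow hn])

lemma int_bsd (q : ℝ) {a : ℝ} (ha : 0 < a) : Integrable (fun t => deriv (bs q a) t ^ 2) := by
  apply (((bs_smooth q a).continuous_deriv (by simp)).pow 2).integrable_of_hasCompactSupport
  refine ((bs_cs q ha).deriv).mono fun t ht => ?_
  rw [Function.mem_support] at ht ⊢
  intro hc
  exact ht (by rw [Pi.pow_apply, hc]; norm_num)

lemma B2_pos : 0 < B2 := by
  unfold B2
  have hi : Integrable (fun t => bb t ^ 2) := by
    have := int_bs 0 one_pos (n := 2) (by norm_num)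
    simpa [bs] using this
  rw [integral_pos_iff_support_of_nonneg (fun t => by positivity) hi]
  have h1 : Metric.ball (0:ℝ) 1 ⊆ Function.support (fun t => bb t ^ 2) := by
    intro t ht
    have h2 : t ∈ Function.support bb := by rw [bb.support_eq]; exact ht
    exact pow_ne_zero 2 h2
  exact lt_of_lt_of_le (Metric.measure_ball_pos volume 0 one_pos) (measure_mono h1)

lemma B6_pos : 0 < B6 := by
  unfold B6
  have hi : Integrable (fun t => bb t ^ 6) := by
    have := int_bs 0 one_pos (n := 6) (by norm_num)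
    simpa [bs] using this
  rw [integral_pos_iff_support_of_nonneg (fun t => by positivity) hi]
  have h1 : Metric.ball (0:ℝ) 1 ⊆ Function.support (fun t => bb t ^ 6) := by
    intro t ht
    have h2 : t ∈ Function.support bb := by rw [bb.support_eq]; exact ht
    exact pow_ne_zero 6 h2
  exact lt_of_lt_of_le (Metric.measure_ball_pos volume 0 one_pos) (measure_mono h1)

lemma B1_nonneg : 0 ≤ B1 := integral_nonneg fun t => by positivity

/-- integrals of the sine profile -/
noncomputable def K6 : ℝ := ∫ t in (0:ℝ)..Real.pi, Real.sin t ^ 6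

lemma K6_pos : 0 < K6 := integral_sin_pow_pos 6

lemma ind_int (g : ℝ → ℝ) {om : ℝ} (hom : 0 < om) :
    ∫ t, (Set.Ioo 0 (Real.pi * om)).indicator (fun t => g (t / om)) t =
      om * ∫ t in (0:ℝ)..Real.pi, g t := by
  rw [integral_indicator measurableSet_Ioo, ← integral_Ioc_eq_integral_Ioo,
    ← intervalIntegral.integral_of_le (by positivity),
    intervalIntegral.integral_comp_div g hom.ne', smul_eq_mul, zero_div,
    mul_div_cancel_right₀ _ hom.ne']

lemma ind_integrable {g : ℝ → ℝ} (hg : Continuous g) {om : ℝ} :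
    Integrable ((Set.Ioo 0 (Real.pi * om)).indicator (fun t => g (t / om))) := by
  rw [integrable_indicator_iff measurableSet_Ioo]
  have hc : Continuous fun t => g (t / om) := by fun_prop
  exact (hc.integrableOn_Icc (a := 0) (b := Real.pi * om)).mono_set Set.Ioo_subset_Icc_self

end Run7.h104
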