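import Pool.Agent.Run7.h104.Tes1
import Pool.Agent.Run7.h104.Var2
import Pool.Agent.Run7.h104.Geo5

/-! # The test function in a wedge -/

set_option autoImplicit false
set_option linter.unusedSectionVars false
set_option linter.unusedVariables false

open MeasureTheory Filter Topology
open scoped ContDiff ENNReal NNReal RealInnerProductSpace

namespace Run7.h104

open Pool.Agent.R217.BN (E cexp sobS H01)
open Pool.Agent.R217.HS
open Pool.Agent.R217.KM

theorem test_fn {Ω : Set (E 3)} (hO : IsOpen Ω) {q0 q2 a om α : ℝ} (ha : 0 < a) (hom : 0 < om)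
    (hα0 : 0 < α) (hα1 : α < Real.pi / 2)
    (hbox : ∀ x : E 3, |x 0 - q0| ≤ a → |x 1 - Real.pi * om / 2| ≤ Real.pi * om →
      |x 2 - q2| ≤ a → x ∈ Ω) (hang : Real.pi * om ≤ (q0 - 2 * a) * α) :
    ∃ (v : E 3 → ℝ) (V : E 3 → E 3), H01 (Ω ∩ Wd α) v V ∧
      (∀ lam, Ea lam v V = (2 * B1 * B2 + (1 / om ^ 2 - lam) * (a * B2) ^ 2) *
        (Real.pi * om / 2)) ∧ ∫ x, v x ^ 6 = (a * B6) ^ 2 * (om * K6) := by
  have hπ := Real.pi_pos
  have hl : 0 < Real.pi * om := by positivity
  let χ : ContDiffBump (Real.pi * om / 2) := ⟨Real.pi * om / 2, Real.pi * om, by positivity,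
    by linarith⟩
  have χ1 : ∀ t, 0 ≤ t → t ≤ Real.pi * om → χ t = 1 := by
    intro t h1 h2
    apply χ.one_of_mem_closedBall
    rw [Metric.mem_closedBall, Real.dist_eq, abs_le]
    constructor
    · show -(Real.pi * om / 2) ≤ _
      linarith
    · show _ ≤ Real.pi * om / 2
      linarith
  let ψ : E 3 → ℝ := fun x => bs q0 a (x 0) * (χ (x 1) * Real.sin (x 1 / om)) * bs q2 a (x 2)
  have c0 : ContDiff ℝ ∞ fun x : E 3 => x 0 := (pj 0).contDiff
  have c1 : ContDiff ℝ ∞ fun x : E 3 => x 1 := (pj 1).contDiff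
  have c2 : ContDiff ℝ ∞ fun x : E 3 => x 2 := (pj 2).contDiff
  have hψs : ContDiff ℝ ∞ ψ := by
    have hχ : ContDiff ℝ ∞ (χ : ℝ → ℝ) := χ.contDiff
    exact (((bs_smooth q0 a).comp c0).mul ((hχ.comp c1).mul
      (Real.contDiff_sin.comp (c1.div_const om)))).mul ((bs_smooth q2 a).comp c2)
  -- the support
  let K : Set (E 3) := {x | |x 0 - q0| ≤ a ∧ |x 1 - Real.pi * om / 2| ≤ Real.pi * om ∧
    |x 2 - q2| ≤ a}
  have hKc : IsClosed K := by
    have k0 : IsClosed {x : E 3 | |x 0 - q0| ≤ a} := isClosed_le (by fun_prop) continuous_const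
    have k1 : IsClosed {x : E 3 | |x 1 - Real.pi * om / 2| ≤ Real.pi * om} :=
      isClosed_le (by fun_prop) continuous_const
    have k2 : IsClosed {x : E 3 | |x 2 - q2| ≤ a} := isClosed_le (by fun_prop) continuous_const
    exact k0.inter (k1.inter k2)
  have hsuppK : Function.support ψ ⊆ K := by
    intro x hx
    rw [Function.mem_support] at hx
    have hx' : bs q0 a (x 0) * (χ (x 1) * Real.sin (x 1 / om)) * bs q2 a (x 2) ≠ 0 := hx
    refine ⟨?_, ?_, ?_⟩
    · by_contra hc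
      apply hx'
      rw [bs_zero ha (not_le.1 hc).le]; ring
    · by_contra hc
      apply hx'
      have : χ (x 1) = 0 := by
        apply χ.zero_of_le_dist
        rw [Real.dist_eq]
        exact (not_le.1 hc).le
      rw [this]; ring
    · by_contra hc
      apply hx'
      rw [bs_zero ha (not_le.1 hc).le]; ring
  have htsK : tsupport ψ ⊆ K := closure_minimal hsuppK hKc
  have hKb : Bornology.IsBounded K := by
    rw [isBounded_iff_forall_norm_le]
    refine ⟨|q0| + a + (Real.pi * om * 2) + (|q2| + a), fun x hx => ?_⟩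
    obtain ⟨b0, b1, b2⟩ := hx
    rw [abs_le] at b0 b1 b2
    have e := norm3 x
    have d0 : |x 0| ≤ |q0| + a := by
      rw [abs_le]; constructor <;> cases' abs_cases q0 with h h <;> linarith [h.1]
    have d1 : |x 1| ≤ Real.pi * om * 2 := by
      rw [abs_le]; constructor <;> linarith
    have d2 : |x 2| ≤ |q2| + a := by
      rw [abs_le]; constructor <;> cases' abs_cases q2 with h h <;> linarith [h.1]
    have hn : ‖x‖ ≤ |x 0| + |x 1| + |x 2| := by
      apply le_of_sq_le_sq _ (by positivity)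
      rw [e]
      have s0 := sq_abs (x 0)
      have s1 := sq_abs (x 1)
      have s2 := sq_abs (x 2)
      have p0 := abs_nonneg (x 0)
      have p1 := abs_nonneg (x 1)
      have p2 := abs_nonneg (x 2)
      nlinarith [mul_nonneg p0 p1, mul_nonneg p0 p2, mul_nonneg p1 p2]
    linarith
  have hcs : HasCompactSupport ψ := HasCompactSupport.of_support_subset_isCompact
    (Metric.isCompact_of_isClosed_isBounded hKc hKb) hsuppK
  have tψ : TIn (Ω ∩ {x | q0 - 2 * a < x 0}) ψ := by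
    refine ⟨hψs, hcs, fun x hx => ?_⟩
    obtain ⟨b0, b1, b2⟩ := htsK hx
    refine ⟨hbox x b0 b1 b2, ?_⟩
    rw [abs_le] at b0
    show q0 - 2 * a < x 0
    linarith
  have n2 : ‖-nv1‖ = 1 := by rw [norm_neg]; exact nv1_norm
  have i2 : ∀ x : E 3, ⟪-nv1, x⟫ + Real.pi * om = Real.pi * om - x 1 := by
    intro x
    have := nv1_inner x
    rw [inner_neg_left]; linarith
  have hcut := half_cut tψ (n1 := nv1) (n2 := -nv1) (c1 := 0) (c2 := Real.pi * om) nv1_norm n2
    (fun x hx => by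
      rw [nv1_inner] at hx
      show bs q0 a (x 0) * (χ (x 1) * Real.sin (x 1 / om)) * bs q2 a (x 2) = 0
      rw [hx]; simp)
    (fun x hx => by
      rw [i2] at hx
      have hx1 : x 1 = Real.pi * om := by linarith
      show bs q0 a (x 0) * (χ (x 1) * Real.sin (x 1 / om)) * bs q2 a (x 2) = 0
      rw [hx1, mul_div_cancel_right₀ _ hom.ne', Real.sin_pi]; simp)
  obtain ⟨S, hS⟩ : ∃ S : Set (E 3), S = {x | 0 < ⟪nv1, x⟫ + 0 ∧ 0 < ⟪-nv1, x⟫ + Real.pi * om} :=
    ⟨_, rfl⟩
  rw [← hS] at hcut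
  have hSm : ∀ x, x ∈ S ↔ x 1 ∈ Set.Ioo 0 (Real.pi * om) := by
    intro x
    rw [hS]
    show (0 < ⟪nv1, x⟫ + 0 ∧ 0 < ⟪-nv1, x⟫ + Real.pi * om) ↔ _
    rw [nv1_inner, i2, Set.mem_Ioo]
    constructor
    · rintro ⟨h1, h2⟩; exact ⟨h1, by linarith⟩
    · rintro ⟨h1, h2⟩; exact ⟨h1, by linarith⟩
  have hsub : (Ω ∩ {x | q0 - 2 * a < x 0}) ∩ S ⊆ Ω ∩ Wd α := by
    rintro x ⟨⟨h1, h2⟩, h3⟩
    rw [hSm] at h3
    refine ⟨h1, h3.1, ?_⟩
    have h2' : q0 - 2 * a < x 0 := h2
    have hcos : 0 < Real.cos α := Real.cos_pos_of_mem_Ioo ⟨by linarith, hα1⟩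
    have htan := Real.lt_tan hα0 hα1
    rw [Real.tan_eq_sin_div_cos, lt_div_iff₀ hcos] at htan
    have hq : 0 < q0 - 2 * a := by
      by_contra hc
      have := mul_nonpos_of_nonpos_of_nonneg (not_lt.1 hc) hα0.le
      linarith
    have a1 : x 1 * Real.cos α < (q0 - 2 * a) * α * Real.cos α := by
      apply mul_lt_mul_of_pos_right _ hcos
      exact lt_of_lt_of_le h3.2 hang
    have a2 : (q0 - 2 * a) * α * Real.cos α ≤ x 0 * Real.sin α := by
      calc (q0 - 2 * a) * α * Real.cos α = (q0 - 2 * a) * (α * Real.cos α) := by ring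
        _ ≤ x 0 * Real.sin α := by
          apply mul_le_mul h2'.le htan.le (by positivity) (by linarith)
    show 0 < x 0 * Real.sin α - x 1 * Real.cos α
    linarith
  -- one-dimensional integrals
  have Isin : ∫ t, (Set.Ioo 0 (Real.pi * om)).indicator (fun t => Real.sin (t / om) ^ 2) t =
      om * (Real.pi / 2) := by
    have h1 := ind_int (fun t => Real.sin t ^ 2) hom
    rw [h1, integral_sin_sq]
    simp
  have Icos : ∫ t, (Set.Ioo 0 (Real.pi * om)).indicator (fun t => Real.cos (t / om) ^ 2) t =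
      om * (Real.pi / 2) := by
    have h1 := ind_int (fun t => Real.cos t ^ 2) hom
    rw [h1, integral_cos_sq]
    simp
  have Isin6 : ∫ t, (Set.Ioo 0 (Real.pi * om)).indicator (fun t => Real.sin (t / om) ^ 6) t =
      om * K6 := ind_int (fun t => Real.sin t ^ 6) hom
  have Jsin := ind_integrable (g := fun t => Real.sin t ^ 2) (om := om) (by fun_prop)
  have Jcos := ind_integrable (g := fun t => Real.cos t ^ 2) (om := om) (by fun_prop)
  obtain ⟨F, hF⟩ : ∃ F : E 3 → ℝ, F = fun x => (fun t => bs q0 a t ^ 2) (x 0) *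
        (Set.Ioo 0 (Real.pi * om)).indicator (fun t => Real.sin (t / om) ^ 2) (x 1) *
        (fun t => bs q2 a t ^ 2) (x 2) := ⟨_, rfl⟩
  obtain ⟨F6, hF6⟩ : ∃ F : E 3 → ℝ, F = fun x => (fun t => bs q0 a t ^ 6) (x 0) *
        (Set.Ioo 0 (Real.pi * om)).indicator (fun t => Real.sin (t / om) ^ 6) (x 1) *
        (fun t => bs q2 a t ^ 6) (x 2) := ⟨_, rfl⟩
  obtain ⟨F0, hF0⟩ : ∃ F : E 3 → ℝ, F = fun x => (fun t => deriv (bs q0 a) t ^ 2) (x 0) *
        (Set.Ioo 0 (Real.pi * om)).indicator (fun t => Real.sin (t / om) ^ 2) (x 1) *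
        (fun t => bs q2 a t ^ 2) (x 2) := ⟨_, rfl⟩
  obtain ⟨F1, hF1⟩ : ∃ F : E 3 → ℝ, F = fun x => (fun t => bs q0 a t ^ 2) (x 0) *
        (Set.Ioo 0 (Real.pi * om)).indicator (fun t => Real.cos (t / om) ^ 2) (x 1) *
        (fun t => bs q2 a t ^ 2) (x 2) := ⟨_, rfl⟩
  obtain ⟨F2, hF2⟩ : ∃ F : E 3 → ℝ, F = fun x => (fun t => bs q0 a t ^ 2) (x 0) *
        (Set.Ioo 0 (Real.pi * om)).indicator (fun t => Real.sin (t / om) ^ 2) (x 1) *
        (fun t => deriv (bs q2 a) t ^ 2) (x 2) := ⟨_, rfl⟩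
  have IF : ∫ x, F x = (a * B2) * (om * (Real.pi / 2)) * (a * B2) := by
    have e : (a * B2) * (om * (Real.pi / 2)) * (a * B2) = (∫ t, bs q0 a t ^ 2) *
        (∫ t, (Set.Ioo 0 (Real.pi * om)).indicator (fun t => Real.sin (t / om) ^ 2) t) *
        ∫ t, bs q2 a t ^ 2 := by
      rw [i_bs2 q0 ha, i_bs2 q2 ha, Isin]
    rw [hF, e]
    exact int3 (fun t => bs q0 a t ^ 2)
      ((Set.Ioo 0 (Real.pi * om)).indicator fun t => Real.sin (t / om) ^ 2)
      (fun t => bs q2 a t ^ 2)
  have IF6 : ∫ x, F6 x = (a * B6) * (om * K6) * (a * B6) := by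
    have e : (a * B6) * (om * K6) * (a * B6) = (∫ t, bs q0 a t ^ 6) *
        (∫ t, (Set.Ioo 0 (Real.pi * om)).indicator (fun t => Real.sin (t / om) ^ 6) t) *
        ∫ t, bs q2 a t ^ 6 := by
      rw [i_bs6 q0 ha, i_bs6 q2 ha, Isin6]
    rw [hF6, e]
    exact int3 (fun t => bs q0 a t ^ 6)
      ((Set.Ioo 0 (Real.pi * om)).indicator fun t => Real.sin (t / om) ^ 6)
      (fun t => bs q2 a t ^ 6)
  have IF0 : ∫ x, F0 x = (B1 / a) * (om * (Real.pi / 2)) * (a * B2) := by
    rw [hF0, ← Isin, ← i_bsd q0 ha, ← i_bs2 q2 ha]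
    exact int3 (fun t => deriv (bs q0 a) t ^ 2)
      ((Set.Ioo 0 (Real.pi * om)).indicator fun t => Real.sin (t / om) ^ 2)
      (fun t => bs q2 a t ^ 2)
  have IF1 : ∫ x, F1 x = (a * B2) * (om * (Real.pi / 2)) * (a * B2) := by
    have e : (a * B2) * (om * (Real.pi / 2)) * (a * B2) = (∫ t, bs q0 a t ^ 2) *
        (∫ t, (Set.Ioo 0 (Real.pi * om)).indicator (fun t => Real.cos (t / om) ^ 2) t) *
        ∫ t, bs q2 a t ^ 2 := by
      rw [i_bs2 q0 ha, i_bs2 q2 ha, Icos]
    rw [hF1, e]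
    exact int3 (fun t => bs q0 a t ^ 2)
      ((Set.Ioo 0 (Real.pi * om)).indicator fun t => Real.cos (t / om) ^ 2)
      (fun t => bs q2 a t ^ 2)
  have IF2 : ∫ x, F2 x = (a * B2) * (om * (Real.pi / 2)) * (B1 / a) := by
    rw [hF2, ← Isin, ← i_bsd q2 ha, ← i_bs2 q0 ha]
    exact int3 (fun t => bs q0 a t ^ 2)
      ((Set.Ioo 0 (Real.pi * om)).indicator fun t => Real.sin (t / om) ^ 2)
      (fun t => deriv (bs q2 a) t ^ 2)
  have JF0 : Integrable F0 := by
    rw [hF0]; exact integrable3 (int_bsd q0 ha) Jsin (int_bs q2 ha (n := 2) (by norm_num))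
  have JF1 : Integrable F1 := by
    rw [hF1]
    exact integrable3 (int_bs q0 ha (n := 2) (by norm_num)) Jcos
      (int_bs q2 ha (n := 2) (by norm_num))
  have JF2 : Integrable F2 := by
    rw [hF2]
    exact integrable3 (int_bs q0 ha (n := 2) (by norm_num)) Jsin (int_bsd q2 ha)
  refine ⟨S.indicator ψ, S.indicator (gradient ψ), h01_mono hsub hcut, fun lam => ?_, ?_⟩
  · -- the quadratic form
    have e2 : ∀ x, (S.indicator ψ x) ^ 2 = F x := by
      intro x
      rw [hF]
      dsimp only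
      by_cases hx : x ∈ S
      · rw [Set.indicator_of_mem hx]
        rw [hSm] at hx
        rw [Set.indicator_of_mem hx]
        show (bs q0 a (x 0) * (χ (x 1) * Real.sin (x 1 / om)) * bs q2 a (x 2)) ^ 2 = _
        rw [χ1 _ hx.1.le hx.2.le]; ring
      · rw [Set.indicator_of_notMem hx]
        rw [hSm] at hx
        rw [Set.indicator_of_notMem hx]; ring
    have I2 : ∫ x, (S.indicator ψ x) ^ 2 = (a * B2) * (om * (Real.pi / 2)) * (a * B2) :=
      (integral_congr_ae (Eventually.of_forall e2)).trans IF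
    -- the gradient
    have hg : ∀ x, ‖S.indicator (gradient ψ) x‖ ^ 2 = (F0 x + (1 / om ^ 2) * F1 x) + F2 x := by
      intro x
      rw [hF0, hF1, hF2]
      dsimp only
      by_cases hx : x ∈ S
      · rw [Set.indicator_of_mem hx]
        rw [hSm] at hx
        rw [Set.indicator_of_mem hx, Set.indicator_of_mem hx]
        have hev : ψ =ᶠ[𝓝 x] fun y => bs q0 a (y 0) * Real.sin (y 1 / om) * bs q2 a (y 2) := by
          have hop : IsOpen {y : E 3 | y 1 ∈ Set.Ioo 0 (Real.pi * om)} :=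
            isOpen_Ioo.preimage (by fun_prop)
          filter_upwards [hop.mem_nhds hx] with y hy
          show bs q0 a (y 0) * (χ (y 1) * Real.sin (y 1 / om)) * bs q2 a (y 2) = _
          have hy' : y 1 ∈ Set.Ioo 0 (Real.pi * om) := hy
          rw [χ1 _ hy'.1.le hy'.2.le]; ring
        have d0 : HasFDerivAt (fun y : E 3 => bs q0 a (y 0)) (deriv (bs q0 a) (x 0) • pj 0) x :=
          (((bs_smooth q0 a).differentiable (by simp)) _).hasDerivAt.comp_hasFDerivAt x
            (pj_fderiv 0 x)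
        have d2 : HasFDerivAt (fun y : E 3 => bs q2 a (y 2)) (deriv (bs q2 a) (x 2) • pj 2) x :=
          (((bs_smooth q2 a).differentiable (by simp)) _).hasDerivAt.comp_hasFDerivAt x
            (pj_fderiv 2 x)
        have d1 : HasFDerivAt (fun y : E 3 => Real.sin (y 1 / om))
            ((Real.cos (x 1 / om) * (1 / om)) • pj 1) x := by
          have h1 : HasDerivAt (fun t : ℝ => Real.sin (t / om)) (Real.cos (x 1 / om) * (1 / om))
              (x 1) := ((hasDerivAt_id (x 1)).div_const om).sin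
          exact h1.comp_hasFDerivAt x (pj_fderiv 1 x)
        have hd := (d0.mul d1).mul d2
        rw [← real_inner_self_eq_norm_sq, inner_grads, hev.fderiv_eq, Fin.sum_univ_three]
        have hfd : fderiv ℝ (fun y : E 3 => bs q0 a (y 0) * Real.sin (y 1 / om) *
          bs q2 a (y 2)) x = _ := hd.fderiv
        rw [hfd]
        simp
        ring
      · rw [Set.indicator_of_notMem hx]
        rw [hSm] at hx
        rw [Set.indicator_of_notMem hx, Set.indicator_of_notMem hx, norm_zero]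
        ring
    have IG : ∫ x, ‖S.indicator (gradient ψ) x‖ ^ 2 =
        (B1 / a) * (om * (Real.pi / 2)) * (a * B2) +
        (1 / om ^ 2) * ((a * B2) * (om * (Real.pi / 2)) * (a * B2)) +
        (a * B2) * (om * (Real.pi / 2)) * (B1 / a) := by
      refine (integral_congr_ae (Eventually.of_forall hg)).trans ?_
      have j01 : Integrable (fun x => F0 x + (1 / om ^ 2) * F1 x) := JF0.add (JF1.const_mul _)
      rw [integral_add j01 JF2, integral_add JF0 (JF1.const_mul _), integral_const_mul, IF0, IF1,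
        IF2]
    unfold Ea
    rw [I2, IG]
    field_simp
    ring
  · have e6 : ∀ x, (S.indicator ψ x) ^ 6 = F6 x := by
      intro x
      rw [hF6]
      dsimp only
      by_cases hx : x ∈ S
      · rw [Set.indicator_of_mem hx]
        rw [hSm] at hx
        rw [Set.indicator_of_mem hx]
        show (bs q0 a (x 0) * (χ (x 1) * Real.sin (x 1 / om)) * bs q2 a (x 2)) ^ 6 = _
        rw [χ1 _ hx.1.le hx.2.le]; ring
      · rw [Set.indicator_of_notMem hx]
        rw [hSm] at hx
        rw [Set.indicator_of_notMem hx]; ring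
    rw [integral_congr_ae (Eventually.of_forall e6), IF6]
    ring

end Run7.h104
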