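import Pool.Agent.Helper486.TP.NewtonLap

/-! # The radial kernel -/

set_option autoImplicit false

open MeasureTheory Set Filter Topology Metric
open scoped InnerProductSpace ContDiff Laplacian

namespace Run7.h104.Tri

open Pool.Agent.Helper486.TP

variable {n : ℕ}

noncomputable def eg (t : ℝ) : ℝ := deriv expNegInvGlue t

lemma gl_contDiff : ContDiff ℝ ∞ expNegInvGlue := expNegInvGlue.contDiff

lemma eg_contDiff : ContDiff ℝ ∞ eg := by
  have h : ContDiff ℝ (∞ + 1) expNegInvGlue := expNegInvGlue.contDiff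
  exact ((contDiff_succ_iff_deriv (n := ∞)).1 h).2.2

lemma hasDerivAt_gl (t : ℝ) : HasDerivAt expNegInvGlue (eg t) t :=
  ((gl_contDiff.differentiable (by simp)) t).hasDerivAt

lemma eg_pos {t : ℝ} (ht : 0 < t) : 0 < eg t := by
  have h1 : HasDerivAt (fun t : ℝ => Real.exp (-t⁻¹)) (Real.exp (-t⁻¹) * (-(-(t ^ 2)⁻¹))) t :=
    ((hasDerivAt_inv ht.ne').neg).exp
  have h2 : expNegInvGlue =ᶠ[𝓝 t] fun t : ℝ => Real.exp (-t⁻¹) := by
    filter_upwards [lt_mem_nhds ht] with s hs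
    simp [expNegInvGlue, not_le.2 hs]
  have h3 : eg t = Real.exp (-t⁻¹) * (-(-(t ^ 2)⁻¹)) := (h1.congr_of_eventuallyEq h2).deriv
  rw [h3, neg_neg]
  positivity

lemma eg_zero {t : ℝ} (ht : t ≤ 0) : eg t = 0 := by
  have h0 : ∀ s : ℝ, s < 0 → eg s = 0 := by
    intro s hs
    have h2 : expNegInvGlue =ᶠ[𝓝 s] fun _ : ℝ => (0 : ℝ) := by
      filter_upwards [gt_mem_nhds hs] with r hr
      exact expNegInvGlue.zero_of_nonpos hr.le
    exact ((hasDerivAt_const s (0 : ℝ)).congr_of_eventuallyEq h2).deriv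
  rcases lt_or_eq_of_le ht with h | h
  · exact h0 t h
  · subst h
    have hc : Continuous eg := eg_contDiff.continuous
    have h1 : Tendsto eg (𝓝[<] 0) (𝓝 (eg 0)) := (hc.tendsto 0).mono_left nhdsWithin_le_nhds
    have h2 : Tendsto eg (𝓝[<] 0) (𝓝 0) := by
      refine tendsto_const_nhds.congr' ?_
      filter_upwards [self_mem_nhdsWithin] with s hs
      exact (h0 s hs).symm
    exact tendsto_nhds_unique h1 h2

lemma eg_nonneg (t : ℝ) : 0 ≤ eg t := by
  rcases le_or_gt t 0 with h | h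
  · rw [eg_zero h]
  · exact (eg_pos h).le

noncomputable def kH (x : E n) : ℝ := expNegInvGlue (1 - ‖x‖ ^ 2)
noncomputable def kR (x : E n) : ℝ := 2 * eg (1 - ‖x‖ ^ 2)

lemma sq_contDiff : ContDiff ℝ ∞ (fun x : E n => 1 - ‖x‖ ^ 2) :=
  contDiff_const.sub (contDiff_id.norm_sq ℝ)

lemma kH_contDiff : ContDiff ℝ ∞ (kH (n := n)) := gl_contDiff.comp sq_contDiff
lemma kR_contDiff : ContDiff ℝ ∞ (kR (n := n)) := contDiff_const.mul (eg_contDiff.comp sq_contDiff)

lemma hasFDerivAt_sq (x : E n) :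
    HasFDerivAt (fun x : E n => 1 - ‖x‖ ^ 2) (-(2 • (innerSL ℝ x))) x := by
  have h1 := (hasFDerivAt_id x).norm_sq (F := E n)
  have h2 := h1.const_sub (1 : ℝ)
  simpa using h2

lemma kH_fderiv (x v : E n) : fderiv ℝ (kH (n := n)) x v = -(kR x * ⟪x, v⟫_ℝ) := by
  have h1 := (hasDerivAt_gl (1 - ‖x‖ ^ 2)).comp_hasFDerivAt x (hasFDerivAt_sq x)
  have h2 : fderiv ℝ (kH (n := n)) x = _ := h1.fderiv
  rw [h2]
  simp [kR]
  ring

lemma kH_lap (x : E n) : (Δ (kH (n := n))) x = -(n * kR x) - fderiv ℝ (kR (n := n)) x x := by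
  rw [nl_lap_eq kH_contDiff]
  have h1 : ∀ i : Fin n, (fun z => fderiv ℝ (kH (n := n)) z (EuclideanSpace.basisFun (Fin n) ℝ i)) =
      fun z => -(kR z * z i) := by
    intro i; funext z
    rw [kH_fderiv]
    simp [EuclideanSpace.inner_single_right]
  simp_rw [h1]
  have h2 : ∀ i : Fin n, fderiv ℝ (fun z : E n => -(kR z * z i)) x
      (EuclideanSpace.basisFun (Fin n) ℝ i) =
      -(kR x) - x i * fderiv ℝ (kR (n := n)) x (EuclideanSpace.basisFun (Fin n) ℝ i) := by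
    intro i
    have a1 : HasFDerivAt (kR (n := n)) (fderiv ℝ (kR (n := n)) x) x :=
      ((kR_contDiff.differentiable (by simp)) x).hasFDerivAt
    have a2 : HasFDerivAt (fun z : E n => z i) (EuclideanSpace.proj i : E n →L[ℝ] ℝ) x :=
      (EuclideanSpace.proj i : E n →L[ℝ] ℝ).hasFDerivAt
    have a3 := ((a1.mul a2).neg).fderiv
    have a4 : fderiv ℝ (fun z : E n => -(kR z * z i)) x = _ := a3
    rw [a4]
    simp
    ring
  simp_rw [h2]
  rw [Finset.sum_sub_distrib]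
  have h3 : ∑ i, x i * fderiv ℝ (kR (n := n)) x (EuclideanSpace.basisFun (Fin n) ℝ i) =
      fderiv ℝ (kR (n := n)) x x := by
    have e : x = ∑ i, x i • EuclideanSpace.basisFun (Fin n) ℝ i := by
      have := (EuclideanSpace.basisFun (Fin n) ℝ).sum_repr x
      simpa using this.symm
    have e2 : fderiv ℝ (kR (n := n)) x (∑ i, x i • EuclideanSpace.basisFun (Fin n) ℝ i) =
        ∑ i, x i * fderiv ℝ (kR (n := n)) x (EuclideanSpace.basisFun (Fin n) ℝ i) := by
      rw [map_sum]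
      apply Finset.sum_congr rfl
      intro i _
      rw [map_smul, smul_eq_mul]
    rw [← e2, ← e]
  rw [h3]
  simp

lemma k_hasDerivAt (w : E n) {r : ℝ} (hr : 0 < r) :
    HasDerivAt (fun r : ℝ => (r ^ n)⁻¹ * kR (r⁻¹ • w)) ((r ^ (n + 1))⁻¹ * (Δ (kH (n := n))) (r⁻¹ • w)) r := by
  have h1 : HasDerivAt (fun r : ℝ => r⁻¹ • w) ((-(r ^ 2)⁻¹) • w) r :=
    (hasDerivAt_inv hr.ne').smul_const w
  have h2a : HasFDerivAt (kR (n := n)) (fderiv ℝ (kR (n := n)) (r⁻¹ • w)) (r⁻¹ • w) :=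
    ((kR_contDiff.differentiable (by simp)) (r⁻¹ • w)).hasFDerivAt
  have h2 : HasDerivAt (fun r : ℝ => kR (r⁻¹ • w)) (fderiv ℝ (kR (n := n)) (r⁻¹ • w) ((-(r ^ 2)⁻¹) • w)) r :=
    HasFDerivAt.comp_hasDerivAt (l := kR) (f := fun r : ℝ => r⁻¹ • w) r h2a h1
  have h3 : HasDerivAt (fun r : ℝ => (r ^ n)⁻¹) (-(n * r ^ (n - 1)) / (r ^ n) ^ 2) r :=
    (hasDerivAt_pow n r).inv (by positivity)
  have h4 := h3.mul h2
  refine h4.congr_deriv ?_
  rw [kH_lap]
  have e1 : fderiv ℝ (kR (n := n)) (r⁻¹ • w) ((-(r ^ 2)⁻¹) • w) =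
      -(r⁻¹) * fderiv ℝ (kR (n := n)) (r⁻¹ • w) (r⁻¹ • w) := by
    rw [map_smul, map_smul]
    simp only [smul_eq_mul]
    field_simp
  rw [e1]
  rcases Nat.eq_zero_or_pos n with h0 | h0
  · subst h0
    simp
  · obtain ⟨m, rfl⟩ : ∃ m, n = m + 1 := ⟨n - 1, by omega⟩
    simp only [Nat.add_sub_cancel]
    field_simp
    push_cast
    ring

/-- The kernel. -/
noncomputable def theKernel (n : ℕ) : Kernel n where
  ρ := kR
  H := kH
  ρ_smooth := kR_contDiff
  H_smooth := kH_contDiff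
  ρ_nonneg := fun x => mul_nonneg (by norm_num) (eg_nonneg _)
  H_nonneg := fun x => expNegInvGlue.nonneg _
  ρ_supp := fun x hx => by
    have : (1 : ℝ) - ‖x‖ ^ 2 ≤ 0 := by nlinarith
    simp [kR, eg_zero this]
  H_supp := fun x hx => by
    have : (1 : ℝ) - ‖x‖ ^ 2 ≤ 0 := by nlinarith
    simp [kH, expNegInvGlue.zero_of_nonpos this]
  ρ_even := fun x => by simp [kR]
  H_even := fun x => by simp [kH]
  ρ_pos := fun x hx => by
    have : (0 : ℝ) < 1 - ‖x‖ ^ 2 := by nlinarith [norm_nonneg x]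
    exact mul_pos (by norm_num) (eg_pos this)
  H_pos := fun x hx => by
    have : (0 : ℝ) < 1 - ‖x‖ ^ 2 := by nlinarith [norm_nonneg x]
    exact expNegInvGlue.pos_of_pos this
  scaling := by
    intro w s h hs hsh
    have h1 : ∀ r ∈ uIcc s h, HasDerivAt (fun r : ℝ => (r ^ n)⁻¹ * kR (r⁻¹ • w))
        ((r ^ (n + 1))⁻¹ * (Δ (kH (n := n))) (r⁻¹ • w)) r := by
      intro r hr
      rw [uIcc_of_le hsh] at hr
      exact k_hasDerivAt w (lt_of_lt_of_le hs hr.1)
    have h2 : IntervalIntegrable (fun r : ℝ => (r ^ (n + 1))⁻¹ * (Δ (kH (n := n))) (r⁻¹ • w)) volume s h := by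
      apply ContinuousOn.intervalIntegrable
      rw [uIcc_of_le hsh]
      have hne : ∀ r ∈ Icc s h, r ≠ 0 := fun r hr => (lt_of_lt_of_le hs hr.1).ne'
      refine ContinuousOn.mul ?_ ?_
      · exact ContinuousOn.inv₀ (continuous_pow _).continuousOn fun r hr => pow_ne_zero _ (hne r hr)
      · exact (lap_continuous kH_contDiff).comp_continuousOn
          ((continuousOn_inv₀.mono fun r hr => hne r hr).smul continuousOn_const)
    exact (intervalIntegral.integral_eq_sub_of_hasDerivAt h1 h2).symm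

end Run7.h104.Tri
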