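import Pool.Agent.Run7.h104.Tri9

/-! # No blow-up sequence: the contradiction -/

set_option autoImplicit false

open MeasureTheory Set Filter Topology Metric
open scoped InnerProductSpace ContDiff Laplacian

namespace Run7.h104.Tri

open Pool.Agent.Helper486.TP

variable {n : ℕ}

lemma ultra_lim (𝒰 : Ultrafilter ℕ) {u : ℕ → ℝ} {a b : ℝ} (h : ∀ k, u k ∈ Icc a b) :
    ∃ x ∈ Icc a b, Tendsto u 𝒰 (𝓝 x) := by
  obtain ⟨x, hx, hux⟩ := (isCompact_Icc (a := a) (b := b)).ultrafilter_le_nhds (𝒰.map u) (by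
    rw [le_principal_iff]
    change u ⁻¹' (Icc a b) ∈ (𝒰 : Filter ℕ)
    exact univ_mem' h)
  exact ⟨x, hx, hux⟩

theorem no_blow {f g : Fin 3 → ℕ → E n → ℝ} {M : ℕ → Measure (E n)} {γ : Fin 3 → ℝ} {ε : ℕ → ℝ}
    {C : ℝ} (hB : Blow f g M γ ε C) : False := by
  obtain ⟨a, b, ha, hb, hgr⟩ := growth (n := n)
  set 𝒰 : Ultrafilter ℕ := hyperfilter ℕ with h𝒰
  have hle : (𝒰 : Filter ℕ) ≤ atTop := by
    rw [← Nat.cofinite_eq_atTop]; exact hyperfilter_le_cofinite
  set T : ℕ → ℝ := fun k => (M k univ).toReal with hT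
  have hT0 : ∀ k, 0 < T k := hB.pos
  set N : Fin 3 → ℕ → ℝ := fun j k => NN (f j k) (M k) with hN
  have hNT : ∀ j k, T k ≤ N j k := fun j k => NN_ge _ _
  have hN0 : ∀ j k, 0 < N j k := fun j k => lt_of_lt_of_le (hT0 k) (hNT j k)
  set v : Fin 3 → ℕ → E n → ℝ := fun j k => vv (f j k) (M k) with hv
  have hvi : ∀ j k, Integrable (v j k) := fun j k => vv_int (hB.lap j k).int _
  set L : Fin 3 → ℕ → ℝ := fun j k => ∫ x in ball (0 : E n) 4, |f j k x| with hL
  have hL0 : ∀ j k, 0 ≤ L j k := fun j k => integral_nonneg fun x => abs_nonneg _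
  have hNeq : ∀ j k, N j k = L j k + T k := fun j k => rfl
  set θ : Fin 3 → ℕ → ℝ := fun j k => T k / N j k with hθ
  have hθI : ∀ j k, θ j k ∈ Icc (0 : ℝ) 1 := fun j k =>
    ⟨div_nonneg (hT0 k).le (hN0 j k).le, (div_le_one (hN0 j k)).2 (hNT j k)⟩
  -- limits
  have hlimv : ∀ j, ∃ w : E n → ℝ, Integrable w ∧
      Tendsto (fun k => ∫⁻ x in ball (0 : E n) 3, ‖v j k x - w x‖ₑ) 𝒰 (𝓝 0) := by
    intro j
    have hfin : ∀ k, IsFiniteMeasure (ENNReal.ofReal (N j k)⁻¹ • M k) := fun k => by
      have := hB.fin k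
      exact ⟨by
        rw [Measure.smul_apply, smul_eq_mul]
        exact ENNReal.mul_lt_top ENNReal.ofReal_lt_top (measure_lt_top _ _)⟩
    refine compact_ultra (g := g j) (M := fun k => ENNReal.ofReal (N j k)⁻¹ • M k) hfin (fun k => ?_)
      (fun k => ?_) (fun k => ?_) 𝒰
    · have := hB.fin k
      exact vv_lapOn (hB.lap j k) (hN0 j k)
    · have := hB.fin k
      rw [Measure.smul_apply, smul_eq_mul, ← ENNReal.ofReal_toReal (measure_ne_top (M k) univ),
        ← ENNReal.ofReal_mul (inv_pos.2 (hN0 j k)).le]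
      rw [← ENNReal.ofReal_one]
      refine ENNReal.ofReal_le_ofReal ?_
      rw [inv_mul_eq_div]
      exact (hθI j k).2
    · rw [hv]
      simp only
      rw [vv_L1 (hN0 j k), inv_mul_eq_div, div_le_one (hN0 j k)]
      change L j k ≤ N j k
      rw [hNeq]; linarith [hT0 k]
  choose w hwi hw using hlimv
  have hlimθ : ∀ j, ∃ t ∈ Icc (0 : ℝ) 1, Tendsto (θ j) 𝒰 (𝓝 t) := fun j => ultra_lim 𝒰 (hθI j)
  choose t htI ht using hlimθ
  -- signs
  have h43 : ball (0 : E n) 3 ⊆ ball 0 4 := ball_subset_ball (by norm_num)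
  have h39 : ball (0 : E n) 3 ⊆ ball 0 9 := ball_subset_ball (by norm_num)
  have hvn : ∀ j k, ∀ᵐ x, x ∈ ball (0 : E n) 3 → 0 ≤ v j k x := by
    intro j k
    filter_upwards [hB.nn j k] with x hx hx3
    rw [hv]
    simp only
    rw [vv, indicator_of_mem (h43 hx3)]
    exact mul_nonneg (inv_pos.2 (hN0 j k)).le (hx (h39 hx3))
  have hvd : ∀ i j, i ≠ j → ∀ k, ∀ᵐ x, x ∈ ball (0 : E n) 3 → v i k x * v j k x = 0 := by
    intro i j hij k
    filter_upwards [hB.dis i j hij k] with x hx hx3
    rw [hv]
    simp only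
    rw [vv, vv, indicator_of_mem (h43 hx3), indicator_of_mem (h43 hx3)]
    have := hx (h39 hx3)
    calc (NN (f i k) (M k))⁻¹ * f i k x * ((NN (f j k) (M k))⁻¹ * f j k x)
        = (NN (f i k) (M k))⁻¹ * (NN (f j k) (M k))⁻¹ * (f i k x * f j k x) := by ring
      _ = 0 := by rw [this, mul_zero]
  have hwn : ∀ j, ∀ᵐ x, x ∈ ball (0 : E n) 3 → 0 ≤ w j x := fun j =>
    limit_nonneg (hwi j) (hw j) (hvn j)
  have hwd : ∀ i j, i ≠ j → ∀ᵐ x, x ∈ ball (0 : E n) 3 → w i x * w j x = 0 := fun i j hij =>
    limit_disjoint (hvi i) (hwi i) (hwi j) (hw i) (hw j) (hvn i) (hvn j) (hvd i j hij)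
  -- the limit equation
  have hmain : ∀ φ : E n → ℝ, TestOn (ball 0 3) φ → ∃ m : ℝ,
      Tendsto (fun k => (∫ x, φ x ∂(M k)) / T k) 𝒰 (𝓝 m) ∧
      ∀ j, ∫ x, w j x * (Δ φ) x = t j * γ j * m := by
    intro φ hφ
    obtain ⟨B, hB0, hBφ⟩ := hφ.bdd
    have hmb : ∀ k, (∫ x, φ x ∂(M k)) / T k ∈ Icc (-B) B := by
      intro k
      have := hB.fin k
      have h1 : ‖∫ x, φ x ∂(M k)‖ ≤ B * (M k).real univ :=
        norm_integral_le_of_norm_le_const (Eventually.of_forall fun x => hBφ x)
      have h2 : |∫ x, φ x ∂(M k)| ≤ B * T k := h1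
      have h3 := abs_le.1 h2
      constructor
      · rw [le_div_iff₀ (hT0 k)]; linarith
      · rw [div_le_iff₀ (hT0 k)]; linarith
    obtain ⟨m, -, hm⟩ := ultra_lim 𝒰 hmb
    refine ⟨m, hm, fun j => ?_⟩
    have h1 : Tendsto (fun k => ∫ x, v j k x * (Δ φ) x) 𝒰 (𝓝 (∫ x, w j x * (Δ φ) x)) := by
      obtain ⟨D, hD0, hD⟩ := lap_bdd hφ.smooth hφ.cpt
      exact conv_test (hvi j) (hwi j) (hw j) (lap_continuous hφ.smooth).measurable hD
        (fun x hx => lap_zero fun h => hx (hφ.sub h))
    have h2 : Tendsto (fun k => ∫ x, v j k x * (Δ φ) x) 𝒰 (𝓝 (t j * γ j * m)) := by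
      have e1 : ∀ k, ∫ x, v j k x * (Δ φ) x = θ j k * γ j * ((∫ x, φ x ∂(M k)) / T k) +
          (N j k)⁻¹ * ∫ x, φ x * (g j k x - γ j) ∂(M k) := by
        intro k
        have := hB.fin k
        have i1 : Integrable φ (M k) := hφ.integrable (M k)
        have i2 : Integrable (fun x => φ x * g j k x) (M k) :=
          i1.mul_bdd (c := 1) (hB.lap j k).meas.aestronglyMeasurable
            (Eventually.of_forall fun x => (hB.lap j k).bd x)
        rw [hv]
        simp only
        rw [vv_lap (hB.lap j k) (hφ.mono h43)]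
        have e2 : ∫ x, φ x * (g j k x - γ j) ∂(M k) =
            (∫ x, φ x * g j k x ∂(M k)) - (∫ x, φ x ∂(M k)) * γ j := by
          rw [← integral_mul_const, ← integral_sub i2 (i1.mul_const _)]
          congr 1; funext x; ring
        rw [e2]
        have hTk := (hT0 k).ne'
        have hNk := (hN0 j k).ne'
        change (N j k)⁻¹ * _ = T k / N j k * γ j * _ + _
        field_simp
        ring
      have e3 : Tendsto (fun k => (N j k)⁻¹ * ∫ x, φ x * (g j k x - γ j) ∂(M k)) 𝒰 (𝓝 0) := by
        have e4 : Tendsto (fun k => B * ε k) 𝒰 (𝓝 0) := by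
          simpa using (hB.ε0.mono_left hle).const_mul B
        refine squeeze_zero_norm (fun k => ?_) e4
        have := hB.fin k
        have i3 : Integrable (fun x => |g j k x - γ j|) (M k) := by
          refine Integrable.abs ?_
          refine Integrable.sub ?_ (integrable_const _)
          exact (integrable_const (1 : ℝ)).mono' (hB.lap j k).meas.aestronglyMeasurable
            (Eventually.of_forall fun x => (hB.lap j k).bd x)
        have e5 : ‖∫ x, φ x * (g j k x - γ j) ∂(M k)‖ ≤ B * (ε k * T k) := by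
          calc ‖∫ x, φ x * (g j k x - γ j) ∂(M k)‖ ≤ ∫ x, B * |g j k x - γ j| ∂(M k) := by
                refine norm_integral_le_of_norm_le (i3.const_mul B) (Eventually.of_forall fun x => ?_)
                rw [norm_mul, Real.norm_eq_abs, Real.norm_eq_abs]
                exact mul_le_mul_of_nonneg_right (hBφ x) (abs_nonneg _)
            _ = B * ∫ x, |g j k x - γ j| ∂(M k) := integral_const_mul _ _
            _ ≤ B * (ε k * T k) := mul_le_mul_of_nonneg_left (hB.err j k) hB0.le
        rw [norm_mul, Real.norm_of_nonneg (inv_pos.2 (hN0 j k)).le]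
        have hε : 0 ≤ ε k := by
          by_contra hneg
          push Not at hneg
          have h6 : 0 ≤ ∫ x, |g j k x - γ j| ∂(M k) := integral_nonneg fun x => abs_nonneg _
          have h7 := hB.err j k
          have h8 : ε k * T k < 0 := mul_neg_of_neg_of_pos hneg (hT0 k)
          have h9 : ∫ x, |g j k x - γ j| ∂(M k) ≤ ε k * T k := h7
          linarith
        calc (N j k)⁻¹ * ‖∫ x, φ x * (g j k x - γ j) ∂(M k)‖ ≤ (N j k)⁻¹ * (B * (ε k * T k)) :=
              mul_le_mul_of_nonneg_left e5 (inv_pos.2 (hN0 j k)).le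
          _ = (B * ε k) * θ j k := by
              change _ = (B * ε k) * (T k / N j k)
              field_simp
          _ ≤ (B * ε k) * 1 := mul_le_mul_of_nonneg_left (hθI j k).2 (by positivity)
          _ = B * ε k := mul_one _
      have e6 := (((ht j).mul_const (γ j)).mul hm).add e3
      rw [add_zero] at e6
      exact e6.congr fun k => (e1 k).symm
    exact tendsto_nhds_unique h1 h2
  -- nontriviality
  have hchi : ∃ χ : E n → ℝ, TestOn (ball 0 3) χ ∧ (∀ x, 0 ≤ χ x) ∧ ∀ x ∈ closedBall (0 : E n) 1, χ x = 1 := by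
    obtain ⟨ζ, hζ1, hζ2, hζ3, hζ4⟩ := exists_cutoff (s := (ball (0 : E n) 2)ᶜ) (t := closedBall 0 1)
      isOpen_ball.isClosed_compl isClosed_closedBall
      (disjoint_left.2 fun x hx hx1 => hx (closedBall_subset_ball (by norm_num) hx1))
    have hsub : tsupport ζ ⊆ closedBall 0 2 := by
      refine closure_minimal (fun x hx => ?_) isClosed_closedBall
      by_contra h
      exact hx (hζ2 x (fun h2 => h (ball_subset_closedBall h2)))
    exact ⟨ζ, ⟨hζ1, (isCompact_closedBall _ _).of_isClosed_subset (isClosed_tsupport _) hsub,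
      hsub.trans (closedBall_subset_ball (by norm_num))⟩, fun x => (hζ4 x).1, hζ3⟩
  have hne : ∀ j, ¬ ∀ᵐ x, x ∈ ball (0 : E n) 3 → w j x = 0 := by
    intro j hzero
    rcases (htI j).1.lt_or_eq with htj | htj
    · obtain ⟨χ, hχ, hχ0, hχ1⟩ := hchi
      obtain ⟨m, hm, hmj⟩ := hmain χ hχ
      have h1 : ∫ x, w j x * (Δ χ) x = 0 := by
        refine integral_eq_zero_of_ae ?_
        filter_upwards [hzero] with x hx
        by_cases hx3 : x ∈ ball (0 : E n) 3
        · rw [hx hx3, zero_mul]; rfl
        · rw [lap_zero (fun h => hx3 (hχ.sub h)), mul_zero]; rfl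
      rw [hmj j] at h1
      have hC : 0 < C := by
        by_contra hC
        have h2 := hB.dbl 0
        have h3 := hB.pos 0
        have h4 : C * (M 0 (closedBall 0 1)).toReal ≤ 0 :=
          mul_nonpos_of_nonpos_of_nonneg (not_lt.1 hC) ENNReal.toReal_nonneg
        linarith
      have hm1 : 1 / C ≤ m := by
        refine ge_of_tendsto hm (Eventually.of_forall fun k => ?_)
        have := hB.fin k
        have h5 : (M k (closedBall 0 1)).toReal ≤ ∫ x, χ x ∂(M k) := by
          have h6 : ∫ x, (closedBall (0 : E n) 1).indicator (fun _ => (1 : ℝ)) x ∂(M k) ≤ ∫ x, χ x ∂(M k) := by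
            refine integral_mono ((integrable_const _).indicator measurableSet_closedBall)
              (hχ.integrable _) fun x => ?_
            by_cases hx : x ∈ closedBall (0 : E n) 1
            · rw [indicator_of_mem hx, hχ1 x hx]
            · rw [indicator_of_notMem hx]; exact hχ0 x
          rw [integral_indicator measurableSet_closedBall] at h6
          simpa [Measure.real] using h6
        have h7 := hB.dbl k
        rw [div_le_div_iff₀ hC (hT0 k), one_mul]
        change (M k univ).toReal ≤ _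
        calc (M k univ).toReal ≤ C * (M k (closedBall 0 1)).toReal := h7
          _ ≤ C * ∫ x, χ x ∂(M k) := mul_le_mul_of_nonneg_left h5 hC.le
          _ = _ := mul_comm _ _
      have : 0 < t j * γ j * m := by
        have := hB.γpos j
        have : 0 < m := lt_of_lt_of_le (by positivity) hm1
        positivity
      linarith
    · -- t j = 0
      have h1 : ∀ k, a * (1 - θ j k) ≤ b * (∫ x, v j k x * (ball (0 : E n) 1).indicator (fun _ => (1 : ℝ)) x) + b * θ j k := by
        intro k
        have h2 := hgr (f j k) (g j k) (M k) (hB.fin k) (hB.lap j k) (hB.nn j k)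
        have h3 : ∫ x, v j k x * (ball (0 : E n) 1).indicator (fun _ => (1 : ℝ)) x =
            (N j k)⁻¹ * ∫ x in ball (0 : E n) 1, |f j k x| := by
          rw [← integral_indicator measurableSet_ball, ← integral_const_mul]
          refine integral_congr_ae ?_
          filter_upwards [hB.nn j k] with x hx
          by_cases hx1 : x ∈ ball (0 : E n) 1
          · rw [indicator_of_mem hx1, indicator_of_mem hx1, mul_one]
            rw [hv]
            simp only
            rw [vv, indicator_of_mem (ball_subset_ball (by norm_num) hx1),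
              abs_of_nonneg (hx (ball_subset_ball (by norm_num) hx1))]
          · rw [indicator_of_notMem hx1, indicator_of_notMem hx1]; simp
        rw [h3]
        have hNk := hN0 j k
        have h4 : 1 - θ j k = L j k / N j k := by
          change 1 - T k / N j k = _
          rw [eq_div_iff hNk.ne', sub_mul, div_mul_cancel₀ _ hNk.ne', hNeq]; ring
        rw [h4]
        change a * (L j k / N j k) ≤ b * ((N j k)⁻¹ * _) + b * (T k / N j k)
        have h5 : a * L j k ≤ b * (∫ x in ball (0 : E n) 1, |f j k x|) + b * T k := h2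
        calc a * (L j k / N j k) = (a * L j k) / N j k := by ring
          _ ≤ (b * (∫ x in ball (0 : E n) 1, |f j k x|) + b * T k) / N j k :=
              div_le_div_of_nonneg_right h5 hNk.le
          _ = _ := by field_simp
      have h6 : Tendsto (fun k => ∫ x, v j k x * (ball (0 : E n) 1).indicator (fun _ => (1 : ℝ)) x) 𝒰
          (𝓝 (∫ x, w j x * (ball (0 : E n) 1).indicator (fun _ => (1 : ℝ)) x)) := by
        refine conv_test (B := 1) (hvi j) (hwi j) (hw j) (measurable_const.indicator measurableSet_ball)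
          (fun x => ?_) (fun x hx => ?_)
        · by_cases hx1 : x ∈ ball (0 : E n) 1
          · rw [indicator_of_mem hx1]; simp
          · rw [indicator_of_notMem hx1]; simp
        · rw [indicator_of_notMem fun h => hx (ball_subset_ball (by norm_num) h)]
      have h7 : ∫ x, w j x * (ball (0 : E n) 1).indicator (fun _ => (1 : ℝ)) x = 0 := by
        refine integral_eq_zero_of_ae ?_
        filter_upwards [hzero] with x hx
        by_cases hx1 : x ∈ ball (0 : E n) 1
        · rw [hx (ball_subset_ball (by norm_num) hx1), zero_mul]; rfl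
        · rw [indicator_of_notMem hx1, mul_zero]; rfl
      rw [h7] at h6
      have h8 : Tendsto (fun k => a * (1 - θ j k)) 𝒰 (𝓝 (a * (1 - t j))) :=
        (tendsto_const_nhds.sub (ht j)).const_mul a
      have h9 : Tendsto (fun k => b * (∫ x, v j k x * (ball (0 : E n) 1).indicator (fun _ => (1 : ℝ)) x) + b * θ j k) 𝒰
          (𝓝 (b * 0 + b * t j)) := (h6.const_mul b).add ((ht j).const_mul b)
      have h10 := le_of_tendsto_of_tendsto h8 h9 (Eventually.of_forall h1)
      rw [← htj] at h10
      linarith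
  -- conclusion
  by_cases hall : ∀ j, 0 < t j
  · set V : Fin 3 → E n → ℝ := fun j x => (t j * γ j)⁻¹ * w j x with hV
    have hc : ∀ j, 0 < t j * γ j := fun j => mul_pos (hall j) (hB.γpos j)
    have hVh : ∀ i j, HarmOn (ball 0 3) (fun x => V i x - V j x) := by
      intro i j
      refine ⟨((hwi i).const_mul _).sub ((hwi j).const_mul _), fun φ hφ => ?_⟩
      obtain ⟨m, -, hm⟩ := hmain φ hφ
      have e1 : ∀ x, (V i x - V j x) * (Δ φ) x = (t i * γ i)⁻¹ * (w i x * (Δ φ) x) - (t j * γ j)⁻¹ * (w j x * (Δ φ) x) := by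
        intro x; rw [hV]; ring
      simp_rw [e1]
      rw [integral_sub ((hφ.integrable_mul_lap (hwi i)).const_mul _) ((hφ.integrable_mul_lap (hwi j)).const_mul _),
        integral_const_mul, integral_const_mul, hm i, hm j, inv_mul_cancel_left₀ (hc i).ne',
        inv_mul_cancel_left₀ (hc j).ne', sub_self]
    have hVn : ∀ j, ∀ᵐ x, x ∈ ball (0 : E n) 3 → 0 ≤ V j x := by
      intro j
      filter_upwards [hwn j] with x hx hx3
      exact mul_nonneg (inv_pos.2 (hc j)).le (hx hx3)
    have hVd : ∀ i j, i ≠ j → ∀ᵐ x, x ∈ ball (0 : E n) 3 → V i x * V j x = 0 := by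
      intro i j hij
      filter_upwards [hwd i j hij] with x hx hx3
      have := hx hx3
      calc V i x * V j x = (t i * γ i)⁻¹ * (t j * γ j)⁻¹ * (w i x * w j x) := by rw [hV]; ring
        _ = 0 := by rw [this, mul_zero]
    have hVz : ∀ j x, V j x = 0 → w j x = 0 := by
      intro j x h
      exact (mul_eq_zero.1 h).resolve_left (inv_pos.2 (hc j)).ne'
    have h2 := three_disjoint (hVh 0 1) (hVh 0 2) (hVn 0) (hVn 1) (hVn 2) (hVd 0 1 (by decide))
      (hVd 0 2 (by decide)) (hVd 1 2 (by decide)) (fun h => hne 0 (by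
        filter_upwards [h] with x hx hx3 using hVz 0 x (hx hx3)))
    exact hne 1 (by filter_upwards [h2] with x hx hx3 using hVz 1 x (hx hx3))
  · push Not at hall
    obtain ⟨j, hj⟩ := hall
    have htj : t j = 0 := le_antisymm hj (htI j).1
    have hharm : HarmOn (ball 0 3) (w j) := by
      refine ⟨hwi j, fun φ hφ => ?_⟩
      obtain ⟨m, -, hm⟩ := hmain φ hφ
      rw [hm j, htj]; ring
    obtain ⟨i, hij⟩ : ∃ i : Fin 3, j ≠ i := by
      fin_cases j
      · exact ⟨1, by decide⟩
      · exact ⟨0, by decide⟩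
      · exact ⟨0, by decide⟩
    exact hne j (pos_harm hharm (hwn j) (hwd j i hij) (hne i))

end Run7.h104.Tri
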