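import Pool.Agent.Run7.h104.Tri10

/-! # The triple point theorem on a ball -/

set_option autoImplicit false

open MeasureTheory Set Filter Topology Metric
open scoped InnerProductSpace ContDiff Laplacian ENNReal

namespace Run7.h104.Tri

open Pool.Agent.Helper486.TP

variable {n : ℕ}

/-- the rescaled measure -/
noncomputable def resc (τ : Measure (E n)) (x : E n) (s : ℝ) : Measure (E n) :=
  ENNReal.ofReal (s ^ 2 * (s ^ n)⁻¹) •
    (τ.restrict (closedBall x (9 * s))).map (fun z => s⁻¹ • (z - x))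

lemma meas_aff (x : E n) (s : ℝ) : Measurable (fun z : E n => s⁻¹ • (z - x)) := by
  have : Continuous (fun z : E n => s⁻¹ • (z - x)) := by fun_prop
  exact this.measurable

lemma meas_aff' (x : E n) (s : ℝ) : Measurable (fun z : E n => x + s • z) := by
  have : Continuous (fun z : E n => x + s • z) := by fun_prop
  exact this.measurable

lemma resc_int {τ : Measure (E n)} {x : E n} {s : ℝ} (hs : 0 < s) {F : E n → ℝ}
    (hF : StronglyMeasurable F) :
    ∫ y, F y ∂(resc τ x s) = (s ^ 2 * (s ^ n)⁻¹) *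
      ∫ z in closedBall x (9 * s), F (s⁻¹ • (z - x)) ∂τ := by
  rw [resc, integral_smul_measure, integral_map (meas_aff x s).aemeasurable hF.aestronglyMeasurable,
    ENNReal.toReal_ofReal (by positivity), smul_eq_mul]

lemma resc_fin {τ : Measure (E n)} [IsFiniteMeasure τ] (x : E n) (s : ℝ) :
    IsFiniteMeasure (resc τ x s) := by
  have : IsFiniteMeasure ((τ.restrict (closedBall x (9 * s))).map (fun z => s⁻¹ • (z - x))) :=
    Measure.isFiniteMeasure_map _ _
  exact Measure.smul_finite _ ENNReal.ofReal_ne_top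

lemma resc_univ (τ : Measure (E n)) {x : E n} {s : ℝ} (hs : 0 < s) :
    (resc τ x s univ).toReal = (s ^ 2 * (s ^ n)⁻¹) * (τ (closedBall x (9 * s))).toReal := by
  rw [resc, Measure.smul_apply, Measure.map_apply (meas_aff x s) MeasurableSet.univ, preimage_univ,
    Measure.restrict_apply_univ, smul_eq_mul, ENNReal.toReal_mul, ENNReal.toReal_ofReal (by positivity)]

lemma resc_ball (τ : Measure (E n)) {x : E n} {s : ℝ} (hs : 0 < s) :
    (resc τ x s (closedBall 0 1)).toReal = (s ^ 2 * (s ^ n)⁻¹) * (τ (closedBall x s)).toReal := by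
  have h1 : (fun z : E n => s⁻¹ • (z - x)) ⁻¹' (closedBall 0 1) = closedBall x s := by
    ext z
    rw [mem_preimage, mem_closedBall_zero_iff, norm_smul, norm_inv, Real.norm_of_nonneg hs.le,
      inv_mul_le_one₀ hs, ← dist_eq_norm, mem_closedBall]
  rw [resc, Measure.smul_apply, Measure.map_apply (meas_aff x s) measurableSet_closedBall, h1,
    Measure.restrict_apply measurableSet_closedBall,
    inter_eq_left.2 (closedBall_subset_closedBall (by linarith)), smul_eq_mul, ENNReal.toReal_mul,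
    ENNReal.toReal_ofReal (by positivity)]

lemma vol_aff {x : E n} {s : ℝ} (hs : 0 < s) (F : E n → ℝ) :
    ∫ y, F (x + s • y) = (s ^ n)⁻¹ * ∫ z, F z := by
  rw [Measure.integral_comp_smul volume (fun w => F (x + w)) s, integral_add_left_eq_self (fun w => F w) x]
  simp only [finrank_euclideanSpace, Fintype.card_fin, smul_eq_mul]
  rw [abs_of_nonneg (by positivity)]

lemma int_aff {x : E n} {s : ℝ} (hs : 0 < s) {f : E n → ℝ} (hf : Integrable f) :
    Integrable (fun y => f (x + s • y)) := by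
  have h1 : Integrable (fun w => f (x + w)) := hf.comp_add_left x
  exact h1.comp_smul hs.ne'

lemma LapOn.rescale {U : Set (E n)} {f g : E n → ℝ} {τ : Measure (E n)} (h : LapOn U f g τ)
    {x : E n} {s : ℝ} (hs : 0 < s) (hU : ball x (9 * s) ⊆ U) :
    LapOn (ball 0 9) (fun y => f (x + s • y)) (fun y => g (x + s • y)) (resc τ x s) := by
  refine ⟨int_aff hs h.int, h.meas.comp (meas_aff' x s), fun y => h.bd _, fun φ hφ => ?_⟩
  have hψ : TestOn U (fun z => φ ((-s⁻¹) • (x - z))) := by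
    have hsub : tsupport (fun z => φ ((-s⁻¹) • (x - z))) ⊆ (fun z => (-s⁻¹) • (x - z)) ⁻¹' tsupport φ := by
      refine closure_minimal (fun z hz => subset_tsupport φ hz) ?_
      exact (isClosed_tsupport φ).preimage (by fun_prop)
    have hsub2 : tsupport (fun z => φ ((-s⁻¹) • (x - z))) ⊆ ball x (9 * s) := by
      intro z hz
      have := hφ.sub (hsub hz)
      rw [mem_ball_zero_iff, norm_smul, norm_neg, norm_inv, Real.norm_of_nonneg hs.le,
        inv_mul_lt_iff₀ hs, ← dist_eq_norm, dist_comm] at this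
      rw [mem_ball]; linarith
    refine ⟨hφ.smooth.comp (aff_smooth _ x), ?_, hsub2.trans hU⟩
    exact (isCompact_closedBall x (9 * s)).of_isClosed_subset (isClosed_tsupport _)
      (hsub2.trans ball_subset_closedBall)
  have e1 := h.eq _ hψ
  have e2 : ∀ y : E n, (-s⁻¹) • (x - (x + s • y)) = y := by
    intro y
    rw [sub_add_cancel_left, smul_neg, neg_smul, neg_neg, smul_smul, inv_mul_cancel₀ hs.ne', one_smul]
  have e3 : ∀ z : E n, x + s • (s⁻¹ • (z - x)) = z := by
    intro z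
    rw [smul_smul, mul_inv_cancel₀ hs.ne', one_smul, add_sub_cancel]
  have e4 : ∀ z : E n, (-s⁻¹) • (x - z) = s⁻¹ • (z - x) := by
    intro z
    rw [neg_smul, ← smul_neg, neg_sub]
  have h1 : ∫ y, f (x + s • y) * (Δ φ) y = (s ^ n)⁻¹ * ∫ z, f z * (Δ φ) ((-s⁻¹) • (x - z)) := by
    have h0 := vol_aff (x := x) hs (fun z => f z * (Δ φ) ((-s⁻¹) • (x - z)))
    simp only [e2] at h0
    exact h0
  have h2 : ∫ z, f z * (Δ φ) ((-s⁻¹) • (x - z)) = s ^ 2 * ∫ z, f z * (Δ (fun z => φ ((-s⁻¹) • (x - z)))) z := by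
    rw [← integral_const_mul]
    refine integral_congr_ae (Eventually.of_forall fun z => ?_)
    simp only
    rw [lap_aff hφ.smooth]
    field_simp
  have h3 : ∫ y, φ y * g (x + s • y) ∂(resc τ x s) = (s ^ 2 * (s ^ n)⁻¹) *
      ∫ z in closedBall x (9 * s), φ (s⁻¹ • (z - x)) * g z ∂τ := by
    have h0 := resc_int (τ := τ) (x := x) hs (F := fun y => φ y * g (x + s • y))
      (hφ.smooth.continuous.measurable.mul (h.meas.comp (meas_aff' x s))).stronglyMeasurable
    simp only [e3] at h0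
    exact h0
  have h4 : ∫ z in closedBall x (9 * s), φ (s⁻¹ • (z - x)) * g z ∂τ =
      ∫ z, φ ((-s⁻¹) • (x - z)) * g z ∂τ := by
    rw [← integral_indicator measurableSet_closedBall]
    refine integral_congr_ae (Eventually.of_forall fun z => ?_)
    by_cases hz : z ∈ closedBall x (9 * s)
    · rw [indicator_of_mem hz]
      simp only [e4]
    · rw [indicator_of_notMem hz]
      simp only [e4]
      rw [image_eq_zero_of_notMem_tsupport (f := φ), zero_mul]
      intro h5
      have := hφ.sub h5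
      rw [mem_ball_zero_iff, norm_smul, norm_inv, Real.norm_of_nonneg hs.le,
        inv_mul_lt_iff₀ hs, ← dist_eq_norm] at this
      rw [mem_closedBall] at hz
      linarith
  rw [h1, h2, e1, h3, h4]
  ring

lemma ae_aff {x : E n} {s : ℝ} (hs : 0 < s) {P : E n → Prop} (h : ∀ᵐ z, P z) :
    ∀ᵐ y : E n, P (x + s • y) := by
  have h1 : ∀ᵐ w : E n, P (x + w) := by
    have := (measurePreserving_add_left (volume : Measure (E n)) x).quasiMeasurePreserving.ae h
    exact this
  have h2 : Measure.QuasiMeasurePreserving (fun y : E n => s • y) volume volume := by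
    refine ⟨measurable_const_smul s, ?_⟩
    rw [Measure.map_addHaar_smul _ hs.ne']
    exact Measure.smul_absolutelyContinuous
  exact h2.ae h1

/-- frequent doubling -/
lemma freq_dbl {m v : ℕ → ℝ} {q K : ℝ} (hq : 1 ≤ q) (hv0 : 0 < v 0) (hv : ∀ i, v i = (q⁻¹) ^ i * v 0)
    (hK : 0 < K) (hm : ∀ᶠ i in atTop, v i ≤ K * m i) : ∃ᶠ i in atTop, m i ≤ (9 * q) * m (i + 1) := by
  intro hc
  obtain ⟨N, hN⟩ := ((hm.and hc).exists_forall_of_atTop)
  have hq0 : 0 < q := by linarith
  have h1 : ∀ j, m (N + j) ≤ ((9 * q)⁻¹) ^ j * m N := by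
    intro j
    induction j with
    | zero => simp
    | succ j ih =>
      have h2 := (hN (N + j) (by omega)).2
      rw [not_le] at h2
      have h3 : m (N + (j + 1)) ≤ (9 * q)⁻¹ * m (N + j) := by
        rw [inv_mul_eq_div, le_div_iff₀ (by positivity), mul_comm]
        exact h2.le
      calc m (N + (j + 1)) ≤ (9 * q)⁻¹ * m (N + j) := h3
        _ ≤ (9 * q)⁻¹ * (((9 * q)⁻¹) ^ j * m N) := mul_le_mul_of_nonneg_left ih (by positivity)
        _ = ((9 * q)⁻¹) ^ (j + 1) * m N := by rw [pow_succ]; ring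
  have h4 : ∀ j, (q⁻¹) ^ N * v 0 ≤ K * m N * (9⁻¹ : ℝ) ^ j := by
    intro j
    have h5 := (hN (N + j) (by omega)).1
    rw [hv (N + j), pow_add] at h5
    have h6 : (q⁻¹) ^ N * (q⁻¹) ^ j * v 0 ≤ K * (((9 * q)⁻¹) ^ j * m N) :=
      h5.trans (mul_le_mul_of_nonneg_left (h1 j) hK.le)
    rw [mul_inv, mul_pow] at h6
    have h7 : 0 < (q⁻¹) ^ j := by positivity
    have h8 : (q⁻¹) ^ j * ((q⁻¹) ^ N * v 0) ≤ (q⁻¹) ^ j * (K * m N * (9⁻¹ : ℝ) ^ j) := by
      calc (q⁻¹) ^ j * ((q⁻¹) ^ N * v 0) = (q⁻¹) ^ N * (q⁻¹) ^ j * v 0 := by ring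
        _ ≤ _ := h6
        _ = _ := by ring
    exact le_of_mul_le_mul_left h8 h7
  have h9 : Tendsto (fun j : ℕ => K * m N * (9⁻¹ : ℝ) ^ j) atTop (𝓝 (K * m N * 0)) :=
    (tendsto_pow_atTop_nhds_zero_of_lt_one (by norm_num) (by norm_num)).const_mul _
  rw [mul_zero] at h9
  have h10 : (q⁻¹) ^ N * v 0 ≤ 0 := ge_of_tendsto' h9 h4
  have h11 : 0 < (q⁻¹) ^ N * v 0 := by positivity
  linarith

end Run7.h104.Tri
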