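import Pool.Agent.Run7.h104.Tri11

/-! # The triple point theorem for densities -/

set_option autoImplicit false

open MeasureTheory Set Filter Topology Metric
open scoped InnerProductSpace ContDiff Laplacian ENNReal

namespace Run7.h104.Tri

open Pool.Agent.Helper486.TP

variable {n : ℕ}

theorem kl2 {U : Set (E n)} (hU : IsOpen U) {f g : Fin 3 → E n → ℝ} {τ : Measure (E n)}
    [IsFiniteMeasure τ] (hl : ∀ j, LapOn U (f j) (g j) τ)
    (hn : ∀ j, ∀ᵐ x, x ∈ U → 0 ≤ f j x)
    (hd : ∀ i j, i ≠ j → ∀ᵐ x, x ∈ U → f i x * f j x = 0) :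
    ∀ᵐ x ∂τ, x ∈ U → ¬ ∀ j, 0 < g j x := by
  have hgl : ∀ j, LocallyIntegrable (g j) τ := fun j =>
    (Integrable.of_bound (hl j).meas.aestronglyMeasurable 1
      (Eventually.of_forall fun x => (hl j).bd x)).locallyIntegrable
  have A : ∀ᵐ x ∂τ, ∀ j, Tendsto (fun r => ⨍ y in closedBall x r, ‖g j y - g j x‖ ∂τ) (𝓝[>] 0) (𝓝 0) := by
    rw [ae_all_iff]
    intro j
    filter_upwards [(Besicovitch.vitaliFamily τ).ae_tendsto_average_norm_sub (hgl j)] with x hx
    exact hx.comp (Besicovitch.tendsto_filterAt τ x)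
  filter_upwards [A, Besicovitch.ae_tendsto_rnDeriv (volume : Measure (E n)) τ,
    Measure.rnDeriv_lt_top (volume : Measure (E n)) τ] with x hxA hxB hxC hxU hpos
  obtain ⟨r0, hr0, hr0U⟩ : ∃ r0 > 0, closedBall x r0 ⊆ U :=
    Metric.nhds_basis_closedBall.mem_iff.1 (hU.mem_nhds hxU)
  -- a finite bound for the ratio
  obtain ⟨K, hK0, hK⟩ : ∃ K : ℝ, 0 < K ∧ ∀ᶠ r in 𝓝[>] (0 : ℝ),
      (volume (closedBall x r)).toReal ≤ K * (τ (closedBall x r)).toReal := by
    obtain ⟨L, hL1, hL2⟩ := exists_between hxC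
    refine ⟨L.toReal + 1, by positivity, ?_⟩
    filter_upwards [hxB.eventually (gt_mem_nhds hL1)] with r hr
    have hLt : L ≠ ⊤ := hL2.ne
    have h1 : volume (closedBall x r) ≤ L * τ (closedBall x r) := by
      by_cases h0 : τ (closedBall x r) = 0
      · rw [h0, mul_zero]
        by_contra hne
        rw [not_le] at hne
        rw [h0, ENNReal.div_zero hne.ne'] at hr
        exact absurd hr (not_lt.2 le_top)
      · exact ((ENNReal.div_le_iff h0 (measure_ne_top τ _)).1 hr.le)
    have h2 : (volume (closedBall x r)).toReal ≤ (L * τ (closedBall x r)).toReal :=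
      ENNReal.toReal_mono (ENNReal.mul_ne_top hLt (measure_ne_top τ _)) h1
    rw [ENNReal.toReal_mul] at h2
    have h3 : 0 ≤ (τ (closedBall x r)).toReal := ENNReal.toReal_nonneg
    linarith
  -- scales
  set R : ℕ → ℝ := fun i => r0 * (9⁻¹ : ℝ) ^ i with hR
  have hR0 : ∀ i, 0 < R i := fun i => by simp only [hR]; positivity
  have hRt : Tendsto R atTop (𝓝[>] 0) := by
    refine tendsto_nhdsWithin_iff.2 ⟨?_, Eventually.of_forall fun i => hR0 i⟩
    have : Tendsto (fun i : ℕ => r0 * (9⁻¹ : ℝ) ^ i) atTop (𝓝 (r0 * 0)) :=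
      (tendsto_pow_atTop_nhds_zero_of_lt_one (by norm_num) (by norm_num)).const_mul _
    rwa [mul_zero] at this
  have hRle : ∀ i, R i ≤ r0 := fun i => by
    have : (9⁻¹ : ℝ) ^ i ≤ 1 := pow_le_one₀ (by norm_num) (by norm_num)
    simp only [hR]
    nlinarith
  have hRs : ∀ i, 9 * R (i + 1) = R i := fun i => by
    simp only [hR, pow_succ]
    ring
  set m : ℕ → ℝ := fun i => (τ (closedBall x (R i))).toReal with hm
  set v : ℕ → ℝ := fun i => (volume (closedBall x (R i))).toReal with hv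
  have hv0 : ∀ i, 0 < v i := fun i =>
    ENNReal.toReal_pos (measure_closedBall_pos volume x (hR0 i)).ne' measure_closedBall_lt_top.ne
  have hvs : ∀ i, v i = (((9 : ℝ) ^ n)⁻¹) ^ i * v 0 := by
    intro i
    simp only [hv]
    rw [Measure.addHaar_closedBall _ _ (hR0 i).le, Measure.addHaar_closedBall _ _ (hR0 0).le]
    simp only [finrank_euclideanSpace, Fintype.card_fin, hR, pow_zero, mul_one]
    rw [ENNReal.toReal_mul, ENNReal.toReal_mul, ENNReal.toReal_ofReal (by positivity),
      ENNReal.toReal_ofReal (by positivity), mul_pow, ← inv_pow, ← pow_mul, ← pow_mul,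
      mul_comm n i]
    ring
  have hev : ∀ᶠ i in atTop, v i ≤ K * m i := hRt.eventually hK
  have hfr := freq_dbl (m := m) (v := v) (q := (9 : ℝ) ^ n) (K := K) (one_le_pow₀ (by norm_num)) (hv0 0) hvs
    hK0 hev
  -- combine
  obtain ⟨κ, hκm, hκ⟩ := extraction_of_frequently_atTop (hfr.and_eventually hev)
  set s : ℕ → ℝ := fun k => R (κ k + 1) with hs
  have hs0 : ∀ k, 0 < s k := fun k => hR0 _
  have h9s : ∀ k, 9 * s k = R (κ k) := fun k => hRs _
  have hc0 : ∀ k, 0 < (s k) ^ 2 * ((s k) ^ n)⁻¹ := fun k => by have := hs0 k; positivity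
  have hm0 : ∀ k, 0 < m (κ k) := by
    intro k
    have h1 := (hκ k).2
    have h2 := hv0 (κ k)
    by_contra h3
    rw [not_lt] at h3
    nlinarith
  set av : Fin 3 → ℕ → ℝ := fun j k => ⨍ y in closedBall x (R (κ k)), ‖g j y - g j x‖ ∂τ with hav
  have hav0 : ∀ j k, 0 ≤ av j k := fun j k => by
    simp only [hav]
    rw [setAverage_eq]
    refine smul_nonneg (by positivity) (integral_nonneg fun y => norm_nonneg _)
  have hball : ∀ k, ball x (9 * s k) ⊆ U := fun k => by
    rw [h9s]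
    exact ball_subset_closedBall.trans ((closedBall_subset_closedBall (hRle _)).trans hr0U)
  refine no_blow (f := fun j k y => f j (x + s k • y)) (g := fun j k y => g j (x + s k • y))
    (M := fun k => resc τ x (s k)) (γ := fun j => g j x) (ε := fun k => ∑ j, av j k)
    (C := 9 * 9 ^ n) ⟨?_, ?_, ?_, ?_, ?_, ?_, hpos, ?_, ?_⟩
  · exact fun k => resc_fin x (s k)
  · exact fun j k => (hl j).rescale (hs0 k) (hball k)
  · intro j k
    filter_upwards [ae_aff (x := x) (hs0 k) (hn j)] with y hy hy9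
    refine hy (hball k ?_)
    rw [mem_ball_zero_iff] at hy9
    rw [mem_ball, dist_self_add_left, norm_smul, Real.norm_of_nonneg (hs0 k).le, mul_comm]
    exact mul_lt_mul_of_pos_right hy9 (hs0 k)
  · intro i j hij k
    filter_upwards [ae_aff (x := x) (hs0 k) (hd i j hij)] with y hy hy9
    refine hy (hball k ?_)
    rw [mem_ball_zero_iff] at hy9
    rw [mem_ball, dist_self_add_left, norm_smul, Real.norm_of_nonneg (hs0 k).le, mul_comm]
    exact mul_lt_mul_of_pos_right hy9 (hs0 k)
  · intro k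
    rw [resc_univ τ (hs0 k), h9s]
    exact mul_pos (hc0 k) (hm0 k)
  · intro k
    rw [resc_univ τ (hs0 k), resc_ball τ (hs0 k), h9s]
    have h1 := (hκ k).1
    simp only [hm] at h1
    calc (s k) ^ 2 * ((s k) ^ n)⁻¹ * (τ (closedBall x (R (κ k)))).toReal
        ≤ (s k) ^ 2 * ((s k) ^ n)⁻¹ * (9 * 9 ^ n * (τ (closedBall x (R (κ k + 1)))).toReal) :=
          mul_le_mul_of_nonneg_left h1 (hc0 k).le
      _ = _ := by simp only [hs]; ring
  · intro j k
    rw [resc_univ τ (hs0 k), h9s]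
    have hme : StronglyMeasurable (fun y => |g j (x + s k • y) - g j x|) :=
      ((((hl j).meas.comp (meas_aff' x (s k))).sub_const (g j x)).norm).stronglyMeasurable
    rw [resc_int (hs0 k) hme, h9s]
    have e3 : ∀ z : E n, x + s k • ((s k)⁻¹ • (z - x)) = z := by
      intro z
      rw [smul_smul, mul_inv_cancel₀ (hs0 k).ne', one_smul, add_sub_cancel]
    simp only [e3]
    have h2 : ∫ z in closedBall x (R (κ k)), |g j z - g j x| ∂τ = m (κ k) * av j k := by
      simp only [hav, hm]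
      rw [setAverage_eq, smul_eq_mul, Measure.real, ← mul_assoc, mul_inv_cancel₀, one_mul]
      · rfl
      · exact (hm0 k).ne'
    rw [h2]
    have h3 : av j k ≤ ∑ j, av j k :=
      Finset.single_le_sum (f := fun j => av j k) (fun j _ => hav0 j k) (Finset.mem_univ j)
    calc (s k) ^ 2 * ((s k) ^ n)⁻¹ * (m (κ k) * av j k)
        ≤ (s k) ^ 2 * ((s k) ^ n)⁻¹ * (m (κ k) * ∑ j, av j k) :=
          mul_le_mul_of_nonneg_left (mul_le_mul_of_nonneg_left h3 (hm0 k).le) (hc0 k).le
      _ = _ := by simp only [hm]; ring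
  · have h1 : Tendsto (fun k => ∑ j, av j k) atTop (𝓝 (∑ _j : Fin 3, (0 : ℝ))) := by
      refine tendsto_finsetSum _ fun j _ => ?_
      exact (hxA j).comp (hRt.comp hκm.tendsto_atTop)
    simpa using h1

end Run7.h104.Tri
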