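import Pool.Agent.Run7.h104.Tri12
import Pool.Agent.Helper486.TP.PDefs

/-! # The triple point theorem, order version -/

set_option autoImplicit false

open MeasureTheory Set Filter Topology Metric
open scoped InnerProductSpace ContDiff Laplacian ENNReal

namespace Run7.h104.Tri

open Pool.Agent.Helper486.TP

variable {n : ℕ}

/-- `Δ f = μ` on `Ω` -/
structure RieszOn (Ω : Set (E n)) (f : E n → ℝ) (μ : SignedRadon Ω) : Prop where
  loc : LocallyIntegrableOn f Ω
  eq : ∀ φ, TestOn Ω φ → (∫ x, φ x ∂μ.pos) - (∫ x, φ x ∂μ.neg) = ∫ x, f x * (Δ φ) x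

lemma val_split {Ω : Set (E n)} (μ : SignedRadon Ω) {B K A : Set (E n)}
    (hK : IsCompact K) (hBK : B ⊆ K) (hKΩ : K ⊆ Ω) (hA : MeasurableSet A) :
    μ.val B = μ.val (B ∩ A) + μ.val (B \ A) := by
  have h1 : μ.pos B ≠ ⊤ := ((measure_mono hBK).trans_lt (μ.pos_lt_top K hK hKΩ)).ne
  have h2 : μ.neg B ≠ ⊤ := ((measure_mono hBK).trans_lt (μ.neg_lt_top K hK hKΩ)).ne
  have h3 := measureReal_inter_add_sdiff (μ := μ.pos) (s := B) hA h1
  have h4 := measureReal_inter_add_sdiff (μ := μ.neg) (s := B) hA h2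
  simp only [Measure.real] at h3 h4
  simp only [SignedRadon.val]
  linarith

lemma rn_le_one {μ τ : Measure (E n)} [IsFiniteMeasure μ] [IsFiniteMeasure τ] (h : μ ≤ τ) :
    ∀ᵐ x ∂τ, (μ.rnDeriv τ x).toReal ≤ 1 := by
  filter_upwards [Measure.rnDeriv_le_one_of_le h] with x hx
  exact ENNReal.toReal_le_of_le_ofReal zero_le_one (by simpa using hx)

theorem kl {Ω : Set (E n)} (hΩ : IsOpen Ω) {f : Fin 3 → E n → ℝ} {M : Fin 3 → SignedRadon Ω}
    (hR : ∀ j, RieszOn Ω (f j) (M j))
    (hn : ∀ j, ∀ᵐ x, x ∈ Ω → 0 ≤ f j x)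
    (hd : ∀ i j, i ≠ j → ∀ᵐ x, x ∈ Ω → f i x * f j x = 0)
    {ν : SignedRadon Ω} (hν : ∀ j, ν ≤ M j) {B K : Set (E n)} (hB : MeasurableSet B)
    (hK : IsCompact K) (hBK : B ⊆ K) (hKΩ : K ⊆ Ω) : ν.val B ≤ 0 := by
  obtain ⟨L, hL, hKL, hLΩ⟩ := exists_compact_between hK hΩ hKΩ
  have hLm := hL.measurableSet
  have hfp : ∀ j, IsFiniteMeasure ((M j).pos.restrict L) := fun j =>
    ⟨by rw [Measure.restrict_apply_univ]; exact (M j).pos_lt_top L hL hLΩ⟩
  have hfn : ∀ j, IsFiniteMeasure ((M j).neg.restrict L) := fun j =>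
    ⟨by rw [Measure.restrict_apply_univ]; exact (M j).neg_lt_top L hL hLΩ⟩
  set τ : Measure (E n) := Measure.sum (fun j : Fin 3 => (M j).pos.restrict L + (M j).neg.restrict L) with hτ
  have hτf : IsFiniteMeasure τ := by
    rw [hτ, Measure.sum_fintype]
    infer_instance
  have hpτ : ∀ j, (M j).pos.restrict L ≤ τ := fun j =>
    (Measure.le_add_right le_rfl).trans (Measure.le_sum (fun j : Fin 3 => (M j).pos.restrict L + (M j).neg.restrict L) j)
  have hnτ : ∀ j, (M j).neg.restrict L ≤ τ := fun j =>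
    (Measure.le_add_left le_rfl).trans (Measure.le_sum (fun j : Fin 3 => (M j).pos.restrict L + (M j).neg.restrict L) j)
  set a : Fin 3 → E n → ℝ := fun j x => (((M j).pos.restrict L).rnDeriv τ x).toReal with ha
  set b : Fin 3 → E n → ℝ := fun j x => (((M j).neg.restrict L).rnDeriv τ x).toReal with hb
  set g : Fin 3 → E n → ℝ := fun j x => min (a j x) 1 - min (b j x) 1 with hg
  have ham : ∀ j, Measurable (a j) := fun j => (Measure.measurable_rnDeriv _ _).ennreal_toReal
  have hbm : ∀ j, Measurable (b j) := fun j => (Measure.measurable_rnDeriv _ _).ennreal_toReal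
  have hgm : ∀ j, Measurable (g j) := fun j =>
    ((ham j).min measurable_const).sub ((hbm j).min measurable_const)
  have ha0 : ∀ j x, 0 ≤ a j x := fun j x => ENNReal.toReal_nonneg
  have hb0 : ∀ j x, 0 ≤ b j x := fun j x => ENNReal.toReal_nonneg
  have hgb : ∀ j x, |g j x| ≤ 1 := fun j x => by
    have h1 : 0 ≤ min (a j x) 1 := le_min (ha0 j x) zero_le_one
    have h2 : 0 ≤ min (b j x) 1 := le_min (hb0 j x) zero_le_one
    have h3 : min (a j x) 1 ≤ 1 := min_le_right _ _
    have h4 : min (b j x) 1 ≤ 1 := min_le_right _ _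
    rw [abs_le]
    constructor <;> simp only [hg] <;> linarith
  have hgae : ∀ j, ∀ᵐ x ∂τ, g j x = a j x - b j x := fun j => by
    filter_upwards [rn_le_one (hpτ j), rn_le_one (hnτ j)] with x h1 h2
    simp only [hg]
    rw [min_eq_left h1, min_eq_left h2]
  have hai : ∀ j, Integrable (a j) τ := fun j => Measure.integrable_toReal_rnDeriv
  have hbi : ∀ j, Integrable (b j) τ := fun j => Measure.integrable_toReal_rnDeriv
  -- the hypothesis of kl2
  have hl : ∀ j, LapOn (interior L) (L.indicator (f j)) (g j) τ := by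
    intro j
    refine ⟨?_, hgm j, hgb j, fun φ hφ => ?_⟩
    · exact (integrable_indicator_iff hLm).2 ((hR j).loc.integrableOn_compact_subset hLΩ hL)
    have hφ0 : ∀ x, x ∉ L → φ x = 0 := fun x hx => image_eq_zero_of_notMem_tsupport
      fun h => hx (interior_subset (hφ.sub h))
    have hΔ0 : ∀ x, x ∉ L → (Δ φ) x = 0 := fun x hx => by
      have hx' : x ∉ tsupport φ := fun h => hx (interior_subset (hφ.sub h))
      have h2 : x ∉ tsupport (iteratedFDeriv ℝ 2 φ) := fun h => hx' (tsupport_iteratedFDeriv_subset 2 h)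
      rw [lap_eq]
      simp [image_eq_zero_of_notMem_tsupport h2]
    have e1 : ∫ x, L.indicator (f j) x * (Δ φ) x = ∫ x, f j x * (Δ φ) x := by
      refine integral_congr_ae (Eventually.of_forall fun x => ?_)
      by_cases hx : x ∈ L
      · simp only [indicator_of_mem hx]
      · simp only [hΔ0 x hx, mul_zero]
    rw [e1, ← (hR j).eq φ (hφ.mono (interior_subset.trans hLΩ))]
    have e2 : ∫ x, φ x ∂(M j).pos = ∫ x, a j x * φ x ∂τ := by
      rw [← setIntegral_eq_integral_of_forall_compl_eq_zero (s := L) hφ0]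
      have := hfp j
      have := Measure.haveLebesgueDecomposition_of_sigmaFinite ((M j).pos.restrict L) τ
      exact (integral_rnDeriv_smul (μ := (M j).pos.restrict L) (ν := τ) (hpτ j).absolutelyContinuous).symm
    have e3 : ∫ x, φ x ∂(M j).neg = ∫ x, b j x * φ x ∂τ := by
      rw [← setIntegral_eq_integral_of_forall_compl_eq_zero (s := L) hφ0]
      have := hfn j
      have := Measure.haveLebesgueDecomposition_of_sigmaFinite ((M j).neg.restrict L) τ
      exact (integral_rnDeriv_smul (μ := (M j).neg.restrict L) (ν := τ) (hnτ j).absolutelyContinuous).symm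
    obtain ⟨C, hC0, hC⟩ := hφ.bdd
    rw [e2, e3, ← integral_sub]
    · refine integral_congr_ae ?_
      filter_upwards [hgae j] with x hx
      rw [hx]; ring
    · exact (hai j).mul_bdd hφ.smooth.continuous.aestronglyMeasurable (Eventually.of_forall hC)
    · exact (hbi j).mul_bdd hφ.smooth.continuous.aestronglyMeasurable (Eventually.of_forall hC)
  have hLi : interior L ⊆ Ω := interior_subset.trans hLΩ
  have key := kl2 isOpen_interior hl
    (fun j => by
      filter_upwards [hn j] with x hx hxL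
      rw [indicator_of_mem (interior_subset hxL)]
      exact hx (hLi hxL))
    (fun i j hij => by
      filter_upwards [hd i j hij] with x hx hxL
      rw [indicator_of_mem (interior_subset hxL), indicator_of_mem (interior_subset hxL)]
      exact hx (hLi hxL))
  -- values
  have hval : ∀ j, ∀ B' : Set (E n), MeasurableSet B' → B' ⊆ K → (M j).val B' = ∫ x in B', g j x ∂τ := by
    intro j B' hB' hB'K
    have hB'L : B' ⊆ L := hB'K.trans (hKL.trans interior_subset)
    have e1 : ((M j).pos B').toReal = ∫ x in B', a j x ∂τ := by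
      have := Measure.setIntegral_toReal_rnDeriv (hpτ j).absolutelyContinuous B'
      simp only [ha]
      rw [this, Measure.real, Measure.restrict_apply hB', inter_eq_left.2 hB'L]
    have e2 : ((M j).neg B').toReal = ∫ x in B', b j x ∂τ := by
      have := Measure.setIntegral_toReal_rnDeriv (hnτ j).absolutelyContinuous B'
      simp only [hb]
      rw [this, Measure.real, Measure.restrict_apply hB', inter_eq_left.2 hB'L]
    rw [SignedRadon.val, e1, e2, ← integral_sub (hai j).integrableOn (hbi j).integrableOn]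
    refine integral_congr_ae ?_
    filter_upwards [ae_restrict_of_ae (hgae j)] with x hx
    exact hx.symm
  have hneg : ∀ j, ∀ B' : Set (E n), MeasurableSet B' → B' ⊆ K → ν.val (B' ∩ {x | g j x ≤ 0}) ≤ 0 := by
    intro j B' hB' hB'K
    have hA : MeasurableSet {x | g j x ≤ 0} := measurableSet_le (hgm j) measurable_const
    have hm := hB'.inter hA
    have hs : B' ∩ {x | g j x ≤ 0} ⊆ K := inter_subset_left.trans hB'K
    refine (hν j _ K hm hK hs hKΩ).trans ?_
    rw [hval j _ hm hs]
    refine setIntegral_nonpos hm fun x hx => hx.2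
  have hA : ∀ j, MeasurableSet {x | g j x ≤ 0} := fun j => measurableSet_le (hgm j) measurable_const
  have hd0 : B \ {x | g 0 x ≤ 0} ⊆ K := sdiff_subset.trans hBK
  have hd1 : (B \ {x | g 0 x ≤ 0}) \ {x | g 1 x ≤ 0} ⊆ K := sdiff_subset.trans hd0
  have hd2 : ((B \ {x | g 0 x ≤ 0}) \ {x | g 1 x ≤ 0}) \ {x | g 2 x ≤ 0} ⊆ K := sdiff_subset.trans hd1
  rw [val_split ν hK hBK hKΩ (hA 0), val_split ν hK hd0 hKΩ (hA 1), val_split ν hK hd1 hKΩ (hA 2)]
  have h0 := hneg 0 B hB hBK
  have h1 := hneg 1 _ (hB.diff (hA 0)) hd0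
  have h2 := hneg 2 _ ((hB.diff (hA 0)).diff (hA 1)) hd1
  have h3 : ν.val (((B \ {x | g 0 x ≤ 0}) \ {x | g 1 x ≤ 0}) \ {x | g 2 x ≤ 0}) ≤ 0 := by
    have hm := ((hB.diff (hA 0)).diff (hA 1)).diff (hA 2)
    refine (hν 0 _ K hm hK hd2 hKΩ).trans ?_
    rw [hval 0 _ hm hd2]
    have hz : τ (((B \ {x | g 0 x ≤ 0}) \ {x | g 1 x ≤ 0}) \ {x | g 2 x ≤ 0}) = 0 := by
      rw [← nonpos_iff_eq_zero]
      refine (measure_mono (fun x hx => ?_)).trans (le_of_eq (ae_iff.1 key))
      obtain ⟨⟨⟨hxB, hx0⟩, hx1⟩, hx2⟩ := hx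
      simp only [mem_ofPred_eq, not_le] at hx0 hx1 hx2
      simp only [mem_ofPred_eq, Classical.not_imp, not_not]
      refine ⟨hKL (hBK hxB), fun j => ?_⟩
      fin_cases j
      · exact hx0
      · exact hx1
      · exact hx2
    rw [setIntegral_measure_zero _ hz]
  linarith

end Run7.h104.Tri
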