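import Pool.Agent.Run7.h104.Tri13
import Pool.Agent.Helper486.TP.SubmeanWeak

/-! # Subharmonic functions are locally integrable -/

set_option autoImplicit false

open MeasureTheory Set Filter Topology Metric
open scoped InnerProductSpace ContDiff Laplacian ENNReal

namespace Run7.h104.Tri

open Pool.Agent.Helper486.TP

variable {n : ℕ} {Ω : Set (E n)} {u : E n → EReal}

lemma sh_aem (hu : UpperSemicontinuousOn u Ω) (hΩ : IsOpen Ω) : AEMeasurable u (volume.restrict Ω) := by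
  refine aemeasurable_restrict_of_measurable_subtype hΩ.measurableSet ?_
  have h1 : UpperSemicontinuous (fun x : Ω => u x) := by
    intro x y hy
    have := hu x x.2 y hy
    rw [nhdsWithin_eq_map_subtype_coe x.2] at this
    exact this
  exact h1.measurable

lemma sh_bdd (hu : UpperSemicontinuousOn u Ω) (ht : ∀ x ∈ Ω, u x < ⊤) {K : Set (E n)}
    (hK : IsCompact K) (hKΩ : K ⊆ Ω) : ∃ C : ℝ, 0 ≤ C ∧ ∀ x ∈ K, u x ≤ (C : EReal) := by
  rcases K.eq_empty_or_nonempty with rfl | hne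
  · exact ⟨0, le_rfl, by simp⟩
  obtain ⟨a, haK, ha⟩ := (hu.mono hKΩ).exists_isMaxOn hne hK
  refine ⟨max (u a).toReal 0, le_max_right _ _, fun x hx => (ha hx).trans ?_⟩
  refine (EReal.le_coe_toReal (ht a (hKΩ haK)).ne).trans ?_
  exact EReal.coe_le_coe_iff.2 (le_max_left _ _)

lemma sh_pos (hu : UpperSemicontinuousOn u Ω) (ht : ∀ x ∈ Ω, u x < ⊤) {x : E n} {r : ℝ}
    (hr : closedBall x r ⊆ Ω) : ∫⁻ y in ball x r, (u y).toENNReal < ⊤ := by
  obtain ⟨C, hC0, hC⟩ := sh_bdd hu ht (isCompact_closedBall x r) hr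
  calc ∫⁻ y in ball x r, (u y).toENNReal ≤ ∫⁻ _y in ball x r, ENNReal.ofReal C := by
        refine setLIntegral_mono measurable_const fun y hy => ?_
        have h1 := EReal.toENNReal_le_toENNReal (hC y (ball_subset_closedBall hy))
        rwa [EReal.toENNReal_of_ne_top (EReal.coe_ne_top C), EReal.toReal_coe] at h1
    _ = ENNReal.ofReal C * volume (ball x r) := by rw [setLIntegral_const]
    _ < ⊤ := ENNReal.mul_lt_top ENNReal.ofReal_lt_top measure_ball_lt_top

lemma sh_neg_of_ne (hu : Subharmonic Ω u) {x : E n} {r : ℝ} (hr : 0 < r) (hrΩ : closedBall x r ⊆ Ω)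
    (hx : u x ≠ ⊥) : ∫⁻ y in ball x r, (-u y).toENNReal < ⊤ := by
  by_contra h
  rw [not_lt, top_le_iff] at h
  have h1 := hu.submean x r hr hrΩ
  rw [h, EReal.coe_ennreal_top, sub_eq_add_neg, EReal.neg_top, EReal.add_bot, le_bot_iff] at h1
  have h2 : u x ≠ ⊤ := (hu.lt_top x (hrΩ (mem_closedBall_self hr.le))).ne
  have h3 : volume (ball x r) ≠ ⊤ := measure_ball_lt_top.ne
  lift u x to ℝ using ⟨h2, hx⟩ with t
  have h4 : ((volume (ball x r) : ℝ≥0∞) : EReal) = (((volume (ball x r)).toReal : ℝ) : EReal) := by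
    rw [← EReal.coe_toReal (x := ((volume (ball x r) : ℝ≥0∞) : EReal)), EReal.toReal_coe_ennreal]
    · simpa using h3
    · exact EReal.coe_ennreal_ne_bot _
  rw [h4, ← EReal.coe_mul] at h1
  exact EReal.coe_ne_bot _ h1

lemma sh_exists_ne {x : E n} {r : ℝ} (hr : 0 < r) (h : ∫⁻ y in ball x r, (-u y).toENNReal < ⊤) :
    ∃ y ∈ ball x r, u y ≠ ⊥ := by
  by_contra hc
  push Not at hc
  have h1 : ∫⁻ y in ball x r, (-u y).toENNReal = ⊤ := by
    rw [setLIntegral_congr_fun (g := fun _ => ⊤) measurableSet_ball (fun y hy => by rw [hc y hy]; simp),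
      setLIntegral_const]
    exact ENNReal.top_mul (measure_ball_pos volume x hr).ne'
  exact h.ne h1

/-- local integrability of the negative part -/
lemma sh_neg (hΩ : IsOpen Ω) (hc : IsPreconnected Ω) (hu : Subharmonic Ω u) {x : E n} (hx : x ∈ Ω) :
    ∃ r > 0, closedBall x r ⊆ Ω ∧ ∫⁻ y in ball x r, (-u y).toENNReal < ⊤ := by
  set G : Set (E n) := {x | ∃ r > 0, closedBall x r ⊆ Ω ∧ ∫⁻ y in ball x r, (-u y).toENNReal < ⊤} with hG
  have hGo : IsOpen G := by
    rw [Metric.isOpen_iff]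
    rintro y ⟨r, hr, hr1, hr2⟩
    refine ⟨r / 2, half_pos hr, fun z hz => ⟨r / 2, half_pos hr, ?_, ?_⟩⟩
    · refine (closedBall_subset_closedBall' ?_).trans hr1
      rw [mem_ball] at hz; linarith
    · refine (lintegral_mono_set (ball_subset_ball' ?_)).trans_lt hr2
      rw [mem_ball] at hz; linarith
  have hGne : (Ω ∩ G).Nonempty := by
    obtain ⟨y, hy, hyb⟩ := hu.ne_bot
    obtain ⟨r, hr, hrΩ⟩ := Metric.nhds_basis_closedBall.mem_iff.1 (hΩ.mem_nhds hy)
    exact ⟨y, hy, r, hr, hrΩ, sh_neg_of_ne hu hr hrΩ hyb⟩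
  refine hc.subset_of_closure_inter_subset hGo hGne ?_ hx
  rintro z ⟨hzG, hzΩ⟩
  obtain ⟨R, hR, hRΩ⟩ := Metric.nhds_basis_closedBall.mem_iff.1 (hΩ.mem_nhds hzΩ)
  obtain ⟨y, hyG, hyz⟩ := Metric.mem_closure_iff.1 hzG (R / 6) (by positivity)
  obtain ⟨ρ, hρ, hρΩ, hρi⟩ := hyG
  set t := min ρ (R / 6) with ht
  have ht0 : 0 < t := lt_min hρ (by positivity)
  obtain ⟨w, hw, hwb⟩ := sh_exists_ne ht0
    ((lintegral_mono_set (ball_subset_ball (min_le_left ρ (R / 6)))).trans_lt hρi)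
  have hwz : dist w z < R / 3 := by
    rw [mem_ball] at hw
    have h1 := dist_triangle w y z
    have h2 : t ≤ R / 6 := min_le_right _ _
    rw [dist_comm] at hyz
    linarith
  have h1 : closedBall w (2 * R / 3) ⊆ Ω :=
    (closedBall_subset_closedBall' (by linarith)).trans hRΩ
  have h2 := sh_neg_of_ne hu (by positivity) h1 hwb
  refine ⟨R / 3, by positivity, (closedBall_subset_closedBall (by linarith)).trans hRΩ, ?_⟩
  refine (lintegral_mono_set (ball_subset_ball' ?_)).trans_lt h2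
  rw [dist_comm]; linarith

lemma abs_part (z : EReal) (h1 : z ≠ ⊤) (h2 : z ≠ ⊥) :
    ‖z.toReal‖ₑ ≤ z.toENNReal + (-z).toENNReal := by
  lift z to ℝ using ⟨h1, h2⟩
  rw [EReal.toReal_coe, EReal.toENNReal_of_ne_top (EReal.coe_ne_top z), ← EReal.coe_neg,
    EReal.toENNReal_of_ne_top (EReal.coe_ne_top _), EReal.toReal_coe, EReal.toReal_coe]
  rcases le_total 0 z with h | h
  · rw [Real.enorm_eq_ofReal h]
    exact le_self_add
  · rw [← enorm_neg, Real.enorm_eq_ofReal (neg_nonneg.2 h)]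
    exact le_add_self

lemma sh_ae_local (hΩ : IsOpen Ω) (hu : Subharmonic Ω u) {x : E n} {r : ℝ} (hr : closedBall x r ⊆ Ω)
    (h : ∫⁻ y in ball x r, (-u y).toENNReal < ⊤) :
    ∀ᵐ y ∂(volume.restrict (ball x r)), u y ≠ ⊥ := by
  have hm : AEMeasurable (fun y => (-u y).toENNReal) (volume.restrict (ball x r)) := by
    have h1 := (sh_aem hu.usc hΩ).mono_set (ball_subset_closedBall.trans hr)
    have h2 : Measurable (fun z : EReal => (-z).toENNReal) :=
      measurable_ereal_toENNReal.comp measurable_neg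
    exact h2.comp_aemeasurable h1
  filter_upwards [ae_lt_top' hm h.ne] with y hy hyb
  rw [hyb] at hy
  simp at hy

lemma sh_ae (hΩ : IsOpen Ω) (hc : IsPreconnected Ω) (hu : Subharmonic Ω u) :
    ∀ᵐ x, x ∈ Ω → u x ≠ ⊥ := by
  have h : volume {x | x ∈ Ω ∧ u x = ⊥} = 0 := by
    refine measure_null_of_locally_null _ fun x hx => ?_
    obtain ⟨r, hr, hr1, hr2⟩ := sh_neg hΩ hc hu hx.1
    have h3 := sh_ae_local hΩ hu hr1 hr2
    rw [ae_restrict_iff' measurableSet_ball] at h3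
    refine ⟨{x | x ∈ Ω ∧ u x = ⊥} ∩ ball x r, inter_mem_nhdsWithin _ (ball_mem_nhds x hr), ?_⟩
    refine measure_mono_null (fun y hy => ?_) (ae_iff.1 h3)
    simp only [mem_ofPred_eq, Classical.not_imp, not_not]
    exact ⟨hy.2, hy.1.2⟩
  rw [ae_iff]
  refine measure_mono_null (fun y hy => ?_) h
  simpa using hy

lemma sh_int_ball (hΩ : IsOpen Ω) (hc : IsPreconnected Ω) (hu : Subharmonic Ω u) {x : E n} {r : ℝ}
    (hr : closedBall x r ⊆ Ω) (h : ∫⁻ y in ball x r, (-u y).toENNReal < ⊤) :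
    IntegrableOn (fun y => (u y).toReal) (ball x r) := by
  have hm : AEMeasurable u (volume.restrict (ball x r)) :=
    (sh_aem hu.usc hΩ).mono_set (ball_subset_closedBall.trans hr)
  refine ⟨(measurable_ereal_toReal.comp_aemeasurable hm).aestronglyMeasurable, ?_⟩
  have hle : ∀ᵐ y ∂(volume.restrict (ball x r)),
      ‖(u y).toReal‖ₑ ≤ (u y).toENNReal + (-u y).toENNReal := by
    filter_upwards [ae_restrict_of_ae (sh_ae hΩ hc hu), ae_restrict_mem measurableSet_ball] with y hy hyb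
    have hyΩ := hr (ball_subset_closedBall hyb)
    exact abs_part _ (hu.lt_top y hyΩ).ne (hy hyΩ)
  refine (lintegral_mono_ae hle).trans_lt ?_
  have hm' : AEMeasurable (fun y => (u y).toENNReal) (volume.restrict (ball x r)) :=
    measurable_ereal_toENNReal.comp_aemeasurable hm
  rw [lintegral_add_left' hm']
  exact ENNReal.add_lt_top.2 ⟨sh_pos hu.usc hu.lt_top hr, h⟩

lemma sh_loc (hΩ : IsOpen Ω) (hc : IsPreconnected Ω) (hu : Subharmonic Ω u) :
    LocallyIntegrableOn (fun y => (u y).toReal) Ω := by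
  intro x hx
  obtain ⟨r, hr, hr1, hr2⟩ := sh_neg hΩ hc hu hx
  exact ⟨ball x r, mem_nhdsWithin_of_mem_nhds (ball_mem_nhds x hr), sh_int_ball hΩ hc hu hr1 hr2⟩

/-- the polar sets are null sets -/
lemma polar_null {Z : Set (E n)} (hZ : Polar Z) : volume Z = 0 := by
  refine measure_null_of_locally_null _ fun x hx => ?_
  obtain ⟨r, hr, v, hv, hvZ⟩ := hZ x hx
  refine ⟨Z ∩ ball x r, inter_mem_nhdsWithin _ (ball_mem_nhds x hr), ?_⟩
  refine measure_mono_null (fun y hy => ?_) (ae_iff.1 (sh_ae isOpen_ball (convex_ball x r).isPreconnected hv))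
  simp only [mem_ofPred_eq, Classical.not_imp, not_not]
  exact ⟨hy.2, hvZ y hy⟩

/-- real functions with the sub-mean value property almost everywhere -/
structure SubL (Ω : Set (E n)) (f : E n → ℝ) : Prop where
  loc : LocallyIntegrableOn f Ω
  mean : ∀ r : ℝ, 0 < r → ∀ᵐ x ∂(volume : Measure (E n)), closedBall x r ⊆ Ω →
      (volume (ball x r)).toReal * f x ≤ ∫ y in ball x r, f y

lemma ofReal_part (z : EReal) (h1 : z ≠ ⊤) : ENNReal.ofReal z.toReal = z.toENNReal :=
  (EReal.toENNReal_of_ne_top h1).symm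

lemma ofReal_part' (z : EReal) (h1 : z ≠ ⊥) : ENNReal.ofReal (-z.toReal) = (-z).toENNReal := by
  rw [EReal.toENNReal_of_ne_top, EReal.toReal_neg_eq]
  rwa [Ne, EReal.neg_eq_top_iff]

lemma coe_of_ne_top {a : ℝ≥0∞} (h : a ≠ ⊤) : (a : EReal) = ((a.toReal : ℝ) : EReal) := by
  rw [← EReal.coe_toReal (x := (a : EReal)), EReal.toReal_coe_ennreal]
  · simpa using h
  · exact EReal.coe_ennreal_ne_bot _

/-- subharmonic functions belong to the class -/
lemma sh_subL (hΩ : IsOpen Ω) (hc : IsPreconnected Ω) (hu : Subharmonic Ω u) :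
    SubL Ω (fun x => (u x).toReal) := by
  refine ⟨sh_loc hΩ hc hu, fun r hr => ?_⟩
  filter_upwards [sh_ae hΩ hc hu] with x hx hxr
  have hxΩ : x ∈ Ω := hxr (mem_closedBall_self hr.le)
  have hxb := hx hxΩ
  have h1 := hu.submean x r hr hxr
  have hp := sh_pos hu.usc hu.lt_top hxr
  have hn := sh_neg_of_ne hu hr hxr hxb
  have hi := sh_int_ball hΩ hc hu hxr hn
  rw [integral_eq_lintegral_pos_part_sub_lintegral_neg_part hi]
  have e1 : ∫⁻ y in ball x r, ENNReal.ofReal (u y).toReal = ∫⁻ y in ball x r, (u y).toENNReal := by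
    refine setLIntegral_congr_fun measurableSet_ball fun y hy => ?_
    exact ofReal_part _ (hu.lt_top y (hxr (ball_subset_closedBall hy))).ne
  have e2 : ∫⁻ y in ball x r, ENNReal.ofReal (-(u y).toReal) = ∫⁻ y in ball x r, (-u y).toENNReal := by
    refine lintegral_congr_ae ?_
    filter_upwards [ae_restrict_of_ae (sh_ae hΩ hc hu), ae_restrict_mem measurableSet_ball] with y hy hyb
    exact ofReal_part' _ (hy (hxr (ball_subset_closedBall hyb)))
  rw [e1, e2]
  have h2 : u x ≠ ⊤ := (hu.lt_top x hxΩ).ne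
  have h3 : volume (ball x r) ≠ ⊤ := measure_ball_lt_top.ne
  rw [coe_of_ne_top h3, coe_of_ne_top hp.ne, coe_of_ne_top hn.ne] at h1
  revert h1
  lift u x to ℝ using ⟨h2, hxb⟩ with t
  intro h1
  rw [← EReal.coe_mul, ← EReal.coe_sub, EReal.coe_le_coe_iff] at h1
  rw [EReal.toReal_coe]
  exact h1

end Run7.h104.Tri
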