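import Pool.Agent.Run7.h104.Tri14

/-! # Riesz measures of functions with the sub-mean value property -/

set_option autoImplicit false

open MeasureTheory Set Filter Topology Metric
open scoped InnerProductSpace ContDiff Laplacian ENNReal CompactlySupported

namespace Run7.h104.Tri

open Pool.Agent.Helper486.TP

/-- a positive functional on a rich space of test functions is a measure -/
theorem exists_riesz {X V : Type*} [TopologicalSpace X] [LocallyCompactSpace X] [T2Space X]
    [MeasurableSpace X] [BorelSpace X] [AddCommGroup V] [Module ℝ V] (R : V →ₗ[ℝ] C_c(X, ℝ))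
    (Λ : V →ₗ[ℝ] ℝ) (hpos : ∀ v, (∀ x, 0 ≤ R v x) → 0 ≤ Λ v)
    (hdom : ∀ g : C_c(X, ℝ), ∃ v, ∀ x, g x ≤ R v x) :
    ∃ μ : Measure X, IsFiniteMeasureOnCompacts μ ∧ ∀ v, ∫ x, R v x ∂μ = Λ v := by
  have hker : LinearMap.ker R ≤ LinearMap.ker Λ := by
    intro v hv
    rw [LinearMap.mem_ker] at hv ⊢
    have h1 := hpos v fun c => by rw [hv]; exact le_rfl
    have h2 := hpos (-v) fun c => by
      rw [map_neg, hv]; simp
    rw [map_neg] at h2
    linarith
  let f : C_c(X, ℝ) →ₗ.[ℝ] ℝ :=
    { domain := LinearMap.range R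
      toFun := ((LinearMap.ker R).liftQ Λ hker).comp
        (R.quotKerEquivRange.symm : LinearMap.range R →ₗ[ℝ] (V ⧸ LinearMap.ker R)) }
  have hf : ∀ v (h : R v ∈ LinearMap.range R), f ⟨R v, h⟩ = Λ v := by
    intro v h
    change ((LinearMap.ker R).liftQ Λ hker) (R.quotKerEquivRange.symm ⟨R v, h⟩) = Λ v
    rw [LinearMap.quotKerEquivRange_symm_apply_image]
    simp
  let s : PointedCone ℝ (C_c(X, ℝ)) :=
    { carrier := {g | ∀ x, 0 ≤ g x}
      add_mem' := fun {a b} ha hb x => add_nonneg (ha x) (hb x)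
      zero_mem' := fun x => le_refl _
      smul_mem' := fun c g hg x => mul_nonneg c.2 (hg x) }
  obtain ⟨g, hgf, hgs⟩ := riesz_extension s f (by
      rintro ⟨x, v, rfl⟩ hx
      exact (hpos v fun c => hx c).trans_eq (hf v ⟨v, rfl⟩).symm)
    (by
      intro y
      obtain ⟨v, hv⟩ := hdom (-y)
      refine ⟨⟨R v, ⟨v, rfl⟩⟩, fun x => ?_⟩
      have h2 := hv x
      change 0 ≤ (R v + y : C_c(X, ℝ)) x
      rw [CompactlySupportedContinuousMap.add_apply]
      rw [CompactlySupportedContinuousMap.neg_apply] at h2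
      linarith)
  let L : C_c(X, ℝ) →ₚ[ℝ] ℝ := PositiveLinearMap.mk₀ g fun x hx => hgs x fun c => hx c
  have hL : ∀ v, L (R v) = Λ v := by
    intro v
    exact (hgf ⟨R v, ⟨v, rfl⟩⟩).trans (hf v ⟨v, rfl⟩)
  refine ⟨RealRMK.rieszMeasure L, inferInstance, fun v => ?_⟩
  rw [← hL v, ← RealRMK.integral_rieszMeasure L (R v)]

variable {n : ℕ}

/-- the space of test functions -/
def testSub (Ω : Set (E n)) : Submodule ℝ (E n → ℝ) where
  carrier := {φ | TestOn Ω φ}
  add_mem' := fun h h' => TestOn.add h h'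
  zero_mem' := ⟨contDiff_const, HasCompactSupport.intro isCompact_empty (fun _ _ => rfl), by
    have : tsupport (0 : E n → ℝ) = ∅ := tsupport_eq_empty_iff.2 rfl
    rw [this]; exact empty_subset _⟩
  smul_mem' := fun c φ h => TestOn.const_mul h c

lemma sub_cpt {Ω : Set (E n)} {φ : E n → ℝ} (h : TestOn Ω φ) :
    HasCompactSupport (fun x : Ω => φ x) := by
  refine HasCompactSupport.intro (K := Subtype.val ⁻¹' (tsupport φ)) ?_ fun x hx => ?_
  · refine (Topology.IsInducing.subtypeVal.isCompact_preimage_iff ?_).2 h.cpt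
    rw [Subtype.range_coe]
    exact h.sub
  · exact image_eq_zero_of_notMem_tsupport (f := φ) hx

/-- restriction of test functions -/
noncomputable def resL (Ω : Set (E n)) : testSub Ω →ₗ[ℝ] C_c(Ω, ℝ) where
  toFun φ := ⟨⟨fun x : Ω => φ.1 x, φ.2.smooth.continuous.comp continuous_subtype_val⟩, sub_cpt φ.2⟩
  map_add' φ ψ := by ext x; rfl
  map_smul' c φ := by ext x; rfl

lemma loc_mul_lap {Ω : Set (E n)} {f : E n → ℝ} (hf : LocallyIntegrableOn f Ω) {φ : E n → ℝ}
    (h : TestOn Ω φ) : Integrable (fun x => f x * (Δ φ) x) := by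
  have hK : IsCompact (tsupport φ) := h.cpt
  have h1 : Integrable ((tsupport φ).indicator f) :=
    (integrable_indicator_iff hK.measurableSet).2 (hf.integrableOn_compact_subset h.sub hK)
  refine (h.integrable_mul_lap h1).congr (Eventually.of_forall fun x => ?_)
  by_cases hx : x ∈ tsupport φ
  · simp only [indicator_of_mem hx]
  · have h2 : x ∉ tsupport (iteratedFDeriv ℝ 2 φ) := fun h => hx (tsupport_iteratedFDeriv_subset 2 h)
    have h3 : (Δ φ) x = 0 := by
      rw [lap_eq]
      simp [image_eq_zero_of_notMem_tsupport h2]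
    simp only [h3, mul_zero]

/-- the distributional Laplacian as a functional -/
noncomputable def lapL {Ω : Set (E n)} {f : E n → ℝ} (hf : LocallyIntegrableOn f Ω) :
    testSub Ω →ₗ[ℝ] ℝ where
  toFun φ := ∫ x, f x * (Δ φ.1) x
  map_add' φ ψ := by
    rw [← integral_add (loc_mul_lap hf φ.2) (loc_mul_lap hf ψ.2)]
    refine integral_congr_ae (Eventually.of_forall fun x => ?_)
    have := lap_add φ.2.smooth ψ.2.smooth x
    change f x * (Δ (fun x => φ.1 x + ψ.1 x)) x = f x * (Δ φ.1) x + f x * (Δ ψ.1) x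
    rw [this]; ring
  map_smul' c φ := by
    rw [RingHom.id_apply, smul_eq_mul, ← integral_const_mul]
    refine integral_congr_ae (Eventually.of_forall fun x => ?_)
    have := lap_const_mul c φ.2.smooth x
    change f x * (Δ (fun x => c * φ.1 x)) x = c * (f x * (Δ φ.1) x)
    rw [this]; ring

theorem subL_riesz (hn : 0 < n) {Ω : Set (E n)} (hΩ : IsOpen Ω) {f : E n → ℝ} (hf : SubL Ω f) :
    ∃ μ : Measure (E n), (∀ K, IsCompact K → K ⊆ Ω → μ K < ⊤) ∧
      ∀ φ, TestOn Ω φ → ∫ x, φ x ∂μ = ∫ x, f x * (Δ φ) x := by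
  have : LocallyCompactSpace Ω := hΩ.locallyCompactSpace
  obtain ⟨μ, hμ1, hμ2⟩ := exists_riesz (resL Ω) (lapL hf.loc)
    (by
      intro φ hφ
      refine submean_weak hn hΩ hf.loc hf.mean φ.1 φ.2 fun x => ?_
      by_cases hx : x ∈ Ω
      · exact hφ ⟨x, hx⟩
      · rw [image_eq_zero_of_notMem_tsupport (f := φ.1) fun h => hx (φ.2.sub h)])
    (by
      intro g
      have hK : IsCompact (Subtype.val '' (tsupport g) : Set (E n)) :=
        g.hasCompactSupport.isCompact.image continuous_subtype_val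
      have hKΩ : (Subtype.val '' (tsupport g) : Set (E n)) ⊆ Ω := by
        rintro _ ⟨x, _, rfl⟩; exact x.2
      obtain ⟨L, hL, hKL, hLΩ⟩ := exists_compact_between hK hΩ hKΩ
      obtain ⟨ζ, hζ, hζ0, hζ1, hζb⟩ := exists_cutoff (s := (interior L)ᶜ) (t := Subtype.val '' (tsupport g))
        isOpen_interior.isClosed_compl hK.isClosed (disjoint_compl_left_iff_subset.2 hKL)
      obtain ⟨C, hC⟩ := g.hasCompactSupport.exists_bound_of_continuous g.continuous
      have hζs : tsupport ζ ⊆ L := by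
        refine closure_minimal (fun x hx => ?_) hL.isClosed
        by_contra h
        exact hx (hζ0 x fun h' => h (interior_subset h'))
      have hT : TestOn Ω ζ := ⟨hζ, hL.of_isClosed_subset (isClosed_tsupport _) hζs, hζs.trans hLΩ⟩
      refine ⟨⟨fun x => max C 0 * ζ x, hT.const_mul _⟩, fun x => ?_⟩
      change g x ≤ max C 0 * ζ x
      by_cases hx : x ∈ tsupport g
      · rw [hζ1 x ⟨x, hx, rfl⟩, mul_one]
        exact (le_abs_self _).trans ((hC x).trans (le_max_left _ _))
      · rw [image_eq_zero_of_notMem_tsupport (f := g) hx]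
        exact mul_nonneg (le_max_right _ _) (hζb x).1)
  refine ⟨μ.map Subtype.val, fun K hK hKΩ => ?_, fun φ hφ => ?_⟩
  · rw [Measure.map_apply measurable_subtype_coe hK.measurableSet]
    have h1 : IsCompact (Subtype.val ⁻¹' K : Set Ω) := by
      refine (Topology.IsInducing.subtypeVal.isCompact_preimage_iff ?_).2 hK
      rw [Subtype.range_coe]
      exact hKΩ
    exact h1.measure_lt_top
  · rw [(MeasurableEmbedding.subtype_coe hΩ.measurableSet).integral_map]
    exact hμ2 ⟨φ, hφ⟩

/-! ### Algebra of the class -/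

lemma SubL.add {Ω : Set (E n)} {f g : E n → ℝ} (hf : SubL Ω f) (hg : SubL Ω g) :
    SubL Ω (fun x => f x + g x) := by
  refine ⟨hf.loc.add hg.loc, fun r hr => ?_⟩
  filter_upwards [hf.mean r hr, hg.mean r hr] with x h1 h2 hx
  have i1 : IntegrableOn f (ball x r) :=
    (hf.loc.integrableOn_compact_subset hx (isCompact_closedBall x r)).mono_set ball_subset_closedBall
  have i2 : IntegrableOn g (ball x r) :=
    (hg.loc.integrableOn_compact_subset hx (isCompact_closedBall x r)).mono_set ball_subset_closedBall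
  rw [integral_add i1 i2, mul_add]
  exact add_le_add (h1 hx) (h2 hx)

lemma SubL.const_mul {Ω : Set (E n)} {f : E n → ℝ} (hf : SubL Ω f) {c : ℝ} (hc : 0 ≤ c) :
    SubL Ω (fun x => c * f x) := by
  refine ⟨fun x hx => ?_, fun r hr => ?_⟩
  · obtain ⟨V, hV, hfV⟩ := hf.loc x hx
    exact ⟨V, hV, hfV.const_mul c⟩
  filter_upwards [hf.mean r hr] with x h1 hx
  rw [integral_const_mul]
  calc (volume (ball x r)).toReal * (c * f x) = c * ((volume (ball x r)).toReal * f x) := by ring
    _ ≤ _ := mul_le_mul_of_nonneg_left (h1 hx) hc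

lemma SubL.max {Ω : Set (E n)} (hΩ : IsOpen Ω) {f g : E n → ℝ} (hf : SubL Ω f) (hg : SubL Ω g) :
    SubL Ω (fun x => max (f x) (g x)) := by
  have hloc : LocallyIntegrableOn (fun x => Max.max (f x) (g x)) Ω := by
    rw [locallyIntegrableOn_iff hΩ.isLocallyClosed]
    intro K hKΩ hK
    exact (hf.loc.integrableOn_compact_subset hKΩ hK).sup (hg.loc.integrableOn_compact_subset hKΩ hK)
  refine ⟨hloc, fun r hr => ?_⟩
  filter_upwards [hf.mean r hr, hg.mean r hr] with x h1 h2 hx
  have i1 : IntegrableOn f (ball x r) :=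
    (hf.loc.integrableOn_compact_subset hx (isCompact_closedBall x r)).mono_set ball_subset_closedBall
  have i2 : IntegrableOn g (ball x r) :=
    (hg.loc.integrableOn_compact_subset hx (isCompact_closedBall x r)).mono_set ball_subset_closedBall
  have i3 : IntegrableOn (fun x => Max.max (f x) (g x)) (ball x r) := i1.sup i2
  rw [mul_max_of_nonneg _ _ ENNReal.toReal_nonneg]
  refine max_le ((h1 hx).trans ?_) ((h2 hx).trans ?_)
  · exact integral_mono i1 i3 fun y => le_max_left _ _
  · exact integral_mono i2 i3 fun y => le_max_right _ _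

lemma SubL.congr {Ω : Set (E n)} (hΩ : IsOpen Ω) {f g : E n → ℝ} (hf : SubL Ω f)
    (h : ∀ᵐ x, x ∈ Ω → f x = g x) : SubL Ω g := by
  refine ⟨?_, fun r hr => ?_⟩
  · intro x hx
    obtain ⟨V, hV, hfV⟩ := hf.loc x hx
    refine ⟨V ∩ Ω, inter_mem hV self_mem_nhdsWithin, ?_⟩
    have h1 : IntegrableOn f (V ∩ Ω) := hfV.mono_set inter_subset_left
    refine h1.congr ?_
    have h2 : ∀ᵐ x ∂(volume.restrict Ω), f x = g x := by
      rw [ae_restrict_iff' hΩ.measurableSet]; exact h
    exact ae_mono (Measure.restrict_mono inter_subset_right le_rfl) h2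
  · filter_upwards [hf.mean r hr, h] with x h1 h2 hx
    rw [← h2 (hx (mem_closedBall_self hr.le))]
    refine (h1 hx).trans (le_of_eq (setIntegral_congr_ae measurableSet_ball ?_))
    filter_upwards [h] with y hy hyb
    exact hy (hx (ball_subset_closedBall hyb))

end Run7.h104.Tri
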