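import Pool.Agent.Run7.h104.Tri15

/-! # Lower envelopes -/

set_option autoImplicit false

open MeasureTheory Set Filter Topology Metric
open scoped InnerProductSpace ContDiff Laplacian ENNReal

namespace Run7.h104.Tri

open Pool.Agent.Helper486.TP

variable {n : ℕ} {Ω : Set (E n)}

/-- differences of functions of the class -/
def Del (Ω : Set (E n)) (f : E n → ℝ) : Prop :=
  ∃ u v : E n → ℝ, SubL Ω u ∧ SubL Ω v ∧ ∀ᵐ x, x ∈ Ω → f x = u x - v x

lemma Del.congr {f g : E n → ℝ} (hf : Del Ω f) (h : ∀ᵐ x, x ∈ Ω → f x = g x) : Del Ω g := by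
  obtain ⟨u, v, hu, hv, huv⟩ := hf
  refine ⟨u, v, hu, hv, ?_⟩
  filter_upwards [h, huv] with x h1 h2 hx
  rw [← h1 hx, h2 hx]

lemma Del.inf (hΩ : IsOpen Ω) {f g : E n → ℝ} (hf : Del Ω f) (hg : Del Ω g) :
    Del Ω (fun x => min (f x) (g x)) := by
  obtain ⟨u1, v1, hu1, hv1, h1⟩ := hf
  obtain ⟨u2, v2, hu2, hv2, h2⟩ := hg
  refine ⟨_, _, hu1.add hu2, (hu1.add hv2).max hΩ (hu2.add hv1), ?_⟩
  filter_upwards [h1, h2] with x h1 h2 hx
  rw [h1 hx, h2 hx]
  rcases le_total (u1 x - v1 x) (u2 x - v2 x) with h | h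
  · rw [min_eq_left h, max_eq_right (by linarith)]; ring
  · rw [min_eq_right h, max_eq_left (by linarith)]; ring

lemma Del.const_mul {f : E n → ℝ} (hf : Del Ω f) {c : ℝ} (hc : 0 ≤ c) : Del Ω (fun x => c * f x) := by
  obtain ⟨u, v, hu, hv, huv⟩ := hf
  refine ⟨_, _, hu.const_mul hc, hv.const_mul hc, ?_⟩
  filter_upwards [huv] with x h hx
  rw [h hx]; ring

lemma Del.loc (hΩ : IsOpen Ω) {f : E n → ℝ} (hf : Del Ω f) : LocallyIntegrableOn f Ω := by
  obtain ⟨u, v, hu, hv, huv⟩ := hf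
  intro x hx
  obtain ⟨V, hV, hfV⟩ := (hu.loc.sub hv.loc) x hx
  refine ⟨V ∩ Ω, inter_mem hV self_mem_nhdsWithin, ?_⟩
  have h1 : IntegrableOn (u - v) (V ∩ Ω) := hfV.mono_set inter_subset_left
  refine h1.congr ?_
  have h2 : ∀ᵐ x ∂(volume.restrict Ω), (u - v) x = f x := by
    rw [ae_restrict_iff' hΩ.measurableSet]
    filter_upwards [huv] with y hy hyΩ
    exact (hy hyΩ).symm
  exact ae_mono (Measure.restrict_mono inter_subset_right le_rfl) h2

lemma Del.riesz (hn : 0 < n) (hΩ : IsOpen Ω) {f : E n → ℝ} (hf : Del Ω f) :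
    ∃ μ : SignedRadon Ω, RieszOn Ω f μ := by
  have hloc := hf.loc hΩ
  obtain ⟨u, v, hu, hv, huv⟩ := hf
  obtain ⟨μ, hμ, hμ'⟩ := subL_riesz hn hΩ hu
  obtain ⟨ν, hν, hν'⟩ := subL_riesz hn hΩ hv
  refine ⟨⟨μ, ν, hμ, hν⟩, hloc, fun φ hφ => ?_⟩
  change (∫ x, φ x ∂μ) - (∫ x, φ x ∂ν) = _
  rw [hμ' φ hφ, hν' φ hφ, ← integral_sub (loc_mul_lap hu.loc hφ) (loc_mul_lap hv.loc hφ)]
  refine integral_congr_ae ?_
  filter_upwards [huv] with x hx
  by_cases hxΩ : x ∈ Ω
  · rw [hx hxΩ]; ring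
  · have h3 : (Δ φ) x = 0 := by
      have h2 : x ∉ tsupport (iteratedFDeriv ℝ 2 φ) := fun h =>
        hxΩ (hφ.sub (tsupport_iteratedFDeriv_subset 2 h))
      rw [lap_eq]
      simp [image_eq_zero_of_notMem_tsupport h2]
    rw [h3]; ring

/-! ### Differences of signed Radon measures -/

/-- difference -/
noncomputable def dif (μ ν : SignedRadon Ω) : SignedRadon Ω where
  pos := μ.pos + ν.neg
  neg := μ.neg + ν.pos
  pos_lt_top K hK hKΩ := by
    rw [Measure.add_apply]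
    exact ENNReal.add_lt_top.2 ⟨μ.pos_lt_top K hK hKΩ, ν.neg_lt_top K hK hKΩ⟩
  neg_lt_top K hK hKΩ := by
    rw [Measure.add_apply]
    exact ENNReal.add_lt_top.2 ⟨μ.neg_lt_top K hK hKΩ, ν.pos_lt_top K hK hKΩ⟩

lemma dif_val (μ ν : SignedRadon Ω) {B K : Set (E n)} (hK : IsCompact K) (hBK : B ⊆ K) (hKΩ : K ⊆ Ω) :
    (dif μ ν).val B = μ.val B - ν.val B := by
  have h1 : μ.pos B ≠ ⊤ := ((measure_mono hBK).trans_lt (μ.pos_lt_top K hK hKΩ)).ne
  have h2 : μ.neg B ≠ ⊤ := ((measure_mono hBK).trans_lt (μ.neg_lt_top K hK hKΩ)).ne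
  have h3 : ν.pos B ≠ ⊤ := ((measure_mono hBK).trans_lt (ν.pos_lt_top K hK hKΩ)).ne
  have h4 : ν.neg B ≠ ⊤ := ((measure_mono hBK).trans_lt (ν.neg_lt_top K hK hKΩ)).ne
  simp only [SignedRadon.val, dif, Measure.add_apply]
  rw [ENNReal.toReal_add h1 h4, ENNReal.toReal_add h2 h3]
  ring

lemma test_int {φ : E n → ℝ} (h : TestOn Ω φ) {μ : Measure (E n)}
    (hμ : ∀ K, IsCompact K → K ⊆ Ω → μ K < ⊤) : Integrable φ μ := by
  have hK : IsCompact (tsupport φ) := h.cpt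
  rw [← integrableOn_iff_integrable_of_support_subset (subset_tsupport φ)]
  obtain ⟨C, hC0, hC⟩ := h.bdd
  exact Measure.integrableOn_of_bounded (M := C) (hμ _ hK h.sub).ne
    h.smooth.continuous.aestronglyMeasurable (Eventually.of_forall hC)

lemma RieszOn.dif {f g : E n → ℝ} {μ ν : SignedRadon Ω} (hf : RieszOn Ω f μ) (hg : RieszOn Ω g ν) :
    RieszOn Ω (fun x => f x - g x) (dif μ ν) := by
  refine ⟨hf.loc.sub hg.loc, fun φ hφ => ?_⟩
  change (∫ x, φ x ∂(μ.pos + ν.neg)) - (∫ x, φ x ∂(μ.neg + ν.pos)) = _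
  rw [integral_add_measure (test_int hφ μ.pos_lt_top) (test_int hφ ν.neg_lt_top),
    integral_add_measure (test_int hφ μ.neg_lt_top) (test_int hφ ν.pos_lt_top)]
  have h1 := hf.eq φ hφ
  have h2 := hg.eq φ hφ
  have h3 : ∫ x, (f x - g x) * (Δ φ) x = (∫ x, f x * (Δ φ) x) - ∫ x, g x * (Δ φ) x := by
    rw [← integral_sub (loc_mul_lap hf.loc hφ) (loc_mul_lap hg.loc hφ)]
    exact integral_congr_ae (Eventually.of_forall fun x => by simp only; ring)
  rw [h3, ← h1, ← h2]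
  ring

/-- three functions above `f`, two of which equal `f` at each point -/
theorem step (hΩ : IsOpen Ω) {f : E n → ℝ} {g : Fin 3 → E n → ℝ} {μ ν : SignedRadon Ω}
    {M : Fin 3 → SignedRadon Ω} (hf : RieszOn Ω f μ) (hg : ∀ j, RieszOn Ω (g j) (M j))
    (h0 : ∀ j, ∀ᵐ x, x ∈ Ω → f x ≤ g j x)
    (h1 : ∀ i j, i ≠ j → ∀ᵐ x, x ∈ Ω → f x = g i x ∨ f x = g j x)
    (hν : ∀ j, ν ≤ M j) : ν ≤ μ := by
  intro B K hB hK hBK hKΩ
  have key := kl hΩ (f := fun j x => g j x - f x) (M := fun j => dif (M j) μ) (ν := dif ν μ)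
    (fun j => (hg j).dif hf)
    (fun j => by
      filter_upwards [h0 j] with x hx hxΩ
      exact sub_nonneg.2 (hx hxΩ))
    (fun i j hij => by
      filter_upwards [h1 i j hij] with x hx hxΩ
      rcases hx hxΩ with h | h
      · rw [h, sub_self, zero_mul]
      · rw [h, sub_self, mul_zero])
    (fun j B K hB hK hBK hKΩ => by
      rw [dif_val _ _ hK hBK hKΩ, dif_val _ _ hK hBK hKΩ]
      exact sub_le_sub_right (hν j B K hB hK hBK hKΩ) _)
    hB hK hBK hKΩ
  rw [dif_val _ _ hK hBK hKΩ] at key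
  linarith

/-- uniqueness of the Riesz measure -/
theorem riesz_unique (hΩ : IsOpen Ω) {f : E n → ℝ} {μ ν : SignedRadon Ω} (hf : RieszOn Ω f μ)
    (hg : RieszOn Ω f ν) : ν ≤ μ :=
  step hΩ hf (g := fun _ => f) (M := fun _ => ν) (fun _ => hg)
    (fun _ => Eventually.of_forall fun _ _ => le_rfl)
    (fun _ _ _ => Eventually.of_forall fun _ _ => Or.inl rfl) (fun _ => le_rfl)

/-! ### Finite minima -/

lemma toReal_inf {a b : EReal} (ha : a ≠ ⊤) (ha' : a ≠ ⊥) (hb : b ≠ ⊤) (hb' : b ≠ ⊥) :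
    (a ⊓ b).toReal = min a.toReal b.toReal := by
  rcases le_total a b with h | h
  · rw [inf_eq_left.2 h, min_eq_left (EReal.toReal_le_toReal h ha' hb)]
  · rw [inf_eq_right.2 h, min_eq_right (EReal.toReal_le_toReal h hb' ha)]

lemma inf_ne {m : ℕ} {w : Fin m → EReal} (hw : ∀ j, w j ≠ ⊤ ∧ w j ≠ ⊥) {S : Finset (Fin m)}
    (hS : S.Nonempty) : S.inf w ≠ ⊤ ∧ S.inf w ≠ ⊥ := by
  obtain ⟨j, hj, hj'⟩ := Finset.exists_mem_eq_inf S hS w
  rw [hj']
  exact hw j

lemma del_inf {m : ℕ} (hΩ : IsOpen Ω) {w : Fin m → E n → EReal}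
    (hw : ∀ j, Del Ω (fun x => (w j x).toReal))
    (hg : ∀ᵐ x, x ∈ Ω → ∀ j, w j x ≠ ⊤ ∧ w j x ≠ ⊥) {S : Finset (Fin m)} (hS : S.Nonempty) :
    Del Ω (fun x => (S.inf (fun j => w j x)).toReal) := by
  induction hS using Finset.Nonempty.cons_induction with
  | singleton a =>
    simp only [Finset.inf_singleton]
    exact hw a
  | cons a s ha hs ih =>
    refine ((hw a).inf hΩ ih).congr ?_
    filter_upwards [hg] with x hx hxΩ
    have h1 := inf_ne (hx hxΩ) hs
    rw [Finset.inf_cons]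
    exact (toReal_inf (hx hxΩ a).1 (hx hxΩ a).2 h1.1 h1.2).symm

lemma erase_eq {m : ℕ} (w : Fin m → EReal) {S : Finset (Fin m)} (hS : S.Nonempty) {a b : Fin m}
    (hab : a ≠ b) : (S.erase a).inf w = S.inf w ∨ (S.erase b).inf w = S.inf w := by
  obtain ⟨j, hj, hj'⟩ := Finset.exists_mem_eq_inf S hS w
  by_cases h : j = a
  · right
    refine le_antisymm ?_ (Finset.inf_mono (Finset.erase_subset _ _))
    rw [hj']
    exact Finset.inf_le (Finset.mem_erase.2 ⟨h.trans_ne hab, hj⟩)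
  · left
    refine le_antisymm ?_ (Finset.inf_mono (Finset.erase_subset _ _))
    rw [hj']
    exact Finset.inf_le (Finset.mem_erase.2 ⟨h, hj⟩)

theorem envelope {m : ℕ} (hn : 0 < n) (hΩ : IsOpen Ω) {w : Fin m → E n → EReal}
    (hw : ∀ j, Del Ω (fun x => (w j x).toReal))
    (hg : ∀ᵐ x, x ∈ Ω → ∀ j, w j x ≠ ⊤ ∧ w j x ≠ ⊥) {c : ℝ} (hc : 0 < c) {ν : SignedRadon Ω}
    (h2 : ∀ j k, j < k → ∃ μ : SignedRadon Ω,
      RieszOn Ω (fun x => c * (w j x ⊓ w k x).toReal) μ ∧ ν ≤ μ) :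
    ∀ N : ℕ, ∀ S : Finset (Fin m), S.card = N + 2 →
      ∃ μ : SignedRadon Ω, RieszOn Ω (fun x => c * (S.inf (fun j => w j x)).toReal) μ ∧ ν ≤ μ := by
  intro N
  induction N with
  | zero =>
    intro S hS
    obtain ⟨j, k, hjk, rfl⟩ := Finset.card_eq_two.1 hS
    rcases lt_or_gt_of_ne hjk with h | h
    · obtain ⟨μ, h3, h4⟩ := h2 j k h
      exact ⟨μ, by simpa using h3, h4⟩
    · obtain ⟨μ, h3, h4⟩ := h2 k j h
      refine ⟨μ, ?_, h4⟩
      simpa [inf_comm] using h3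
  | succ N ih =>
    intro S hS
    have hSne : S.Nonempty := Finset.card_pos.1 (by omega)
    obtain ⟨a, b, d, ha, hb, hd, hab, had, hbd⟩ := (Finset.two_lt_card_iff).1 (show 2 < S.card by omega)
    obtain ⟨μ, hμ⟩ := ((del_inf hΩ hw hg hSne).const_mul hc.le).riesz hn hΩ
    refine ⟨μ, hμ, ?_⟩
    have hcard : ∀ e ∈ S, (S.erase e).card = N + 2 := fun e he => by
      rw [Finset.card_erase_of_mem he]; omega
    set p : Fin 3 → Fin m := ![a, b, d] with hp
    have hpS : ∀ i, p i ∈ S := by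
      intro i; fin_cases i
      · exact ha
      · exact hb
      · exact hd
    have hpne : ∀ i j, i ≠ j → p i ≠ p j := by
      intro i j hij
      fin_cases i <;> fin_cases j <;>
        first
          | exact (hij rfl).elim
          | exact hab
          | exact hab.symm
          | exact had
          | exact had.symm
          | exact hbd
          | exact hbd.symm
    choose M hM1 hM2 using fun i => ih (S.erase (p i)) (hcard _ (hpS i))
    refine step hΩ hμ (g := fun i x => c * ((S.erase (p i)).inf (fun j => w j x)).toReal) (M := M)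
      hM1 ?_ ?_ hM2
    · intro i
      filter_upwards [hg] with x hx hxΩ
      have hne : (S.erase (p i)).Nonempty := Finset.card_pos.1 (by rw [hcard _ (hpS i)]; omega)
      refine mul_le_mul_of_nonneg_left ?_ hc.le
      exact EReal.toReal_le_toReal (Finset.inf_mono (Finset.erase_subset _ _))
        (inf_ne (hx hxΩ) hSne).2 (inf_ne (hx hxΩ) hne).1
    · intro i j hij
      refine Eventually.of_forall fun x _ => ?_
      rcases erase_eq (fun j => w j x) hSne (hpne i j hij) with h | h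
      · left; simp only [h]
      · right; simp only [h]

end Run7.h104.Tri
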