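import Pool.Agent.Run7.h104.Tri16

/-! # Greatest lower bounds of signed Radon measures; δ-subharmonic functions -/

set_option autoImplicit false

open MeasureTheory Set Filter Topology Metric
open scoped InnerProductSpace ContDiff Laplacian ENNReal

namespace Run7.h104.Tri

open Pool.Agent.Helper486.TP

lemma le_sub_add' {α : Type*} [MeasurableSpace α] (a r : Measure α) [IsFiniteMeasure a]
    [IsFiniteMeasure r] : a ≤ (a - r) + r := by
  obtain ⟨s, hs, h1, h2⟩ := hahn_decomposition a r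
  have h3 : r.restrict s ≤ a.restrict s := by
    refine Measure.le_iff.2 fun t ht => ?_
    rw [Measure.restrict_apply ht, Measure.restrict_apply ht]
    exact h1 _ (ht.inter hs) inter_subset_right
  have h4 := Measure.sub_add_cancel_of_le h3
  rw [← Measure.restrict_sub_eq_restrict_sub_restrict hs] at h4
  refine Measure.le_iff.2 fun t ht => ?_
  have e1 : a (t ∩ s) = (a - r) (t ∩ s) + r (t ∩ s) := by
    have := congrArg (fun μ : Measure α => μ t) h4
    simp only [Measure.add_apply, Measure.restrict_apply ht] at this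
    exact this.symm
  have e2 : a (t \ s) ≤ r (t \ s) := h2 _ (ht.diff hs) fun x hx => hx.2
  rw [Measure.add_apply, ← measure_inter_add_sdiff (μ := a) t hs,
    ← measure_inter_add_sdiff (μ := (a - r)) t hs, ← measure_inter_add_sdiff (μ := r) t hs, e1]
  calc (a - r) (t ∩ s) + r (t ∩ s) + a (t \ s) ≤ (a - r) (t ∩ s) + r (t ∩ s) + r (t \ s) :=
        add_le_add_right e2 _
    _ ≤ (a - r) (t ∩ s) + (a - r) (t \ s) + (r (t ∩ s) + r (t \ s)) := by
        rw [add_assoc]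
        refine add_le_add_left ?_ _
        exact le_self_add

variable {n : ℕ} {Ω : Set (E n)}

lemma sum_neg_lt {ι : Type*} (M : ι → SignedRadon Ω) (S : Finset ι) {K : Set (E n)} (hK : IsCompact K)
    (hKΩ : K ⊆ Ω) : (∑ j ∈ S, (M j).neg) K < ⊤ := by
  rw [Measure.finsetSum_apply]
  exact ENNReal.sum_lt_top.2 fun j _ => (M j).neg_lt_top K hK hKΩ

theorem exists_glb {ι : Type*} [Fintype ι] [DecidableEq ι] [Nonempty ι] (M : ι → SignedRadon Ω) :
    ∃ γ : SignedRadon Ω, IsGLB (range M) γ := by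
  set b : ι → Measure (E n) := fun i => (M i).pos + ∑ j ∈ Finset.univ.erase i, (M j).neg with hb
  set q : Measure (E n) := ⨅ i, b i with hq
  set N : Measure (E n) := ∑ j, (M j).neg with hN
  have hbK : ∀ i K, IsCompact K → K ⊆ Ω → b i K < ⊤ := by
    intro i K hK hKΩ
    simp only [hb, Measure.add_apply]
    exact ENNReal.add_lt_top.2 ⟨(M i).pos_lt_top K hK hKΩ, sum_neg_lt M _ hK hKΩ⟩
  have hqK : ∀ K, IsCompact K → K ⊆ Ω → q K < ⊤ := fun K hK hKΩ =>
    (Measure.le_iff'.1 (iInf_le b (Classical.arbitrary ι)) K).trans_lt (hbK _ K hK hKΩ)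
  have hNK : ∀ K, IsCompact K → K ⊆ Ω → N K < ⊤ := fun K hK hKΩ => sum_neg_lt M _ hK hKΩ
  have hNi : ∀ i, N = (M i).neg + ∑ j ∈ Finset.univ.erase i, (M j).neg := fun i => by
    exact (Finset.add_sum_erase Finset.univ (fun j => (M j).neg) (Finset.mem_univ i)).symm
  refine ⟨⟨q, N, hqK, hNK⟩, ?_, ?_⟩
  · rintro _ ⟨i, rfl⟩
    intro B K hB hK hBK hKΩ
    have h1 : q B ≤ b i B := Measure.le_iff'.1 (iInf_le b i) B
    have h2 : b i B ≠ ⊤ := ((measure_mono hBK).trans_lt (hbK i K hK hKΩ)).ne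
    have h3 : (∑ j ∈ Finset.univ.erase i, (M j).neg) B ≠ ⊤ :=
      ((measure_mono hBK).trans_lt (sum_neg_lt M _ hK hKΩ)).ne
    have h4 : (M i).pos B ≠ ⊤ := ((measure_mono hBK).trans_lt ((M i).pos_lt_top K hK hKΩ)).ne
    have h5 : (M i).neg B ≠ ⊤ := ((measure_mono hBK).trans_lt ((M i).neg_lt_top K hK hKΩ)).ne
    have h6 := ENNReal.toReal_mono h2 h1
    change (q B).toReal - (N B).toReal ≤ ((M i).pos B).toReal - ((M i).neg B).toReal
    rw [hNi i, Measure.add_apply, ENNReal.toReal_add h5 h3]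
    simp only [hb, Measure.add_apply] at h6
    rw [ENNReal.toReal_add h4 h3] at h6
    linarith
  · intro κ hκ B K hB hK hBK hKΩ
    have hfa : IsFiniteMeasure ((κ.pos + N).restrict K) :=
      ⟨by rw [Measure.restrict_apply_univ, Measure.add_apply]
          exact ENNReal.add_lt_top.2 ⟨κ.pos_lt_top K hK hKΩ, hNK K hK hKΩ⟩⟩
    have hfr : IsFiniteMeasure (κ.neg.restrict K) :=
      ⟨by rw [Measure.restrict_apply_univ]; exact κ.neg_lt_top K hK hKΩ⟩
    have h1 : ∀ i, (κ.pos + N).restrict K ≤ (b i).restrict K + κ.neg.restrict K := by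
      intro i
      refine Measure.le_iff.2 fun t ht => ?_
      rw [Measure.add_apply, Measure.restrict_apply ht, Measure.restrict_apply ht,
        Measure.restrict_apply ht]
      have hts : t ∩ K ⊆ K := inter_subset_right
      have h2 := hκ ⟨i, rfl⟩ (t ∩ K) K (ht.inter hK.measurableSet) hK hts hKΩ
      have f1 : κ.pos (t ∩ K) ≠ ⊤ := ((measure_mono hts).trans_lt (κ.pos_lt_top K hK hKΩ)).ne
      have f2 : κ.neg (t ∩ K) ≠ ⊤ := ((measure_mono hts).trans_lt (κ.neg_lt_top K hK hKΩ)).ne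
      have f3 : (M i).pos (t ∩ K) ≠ ⊤ := ((measure_mono hts).trans_lt ((M i).pos_lt_top K hK hKΩ)).ne
      have f4 : (M i).neg (t ∩ K) ≠ ⊤ := ((measure_mono hts).trans_lt ((M i).neg_lt_top K hK hKΩ)).ne
      have f5 : (∑ j ∈ Finset.univ.erase i, (M j).neg) (t ∩ K) ≠ ⊤ :=
        ((measure_mono hts).trans_lt (sum_neg_lt M _ hK hKΩ)).ne
      have f6 : N (t ∩ K) ≠ ⊤ := ((measure_mono hts).trans_lt (hNK K hK hKΩ)).ne
      simp only [hb, Measure.add_apply]
      rw [← ENNReal.toReal_le_toReal (ENNReal.add_ne_top.2 ⟨f1, f6⟩)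
        (ENNReal.add_ne_top.2 ⟨ENNReal.add_ne_top.2 ⟨f3, f5⟩, f2⟩), ENNReal.toReal_add f1 f6,
        ENNReal.toReal_add (ENNReal.add_ne_top.2 ⟨f3, f5⟩) f2, ENNReal.toReal_add f3 f5, hNi i,
        Measure.add_apply, ENNReal.toReal_add f4 f5]
      simp only [SignedRadon.val] at h2
      linarith
    have h2 : (κ.pos + N).restrict K - κ.neg.restrict K ≤ q := by
      refine le_iInf fun i => ?_
      exact (Measure.sub_le_of_le_add (h1 i)).trans Measure.restrict_le_self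
    have h3 := le_sub_add' ((κ.pos + N).restrict K) (κ.neg.restrict K)
    have h4 := Measure.le_iff.1 h3 B hB
    have h5 := Measure.le_iff.1 h2 B hB
    rw [Measure.add_apply, Measure.restrict_apply hB, Measure.restrict_apply hB,
      inter_eq_left.2 hBK, Measure.add_apply] at h4
    have h6 : κ.pos B + N B ≤ q B + κ.neg B := h4.trans (add_le_add_left h5 _)
    have f1 : κ.pos B ≠ ⊤ := ((measure_mono hBK).trans_lt (κ.pos_lt_top K hK hKΩ)).ne
    have f2 : κ.neg B ≠ ⊤ := ((measure_mono hBK).trans_lt (κ.neg_lt_top K hK hKΩ)).ne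
    have f3 : q B ≠ ⊤ := ((measure_mono hBK).trans_lt (hqK K hK hKΩ)).ne
    have f4 : N B ≠ ⊤ := ((measure_mono hBK).trans_lt (hNK K hK hKΩ)).ne
    rw [← ENNReal.toReal_le_toReal (ENNReal.add_ne_top.2 ⟨f1, f4⟩) (ENNReal.add_ne_top.2 ⟨f3, f2⟩),
      ENNReal.toReal_add f1 f4, ENNReal.toReal_add f3 f2] at h6
    change (κ.pos B).toReal - (κ.neg B).toReal ≤ (q B).toReal - (N B).toReal
    linarith

/-! ### δ-subharmonic functions -/

lemma delta_del (hΩ : IsOpen Ω) (hc : IsPreconnected Ω) {w : E n → EReal} (hw : DeltaSubharmonic Ω w) :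
    Del Ω (fun x => (w x).toReal) ∧ ∀ᵐ x, x ∈ Ω → w x ≠ ⊤ ∧ w x ≠ ⊥ := by
  obtain ⟨u, v, Z, hu, hv, hZ, h⟩ := hw
  have hZ0 : ∀ᵐ x, x ∉ Z := by
    rw [ae_iff]
    simpa using polar_null hZ
  have key : ∀ᵐ x, x ∈ Ω → (w x).toReal = (u x).toReal - (v x).toReal ∧ w x ≠ ⊤ ∧ w x ≠ ⊥ := by
    filter_upwards [hZ0] with x hxZ hxΩ
    obtain ⟨h1, h2, h3⟩ := h x ⟨hxΩ, hxZ⟩
    have h4 := (hu.lt_top x hxΩ).ne
    have h5 := (hv.lt_top x hxΩ).ne
    rw [h3]
    clear h3
    revert h1 h2 h4 h5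
    generalize u x = a
    generalize v x = b
    intro h1 h2 h4 h5
    lift a to ℝ using ⟨h4, h1⟩
    lift b to ℝ using ⟨h5, h2⟩
    rw [← EReal.coe_sub]
    exact ⟨by simp only [EReal.toReal_coe], EReal.coe_ne_top _, EReal.coe_ne_bot _⟩
  refine ⟨⟨_, _, sh_subL hΩ hc hu, sh_subL hΩ hc hv, ?_⟩, ?_⟩
  · filter_upwards [key] with x hx hxΩ using (hx hxΩ).1
  · filter_upwards [key] with x hx hxΩ using (hx hxΩ).2

lemma isRiesz_iff {c : ℝ} (hc : 0 < c) {w : E n → EReal} {μ : SignedRadon Ω} :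
    IsRiesz c Ω w μ ↔ RieszOn Ω (fun x => c * (w x).toReal) μ := by
  have hint : ∀ φ : E n → ℝ, ∫ x, c * (w x).toReal * (Δ φ) x = c * ∫ x, (w x).toReal * (Δ φ) x := by
    intro φ
    rw [← integral_const_mul]
    exact integral_congr_ae (Eventually.of_forall fun x => by simp only; ring)
  constructor
  · rintro ⟨h1, h2⟩
    refine ⟨fun x hx => ?_, fun φ hφ => ?_⟩
    · obtain ⟨V, hV, hfV⟩ := h1 x hx
      exact ⟨V, hV, hfV.const_mul c⟩
    · rw [h2 φ hφ.smooth hφ.cpt hφ.sub, hint]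
  · rintro ⟨h1, h2⟩
    refine ⟨fun x hx => ?_, fun φ h3 h4 h5 => ?_⟩
    · obtain ⟨V, hV, hfV⟩ := h1 x hx
      refine ⟨V, hV, ?_⟩
      have := hfV.const_mul c⁻¹
      refine this.congr (Eventually.of_forall fun y => ?_)
      simp only
      field_simp
    · rw [h2 φ ⟨h3, h4, h5⟩, hint]

end Run7.h104.Tri
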