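import Pool.Agent.Run7.h104.Tri17
import Pool.Agent.Helper486.TP.BDefs

/-! # The Newtonian kernel has the super-mean value property -/

set_option autoImplicit false

open MeasureTheory Set Filter Topology Metric
open scoped InnerProductSpace ContDiff Laplacian ENNReal

namespace Run7.h104.Tri

open Pool.Agent.Helper486.TP

variable {n : ℕ}

/-- profile -/
noncomputable def pp (k : ℕ) (t : ℝ) : ℝ := t * expNegInvGlue ((k + 1) * t)
noncomputable def pq (k : ℕ) (t : ℝ) : ℝ :=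
  expNegInvGlue ((k + 1) * t) + ((k + 1) * t) * eg ((k + 1) * t)

lemma pp_contDiff (k : ℕ) : ContDiff ℝ ∞ (pp k) :=
  contDiff_id.mul (gl_contDiff.comp (contDiff_const.mul contDiff_id))

lemma pq_contDiff (k : ℕ) : ContDiff ℝ ∞ (pq k) :=
  (gl_contDiff.comp (contDiff_const.mul contDiff_id)).add
    ((contDiff_const.mul contDiff_id).mul (eg_contDiff.comp (contDiff_const.mul contDiff_id)))

lemma pp_deriv (k : ℕ) (t : ℝ) : HasDerivAt (pp k) (pq k t) t := by
  have h1 : HasDerivAt (fun t : ℝ => ((k : ℝ) + 1) * t) ((k : ℝ) + 1) t := by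
    simpa using (hasDerivAt_id t).const_mul ((k : ℝ) + 1)
  have h2 : HasDerivAt (fun t : ℝ => expNegInvGlue (((k : ℝ) + 1) * t)) (eg (((k : ℝ) + 1) * t) * ((k : ℝ) + 1)) t :=
    (hasDerivAt_gl _).comp t h1
  have h3 := (hasDerivAt_id t).mul h2
  refine h3.congr_deriv ?_
  simp only [pq, id]
  ring

lemma eg_eq {t : ℝ} (ht : 0 < t) : eg t = Real.exp (-t⁻¹) * (t ^ 2)⁻¹ := by
  have h1 : HasDerivAt (fun t : ℝ => Real.exp (-t⁻¹)) (Real.exp (-t⁻¹) * (-(-(t ^ 2)⁻¹))) t :=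
    ((hasDerivAt_inv ht.ne').neg).exp
  have h2 : expNegInvGlue =ᶠ[𝓝 t] fun t : ℝ => Real.exp (-t⁻¹) := by
    filter_upwards [lt_mem_nhds ht] with s hs
    simp [expNegInvGlue, not_le.2 hs]
  have h3 : eg t = Real.exp (-t⁻¹) * (-(-(t ^ 2)⁻¹)) := (h1.congr_of_eventuallyEq h2).deriv
  rw [h3, neg_neg]

lemma pq_eq (k : ℕ) {t : ℝ} (ht : 0 < t) :
    pq k t = Real.exp (-(((k : ℝ) + 1) * t)⁻¹) * (1 + (((k : ℝ) + 1) * t)⁻¹) := by
  have hs : 0 < ((k : ℝ) + 1) * t := by positivity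
  rw [pq, eg_eq hs]
  simp only [expNegInvGlue, not_le.2 hs, if_false]
  field_simp

lemma pq_zero (k : ℕ) {t : ℝ} (ht : t ≤ 0) : pq k t = 0 := by
  have hs : ((k : ℝ) + 1) * t ≤ 0 := mul_nonpos_of_nonneg_of_nonpos (by positivity) ht
  rw [pq, eg_zero hs, expNegInvGlue.zero_of_nonpos hs]
  ring

lemma pp_zero (k : ℕ) {t : ℝ} (ht : t ≤ 0) : pp k t = 0 := by
  have hs : ((k : ℝ) + 1) * t ≤ 0 := mul_nonpos_of_nonneg_of_nonpos (by positivity) ht
  rw [pp, expNegInvGlue.zero_of_nonpos hs, mul_zero]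

lemma pp_nonneg (k : ℕ) (t : ℝ) : 0 ≤ pp k t := by
  rcases le_total t 0 with h | h
  · rw [pp_zero k h]
  · exact mul_nonneg h (expNegInvGlue.nonneg _)

lemma pq_nonneg (k : ℕ) (t : ℝ) : 0 ≤ pq k t := by
  rcases le_or_gt t 0 with h | h
  · rw [pq_zero k h]
  · rw [pq_eq k h]; positivity

lemma pq_le_one (k : ℕ) (t : ℝ) : pq k t ≤ 1 := by
  rcases le_or_gt t 0 with h | h
  · rw [pq_zero k h]; norm_num
  · rw [pq_eq k h, Real.exp_neg]
    have h1 := Real.add_one_le_exp ((((k : ℝ) + 1) * t)⁻¹)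
    rw [inv_mul_le_one₀ (Real.exp_pos _)]
    linarith

lemma pq_tendsto {t : ℝ} (ht : 0 < t) : Tendsto (fun k => pq k t) atTop (𝓝 1) := by
  have h1 : Tendsto (fun k : ℕ => (((k : ℝ) + 1) * t)⁻¹) atTop (𝓝 0) := by
    refine tendsto_inv_atTop_zero.comp ?_
    exact (tendsto_natCast_atTop_atTop.atTop_add tendsto_const_nhds).atTop_mul_const ht
  have h2 : Tendsto (fun k : ℕ => Real.exp (-(((k : ℝ) + 1) * t)⁻¹) * (1 + (((k : ℝ) + 1) * t)⁻¹))
      atTop (𝓝 (Real.exp (-0) * (1 + 0))) :=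
    ((Real.continuous_exp.tendsto _).comp h1.neg).mul (h1.const_add 1)
  simp only [neg_zero, Real.exp_zero, add_zero, mul_one] at h2
  exact h2.congr fun k => (pq_eq k ht).symm

noncomputable def jH (k : ℕ) (x : E n) : ℝ := pp k (1 - ‖x‖ ^ 2)
noncomputable def jR (k : ℕ) (x : E n) : ℝ := 2 * pq k (1 - ‖x‖ ^ 2)

lemma jH_contDiff (k : ℕ) : ContDiff ℝ ∞ (jH (n := n) k) := (pp_contDiff k).comp sq_contDiff
lemma jR_contDiff (k : ℕ) : ContDiff ℝ ∞ (jR (n := n) k) := contDiff_const.mul ((pq_contDiff k).comp sq_contDiff)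

lemma jH_fderiv (k : ℕ) (x v : E n) : fderiv ℝ (jH (n := n) k) x v = -(jR k x * ⟪x, v⟫_ℝ) := by
  have h1 := (pp_deriv k (1 - ‖x‖ ^ 2)).comp_hasFDerivAt x (hasFDerivAt_sq x)
  have h2 : fderiv ℝ (jH (n := n) k) x = _ := h1.fderiv
  rw [h2]
  simp [jR]
  ring

lemma jsq {x : E n} (hx : x ∉ ball (0 : E n) 1) : (1 : ℝ) - ‖x‖ ^ 2 ≤ 0 := by
  rw [mem_ball_zero_iff, not_lt] at hx
  nlinarith

lemma jH_cpt (k : ℕ) : HasCompactSupport (jH (n := n) k) :=
  HasCompactSupport.intro (isCompact_closedBall 0 1) fun _ hx =>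
    pp_zero k (jsq fun h => hx (ball_subset_closedBall h))

lemma jR_zero (k : ℕ) {x : E n} (hx : x ∉ ball (0 : E n) 1) : jR k x = 0 := by
  rw [jR, pq_zero k (jsq hx), mul_zero]

lemma jR_cpt (k : ℕ) : HasCompactSupport (jR (n := n) k) :=
  HasCompactSupport.intro (isCompact_closedBall 0 1) fun _ hx =>
    jR_zero k fun h => hx (ball_subset_closedBall h)

/-- the radial derivative of a superharmonic function against the kernel -/
lemma rad_neg {w : E n → ℝ} (hw : ContDiff ℝ ∞ w) (hΔ : ∀ z, (Δ w) z ≤ 0) (k : ℕ) :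
    ∫ z, jR k z * fderiv ℝ w z z ≤ 0 := by
  have hD : ∀ v : E n, ContDiff ℝ ∞ (fun z => fderiv ℝ w z v) := fun v =>
    (hw.fderiv_right (m := ∞) (by norm_cast)).clm_apply contDiff_const
  have h1 : ∀ i : Fin n, ∫ z, fderiv ℝ w z (EuclideanSpace.basisFun (Fin n) ℝ i) * fderiv ℝ (jH k) z (EuclideanSpace.basisFun (Fin n) ℝ i) =
      -∫ z, fderiv ℝ (fun z => fderiv ℝ w z (EuclideanSpace.basisFun (Fin n) ℝ i)) z (EuclideanSpace.basisFun (Fin n) ℝ i) * jH k z := by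
    intro i
    exact int_parts _ _ ((hD _).of_le (by norm_cast)) ((jH_contDiff k).of_le (by norm_cast)) (jH_cpt k) _
  have h2 : ∀ z, jR k z * fderiv ℝ w z z =
      -∑ i, fderiv ℝ w z (EuclideanSpace.basisFun (Fin n) ℝ i) * fderiv ℝ (jH k) z (EuclideanSpace.basisFun (Fin n) ℝ i) := by
    intro z
    have e : z = ∑ i, z i • EuclideanSpace.basisFun (Fin n) ℝ i := by
      have := (EuclideanSpace.basisFun (Fin n) ℝ).sum_repr z
      simpa using this.symm
    have e2 : fderiv ℝ w z (∑ i, z i • EuclideanSpace.basisFun (Fin n) ℝ i) =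
        ∑ i, z i * fderiv ℝ w z (EuclideanSpace.basisFun (Fin n) ℝ i) := by
      rw [map_sum]
      apply Finset.sum_congr rfl
      intro i _
      rw [map_smul, smul_eq_mul]
    have e3 : fderiv ℝ w z z = ∑ i, z i * fderiv ℝ w z (EuclideanSpace.basisFun (Fin n) ℝ i) := by
      rw [← e2, ← e]
    rw [e3, Finset.mul_sum, ← Finset.sum_neg_distrib]
    refine Finset.sum_congr rfl fun i _ => ?_
    rw [jH_fderiv]
    simp [EuclideanSpace.inner_single_right]
    ring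
  have hi : ∀ i : Fin n, Integrable (fun z => fderiv ℝ w z (EuclideanSpace.basisFun (Fin n) ℝ i) * fderiv ℝ (jH k) z (EuclideanSpace.basisFun (Fin n) ℝ i)) := by
    intro i
    refine Continuous.integrable_of_hasCompactSupport ?_ ?_
    · exact (hD _).continuous.mul (((jH_contDiff k).fderiv_right (m := ∞) (by norm_cast)).clm_apply contDiff_const).continuous
    · exact ((jH_cpt k).fderiv_apply (𝕜 := ℝ) _).mul_left
  have hi2 : ∀ i : Fin n, Integrable (fun z => fderiv ℝ (fun z => fderiv ℝ w z (EuclideanSpace.basisFun (Fin n) ℝ i)) z (EuclideanSpace.basisFun (Fin n) ℝ i) * jH k z) := by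
    intro i
    refine Continuous.integrable_of_hasCompactSupport ?_ ?_
    · exact (((hD _).fderiv_right (m := ∞) (by norm_cast)).clm_apply contDiff_const).continuous.mul (jH_contDiff k).continuous
    · exact (jH_cpt k).mul_left
  simp_rw [h2]
  rw [integral_neg, integral_finsetSum _ fun i _ => hi i]
  simp_rw [h1]
  rw [Finset.sum_neg_distrib, neg_neg, ← integral_finsetSum _ fun i _ => hi2 i]
  refine integral_nonpos fun z => ?_
  change ∑ i, fderiv ℝ (fun z => fderiv ℝ w z (EuclideanSpace.basisFun (Fin n) ℝ i)) z (EuclideanSpace.basisFun (Fin n) ℝ i) * jH k z ≤ 0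
  rw [← Finset.sum_mul, ← nl_lap_eq hw]
  exact mul_nonpos_of_nonpos_of_nonneg (hΔ z) (pp_nonneg _ _)

end Run7.h104.Tri
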