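import Pool.Agent.Run7.h104.Tri18

/-! # Super-mean value property over balls -/

set_option autoImplicit false

open MeasureTheory Set Filter Topology Metric
open scoped InnerProductSpace ContDiff Laplacian ENNReal

namespace Run7.h104.Tri

open Pool.Agent.Helper486.TP

variable {n : ℕ}

lemma ker_mean {v : E n → ℝ} (hv : ContDiff ℝ ∞ v) (hΔ : ∀ z, (Δ v) z ≤ 0) (y : E n) {r : ℝ}
    (hr : 0 < r) (k : ℕ) :
    ∫ z, jR k z * (v (y + r • z) - v y) ≤ 0 := by
  have hfd : Continuous (fun p : E n × ℝ => fderiv ℝ v (y + p.2 • p.1) p.1) := by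
    have h1 : Continuous (fderiv ℝ v) := (hv.fderiv_right (m := ∞) (by norm_cast)).continuous
    have h2 : Continuous (fun p : E n × ℝ => y + p.2 • p.1) := by fun_prop
    exact (h1.comp h2).clm_apply continuous_fst
  have hG : Continuous (fun p : E n × ℝ => jR k p.1 * fderiv ℝ v (y + p.2 • p.1) p.1) :=
    ((jR_contDiff k).continuous.comp continuous_fst).mul hfd
  have h1 : ∀ z : E n, jR k z * (v (y + r • z) - v y) =
      ∫ t in (0 : ℝ)..r, jR k z * fderiv ℝ v (y + t • z) z := by
    intro z
    rw [intervalIntegral.integral_const_mul]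
    congr 1
    have hd : ∀ t ∈ uIcc 0 r, HasDerivAt (fun t : ℝ => v (y + t • z)) (fderiv ℝ v (y + t • z) z) t := by
      intro t _
      have a1 : HasDerivAt (fun t : ℝ => y + t • z) z t := by
        simpa using ((hasDerivAt_id t).smul_const z).const_add y
      have a2 : HasFDerivAt v (fderiv ℝ v (y + t • z)) (y + t • z) :=
        ((hv.differentiable (by simp)) _).hasFDerivAt
      exact HasFDerivAt.comp_hasDerivAt (l := v) (f := fun t : ℝ => y + t • z) t a2 a1
    have hc : Continuous (fun t : ℝ => fderiv ℝ v (y + t • z) z) :=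
      hfd.comp (Continuous.prodMk continuous_const continuous_id)
    have := intervalIntegral.integral_eq_sub_of_hasDerivAt hd (hc.intervalIntegrable 0 r)
    rw [this, zero_smul, add_zero]
  simp_rw [h1, intervalIntegral.integral_of_le hr.le]
  have hset : ∫ z, ∫ t in Ioc 0 r, jR k z * fderiv ℝ v (y + t • z) z =
      ∫ z in closedBall (0 : E n) 1, ∫ t in Ioc 0 r, jR k z * fderiv ℝ v (y + t • z) z := by
    rw [setIntegral_eq_integral_of_forall_compl_eq_zero]
    intro z hz
    have : jR k z = 0 := jR_zero k fun h => hz (ball_subset_closedBall h)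
    simp [this]
  rw [hset]
  have hint : Integrable (Function.uncurry fun (z : E n) (t : ℝ) => jR k z * fderiv ℝ v (y + t • z) z)
      ((volume.restrict (closedBall (0 : E n) 1)).prod (volume.restrict (Ioc 0 r))) := by
    rw [Measure.prod_restrict]
    have h2 : IntegrableOn (fun p : E n × ℝ => jR k p.1 * fderiv ℝ v (y + p.2 • p.1) p.1)
        (closedBall (0 : E n) 1 ×ˢ Icc 0 r) (volume.prod volume) :=
      hG.continuousOn.integrableOn_compact ((isCompact_closedBall 0 1).prod isCompact_Icc)
    exact h2.mono_set (prod_mono le_rfl Ioc_subset_Icc_self)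
  rw [integral_integral_swap hint]
  refine setIntegral_nonpos measurableSet_Ioc fun t ht => ?_
  have ht0 : 0 < t := ht.1
  have e0 : ∀ z : E n, (-t) • ((-t⁻¹) • y - z) = y + t • z := by
    intro z
    rw [smul_sub, smul_smul, neg_mul_neg, mul_inv_cancel₀ ht0.ne', one_smul, neg_smul, sub_neg_eq_add]
  have hw : ContDiff ℝ ∞ (fun z : E n => v ((-t) • ((-t⁻¹) • y - z))) := hv.comp (aff_smooth _ _)
  have h3 := rad_neg hw (fun z => by
    rw [lap_aff hv]
    exact mul_nonpos_of_nonneg_of_nonpos (by positivity) (hΔ _)) k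
  have h4 : ∀ z : E n, jR k z * fderiv ℝ (fun z : E n => v ((-t) • ((-t⁻¹) • y - z))) z z =
      t * (jR k z * fderiv ℝ v (y + t • z) z) := by
    intro z
    rw [fderiv_aff hv, e0]
    ring
  simp_rw [h4] at h3
  rw [integral_const_mul] at h3
  have h5 : ∫ z in closedBall (0 : E n) 1, jR k z * fderiv ℝ v (y + t • z) z =
      ∫ z, jR k z * fderiv ℝ v (y + t • z) z := by
    rw [setIntegral_eq_integral_of_forall_compl_eq_zero]
    intro z hz
    rw [jR_zero k fun h => hz (ball_subset_closedBall h), zero_mul]
  rw [h5]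
  exact nonpos_of_mul_nonpos_right h3 ht0

/-- **Super-mean value property of smooth superharmonic functions.** -/
theorem ball_mean {v : E n → ℝ} (hv : ContDiff ℝ ∞ v) (hΔ : ∀ z, (Δ v) z ≤ 0) (y : E n) {r : ℝ}
    (hr : 0 < r) : ∫ z in ball y r, v z ≤ (volume (ball y r)).toReal * v y := by
  have hc : Continuous (fun z : E n => v (y + r • z) - v y) :=
    (hv.continuous.comp (by fun_prop)).sub continuous_const
  obtain ⟨C, hC⟩ := (isCompact_closedBall (0 : E n) 1).exists_bound_of_continuousOn hc.continuousOn
  have hlim : Tendsto (fun k : ℕ => ∫ z, jR k z * (v (y + r • z) - v y)) atTop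
      (𝓝 (∫ z, (ball (0 : E n) 1).indicator (fun z => 2 * (v (y + r • z) - v y)) z)) := by
    refine tendsto_integral_of_dominated_convergence ((ball (0 : E n) 1).indicator fun _ => 2 * C) ?_ ?_ ?_ ?_
    · exact fun k => ((jR_contDiff k).continuous.mul hc).aestronglyMeasurable
    · exact (integrable_indicator_iff measurableSet_ball).2 (integrableOn_const measure_ball_lt_top.ne)
    · intro k
      refine Eventually.of_forall fun z => ?_
      by_cases hz : z ∈ ball (0 : E n) 1
      · rw [indicator_of_mem hz, norm_mul]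
        refine mul_le_mul ?_ (hC z (ball_subset_closedBall hz)) (norm_nonneg _) (by norm_num)
        rw [Real.norm_eq_abs, jR, abs_of_nonneg (mul_nonneg (by norm_num) (pq_nonneg _ _))]
        linarith [pq_le_one k (1 - ‖z‖ ^ 2)]
      · rw [indicator_of_notMem hz, jR_zero k hz, zero_mul, norm_zero]
    · refine Eventually.of_forall fun z => ?_
      by_cases hz : z ∈ ball (0 : E n) 1
      · rw [indicator_of_mem hz]
        have h1 : 0 < 1 - ‖z‖ ^ 2 := by
          rw [mem_ball_zero_iff] at hz
          nlinarith [norm_nonneg z]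
        have h2 := ((pq_tendsto h1).const_mul 2).mul_const (v (y + r • z) - v y)
        rw [mul_one] at h2
        exact h2
      · rw [indicator_of_notMem hz]
        refine tendsto_const_nhds.congr fun k => ?_
        rw [jR_zero k hz, zero_mul]
  have h1 : ∫ z, (ball (0 : E n) 1).indicator (fun z => 2 * (v (y + r • z) - v y)) z ≤ 0 :=
    le_of_tendsto' hlim fun k => ker_mean hv hΔ y hr k
  have h2 : ∀ z : E n, (ball (0 : E n) 1).indicator (fun z => 2 * (v (y + r • z) - v y)) z =
      (fun x => (ball y r).indicator (fun x => 2 * (v x - v y)) x) (y + r • z) := by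
    intro z
    have h3 : (y + r • z ∈ ball y r) ↔ z ∈ ball (0 : E n) 1 := by
      rw [mem_ball, dist_self_add_left, norm_smul, Real.norm_of_nonneg hr.le, mem_ball_zero_iff]
      constructor
      · intro h; nlinarith
      · intro h; nlinarith
    by_cases hz : z ∈ ball (0 : E n) 1
    · simp only
      rw [indicator_of_mem hz, indicator_of_mem (h3.2 hz)]
    · simp only
      rw [indicator_of_notMem hz, indicator_of_notMem (fun h => hz (h3.1 h))]
  simp_rw [h2] at h1
  rw [vol_aff (x := y) hr (fun x => (ball y r).indicator (fun x => 2 * (v x - v y)) x)] at h1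
  have h4 : ∫ x, (ball y r).indicator (fun x => 2 * (v x - v y)) x ≤ 0 :=
    nonpos_of_mul_nonpos_right h1 (by positivity)
  rw [integral_indicator measurableSet_ball, integral_const_mul] at h4
  have h5 : ∫ x in ball y r, (v x - v y) ≤ 0 := nonpos_of_mul_nonpos_right h4 (by norm_num)
  have i1 : IntegrableOn v (ball y r) :=
    (hv.continuous.continuousOn.integrableOn_compact (isCompact_closedBall y r)).mono_set ball_subset_closedBall
  rw [integral_sub i1 (integrableOn_const measure_ball_lt_top.ne), setIntegral_const, smul_eq_mul] at h5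
  simp only [Measure.real] at h5
  linarith

end Run7.h104.Tri
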