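import Pool.Agent.Run7.h104.Tri1

/-! # Comparison of averages on two scales -/

set_option autoImplicit false

open MeasureTheory Set Filter Topology Metric
open scoped InnerProductSpace ContDiff Laplacian

namespace Run7.h104.Tri

open Pool.Agent.Helper486.TP

variable {n : ℕ}

noncomputable def Rk (s : ℝ) (x z : E n) : ℝ := (s ^ n)⁻¹ * kR (s⁻¹ • (x - z))
noncomputable def Hk (s : ℝ) (x z : E n) : ℝ := (s ^ n)⁻¹ * kH (s⁻¹ • (x - z))

lemma kR_nonneg (x : E n) : 0 ≤ kR x := (theKernel n).ρ_nonneg x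
lemma kH_nonneg (x : E n) : 0 ≤ kH x := (theKernel n).H_nonneg x
lemma kR_supp {x : E n} (h : 1 ≤ ‖x‖) : kR x = 0 := (theKernel n).ρ_supp x h
lemma kH_supp {x : E n} (h : 1 ≤ ‖x‖) : kH x = 0 := (theKernel n).H_supp x h
lemma kR_neg (x : E n) : kR (-x) = kR x := (theKernel n).ρ_even x
lemma kH_neg (x : E n) : kH (-x) = kH x := (theKernel n).H_even x
lemma kR_pos {x : E n} (h : ‖x‖ < 1) : 0 < kR x := (theKernel n).ρ_pos x h

lemma kR_cpt : HasCompactSupport (kR (n := n)) :=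
  HasCompactSupport.intro (isCompact_closedBall 0 1) fun x hx => kR_supp (by
    rw [mem_closedBall_zero_iff, not_le] at hx; exact hx.le)

lemma kH_cpt : HasCompactSupport (kH (n := n)) :=
  HasCompactSupport.intro (isCompact_closedBall 0 1) fun x hx => kH_supp (by
    rw [mem_closedBall_zero_iff, not_le] at hx; exact hx.le)

lemma kR_bdd : ∃ C, 0 < C ∧ ∀ x : E n, kR x ≤ C := by
  obtain ⟨C, hC⟩ := kR_cpt.exists_bound_of_continuous (kR_contDiff (n := n)).continuous
  exact ⟨max C 1, lt_max_of_lt_right one_pos, fun x => (le_abs_self _).trans ((hC x).trans (le_max_left _ _))⟩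

lemma kH_bdd : ∃ C, 0 < C ∧ ∀ x : E n, kH x ≤ C := by
  obtain ⟨C, hC⟩ := kH_cpt.exists_bound_of_continuous (kH_contDiff (n := n)).continuous
  exact ⟨max C 1, lt_max_of_lt_right one_pos, fun x => (le_abs_self _).trans ((hC x).trans (le_max_left _ _))⟩

lemma scale_supp {s : ℝ} (hs : 0 < s) {x z : E n} (h : s ≤ dist x z) : 1 ≤ ‖s⁻¹ • (x - z)‖ := by
  rw [norm_smul, Real.norm_eq_abs, abs_of_pos (inv_pos.2 hs), ← dist_eq_norm]
  rw [inv_mul_eq_div, one_le_div hs]
  exact h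

lemma scale_lt {s : ℝ} (hs : 0 < s) {x z : E n} (h : dist x z < s) : ‖s⁻¹ • (x - z)‖ < 1 := by
  rw [norm_smul, Real.norm_eq_abs, abs_of_pos (inv_pos.2 hs), ← dist_eq_norm]
  rw [inv_mul_eq_div, div_lt_one hs]
  exact h

lemma Rk_supp {s : ℝ} (hs : 0 < s) {x z : E n} (h : s ≤ dist x z) : Rk s x z = 0 := by
  rw [Rk, kR_supp (scale_supp hs h), mul_zero]

lemma Hk_supp {s : ℝ} (hs : 0 < s) {x z : E n} (h : s ≤ dist x z) : Hk s x z = 0 := by
  rw [Hk, kH_supp (scale_supp hs h), mul_zero]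

lemma Rk_nonneg {s : ℝ} (hs : 0 < s) (x z : E n) : 0 ≤ Rk s x z :=
  mul_nonneg (by positivity) (kR_nonneg _)

lemma Hk_nonneg {s : ℝ} (hs : 0 < s) (x z : E n) : 0 ≤ Hk s x z :=
  mul_nonneg (by positivity) (kH_nonneg _)

lemma aff_smooth (a : ℝ) (y : E n) : ContDiff ℝ ∞ (fun z : E n => a • (y - z)) :=
  (contDiff_const.sub contDiff_id).const_smul a

lemma Rk_smooth (s : ℝ) (x : E n) : ContDiff ℝ ∞ (Rk s x) :=
  contDiff_const.mul (kR_contDiff.comp (aff_smooth s⁻¹ x))

lemma Hk_smooth (s : ℝ) (x : E n) : ContDiff ℝ ∞ (Hk s x) :=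
  contDiff_const.mul (kH_contDiff.comp (aff_smooth s⁻¹ x))

lemma Rk_tsupport {s : ℝ} (hs : 0 < s) (x : E n) : tsupport (Rk s x) ⊆ closedBall x s := by
  refine closure_minimal (fun z hz => ?_) isClosed_closedBall
  by_contra h
  rw [mem_closedBall, not_le, dist_comm] at h
  exact hz (Rk_supp hs h.le)

lemma Hk_tsupport {s : ℝ} (hs : 0 < s) (x : E n) : tsupport (Hk s x) ⊆ closedBall x s := by
  refine closure_minimal (fun z hz => ?_) isClosed_closedBall
  by_contra h
  rw [mem_closedBall, not_le, dist_comm] at h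
  exact hz (Hk_supp hs h.le)

lemma Rk_cpt {s : ℝ} (hs : 0 < s) (x : E n) : HasCompactSupport (Rk s x) :=
  (isCompact_closedBall x s).of_isClosed_subset (isClosed_tsupport _) (Rk_tsupport hs x)

lemma Hk_cpt {s : ℝ} (hs : 0 < s) (x : E n) : HasCompactSupport (Hk s x) :=
  (isCompact_closedBall x s).of_isClosed_subset (isClosed_tsupport _) (Hk_tsupport hs x)

lemma Rk_test {s : ℝ} (hs : 0 < s) {x : E n} {U : Set (E n)} (h : closedBall x s ⊆ U) :
    TestOn U (Rk s x) := ⟨Rk_smooth s x, Rk_cpt hs x, (Rk_tsupport hs x).trans h⟩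

lemma Hk_test {s : ℝ} (hs : 0 < s) {x : E n} {U : Set (E n)} (h : closedBall x s ⊆ U) :
    TestOn U (Hk s x) := ⟨Hk_smooth s x, Hk_cpt hs x, (Hk_tsupport hs x).trans h⟩

lemma fderiv_aff {φ : E n → ℝ} (hφ : ContDiff ℝ ∞ φ) (a : ℝ) (y z v : E n) :
    fderiv ℝ (fun z => φ (a • (y - z))) z v = -a * fderiv ℝ φ (a • (y - z)) v := by
  have h1 : HasFDerivAt (fun z : E n => a • (y - z)) (a • (-(ContinuousLinearMap.id ℝ (E n)))) z :=
    ((hasFDerivAt_id z).const_sub y).const_smul a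
  have h2 : HasFDerivAt φ (fderiv ℝ φ (a • (y - z))) (a • (y - z)) :=
    ((hφ.differentiable (by simp)) _).hasFDerivAt
  have h3 := HasFDerivAt.comp (g := φ) (f := fun z : E n => a • (y - z)) z h2 h1
  have h4 : fderiv ℝ (fun z => φ (a • (y - z))) z = _ := h3.fderiv
  rw [h4]
  simp

lemma lap_aff {φ : E n → ℝ} (hφ : ContDiff ℝ ∞ φ) (a : ℝ) (y z : E n) :
    (Δ (fun z => φ (a • (y - z)))) z = a ^ 2 * (Δ φ) (a • (y - z)) := by
  have hs : ContDiff ℝ ∞ (fun z => φ (a • (y - z))) :=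
    hφ.comp (aff_smooth a y)
  rw [nl_lap_eq hs, nl_lap_eq hφ, Finset.mul_sum]
  apply Finset.sum_congr rfl
  intro i _
  set e := EuclideanSpace.basisFun (Fin n) ℝ i
  have h1 : (fun z => fderiv ℝ (fun z => φ (a • (y - z))) z e) =
      fun z => -a * fderiv ℝ φ (a • (y - z)) e := by
    funext z; exact fderiv_aff hφ a y z e
  rw [h1]
  have h2 : ContDiff ℝ ∞ (fun z => fderiv ℝ φ z e) :=
    (hφ.fderiv_right (m := ∞) (by norm_cast)).clm_apply contDiff_const
  have h3 : DifferentiableAt ℝ (fun z => fderiv ℝ φ (a • (y - z)) e) z := by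
    have : ContDiff ℝ ∞ (fun z => fderiv ℝ φ (a • (y - z)) e) :=
      h2.comp (aff_smooth a y)
    exact (this.differentiable (by simp)) z
  rw [fderiv_const_mul h3]
  have h4 := fderiv_aff h2 a y z e
  simp only [smul_apply, smul_eq_mul]
  rw [h4]
  ring

lemma Hk_lap {s : ℝ} (hs : 0 < s) (x z : E n) :
    s * (Δ (Hk s x)) z = (s ^ (n + 1))⁻¹ * (Δ (kH (n := n))) (s⁻¹ • (x - z)) := by
  have h0 : ContDiff ℝ ∞ (fun z : E n => kH (s⁻¹ • (x - z))) := kH_contDiff.comp (aff_smooth s⁻¹ x)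
  have h1 : (Δ (fun z : E n => (s ^ n)⁻¹ * kH (s⁻¹ • (x - z)))) z =
      (s ^ n)⁻¹ * (Δ (fun z : E n => kH (s⁻¹ • (x - z)))) z :=
    lap_const_mul (φ := fun z : E n => kH (s⁻¹ • (x - z))) _ h0 z
  change s * (Δ (fun z : E n => (s ^ n)⁻¹ * kH (s⁻¹ • (x - z)))) z = _
  rw [h1, lap_aff kH_contDiff]
  generalize (Δ (kH (n := n))) (s⁻¹ • (x - z)) = L
  rw [pow_succ]
  field_simp
  ring

/-- `Δ f = g τ` on `U` in the sense of distributions, `f` integrable, `|g| ≤ 1`. -/
structure LapOn (U : Set (E n)) (f g : E n → ℝ) (τ : Measure (E n)) : Prop where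
  int : Integrable f
  meas : Measurable g
  bd : ∀ x, |g x| ≤ 1
  eq : ∀ φ, TestOn U φ → ∫ x, f x * (Δ φ) x = ∫ x, φ x * g x ∂τ

lemma LapOn.mono {U V : Set (E n)} {f g : E n → ℝ} {τ : Measure (E n)} (h : LapOn U f g τ)
    (hV : V ⊆ U) : LapOn V f g τ := ⟨h.int, h.meas, h.bd, fun φ hφ => h.eq φ (hφ.mono hV)⟩

theorem ar_diff {U : Set (E n)} {f g : E n → ℝ} {τ : Measure (E n)} (hl : LapOn U f g τ)
    {x : E n} {s h : ℝ} (hs : 0 < s) (hsh : s ≤ h) (hx : closedBall x h ⊆ U) :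
    (∫ z, f z * Rk h x z) - (∫ z, f z * Rk s x z) =
      ∫ r in s..h, r * ∫ z, Hk r x z * g z ∂τ := by
  have hh : 0 < h := lt_of_lt_of_le hs hsh
  have hRint : ∀ r : ℝ, 0 < r → Integrable (fun z => f z * Rk r x z) := by
    intro r hr
    obtain ⟨C, hC⟩ := (Rk_cpt hr x).exists_bound_of_continuous (Rk_smooth r x).continuous
    exact hl.int.mul_bdd (Rk_smooth r x).continuous.aestronglyMeasurable (Eventually.of_forall hC)
  rw [← integral_sub (hRint h hh) (hRint s hs)]
  have h1 : ∀ z, f z * Rk h x z - f z * Rk s x z =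
      ∫ r in s..h, f z * ((r ^ (n + 1))⁻¹ * (Δ (kH (n := n))) (r⁻¹ • (x - z))) := by
    intro z
    rw [intervalIntegral.integral_const_mul, ← mul_sub]
    congr 1
    exact (theKernel n).scaling (x - z) s h hs hsh
  simp_rw [h1, intervalIntegral.integral_of_le hsh]
  have hcont : ContinuousOn (fun p : E n × ℝ => (p.2 ^ (n + 1))⁻¹ * (Δ (kH (n := n))) (p.2⁻¹ • (x - p.1)))
      (univ ×ˢ Icc s h) := by
    have hne : ∀ p ∈ (univ : Set (E n)) ×ˢ Icc s h, p.2 ≠ 0 := fun p hp => (lt_of_lt_of_le hs hp.2.1).ne'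
    refine ContinuousOn.mul ?_ ?_
    · exact ContinuousOn.inv₀ (continuous_snd.pow _).continuousOn fun r hr => pow_ne_zero _ (hne r hr)
    · exact (lap_continuous kH_contDiff).comp_continuousOn
        ((ContinuousOn.inv₀ continuousOn_snd hne).smul
          (continuous_const.sub continuous_fst).continuousOn)
  obtain ⟨C, hC0, hC⟩ := lap_bdd (kH_contDiff (n := n)) kH_cpt
  have hint : Integrable (Function.uncurry fun (z : E n) (r : ℝ) =>
      f z * ((r ^ (n + 1))⁻¹ * (Δ (kH (n := n))) (r⁻¹ • (x - z))))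
      (volume.prod (volume.restrict (Ioc s h))) := by
    have i1 : Integrable (fun p : E n × ℝ => f p.1 * (1 : ℝ)) (volume.prod (volume.restrict (Ioc s h))) :=
      hl.int.mul_prod (integrable_const (1 : ℝ))
    have i2 : AEStronglyMeasurable (fun p : E n × ℝ => (p.2 ^ (n + 1))⁻¹ * (Δ (kH (n := n))) (p.2⁻¹ • (x - p.1)))
        (volume.prod (volume.restrict (Ioc s h))) := by
      have e : (volume : Measure (E n)).prod (volume.restrict (Ioc s h)) =
          ((volume : Measure (E n)).prod (volume : Measure ℝ)).restrict (univ ×ˢ Ioc s h) := by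
        rw [← Measure.prod_restrict, Measure.restrict_univ]
      rw [e]
      exact (hcont.mono (prod_mono_right Ioc_subset_Icc_self)).aestronglyMeasurable
        (MeasurableSet.univ.prod measurableSet_Ioc)
    have i3 : ∀ᵐ p ∂((volume : Measure (E n)).prod (volume.restrict (Ioc s h))),
        ‖(p.2 ^ (n + 1))⁻¹ * (Δ (kH (n := n))) (p.2⁻¹ • (x - p.1))‖ ≤ (s ^ (n + 1))⁻¹ * C := by
      have e : (volume : Measure (E n)).prod (volume.restrict (Ioc s h)) =
          ((volume : Measure (E n)).prod (volume : Measure ℝ)).restrict (univ ×ˢ Ioc s h) := by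
        rw [← Measure.prod_restrict, Measure.restrict_univ]
      rw [e]
      refine (ae_restrict_iff' (MeasurableSet.univ.prod measurableSet_Ioc)).2
        (Eventually.of_forall fun p hp => ?_)
      have hp2 : s < p.2 := hp.2.1
      have hp3 : 0 < p.2 := lt_trans hs hp2
      rw [norm_mul, Real.norm_eq_abs, Real.norm_eq_abs, abs_of_pos (by positivity)]
      refine mul_le_mul ?_ (hC _) (abs_nonneg _) (by positivity)
      exact inv_anti₀ (by positivity) (pow_le_pow_left₀ hs.le hp2.le _)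
    have i4 := i1.mul_bdd i2 i3
    refine i4.congr (Eventually.of_forall fun p => ?_)
    simp [Function.uncurry]
  rw [integral_integral_swap hint]
  refine setIntegral_congr_fun measurableSet_Ioc fun r hr => ?_
  have hr0 : 0 < r := lt_trans hs hr.1
  have hT : TestOn U (Hk r x) := Hk_test hr0 ((closedBall_subset_closedBall hr.2).trans hx)
  rw [← hl.eq _ hT, ← integral_const_mul]
  refine integral_congr_ae (Eventually.of_forall fun z => ?_)
  change f z * ((r ^ (n + 1))⁻¹ * (Δ (kH (n := n))) (r⁻¹ • (x - z))) = r * (f z * (Δ (Hk r x)) z)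
  rw [← Hk_lap hr0]
  ring

end Run7.h104.Tri
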