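import Pool.Agent.Run7.h104.Tri19

/-! # Newtonian kernel, reduced functions -/

set_option autoImplicit false

open MeasureTheory Set Filter Topology Metric
open scoped InnerProductSpace ContDiff Laplacian ENNReal

namespace Run7.h104.Tri

open Pool.Agent.Helper486.TP

variable {n : ℕ}

lemma newton_cont (x : E n) : Continuous (fun y : E n => newton x y) := by
  unfold newton
  have h1 : Continuous (fun y : E n => ENNReal.ofReal ‖x - y‖) :=
    ENNReal.continuous_ofReal.comp (continuous_const.sub continuous_id).norm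
  exact ((ENNReal.continuous_pow _).comp h1).inv

lemma newton_cont2 : Continuous (fun p : E n × E n => newton p.1 p.2) := by
  unfold newton
  have h1 : Continuous (fun p : E n × E n => ENNReal.ofReal ‖p.1 - p.2‖) :=
    ENNReal.continuous_ofReal.comp (continuous_fst.sub continuous_snd).norm
  exact ((ENNReal.continuous_pow _).comp h1).inv

lemma newton_self (hn : 3 ≤ n) (x : E n) : newton x x = ⊤ := by
  rw [newton, sub_self, norm_zero, ENNReal.ofReal_zero, zero_pow (by omega), ENNReal.inv_zero]

lemma newton_ne_top {x y : E n} (h : y ≠ x) : newton x y ≠ ⊤ := by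
  rw [newton, Ne, ENNReal.inv_eq_top]
  apply pow_ne_zero
  rw [Ne, ENNReal.ofReal_eq_zero, not_le]
  exact norm_pos_iff.2 (sub_ne_zero.2 h.symm)

lemma newton_super (hn : 3 ≤ n) (x y : E n) {r : ℝ} (hr : 0 < r) :
    ∫⁻ z in ball y r, newton x z ≤ volume (ball y r) * newton x y := by
  have : Nonempty (Fin n) := ⟨⟨0, by omega⟩⟩
  by_cases hxy : y = x
  · rw [hxy, newton_self hn, ENNReal.mul_top (measure_ball_pos volume x hr).ne']
    exact le_top
  set e : ℕ → ℝ := fun m => 1 / ((m : ℝ) + 1) with he
  have hepos : ∀ m, 0 < e m := fun m => by positivity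
  have helim : Tendsto e atTop (𝓝 0) := tendsto_one_div_add_atTop_nhds_zero_nat
  have h1 : ∀ m, ∫⁻ z in ball y r, ENNReal.ofReal (fe (e m) x z) ≤ volume (ball y r) * newton x y := by
    intro m
    have hs := fe_contDiff (hepos m) x (n := n)
    have hΔ : ∀ z : E n, (Δ (fe (e m) x)) z ≤ 0 := by
      intro z
      rw [nl_lap_eq hs, fe_lap (hepos m)]
      have hn' : (3 : ℝ) ≤ n := by exact_mod_cast hn
      have h2 : 0 ≤ (n : ℝ) * (n - 2) := by nlinarith
      have h3 : 0 ≤ e m ^ 2 * (‖z - x‖ ^ 2 + e m ^ 2) ^ (-((n : ℝ) + 2) / 2) := by positivity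
      nlinarith
    have h2 := ball_mean hs hΔ y hr
    have h0 : ∀ z : E n, 0 ≤ fe (e m) x z := fun z => by unfold fe; positivity
    have hi : IntegrableOn (fe (e m) x) (ball y r) :=
      (hs.continuous.continuousOn.integrableOn_compact (isCompact_closedBall y r)).mono_set ball_subset_closedBall
    rw [← ofReal_integral_eq_lintegral_ofReal hi (Eventually.of_forall h0)]
    have h3 : (volume (ball y r)).toReal * fe (e m) x y ≤ (volume (ball y r) * newton x y).toReal := by
      rw [ENNReal.toReal_mul]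
      exact mul_le_mul_of_nonneg_left (fe_le hn x y hxy) ENNReal.toReal_nonneg
    refine (ENNReal.ofReal_le_ofReal (h2.trans h3)).trans ?_
    exact ENNReal.ofReal_toReal_le
  have h4 : ∫⁻ z in ball y r, liminf (fun m => ENNReal.ofReal (fe (e m) x z)) atTop ≤
      volume (ball y r) * newton x y := by
    refine (lintegral_liminf_le fun m => ?_).trans ?_
    · exact (fe_contDiff (hepos m) x).continuous.measurable.ennreal_ofReal
    · exact liminf_le_of_frequently_le' (Frequently.of_forall h1)
  refine le_trans (le_of_eq ?_) h4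
  refine lintegral_congr_ae ?_
  have h0 : ∀ᵐ z : E n, z ≠ x := by
    rw [ae_iff]; simp
  filter_upwards [ae_restrict_of_ae h0] with z hz
  have h5 := (ENNReal.continuous_ofReal.tendsto _).comp (fe_tendsto hn x z hz e helim)
  rw [ENNReal.ofReal_toReal (newton_ne_top hz)] at h5
  exact h5.liminf_eq.symm

theorem newton_psh (hn : 3 ≤ n) (x : E n) : PosSuperharmonic (newton x) := by
  have : Nonempty (Fin n) := ⟨⟨0, by omega⟩⟩
  refine ⟨(newton_cont x).lowerSemicontinuous, ?_, fun y r hr => newton_super hn x y hr⟩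
  obtain ⟨y, hy⟩ := exists_ne x
  exact ⟨y, newton_ne_top hy⟩

lemma reduced_le (hn : 3 ≤ n) (A : Set (E n)) (x y : E n) : reduced A (newton x) y ≤ newton x y :=
  iInf₂_le (newton x) ⟨newton_psh hn x, fun _ _ => le_rfl⟩

lemma lscReg_le (f : E n → ℝ≥0∞) (y : E n) : lscReg f y ≤ f y := by
  unfold lscReg
  refine liminf_le_of_frequently_le' ?_
  intro h
  exact (h.self_of_nhds) le_rfl

lemma lscReg_reduced_le (hn : 3 ≤ n) (A : Set (E n)) (x y : E n) :
    lscReg (reduced A (newton x)) y ≤ newton x y :=
  (lscReg_le _ y).trans (reduced_le hn A x y)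

/-- mass of `s` on the measurable hull -/
lemma hull_le {A : Set (E n)} {s v : E n → ℝ≥0∞} (hs : Measurable s) (hv : PosSuperharmonic v)
    (hA : ∀ z ∈ A, s z ≤ v z) (z : E n) {r : ℝ} (hr : 0 < r) :
    ∫⁻ w in ball z r ∩ toMeasurable volume A, s w ≤ v z * volume (ball z r) := by
  have hvm : Measurable v := hv.lsc.measurable
  have hB : MeasurableSet {w | v w < s w} := measurableSet_lt hvm hs
  have h1 : volume (toMeasurable volume A ∩ {w | v w < s w}) = 0 := by
    rw [Measure.measure_toMeasurable_inter_of_sFinite hB]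
    have : A ∩ {w | v w < s w} = ∅ := by
      ext w
      simp only [mem_inter_iff, mem_ofPred_eq, mem_empty_iff_false, iff_false, not_and, not_lt]
      exact hA w
    rw [this, measure_empty]
  have h2 : ∀ᵐ w ∂(volume.restrict (ball z r ∩ toMeasurable volume A)), s w ≤ v w := by
    rw [ae_restrict_iff' (measurableSet_ball.inter (measurableSet_toMeasurable _ _)), ae_iff]
    refine measure_mono_null (fun w hw => ?_) h1
    simp only [mem_ofPred_eq, Classical.not_imp, not_le] at hw
    exact ⟨hw.1.2, hw.2⟩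
  calc ∫⁻ w in ball z r ∩ toMeasurable volume A, s w ≤ ∫⁻ w in ball z r ∩ toMeasurable volume A, v w :=
        lintegral_mono_ae h2
    _ ≤ ∫⁻ w in ball z r, v w := lintegral_mono_set inter_subset_left
    _ ≤ volume (ball z r) * v z := hv.supermean z r hr
    _ = _ := mul_comm _ _

lemma reduced_ge (A : Set (E n)) {s : E n → ℝ≥0∞} (hs : Measurable s) (z : E n) {r : ℝ} (hr : 0 < r) :
    (∫⁻ w in ball z r ∩ toMeasurable volume A, s w) / volume (ball z r) ≤ reduced A s z := by
  refine le_iInf₂ fun v hv => ?_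
  rw [ENNReal.div_le_iff (measure_ball_pos volume z hr).ne' measure_ball_lt_top.ne]
  exact hull_le hs hv.1 hv.2 z hr

lemma lsc_ge (A : Set (E n)) {s : E n → ℝ≥0∞} (hs : Measurable s) (y : E n) {r t : ℝ} (hr : 0 < r)
    (ht0 : 0 < t) (ht1 : t < 1) :
    ENNReal.ofReal (t ^ n) * ((∫⁻ w in closedBall y (t * r), (toMeasurable volume A).indicator s w) /
      volume (closedBall y (t * r))) ≤ lscReg (reduced A s) y := by
  unfold lscReg
  refine le_liminf_of_le (by isBoundedDefault) ?_
  have h1 : 0 < (1 - t) * r := mul_pos (by linarith) hr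
  filter_upwards [ball_mem_nhds y h1] with z hz
  refine le_trans ?_ (reduced_ge A hs z hr)
  have hsub : closedBall y (t * r) ⊆ ball z r := by
    intro w hw
    rw [mem_closedBall] at hw
    rw [mem_ball] at hz ⊢
    have := dist_triangle w y z
    rw [dist_comm y z] at this
    linarith
  have h2 : ∫⁻ w in closedBall y (t * r), (toMeasurable volume A).indicator s w ≤
      ∫⁻ w in ball z r ∩ toMeasurable volume A, s w := by
    rw [setLIntegral_indicator (measurableSet_toMeasurable _ _)]
    refine lintegral_mono_set ?_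
    rw [inter_comm]
    exact inter_subset_inter_left _ hsub
  have h3 : ENNReal.ofReal (t ^ n) * (volume (closedBall y (t * r)))⁻¹ = (volume (ball z r))⁻¹ := by
    rw [Measure.addHaar_closedBall _ _ (by positivity), Measure.addHaar_ball_of_pos _ _ hr]
    simp only [finrank_euclideanSpace, Fintype.card_fin]
    rw [mul_pow, ENNReal.ofReal_mul (by positivity)]
    have a1 : ENNReal.ofReal (t ^ n) ≠ 0 := by
      rw [Ne, ENNReal.ofReal_eq_zero, not_le]; positivity
    have a2 : ENNReal.ofReal (r ^ n) ≠ 0 := by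
      rw [Ne, ENNReal.ofReal_eq_zero, not_le]; positivity
    have a3 : volume (ball (0 : E n) 1) ≠ 0 := (measure_ball_pos volume 0 one_pos).ne'
    have a4 : volume (ball (0 : E n) 1) ≠ ⊤ := measure_ball_lt_top.ne
    rw [mul_assoc, ENNReal.mul_inv (Or.inl a1) (Or.inl ENNReal.ofReal_ne_top), ← mul_assoc,
      ENNReal.mul_inv_cancel a1 ENNReal.ofReal_ne_top, one_mul]
  rw [div_eq_mul_inv, div_eq_mul_inv, mul_left_comm, h3]
  exact mul_le_mul_left h2 _

/-- the regularized reduced function equals `s` almost everywhere on the measurable hull -/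
theorem swept_ae (A : Set (E n)) {s : E n → ℝ≥0∞} (hs : Measurable s)
    (hsl : ∀ N : ℕ, ∫⁻ w in ball (0 : E n) N, s w ≠ ⊤) :
    ∀ᵐ y, y ∈ toMeasurable volume A → s y ≤ lscReg (reduced A s) y := by
  set H := toMeasurable volume A with hH
  have hHm : MeasurableSet H := measurableSet_toMeasurable _ _
  have key : ∀ᵐ y : E n, ∀ N : ℕ, Tendsto (fun a => (∫⁻ w in a, (H ∩ ball 0 N).indicator s w) / volume a)
      ((Besicovitch.vitaliFamily (volume : Measure (E n))).filterAt y) (𝓝 ((H ∩ ball 0 N).indicator s y)) := by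
    rw [ae_all_iff]
    intro N
    refine VitaliFamily.ae_tendsto_lintegral_div _ (hs.indicator (hHm.inter measurableSet_ball)).aemeasurable ?_
    rw [lintegral_indicator (hHm.inter measurableSet_ball)]
    exact ((lintegral_mono_set inter_subset_right).trans_lt (lt_top_iff_ne_top.2 (hsl N))).ne
  filter_upwards [key] with y hy hyH
  obtain ⟨N, hN⟩ := exists_nat_gt ‖y‖
  have h1 := (hy N).comp (Besicovitch.tendsto_filterAt volume y)
  have hyN : y ∈ H ∩ ball (0 : E n) N := ⟨hyH, by rwa [mem_ball_zero_iff]⟩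
  rw [indicator_of_mem hyN] at h1
  -- for each t
  have h2 : ∀ t : ℝ, 0 < t → t < 1 → ENNReal.ofReal (t ^ n) * s y ≤ lscReg (reduced A s) y := by
    intro t ht0 ht1
    have h3 : Tendsto (fun r : ℝ => t * r) (𝓝[>] 0) (𝓝[>] 0) := by
      refine tendsto_nhdsWithin_iff.2 ⟨?_, ?_⟩
      · have : Tendsto (fun r : ℝ => t * r) (𝓝 0) (𝓝 (t * 0)) := (continuous_const_mul t).tendsto 0
        rw [mul_zero] at this
        exact this.mono_left nhdsWithin_le_nhds
      · filter_upwards [self_mem_nhdsWithin] with r hr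
        exact mul_pos ht0 hr
    have h4 := ENNReal.Tendsto.const_mul (h1.comp h3) (a := ENNReal.ofReal (t ^ n)) (Or.inr ENNReal.ofReal_ne_top)
    refine le_of_tendsto h4 ?_
    filter_upwards [self_mem_nhdsWithin] with r hr
    refine le_trans ?_ (lsc_ge A hs y hr ht0 ht1)
    simp only [Function.comp_apply]
    refine mul_le_mul_right (ENNReal.div_le_div_right (lintegral_mono fun w => ?_) _) _
    exact indicator_le_indicator_of_subset inter_subset_left (fun _ => zero_le) w
  have h5 : Tendsto (fun t : ℝ => ENNReal.ofReal (t ^ n) * s y) (𝓝[<] 1) (𝓝 (ENNReal.ofReal (1 ^ n) * s y)) := by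
    refine ENNReal.Tendsto.mul_const ?_ (Or.inl ?_)
    · exact ((ENNReal.continuous_ofReal.comp (continuous_pow n)).tendsto 1).mono_left nhdsWithin_le_nhds
    · simp
  rw [one_pow, ENNReal.ofReal_one, one_mul] at h5
  refine le_of_tendsto h5 ?_
  filter_upwards [Ioo_mem_nhdsLT (show (0 : ℝ) < 1 by norm_num)] with t ht
  exact h2 t ht.1 ht.2

end Run7.h104.Tri
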