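import Pool.Agent.Run7.h104.Tri20

/-! # Potentials and harmonic measures -/

set_option autoImplicit false

open MeasureTheory Set Filter Topology Metric
open scoped InnerProductSpace ContDiff Laplacian ENNReal

namespace Run7.h104.Tri

open Pool.Agent.Helper486.TP

variable {n : ℕ}

lemma newton_cont1 (y : E n) : Continuous (fun z : E n => newton z y) := by
  unfold newton
  have h1 : Continuous (fun z : E n => ENNReal.ofReal ‖z - y‖) :=
    ENNReal.continuous_ofReal.comp (continuous_id.sub continuous_const).norm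
  exact ((ENNReal.continuous_pow _).comp h1).inv

lemma pot_meas (om : Measure (E n)) [SFinite om] : Measurable (pot om) := by
  unfold pot
  have h : Measurable (Function.uncurry fun (y z : E n) => newton z y) :=
    (newton_cont2.comp continuous_swap).measurable
  exact h.lintegral_prod_right'

lemma pot_int (hn : 3 ≤ n) (om : Measure (E n)) [IsFiniteMeasure om] {K : Set (E n)} (hK : IsCompact K) :
    ∫⁻ y in K, pot om y < ⊤ := by
  obtain ⟨C, hC, hCa⟩ := newton_locInt hn K hK
  unfold pot
  have h : Measurable (Function.uncurry fun (y z : E n) => newton z y) :=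
    (newton_cont2.comp continuous_swap).measurable
  rw [lintegral_lintegral_swap h.aemeasurable]
  calc ∫⁻ z, ∫⁻ y in K, newton z y ∂volume ∂om ≤ ∫⁻ _z, C ∂om := lintegral_mono fun z => hCa z
    _ = C * om univ := lintegral_const _
    _ < ⊤ := ENNReal.mul_lt_top (lt_top_iff_ne_top.2 hC) (measure_lt_top _ _)

lemma pot_ae (hn : 3 ≤ n) (om : Measure (E n)) [IsFiniteMeasure om] : ∀ᵐ y : E n, pot om y < ⊤ := by
  have h1 : ∀ N : ℕ, ∀ᵐ y : E n, y ∈ closedBall (0 : E n) N → pot om y < ⊤ := by
    intro N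
    rw [← ae_restrict_iff' measurableSet_closedBall]
    exact ae_lt_top (pot_meas om) (pot_int hn om (isCompact_closedBall 0 N)).ne
  filter_upwards [ae_all_iff.2 h1] with y hy
  obtain ⟨N, hN⟩ := exists_nat_ge ‖y‖
  exact hy N (by rwa [mem_closedBall_zero_iff])

lemma pot_loc (hn : 3 ≤ n) (om : Measure (E n)) [IsFiniteMeasure om] :
    LocallyIntegrable (fun y => (pot om y).toReal) := by
  rw [locallyIntegrable_iff]
  intro K hK
  exact integrable_toReal_of_lintegral_ne_top (pot_meas om).aemeasurable (pot_int hn om hK).ne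

lemma newton_loc (hn : 3 ≤ n) (a : E n) : LocallyIntegrable (fun y => (newton a y).toReal) := by
  rw [locallyIntegrable_iff]
  intro K hK
  obtain ⟨C, hC, hCa⟩ := newton_locInt hn K hK
  exact integrable_toReal_of_lintegral_ne_top (newton_cont a).measurable.aemeasurable
    ((hCa a).trans_lt (lt_top_iff_ne_top.2 hC)).ne

lemma pot_lap (hn : 3 ≤ n) {c : ℝ}
    (hc : ∀ φ : E n → ℝ, ContDiff ℝ ∞ φ → HasCompactSupport φ → ∀ a : E n,
      ∫ y, (newton a y).toReal * (Δ φ) y = -c * φ a) (om : Measure (E n)) [IsFiniteMeasure om]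
    {φ : E n → ℝ} (hφ : ContDiff ℝ ∞ φ) (hs : HasCompactSupport φ) :
    ∫ y, (pot om y).toReal * (Δ φ) y = -c * ∫ z, φ z ∂om := by
  have hLc := lap_cont hφ
  have hLs := lap_supp hφ hs
  obtain ⟨M, hM⟩ : ∃ M, ∀ y, ‖(Δ φ) y‖ ≤ M := by
    have hcs : HasCompactSupport (Δ φ) := HasCompactSupport.intro hs (fun y hy => hLs y hy)
    exact hcs.exists_bound_of_continuous hLc
  obtain ⟨C, hC, hCa⟩ := newton_locInt hn (tsupport φ) hs
  have hm2 : Measurable (fun p : E n × E n => newton p.2 p.1) :=
    (newton_cont2.comp continuous_swap).measurable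
  have hint : Integrable (Function.uncurry fun (y z : E n) => (newton z y).toReal * (Δ φ) y)
      (volume.prod om) := by
    have hmeas : Measurable (Function.uncurry fun (y z : E n) => (newton z y).toReal * (Δ φ) y) :=
      hm2.ennreal_toReal.mul (hLc.comp continuous_fst).measurable
    refine ⟨hmeas.aestronglyMeasurable, ?_⟩
    have hb : ∀ p : E n × E n, ‖Function.uncurry (fun (y z : E n) => (newton z y).toReal * (Δ φ) y) p‖ₑ ≤
        newton p.2 p.1 * (tsupport φ).indicator (fun _ => ENNReal.ofReal M) p.1 := by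
      rintro ⟨y, z⟩
      simp only [Function.uncurry_apply_pair]
      rw [enorm_mul]
      refine mul_le_mul' ?_ ?_
      · rw [Real.enorm_eq_ofReal ENNReal.toReal_nonneg]
        exact ENNReal.ofReal_toReal_le
      · by_cases hy : y ∈ tsupport φ
        · rw [indicator_of_mem hy, ← ofReal_norm]
          exact ENNReal.ofReal_le_ofReal (hM y)
        · rw [hLs y hy]; simp
    refine (lintegral_mono hb).trans_lt ?_
    have hm3 : Measurable (fun p : E n × E n =>
        newton p.2 p.1 * (tsupport φ).indicator (fun _ => ENNReal.ofReal M) p.1) :=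
      hm2.mul ((measurable_const.indicator (isClosed_tsupport φ).measurableSet).comp measurable_fst)
    rw [lintegral_prod_symm' _ hm3]
    have h3 : ∀ z : E n, ∫⁻ y, newton z y * (tsupport φ).indicator (fun _ => ENNReal.ofReal M) y ≤
        C * ENNReal.ofReal M := by
      intro z
      have h4 : ∀ y, newton z y * (tsupport φ).indicator (fun _ => ENNReal.ofReal M) y =
          (tsupport φ).indicator (fun y => newton z y * ENNReal.ofReal M) y := by
        intro y
        by_cases hy : y ∈ tsupport φ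
        · rw [indicator_of_mem hy, indicator_of_mem hy]
        · rw [indicator_of_notMem hy, indicator_of_notMem hy, mul_zero]
      simp_rw [h4]
      rw [lintegral_indicator (isClosed_tsupport φ).measurableSet,
        lintegral_mul_const _ (newton_cont z).measurable]
      exact mul_le_mul_left (hCa z) _
    calc ∫⁻ z, ∫⁻ y, newton z y * (tsupport φ).indicator (fun _ => ENNReal.ofReal M) y ∂volume ∂om
        ≤ ∫⁻ _z, C * ENNReal.ofReal M ∂om := lintegral_mono h3
      _ = C * ENNReal.ofReal M * om univ := lintegral_const _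
      _ < ⊤ := ENNReal.mul_lt_top (ENNReal.mul_lt_top (lt_top_iff_ne_top.2 hC) ENNReal.ofReal_lt_top)
        (measure_lt_top _ _)
  have h1 : ∫ y, (pot om y).toReal * (Δ φ) y = ∫ y, ∫ z, (newton z y).toReal * (Δ φ) y ∂om := by
    refine integral_congr_ae ?_
    filter_upwards [pot_ae hn om] with y hy
    rw [integral_mul_const]
    congr 1
    have hm : Measurable (fun z => newton z y) := (newton_cont1 y).measurable
    rw [integral_toReal hm.aemeasurable (ae_lt_top hm hy.ne)]
    rfl
  rw [h1, integral_integral_swap hint, ← integral_const_mul]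
  refine integral_congr_ae (Eventually.of_forall fun z => ?_)
  exact hc φ hφ hs z

lemma no_atom (hn : 3 ≤ n) {om : Measure (E n)} {a x : E n} (h : pot om a ≤ newton x a) (hx : a ≠ x) :
    om {a} = 0 := by
  by_contra h0
  have h1 : pot om a = ⊤ := by
    rw [← top_le_iff]
    calc (⊤ : ℝ≥0∞) = ∫⁻ z in {a}, newton z a ∂om := by
          rw [Measure.restrict_singleton, lintegral_smul_measure, lintegral_dirac, newton_self hn,
            smul_eq_mul, ENNReal.mul_top h0]
      _ ≤ ∫⁻ z, newton z a ∂om := setLIntegral_le_lintegral _ _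
  exact (h.trans_lt (lt_top_iff_ne_top.2 (newton_ne_top hx))).ne h1

/-- **No common part of three swept measures of disjoint sets.** -/
theorem triple (hn : 3 ≤ n) {D : Fin 3 → Set (E n)} (hdisj : ∀ i j, i ≠ j → Disjoint (D i) (D j))
    {x : Fin 3 → E n} (hx : ∀ j, x j ∈ D j) {om : Fin 3 → Measure (E n)}
    (hom : ∀ j, IsHarmonicMeasure (D j) (x j) (om j)) {ν : Measure (E n)} (hν : ∀ j, ν ≤ om j) :
    ν = 0 := by
  have : Nonempty (Fin n) := ⟨⟨0, by omega⟩⟩
  obtain ⟨c, hc0, hc⟩ := newton_laplacian hn (n := n)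
  have hfin : ∀ j, IsFiniteMeasure (om j) := fun j => (hom j).finite
  have hνf : IsFiniteMeasure ν := isFiniteMeasure_of_le (om 0) (hν 0)
  have hpot : ∀ j y, pot (om j) y ≤ newton (x j) y := fun j y => by
    rw [(hom j).pot_eq y]
    exact lscReg_reduced_le hn _ _ _
  have hxne : ∀ i j, i ≠ j → x i ≠ x j := fun i j hij h =>
    (Set.disjoint_left.1 (hdisj i j hij)) (hx i) (h ▸ hx j)
  have hatom : ∀ i, ν {x i} = 0 := by
    intro i
    obtain ⟨j, hj⟩ := exists_ne i
    have h1 := no_atom hn (hpot j (x i)) (hxne i j hj.symm)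
    exact nonpos_iff_eq_zero.1 ((Measure.le_iff'.1 (hν j) _).trans h1.le)
  have hne : ∀ j, ∀ᵐ y : E n, y ≠ x j := fun j => by rw [ae_iff]; simp
  set Ω : Set (E n) := (range x)ᶜ with hΩd
  have hΩ : IsOpen Ω := (finite_range x).isClosed.isOpen_compl
  set f : Fin 3 → E n → ℝ := fun j y => (newton (x j) y).toReal - (pot (om j) y).toReal with hf
  have hzero : ∀ j, ∀ᵐ y, y ∈ (D j)ᶜ → f j y = 0 := by
    intro j
    have h1 := swept_ae (D j)ᶜ (s := newton (x j)) (newton_cont _).measurable (fun N => by
      obtain ⟨C, hC, hCa⟩ := newton_locInt hn (closedBall (0 : E n) N) (isCompact_closedBall _ _)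
      exact (((lintegral_mono_set ball_subset_closedBall).trans (hCa (x j))).trans_lt
        (lt_top_iff_ne_top.2 hC)).ne)
    filter_upwards [h1] with y hy hyD
    have h2 := hy (subset_toMeasurable _ _ hyD)
    rw [← (hom j).pot_eq y] at h2
    simp only [hf]
    rw [le_antisymm h2 (hpot j y), sub_self]
  have hnn : ∀ j, ∀ᵐ y, y ∈ Ω → 0 ≤ f j y := by
    intro j
    filter_upwards [hne j] with y hy _
    exact sub_nonneg.2 (ENNReal.toReal_mono (newton_ne_top hy) (hpot j y))
  have hdis : ∀ i j, i ≠ j → ∀ᵐ y, y ∈ Ω → f i y * f j y = 0 := by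
    intro i j hij
    filter_upwards [hzero i, hzero j] with y h1 h2 _
    by_cases hy : y ∈ (D i)ᶜ
    · rw [h1 hy, zero_mul]
    · rw [h2 fun h => Set.disjoint_left.1 (hdisj i j hij) (notMem_compl_iff.1 hy) h, mul_zero]
  have hlt : ∀ j K, IsCompact K → K ⊆ Ω → (ENNReal.ofReal c • om j) K < ⊤ := fun j K _ _ => by
    rw [Measure.smul_apply, smul_eq_mul]
    exact ENNReal.mul_lt_top ENNReal.ofReal_lt_top (measure_lt_top _ _)
  have h0lt : ∀ K, IsCompact K → K ⊆ Ω → (0 : Measure (E n)) K < ⊤ := fun K _ _ => by simp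
  have hνlt : ∀ K, IsCompact K → K ⊆ Ω → (ENNReal.ofReal c • ν) K < ⊤ := fun K _ _ => by
    rw [Measure.smul_apply, smul_eq_mul]
    exact ENNReal.mul_lt_top ENNReal.ofReal_lt_top (measure_lt_top _ _)
  have hR : ∀ j, RieszOn Ω (f j) ⟨ENNReal.ofReal c • om j, 0, hlt j, h0lt⟩ := by
    intro j
    refine ⟨((newton_loc hn (x j)).sub (pot_loc hn (om j))).locallyIntegrableOn Ω, fun φ hφ => ?_⟩
    have i1 := loc_mul_lap ((newton_loc hn (x j)).locallyIntegrableOn Ω) hφ
    have i2 := loc_mul_lap ((pot_loc hn (om j)).locallyIntegrableOn Ω) hφ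
    have hφx : φ (x j) = 0 := image_eq_zero_of_notMem_tsupport fun h =>
      (hφ.sub h) ⟨j, rfl⟩
    have e1 : ∫ y, f j y * (Δ φ) y = (∫ y, (newton (x j) y).toReal * (Δ φ) y) -
        ∫ y, (pot (om j) y).toReal * (Δ φ) y := by
      rw [← integral_sub i1 i2]
      exact integral_congr_ae (Eventually.of_forall fun y => by simp only [hf]; ring)
    rw [e1, hc φ hφ.smooth hφ.cpt, pot_lap hn hc (om j) hφ.smooth hφ.cpt, hφx]
    simp only [integral_smul_measure, integral_zero_measure, ENNReal.toReal_ofReal hc0.le, smul_eq_mul]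
    ring
  have hK0 : ∀ K, K ⊆ Ω → IsCompact K → ν K = 0 := by
    intro K hKΩ hK
    have h1 := kl hΩ hR hnn hdis (ν := ⟨ENNReal.ofReal c • ν, 0, hνlt, h0lt⟩)
      (fun j B K hB hK hBK hKΩ => by
        simp only [SignedRadon.val]
        refine sub_le_sub_right (ENNReal.toReal_mono ?_ ?_) _
        · exact ((measure_mono hBK).trans_lt (hlt j K hK hKΩ)).ne
        · rw [Measure.smul_apply, Measure.smul_apply, smul_eq_mul, smul_eq_mul]
          exact mul_le_mul_right (Measure.le_iff'.1 (hν j) B) _)
      hK.measurableSet hK le_rfl hKΩ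
    simp only [SignedRadon.val, Measure.coe_zero, Pi.zero_apply, ENNReal.toReal_zero, sub_zero,
      Measure.smul_apply, smul_eq_mul, ENNReal.toReal_mul, ENNReal.toReal_ofReal hc0.le] at h1
    have h2 : (ν K).toReal ≤ 0 := nonpos_of_mul_nonpos_right h1 hc0
    have h3 : (ν K).toReal = 0 := le_antisymm h2 ENNReal.toReal_nonneg
    rcases (ENNReal.toReal_eq_zero_iff _).1 h3 with h | h
    · exact h
    · exact absurd h (measure_ne_top _ _)
  have hΩ0 : ν Ω = 0 := by
    rw [hΩ.measure_eq_iSup_isCompact]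
    exact le_antisymm (iSup₂_le fun K hK => iSup_le fun hK2 => (hK0 K hK hK2).le) zero_le
  rw [← Measure.measure_univ_eq_zero, ← nonpos_iff_eq_zero]
  calc ν univ ≤ ν (Ω ∪ range x) := measure_mono (by rw [hΩd, compl_union_self])
    _ ≤ ν Ω + ν (range x) := measure_union_le _ _
    _ ≤ 0 := by
        rw [hΩ0, zero_add]
        have : range x = ⋃ i, {x i} := by
          ext y; simp [eq_comm]
        rw [this]
        refine (measure_iUnion_le _).trans ?_
        simp [hatom]

end Run7.h104.Tri
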