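import Pool.Agent.Run7.h104.Tri2

/-! # Averages approximate in the mean -/

set_option autoImplicit false

open MeasureTheory Set Filter Topology Metric
open scoped InnerProductSpace ContDiff Laplacian

namespace Run7.h104.Tri

open Pool.Agent.Helper486.TP

variable {n : ℕ}

noncomputable def cR (n : ℕ) : ℝ := ∫ x : E n, kR x
noncomputable def cH (n : ℕ) : ℝ := ∫ x : E n, kH x

lemma kR_int : Integrable (kR (n := n)) := kR_contDiff.continuous.integrable_of_hasCompactSupport kR_cpt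
lemma kH_int : Integrable (kH (n := n)) := kH_contDiff.continuous.integrable_of_hasCompactSupport kH_cpt

lemma cR_pos : 0 < cR n := by
  refine (integral_pos_iff_support_of_nonneg kR_nonneg kR_int).2 ?_
  have h : ball (0 : E n) 1 ⊆ Function.support kR := fun x hx =>
    (kR_pos (by simpa using hx)).ne'
  exact lt_of_lt_of_le (measure_ball_pos _ _ one_pos) (measure_mono h)

lemma cH_nonneg : 0 ≤ cH n := integral_nonneg kH_nonneg

lemma int_scaled (φ : E n → ℝ) {s : ℝ} (hs : 0 < s) (x : E n) :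
    ∫ z, (s ^ n)⁻¹ * φ (s⁻¹ • (x - z)) = ∫ z, φ z := by
  rw [integral_const_mul]
  have h1 := integral_sub_left_eq_self (fun z : E n => φ (s⁻¹ • z)) volume x
  rw [h1, Measure.integral_comp_inv_smul_of_nonneg volume φ hs.le]
  rw [finrank_euclideanSpace_fin, smul_eq_mul, ← mul_assoc, inv_mul_cancel₀ (by positivity), one_mul]

lemma int_scaled' (φ : E n → ℝ) {s : ℝ} (hs : 0 < s) (z : E n) :
    ∫ x, (s ^ n)⁻¹ * φ (s⁻¹ • (x - z)) = ∫ z, φ z := by
  rw [integral_const_mul]
  have h1 := integral_sub_right_eq_self (μ := (volume : Measure (E n))) (fun z : E n => φ (s⁻¹ • z)) z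
  rw [h1, Measure.integral_comp_inv_smul_of_nonneg volume φ hs.le]
  rw [finrank_euclideanSpace_fin, smul_eq_mul, ← mul_assoc, inv_mul_cancel₀ (by positivity), one_mul]

lemma int_Rk {s : ℝ} (hs : 0 < s) (x : E n) : ∫ z, Rk s x z = cR n := int_scaled kR hs x
lemma int_Hk' {s : ℝ} (hs : 0 < s) (z : E n) : ∫ x, Hk s x z = cH n := int_scaled' kH hs z

lemma kR_lip : ∃ L : ℝ, 0 < L ∧ ∀ x y : E n, |kR x - kR y| ≤ L * ‖x - y‖ := by
  obtain ⟨C, hC⟩ := (kR_contDiff (n := n)).lipschitzWith_of_hasCompactSupport kR_cpt (by simp)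
  refine ⟨C + 1, by positivity, fun x y => ?_⟩
  have := hC.dist_le_mul x y
  rw [Real.dist_eq, dist_eq_norm] at this
  refine this.trans (mul_le_mul_of_nonneg_right (by simp) (norm_nonneg _))

lemma Rk_lip : ∃ L : ℝ, 0 < L ∧ ∀ s : ℝ, 0 < s → ∀ x y z : E n,
    |Rk s x z - Rk s y z| ≤ (s ^ (n + 1))⁻¹ * L * ‖x - y‖ := by
  obtain ⟨L, hL0, hL⟩ := kR_lip (n := n)
  refine ⟨L, hL0, fun s hs x y z => ?_⟩
  rw [Rk, Rk, ← mul_sub, abs_mul, abs_of_pos (by positivity : (0 : ℝ) < (s ^ n)⁻¹)]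
  have h1 := hL (s⁻¹ • (x - z)) (s⁻¹ • (y - z))
  rw [← smul_sub, sub_sub_sub_cancel_right, norm_smul, Real.norm_eq_abs, abs_of_pos (inv_pos.2 hs)] at h1
  calc (s ^ n)⁻¹ * |kR (s⁻¹ • (x - z)) - kR (s⁻¹ • (y - z))|
      ≤ (s ^ n)⁻¹ * (L * (s⁻¹ * ‖x - y‖)) := mul_le_mul_of_nonneg_left h1 (by positivity)
    _ = (s ^ (n + 1))⁻¹ * L * ‖x - y‖ := by rw [pow_succ, mul_inv]; ring

lemma Rk_le : ∃ C : ℝ, 0 < C ∧ ∀ s : ℝ, 0 < s → ∀ x z : E n, Rk s x z ≤ (s ^ n)⁻¹ * C := by
  obtain ⟨C, hC0, hC⟩ := kR_bdd (n := n)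
  exact ⟨C, hC0, fun s hs x z => mul_le_mul_of_nonneg_left (hC _) (by positivity)⟩

lemma Hk_le : ∃ C : ℝ, 0 < C ∧ ∀ s : ℝ, 0 < s → ∀ x z : E n, Hk s x z ≤ (s ^ n)⁻¹ * C := by
  obtain ⟨C, hC0, hC⟩ := kH_bdd (n := n)
  exact ⟨C, hC0, fun s hs x z => mul_le_mul_of_nonneg_left (hC _) (by positivity)⟩

/-- averages -/
noncomputable def AR (s : ℝ) (f : E n → ℝ) (x : E n) : ℝ := ∫ z, f z * Rk s x z

lemma AR_int {f : E n → ℝ} (hf : Integrable f) {s : ℝ} (hs : 0 < s) (x : E n) :
    Integrable (fun z => f z * Rk s x z) := by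
  obtain ⟨C, hC⟩ := (Rk_cpt hs x).exists_bound_of_continuous (Rk_smooth s x).continuous
  exact hf.mul_bdd (Rk_smooth s x).continuous.aestronglyMeasurable (Eventually.of_forall hC)

lemma AR_bdd : ∃ C : ℝ, 0 < C ∧ ∀ f : E n → ℝ, Integrable f → ∀ s : ℝ, 0 < s → ∀ x : E n,
    |AR s f x| ≤ (s ^ n)⁻¹ * C * ∫ z, |f z| := by
  obtain ⟨C, hC0, hC⟩ := Rk_le (n := n)
  refine ⟨C, hC0, fun f hf s hs x => ?_⟩
  calc |AR s f x| ≤ ∫ z, |f z * Rk s x z| := by
        unfold AR
        simpa using norm_integral_le_integral_norm (fun z => f z * Rk s x z)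
    _ ≤ ∫ z, |f z| * ((s ^ n)⁻¹ * C) := by
        refine integral_mono (AR_int hf hs x).abs (hf.abs.mul_const _) fun z => ?_
        simp only [abs_mul]
        rw [abs_of_nonneg (Rk_nonneg hs x z)]
        exact mul_le_mul_of_nonneg_left (hC s hs x z) (abs_nonneg _)
    _ = (s ^ n)⁻¹ * C * ∫ z, |f z| := by rw [integral_mul_const, mul_comm]

lemma AR_lip : ∃ L : ℝ, 0 < L ∧ ∀ f : E n → ℝ, Integrable f → ∀ s : ℝ, 0 < s → ∀ x y : E n,
    |AR s f x - AR s f y| ≤ ((s ^ (n + 1))⁻¹ * L * ∫ z, |f z|) * ‖x - y‖ := by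
  obtain ⟨L, hL0, hL⟩ := Rk_lip (n := n)
  refine ⟨L, hL0, fun f hf s hs x y => ?_⟩
  rw [AR, AR, ← integral_sub (AR_int hf hs x) (AR_int hf hs y)]
  calc |∫ z, (f z * Rk s x z - f z * Rk s y z)| ≤ ∫ z, |f z * Rk s x z - f z * Rk s y z| := by
        simpa using norm_integral_le_integral_norm (fun z => f z * Rk s x z - f z * Rk s y z)
    _ ≤ ∫ z, |f z| * ((s ^ (n + 1))⁻¹ * L * ‖x - y‖) := by
        refine integral_mono ((AR_int hf hs x).sub (AR_int hf hs y)).abs (hf.abs.mul_const _) fun z => ?_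
        simp only
        rw [← mul_sub, abs_mul]
        exact mul_le_mul_of_nonneg_left (hL s hs x y z) (abs_nonneg _)
    _ = ((s ^ (n + 1))⁻¹ * L * ∫ z, |f z|) * ‖x - y‖ := by rw [integral_mul_const]; ring

lemma AR_cont {f : E n → ℝ} (hf : Integrable f) {s : ℝ} (hs : 0 < s) : Continuous (AR s f) := by
  obtain ⟨L, hL0, hL⟩ := AR_lip (n := n)
  refine (LipschitzWith.of_dist_le_mul (K := Real.toNNReal ((s ^ (n + 1))⁻¹ * L * ∫ z, |f z|)) fun x y => ?_).continuous
  rw [Real.dist_eq, dist_eq_norm, Real.coe_toNNReal _ (by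
    have : 0 ≤ ∫ z, |f z| := integral_nonneg fun z => abs_nonneg _
    positivity)]
  exact hL f hf s hs x y

/-- convergence at almost every point as the scale tends to zero -/
lemma AR_tendsto {f : E n → ℝ} (hf : Integrable f) (s : ℕ → ℝ) (hs : ∀ k, 0 < s k)
    (hs0 : Tendsto s atTop (𝓝 0)) :
    ∀ᵐ x : E n, Tendsto (fun k => AR (s k) f x) atTop (𝓝 (cR n * f x)) := by
  have hs1 : Tendsto s atTop (𝓝[>] 0) :=
    tendsto_nhdsWithin_iff.2 ⟨hs0, Eventually.of_forall hs⟩
  filter_upwards [IsUnifLocDoublingMeasure.ae_tendsto_average_norm_sub (μ := (volume : Measure (E n)))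
    hf.locallyIntegrable 1] with x hx
  have h1 := hx (fun _ => x) s hs1 (Eventually.of_forall fun k => by
    simp only [one_mul]; exact mem_closedBall_self (hs k).le)
  obtain ⟨C, hC0, hC⟩ := Rk_le (n := n)
  set V : ℝ := (volume (closedBall (0 : E n) 1)).toReal with hV
  have hvol : ∀ k, volume.real (closedBall x (s k)) = (s k) ^ n * V := by
    intro k
    rw [Measure.real, Measure.addHaar_closedBall' _ _ (hs k).le, finrank_euclideanSpace_fin,
      ENNReal.toReal_mul, ENNReal.toReal_ofReal (by have := hs k; positivity)]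
  rw [tendsto_iff_dist_tendsto_zero]
  have h2 : Tendsto (fun k => (C * V) * ⨍ y in closedBall x (s k), ‖f y - f x‖) atTop (𝓝 0) := by
    simpa using h1.const_mul (C * V)
  refine squeeze_zero (fun _ => dist_nonneg) (fun k => ?_) h2
  have hsk := hs k
  have e1 : AR (s k) f x - cR n * f x = ∫ z, (f z - f x) * Rk (s k) x z := by
    have e2 : ∫ z, (f z - f x) * Rk (s k) x z = (∫ z, f z * Rk (s k) x z) - ∫ z, f x * Rk (s k) x z := by
      rw [← integral_sub (AR_int hf hsk x)]
      · congr 1; funext z; ring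
      · exact (((Rk_smooth (s k) x).continuous.integrable_of_hasCompactSupport (Rk_cpt hsk x)).const_mul _)
    rw [e2, integral_const_mul, int_Rk hsk, AR]
    ring
  rw [Real.dist_eq, e1]
  have e3 : ∫ z, (f z - f x) * Rk (s k) x z = ∫ z in closedBall x (s k), (f z - f x) * Rk (s k) x z := by
    rw [setIntegral_eq_integral_of_forall_compl_eq_zero]
    intro z hz
    rw [mem_closedBall, not_le, dist_comm] at hz
    rw [Rk_supp hsk hz.le, mul_zero]
  rw [e3]
  have i1 : IntegrableOn (fun z => ‖f z - f x‖) (closedBall x (s k)) :=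
    (hf.integrableOn.sub (integrableOn_const (by
      exact (measure_closedBall_lt_top).ne))).norm
  calc |∫ z in closedBall x (s k), (f z - f x) * Rk (s k) x z|
      ≤ ∫ z in closedBall x (s k), |(f z - f x) * Rk (s k) x z| := by
        simpa using norm_integral_le_integral_norm (μ := volume.restrict (closedBall x (s k)))
          (fun z => (f z - f x) * Rk (s k) x z)
    _ ≤ ∫ z in closedBall x (s k), ‖f z - f x‖ * (((s k) ^ n)⁻¹ * C) := by
        refine integral_mono_of_nonneg (Eventually.of_forall fun z => abs_nonneg _)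
          (i1.mul_const _) (Eventually.of_forall fun z => ?_)
        simp only [abs_mul, Real.norm_eq_abs]
        rw [abs_of_nonneg (Rk_nonneg hsk x z)]
        exact mul_le_mul_of_nonneg_left (hC _ hsk x z) (abs_nonneg _)
    _ = (C * V) * ⨍ y in closedBall x (s k), ‖f y - f x‖ := by
        rw [integral_mul_const, setAverage_eq, hvol k, smul_eq_mul]
        have hV0 : V ≠ 0 := by
          have : 0 < volume (closedBall (0 : E n) 1) := measure_closedBall_pos _ _ one_pos
          exact (ENNReal.toReal_pos this.ne' measure_closedBall_lt_top.ne).ne'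
        field_simp

lemma ofReal_Hk_int {s : ℝ} (hs : 0 < s) (z : E n) (a : ℝ) (ha : 0 ≤ a) :
    ∫⁻ x, ENNReal.ofReal (a * Hk s x z) = ENNReal.ofReal (a * cH n) := by
  rw [← int_Hk' hs z, ← integral_const_mul]
  have hc : ContDiff ℝ ∞ (fun x : E n => Hk s x z) :=
    contDiff_const.mul (kH_contDiff.comp ((contDiff_id.sub contDiff_const).const_smul s⁻¹))
  have hcpt : HasCompactSupport (fun x : E n => Hk s x z) :=
    HasCompactSupport.intro (isCompact_closedBall z s) fun x hx => by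
      rw [mem_closedBall, not_le] at hx
      exact Hk_supp hs hx.le
  have hi : Integrable (fun x : E n => a * Hk s x z) :=
    (hc.continuous.integrable_of_hasCompactSupport hcpt).const_mul a
  rw [ofReal_integral_eq_lintegral_ofReal hi (Eventually.of_forall fun x => mul_nonneg ha (Hk_nonneg hs _ _))]

lemma meas_G : Measurable (fun p : (E n × ℝ) × E n => ENNReal.ofReal (p.1.2 * Hk p.1.2 p.1.1 p.2)) := by
  unfold Hk
  refine ENNReal.measurable_ofReal.comp ?_
  have h1 : Measurable fun p : (E n × ℝ) × E n => p.1.2 := measurable_snd.comp measurable_fst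
  refine h1.mul ((h1.pow_const n).inv.mul ?_)
  exact kH_contDiff.continuous.measurable.comp (h1.inv.smul ((measurable_fst.comp measurable_fst).sub measurable_snd))

/-- **L¹ estimate for two scales.** -/
theorem l1_two {U : Set (E n)} {f g : E n → ℝ} {τ : Measure (E n)} [IsFiniteMeasure τ]
    (hl : LapOn U f g τ) {V : Set (E n)} (hV : MeasurableSet V) {s h : ℝ} (hs : 0 < s) (hsh : s ≤ h)
    (hVU : ∀ x ∈ V, closedBall x h ⊆ U) :
    ∫⁻ x in V, ‖AR h f x - AR s f x‖ₑ ≤ ENNReal.ofReal (h * cH n) * τ univ * ENNReal.ofReal h := by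
  have hh : 0 < h := lt_of_lt_of_le hs hsh
  have key : ∀ x ∈ V, ‖AR h f x - AR s f x‖ₑ ≤
      ∫⁻ r in Ioc s h, ∫⁻ z, ENNReal.ofReal (r * Hk r x z) ∂τ := by
    intro x hx
    have e1 := ar_diff hl hs hsh (hVU x hx)
    rw [AR, AR, e1, intervalIntegral.integral_of_le hsh]
    refine (enorm_integral_le_lintegral_enorm _).trans ?_
    refine setLIntegral_mono' measurableSet_Ioc fun r hr => ?_
    have hr0 : 0 < r := lt_trans hs hr.1
    rw [← integral_const_mul]
    refine (enorm_integral_le_lintegral_enorm _).trans ?_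
    refine lintegral_mono fun z => ?_
    rw [← ofReal_norm]
    refine ENNReal.ofReal_le_ofReal ?_
    rw [Real.norm_eq_abs, abs_mul, abs_mul, abs_of_pos hr0, abs_of_nonneg (Hk_nonneg hr0 _ _)]
    refine mul_le_mul_of_nonneg_left ?_ hr0.le
    calc Hk r x z * |g z| ≤ Hk r x z * 1 := mul_le_mul_of_nonneg_left (hl.bd z) (Hk_nonneg hr0 _ _)
      _ = Hk r x z := mul_one _
  calc ∫⁻ x in V, ‖AR h f x - AR s f x‖ₑ
      ≤ ∫⁻ x in V, ∫⁻ r in Ioc s h, ∫⁻ z, ENNReal.ofReal (r * Hk r x z) ∂τ :=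
        setLIntegral_mono' hV key
    _ ≤ ∫⁻ x, ∫⁻ r in Ioc s h, ∫⁻ z, ENNReal.ofReal (r * Hk r x z) ∂τ := setLIntegral_le_lintegral _ _
    _ = ∫⁻ r in Ioc s h, ∫⁻ x : E n, ∫⁻ z, ENNReal.ofReal (r * Hk r x z) ∂τ := by
        refine lintegral_lintegral_swap ?_
        exact (Measurable.lintegral_prod_right' (ν := τ) (meas_G (n := n))).aemeasurable
    _ ≤ ∫⁻ _ in Ioc s h, ENNReal.ofReal (h * cH n) * τ univ := by
        refine setLIntegral_mono' measurableSet_Ioc fun r hr => ?_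
        have hr0 : 0 < r := lt_trans hs hr.1
        have hm : Measurable (Function.uncurry fun (x : E n) (z : E n) => ENNReal.ofReal (r * Hk r x z)) := by
          exact (meas_G (n := n)).comp ((measurable_fst.prodMk measurable_const).prodMk measurable_snd)
        rw [lintegral_lintegral_swap hm.aemeasurable]
        calc ∫⁻ z, (∫⁻ x : E n, ENNReal.ofReal (r * Hk r x z)) ∂τ
            = ∫⁻ _ : E n, ENNReal.ofReal (r * cH n) ∂τ := by
              congr 1; funext z; exact ofReal_Hk_int hr0 z r hr0.le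
          _ = ENNReal.ofReal (r * cH n) * τ univ := lintegral_const _
          _ ≤ ENNReal.ofReal (h * cH n) * τ univ := by
              refine mul_le_mul_left (ENNReal.ofReal_le_ofReal ?_) _
              exact mul_le_mul_of_nonneg_right hr.2 cH_nonneg
    _ = ENNReal.ofReal (h * cH n) * τ univ * volume (Ioc s h) := by
        rw [setLIntegral_const]
    _ ≤ ENNReal.ofReal (h * cH n) * τ univ * ENNReal.ofReal h := by
        rw [Real.volume_Ioc]
        gcongr
        linarith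

/-- **L¹ estimate.** -/
theorem l1_near {U : Set (E n)} {f g : E n → ℝ} {τ : Measure (E n)} [IsFiniteMeasure τ]
    (hl : LapOn U f g τ) {V : Set (E n)} (hV : MeasurableSet V) {h : ℝ} (hh : 0 < h)
    (hVU : ∀ x ∈ V, closedBall x h ⊆ U) :
    ∫⁻ x in V, ‖AR h f x - cR n * f x‖ₑ ≤ ENNReal.ofReal (h * cH n) * τ univ * ENNReal.ofReal h := by
  set s : ℕ → ℝ := fun k => h / ((k : ℝ) + 1) with hsd
  have hs : ∀ k, 0 < s k := fun k => by rw [hsd]; positivity
  have hsh : ∀ k, s k ≤ h := fun k => by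
    rw [hsd]
    exact div_le_self hh.le (by have : (0 : ℝ) ≤ k := Nat.cast_nonneg k; linarith)
  have hs0 : Tendsto s atTop (𝓝 0) := by
    have := (tendsto_one_div_add_atTop_nhds_zero_nat (𝕜 := ℝ)).const_mul h
    rw [mul_zero] at this
    refine this.congr fun k => ?_
    rw [hsd]; ring
  have hlim : ∀ᵐ x : E n ∂(volume.restrict V), Tendsto (fun k => ‖AR h f x - AR (s k) f x‖ₑ) atTop
      (𝓝 ‖AR h f x - cR n * f x‖ₑ) := by
    filter_upwards [ae_restrict_of_ae (AR_tendsto hl.int s hs hs0)] with x hx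
    exact (continuous_enorm.tendsto _).comp (tendsto_const_nhds.sub hx)
  have h1 : ∫⁻ x in V, ‖AR h f x - cR n * f x‖ₑ =
      ∫⁻ x in V, liminf (fun k => ‖AR h f x - AR (s k) f x‖ₑ) atTop := by
    refine lintegral_congr_ae ?_
    filter_upwards [hlim] with x hx
    exact hx.liminf_eq.symm
  rw [h1]
  refine (lintegral_liminf_le fun k => ?_).trans ?_
  · exact ((AR_cont hl.int hh).sub (AR_cont hl.int (hs k))).enorm.measurable
  · refine liminf_le_of_le (by isBoundedDefault) fun b hb => ?_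
    obtain ⟨k, hk⟩ := hb.exists
    exact hk.trans (l1_two hl hV (hs k) (hsh k) hVU)

end Run7.h104.Tri
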