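import Pool.Agent.Run7.h104.Tri3

/-! # Compactness in the mean -/

set_option autoImplicit false

open MeasureTheory Set Filter Topology Metric
open scoped InnerProductSpace ContDiff Laplacian

namespace Run7.h104.Tri

open Pool.Agent.Helper486.TP

variable {n : ℕ}

theorem finite_net {v g : ℕ → E n → ℝ} {M : ℕ → Measure (E n)} (hMf : ∀ k, IsFiniteMeasure (M k))
    (hl : ∀ k, LapOn (ball 0 4) (v k) (g k) (M k)) (hM : ∀ k, M k univ ≤ 1)
    (hv : ∀ k, ∫ z, |v k z| ≤ 1) {ε : ℝ} (hε : 0 < ε) :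
    ∃ N : Finset ℕ, ∀ k, ∃ j ∈ N, ∫⁻ x in ball (0 : E n) 3, ‖v k x - v j x‖ₑ ≤ ENNReal.ofReal ε := by
  set c := cR n with hc
  have hc0 : 0 < c := cR_pos
  have hcH : 0 ≤ cH n := cH_nonneg
  set h : ℝ := min 1 (c * ε / (3 * (cH n + 1))) with hhd
  have hh : 0 < h := lt_min one_pos (by positivity)
  have hh1 : h ≤ 1 := min_le_left _ _
  have hsmall : h * cH n * h ≤ c * ε / 3 := by
    have h1 : h ≤ c * ε / (3 * (cH n + 1)) := min_le_right _ _
    have h2 : h * cH n * h ≤ h * (cH n + 1) := by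
      have : h * cH n * h ≤ h * cH n * 1 := mul_le_mul_of_nonneg_left hh1 (by positivity)
      nlinarith
    refine h2.trans ?_
    calc h * (cH n + 1) ≤ c * ε / (3 * (cH n + 1)) * (cH n + 1) :=
          mul_le_mul_of_nonneg_right h1 (by positivity)
      _ = c * ε / 3 := by field_simp
  have hnear : ∀ k, ∫⁻ x in ball (0 : E n) 3, ‖AR h (v k) x - c * v k x‖ₑ ≤ ENNReal.ofReal (c * ε / 3) := by
    intro k
    have := hMf k
    refine (l1_near (hl k) measurableSet_ball hh ?_).trans ?_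
    · intro x hx y hy
      rw [mem_ball, dist_zero_right] at hx
      rw [mem_closedBall, dist_eq_norm] at hy
      rw [mem_ball, dist_zero_right]
      have : ‖y‖ ≤ ‖y - x‖ + ‖x‖ := by simpa using norm_add_le (y - x) x
      linarith
    · calc ENNReal.ofReal (h * cH n) * M k univ * ENNReal.ofReal h
          ≤ ENNReal.ofReal (h * cH n) * 1 * ENNReal.ofReal h := by gcongr; exact hM k
        _ = ENNReal.ofReal (h * cH n * h) := by rw [mul_one, ← ENNReal.ofReal_mul (by positivity)]
        _ ≤ ENNReal.ofReal (c * ε / 3) := ENNReal.ofReal_le_ofReal hsmall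
  obtain ⟨C, hC0, hC⟩ := AR_bdd (n := n)
  obtain ⟨L, hL0, hL⟩ := AR_lip (n := n)
  set K : Set (E n) := closedBall 0 3 with hK
  have : CompactSpace K := isCompact_iff_compactSpace.1 (isCompact_closedBall 0 3)
  set G : ℕ → BoundedContinuousFunction K ℝ := fun k =>
    BoundedContinuousFunction.mkOfCompact ⟨fun x : K => AR h (v k) x, (AR_cont (hl k).int hh).comp continuous_subtype_val⟩ with hG
  have hGv : ∀ k (x : K), G k x = AR h (v k) x := fun k x => rfl
  have hcomp : IsCompact (closure (range G)) := by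
    refine BoundedContinuousFunction.arzela_ascoli (closedBall (0 : ℝ) ((h ^ n)⁻¹ * C)) (isCompact_closedBall _ _) _ ?_ ?_
    · rintro f x ⟨k, rfl⟩
      rw [mem_closedBall, dist_zero_right, Real.norm_eq_abs, hGv]
      refine (hC (v k) (hl k).int h hh x).trans ?_
      calc (h ^ n)⁻¹ * C * ∫ z, |v k z| ≤ (h ^ n)⁻¹ * C * 1 := mul_le_mul_of_nonneg_left (hv k) (by positivity)
        _ = _ := mul_one _
    · refine (LipschitzWith.uniformEquicontinuous (K := Real.toNNReal ((h ^ (n + 1))⁻¹ * L)) _ ?_).equicontinuous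
      rintro ⟨f, k, rfl⟩
      refine LipschitzWith.of_dist_le_mul fun x y => ?_
      rw [Real.coe_toNNReal _ (by positivity), Real.dist_eq]
      change |G k x - G k y| ≤ _
      rw [hGv, hGv, Subtype.dist_eq, dist_eq_norm]
      refine (hL (v k) (hl k).int h hh x y).trans (mul_le_mul_of_nonneg_right ?_ (norm_nonneg _))
      calc (h ^ (n + 1))⁻¹ * L * ∫ z, |v k z| ≤ (h ^ (n + 1))⁻¹ * L * 1 := mul_le_mul_of_nonneg_left (hv k) (by positivity)
        _ = _ := mul_one _
  have htb : TotallyBounded (range G) := hcomp.totallyBounded.subset subset_closure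
  set V : ℝ := (volume (ball (0 : E n) 3)).toReal with hV
  have hV0 : 0 ≤ V := ENNReal.toReal_nonneg
  set δ : ℝ := c * ε / (3 * (V + 1)) with hδd
  have hδ : 0 < δ := by positivity
  obtain ⟨t, ht1, ht2, ht3⟩ := htb.exists_subset (Metric.dist_mem_uniformity hδ)
  choose! idx hidx using fun (y : BoundedContinuousFunction K ℝ) (hy : y ∈ t) => ht1 hy
  refine ⟨ht2.toFinset.image idx, fun k => ?_⟩
  obtain ⟨y, hy⟩ := mem_iUnion.1 (ht3 (mem_range_self k))
  obtain ⟨hyt, hyd⟩ := mem_iUnion.1 hy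
  refine ⟨idx y, Finset.mem_image_of_mem _ (ht2.mem_toFinset.2 hyt), ?_⟩
  set j := idx y with hj
  have hyj : G j = y := hidx y hyt
  have hd : dist (G k) (G j) < δ := by rw [hyj]; exact hyd
  have hmid : ∫⁻ x in ball (0 : E n) 3, ‖AR h (v k) x - AR h (v j) x‖ₑ ≤ ENNReal.ofReal (c * ε / 3) := by
    calc ∫⁻ x in ball (0 : E n) 3, ‖AR h (v k) x - AR h (v j) x‖ₑ
        ≤ ∫⁻ _ in ball (0 : E n) 3, ENNReal.ofReal δ := by
          refine setLIntegral_mono' measurableSet_ball fun x hx => ?_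
          have hxK : x ∈ K := ball_subset_closedBall hx
          have h1 : dist (G k ⟨x, hxK⟩) (G j ⟨x, hxK⟩) ≤ dist (G k) (G j) :=
            BoundedContinuousFunction.dist_coe_le_dist _
          rw [hGv, hGv, Real.dist_eq] at h1
          rw [← ofReal_norm, Real.norm_eq_abs]
          exact ENNReal.ofReal_le_ofReal (h1.trans hd.le)
      _ = ENNReal.ofReal δ * ENNReal.ofReal V := by
          rw [setLIntegral_const, hV, ENNReal.ofReal_toReal measure_ball_lt_top.ne]
      _ = ENNReal.ofReal (δ * V) := by rw [← ENNReal.ofReal_mul hδ.le]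
      _ ≤ ENNReal.ofReal (c * ε / 3) := by
          refine ENNReal.ofReal_le_ofReal ?_
          calc δ * V ≤ δ * (V + 1) := mul_le_mul_of_nonneg_left (by linarith) hδ.le
            _ = c * ε / 3 := by rw [hδd]; field_simp
  have hsum : ENNReal.ofReal c * ∫⁻ x in ball (0 : E n) 3, ‖v k x - v j x‖ₑ ≤ ENNReal.ofReal (c * ε) := by
    rw [← lintegral_const_mul' _ _ ENNReal.ofReal_ne_top]
    calc ∫⁻ x in ball (0 : E n) 3, ENNReal.ofReal c * ‖v k x - v j x‖ₑ
        ≤ ∫⁻ x in ball (0 : E n) 3, (‖AR h (v k) x - c * v k x‖ₑ + ‖AR h (v k) x - AR h (v j) x‖ₑ) +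
            ‖AR h (v j) x - c * v j x‖ₑ := by
          refine lintegral_mono fun x => ?_
          simp only
          rw [← ofReal_norm, ← ofReal_norm, ← ofReal_norm, ← ofReal_norm, ← ENNReal.ofReal_mul hc0.le,
            ← ENNReal.ofReal_add (norm_nonneg _) (norm_nonneg _), ← ENNReal.ofReal_add (by positivity) (norm_nonneg _)]
          refine ENNReal.ofReal_le_ofReal ?_
          have e1 : c * ‖v k x - v j x‖ = ‖c * v k x - c * v j x‖ := by
            rw [← mul_sub, norm_mul, Real.norm_of_nonneg hc0.le]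
          rw [e1]
          have e2 : c * v k x - c * v j x = -(AR h (v k) x - c * v k x) + (AR h (v k) x - AR h (v j) x) +
              (AR h (v j) x - c * v j x) := by ring
          rw [e2]
          refine (norm_add_le _ _).trans (add_le_add_left ((norm_add_le _ _).trans ?_) _)
          rw [norm_neg]
      _ = (∫⁻ x in ball (0 : E n) 3, ‖AR h (v k) x - c * v k x‖ₑ) +
            (∫⁻ x in ball (0 : E n) 3, ‖AR h (v k) x - AR h (v j) x‖ₑ) +
            ∫⁻ x in ball (0 : E n) 3, ‖AR h (v j) x - c * v j x‖ₑ := by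
          have m1 : Continuous (AR h (v k)) := AR_cont (hl k).int hh
          have m2 : Continuous (AR h (v j)) := AR_cont (hl j).int hh
          have m3 : AEMeasurable (fun x => ‖AR h (v k) x - c * v k x‖ₑ) (volume.restrict (ball (0 : E n) 3)) :=
            (m1.aemeasurable.sub ((hl k).int.aemeasurable.restrict.const_mul c)).enorm
          have m4 : AEMeasurable (fun x => ‖AR h (v k) x - c * v k x‖ₑ + ‖AR h (v k) x - AR h (v j) x‖ₑ)
              (volume.restrict (ball (0 : E n) 3)) := m3.add (m1.sub m2).enorm.measurable.aemeasurable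
          rw [lintegral_add_left' m4, lintegral_add_left' m3]
      _ ≤ ENNReal.ofReal (c * ε / 3) + ENNReal.ofReal (c * ε / 3) + ENNReal.ofReal (c * ε / 3) :=
          add_le_add (add_le_add (hnear k) hmid) (hnear j)
      _ = ENNReal.ofReal (c * ε) := by
          rw [← ENNReal.ofReal_add (by positivity) (by positivity), ← ENNReal.ofReal_add (by positivity) (by positivity)]
          congr 1; ring
  rw [ENNReal.ofReal_mul hc0.le] at hsum
  exact (ENNReal.mul_le_mul_iff_right (ENNReal.ofReal_pos.2 hc0).ne' ENNReal.ofReal_ne_top).1 hsum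

/-- compactness along an ultrafilter -/
theorem compact_ultra {v g : ℕ → E n → ℝ} {M : ℕ → Measure (E n)} (hMf : ∀ k, IsFiniteMeasure (M k))
    (hl : ∀ k, LapOn (ball 0 4) (v k) (g k) (M k)) (hM : ∀ k, M k univ ≤ 1)
    (hv : ∀ k, ∫ z, |v k z| ≤ 1) (𝒰 : Ultrafilter ℕ) :
    ∃ w : E n → ℝ, Integrable w ∧
      Tendsto (fun k => ∫⁻ x in ball (0 : E n) 3, ‖v k x - w x‖ₑ) 𝒰 (𝓝 0) := by
  set μ : Measure (E n) := volume.restrict (ball 0 3) with hμ
  have hi : ∀ k, Integrable (v k) μ := fun k => (hl k).int.restrict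
  set F : ℕ → (E n →₁[μ] ℝ) := fun k => (hi k).toL1 (v k) with hF
  have hFd : ∀ k j, edist (F k) (F j) = ∫⁻ x in ball (0 : E n) 3, ‖v k x - v j x‖ₑ := by
    intro k j
    rw [hF]
    simp only
    rw [Integrable.edist_toL1_toL1]
    simp only [edist_eq_enorm_sub]
    rfl
  have htb : TotallyBounded (range F) := by
    rw [EMetric.totallyBounded_iff]
    intro ε hε
    obtain ⟨ε', hε'0, hε'⟩ : ∃ ε' : ℝ, 0 < ε' ∧ ENNReal.ofReal ε' < ε := by
      rcases eq_or_ne ε ⊤ with h | h
      · exact ⟨1, one_pos, by rw [h]; exact ENNReal.ofReal_lt_top⟩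
      · refine ⟨ε.toReal / 2, half_pos (ENNReal.toReal_pos hε.ne' h), ?_⟩
        rw [ENNReal.ofReal_lt_iff_lt_toReal (by positivity) h]
        exact half_lt_self (ENNReal.toReal_pos hε.ne' h)
    obtain ⟨N, hN⟩ := finite_net hMf hl hM hv hε'0
    refine ⟨F '' N, (N.finite_toSet.image F), ?_⟩
    rintro _ ⟨k, rfl⟩
    obtain ⟨j, hj, hkj⟩ := hN k
    refine mem_iUnion₂.2 ⟨F j, mem_image_of_mem _ hj, ?_⟩
    rw [Metric.mem_eball, hFd]
    exact lt_of_le_of_lt hkj hε'
  have hcomp : IsCompact (closure (range F)) := htb.closure.isCompact_of_isClosed isClosed_closure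
  obtain ⟨w, -, hw⟩ := hcomp.ultrafilter_le_nhds (𝒰.map F) (by
    rw [le_principal_iff]
    change F ⁻¹' (closure (range F)) ∈ (𝒰 : Filter ℕ)
    exact univ_mem' fun k => subset_closure (mem_range_self k))
  have hw' : Tendsto F 𝒰 (𝓝 w) := hw
  refine ⟨(ball (0 : E n) 3).indicator w, ?_, ?_⟩
  · exact (integrable_indicator_iff measurableSet_ball).2 (L1.integrable_coeFn w)
  · have h1 : Tendsto (fun k => edist (F k) w) 𝒰 (𝓝 0) := tendsto_iff_edist_tendsto_0.1 hw'
    refine h1.congr fun k => ?_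
    rw [L1.edist_def]
    simp only [edist_eq_enorm_sub]
    change ∫⁻ x, ‖F k x - w x‖ₑ ∂μ = ∫⁻ x, ‖v k x - (ball (0 : E n) 3).indicator w x‖ₑ ∂μ
    refine lintegral_congr_ae ?_
    have e1 : F k =ᵐ[μ] v k := (hi k).coeFn_toL1
    have e2 : ∀ᵐ x ∂μ, x ∈ ball (0 : E n) 3 := ae_restrict_mem measurableSet_ball
    filter_upwards [e1, e2] with x hx hx2
    rw [hx, indicator_of_mem hx2]

end Run7.h104.Tri
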