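import Pool.Agent.Run7.h104.Tri4

/-! # Smoothness of averages and derivative bounds -/

set_option autoImplicit false

open MeasureTheory Set Filter Topology Metric
open scoped InnerProductSpace ContDiff Laplacian Convolution

namespace Run7.h104.Tri

open Pool.Agent.Helper486.TP

variable {n : ℕ}

/-- the kernel at the origin -/
noncomputable def K0 (t : ℝ) (w : E n) : ℝ := (t ^ n)⁻¹ * kR (t⁻¹ • w)

lemma K0_smooth (t : ℝ) : ContDiff ℝ ∞ (K0 (n := n) t) :=
  contDiff_const.mul (kR_contDiff.comp (contDiff_id.const_smul t⁻¹))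

lemma K0_supp {t : ℝ} (ht : 0 < t) {w : E n} (h : t ≤ ‖w‖) : K0 t w = 0 := by
  rw [K0, kR_supp, mul_zero]
  rw [norm_smul, Real.norm_eq_abs, abs_of_pos (inv_pos.2 ht), inv_mul_eq_div, one_le_div ht]
  exact h

lemma K0_cpt {t : ℝ} (ht : 0 < t) : HasCompactSupport (K0 (n := n) t) :=
  HasCompactSupport.intro (isCompact_closedBall 0 t) fun x hx => K0_supp ht (by
    rw [mem_closedBall_zero_iff, not_le] at hx; exact hx.le)

lemma Rk_eq (t : ℝ) (x z : E n) : Rk t x z = K0 t (x - z) := rfl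

lemma AR_eq_conv (t : ℝ) (f : E n → ℝ) :
    AR t f = convolution f (K0 t) (ContinuousLinearMap.mul ℝ ℝ) volume := rfl

lemma AR_smooth {t : ℝ} (ht : 0 < t) {f : E n → ℝ} (hf : LocallyIntegrable f) :
    ContDiff ℝ ∞ (AR t f) := by
  rw [AR_eq_conv]
  exact (K0_cpt ht).contDiff_convolution_right _ hf (K0_smooth t)

lemma AR_fderiv {t : ℝ} (ht : 0 < t) {f : E n → ℝ} (hf : LocallyIntegrable f) (x e : E n) :
    fderiv ℝ (AR t f) x e = ∫ z, f z * fderiv ℝ (K0 t) (x - z) e := by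
  have h1 := (K0_cpt (n := n) ht).hasFDerivAt_convolution_right (ContinuousLinearMap.mul ℝ ℝ) hf
    ((K0_smooth t).of_le (by norm_cast)) x
  rw [AR_eq_conv, h1.fderiv]
  rw [convolution_precompR_apply _ hf ((K0_cpt ht).fderiv ℝ) ((K0_smooth t).continuous_fderiv (by simp))]
  rfl

lemma K0_fderiv (t : ℝ) (w e : E n) :
    fderiv ℝ (K0 t) w e = (t ^ n)⁻¹ * (t⁻¹ * fderiv ℝ (kR (n := n)) (t⁻¹ • w) e) := by
  have h1 : HasFDerivAt (fun w : E n => t⁻¹ • w) (t⁻¹ • (ContinuousLinearMap.id ℝ (E n))) w :=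
    (hasFDerivAt_id w).const_smul t⁻¹
  have h2 : HasFDerivAt (kR (n := n)) (fderiv ℝ kR (t⁻¹ • w)) (t⁻¹ • w) :=
    ((kR_contDiff.differentiable (by simp)) _).hasFDerivAt
  have h3 := (HasFDerivAt.comp (g := kR) (f := fun w : E n => t⁻¹ • w) w h2 h1).const_mul ((t ^ n)⁻¹)
  have h4 : fderiv ℝ (K0 t) w = _ := h3.fderiv
  rw [h4]
  simp

/-- the derivative falls on the smooth function -/
lemma AR_fderiv' {t : ℝ} (ht : 0 < t) {f : E n → ℝ} (hf : ContDiff ℝ ∞ f) (x e : E n) :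
    fderiv ℝ (AR t f) x e = AR t (fun z => fderiv ℝ f z e) x := by
  rw [AR_fderiv ht hf.continuous.locallyIntegrable, AR]
  have h1 : ∀ z, fderiv ℝ (Rk t x) z e = -(fderiv ℝ (K0 t) (x - z) e) := by
    intro z
    have a1 : HasFDerivAt (fun z : E n => x - z) (-(ContinuousLinearMap.id ℝ (E n))) z :=
      (hasFDerivAt_id z).const_sub x
    have a2 : HasFDerivAt (K0 (n := n) t) (fderiv ℝ (K0 t) (x - z)) (x - z) :=
      (((K0_smooth t).differentiable (by simp)) _).hasFDerivAt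
    have a3 := HasFDerivAt.comp (g := K0 t) (f := fun z : E n => x - z) z a2 a1
    have a4 : fderiv ℝ (Rk t x) z = _ := a3.fderiv
    rw [a4]
    simp
  have h2 := int_parts f (Rk t x) (hf.of_le (by norm_cast)) ((Rk_smooth t x).of_le (by norm_cast))
    (Rk_cpt ht x) e
  simp_rw [h1] at h2
  simp only [mul_neg, integral_neg, neg_inj] at h2
  exact h2

/-- constant -/
noncomputable def cD (n : ℕ) : ℝ := ∫ w : E n, ‖fderiv ℝ (kR (n := n)) w‖

lemma cD_nonneg : 0 ≤ cD n := integral_nonneg fun _ => norm_nonneg _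

lemma AR_fderiv_le {t : ℝ} (ht : 0 < t) {f : E n → ℝ} (hf : Continuous f) {x e : E n} (he : ‖e‖ ≤ 1)
    {B : ℝ} (hB0 : 0 ≤ B) (hB : ∀ z ∈ ball x t, |f z| ≤ B) :
    |fderiv ℝ (AR t f) x e| ≤ B * (t⁻¹ * cD n) := by
  rw [AR_fderiv ht hf.locallyIntegrable]
  have hsc : ∫ z : E n, (t ^ n)⁻¹ * ‖fderiv ℝ (kR (n := n)) (t⁻¹ • (x - z))‖ = cD n :=
    int_scaled (fun w => ‖fderiv ℝ (kR (n := n)) w‖) ht x
  have hc : Continuous fun z : E n => (t ^ n)⁻¹ * ‖fderiv ℝ (kR (n := n)) (t⁻¹ • (x - z))‖ :=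
    continuous_const.mul (((kR_contDiff (n := n)).continuous_fderiv (by simp)).comp
      (aff_smooth t⁻¹ x).continuous).norm
  have hcs : HasCompactSupport fun z : E n => (t ^ n)⁻¹ * ‖fderiv ℝ (kR (n := n)) (t⁻¹ • (x - z))‖ := by
    refine HasCompactSupport.intro (isCompact_closedBall x t) fun z hz => ?_
    rw [mem_closedBall, not_le, dist_comm] at hz
    have h1 : 1 < ‖t⁻¹ • (x - z)‖ := by
      rw [norm_smul, Real.norm_eq_abs, abs_of_pos (inv_pos.2 ht), ← dist_eq_norm, inv_mul_eq_div,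
        one_lt_div ht]
      exact hz
    have h2 : t⁻¹ • (x - z) ∉ tsupport (kR (n := n)) := by
      intro h3
      have h4 : tsupport (kR (n := n)) ⊆ closedBall 0 1 := by
        refine closure_minimal (fun w hw => ?_) isClosed_closedBall
        by_contra h5
        rw [mem_closedBall_zero_iff, not_le] at h5
        exact hw (kR_supp h5.le)
      have := h4 h3
      rw [mem_closedBall_zero_iff] at this
      linarith
    have h3 : fderiv ℝ (kR (n := n)) (t⁻¹ • (x - z)) = 0 := by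
      by_contra h4
      exact h2 (support_fderiv_subset ℝ h4)
    rw [h3]; simp
  have hi : Integrable fun z : E n => (t ^ n)⁻¹ * ‖fderiv ℝ (kR (n := n)) (t⁻¹ • (x - z))‖ :=
    hc.integrable_of_hasCompactSupport hcs
  calc |∫ z, f z * fderiv ℝ (K0 t) (x - z) e| ≤ ∫ z, |f z * fderiv ℝ (K0 t) (x - z) e| := by
        simpa using norm_integral_le_integral_norm (fun z => f z * fderiv ℝ (K0 t) (x - z) e)
    _ ≤ ∫ z, (B * t⁻¹) * ((t ^ n)⁻¹ * ‖fderiv ℝ (kR (n := n)) (t⁻¹ • (x - z))‖) := by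
        refine integral_mono_of_nonneg (Eventually.of_forall fun z => abs_nonneg _) (hi.const_mul _)
          (Eventually.of_forall fun z => ?_)
        simp only
        rw [K0_fderiv, abs_mul, abs_mul, abs_mul, abs_of_pos (by positivity : (0 : ℝ) < (t ^ n)⁻¹),
          abs_of_pos (inv_pos.2 ht)]
        by_cases hz : z ∈ ball x t
        · have h1 : |fderiv ℝ (kR (n := n)) (t⁻¹ • (x - z)) e| ≤ ‖fderiv ℝ (kR (n := n)) (t⁻¹ • (x - z))‖ := by
            have := ContinuousLinearMap.le_opNorm (fderiv ℝ (kR (n := n)) (t⁻¹ • (x - z))) e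
            rw [Real.norm_eq_abs] at this
            refine this.trans ?_
            calc _ ≤ ‖fderiv ℝ (kR (n := n)) (t⁻¹ • (x - z))‖ * 1 := mul_le_mul_of_nonneg_left he (norm_nonneg _)
              _ = _ := mul_one _
          calc |f z| * ((t ^ n)⁻¹ * (t⁻¹ * |fderiv ℝ (kR (n := n)) (t⁻¹ • (x - z)) e|))
              ≤ B * ((t ^ n)⁻¹ * (t⁻¹ * ‖fderiv ℝ (kR (n := n)) (t⁻¹ • (x - z))‖)) := by
                refine mul_le_mul (hB z hz) ?_ (by positivity) hB0
                gcongr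
            _ = _ := by ring
        · have h0 : fderiv ℝ (kR (n := n)) (t⁻¹ • (x - z)) = 0 := by
            rw [mem_ball, not_lt, dist_comm] at hz
            have h1 : 1 ≤ ‖t⁻¹ • (x - z)‖ := scale_supp ht hz
            have hmin : ∀ᶠ w in 𝓝 (t⁻¹ • (x - z)), kR (t⁻¹ • (x - z)) ≤ kR w := by
              rw [kR_supp h1]
              exact Eventually.of_forall fun w => kR_nonneg w
            exact (IsLocalMin.fderiv_eq_zero (show IsLocalMin (kR (n := n)) (t⁻¹ • (x - z)) from hmin))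
          rw [h0]
          simp
    _ = B * (t⁻¹ * cD n) := by
        rw [integral_const_mul, hsc]; ring

/-- one-dimensional Taylor estimate -/
lemma taylor_bound (m : ℕ) : ∀ (φ : ℕ → ℝ → ℝ) (a B : ℝ), 0 ≤ a → 0 ≤ B →
    (∀ j, ∀ τ ∈ Icc 0 a, HasDerivAt (φ j) (φ (j + 1) τ) τ) → (∀ j, φ j 0 = 0) →
    (∀ τ ∈ Icc 0 a, |φ m τ| ≤ B) → ∀ τ ∈ Icc 0 a, |φ 0 τ| ≤ B * τ ^ m / (m.factorial : ℝ) := by
  induction m with
  | zero =>
    intro φ a B ha hB hd h0 hb τ hτ
    simpa using hb τ hτ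
  | succ m ih =>
    intro φ a B ha hB hd h0 hb τ hτ
    have h1 := ih (fun j => φ (j + 1)) a B ha hB (fun j => hd (j + 1)) (fun j => h0 (j + 1)) hb
    have hcont : ContinuousOn (φ 1) (uIcc 0 τ) := by
      rw [uIcc_of_le hτ.1]
      intro s hs
      exact (hd 1 s ⟨hs.1, hs.2.trans hτ.2⟩).continuousAt.continuousWithinAt
    have h2 : ∫ s in (0 : ℝ)..τ, φ 1 s = φ 0 τ - φ 0 0 := by
      refine intervalIntegral.integral_eq_sub_of_hasDerivAt (fun s hs => ?_) hcont.intervalIntegrable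
      rw [uIcc_of_le hτ.1] at hs
      exact hd 0 s ⟨hs.1, hs.2.trans hτ.2⟩
    rw [h0 0, sub_zero] at h2
    rw [← h2]
    have h3 : ‖∫ s in (0 : ℝ)..τ, φ 1 s‖ ≤ ∫ s in (0 : ℝ)..τ, B * s ^ m / (m.factorial : ℝ) := by
      refine intervalIntegral.norm_integral_le_of_norm_le hτ.1 ?_ ?_
      · refine Eventually.of_forall fun s hs => ?_
        exact h1 s ⟨hs.1.le, hs.2.trans hτ.2⟩
      · exact (by fun_prop : Continuous fun s : ℝ => B * s ^ m / (m.factorial : ℝ)).intervalIntegrable _ _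
    rw [Real.norm_eq_abs] at h3
    refine h3.trans (le_of_eq ?_)
    have h4 : ∫ s in (0 : ℝ)..τ, B * s ^ m / (m.factorial : ℝ) = (B / (m.factorial : ℝ)) * ∫ s in (0 : ℝ)..τ, s ^ m := by
      rw [← intervalIntegral.integral_const_mul]
      congr 1; funext s; ring
    rw [h4, integral_pow]
    rw [Nat.factorial_succ]
    push_cast
    have : (m.factorial : ℝ) ≠ 0 := by positivity
    have : (m : ℝ) + 1 ≠ 0 := by positivity
    field_simp
    simp

end Run7.h104.Tri
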