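import Pool.Agent.Run7.h104.Tri5

/-! # Weyl lemma and unique continuation -/

set_option autoImplicit false

open MeasureTheory Set Filter Topology Metric
open scoped InnerProductSpace ContDiff Laplacian

namespace Run7.h104.Tri

open Pool.Agent.Helper486.TP

variable {n : ℕ}

/-- weakly harmonic integrable functions -/
structure HarmOn (U : Set (E n)) (v : E n → ℝ) : Prop where
  int : Integrable v
  eq : ∀ φ, TestOn U φ → ∫ x, v x * (Δ φ) x = 0

lemma HarmOn.lapOn {U : Set (E n)} {v : E n → ℝ} (h : HarmOn U v) :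
    LapOn U v (fun _ => 0) (0 : Measure (E n)) where
  int := h.int
  meas := measurable_const
  bd := fun x => by simp
  eq := fun φ hφ => by rw [h.eq φ hφ]; simp

lemma HarmOn.mono {U V : Set (E n)} {v : E n → ℝ} (h : HarmOn U v) (hV : V ⊆ U) : HarmOn V v :=
  ⟨h.int, fun φ hφ => h.eq φ (hφ.mono hV)⟩

lemma HarmOn.scale {U : Set (E n)} {v : E n → ℝ} (hv : HarmOn U v) {x : E n} {s h : ℝ}
    (hs : 0 < s) (hsh : s ≤ h) (hx : closedBall x h ⊆ U) : AR h v x = AR s v x := by
  have h1 := ar_diff hv.lapOn hs hsh hx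
  simp at h1
  exact sub_eq_zero.1 h1

lemma HarmOn.ae_eq {U : Set (E n)} {v : E n → ℝ} (hv : HarmOn U v) {V : Set (E n)}
    (hV : MeasurableSet V) {h : ℝ} (hh : 0 < h) (hVU : ∀ x ∈ V, closedBall x h ⊆ U) :
    ∀ᵐ x ∂(volume.restrict V), AR h v x = cR n * v x := by
  have h1 := l1_near hv.lapOn hV hh hVU
  have h2 : ∫⁻ x in V, ‖AR h v x - cR n * v x‖ₑ = 0 := by
    refine le_antisymm (h1.trans ?_) zero_le
    simp
  have hm : AEMeasurable (fun x => ‖AR h v x - cR n * v x‖ₑ) (volume.restrict V) :=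
    ((AR_cont hv.int hh).aemeasurable.sub (hv.int.aemeasurable.restrict.const_mul _)).enorm
  rw [lintegral_eq_zero_iff' hm] at h2
  filter_upwards [h2] with x hx
  have : AR h v x - cR n * v x = 0 := by simpa using hx
  linarith

/-- iterated directional derivatives -/
noncomputable def DD (e : E n) (G : E n → ℝ) : ℕ → E n → ℝ
  | 0 => G
  | (j + 1) => fun z => fderiv ℝ (DD e G j) z e

lemma DD_smooth (e : E n) {G : E n → ℝ} (hG : ContDiff ℝ ∞ G) (j : ℕ) : ContDiff ℝ ∞ (DD e G j) := by
  induction j with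
  | zero => exact hG
  | succ j ih => exact (ih.fderiv_right (m := ∞) (by norm_cast)).clm_apply contDiff_const

lemma DD_zero (e : E n) {G : E n → ℝ} {V : Set (E n)} (hV : IsOpen V) (h : ∀ x ∈ V, G x = 0) (j : ℕ) :
    ∀ x ∈ V, DD e G j x = 0 := by
  induction j with
  | zero => exact h
  | succ j ih =>
    intro x hx
    have h1 : DD e G j =ᶠ[𝓝 x] fun _ => (0 : ℝ) := by
      filter_upwards [hV.mem_nhds hx] with y hy using ih y hy
    change fderiv ℝ (DD e G j) x e = 0
    rw [h1.fderiv_eq]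
    simp

lemma uc_taylor {G : E n → ℝ} (hG : ContDiff ℝ ∞ G) {p : E n} {R M0 : ℝ} (hR : 0 < R) (hM0 : 0 ≤ M0)
    (hb : ∀ x, |G x| ≤ M0)
    (hmean : ∀ t : ℝ, 0 < t → ∀ x, dist x p + t < R / 2 → AR t G x = cR n * G x)
    {δ : ℝ} (hδ : 0 < δ) (h0 : ∀ x ∈ ball p δ, G x = 0) {e : E n} (he : ‖e‖ ≤ 1) {τ : ℝ} (hτ : 0 ≤ τ)
    (hτ1 : τ ≤ R / 8) (hτ2 : 8 * (cD n + 1) * Real.exp 1 * τ ≤ cR n * R) : G (p + τ • e) = 0 := by
  have hc : 0 < cR n := cR_pos
  have hcD : 0 ≤ cD n := cD_nonneg
  have hmean' : ∀ j : ℕ, ∀ t : ℝ, 0 < t → ∀ x, dist x p + t < R / 2 →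
      AR t (DD e G j) x = cR n * DD e G j x := by
    intro j
    induction j with
    | zero => exact hmean
    | succ j ih =>
      intro t ht x hx
      have hs := DD_smooth e hG j
      have h1 : AR t (DD e G j) =ᶠ[𝓝 x] fun y => cR n * DD e G j y := by
        have hop : IsOpen {y : E n | dist y p + t < R / 2} :=
          isOpen_lt ((continuous_id.dist continuous_const).add continuous_const) continuous_const
        filter_upwards [hop.mem_nhds hx] with y hy using ih t ht y hy
      have h2 : fderiv ℝ (AR t (DD e G j)) x e = cR n * fderiv ℝ (DD e G j) x e := by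
        rw [h1.fderiv_eq, fderiv_const_mul ((hs.differentiable (by simp)) x)]
        simp
      rw [AR_fderiv' ht hs] at h2
      exact h2
  have hbd : ∀ t : ℝ, 0 < t → ∀ j : ℕ, ∀ x, dist x p + j * t < R / 2 →
      |DD e G j x| ≤ M0 * (t⁻¹ * cD n / cR n) ^ j := by
    intro t ht j
    induction j with
    | zero =>
      intro x _
      change |G x| ≤ _
      simpa using hb x
    | succ j ih =>
      intro x hx
      have hs := DD_smooth e hG j
      push_cast at hx
      have hjt : 0 ≤ (j : ℝ) * t := by positivity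
      have hxt : dist x p + t < R / 2 := by nlinarith
      have h1 := hmean' (j + 1) t ht x hxt
      have h2 : AR t (DD e G (j + 1)) x = fderiv ℝ (AR t (DD e G j)) x e := (AR_fderiv' ht hs x e).symm
      have h3 := AR_fderiv_le ht hs.continuous (x := x) he
        (B := M0 * (t⁻¹ * cD n / cR n) ^ j) (by positivity) (fun z hz => ih z (by
          rw [mem_ball] at hz
          have := dist_triangle z x p
          nlinarith))
      rw [← h2, h1, abs_mul, abs_of_pos hc] at h3
      rw [pow_succ]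
      have h4 : |DD e G (j + 1) x| ≤ (M0 * (t⁻¹ * cD n / cR n) ^ j * (t⁻¹ * cD n)) / cR n := by
        rw [le_div_iff₀ hc]
        linarith
      refine h4.trans (le_of_eq ?_)
      ring
  have hlim : ∀ m : ℕ, 0 < m → |G (p + τ • e)| ≤ M0 * (1 / 2) ^ m := by
    intro m hm
    have hm' : (0 : ℝ) < m := by exact_mod_cast hm
    set t : ℝ := R / (4 * m) with htd
    have ht : 0 < t := by positivity
    have hmt : (m : ℝ) * t = R / 4 := by rw [htd]; field_simp
    have hder : ∀ j, ∀ s ∈ Icc (0 : ℝ) (R / 8), HasDerivAt (fun s : ℝ => DD e G j (p + s • e))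
        (DD e G (j + 1) (p + s • e)) s := by
      intro j s _
      have a1 : HasDerivAt (fun s : ℝ => p + s • e) e s := by
        simpa using ((hasDerivAt_id s).smul_const e).const_add p
      have a2 : HasFDerivAt (DD e G j) (fderiv ℝ (DD e G j) (p + s • e)) (p + s • e) :=
        (((DD_smooth e hG j).differentiable (by simp)) _).hasFDerivAt
      exact HasFDerivAt.comp_hasDerivAt (l := DD e G j) (f := fun s : ℝ => p + s • e) s a2 a1
    have h00 : ∀ j, DD e G j (p + (0 : ℝ) • e) = 0 := by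
      intro j
      rw [zero_smul, add_zero]
      exact DD_zero e isOpen_ball h0 j p (mem_ball_self hδ)
    have hB : ∀ s ∈ Icc (0 : ℝ) (R / 8), |DD e G m (p + s • e)| ≤ M0 * (t⁻¹ * cD n / cR n) ^ m := by
      intro s hs
      refine hbd t ht m _ ?_
      have : dist (p + s • e) p ≤ R / 8 := by
        rw [dist_eq_norm, add_sub_cancel_left, norm_smul, Real.norm_eq_abs, abs_of_nonneg hs.1]
        calc s * ‖e‖ ≤ s * 1 := mul_le_mul_of_nonneg_left he hs.1
          _ ≤ R / 8 := by rw [mul_one]; exact hs.2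
      rw [hmt]
      linarith
    have h1 := taylor_bound m (fun j s => DD e G j (p + s • e)) (R / 8) (M0 * (t⁻¹ * cD n / cR n) ^ m)
      (by positivity) (by positivity) hder h00 hB τ ⟨hτ, hτ1⟩
    refine (show |G (p + τ • e)| ≤ _ from h1).trans ?_
    have h2 : M0 * (t⁻¹ * cD n / cR n) ^ m * τ ^ m / (m.factorial : ℝ) =
        M0 * ((4 * cD n * τ / (cR n * R)) ^ m * ((m : ℝ) ^ m / (m.factorial : ℝ))) := by
      have : t⁻¹ * cD n / cR n = (4 * cD n / (cR n * R)) * m := by
        rw [htd]; field_simp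
      rw [this, mul_pow, div_pow, div_pow, mul_pow]
      ring
    rw [h2]
    refine mul_le_mul_of_nonneg_left ?_ hM0
    have h3 : (m : ℝ) ^ m / (m.factorial : ℝ) ≤ Real.exp 1 ^ m := by
      rw [← Real.exp_nat_mul, mul_one]
      exact Real.pow_div_factorial_le_exp _ hm'.le m
    calc (4 * cD n * τ / (cR n * R)) ^ m * ((m : ℝ) ^ m / (m.factorial : ℝ))
        ≤ (4 * cD n * τ / (cR n * R)) ^ m * Real.exp 1 ^ m :=
          mul_le_mul_of_nonneg_left h3 (by positivity)
      _ = (4 * cD n * τ / (cR n * R) * Real.exp 1) ^ m := by rw [mul_pow]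
      _ ≤ (1 / 2) ^ m := by
          refine pow_le_pow_left₀ (by positivity) ?_ m
          have hcr : 0 < cR n * R := by positivity
          rw [div_mul_eq_mul_div, div_le_div_iff₀ hcr two_pos]
          have hexp : 0 < Real.exp 1 := Real.exp_pos 1
          nlinarith [mul_nonneg hτ hexp.le]
  have h1 : Tendsto (fun m : ℕ => M0 * (1 / 2 : ℝ) ^ m) atTop (𝓝 0) := by
    simpa using (tendsto_pow_atTop_nhds_zero_of_lt_one (by norm_num : (0 : ℝ) ≤ 1 / 2) (by norm_num)).const_mul M0
  have h2 : |G (p + τ • e)| ≤ 0 :=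
    ge_of_tendsto h1 (by filter_upwards [eventually_gt_atTop 0] with m hm using hlim m hm)
  exact abs_nonpos_iff.1 h2

/-- local unique continuation -/
theorem uc_local : ∃ κ : ℝ, 0 < κ ∧ ∀ (U : Set (E n)) (v : E n → ℝ), HarmOn U v → ∀ (p : E n) (R : ℝ),
    0 < R → closedBall p R ⊆ U → ∀ δ : ℝ, 0 < δ → (∀ᵐ x, x ∈ ball p δ → v x = 0) →
    ∀ᵐ x, x ∈ ball p (κ * R) → v x = 0 := by
  have hc : 0 < cR n := cR_pos
  have hcD : 0 ≤ cD n := cD_nonneg
  have hexp : 0 < Real.exp 1 := Real.exp_pos 1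
  set κ : ℝ := min (1 / 8) (cR n / (8 * (cD n + 1) * Real.exp 1)) with hκ
  have hκ0 : 0 < κ := lt_min (by norm_num) (by positivity)
  refine ⟨κ, hκ0, fun U v hv p R hR hU δ hδ h0 => ?_⟩
  have hκ1 : κ ≤ 1 / 8 := min_le_left _ _
  have hκ2 : 8 * (cD n + 1) * Real.exp 1 * κ ≤ cR n := by
    have : κ ≤ cR n / (8 * (cD n + 1) * Real.exp 1) := min_le_right _ _
    rw [le_div_iff₀ (by positivity)] at this
    linarith
  have hR2 : 0 < R / 2 := by positivity
  set G : E n → ℝ := fun x => (cR n)⁻¹ * AR (R / 2) v x with hGd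
  have hG : ContDiff ℝ ∞ G := contDiff_const.mul (AR_smooth hR2 hv.int.locallyIntegrable)
  have ha : ∀ x ∈ ball p (R / 2), ∀ s : ℝ, 0 < s → s ≤ R / 2 → AR s v x = cR n * G x := by
    intro x hx s hs hs2
    have h1 : closedBall x (R / 2) ⊆ U := by
      refine Subset.trans (fun y hy => ?_) hU
      rw [mem_closedBall] at hy ⊢
      rw [mem_ball] at hx
      have := dist_triangle y x p
      linarith
    rw [← hv.scale hs hs2 h1, hGd]
    field_simp
  have hb : ∀ᵐ x ∂(volume.restrict (ball p (R / 2))), v x = G x := by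
    have h1 := hv.ae_eq (V := ball p (R / 2)) measurableSet_ball hR2 (fun x hx => by
      refine Subset.trans (fun y hy => ?_) hU
      rw [mem_closedBall] at hy ⊢
      rw [mem_ball] at hx
      have := dist_triangle y x p
      linarith)
    filter_upwards [h1] with x hx
    rw [hGd]
    simp only
    rw [hx]
    field_simp
  have hb' : ∀ᵐ x, x ∈ ball p (R / 2) → v x = G x := (ae_restrict_iff' measurableSet_ball).1 hb
  have hmean : ∀ t : ℝ, 0 < t → ∀ x, dist x p + t < R / 2 → AR t G x = cR n * G x := by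
    intro t ht x hx
    have hxb : x ∈ ball p (R / 2) := by rw [mem_ball]; linarith
    rw [← ha x hxb t ht (by have := dist_nonneg (x := x) (y := p); linarith)]
    rw [AR, AR]
    refine integral_congr_ae ?_
    filter_upwards [hb'] with z hz
    by_cases hzt : t ≤ dist x z
    · rw [Rk_supp ht hzt, mul_zero, mul_zero]
    · rw [hz]
      rw [mem_ball]
      have := dist_triangle z x p
      rw [dist_comm z x] at this
      linarith
  have hzero : ∀ x ∈ ball p (min (δ / 2) (R / 2)), G x = 0 := by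
    intro x hx
    rw [mem_ball, lt_min_iff] at hx
    have hs : 0 < min (δ / 2) (R / 2) := lt_min (by positivity) hR2
    have h1 := ha x (by rw [mem_ball]; exact hx.2) _ hs (min_le_right _ _)
    have h2 : AR (min (δ / 2) (R / 2)) v x = 0 := by
      rw [AR]
      rw [integral_eq_zero_of_ae]
      filter_upwards [h0] with z hz
      by_cases hzt : min (δ / 2) (R / 2) ≤ dist x z
      · rw [Rk_supp hs hzt, mul_zero]; rfl
      · rw [hz, zero_mul]; · rfl
        rw [mem_ball]
        have := dist_triangle z x p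
        rw [dist_comm z x] at this
        have := min_le_left (δ / 2) (R / 2)
        linarith [hx.1]
    rw [h2] at h1
    exact (mul_eq_zero.1 h1.symm).resolve_left hc.ne'
  obtain ⟨C, hC0, hC⟩ := AR_bdd (n := n)
  set M0 : ℝ := (cR n)⁻¹ * (((R / 2) ^ n)⁻¹ * C * ∫ z, |v z|) with hM0
  have hint0 : 0 ≤ ∫ z, |v z| := integral_nonneg fun z => abs_nonneg _
  have hM00 : 0 ≤ M0 := by positivity
  have hGb : ∀ x, |G x| ≤ M0 := by
    intro x
    rw [hGd]
    simp only
    rw [abs_mul, abs_of_pos (inv_pos.2 hc)]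
    exact mul_le_mul_of_nonneg_left (hC v hv.int _ hR2 x) (by positivity)
  have hfin : ∀ x ∈ ball p (κ * R), G x = 0 := by
    intro x hx
    rw [mem_ball, dist_eq_norm] at hx
    rcases eq_or_ne x p with h | h
    · rw [h]; exact hzero p (mem_ball_self (lt_min (by positivity) hR2))
    · have hn : 0 < ‖x - p‖ := norm_pos_iff.2 (sub_ne_zero.2 h)
      have h1 := uc_taylor hG hR hM00 hGb hmean (lt_min (by positivity) hR2) hzero
        (e := ‖x - p‖⁻¹ • (x - p)) (by rw [norm_smul, norm_inv, norm_norm, inv_mul_cancel₀ hn.ne'])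
        (τ := ‖x - p‖) hn.le (by nlinarith) (by
          calc 8 * (cD n + 1) * Real.exp 1 * ‖x - p‖ ≤ 8 * (cD n + 1) * Real.exp 1 * (κ * R) := by
                gcongr
            _ = (8 * (cD n + 1) * Real.exp 1 * κ) * R := by ring
            _ ≤ cR n * R := mul_le_mul_of_nonneg_right hκ2 hR.le)
      rw [smul_smul, mul_inv_cancel₀ hn.ne', one_smul, add_sub_cancel] at h1
      exact h1
  filter_upwards [hb'] with x hx hx2
  rw [hx (ball_subset_ball (by nlinarith) hx2)]
  exact hfin x hx2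

end Run7.h104.Tri
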