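import Pool.Agent.Run7.h104.Tri6

/-! # Global unique continuation, limit configurations -/

set_option autoImplicit false

open MeasureTheory Set Filter Topology Metric
open scoped InnerProductSpace ContDiff Laplacian

namespace Run7.h104.Tri

open Pool.Agent.Helper486.TP

variable {n : ℕ}

theorem uc {U : Set (E n)} (hU : IsOpen U) (hUc : IsPreconnected U) {v : E n → ℝ} (hv : HarmOn U v)
    {p : E n} (hp : p ∈ U) {δ : ℝ} (hδ : 0 < δ) (h0 : ∀ᵐ x, x ∈ ball p δ → v x = 0) :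
    ∀ᵐ x, x ∈ U → v x = 0 := by
  obtain ⟨κ, hκ, huc⟩ := uc_local (n := n)
  set W : Set (E n) := {x | ∃ ρ : ℝ, 0 < ρ ∧ ∀ᵐ y, y ∈ ball x ρ → v y = 0} with hW
  have hWo : IsOpen W := by
    rw [Metric.isOpen_iff]
    rintro x ⟨ρ, hρ, hx⟩
    refine ⟨ρ / 2, by positivity, fun y hy => ⟨ρ / 2, by positivity, ?_⟩⟩
    filter_upwards [hx] with z hz hz2
    apply hz
    rw [mem_ball] at hy hz2 ⊢
    have := dist_triangle z y x
    linarith
  have hcl : closure W ∩ U ⊆ W := by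
    rintro x ⟨hx, hxU⟩
    obtain ⟨r, hr, hrU⟩ := Metric.isOpen_iff.1 hU x hxU
    set R : ℝ := r / 3 with hR
    have hR0 : 0 < R := by positivity
    obtain ⟨w, hw, hwx⟩ := Metric.mem_closure_iff.1 hx (min R (κ * R / 2)) (lt_min hR0 (by positivity))
    rw [lt_min_iff] at hwx
    obtain ⟨ρ, hρ, hwρ⟩ := hw
    have h1 : closedBall w R ⊆ U := by
      refine Subset.trans (fun y hy => ?_) hrU
      rw [mem_closedBall] at hy
      rw [mem_ball]
      have := dist_triangle y w x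
      rw [dist_comm w x] at this
      linarith [hwx.1]
    have h2 := huc U v hv w R hR0 h1 ρ hρ hwρ
    refine ⟨κ * R / 2, by positivity, ?_⟩
    filter_upwards [h2] with z hz hz2
    apply hz
    rw [mem_ball] at hz2 ⊢
    have := dist_triangle z x w
    linarith [hwx.2]
  have hsub : U ⊆ W := hUc.subset_of_closure_inter_subset hWo ⟨p, hp, δ, hδ, h0⟩ hcl
  have hnull : volume ({x | v x ≠ 0} ∩ U) = 0 := by
    refine measure_null_of_locally_null _ fun x hx => ?_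
    obtain ⟨ρ, hρ, hxρ⟩ := hsub hx.2
    refine ⟨({x | v x ≠ 0} ∩ U) ∩ ball x ρ, inter_mem_nhdsWithin _ (ball_mem_nhds x hρ), ?_⟩
    refine measure_mono_null (fun y hy => ?_) (ae_iff.1 hxρ)
    intro h
    exact hy.1.1 (h hy.2)
  rw [ae_iff]
  refine measure_mono_null (fun y hy => ?_) hnull
  simp only [mem_setOf_eq, Classical.not_imp] at hy
  exact ⟨hy.2, hy.1⟩

lemma pt_ae {a : E n} {r : ℝ} {v : E n → ℝ} (hv : HarmOn (ball a r) v) :
    ∀ᵐ x, x ∈ ball a r → ∃ s : ℝ, 0 < s ∧ closedBall x s ⊆ ball a r ∧ AR s v x = cR n * v x := by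
  have h1 : ∀ k : ℕ, ∀ᵐ x, x ∈ ball a (r - 1 / ((k : ℝ) + 1)) →
      AR (1 / ((k : ℝ) + 1)) v x = cR n * v x := by
    intro k
    have hs : (0 : ℝ) < 1 / ((k : ℝ) + 1) := by positivity
    have := hv.ae_eq (V := ball a (r - 1 / ((k : ℝ) + 1))) measurableSet_ball hs (fun x hx y hy => by
      rw [mem_ball] at hx ⊢
      rw [mem_closedBall] at hy
      have := dist_triangle y x a
      linarith)
    exact (ae_restrict_iff' measurableSet_ball).1 this
  filter_upwards [ae_all_iff.2 h1] with x hx hxb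
  rw [mem_ball] at hxb
  obtain ⟨k, hk⟩ := exists_nat_one_div_lt (show 0 < r - dist x a by linarith)
  refine ⟨1 / ((k : ℝ) + 1), by positivity, ?_, hx k (by rw [mem_ball]; linarith)⟩
  intro y hy
  rw [mem_ball]
  rw [mem_closedBall] at hy
  have := dist_triangle y x a
  linarith

/-- a nonnegative harmonic function which vanishes where some nonzero function lives is zero -/
theorem pos_harm {a : E n} {r : ℝ} {v w : E n → ℝ} (hv : HarmOn (ball a r) v)
    (h0 : ∀ᵐ x, x ∈ ball a r → 0 ≤ v x) (hvw : ∀ᵐ x, x ∈ ball a r → v x * w x = 0)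
    (hw : ¬ ∀ᵐ x, x ∈ ball a r → w x = 0) : ∀ᵐ x, x ∈ ball a r → v x = 0 := by
  have h1 : ∃ x, x ∈ ball a r ∧ w x ≠ 0 ∧ (v x * w x = 0) ∧
      ∃ s : ℝ, 0 < s ∧ closedBall x s ⊆ ball a r ∧ AR s v x = cR n * v x := by
    by_contra hcon
    push Not at hcon
    refine hw ?_
    filter_upwards [hvw, pt_ae hv] with x hx1 hx2 hx3
    by_contra hx4
    obtain ⟨s, hs, hs1, hs2⟩ := hx2 hx3
    exact hcon x hx3 hx4 (hx1 hx3) s hs hs1 hs2
  obtain ⟨x, hxb, hwx, hvwx, s, hs, hs1, hs2⟩ := h1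
  have hvx : v x = 0 := (mul_eq_zero.1 hvwx).resolve_right hwx
  rw [hvx, mul_zero, AR] at hs2
  have hnn : 0 ≤ᵐ[volume] fun z => v z * Rk s x z := by
    filter_upwards [h0] with z hz
    by_cases hzs : s ≤ dist x z
    · rw [Rk_supp hs hzs, mul_zero]; exact le_rfl
    · refine mul_nonneg (hz (hs1 ?_)) (Rk_nonneg hs _ _)
      rw [mem_closedBall, dist_comm]; linarith
  have h2 := (integral_eq_zero_iff_of_nonneg_ae hnn (AR_int hv.int hs x)).1 hs2
  refine uc isOpen_ball (convex_ball a r).isPreconnected hv hxb hs ?_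
  filter_upwards [h2] with z hz hz2
  have h3 : v z * Rk s x z = 0 := hz
  rcases mul_eq_zero.1 h3 with h | h
  · exact h
  · exfalso
    rw [mem_ball, dist_comm] at hz2
    have : 0 < Rk s x z := mul_pos (by positivity) (kR_pos (scale_lt hs hz2))
    linarith

lemma HarmOn.sub {U : Set (E n)} {v w : E n → ℝ} (hv : HarmOn U v) (hw : HarmOn U w) :
    HarmOn U (fun x => v x - w x) where
  int := hv.int.sub hw.int
  eq := fun φ hφ => by
    have h1 := hv.eq φ hφ
    have h2 := hw.eq φ hφ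
    have h3 : ∀ x, (v x - w x) * (Δ φ) x = v x * (Δ φ) x - w x * (Δ φ) x := fun x => by ring
    simp_rw [h3]
    rw [integral_sub (hφ.integrable_mul_lap hv.int) (hφ.integrable_mul_lap hw.int), h1, h2, sub_zero]

/-- three disjoint functions with the same Laplacian -/
theorem three_disjoint {a : E n} {r : ℝ} {V₁ V₂ V₃ : E n → ℝ}
    (h12 : HarmOn (ball a r) (fun x => V₁ x - V₂ x)) (h13 : HarmOn (ball a r) (fun x => V₁ x - V₃ x))
    (p1 : ∀ᵐ x, x ∈ ball a r → 0 ≤ V₁ x) (p2 : ∀ᵐ x, x ∈ ball a r → 0 ≤ V₂ x)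
    (p3 : ∀ᵐ x, x ∈ ball a r → 0 ≤ V₃ x)
    (d12 : ∀ᵐ x, x ∈ ball a r → V₁ x * V₂ x = 0) (d13 : ∀ᵐ x, x ∈ ball a r → V₁ x * V₃ x = 0)
    (d23 : ∀ᵐ x, x ∈ ball a r → V₂ x * V₃ x = 0)
    (hne : ¬ ∀ᵐ x, x ∈ ball a r → V₁ x = 0) : ∀ᵐ x, x ∈ ball a r → V₂ x = 0 := by
  have hc : 0 < cR n := cR_pos
  have h1 : ∃ x, x ∈ ball a r ∧ V₁ x ≠ 0 ∧ 0 ≤ V₁ x ∧ V₁ x * V₂ x = 0 ∧ V₁ x * V₃ x = 0 ∧
      (∃ s : ℝ, 0 < s ∧ closedBall x s ⊆ ball a r ∧
        AR s (fun x => V₁ x - V₂ x) x = cR n * (V₁ x - V₂ x)) ∧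
      (∃ s : ℝ, 0 < s ∧ closedBall x s ⊆ ball a r ∧
        AR s (fun x => V₁ x - V₃ x) x = cR n * (V₁ x - V₃ x)) := by
    by_contra hcon
    refine hne ?_
    filter_upwards [p1, d12, d13, pt_ae h12, pt_ae h13] with x q1 q2 q3 q4 q5 q6
    by_contra q7
    exact hcon ⟨x, q6, q7, q1 q6, q2 q6, q3 q6, q4 q6, q5 q6⟩
  obtain ⟨x, hxb, hV1, hV1p, e12, e13, ⟨s, hs, hsU, hsx⟩, ⟨t, ht, htU, htx⟩⟩ := h1
  have hV2x : V₂ x = 0 := (mul_eq_zero.1 e12).resolve_left hV1
  have hV3x : V₃ x = 0 := (mul_eq_zero.1 e13).resolve_left hV1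
  have hV1x : 0 < V₁ x := lt_of_le_of_ne hV1p (Ne.symm hV1)
  set ρ : ℝ := min s t / 2 with hρd
  have hm : 0 < min s t := lt_min hs ht
  have hρ : 0 < ρ := by positivity
  have hρs : ρ ≤ s := by have := min_le_left s t; linarith
  have hρt : ρ ≤ t := by have := min_le_right s t; linarith
  have a12 : 0 < AR ρ (fun x => V₁ x - V₂ x) x := by
    rw [← h12.scale hρ hρs hsU, hsx, hV2x, sub_zero]; positivity
  have a13 : 0 < AR ρ (fun x => V₁ x - V₃ x) x := by
    rw [← h13.scale hρ hρt htU, htx, hV3x, sub_zero]; positivity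
  have n12 : ∀ᶠ y in 𝓝 x, 0 < AR ρ (fun x => V₁ x - V₂ x) y :=
    (AR_cont h12.int hρ).continuousAt.eventually (lt_mem_nhds a12)
  have n13 : ∀ᶠ y in 𝓝 x, 0 < AR ρ (fun x => V₁ x - V₃ x) y :=
    (AR_cont h13.int hρ).continuousAt.eventually (lt_mem_nhds a13)
  obtain ⟨η, hη, hηy⟩ := Metric.eventually_nhds_iff_ball.1 (n12.and n13)
  set θ : ℝ := min η ρ with hθ
  have hθ0 : 0 < θ := lt_min hη hρ
  have hin : ∀ y ∈ ball x θ, closedBall y ρ ⊆ ball a r := by
    intro y hy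
    refine Subset.trans (fun z hz => ?_) hsU
    rw [mem_ball] at hy
    rw [mem_closedBall] at hz ⊢
    have h4 := dist_triangle z y x
    have h5 : θ ≤ ρ := min_le_right _ _
    have h6 := min_le_left s t
    linarith
  have b12 := (ae_restrict_iff' measurableSet_ball).1
    (h12.ae_eq (V := ball x θ) measurableSet_ball hρ hin)
  have b13 := (ae_restrict_iff' measurableSet_ball).1
    (h13.ae_eq (V := ball x θ) measurableSet_ball hρ hin)
  have hsubball : ball x θ ⊆ ball a r := fun y hy => hin y hy (mem_closedBall_self hρ.le)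
  have hz23 : ∀ᵐ y, y ∈ ball x θ → V₂ y - V₃ y = 0 := by
    filter_upwards [b12, b13, p2, p3, d12, d13] with y c1 c2 c3 c4 c5 c6 hy
    have hyb := hsubball hy
    have hy' := hηy y (ball_subset_ball (min_le_left _ _) hy)
    have k1 := c1 hy
    have k2 := c2 hy
    have k3 : 0 < V₁ y - V₂ y := by
      have := hy'.1; rw [k1] at this; exact (mul_pos_iff_of_pos_left hc).1 this
    have k4 := c3 hyb
    have k5 : V₁ y ≠ 0 := by intro h; linarith
    have k6 : V₂ y = 0 := (mul_eq_zero.1 (c5 hyb)).resolve_left k5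
    have k7 : V₃ y = 0 := (mul_eq_zero.1 (c6 hyb)).resolve_left k5
    rw [k6, k7, sub_zero]
  have h23 : HarmOn (ball a r) (fun x => V₂ x - V₃ x) := by
    have h := h13.sub h12
    refine ⟨?_, fun φ hφ => ?_⟩
    · refine h.int.congr (Eventually.of_forall fun x => ?_)
      simp only; ring
    · rw [← h.eq φ hφ]
      congr 1; funext x; ring
  have hz := uc isOpen_ball (convex_ball a r).isPreconnected h23 hxb hθ0 hz23
  filter_upwards [hz, d23] with y k1 k2 hy
  have k3 := k1 hy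
  have k4 := k2 hy
  have k5 : V₂ y = V₃ y := by linarith
  rw [← k5] at k4
  exact mul_self_eq_zero.1 k4

end Run7.h104.Tri
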