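import Pool.Agent.Run7.h104.Tri7

/-! # The limit of a blow-up sequence -/

set_option autoImplicit false

open MeasureTheory Set Filter Topology Metric
open scoped InnerProductSpace ContDiff Laplacian

namespace Run7.h104.Tri

open Pool.Agent.Helper486.TP

variable {n : ℕ}

lemma lap_zero {φ : E n → ℝ} {x : E n} (hx : x ∉ tsupport φ) : (Δ φ) x = 0 := by
  rw [lap_eq]
  have h1 : iteratedFDeriv ℝ 2 φ x = 0 := by
    by_contra h
    exact hx (support_iteratedFDeriv_subset (𝕜 := ℝ) 2 h)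
  simp [h1]

lemma conv_test {l : Filter ℕ} {v : ℕ → E n → ℝ} {w : E n → ℝ} (hv : ∀ k, Integrable (v k))
    (hw : Integrable w) (h : Tendsto (fun k => ∫⁻ x in ball (0 : E n) 3, ‖v k x - w x‖ₑ) l (𝓝 0))
    {ψ : E n → ℝ} (hψ : Measurable ψ) {B : ℝ} (hB : ∀ x, |ψ x| ≤ B)
    (h0 : ∀ x, x ∉ ball (0 : E n) 3 → ψ x = 0) :
    Tendsto (fun k => ∫ x, v k x * ψ x) l (𝓝 (∫ x, w x * ψ x)) := by
  have hi : ∀ {u : E n → ℝ}, Integrable u → Integrable (fun x => u x * ψ x) := fun hu =>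
    hu.mul_bdd hψ.aestronglyMeasurable (Eventually.of_forall hB)
  rw [tendsto_iff_dist_tendsto_zero]
  have h1 : Tendsto (fun k => B * (∫⁻ x in ball (0 : E n) 3, ‖v k x - w x‖ₑ).toReal) l (𝓝 0) := by
    have := ((ENNReal.tendsto_toReal ENNReal.zero_ne_top).comp h).const_mul B
    simpa using this
  refine squeeze_zero (fun _ => dist_nonneg) (fun k => ?_) h1
  rw [Real.dist_eq, ← integral_sub (hi (hv k)) (hi hw)]
  have h2 : ∫ x, (v k x * ψ x - w x * ψ x) = ∫ x in ball (0 : E n) 3, (v k x - w x) * ψ x := by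
    rw [setIntegral_eq_integral_of_forall_compl_eq_zero (fun x hx => by rw [h0 x hx, mul_zero])]
    congr 1; funext x; ring
  rw [h2]
  have hd : Integrable (fun x => v k x - w x) (volume.restrict (ball (0 : E n) 3)) :=
    ((hv k).sub hw).restrict
  calc |∫ x in ball (0 : E n) 3, (v k x - w x) * ψ x|
      ≤ ∫ x in ball (0 : E n) 3, |(v k x - w x) * ψ x| := by
        simpa using norm_integral_le_integral_norm (μ := volume.restrict (ball (0 : E n) 3))
          (fun x => (v k x - w x) * ψ x)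
    _ ≤ ∫ x in ball (0 : E n) 3, B * ‖v k x - w x‖ := by
        refine integral_mono_of_nonneg (Eventually.of_forall fun x => abs_nonneg _)
          (hd.norm.const_mul B) (Eventually.of_forall fun x => ?_)
        simp only [abs_mul, Real.norm_eq_abs]
        rw [mul_comm]
        exact mul_le_mul_of_nonneg_right (hB x) (abs_nonneg _)
    _ = B * (∫⁻ x in ball (0 : E n) 3, ‖v k x - w x‖ₑ).toReal := by
        rw [integral_const_mul, integral_norm_eq_lintegral_enorm hd.aestronglyMeasurable]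

/-- nonnegativity passes to the limit -/
lemma limit_nonneg {l : Filter ℕ} [l.NeBot] {v : ℕ → E n → ℝ} {w : E n → ℝ} (hw : Integrable w)
    (h : Tendsto (fun k => ∫⁻ x in ball (0 : E n) 3, ‖v k x - w x‖ₑ) l (𝓝 0))
    (hn : ∀ k, ∀ᵐ x, x ∈ ball (0 : E n) 3 → 0 ≤ v k x) : ∀ᵐ x, x ∈ ball (0 : E n) 3 → 0 ≤ w x := by
  have h1 : ∀ k, ∫⁻ x in ball (0 : E n) 3, ENNReal.ofReal (-(w x)) ≤ ∫⁻ x in ball (0 : E n) 3, ‖v k x - w x‖ₑ := by
    intro k
    refine lintegral_mono_ae ?_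
    filter_upwards [(ae_restrict_iff' measurableSet_ball).2 (hn k)] with x hx
    rw [← ofReal_norm, Real.norm_eq_abs]
    exact ENNReal.ofReal_le_ofReal ((by linarith : -(w x) ≤ v k x - w x).trans (le_abs_self _))
  have h2 : ∫⁻ x in ball (0 : E n) 3, ENNReal.ofReal (-(w x)) = 0 :=
    le_antisymm (ge_of_tendsto h (Eventually.of_forall h1)) zero_le
  have hm : AEMeasurable (fun x => ENNReal.ofReal (-(w x))) (volume.restrict (ball (0 : E n) 3)) :=
    hw.aemeasurable.restrict.neg.ennreal_ofReal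
  rw [lintegral_eq_zero_iff' hm] at h2
  have h3 := (ae_restrict_iff' measurableSet_ball).1 h2
  filter_upwards [h3] with x hx hxb
  have := hx hxb
  simpa using this

/-- disjointness passes to the limit -/
lemma limit_disjoint {l : Filter ℕ} [l.NeBot] {v₁ v₂ : ℕ → E n → ℝ} {w₁ w₂ : E n → ℝ}
    (hv₁ : ∀ k, Integrable (v₁ k)) (hw₁ : Integrable w₁) (hw₂ : Integrable w₂)
    (h₁ : Tendsto (fun k => ∫⁻ x in ball (0 : E n) 3, ‖v₁ k x - w₁ x‖ₑ) l (𝓝 0))
    (h₂ : Tendsto (fun k => ∫⁻ x in ball (0 : E n) 3, ‖v₂ k x - w₂ x‖ₑ) l (𝓝 0))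
    (hn₁ : ∀ k, ∀ᵐ x, x ∈ ball (0 : E n) 3 → 0 ≤ v₁ k x)
    (hn₂ : ∀ k, ∀ᵐ x, x ∈ ball (0 : E n) 3 → 0 ≤ v₂ k x)
    (hd : ∀ k, ∀ᵐ x, x ∈ ball (0 : E n) 3 → v₁ k x * v₂ k x = 0) :
    ∀ᵐ x, x ∈ ball (0 : E n) 3 → w₁ x * w₂ x = 0 := by
  have p₁ := limit_nonneg hw₁ h₁ hn₁
  have p₂ := limit_nonneg hw₂ h₂ hn₂
  have h1 : ∀ k, ∫⁻ x in ball (0 : E n) 3, ENNReal.ofReal (min (w₁ x) (w₂ x)) ≤
      (∫⁻ x in ball (0 : E n) 3, ‖v₁ k x - w₁ x‖ₑ) + ∫⁻ x in ball (0 : E n) 3, ‖v₂ k x - w₂ x‖ₑ := by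
    intro k
    have m0 : AEMeasurable (fun x => ‖v₁ k x - w₁ x‖ₑ) (volume.restrict (ball (0 : E n) 3)) :=
      ((hv₁ k).aemeasurable.restrict.sub hw₁.aemeasurable.restrict).enorm
    rw [← lintegral_add_left' m0]
    refine lintegral_mono_ae ?_
    filter_upwards [(ae_restrict_iff' measurableSet_ball).2 (hd k)] with x hx
    rw [← ofReal_norm, ← ofReal_norm, ← ENNReal.ofReal_add (norm_nonneg _) (norm_nonneg _),
      Real.norm_eq_abs, Real.norm_eq_abs]
    refine ENNReal.ofReal_le_ofReal ?_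
    have a1 := neg_abs_le (v₁ k x - w₁ x)
    have a2 := neg_abs_le (v₂ k x - w₂ x)
    have b1 := abs_nonneg (v₁ k x - w₁ x)
    have b2 := abs_nonneg (v₂ k x - w₂ x)
    have m1 := min_le_left (w₁ x) (w₂ x)
    have m2 := min_le_right (w₁ x) (w₂ x)
    rcases mul_eq_zero.1 hx with h | h
    · rw [h] at a1 b1 ⊢
      simp only [zero_sub, abs_neg] at a1 b1 ⊢
      have := le_abs_self (w₁ x)
      linarith
    · rw [h] at a2 b2 ⊢
      simp only [zero_sub, abs_neg] at a2 b2 ⊢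
      have := le_abs_self (w₂ x)
      linarith
  have h2 : ∫⁻ x in ball (0 : E n) 3, ENNReal.ofReal (min (w₁ x) (w₂ x)) = 0 := by
    have h3 := h₁.add h₂
    rw [add_zero] at h3
    exact le_antisymm (ge_of_tendsto h3 (Eventually.of_forall h1)) zero_le
  have hm : AEMeasurable (fun x => ENNReal.ofReal (min (w₁ x) (w₂ x))) (volume.restrict (ball (0 : E n) 3)) :=
    (hw₁.aemeasurable.restrict.min hw₂.aemeasurable.restrict).ennreal_ofReal
  rw [lintegral_eq_zero_iff' hm] at h2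
  have h3 := (ae_restrict_iff' measurableSet_ball).1 h2
  filter_upwards [h3, p₁, p₂] with x hx q₁ q₂ hxb
  have a1 : min (w₁ x) (w₂ x) ≤ 0 := by simpa using hx hxb
  rcases min_le_iff.1 a1 with h | h
  · rw [le_antisymm h (q₁ hxb), zero_mul]
  · rw [le_antisymm h (q₂ hxb), mul_zero]

end Run7.h104.Tri
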