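import Pool.Agent.Run7.h104.Tri8

/-! # No blow-up sequence for three functions -/

set_option autoImplicit false

open MeasureTheory Set Filter Topology Metric
open scoped InnerProductSpace ContDiff Laplacian

namespace Run7.h104.Tri

open Pool.Agent.Helper486.TP

variable {n : ℕ}

/-- comparison of the masses in two balls -/
lemma growth : ∃ a b : ℝ, 0 < a ∧ 0 < b ∧ ∀ (f g : E n → ℝ) (M : Measure (E n)), IsFiniteMeasure M →
    LapOn (ball 0 9) f g M → (∀ᵐ x, x ∈ ball (0 : E n) 9 → 0 ≤ f x) →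
    a * (∫ x in ball (0 : E n) 4, |f x|) ≤ b * (∫ x in ball (0 : E n) 1, |f x|) + b * (M univ).toReal := by
  obtain ⟨CH, hCH0, hCH⟩ := Hk_le (n := n)
  obtain ⟨CR, hCR0, hCR⟩ := Rk_le (n := n)
  obtain ⟨z0, hz0, hz0m⟩ := (isCompact_closedBall (0 : E n) 4).exists_isMinOn
    ⟨0, mem_closedBall_self (by norm_num)⟩ (Rk_smooth 8 (0 : E n)).continuous.continuousOn
  set a : ℝ := Rk 8 0 z0 with ha
  have ha0 : 0 < a := by
    refine mul_pos (by positivity) (kR_pos (scale_lt (by norm_num) ?_))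
    rw [mem_closedBall, dist_comm] at hz0
    linarith
  set b : ℝ := max CR (56 * CH) with hb
  have hb0 : 0 < b := lt_max_of_lt_left hCR0
  refine ⟨a, b, ha0, hb0, fun f g M hM hl hn => ?_⟩
  have h8 : closedBall (0 : E n) 8 ⊆ ball 0 9 := closedBall_subset_ball (by norm_num)
  have h1 := ar_diff hl (x := 0) (s := 1) (h := 8) one_pos (by norm_num) h8
  have h2 : |∫ r in (1 : ℝ)..8, r * ∫ z, Hk r 0 z * g z ∂M| ≤ (8 * CH * (M univ).toReal) * |8 - 1| := by
    have := intervalIntegral.norm_integral_le_of_norm_le_const (a := (1 : ℝ)) (b := 8)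
      (f := fun r => r * ∫ z, Hk r 0 z * g z ∂M) (C := 8 * CH * (M univ).toReal) (fun r hr => by
        rw [uIoc_of_le (by norm_num)] at hr
        have hr0 : 0 < r := lt_trans one_pos hr.1
        rw [norm_mul, Real.norm_of_nonneg hr0.le]
        have h3 : ‖∫ z, Hk r 0 z * g z ∂M‖ ≤ CH * M.real univ := by
          refine norm_integral_le_of_norm_le_const (Eventually.of_forall fun z => ?_)
          rw [norm_mul, Real.norm_of_nonneg (Hk_nonneg hr0 _ _), Real.norm_eq_abs]
          calc Hk r 0 z * |g z| ≤ ((r ^ n)⁻¹ * CH) * 1 :=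
                mul_le_mul (hCH r hr0 0 z) (hl.bd z) (abs_nonneg _) (by positivity)
            _ ≤ CH := by
                rw [mul_one]
                have : (r ^ n)⁻¹ ≤ 1 := inv_le_one_of_one_le₀ (one_le_pow₀ hr.1.le)
                nlinarith
        calc r * ‖∫ z, Hk r 0 z * g z ∂M‖ ≤ 8 * (CH * M.real univ) :=
              mul_le_mul hr.2 h3 (norm_nonneg _) (by norm_num)
          _ = 8 * CH * (M univ).toReal := by rw [Measure.real]; ring)
    simpa using this
  have hT0 : 0 ≤ (M univ).toReal := ENNReal.toReal_nonneg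
  have h3 : (∫ z, f z * Rk 8 0 z) ≤ (∫ z, f z * Rk 1 0 z) + 56 * CH * (M univ).toReal := by
    have := le_abs_self (∫ r in (1 : ℝ)..8, r * ∫ z, Hk r 0 z * g z ∂M)
    rw [← h1] at this h2
    norm_num at h2
    linarith
  have h4 : a * (∫ x in ball (0 : E n) 4, |f x|) ≤ ∫ z, f z * Rk 8 0 z := by
    rw [← integral_const_mul]
    rw [← integral_indicator measurableSet_ball]
    have hi : Integrable ((ball (0 : E n) 4).indicator (fun x => a * |f x|)) :=
      (hl.int.abs.const_mul a).indicator measurableSet_ball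
    refine integral_mono_ae hi (AR_int hl.int (by norm_num) 0) ?_
    filter_upwards [hn] with x hx
    by_cases hx4 : x ∈ ball (0 : E n) 4
    · rw [indicator_of_mem hx4]
      have hfx := hx (ball_subset_ball (by norm_num) hx4)
      rw [abs_of_nonneg hfx, mul_comm]
      exact mul_le_mul_of_nonneg_left (hz0m (ball_subset_closedBall hx4)) hfx
    · rw [indicator_of_notMem hx4]
      by_cases hx8 : (8 : ℝ) ≤ dist 0 x
      · rw [Rk_supp (by norm_num) hx8, mul_zero]
      · refine mul_nonneg (hx ?_) (Rk_nonneg (by norm_num) _ _)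
        rw [mem_ball, dist_comm]; linarith
  have h5 : (∫ z, f z * Rk 1 0 z) ≤ CR * (∫ x in ball (0 : E n) 1, |f x|) := by
    rw [← integral_const_mul, ← integral_indicator measurableSet_ball]
    have hi : Integrable ((ball (0 : E n) 1).indicator (fun x => CR * |f x|)) :=
      (hl.int.abs.const_mul CR).indicator measurableSet_ball
    refine integral_mono_ae (AR_int hl.int one_pos 0) hi (Eventually.of_forall fun x => ?_)
    by_cases hx1 : x ∈ ball (0 : E n) 1
    · simp only
      rw [indicator_of_mem hx1]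
      have h6 := hCR 1 one_pos 0 x
      rw [one_pow, inv_one, one_mul] at h6
      calc f x * Rk 1 0 x ≤ |f x| * Rk 1 0 x :=
            mul_le_mul_of_nonneg_right (le_abs_self _) (Rk_nonneg one_pos _ _)
        _ ≤ |f x| * CR := mul_le_mul_of_nonneg_left h6 (abs_nonneg _)
        _ = CR * |f x| := mul_comm _ _
    · simp only
      rw [indicator_of_notMem hx1, Rk_supp one_pos, mul_zero]
      rw [mem_ball, not_lt, dist_comm] at hx1
      exact hx1
  have hL : 0 ≤ ∫ x in ball (0 : E n) 1, |f x| := integral_nonneg fun x => abs_nonneg _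
  calc a * (∫ x in ball (0 : E n) 4, |f x|) ≤ CR * (∫ x in ball (0 : E n) 1, |f x|) + 56 * CH * (M univ).toReal := by
        linarith
    _ ≤ b * (∫ x in ball (0 : E n) 1, |f x|) + b * (M univ).toReal :=
        add_le_add (mul_le_mul_of_nonneg_right (le_max_left _ _) hL)
          (mul_le_mul_of_nonneg_right (le_max_right _ _) hT0)

/-- data of a blow-up sequence -/
structure Blow (f g : Fin 3 → ℕ → E n → ℝ) (M : ℕ → Measure (E n)) (γ : Fin 3 → ℝ) (ε : ℕ → ℝ)
    (C : ℝ) : Prop where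
  fin : ∀ k, IsFiniteMeasure (M k)
  lap : ∀ j k, LapOn (ball 0 9) (f j k) (g j k) (M k)
  nn : ∀ j k, ∀ᵐ x, x ∈ ball (0 : E n) 9 → 0 ≤ f j k x
  dis : ∀ i j, i ≠ j → ∀ k, ∀ᵐ x, x ∈ ball (0 : E n) 9 → f i k x * f j k x = 0
  pos : ∀ k, 0 < (M k univ).toReal
  dbl : ∀ k, (M k univ).toReal ≤ C * (M k (closedBall 0 1)).toReal
  γpos : ∀ j, 0 < γ j
  err : ∀ j k, ∫ x, |g j k x - γ j| ∂(M k) ≤ ε k * (M k univ).toReal
  ε0 : Tendsto ε atTop (𝓝 0)

/-- normalisation -/
noncomputable def NN (f : E n → ℝ) (M : Measure (E n)) : ℝ :=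
  (∫ x in ball (0 : E n) 4, |f x|) + (M univ).toReal

noncomputable def vv (f : E n → ℝ) (M : Measure (E n)) (x : E n) : ℝ :=
  (NN f M)⁻¹ * (ball (0 : E n) 4).indicator f x

lemma NN_ge (f : E n → ℝ) (M : Measure (E n)) : (M univ).toReal ≤ NN f M := by
  have : 0 ≤ ∫ x in ball (0 : E n) 4, |f x| := integral_nonneg fun x => abs_nonneg _
  rw [NN]; linarith

lemma vv_int {f : E n → ℝ} (hf : Integrable f) (M : Measure (E n)) : Integrable (vv f M) :=
  (hf.indicator measurableSet_ball).const_mul _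

lemma vv_L1 {f : E n → ℝ} {M : Measure (E n)} (hN : 0 < NN f M) :
    ∫ x, |vv f M x| = (NN f M)⁻¹ * ∫ x in ball (0 : E n) 4, |f x| := by
  rw [← integral_indicator measurableSet_ball, ← integral_const_mul]
  congr 1
  funext x
  rw [vv, abs_mul, abs_of_pos (inv_pos.2 hN)]
  congr 1
  by_cases hx : x ∈ ball (0 : E n) 4
  · rw [indicator_of_mem hx, indicator_of_mem hx]
  · rw [indicator_of_notMem hx, indicator_of_notMem hx, abs_zero]

lemma vv_lap {f g : E n → ℝ} {M : Measure (E n)} [IsFiniteMeasure M] (hl : LapOn (ball 0 9) f g M)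
    {φ : E n → ℝ} (hφ : TestOn (ball 0 4) φ) :
    ∫ x, vv f M x * (Δ φ) x = (NN f M)⁻¹ * ∫ x, φ x * g x ∂M := by
  rw [← hl.eq φ (hφ.mono (ball_subset_ball (by norm_num))), ← integral_const_mul]
  congr 1
  funext x
  rw [vv]
  by_cases hx : x ∈ ball (0 : E n) 4
  · rw [indicator_of_mem hx]; ring
  · rw [indicator_of_notMem hx, lap_zero (fun h => hx (hφ.sub h))]; ring

lemma vv_lapOn {f g : E n → ℝ} {M : Measure (E n)} [IsFiniteMeasure M] (hl : LapOn (ball 0 9) f g M)
    (hN : 0 < NN f M) : LapOn (ball 0 4) (vv f M) g (ENNReal.ofReal (NN f M)⁻¹ • M) where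
  int := vv_int hl.int M
  meas := hl.meas
  bd := hl.bd
  eq := fun φ hφ => by
    rw [vv_lap hl hφ, integral_smul_measure, ENNReal.toReal_ofReal (by positivity), smul_eq_mul]

end Run7.h104.Tri
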