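import Pool.Agent.Run7.h104.Poi3

/-! # Solids with circular sections: absolute constants -/

set_option autoImplicit false
set_option linter.unusedSectionVars false
set_option linter.unusedVariables false

open MeasureTheory Filter Topology
open scoped ContDiff ENNReal NNReal RealInnerProductSpace

namespace Run7.h104

open Pool.Agent.R217.BN (E cexp sobS H01)
open Pool.Agent.R217.HS
open Pool.Agent.R217.KM

/-- the values attached to the inscribed cylinders -/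
def Vs (Ω : Set (E 3)) (k : ℕ) : Set ℝ :=
  {v | ∃ q z1 z2 : ℝ, 0 < q ∧ z1 < z2 ∧ Cyl Ω q z1 z2 ∧
    v = (k / q) ^ 2 + (Real.pi / (z2 - z1)) ^ 2}

/-- their infimum -/
noncomputable def mk (Ω : Set (E 3)) (k : ℕ) : ℝ := sInf (Vs Ω k)

section
variable {Ω : Set (E 3)}

lemma mk_le {k : ℕ} {q z1 z2 : ℝ} (hq : 0 < q) (hz : z1 < z2) (hC : Cyl Ω q z1 z2) :
    mk Ω k ≤ (k / q) ^ 2 + (Real.pi / (z2 - z1)) ^ 2 := by
  apply csInf_le
  · refine ⟨0, ?_⟩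
    rintro v ⟨q, z1, z2, -, -, -, rfl⟩
    positivity
  · exact ⟨q, z1, z2, hq, hz, hC, rfl⟩

lemma mk_near {k : ℕ} (hne : ∃ q z1 z2 : ℝ, 0 < q ∧ z1 < z2 ∧ Cyl Ω q z1 z2) {τ : ℝ}
    (hτ : 0 < τ) : ∃ q z1 z2 : ℝ, 0 < q ∧ z1 < z2 ∧ Cyl Ω q z1 z2 ∧
      (k / q) ^ 2 + (Real.pi / (z2 - z1)) ^ 2 < mk Ω k + τ := by
  obtain ⟨q, z1, z2, hq, hz, hC⟩ := hne
  have h1 : (Vs Ω k).Nonempty := ⟨_, q, z1, z2, hq, hz, hC, rfl⟩
  obtain ⟨v, ⟨q', z1', z2', a, b, c, rfl⟩, hv⟩ := exists_lt_of_csInf_lt h1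
    (lt_add_of_pos_right (mk Ω k) hτ)
  exact ⟨q', z1', z2', a, b, c, hv⟩

lemma cyl_rad {R : ℝ} (hR : 0 < R) (hb : ∀ x ∈ Ω, rr x ≤ R ^ 2) {q z1 z2 : ℝ} (hq : 0 < q)
    (hz : z1 < z2) (hC : Cyl Ω q z1 z2) : q ≤ R := by
  by_contra hc
  rw [not_le] at hc
  obtain ⟨s, hs1, hs2⟩ := exists_between hc
  have hs0 : 0 < s := hR.trans hs1
  have h1 : (!₂[s, 0, (z1 + z2) / 2] : E 3) ∈ Ω := by
    apply hC
    · simp
      exact pow_lt_pow_left₀ hs2 hs0.le two_ne_zero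
    · simp; linarith
    · simp; linarith
  have h2 := hb _ h1
  have h3 : s ^ 2 ≤ R ^ 2 := by simpa [rr] using h2
  have := le_of_sq_le_sq h3 hR.le
  linarith

lemma cyl_height {L : ℝ} (hL : 0 < L) (hb : ∀ x ∈ Ω, |x 2| ≤ L) {q z1 z2 : ℝ} (hq : 0 < q)
    (hz : z1 < z2) (hC : Cyl Ω q z1 z2) : z2 - z1 ≤ 2 * L := by
  have h : ∀ t ∈ Set.Ioo z1 z2, |t| ≤ L := by
    intro t ht
    have h1 : (!₂[0, 0, t] : E 3) ∈ Ω := by
      apply hC
      · simp; positivity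
      · simpa using ht.1
      · simpa using ht.2
    simpa using hb _ h1
  by_contra hc
  rw [not_le] at hc
  obtain ⟨ε, hε⟩ : ∃ ε, ε = (z2 - z1 - 2 * L) / 4 := ⟨_, rfl⟩
  have hε0 : 0 < ε := by rw [hε]; linarith
  have h1 := h (z1 + ε) ⟨by linarith, by linarith⟩
  have h2 := h (z2 - ε) ⟨by linarith, by linarith⟩
  rw [abs_le] at h1 h2
  linarith [h1.1, h2.2]

lemma mk_lower {R : ℝ} (hR : 0 < R) (hb : ∀ x ∈ Ω, rr x ≤ R ^ 2)
    (hne : ∃ q z1 z2 : ℝ, 0 < q ∧ z1 < z2 ∧ Cyl Ω q z1 z2) (k : ℕ) :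
    (k / R) ^ 2 ≤ mk Ω k := by
  obtain ⟨q, z1, z2, hq, hz, hC⟩ := hne
  have hn : (Vs Ω k).Nonempty := ⟨_, q, z1, z2, hq, hz, hC, rfl⟩
  apply le_csInf hn
  rintro v ⟨q, z1, z2, a, b, c, rfl⟩
  have h1 := cyl_rad hR hb a b c
  have h2 : (k:ℝ) / R ≤ k / q := div_le_div_of_nonneg_left (by positivity) a h1
  have h3 : ((k:ℝ) / R) ^ 2 ≤ (k / q) ^ 2 := pow_le_pow_left₀ (by positivity) h2 2
  have h4 : 0 ≤ (Real.pi / (z2 - z1)) ^ 2 := by positivity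
  linarith

lemma select {R : ℝ} (hR : 0 < R) (hb : ∀ x ∈ Ω, rr x ≤ R ^ 2)
    (hne : ∃ q z1 z2 : ℝ, 0 < q ∧ z1 < z2 ∧ Cyl Ω q z1 z2) {k1 : ℕ} {lam : ℝ}
    (hlam : mk Ω k1 ≤ lam) : ∃ k0, k1 ≤ k0 ∧ mk Ω k0 ≤ lam ∧ lam < mk Ω (k0 + 1) := by
  classical
  have hex : ∃ k, k1 ≤ k ∧ lam < mk Ω (k + 1) := by
    obtain ⟨n, hn⟩ := exists_nat_gt (R * (|lam| + 1))
    refine ⟨max k1 n, le_max_left _ _, ?_⟩
    have h1 := mk_lower hR hb hne (max k1 n + 1)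
    refine lt_of_lt_of_le ?_ h1
    have h2 : (n:ℝ) ≤ ((max k1 n + 1 : ℕ) : ℝ) := by
      exact_mod_cast (le_max_right k1 n).trans (Nat.le_succ _)
    have h3 : |lam| + 1 < ((max k1 n + 1 : ℕ) : ℝ) / R := by
      rw [lt_div_iff₀ hR]; linarith
    have h4 : lam < (|lam| + 1) ^ 2 := by
      nlinarith [le_abs_self lam, abs_nonneg lam]
    refine h4.trans_le ?_
    exact pow_le_pow_left₀ (by positivity) h3.le 2
  have h1 := Nat.find_spec hex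
  refine ⟨Nat.find hex, h1.1, ?_, h1.2⟩
  rcases eq_or_lt_of_le h1.1 with h | h
  · rw [← h]; exact hlam
  · have h2 := Nat.find_min hex (m := Nat.find hex - 1) (by omega)
    push Not at h2
    have h3 := h2 (by omega)
    have h4 : Nat.find hex - 1 + 1 = Nat.find hex := by omega
    rwa [h4] at h3

end

/-- **the theorem with absolute constants, axis = last coordinate axis** -/
theorem uni_core : ∃ C κ : ℝ, 0 < C ∧ 0 < κ ∧ ∀ Ω : Set (E 3), IsOpen Ω →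
    Bornology.IsBounded Ω →
    (∀ p ∈ frontier Ω, ∃ (y : E 3) (r : ℝ), 0 < r ∧ ‖p - y‖ = r ∧ ∀ x ∈ Ω, r ≤ ‖x - y‖) →
    (∀ x ∈ Ω, ∀ y : E 3, y 2 = x 2 → rr y ≤ rr x → y ∈ Ω) →
    ∀ (p : E 3) (r : ℝ), 0 < r → Metric.ball p r ⊆ Ω → ∀ lam : ℝ, C / r ^ 2 ≤ lam →
    ∃ T : Finset ℝ, κ * (r * √lam) ≤ T.card ∧
      ∀ t ∈ T, Set.Infinite {w | w ∈ Sol Ω lam ∧ ∫ x, w x ^ 6 = t} := by
  obtain ⟨N, κ, hN1, hκ0, hκ1, hbox⟩ := wedge_box
  obtain ⟨k1, hk1⟩ : ∃ k1 : ℕ, k1 = ⌈N⌉₊ + ⌈8 / κ⌉₊ + 1 := ⟨_, rfl⟩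
  have hk1N : N ≤ k1 := by
    have h1 := Nat.le_ceil N
    have h2 : ((⌈N⌉₊ : ℕ) : ℝ) ≤ k1 := by rw [hk1]; push_cast; linarith [Nat.cast_nonneg (α := ℝ) ⌈8 / κ⌉₊]
    linarith
  have hk1κ : 8 / κ ≤ k1 := by
    have h1 := Nat.le_ceil (8 / κ)
    have h2 : ((⌈8 / κ⌉₊ : ℕ) : ℝ) ≤ k1 := by rw [hk1]; push_cast; linarith [Nat.cast_nonneg (α := ℝ) ⌈N⌉₊]
    linarith
  have hk11 : 1 ≤ k1 := by rw [hk1]; omega
  have hk11' : (1:ℝ) ≤ k1 := by exact_mod_cast hk11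
  refine ⟨14 * k1 ^ 2, κ / 64, by positivity, by positivity, ?_⟩
  intro Ω hO hbd hext hNs p r hr hpr lam hlam
  have hπ := Real.pi_pos
  -- rotations
  have hrot : ∀ θ x, x ∈ Ω → rot θ x ∈ Ω := by
    intro θ x hx
    refine hNs x hx _ (by simp) (le_of_eq ?_)
    have h1 := Real.sin_sq_add_cos_sq θ
    unfold rr; simp
    linear_combination (x 0 ^ 2 + x 1 ^ 2) * h1
  have hror : ∀ θ x, x ∈ Ω → ror θ x ∈ Ω := by
    intro θ x hx
    refine hNs x hx _ (by simp) (le_of_eq ?_)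
    have h1 := Real.sin_sq_add_cos_sq θ
    unfold rr; simp
    linear_combination (x 0 ^ 2 + x 1 ^ 2) * h1
  -- bounds
  obtain ⟨R, hR0, hRb⟩ : ∃ R, 0 < R ∧ ∀ x ∈ Ω, ‖x‖ ≤ R := by
    obtain ⟨R, hR⟩ := hbd.exists_norm_le
    exact ⟨max R 1, by positivity, fun x hx => (hR x hx).trans (le_max_left _ _)⟩
  have hRr : ∀ x ∈ Ω, rr x ≤ R ^ 2 := by
    intro x hx
    have h1 := norm3 x
    have h2 : ‖x‖ ^ 2 ≤ R ^ 2 := pow_le_pow_left₀ (norm_nonneg _) (hRb x hx) 2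
    unfold rr
    nlinarith [sq_nonneg (x 2)]
  have hRz : ∀ x ∈ Ω, |x 2| ≤ R := by
    intro x hx
    have h1 := norm3 x
    have h2 : ‖x‖ ^ 2 ≤ R ^ 2 := pow_le_pow_left₀ (norm_nonneg _) (hRb x hx) 2
    apply abs_le_of_sq_le_sq _ hR0.le
    nlinarith [sq_nonneg (x 0), sq_nonneg (x 1)]
  -- the inscribed cylinder
  have hcyl : Cyl Ω (r / 2) (p 2 - r / 2) (p 2 + r / 2) := by
    intro x hx0 hx1 hx2
    obtain ⟨σ, hσ, hσp⟩ : ∃ σ : ℝ, σ ^ 2 = 1 ∧ 0 ≤ σ * p 0 := by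
      rcases le_total 0 (p 0) with h | h
      · exact ⟨1, by norm_num, by linarith⟩
      · exact ⟨-1, by norm_num, by linarith⟩
    have hy : (!₂[p 0 + σ * (r / 2), p 1, x 2] : E 3) ∈ Ω := by
      apply hpr
      rw [Metric.mem_ball, dist_eq_norm]
      have h1 : ‖(!₂[p 0 + σ * (r / 2), p 1, x 2] : E 3) - p‖ ^ 2 < r ^ 2 := by
        rw [norm3]
        simp
        nlinarith
      exact lt_of_pow_lt_pow_left₀ 2 hr.le h1
    refine hNs _ hy x (by simp) ?_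
    unfold rr
    simp
    nlinarith [sq_nonneg (p 1), sq_nonneg (p 0)]
  have hne : ∃ q z1 z2 : ℝ, 0 < q ∧ z1 < z2 ∧ Cyl Ω q z1 z2 :=
    ⟨_, _, _, by positivity, by linarith, hcyl⟩
  have hmk : ∀ k : ℕ, 1 ≤ k → mk Ω k ≤ 14 * k ^ 2 / r ^ 2 := by
    intro k hk
    have hk' : (1:ℝ) ≤ k := by exact_mod_cast hk
    refine (mk_le (by positivity) (by linarith) hcyl).trans ?_
    have e1 : p 2 + r / 2 - (p 2 - r / 2) = r := by ring
    rw [e1, div_pow, div_pow, div_pow, le_div_iff₀ (by positivity)]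
    have e2 : ((k:ℝ) ^ 2 / (r ^ 2 / 2 ^ 2) + Real.pi ^ 2 / r ^ 2) * r ^ 2 =
      4 * k ^ 2 + Real.pi ^ 2 := by field_simp; norm_num
    rw [e2]
    nlinarith [pi_sq_le]
  have hl1 : mk Ω k1 ≤ lam := (hmk k1 hk11).trans hlam
  obtain ⟨k0, hk0, hm0, hm1⟩ := select hR0 hRr hne hl1
  have hk0' : (k1:ℝ) ≤ k0 := by exact_mod_cast hk0
  have hk00 : (0:ℝ) < k0 := by linarith
  have hlam0 : 0 < lam := lt_of_lt_of_le (by positivity) hlam
  obtain ⟨N', hN'⟩ : ∃ N' : ℕ, N' = ⌊κ / 8 * k0⌋₊ := ⟨_, rfl⟩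
  have hN'1 : (N':ℝ) ≤ κ / 8 * k0 := by rw [hN']; exact Nat.floor_le (by positivity)
  have hN'2 : κ / 8 * k0 < N' + 1 := by rw [hN']; exact Nat.lt_floor_add_one _
  obtain ⟨T, hTc, hT⟩ := levels hO hbd hext hrot hror hlam0 (k0 + 1) N' (by omega)
    (fun k h1 h2 => ⟨mk Ω (k0 + 1), hm1, cyl_poincare hO hNs (by omega) (fun q z1 z2 a b c => by
      refine (mk_le a b c).trans ?_
      have h3 : (((k0 + 1 : ℕ) : ℝ) / q) ^ 2 ≤ ((k:ℝ) / q) ^ 2 := by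
        apply pow_le_pow_left₀ (by positivity)
        apply div_le_div_of_nonneg_right _ a.le
        exact_mod_cast h1
      linarith)⟩)
    (fun k h1 h2 => by
      obtain ⟨τ, hτ⟩ : ∃ τ, τ = κ / 2 * (Real.pi / (2 * R)) ^ 2 := ⟨_, rfl⟩
      have hτ0 : 0 < τ := by rw [hτ]; positivity
      obtain ⟨q, z1, z2, a, b, c, hv⟩ := mk_near (k := k0) hne hτ0
      have hh := cyl_height hR0 hRz a b c
      have hz : 0 < z2 - z1 := by linarith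
      have hkk0 : (k0:ℝ) ≤ k := by exact_mod_cast (by omega : k0 ≤ k)
      have hkpos : (0:ℝ) < k := by linarith
      refine hbox Ω k q z1 z2 lam (by omega) a b c (Or.inl (by linarith)) ?_
      have hτZ : τ ≤ κ / 2 * (Real.pi / (z2 - z1)) ^ 2 := by
        rw [hτ]
        apply mul_le_mul_of_nonneg_left _ (by positivity)
        apply pow_le_pow_left₀ (by positivity)
        exact div_le_div_of_nonneg_left hπ.le hz hh
      have hkN : (k:ℝ) ≤ k0 + 1 + κ / 8 * k0 := by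
        have : (k:ℝ) ≤ ((k0 + 1 + N' : ℕ) : ℝ) := by exact_mod_cast h2
        push_cast at this
        linarith
      have h8 : 8 ≤ κ * k0 := by
        rw [div_le_iff₀ hκ0] at hk1κ
        nlinarith
      have hsq : (k:ℝ) ^ 2 - k0 ^ 2 ≤ κ / 2 * k ^ 2 := by
        have g1 : (k:ℝ) ^ 2 - k0 ^ 2 = (k - k0) * (k + k0) := by ring
        have g2 : (k:ℝ) - k0 ≤ κ / 4 * k0 := by linarith
        have g3 : (k:ℝ) + k0 ≤ 2 * k := by linarith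
        have g4 : ((k:ℝ) - k0) * (k + k0) ≤ (κ / 4 * k0) * (2 * k) :=
          mul_le_mul g2 g3 (by positivity) (by positivity)
        have g5 : (κ / 4 * k0) * (2 * k) ≤ (κ / 4 * k) * (2 * k) := by
          apply mul_le_mul_of_nonneg_right _ (by positivity)
          exact mul_le_mul_of_nonneg_left hkk0 (by positivity)
        rw [g1]
        nlinarith
      have hsq2 : (k / q) ^ 2 - (k0 / q) ^ 2 ≤ κ / 2 * (k / q) ^ 2 := by
        rw [div_pow, div_pow, ← sub_div, mul_div_assoc']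
        exact div_le_div_of_nonneg_right hsq (by positivity)
      have hZ0 : 0 ≤ (Real.pi / (z2 - z1)) ^ 2 := by positivity
      have hK0 : 0 ≤ ((k:ℝ) / q) ^ 2 := by positivity
      nlinarith)
  refine ⟨T, ?_, hT⟩
  rw [hTc]
  push_cast
  have hsl : √lam ^ 2 = lam := Real.sq_sqrt hlam0.le
  have h2 : lam < 14 * ((k0 + 1 : ℕ) : ℝ) ^ 2 / r ^ 2 := lt_of_lt_of_le hm1 (hmk _ (by omega))
  rw [lt_div_iff₀ (by positivity)] at h2
  have h3 : r * √lam ≤ 8 * k0 := by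
    apply le_of_sq_le_sq _ (by positivity)
    rw [mul_pow, hsl]
    push_cast at h2
    nlinarith
  have h4 : κ / 64 * (r * √lam) ≤ κ / 64 * (8 * k0) := mul_le_mul_of_nonneg_left h3 (by positivity)
  linarith

end Run7.h104
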