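import Pool.Agent.Run7.h104.Ext

/-! # Compactness in `H_0^1` -/

set_option autoImplicit false
set_option linter.unusedSectionVars false
set_option linter.unusedVariables false

open MeasureTheory Filter Topology
open scoped ContDiff ENNReal NNReal RealInnerProductSpace

namespace Run7.h104

open Pool.Agent.R217.BN (E cexp sobS H01)
open Pool.Agent.R217.HS
open Pool.Agent.R217.KM

/-- bounded sequences in `H_0^1(D)` have subsequences converging strongly in `L²`, almost
everywhere, and weakly in the gradient -/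
theorem cpt {D : Set (E 3)} (hD : MeasurableSet D) (hb : Bornology.IsBounded D)
    {v : ℕ → E 3 → ℝ} {V : ℕ → E 3 → E 3} (h : ∀ k, H01 D (v k) (V k)) {M : ℝ}
    (hM : ∀ k, ∫ x, ‖V k x‖ ^ 2 ≤ M) :
    ∃ (u : E 3 → ℝ) (G : E 3 → E 3) (ns : ℕ → ℕ), StrictMono ns ∧ H01 D u G ∧
      Tendsto (fun k => ∫ x, (v (ns k) x - u x) ^ 2) atTop (𝓝 0) ∧
      (∀ᵐ x ∂(volume : Measure (E 3)), Tendsto (fun k => v (ns k) x) atTop (𝓝 (u x))) ∧
      Tendsto (fun k => ∫ x, ⟪V (ns k) x, G x⟫) atTop (𝓝 (∫ x, ‖G x‖ ^ 2)) := by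
  have hn : 3 ≤ 3 := le_rfl
  have hcomp := HH_complete hn hD hb
  choose U hU1 hU2 using fun k => exists_U hn hD hb (h k)
  have hM0 : 0 ≤ M := (integral_nonneg fun x => by positivity).trans (hM 0)
  have nU : ∀ k, ‖U k‖ ≤ Real.sqrt M := by
    intro k
    apply Real.le_sqrt_of_sq_le
    rw [norm_U]
    refine le_trans (le_of_eq ?_) (hM k)
    apply integral_congr_ae
    filter_upwards [hU2 k] with x hx
    rw [hx]
  have fact2 : Fact ((2:ℝ≥0∞) ≠ ⊤) := ⟨by norm_num⟩
  have hsc : SecondCountableTopology (Lp (E 3) 2 (volume : Measure (E 3))) := inferInstance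
  have hsc2 : SecondCountableTopology (HH D) := TopologicalSpace.Subtype.secondCountableTopology _
  have hsep : TopologicalSpace.SeparableSpace (HH D) := inferInstance
  obtain ⟨z, ns, hns, hz⟩ := exists_weak_subseq U nU
  -- strong convergence in `L²(D)`
  have hcl : IsCompact (closure (io hn hD hb '' Metric.closedBall 0 (Real.sqrt M))) :=
    TotallyBounded.isCompact_of_isClosed (io_cpt hn hD hb _).closure isClosed_closure
  obtain ⟨y, -, ms, hms, hy⟩ := hcl.tendsto_subseq (x := fun k => io hn hD hb (U (ns k)))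
    fun k => subset_closure ⟨U (ns k), by simpa using nU (ns k), rfl⟩
  have hyz : y = io hn hD hb z := by
    apply ext_inner_right ℝ
    intro w
    have h1 : Tendsto (fun k => ⟪io hn hD hb (U (ns (ms k))), w⟫) atTop (𝓝 ⟪y, w⟫) :=
      hy.inner tendsto_const_nhds
    have h2 : Tendsto (fun k => ⟪io hn hD hb (U (ns (ms k))), w⟫) atTop
        (𝓝 ⟪io hn hD hb z, w⟫) := by
      have h3 := (hz ((ContinuousLinearMap.adjoint (io hn hD hb)) w)).comp hms.tendsto_atTop
      simp only [ContinuousLinearMap.adjoint_inner_right] at h3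
      exact h3
    exact tendsto_nhds_unique h1 h2
  rw [hyz] at hy
  obtain ⟨u, hu⟩ : ∃ u : E 3 → ℝ, u = (fn hn hD hb z : E 3 → ℝ) := ⟨_, rfl⟩
  obtain ⟨G, hG⟩ : ∃ G : E 3 → E 3, G = ((z : Lp (E 3) 2 (volume : Measure (E 3))) : E 3 → E 3) :=
    ⟨_, rfl⟩
  have huG : H01 D u G := by rw [hu, hG]; exact fn_h01 hn hD hb z
  have hsub : ∀ k, H01 D (fun x => v k x - u x) (fun x => V k x - G x) := fun k =>
    h01_sub (h k) huG
  have hsq : Tendsto (fun k => ∫ x, (v (ns (ms k)) x - u x) ^ 2) atTop (𝓝 0) := by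
    have h1 : Tendsto (fun k => ‖io hn hD hb (U (ns (ms k))) - io hn hD hb z‖ ^ 2) atTop (𝓝 0) := by
      have := (tendsto_iff_norm_sub_tendsto_zero.1 hy).pow 2
      simpa using this
    refine h1.congr fun k => ?_
    have h2 := norm_sq_toLp (Lp.memLp (io hn hD hb (U (ns (ms k))) - io hn hD hb z))
    rw [Lp.toLp_coeFn] at h2
    rw [h2]
    have h3 : ∫ x in D, (v (ns (ms k)) x - u x) ^ 2 = ∫ x, (v (ns (ms k)) x - u x) ^ 2 := by
      apply set_eq hD
      filter_upwards [(h01_zero hD (hsub (ns (ms k)))).1] with x hx hxD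
      rw [hx hxD]; norm_num
    rw [← h3]
    apply integral_congr_ae
    have a1 := Lp.coeFn_sub (io hn hD hb (U (ns (ms k)))) (io hn hD hb z)
    have a2 := io_ae hn hD hb (U (ns (ms k)))
    have a3 := io_ae hn hD hb z
    have a4 := ae_restrict_of_ae (s := D) (hU1 (ns (ms k)))
    filter_upwards [a1, a2, a3, a4] with x b1 b2 b3 b4
    rw [b1, Pi.sub_apply, b2, b3, b4, hu, Real.norm_eq_abs, sq_abs]
  have hlt : LTo volume (fun k => v (ns (ms k))) u := by
    apply lTo_of_sq (fun k => (h _).1) huG.1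
    simpa only [Real.norm_eq_abs, sq_abs] using hsq
  obtain ⟨ls, hls, hae⟩ := hlt.ae (fun k => (h _).1) huG.1
  refine ⟨u, G, fun k => ns (ms (ls k)), (hns.comp hms).comp hls, huG,
    hsq.comp hls.tendsto_atTop, hae, ?_⟩
  have h1 := (hz z).comp ((hms.comp hls).tendsto_atTop)
  have h2 : ⟪z, z⟫ = ∫ x, ‖G x‖ ^ 2 := by
    rw [real_inner_self_eq_norm_sq, norm_U, hG]
  rw [h2] at h1
  refine h1.congr fun k => ?_
  simp only [Function.comp_apply]
  rw [inner_U]
  apply integral_congr_ae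
  filter_upwards [hU2 (ns (ms (ls k)))] with x hx
  rw [hx, hG]

end Run7.h104
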